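import Pool.Agent.Lib.F4.BlueA
import Pool.Agent.Lib.HS32.MAll

/-! Project f4: the exterior derivative and the change of chart. -/

open scoped Classical Topology ContDiff ComplexOrder Matrix
open Set Filter

noncomputable section

namespace Pool.Agent.Lib.F4

open Pool.Agent.Lib.SV (E)
open Pool.Agent.Lib.HS32 Pool.Agent.Lib.HLK

namespace D1

variable {n : ℕ}

theorem comp {ψ β γ : E n → E n} {z : E n} {a : ℤ} (hψ : HolN ψ z) (h0 : (jm ψ z).det ≠ 0)
    (hβ : ∀ i, HolN (fun w => β w i) (ψ z))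
    (e : ∀ᶠ w in 𝓝 z, γ w = (jm ψ w).det ^ a • (β (ψ w) ᵥ* jm ψ w)) (i j : Fin n) :
    dz i (fun w => γ w j) z = a * dz i (fun w => (jm ψ w).det) z / (jm ψ z).det * γ z j +
      (jm ψ z).det ^ a * (∑ b, (∑ c, dz c (fun w => β w b) (ψ z) * jm ψ z c i) * jm ψ z b j +
        ∑ b, β (ψ z) b * dM i (jm ψ) z b j) := by
  obtain ⟨s1, s2, -, -, s5, -, -, -, -, s10, -⟩ := mCHN n ψ z hψ
  have dβ : ∀ b, DifferentiableAt ℝ (fun w => β w b) (ψ z) :=
    fun b => cd_diff ((mHOL n _ _).2.2 (hβ b)).1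
  have dc : ∀ b, DifferentiableAt ℝ (fun w => β (ψ w) b) z :=
    fun b => (dβ b).comp z (cd_diff s1)
  have dg : DifferentiableAt ℝ (fun w => (jm ψ w).det) z := cd_diff ((mHOL n _ _).2.2 s5).1
  have hz := hasDerivAt_zpow a (jm ψ z).det (Or.inl h0)
  have dp : DifferentiableAt ℝ (fun w => (jm ψ w).det ^ a) z :=
    DifferentiableAt.comp (g := fun t : ℂ => t ^ a) z (hz.differentiableAt.restrictScalars ℝ) dg
  have e1 : (fun w => γ w j) =ᶠ[𝓝 z]
      fun w => (jm ψ w).det ^ a * ∑ b, β (ψ w) b * jm ψ w b j := by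
    filter_upwards [e] with w hw
    rw [hw]
    rfl
  have dt : ∀ b ∈ Finset.univ, DifferentiableAt ℝ (fun w => β (ψ w) b * jm ψ w b j) z :=
    fun b _ => (dc b).mul (s2.diff b j)
  have e2 : γ z j = (jm ψ z).det ^ a * ∑ b, β (ψ z) b * jm ψ z b j := e1.self_of_nhds
  have e3 : ∀ b, dz i (fun w => β (ψ w) b * jm ψ w b j) z =
      (∑ c, dz c (fun w => β w b) (ψ z) * jm ψ z c i) * jm ψ z b j +
        β (ψ z) b * dM i (jm ψ) z b j := fun b => by
    rw [dz_mul (dc b) (s2.diff b j), ← (s10 _ (dβ b) i).1]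
    rfl
  rw [dz_congr e1, dz_mul dp (DifferentiableAt.fun_sum dt), dz_sum dt,
    dz_comp (φ := fun t => t ^ a) hz dg, e2, Finset.sum_congr rfl fun b _ => e3 b,
    Finset.sum_add_distrib, zpow_sub_one₀ h0]
  field_simp

theorem euc {ψ β γ : E n → E n} {z : E n} {a : ℤ} (hψ : HolN ψ z) (h0 : (jm ψ z).det ≠ 0)
    (hβ : ∀ i, HolN (fun w => β w i) (ψ z))
    (e : ∀ᶠ w in 𝓝 z, γ w = (jm ψ w).det ^ a • (β (ψ w) ᵥ* jm ψ w)) :
    d1 γ z = (jm ψ z).det ^ a • ((jm ψ z)ᵀ * d1 β (ψ z) * jm ψ z) +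
      wg (fun k => a * dz k (fun w => (jm ψ w).det) z / (jm ψ z).det) (γ z) := by
  have cl := (mCHN n ψ z hψ).2.2.1
  ext i j
  have e1 : ∑ b, β (ψ z) b * dM j (jm ψ) z b i = ∑ b, β (ψ z) b * dM i (jm ψ) z b j :=
    Finset.sum_congr rfl fun b _ => by rw [cl b i j]
  have e2 : ((jm ψ z)ᵀ * d1 β (ψ z) * jm ψ z) i j =
      ∑ b, (∑ c, dz c (fun w => β w b) (ψ z) * jm ψ z c i) * jm ψ z b j -
        ∑ b, (∑ c, dz c (fun w => β w b) (ψ z) * jm ψ z c j) * jm ψ z b i := by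
    simp only [Matrix.mul_apply, Matrix.transpose_apply, d1, Matrix.of_apply, mul_sub,
      Finset.sum_sub_distrib, sub_mul, Finset.sum_mul]
    rw [Finset.sum_comm (f := fun b c => dz c (fun w => β w b) (ψ z) * jm ψ z c j * jm ψ z b i)]
    exact congrArg₂ _ (Finset.sum_congr rfl fun b _ => Finset.sum_congr rfl fun c _ => by ring)
      (Finset.sum_congr rfl fun b _ => Finset.sum_congr rfl fun c _ => by ring)
  rw [Matrix.add_apply, Matrix.smul_apply, e2, d1, Matrix.of_apply, comp hψ h0 hβ e i j,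
    comp hψ h0 hβ e j i, e1, wg, Matrix.of_apply, smul_eq_mul]
  ring

end D1

theorem st_D1 : St_D1 := by
  intro n M a α h
  refine ⟨fun e he z hz i j => ?_, fun e z => ?_, fun e he e' he' x hx hx' => ?_⟩
  · filter_upwards [((mHOL n _ _).2.2 (h.hol e he z hz j)).2.1 i,
      ((mHOL n _ _).2.2 (h.hol e he z hz i)).2.1 j] with w h1 h2 using h1.sub h2
  · ext i j
    simp only [d1, Matrix.transpose_apply, Matrix.of_apply, Matrix.neg_apply, neg_sub]
  · obtain ⟨t1, t2, -, t4, -⟩ := (mTR n M).2.1 e he e' he' x hx hx'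
    have ex : (e ∘ e'.symm) (e' x) = e x := congrArg e (e'.left_inv hx')
    have := D1.euc (β := α e) (γ := α e') (a := a) t1 t2
      (by rw [ex]; exact h.hol e he _ (e.map_source hx)) (by
        filter_upwards [t4] with w ⟨_, w2, w3, _, _, w6, w7⟩
        have := h.cmp e he e' he' _ w2 w3
        beta_reduce at this
        rw [w6] at this
        rw [this, ← w7]
        rfl)
    rw [ex] at this
    exact this

end Pool.Agent.Lib.F4
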