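import Pool.Agent.Lib.F4.BlueA
import Pool.Agent.Lib.HS32.MAll

/-! Project f4: global division of tensors. -/

open scoped Classical Topology ContDiff ComplexOrder Matrix
open Set Filter

set_option linter.unusedVariables false

noncomputable section

namespace Pool.Agent.Lib.F4

open Pool.Agent.Lib.SV (E)
open Pool.Agent.Lib.HS32 Pool.Agent.Lib.HLK

namespace DIV90

/-- Division of families of vectors. -/
theorem gen90 (hLOC : St_LOC) {n : ℕ} (M : Mf n) (σ : Type) [Fintype σ] (a : ℤ)
    (u w : M.Fam (σ → ℂ)) (hu : Hol u) (hw : Hol w) (hr : Rem M u) (hd : Den M u)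
    (hp : M.All fun e z => ∀ i j, w e z i * u e z j = w e z j * u e z i)
    (hc : M.Ov fun e e' x => ∀ c : ℂ, w e (e x) = c • u e (e x) →
      w e' (e' x) = (jd M e e' x ^ a * c) • u e' (e' x)) :
    ∃ s, H0 M a s ∧ M.All fun e z => w e z = s e z • u e z := by
  have hex : ∀ e : M.Ch, ∃ b : E n → ℂ, e ∈ M.C →
      DifferentiableOn ℂ b e.target ∧ ∀ z ∈ e.target, w e z = b z • u e z := by
    intro e
    by_cases he : e ∈ M.C
    · obtain ⟨b, h1, h2⟩ := hLOC n σ e.target e.target (u e) (w e) e.open_target Subset.rfl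
        (hr e he)
        (fun z hz => (differentiableAt_pi.2 fun i =>
          (hu e he z hz i).self_of_nhds).differentiableWithinAt)
        (fun z hz => (differentiableAt_pi.2 fun i =>
          (hw e he z hz i).self_of_nhds).differentiableWithinAt)
        (fun z hz => hd e he z hz) (fun z hz => hp e he z hz)
      exact ⟨b, fun _ => ⟨h1, h2⟩⟩
    · exact ⟨0, fun h => (he h).elim⟩
  choose s hs using hex
  have hol : M.All fun e z => HolN (s e) z := fun e he z hz => by
    filter_upwards [e.open_target.mem_nhds hz] with y hy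
    exact ((hs e he).1 y hy).differentiableAt (e.open_target.mem_nhds hy)
  refine ⟨s, ⟨hol, fun e he e' he' x hx hx' => ?_⟩, fun e he z hz => (hs e he).2 z hz⟩
  obtain ⟨t1, t2, -, t4, -⟩ := (mTR n M).2.1 e he e' he' x hx hx'
  have c1 : ContinuousAt (s e') (e' x) :=
    (hol e' he' _ (e'.map_source hx')).self_of_nhds.continuousAt
  have c2 : ContinuousAt (fun y => (jm (e ∘ e'.symm) y).det) (e' x) :=
    (mCHN n _ _ t1).2.2.2.2.1.self_of_nhds.continuousAt
  have e1 : (e ∘ e'.symm) (e' x) = e x := by
    simp only [Function.comp_apply, e'.left_inv hx']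
  have c3 : ContinuousAt (fun y => s e ((e ∘ e'.symm) y)) (e' x) := by
    refine ContinuousAt.comp (g := s e) ?_ t1.self_of_nhds.continuousAt
    rw [e1]
    exact (hol e he _ (e.map_source hx)).self_of_nhds.continuousAt
  have c4 : ContinuousAt
      (fun y => (jm (e ∘ e'.symm) y).det ^ a * s e ((e ∘ e'.symm) y)) (e' x) :=
    (c2.zpow₀ a (Or.inl t2)).mul c3
  have fr : ∃ᶠ y in 𝓝 (e' x),
      s e' y = (jm (e ∘ e'.symm) y).det ^ a * s e ((e ∘ e'.symm) y) := by
    refine ((hd e' he' _ (e'.map_source hx')).and_eventually t4).mono ?_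
    rintro y ⟨y0, y1, y2, y3, y4, -, y6, y7⟩
    have k1 := hc e he e' he' _ y2 y3 _ ((hs e he).2 _ y4)
    rw [y6, (hs e' he').2 y y1] at k1
    have k2 := smul_left_injective ℂ y0 k1
    rw [k2]
    simp only [jd, y7, Function.comp_apply]
  have := tendsto_nhds_unique_of_frequently_eq c1 c4 fr
  rw [this, ← e1]
  rfl

theorem canV {n : ℕ} {J : Mat n} (hJ : J.det ≠ 0) {x y : E n} (h : J *ᵥ x = J *ᵥ y) : x = y := by
  have hu : IsUnit J.det := isUnit_iff_ne_zero.2 hJ
  have := congrArg (fun v => J⁻¹ *ᵥ v) h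
  simpa only [Matrix.mulVec_mulVec, Matrix.nonsing_inv_mul _ hu, Matrix.one_mulVec] using this

theorem canM {n : ℕ} {J : Mat n} (hJ : J.det ≠ 0) {x y : Mat n} (h : J * x * Jᵀ = J * y * Jᵀ) :
    x = y := by
  have hu : IsUnit J := (Matrix.isUnit_iff_isUnit_det J).2 (isUnit_iff_ne_zero.2 hJ)
  have ht : IsUnit Jᵀ := (Matrix.isUnit_iff_isUnit_det _).2
    (isUnit_iff_ne_zero.2 (by rwa [Matrix.det_transpose]))
  exact hu.mul_left_cancel (ht.mul_right_cancel h)

theorem third {n : ℕ} (M : Mf n) (F G : Type) [Zero F] [Zero G] (u : M.Fam F) (v : M.Fam G)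
    (h : M.All fun e z => u e z = 0 ↔ v e z = 0) :
    (Rem M u → Rem M v) ∧ (Den M u → Den M v) ∧ (Zr M u → Zr M v) := by
  refine ⟨fun hr e he U f hU hs hf => ?_, fun hd e he z hz => ?_,
    fun h0 e he z hz => (h e he z hz).1 (h0 e he z hz)⟩
  · have k : U \ {z | v e z = 0} = U \ {z | u e z = 0} := by
      ext z
      exact and_congr_right fun hz => not_congr (h e he z (hs hz)).symm
    rw [k] at hf ⊢
    exact hr e he U f hU hs hf
  · refine ((hd e he z hz).and_eventually (e.open_target.mem_nhds hz)).mono ?_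
    rintro y ⟨y0, y1⟩ y2
    exact y0 ((h e he y y1).2 y2)

end DIV90

open DIV90 in
theorem st_DIV (hLOC : St_LOC) : St_DIV := by
  intro n M a b
  refine ⟨fun u w huw hr hd hp => ?_, fun u w hu hw hr hd hp => ?_, third M⟩
  · have hp' : M.All fun e z => ∀ i j, w e z i * u e z j = w e z j * u e z i := by
      intro e he z hz i j
      have := congrFun (congrFun (hp e he z hz) i) j
      simp only [wg, Matrix.of_apply, Matrix.zero_apply] at this
      linear_combination this
    rcases huw with ⟨hu, hw⟩ | ⟨hu, hw⟩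
    · refine gen90 hLOC M _ a u w hu.hol hw.hol hr hd hp' fun e he e' he' x hx hx' c hc => ?_
      have t2 := ((mTR n M).2.1 e he e' he' x hx hx').2.1
      rw [hw.cmp e he e' he' x hx hx', hu.cmp e he e' he' x hx hx', hc, Matrix.smul_vecMul,
        smul_smul, smul_smul, zpow_add₀ t2]
      congr 1
      ring
    · refine gen90 hLOC M _ a u w hu.hol hw.hol hr hd hp' fun e he e' he' x hx hx' c hc => ?_
      have t2 := ((mTR n M).2.1 e he e' he' x hx hx').2.1
      refine canV t2 ?_
      rw [Matrix.mulVec_smul, hw.cmp e he e' he' x hx hx', hu.cmp e he e' he' x hx hx', hc,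
        smul_smul, smul_smul, zpow_add₀ t2]
      congr 1
      ring
  · have h3 := third M _ _ u (fun e z (p : Fin n × Fin n) => u e z p.1 p.2) fun e he z hz =>
      ⟨fun h => by funext p; simp only [h, Matrix.zero_apply, Pi.zero_apply],
        fun h => by ext i j; exact congrFun h (i, j)⟩
    obtain ⟨s, s1, s2⟩ := gen90 hLOC M (Fin n × Fin n) a
      (fun e z p => u e z p.1 p.2) (fun e z p => w e z p.1 p.2)
      (fun e he z hz p => hu.hol e he z hz p.1 p.2) (fun e he z hz p => hw.hol e he z hz p.1 p.2)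
      (h3.1 hr) (h3.2.1 hd) (fun e he z hz p q => hp e he z hz p.1 p.2 q.1 q.2)
      fun e he e' he' x hx hx' c hc => by
        have t2 := ((mTR n M).2.1 e he e' he' x hx hx').2.1
        have hc' : w e (e x) = c • u e (e x) := by
          ext i j
          exact congrFun hc (i, j)
        have k : w e' (e' x) = (jd M e e' x ^ a * c) • u e' (e' x) := by
          refine canM t2 ?_
          rw [Matrix.mul_smul, Matrix.smul_mul, hw.cmp e he e' he' x hx hx',
            hu.cmp e he e' he' x hx hx', hc', smul_smul, smul_smul, zpow_add₀ t2]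
          congr 1
          ring
        funext p
        exact congrFun (congrFun k p.1) p.2
    refine ⟨s, s1, fun e he z hz => ?_⟩
    ext i j
    exact congrFun (s2 e he z hz) (i, j)

end Pool.Agent.Lib.F4
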