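import Pool.Agent.Lib.F4.BlueA

/-! Project f4: the flag exists. -/

open scoped Classical Topology ContDiff ComplexOrder Matrix
open Set Filter

set_option linter.unusedVariables false

noncomputable section

namespace Pool.Agent.Lib.F4

open Pool.Agent.Lib.SV (E)
open Pool.Agent.Lib.HS32 Pool.Agent.Lib.HLK

theorem st_FLAG (hPT1 : St_PT1) (hPT2 : St_PT2) (hOP : St_OP) (hOS : St_OS) (hIDT : St_IDT)
    (hDIV : St_DIV) : St_FLAG := by
  intro M _ S V W hM hS nS hV hW hI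
  obtain ⟨hP, hpf⟩ := (hOS M 0 S).1 hS
  have pf0 := hM.z0 _ (by norm_num) _ hpf
  have hc : ∀ {U}, HT M 1 U → H1 M 1 fun e z => U e z ᵥ* S e z := fun h =>
    (hOP 4 M 0 1 0 _ 0 S).2.1 hS h
  have nV : ¬Zr M V := fun h => one_ne_zero (hI 1 0 fun e he z hz => by
    beta_reduce
    rw [h e he z hz]
    simp).1
  have nVW : ¬Zr M fun e z => wg (V e z) (W e z) := fun h => by
    obtain ⟨s, s1, s2⟩ := (hDIV 4 M 0 1).1 V W (Or.inr ⟨hV, hW⟩) (hM.rT V hV nV)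
      ((hIDT 4 M 1).1 V (Or.inr hV) nV) fun e he z hz => by
        beta_reduce
        rw [(hPT2.2 4 0 0 _ _).2.1, show wg (V e z) (W e z) = 0 from h e he z hz, neg_zero]
    obtain ⟨c, hc⟩ := (hIDT 4 M 0).2.2 s s1
    exact one_ne_zero (hI (-c) 1 fun e he z hz => by
      beta_reduce
      rw [s2 e he z hz, hc e he z hz]
      simp).2
  have sk : M.All fun e z => (st (S e z) = 0 ↔ S e z = 0) := fun e he z hz =>
    ⟨fun h => by
      rw [← ((hPT1 _).2.2 (hS.alt e he z hz)).1, h, ← zero_smul ℂ (0 : Mat 4), ((hPT1 0).2.1 0).1,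
        zero_smul, zero_smul],
    fun h => by rw [h, ← zero_smul ℂ (0 : Mat 4), ((hPT1 0).2.1 0).1, zero_smul, zero_smul]⟩
  obtain ⟨k1, k2, -⟩ := (hDIV 4 M 0 0).2.2 _ _ S (fun e z => st (S e z))
    fun e he z hz => (sk e he z hz).symm
  by_cases h2 : Zr M fun e z => W e z ᵥ* S e z
  · refine ⟨W, V, hM, hS, hP, hW, hV, hc hV, fun _ _ => rfl, fun _ _ => rfl, pf0, h2, fun h1 => ?_,
      fun h => nVW fun e he z hz => ?_⟩
    · obtain ⟨s, s1, s2⟩ := (hDIV 4 M 1 1).2.1 _ _ hP ((hOP 4 M 1 1 0 V W 0).2.2.2.1 hV hW)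
        (k1 (hM.r2 S (Or.inl hS) nS)) (k2 ((hIDT 4 M 0).2.1 S (Or.inl hS) nS)) fun e he z hz =>
          (hPT2.1 _ _ _ (hS.alt e he z hz)).2.1 (h1 e he z hz) (h2 e he z hz)
      exact nVW fun e he z hz => by
        beta_reduce
        rw [s2 e he z hz, hM.z0 1 one_ne_zero s s1 e he z hz, zero_smul]
    · beta_reduce
      rw [(hPT2.2 4 0 0 _ _).2.1, show wg (W e z) (V e z) = 0 from h e he z hz, neg_zero]
  · have h0 := hM.z0 _ (by norm_num) _ ((hOP 4 M 1 1 _ W 0 0).1 (hc hV) hW)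
    obtain ⟨s, s1, s2⟩ := (hDIV 4 M 0 1).1 _ _ (Or.inl ⟨hc hW, hc hV⟩) (hM.r1 _ (hc hW) h2)
      ((hIDT 4 M 1).1 _ (Or.inl (hc hW)) h2) fun e he z hz => by
        beta_reduce
        rw [(hPT2.1 _ _ _ (hS.alt e he z hz)).1 (pf0 e he z hz),
          show V e z ᵥ* S e z ⬝ᵥ W e z = 0 from h0 e he z hz, zero_smul]
    obtain ⟨c, hc'⟩ := (hIDT 4 M 0).2.2 s s1
    refine ⟨fun e z => V e z - c • W e z, W, hM, hS, hP, (hOP 4 M 1 0 0 V W 0).2.2.2.2 hV hW c, hW,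
      hc hW, fun _ _ => rfl, fun _ _ => rfl, pf0, fun e he z hz => ?_, h2,
      fun h => nVW fun e he z hz => ?_⟩
    · beta_reduce
      rw [Matrix.sub_vecMul, Matrix.smul_vecMul, s2 e he z hz, hc' e he z hz, sub_self]
    · beta_reduce
      rw [← h e he z hz]
      ext i j
      simp only [wg, Matrix.of_apply, Pi.sub_apply, Pi.smul_apply, smul_eq_mul]
      ring

end Pool.Agent.Lib.F4
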