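import Pool.Agent.Lib.F4.BlueA
import Pool.Agent.Lib.K3E.B_ID
import Pool.Agent.Lib.HS32.MAll

/-! Project f4, row IDT: the identity theorem; holomorphic functions are constant. -/

open scoped Classical Topology Matrix
open Set Filter Metric

noncomputable section

namespace Pool.Agent.Lib.F4

open Pool.Agent.Lib.SV (E)
open Pool.Agent.Lib.HS32 Pool.Agent.Lib.HLK

namespace IDT

theorem gen {n : ℕ} (M : Mf n) [M.Cpt] {F ι : Type} [Zero F] [Finite ι] (p : ι → F → ℂ)
    (p0 : ∀ v, v = 0 ↔ ∀ i, p i v = 0) (u : M.Fam F)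
    (hol : M.All fun e z => ∀ i, HolN (fun w => p i (u e w)) z)
    (cmp : M.Ov fun e e' x => u e' (e' x) = 0 → u e (e x) = 0) (nz : ¬Zr M u) : Den M u := by
  have tr : ∀ e ∈ M.C, ∀ e' ∈ M.C, ∀ x ∈ e.source, x ∈ e'.source →
      (∀ᶠ y in 𝓝 x, u e' (e' y) = 0) → ∀ᶠ y in 𝓝 x, u e (e y) = 0 := fun e he e' he' x hx hx' h => by
    filter_upwards [h, e.open_source.mem_nhds hx, e'.open_source.mem_nhds hx'] with y h1 h2 h3
    exact cmp e he e' he' y h2 h3 h1
  have up : ∀ e : M.Ch, ∀ x ∈ e.source, (∀ᶠ w in 𝓝 (e x), u e w = 0) →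
      ∀ᶠ y in 𝓝 x, u e (e y) = 0 := fun e x hx h => (e.continuousAt hx).eventually h
  have dn : ∀ e : M.Ch, ∀ x ∈ e.source, (∀ᶠ y in 𝓝 x, u e (e y) = 0) →
      ∀ᶠ w in 𝓝 (e x), u e w = 0 := fun e x hx h => by
    filter_upwards [(e.tendsto_symm hx).eventually h,
      e.open_target.mem_nhds (e.map_source hx)] with w h1 h2
    rwa [e.right_inv h2] at h1
  let Z : Set M.X := {x | ∃ e ∈ M.C, x ∈ e.source ∧ ∀ᶠ y in 𝓝 x, u e (e y) = 0}
  have hO : IsOpen Z := isOpen_iff_mem_nhds.2 fun x ⟨e, he, hx, h⟩ => by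
    filter_upwards [h.eventually_nhds, e.open_source.mem_nhds hx] with y h1 h2
    exact ⟨e, he, h2, h1⟩
  have hC : IsClosed Z := isClosed_of_closure_subset fun x hx => by
    obtain ⟨e, he, hs⟩ := M.cov x
    obtain ⟨r, r0, hr⟩ := Metric.eventually_nhds_iff_ball.1
      (eventually_all.2 (hol e he _ (e.map_source hs)))
    have hb := (e.continuousAt hs).eventually (ball_mem_nhds _ r0)
    obtain ⟨y, ⟨y1, y2⟩, e', he', y3, y4⟩ := mem_closure_iff_nhds.1 hx _
      (hb.and (e.open_source.mem_nhds hs))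
    have h5 := dn e y y2 (tr e he e' he' y y2 y3 y4)
    exact ⟨e, he, hs, hb.mono fun v hv => (p0 _).2 fun i => K3E.ID.bal
      (f := fun w => p i (u e w)) (fun t ht => hr t ht i) y1 hv
      (h5.mono fun t ht => (p0 _).1 ht i)⟩
  intro e he z hz
  by_contra hn
  have h0 : ∀ᶠ w in 𝓝 z, u e w = 0 := by simpa [not_frequently] using hn
  have hZ : Z = univ := IsClopen.eq_univ ⟨hC, hO⟩ ⟨e.symm z, e, he, e.map_target hz,
    up e _ (e.map_target hz) (by rwa [e.right_inv hz])⟩
  refine nz fun c hc w hw => ?_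
  obtain ⟨e', he', k1, k2⟩ : c.symm w ∈ Z := hZ ▸ mem_univ _
  have h6 := (tr c hc e' he' _ (c.map_target hw) k1 k2).self_of_nhds
  rwa [c.right_inv hw] at h6

theorem jd0 {n : ℕ} (M : Mf n) (a : ℤ) : M.Ov fun e e' x => jd M e e' x ^ a ≠ 0 :=
  fun e he e' he' x hx hx' => zpow_ne_zero _ ((mTR n M).2.1 e he e' he' x hx hx').2.1

end IDT

theorem st_IDT : St_IDT := by
  intro n M _ a
  refine ⟨fun u hu nz => ?_, fun u hu nz => ?_, fun s hs => ?_⟩
  · refine IDT.gen M (fun i (v : E n) => v i) (fun v => funext_iff) u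
      (hu.elim (·.hol) (·.hol)) (fun e he e' he' x hx hx' h => ?_) nz
    rcases hu with hu | hu
    · have := hu.cmp e' he' e he x hx' hx
      beta_reduce at this
      rw [this, h, Matrix.zero_vecMul, smul_zero]
    · have := hu.cmp e he e' he' x hx hx'
      beta_reduce at this
      rw [h, Matrix.mulVec_zero] at this
      exact (smul_eq_zero.1 this.symm).resolve_left (IDT.jd0 M a e he e' he' x hx hx')
  · refine IDT.gen M (fun (i : Fin n × Fin n) (v : Mat n) => v i.1 i.2)
      (fun v => ⟨fun h i => by rw [h]; rfl, fun h => Matrix.ext fun i j => h (i, j)⟩) u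
      (fun e he z hz i => (hu.elim (·.hol) (·.hol)) e he z hz i.1 i.2)
      (fun e he e' he' x hx hx' h => ?_) nz
    rcases hu with hu | hu
    · have := hu.cmp e' he' e he x hx' hx
      beta_reduce at this
      rw [this, h, Matrix.mul_zero, Matrix.zero_mul, smul_zero]
    · have := hu.cmp e he e' he' x hx hx'
      beta_reduce at this
      rw [h, Matrix.mul_zero, Matrix.zero_mul] at this
      exact (smul_eq_zero.1 this.symm).resolve_left (IDT.jd0 M a e he e' he' x hx hx')
  · have inv : M.Inv s := fun e he e' he' x hx hx' => by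
      have := hs.cmp e he e' he' x hx hx'
      beta_reduce at this ⊢
      rw [this, zpow_zero, one_mul]
    have rep := (mTR n M).2.2.2.2.1 ℂ s inv
    have ct : Continuous (M.ev s) := continuous_iff_continuousAt.2 fun x => by
      obtain ⟨e, he, hx⟩ := M.cov x
      have h1 : ContinuousAt (s e) (e x) :=
        (hs.hol e he _ (e.map_source hx)).self_of_nhds.continuousAt
      refine (h1.comp (e.continuousAt hx)).congr ?_
      filter_upwards [e.open_source.mem_nhds hx] with y hy
      have := rep e he _ (e.map_source hy)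
      beta_reduce at this
      rw [e.left_inv hy] at this
      exact this.symm
    obtain ⟨x, -, hx⟩ := isCompact_univ.exists_isMaxOn (univ_nonempty (α := M.X))
      ct.norm.continuousOn
    obtain ⟨e, he, hs'⟩ := M.cov x
    have hm : IsLocalMax (norm ∘ s e) (e x) := by
      filter_upwards [e.open_target.mem_nhds (e.map_source hs')] with w hw
      have h1 := rep e he w hw
      have h2 := rep e he _ (e.map_source hs')
      beta_reduce at h1 h2
      rw [e.left_inv hs'] at h2
      simp only [Function.comp_apply, ← h1, ← h2]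
      exact hx (mem_univ _)
    have h3 := Complex.eventually_eq_of_isLocalMax_norm (hs.hol e he _ (e.map_source hs')) hm
    refine ⟨s e (e x), fun c hc w hw => ?_⟩
    by_contra hn
    have := IDT.gen M (fun (_ : Unit) (v : ℂ) => v) (fun v => ⟨fun h _ => h, fun h => h ()⟩)
      (fun c w => s c w - s e (e x))
      (fun c hc w hw _ => (hs.hol c hc w hw).mono fun y hy => hy.sub_const _)
      (fun c hc c' hc' y hy hy' h => by rwa [inv c hc c' hc' y hy hy'] at h)
      (fun h => hn (sub_eq_zero.1 (h c hc w hw))) e he _ (e.map_source hs')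
    exact this (h3.mono fun y hy h => h (sub_eq_zero.2 hy))

end Pool.Agent.Lib.F4
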