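import Pool.Agent.Lib.F4.BlueA

/-! Project f4: the vector field dual to the product of a form and of its derivative. -/

open scoped Classical Topology ContDiff ComplexOrder Matrix
open Set Filter

noncomputable section

namespace Pool.Agent.Lib.F4

open Pool.Agent.Lib.SV (E)
open Pool.Agent.Lib.HS32 Pool.Agent.Lib.HLK

namespace INT58

theorem st_add (S T : Mat 4) : st (S + T) = st S + st T := by
  ext i j
  fin_cases i <;> fin_cases j <;> simp [st] <;> ring

theorem st_dif {S : E 4 → Mat 4} {w : E 4}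
    (h : ∀ i j, DifferentiableAt ℂ (fun y => S y i j) w) (i j : Fin 4) :
    DifferentiableAt ℂ (fun y => st (S y) i j) w := by
  fin_cases i <;> fin_cases j <;>
    first
      | exact differentiableAt_const _
      | exact h _ _
      | exact (h _ _).neg

theorem pw (g : ℂ) (a : ℤ) : g ^ (2 * a + 1) = g ^ a * (g ^ a * g) := by
  rw [zpow_add' (Or.inr (Or.inl (by omega))), zpow_one, mul_comm 2 a, zpow_mul, zpow_two,
    mul_assoc]

end INT58

theorem st_INT (hPT1 : St_PT1) (hPT2 : St_PT2) (hD1 : St_D1) : St_INT := by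
  intro M a α hα
  obtain ⟨d0, d1', d2⟩ := hD1 4 M a α hα
  refine ⟨fun e he z hz i => ?_, fun e he e' he' x hx hx' => ?_⟩
  · have h1 := eventually_all.2 fun p : Fin 4 × Fin 4 => d0 e he z hz p.1 p.2
    have h2 := eventually_all.2 fun k => hα.hol e he z hz k
    filter_upwards [h1, h2] with w w1 w2
    have h3 : (fun y => (st (d1 (α e) y) *ᵥ α e y) i) =
        fun y => ∑ k, st (d1 (α e) y) i k * α e y k := rfl
    rw [h3]
    exact DifferentiableAt.fun_sum fun k _ =>
      (INT58.st_dif (S := fun y => d1 (α e) y) (fun p q => w1 (p, q)) i k).mul (w2 k)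
  · have h0 : ∀ l : E 4, st (wg l (α e' (e' x))) *ᵥ α e' (e' x) = 0 := fun l =>
      (hPT2.1 0 l _ (by simp)).2.2
    have h1 := (((hPT1 _).2.2 (d1' e (e x))).2.2.2 (M.J e e' x)).1
    show M.J e e' x *ᵥ st (d1 (α e') (e' x)) *ᵥ α e' (e' x) =
      jd M e e' x ^ (2 * a + 1) • st (d1 (α e) (e x)) *ᵥ α e (e x)
    rw [d2 e he e' he' x hx hx', INT58.st_add, Matrix.add_mulVec, h0, add_zero,
      ((hPT1 _).2.1 _).1, hα.cmp e he e' he' x hx hx', Matrix.smul_mulVec, Matrix.mulVec_smul,
      Matrix.mulVec_smul, Matrix.mulVec_smul, ← Matrix.mulVec_transpose, Matrix.mulVec_mulVec,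
      Matrix.mulVec_mulVec, h1, Matrix.smul_mulVec, smul_smul, smul_smul, INT58.pw, mul_assoc]

end Pool.Agent.Lib.F4
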