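import Pool.Agent.Lib.F4.BlueA

/-! Project f4: local division. -/

open scoped Classical Topology
open Set Filter

set_option linter.unusedVariables false

noncomputable section

namespace Pool.Agent.Lib.F4

open Pool.Agent.Lib.SV (E)

namespace LOC42

/-- The quotient of two proportional vectors. -/
def quo {σ : Type} (u w : σ → ℂ) : ℂ :=
  if h : ∃ i, u i ≠ 0 then w h.choose / u h.choose else 0

theorem quo_eq {σ : Type} (u w : σ → ℂ) (h : ∀ i j, w i * u j = w j * u i) (i : σ)
    (hi : u i ≠ 0) : quo u w = w i / u i := by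
  have hex : ∃ i, u i ≠ 0 := ⟨i, hi⟩
  have hc : u hex.choose ≠ 0 := hex.choose_spec
  rw [quo, dif_pos hex, div_eq_div_iff hc hi]
  exact h _ _

theorem eq_smul {σ : Type} (u w : σ → ℂ) (h : ∀ i j, w i * u j = w j * u i) (hu : u ≠ 0) :
    w = quo u w • u := by
  obtain ⟨i, hi⟩ := Function.ne_iff.1 hu
  have hi' : u i ≠ 0 := hi
  funext j
  rw [quo_eq u w h i hi', Pi.smul_apply, smul_eq_mul, div_mul_eq_mul_div, eq_div_iff hi']
  exact (h i j).symm

end LOC42

theorem st_LOC : St_LOC := by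
  intro n σ _ O U u w hU hO hR hu hw hd hm
  have hq : DifferentiableOn ℂ (fun z => LOC42.quo (u z) (w z)) (U \ {z | u z = 0}) := by
    rintro z ⟨hz, hz0⟩
    have hz1 : u z ≠ 0 := hz0
    obtain ⟨i, hi⟩ := Function.ne_iff.1 hz1
    have hi' : u z i ≠ 0 := hi
    have hn : U ∈ 𝓝 z := hU.mem_nhds hz
    have a1 : DifferentiableAt ℂ (fun y => u y i) z :=
      differentiableAt_pi.1 ((hu z hz).differentiableAt hn) i
    have a2 : DifferentiableAt ℂ (fun y => w y i) z :=
      differentiableAt_pi.1 ((hw z hz).differentiableAt hn) i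
    have a3 : ∀ᶠ y in 𝓝 z, u y i ≠ 0 := a1.continuousAt.eventually_ne hi'
    have a4 : (fun y => LOC42.quo (u y) (w y)) =ᶠ[𝓝 z] fun y => w y i * (u y i)⁻¹ := by
      filter_upwards [a3, hn] with y y1 y2
      rw [← div_eq_mul_inv]
      exact LOC42.quo_eq _ _ (hm y y2) i y1
    have a5 : DifferentiableAt ℂ (fun y => w y i * (u y i)⁻¹) z := a2.fun_mul (a1.fun_inv hi')
    exact (a5.congr_of_eventuallyEq a4).differentiableWithinAt
  obtain ⟨g, g1, g2⟩ := hR U _ hU hO hq
  refine ⟨g, g1, fun z hz => ?_⟩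
  have hn : U ∈ 𝓝 z := hU.mem_nhds hz
  have b1 : ContinuousAt w z := ((hw z hz).differentiableAt hn).continuousAt
  have b2 : ContinuousAt (fun y => g y • u y) z :=
    ((g1 z hz).differentiableAt hn).continuousAt.smul
      ((hu z hz).differentiableAt hn).continuousAt
  refine tendsto_nhds_unique_of_frequently_eq b1 b2 ?_
  refine ((hd z hz).and_eventually hn).mono fun y hy => ?_
  have e1 : g y = LOC42.quo (u y) (w y) := g2 ⟨hy.2, hy.1⟩
  rw [e1]
  exact LOC42.eq_smul _ _ (hm y hy.2) hy.1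

end Pool.Agent.Lib.F4
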