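import Pool.Agent.Lib.F4.BlueA
import Pool.Agent.Lib.KP.B_PSI1
import Pool.Agent.Lib.KP.B_NHS

/-! Project f4: a section of a line bundle with nef dual that has a zero is zero. -/

open scoped Classical Topology ContDiff ComplexOrder Matrix
open Set Filter MeasureTheory Complex

noncomputable section

namespace Pool.Agent.Lib.F4.NEG

open Pool.Agent.Lib.SV (E)
open Pool.Agent.Lib.HS32 Pool.Agent.Lib.HS32.Mf Pool.Agent.Lib.KP

variable {n : ℕ} {M : Mf n} {H : M.Fam (Mat n)} {L : M.Co} {f : M.Fam ℂ} {φ : M.Fam ℝ}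

theorem cur (hH : M.Met H) (hf : M.HSecC L f) (hφ : M.WtC L φ) {ε δ : ℝ} (hε : 0 ≤ ε) (hδ : 0 < δ)
    (h : M.All fun e z => (ε • H e z - M.hw φ e z).PosSemidef) :
    M.All fun e z => (ε • H e z + M.hs (fun x => Real.log (M.nrC φ f x + δ)) e z).PosSemidef := by
  intro e he z hz
  have hs := hφ.nr_sm hf.toSecC
  have hp : ∀ x, 0 < M.nrC φ f x + δ := fun x =>
    add_pos_of_nonneg_of_pos (M.nrC_nonneg φ f x) hδ
  have h2 := (((mLAP n M _ _ hs hs).2.1 (fun s => Real.log (s + δ)) fun x =>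
    (contDiffAt_id.add contDiffAt_const).log (hp x).ne').2 e he z hz).1
  obtain ⟨h3, h4, -⟩ := st_NHS n M L f φ hf hφ e he z hz
  have h5 := hp (e.symm z)
  have h0 := M.nrC_nonneg φ f (e.symm z)
  rw [h2, h3, h4, (T7.d1 h5).deriv, T7.d2 h5]
  have h6 := (((h e he z hz).smul (div_nonneg h0 h5.le)).add
    ((Matrix.posSemidef_vecMulVec_star_self (M.cv φ f e z)).smul
      (show 0 ≤ δ * Real.exp (-φ e z) / (M.nrC φ f (e.symm z) + δ) ^ 2 by positivity))).add
    ((hH.pos e he z hz).posSemidef.smul (show 0 ≤ ε * δ / (M.nrC φ f (e.symm z) + δ) by positivity))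
  refine (congrArg Matrix.PosSemidef ?_).mp h6
  match_scalars <;> (field_simp; try ring)

theorem sub_c {w : M.X → ℝ} (hw : M.Sm w) (c m : ℝ) :
    M.All fun e z => M.hs (fun x => c * (w x - m)) e z = c • M.hs w e z := fun e he z hz => by
  obtain ⟨h0, -, h1, -⟩ := (mLAP n M w (fun _ => m) hw (sm_const m)).1 m e he z hz
  obtain ⟨-, -, -, h2, -⟩ :=
    (mLAP n M _ (fun _ => m) (hw.sub (sm_const m)) (sm_const m)).1 c e he z hz
  rw [h2, h1, h0, sub_zero]

theorem avg [M.Cpt] (hH : M.Met H) {β u : M.X → ℝ} {a : ℝ} (hβ : M.Sm β) (hu : M.Sm u)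
    (h0 : ∀ x, 0 ≤ β x) (h1 : ∫ x, β x ∂M.mu H = 1) (h : ∀ x, β x ≠ 0 → u x ≤ a) :
    ∫ x, β x * u x ∂M.mu H ≤ a := by
  have hi := (mMU n M H hH).2.2.2.2.1 ℝ
  calc _ ≤ ∫ x, a * β x ∂M.mu H := by
        refine integral_mono (hi _ (hβ.mul hu).continuous) (hi _ (hβ.const_mul a).continuous)
          fun x => ?_
        by_cases c : β x = 0
        · simp [c]
        · beta_reduce
          rw [mul_comm a]
          exact mul_le_mul_of_nonneg_left (h x c) (h0 x)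
    _ = a := by rw [integral_const_mul, h1, mul_one]

theorem core [M.Cpt] (hH : M.Met H) (hf : M.HSecC L f) (hφ : M.WtC L φ)
    (hN : ∀ ε : ℝ, 0 < ε → ∃ w, M.Sm w ∧
      M.All fun e z => (ε • H e z - M.hw φ e z + M.hs w e z).PosSemidef)
    {x₀ : M.X} (h₀ : M.ev f x₀ = 0) (x₁ : M.X) : M.ev f x₁ = 0 := by
  by_contra h₁
  obtain ⟨K, hK, k1, -⟩ := (mBD n M H hH).1 _ (hH.toForm.sub hφ.clo.toForm)
  obtain ⟨C, hC, -, hP⟩ := mPSH n M H K hH
  have hs := hφ.nr_sm hf.toSecC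
  obtain ⟨B, hB, b1⟩ := ((mLAP n M _ _ hs hs).2.2 H hH).2.1.exists_bound
  have b2 : ∀ x, M.gr H (M.nrC φ f) (M.nrC φ f) x ≤ (B + 1) ^ 2 := fun x => by
    have := (le_abs_self _).trans (b1 x)
    nlinarith
  have η0 : 0 < M.nrC φ f x₁ := (nrC_nonneg _ _ _).lt_of_ne' (nrC_ne.2 h₁)
  have z0 : M.nrC φ f x₀ = 0 := not_not.1 fun c => nrC_ne.1 c h₀
  set η := M.nrC φ f x₁
  set D := C * (B + 1) with hD
  have D0 : 0 < D := by positivity
  obtain ⟨r₁, p1, p2, p3⟩ : ∃ r : ℝ, 0 < r ∧ r ≤ 1 ∧ D * r ≤ η / 2 :=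
    ⟨min 1 (η / 2 / D), lt_min one_pos (by positivity), min_le_left _ _,
      by rw [mul_comm, ← le_div_iff₀ D0]; exact min_le_right _ _⟩
  obtain ⟨β₁, s1, s2, s3, s4, s5⟩ := hP x₁ r₁ p1 p2
  set A := Real.log (η / 2) - C * (1 - Real.log r₁) with hA
  obtain ⟨r, q1, q2, q3⟩ : ∃ r : ℝ, 0 < r ∧ r ≤ 1 ∧ D * r ≤ Real.exp (A - 1) / 2 :=
    ⟨min 1 (Real.exp (A - 1) / 2 / D), lt_min one_pos (by positivity), min_le_left _ _,
      by rw [mul_comm, ← le_div_iff₀ D0]; exact min_le_right _ _⟩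
  obtain ⟨β, t1, t2, t3, t4, t5⟩ := hP x₀ r q1 q2
  set R := C * (1 - Real.log r) with hR
  have R0 : 0 < R := mul_pos hC (by linarith [Real.log_nonpos q1.le q2])
  obtain ⟨ε, e1, e2, e3⟩ : ∃ ε : ℝ, 0 < ε ∧ ε ≤ 1 ∧ R + 1 ≤ K / ε :=
    ⟨min 1 (K / (R + 1)), lt_min one_pos (by positivity), min_le_left _ _, by
      rw [le_div_iff₀ (lt_min one_pos (by positivity)), mul_comm, ← le_div_iff₀ (by positivity)]
      exact min_le_right _ _⟩
  obtain ⟨v, v1, v2⟩ := hN ε e1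
  obtain ⟨y, hy⟩ := v1.exists_max
  have w1 : M.Sm fun x => 1 * (v x - v y) := (v1.sub (sm_const _)).const_mul 1
  have w2 : ∀ x, 1 * (v x - v y) ≤ 0 := fun x => by linarith [hy x]
  have w3 := s5 _ w1 (fun e he z hz => by
    have := ((k1 e he z hz).add (v2 e he z hz)).add
      ((hH.pos e he z hz).posSemidef.smul (sub_nonneg.2 e2))
    refine (congrArg Matrix.PosSemidef ?_).mp this
    simp only [Pi.add_apply, Pi.smul_apply, Pi.sub_apply, Pi.zero_apply, sub_c v1 1 _ e he z hz]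
    module) w2 ⟨y, by simp⟩
  obtain ⟨g1, g2⟩ := hφ.addF ((v1.sub (sm_const (v y))).const_mul (-1))
  set ψ : M.Fam ℝ := φ + fun e z => -1 * (v (e.symm z) - v y) with hψ
  have g3 : ∀ x, M.nrC ψ f x = M.nrC φ f x * Real.exp (v x - v y) := fun x => by
    simp only [nrC, Mf.ev, hψ, Pi.add_apply, ch_symm, mul_assoc, ← Real.exp_add]
    ring_nf
  have δ0 : 0 < D * r := mul_pos D0 q1
  have g4 := cur hH hf g1 e1.le δ0 fun e he z hz => by
    refine (congrArg Matrix.PosSemidef ?_).mp (v2 e he z hz)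
    rw [g2 e he z hz, sub_c v1 (-1) _ e he z hz]
    module
  have hp : ∀ x, 0 < M.nrC ψ f x + D * r := fun x =>
    add_pos_of_nonneg_of_pos (nrC_nonneg _ _ x) δ0
  have u1 : M.Sm fun x => Real.log (M.nrC ψ f x + D * r) :=
    ((g1.nr_sm hf.toSecC).add (sm_const _)).log fun x => (hp x).ne'
  obtain ⟨m, hm⟩ := u1.exists_max
  set μ := Real.log (M.nrC ψ f m + D * r)
  have a1 := avg hH s1 w1 s2 s3 (a := μ - Real.log (η / 2)) fun x c => by
    have i1 := (abs_le.1 (s4 _ _ hs (by positivity) b2 x c)).1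
    have i2 : η / 2 * Real.exp (v x - v y) ≤ M.nrC ψ f x + D * r := by
      rw [g3]
      exact le_add_of_le_of_nonneg
        (mul_le_mul_of_nonneg_right (by linarith) (Real.exp_pos _).le) δ0.le
    have i3 := Real.log_le_log (by positivity) i2
    rw [Real.log_mul (by positivity) (Real.exp_pos _).ne', Real.log_exp] at i3
    linarith [hm x]
  have c0 : 0 < K / ε := div_pos hK e1
  have u2 := (u1.sub (sm_const μ)).const_mul (K / ε)
  have a2 := t5 _ u2 (fun e he z hz => by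
    refine (congrArg Matrix.PosSemidef ?_).mp ((g4 e he z hz).smul c0.le)
    simp only [Pi.add_apply, Pi.smul_apply, Pi.zero_apply, sub_c u1 _ _ e he z hz, sub_zero,
      smul_add, smul_smul, div_mul_cancel₀ K e1.ne'])
    (fun x => mul_nonpos_of_nonneg_of_nonpos c0.le (sub_nonpos.2 (hm x))) ⟨m, by simp [μ]⟩
  have a3 := avg hH t1 u2 t2 t3 (a := K / ε * -1) fun x c => by
    refine mul_le_mul_of_nonneg_left ?_ c0.le
    have i1 := (abs_le.1 (t4 _ _ hs (by positivity) b2 x c)).2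
    have i2 : M.nrC ψ f x + D * r ≤ Real.exp (A - 1) := by
      have := mul_le_of_le_one_right (nrC_nonneg φ f x)
        (Real.exp_le_one_iff.2 (sub_nonpos.2 (hy x)))
      rw [g3]
      linarith
    have i3 := Real.log_le_log (hp x) i2
    rw [Real.log_exp] at i3
    linarith
  linarith

/-- The bundle `a K`. -/
def kz (M : Mf n) (a : ℤ) : M.Co where
  c e e' x := jd M e e' x ^ a
  hol e he e' he' x hx hx' := by
    obtain ⟨t1, t2, -, t3, -⟩ := (mTR n M).2.1 e he e' he' x hx hx'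
    have t4 := (mCHN n _ _ t1).2.2.2.2.1
    filter_upwards [t4, t4.self_of_nhds.continuousAt.eventually_ne t2, t3.eventually_nhds]
      with w h1 h2 h3
    refine (h1.zpow (m := a) (Or.inl h2)).congr_of_eventuallyEq (h3.mono fun y hy => ?_)
    simp only [jd, hy.2.2.2.2.2.2]
  ne e he e' he' x hx hx' := zpow_ne_zero a ((mTR n M).2.1 e he e' he' x hx hx').2.1
  mul e he e' he' x hx hx' e'' he'' hx'' := by
    simp only [jd]
    rw [((mTR n M).2.1 e he e' he' x hx hx').2.2.2.2 e'' he'' hx'', Matrix.det_mul, mul_zpow]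

theorem kz_wt (hH : M.Met H) (a : ℤ) :
    M.WtC (kz M a) ((a : ℝ) • fun e z => Real.log (H e z).det.re) ∧ M.All fun e z =>
      M.hw ((a : ℝ) • fun e z => Real.log (H e z).det.re) e z = -((a : ℝ) • M.ric H e z) := by
  have w := (mINV n M H hH).2.2.2.2.2.2.1
  refine ⟨⟨fun e he z hz => (w.sm e he z hz).const_smul (a : ℝ),
    fun e he e' he' x hx hx' => ?_⟩, fun e he z hz => ?_⟩
  · have b := w.cmp e he e' he' x hx hx'
    simp only [Pi.smul_apply, smul_eq_mul, kz, map_zpow₀, Real.log_zpow] at b ⊢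
    rw [b]
    ring
  · beta_reduce
    rw [hw_smul _ (w.sm e he z hz), ← smul_neg, Mf.ric, neg_neg]
    rfl

theorem kz_sec {a : ℤ} {s : M.Fam ℂ} (h : H0 M a s) : M.HSecC (kz M a) s :=
  ⟨⟨fun e he z hz => ((mHOL n _ _).2.2 (h.hol e he z hz)).1, fun e he e' he' x hx hx' =>
    (h.cmp e he e' he' x hx hx').trans (mul_comm _ _)⟩,
    fun e he z hz => (h.hol e he z hz).self_of_nhds⟩

theorem ev_zero {a : ℤ} {s : M.Fam ℂ} (h : H0 M a s) :
    M.All fun e z => s e z = 0 ↔ M.ev s (e.symm z) = 0 := fun e he z hz => by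
  have c := h.cmp e he _ (ch_mem (e.symm z)) _ (e.map_target hz) (mem_ch _)
  have d := (kz M a).ne e he _ (ch_mem (e.symm z)) _ (e.map_target hz) (mem_ch _)
  beta_reduce at c d ⊢
  rw [e.right_inv hz] at c
  rw [Mf.ev, c, mul_eq_zero]
  exact (or_iff_right d).symm

end Pool.Agent.Lib.F4.NEG

namespace Pool.Agent.Lib.F4

open Pool.Agent.Lib.HS32 Pool.Agent.Lib.HS32.Mf NEG

theorem st_NEG : St_NEG := by
  intro n M _ H hH hN b s hs h0 e he z hz hx
  obtain ⟨w1, w2⟩ := kz_wt hH (-b)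
  refine h0 fun e' he' z' hz' => (ev_zero hs e' he' z' hz').2
    (core hH (kz_sec hs) w1 (fun ε hε => ?_) ((ev_zero hs e he z hz).1 hx) _)
  have b0 : (0 : ℝ) ≤ b := Nat.cast_nonneg b
  obtain ⟨t, t1, t2⟩ : ∃ t ∈ Ioc (0 : ℝ) 1, b * t ≤ ε :=
    ⟨min 1 (ε / (b + 1)), ⟨lt_min one_pos (by positivity), min_le_left _ _⟩,
      (mul_le_mul_of_nonneg_left (min_le_right _ _) b0).trans (by
        rw [← mul_div_assoc, div_le_iff₀ (by positivity)]; linarith)⟩
  obtain ⟨w, v1, v2⟩ := hN t t1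
  refine ⟨_, (v1.sub (sm_const 0)).const_mul (b : ℝ), fun e he z hz => ?_⟩
  refine (congrArg Matrix.PosSemidef ?_).mp (((v2 e he z hz).smul b0).add
    ((hH.pos e he z hz).posSemidef.smul (sub_nonneg.2 t2)))
  rw [w2 e he z hz]
  simp only [Pi.add_apply, Pi.smul_apply, Pi.sub_apply, Pi.zero_apply, sub_c v1 _ _ e he z hz,
    Int.cast_neg, Int.cast_natCast]
  module

end Pool.Agent.Lib.F4
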