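import Pool.Agent.Lib.F4.BlueA
import Pool.Agent.Lib.HS32.MAll

/-! Project f4: contractions and exterior products of holomorphic tensors. -/

open scoped Classical Topology ContDiff ComplexOrder Matrix
open Set Filter

set_option linter.unusedVariables false

noncomputable section

namespace Pool.Agent.Lib.F4

open Pool.Agent.Lib.SV (E)
open Pool.Agent.Lib.HS32 Pool.Agent.Lib.HLK

namespace OP19

variable {n : ℕ}

theorem hmul {f g : E n → ℂ} {z : E n} (hf : HolN f z) (hg : HolN g z) :
    HolN (fun w => f w * g w) z := by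
  filter_upwards [hf, hg] with w a b using a.mul b

theorem hsub {f g : E n → ℂ} {z : E n} (hf : HolN f z) (hg : HolN g z) :
    HolN (fun w => f w - g w) z := by
  filter_upwards [hf, hg] with w a b using a.sub b

theorem hsum {f : Fin n → E n → ℂ} {z : E n} (hf : ∀ i, HolN (f i) z) :
    HolN (fun w => ∑ i, f i w) z := by
  filter_upwards [eventually_all.2 hf] with w a using DifferentiableAt.fun_sum fun i _ => a i

theorem wgJ (J : Mat n) (u v : E n) : J * wg u v * Jᵀ = wg (J *ᵥ u) (J *ᵥ v) := by
  have h : ∀ u v : E n, wg u v = Matrix.vecMulVec u v - Matrix.vecMulVec v u := fun u v => by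
    ext i j
    simp [wg, Matrix.vecMulVec_apply]
  rw [h, h, Matrix.mul_sub, Matrix.sub_mul, Matrix.mul_vecMulVec, Matrix.mul_vecMulVec,
    Matrix.vecMulVec_mul, Matrix.vecMulVec_mul, Matrix.vecMul_transpose, Matrix.vecMul_transpose]

theorem wgS (s t : ℂ) (u v : E n) : wg (s • u) (t • v) = (s * t) • wg u v := by
  ext i j
  simp only [wg, Matrix.of_apply, Pi.smul_apply, smul_eq_mul, Matrix.smul_apply]
  ring

end OP19

open OP19

theorem st_OP : St_OP := by
  intro n M a b α V W S
  have hg : M.Ov fun e e' x => jd M e e' x ≠ 0 := fun e he e' he' x hx hx' =>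
    ((mTR n M).2.1 e he e' he' x hx hx').2.1
  refine ⟨fun h k => ⟨fun e he z hz => ?_, fun e he e' he' x hx hx' => ?_⟩,
    fun h k => ⟨fun e he z hz j => ?_, fun e he e' he' x hx hx' => ?_⟩,
    fun h k => ⟨fun e he z hz j => ?_, fun e he e' he' x hx hx' => ?_⟩,
    fun h k => ⟨fun e he z hz i j => ?_, fun e he z hz => ?_, fun e he e' he' x hx hx' => ?_⟩,
    fun h k c => ⟨fun e he z hz j => ?_, fun e he e' he' x hx hx' => ?_⟩⟩
  · exact hsum fun i => hmul (h.hol e he z hz i) (k.hol e he z hz i)
  · beta_reduce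
    rw [h.cmp e he e' he' x hx hx', smul_dotProduct, ← Matrix.dotProduct_mulVec,
      k.cmp e he e' he' x hx hx', dotProduct_smul, zpow_add₀ (hg e he e' he' x hx hx'),
      smul_eq_mul, smul_eq_mul, mul_assoc]
  · exact hsum fun i => hmul (k.hol e he z hz i) (h.hol e he z hz i j)
  · beta_reduce
    rw [h.cmp e he e' he' x hx hx', Matrix.vecMul_smul, ← Matrix.vecMul_vecMul,
      ← Matrix.vecMul_vecMul, Matrix.vecMul_transpose, k.cmp e he e' he' x hx hx',
      Matrix.smul_vecMul, Matrix.smul_vecMul, smul_smul, zpow_add₀ (hg e he e' he' x hx hx')]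
  · exact hsum fun i => hmul (h.hol e he z hz j i) (k.hol e he z hz i)
  · beta_reduce
    rw [k.cmp e he e' he' x hx hx', ← Matrix.mulVec_transpose, Matrix.mulVec_smul,
      Matrix.mulVec_smul, Matrix.mulVec_mulVec, Matrix.mulVec_mulVec, h.cmp e he e' he' x hx hx',
      Matrix.smul_mulVec, smul_smul, zpow_add₀ (hg e he e' he' x hx hx'), mul_comm]
  · exact hsub (hmul (h.hol e he z hz i) (k.hol e he z hz j))
      (hmul (k.hol e he z hz i) (h.hol e he z hz j))
  · ext i j
    simp only [wg, Matrix.transpose_apply, Matrix.neg_apply, Matrix.of_apply]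
    ring
  · beta_reduce
    rw [wgJ, h.cmp e he e' he' x hx hx', k.cmp e he e' he' x hx hx', wgS,
      zpow_add₀ (hg e he e' he' x hx hx')]
  · exact hsub (h.hol e he z hz j)
      (hmul (Eventually.of_forall fun w => differentiableAt_const c) (k.hol e he z hz j))
  · beta_reduce
    rw [Matrix.mulVec_sub, Matrix.mulVec_smul, h.cmp e he e' he' x hx hx',
      k.cmp e he e' he' x hx hx', smul_sub, smul_comm c]

end Pool.Agent.Lib.F4
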