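import Pool.Agent.Lib.F4.BlueA

/-! Project f4: the star of a tensor. -/

open scoped Classical Topology ContDiff ComplexOrder Matrix
open Set Filter

set_option linter.unusedVariables false

noncomputable section

namespace Pool.Agent.Lib.F4

open Pool.Agent.Lib.SV (E)
open Pool.Agent.Lib.HS32 Pool.Agent.Lib.HLK

namespace OS48

theorem ev {S : E 4 → Mat 4} {z : E 4} (h : ∀ i j, HolN (fun w => S w i j) z) :
    ∀ᶠ w in 𝓝 z, ∀ i j, DifferentiableAt ℂ (fun w => S w i j) w :=
  eventually_all.2 fun i => eventually_all.2 fun j => h i j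

theorem hst {M : Mf 4} {S : M.Fam (Mat 4)} (h : HolM M S) : HolM M fun e z => st (S e z) := by
  intro e he z hz i j
  filter_upwards [ev (h e he z hz)] with w hw
  fin_cases i <;> fin_cases j <;>
    first
    | exact differentiableAt_const (0 : ℂ)
    | exact hw _ _
    | exact (hw _ _).neg

end OS48

theorem st_OS (hPT1 : St_PT1) : St_OS := by
  intro M a S
  refine ⟨fun h => ⟨⟨OS48.hst h.hol, fun e he z hz => (hPT1 _).1, fun e he e' he' x hx hx' => ?_⟩,
    fun e he z hz => ?_, fun e he e' he' x hx hx' => ?_⟩,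
    fun h => ⟨OS48.hst h.hol, fun e he z hz => (hPT1 _).1, fun e he e' he' x hx hx' => ?_⟩⟩
  · have hd : jd M e e' x ≠ 0 := ((mTR 4 M).2.1 e he e' he' x hx hx').2.1
    beta_reduce
    rw [h.cmp e he e' he' x hx hx', ((hPT1 _).2.1 _).1, Matrix.mul_smul, Matrix.smul_mul,
      (((hPT1 _).2.2 (h.alt e he _ (e.map_source hx))).2.2.2 _).1, smul_smul, zpow_add_one₀ hd]
  · filter_upwards [OS48.ev (h.hol e he z hz)] with w hw
    exact (((hw 0 1).mul (hw 2 3)).sub ((hw 0 2).mul (hw 1 3))).add ((hw 0 3).mul (hw 1 2))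
  · have hd : jd M e e' x ≠ 0 := ((mTR 4 M).2.1 e he e' he' x hx hx').2.1
    beta_reduce
    rw [h.cmp e he e' he' x hx hx', ((hPT1 _).2.1 _).2,
      (((hPT1 _).2.2 (h.alt e he _ (e.map_source hx))).2.2.2 _).2, zpow_add_one₀ hd, two_mul,
      zpow_add₀ hd, sq, mul_assoc _ (jd M e e' x)]
  · have hd : jd M e e' x ≠ 0 := ((mTR 4 M).2.1 e he e' he' x hx hx').2.1
    have h1 := (((hPT1 _).2.2 (h.alt e' he' _ (e'.map_source hx'))).2.2.2 (M.J e e' x)ᵀ).1
    rw [Matrix.transpose_transpose, h.cmp e he e' he' x hx hx', ((hPT1 _).2.1 _).1,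
      Matrix.mul_smul, Matrix.smul_mul, Matrix.det_transpose, zpow_add_one₀ hd, mul_comm,
      mul_smul] at h1
    exact (smul_right_injective _ hd h1).symm

end Pool.Agent.Lib.F4
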