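import Pool.Agent.Lib.F4.BlueA

/-! Project f4: the star and the Pfaffian of a skew matrix of size four. -/

open scoped Classical Topology ContDiff ComplexOrder Matrix
open Set Filter

set_option linter.unusedVariables false

noncomputable section

namespace Pool.Agent.Lib.F4

open Pool.Agent.Lib.SV (E)
open Pool.Agent.Lib.HS32 Pool.Agent.Lib.HLK

namespace PT1

/-- The skew matrix with given upper entries. -/
def sk (a b c d e f : ℂ) : Mat 4 := !![0, a, b, c; -a, 0, d, e; -b, -d, 0, f; -c, -e, -f, 0]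

theorem eq_sk {S : Mat 4} (h : Sᵀ = -S) :
    S = sk (S 0 1) (S 0 2) (S 0 3) (S 1 2) (S 1 3) (S 2 3) := by
  have h1 : ∀ i j, S j i = -S i j := fun i j => by
    have := congrFun (congrFun h i) j
    simpa using this
  have h0 : ∀ i, S i i = 0 := fun i => by
    have := h1 i i
    linear_combination (1 / 2 : ℂ) * this
  ext i j
  fin_cases i <;> fin_cases j <;>
    first
      | exact h0 _
      | rfl
      | exact h1 _ _

theorem st_sk (a b c d e f : ℂ) : st (sk a b c d e f) = sk f (-e) d c (-b) a := by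
  ext i j
  fin_cases i <;> fin_cases j <;> simp [st, sk]

theorem pf_sk (a b c d e f : ℂ) : pf (sk a b c d e f) = a * f - b * e + c * d := rfl

theorem det4 (J : Mat 4) : J.det =
    J 0 0 * J 1 1 * J 2 2 * J 3 3 - J 0 0 * J 1 1 * J 2 3 * J 3 2 - J 0 0 * J 1 2 * J 2 1 * J 3 3 +
    J 0 0 * J 1 2 * J 2 3 * J 3 1 + J 0 0 * J 1 3 * J 2 1 * J 3 2 - J 0 0 * J 1 3 * J 2 2 * J 3 1 -
    J 0 1 * J 1 0 * J 2 2 * J 3 3 + J 0 1 * J 1 0 * J 2 3 * J 3 2 + J 0 1 * J 1 2 * J 2 0 * J 3 3 -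
    J 0 1 * J 1 2 * J 2 3 * J 3 0 - J 0 1 * J 1 3 * J 2 0 * J 3 2 + J 0 1 * J 1 3 * J 2 2 * J 3 0 +
    J 0 2 * J 1 0 * J 2 1 * J 3 3 - J 0 2 * J 1 0 * J 2 3 * J 3 1 - J 0 2 * J 1 1 * J 2 0 * J 3 3 +
    J 0 2 * J 1 1 * J 2 3 * J 3 0 + J 0 2 * J 1 3 * J 2 0 * J 3 1 - J 0 2 * J 1 3 * J 2 1 * J 3 0 -
    J 0 3 * J 1 0 * J 2 1 * J 3 2 + J 0 3 * J 1 0 * J 2 2 * J 3 1 + J 0 3 * J 1 1 * J 2 0 * J 3 2 -
    J 0 3 * J 1 1 * J 2 2 * J 3 0 - J 0 3 * J 1 2 * J 2 0 * J 3 1 +
    J 0 3 * J 1 2 * J 2 1 * J 3 0 := by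
  rw [Matrix.det_succ_row_zero, Fin.sum_univ_four]
  simp only [Matrix.det_fin_three, Matrix.submatrix_apply]
  simp [Fin.succAbove]
  ring

theorem cj (J : Mat 4) (a b c d e f : ℂ) (i j : Fin 4) : (Jᵀ * sk a b c d e f * J) i j =
    a * (J 0 i * J 1 j - J 1 i * J 0 j) + b * (J 0 i * J 2 j - J 2 i * J 0 j) +
    c * (J 0 i * J 3 j - J 3 i * J 0 j) + d * (J 1 i * J 2 j - J 2 i * J 1 j) +
    e * (J 1 i * J 3 j - J 3 i * J 1 j) + f * (J 2 i * J 3 j - J 3 i * J 2 j) := by
  simp [Matrix.mul_apply, Fin.sum_univ_four, sk]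
  ring

theorem cj' (J : Mat 4) (a b c d e f : ℂ) (i j : Fin 4) : (J * sk a b c d e f * Jᵀ) i j =
    a * (J i 0 * J j 1 - J i 1 * J j 0) + b * (J i 0 * J j 2 - J i 2 * J j 0) +
    c * (J i 0 * J j 3 - J i 3 * J j 0) + d * (J i 1 * J j 2 - J i 2 * J j 1) +
    e * (J i 1 * J j 3 - J i 3 * J j 1) + f * (J i 2 * J j 3 - J i 3 * J j 2) :=
  cj Jᵀ a b c d e f i j

theorem st_eq (S : Mat 4) : st S = sk (S 2 3) (-S 1 3) (S 1 2) (S 0 3) (-S 0 2) (S 0 1) := by
  ext i j
  fin_cases i <;> fin_cases j <;> simp [st, sk]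

theorem law (J : Mat 4) (a b c d e f : ℂ) :
    J * st (Jᵀ * sk a b c d e f * J) * Jᵀ = J.det • st (sk a b c d e f) := by
  ext i j
  rw [st_eq, cj', st_sk, det4]
  simp only [cj]
  fin_cases i <;> fin_cases j <;> simp [sk] <;> ring

theorem lawp (J : Mat 4) (a b c d e f : ℂ) :
    pf (Jᵀ * sk a b c d e f * J) = J.det * pf (sk a b c d e f) := by
  rw [pf_sk, det4, pf]
  simp only [cj]
  ring

theorem w3 (a b c d e f : ℂ) (x : E 4) :
    st (sk a b c d e f) *ᵥ x = 0 ↔ W3 x (sk a b c d e f) := by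
  rw [st_sk]
  constructor
  · intro h
    have h0 := congrFun h 0
    have h1 := congrFun h 1
    have h2 := congrFun h 2
    have h3 := congrFun h 3
    simp [sk, Matrix.mulVec, dotProduct, Fin.sum_univ_four] at h0 h1 h2 h3
    intro i j k
    fin_cases i <;> fin_cases j <;> fin_cases k <;> simp [sk] <;>
      first
        | ring1
        | linear_combination h0
        | linear_combination -h0
        | linear_combination h1
        | linear_combination -h1
        | linear_combination h2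
        | linear_combination -h2
        | linear_combination h3
        | linear_combination -h3
  · intro h
    have h0 := h 1 2 3
    have h1 := h 0 2 3
    have h2 := h 0 1 3
    have h3 := h 0 1 2
    simp [sk] at h0 h1 h2 h3
    funext i
    fin_cases i <;> simp [sk, Matrix.mulVec, dotProduct, Fin.sum_univ_four]
    · linear_combination h0
    · linear_combination -h1
    · linear_combination h2
    · linear_combination -h3

theorem mul_sk (a b c d e f : ℂ) :
    st (sk a b c d e f) * sk a b c d e f = -(pf (sk a b c d e f) • 1) := by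
  rw [st_sk, pf_sk]
  ext i j
  fin_cases i <;> fin_cases j <;> simp [sk, Matrix.mul_apply, Fin.sum_univ_four] <;> ring

end PT1

open PT1 in
theorem st_PT1 : St_PT1 := by
  intro S
  refine ⟨?_, fun c => ⟨?_, ?_⟩, fun h => ?_⟩
  · ext i j
    fin_cases i <;> fin_cases j <;> simp [st]
  · ext i j
    fin_cases i <;> fin_cases j <;> simp [st]
  · simp only [pf, Matrix.smul_apply, smul_eq_mul]
    ring
  · obtain ⟨a, b, c, d, e, f, rfl⟩ : ∃ a b c d e f, S = sk a b c d e f :=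
      ⟨_, _, _, _, _, _, eq_sk h⟩
    refine ⟨?_, mul_sk a b c d e f, w3 a b c d e f, fun J => ⟨law J a b c d e f, lawp J a b c d e f⟩⟩
    rw [st_sk, st_sk, neg_neg, neg_neg]

end Pool.Agent.Lib.F4
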