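import Pool.Agent.Lib.F4.A_PT1

/-! Project f4: contractions and exterior products at a point. -/

open scoped Classical Topology ContDiff ComplexOrder Matrix
open Set Filter

set_option linter.unusedVariables false

noncomputable section

namespace Pool.Agent.Lib.F4

open Pool.Agent.Lib.SV (E)
open Pool.Agent.Lib.HS32 Pool.Agent.Lib.HLK

namespace PT2

theorem wg_vv {n : ℕ} (u v : E n) :
    wg u v = Matrix.vecMulVec u v - Matrix.vecMulVec v u := by
  ext i j
  simp [wg, Matrix.vecMulVec_apply]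

theorem skew {n : ℕ} {S : Mat n} (h : Sᵀ = -S) (i j : Fin n) : S j i = -S i j := by
  have := congrFun (congrFun h i) j
  simpa using this

theorem two (a b c d e f : ℂ) (V W : E 4) :
    wg (V ᵥ* PT1.sk a b c d e f) (W ᵥ* PT1.sk a b c d e f) =
      (V ᵥ* PT1.sk a b c d e f ⬝ᵥ W) • PT1.sk a b c d e f -
        pf (PT1.sk a b c d e f) • st (wg V W) := by
  rw [PT1.pf_sk]
  ext i j
  fin_cases i <;> fin_cases j <;>
    simp [wg, st, PT1.sk, Matrix.vecMul, dotProduct, Fin.sum_univ_four] <;> ring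

theorem w3 {S : Mat 4} (h : Sᵀ = -S) {V : E 4} (hV : V ᵥ* S = 0) : W3 V (st S) := by
  have h1 := (st_PT1 S).1
  refine (((st_PT1 (st S)).2.2 h1).2.2.1 V).1 ?_
  rw [((st_PT1 S).2.2 h).1, ← Matrix.vecMul_transpose, h, Matrix.vecMul_neg, hV, neg_zero]

theorem flip {n : ℕ} {S : Mat n} (h : Sᵀ = -S) (u v : E n) : u ᵥ* S ⬝ᵥ v = -(v ᵥ* S ⬝ᵥ u) := by
  rw [← Matrix.dotProduct_mulVec, dotProduct_comm, ← Matrix.vecMul_transpose, h,
    Matrix.vecMul_neg, neg_dotProduct]

theorem con {n : ℕ} {S : Mat n} (h : Sᵀ = -S) {u v : E n} (h3 : W3 u S) (huv : u ⬝ᵥ v = 0) :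
    wg (v ᵥ* S) u = 0 := by
  ext j k
  have e1 : ∑ i, v i * (u i * S j k + u j * S k i + u k * S i j) = 0 :=
    Finset.sum_eq_zero fun i _ => by rw [h3 i j k, mul_zero]
  have e2 : ∑ i, v i * (u i * S j k + u j * S k i + u k * S i j) =
      (u ⬝ᵥ v) * S j k - u j * (v ᵥ* S) k + (v ᵥ* S) j * u k := by
    simp only [Matrix.vecMul, dotProduct, Finset.sum_mul, Finset.mul_sum,
      ← Finset.sum_sub_distrib, ← Finset.sum_add_distrib]
    refine Finset.sum_congr rfl fun i _ => ?_
    rw [skew h i k]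
    ring
  rw [e2, huv] at e1
  simp only [wg, Matrix.of_apply, Matrix.zero_apply]
  linear_combination e1

end PT2

theorem st_PT2 : St_PT2 := by
  refine ⟨fun S V W h => ⟨fun hp => ?_, fun hV hW i j k l => ?_, ?_⟩,
    fun n S J u v => ⟨?_, ?_, ?_, ?_, ?_, ?_, fun h => ⟨PT2.flip h u v, ?_, PT2.con h⟩⟩⟩
  · have e := PT2.two (S 0 1) (S 0 2) (S 0 3) (S 1 2) (S 1 3) (S 2 3) V W
    rw [← PT1.eq_sk h, hp, zero_smul, sub_zero] at e
    exact e
  · have a := PT2.w3 h hV
    have b := PT2.w3 h hW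
    have s := PT2.skew (st_PT1 S).1
    simp only [wg, Matrix.of_apply]
    linear_combination W j * a i k l - W i * a j k l - V k * b l i j + V l * b k i j -
      W j * V l * s i k + W i * V k * s l j
  · ext i
    fin_cases i <;> simp [wg, st, Matrix.mulVec, dotProduct, Fin.sum_univ_four] <;> ring
  · ext i j
    simp only [wg, Matrix.transpose_apply, Matrix.of_apply, Matrix.neg_apply]
    ring
  · ext i j
    simp only [wg, Matrix.of_apply, Matrix.neg_apply]
    ring
  · ext i j
    simp only [wg, Matrix.of_apply, Matrix.zero_apply]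
    ring
  · constructor
    · intro h i j
      have := congrFun (congrFun h i) j
      simp only [wg, Matrix.of_apply, Matrix.zero_apply] at this
      linear_combination this
    · intro h
      ext i j
      simp only [wg, Matrix.of_apply, Matrix.zero_apply]
      linear_combination h i j
  · rw [PT2.wg_vv, PT2.wg_vv, Matrix.mul_sub, Matrix.sub_mul, Matrix.mul_vecMulVec,
      Matrix.mul_vecMulVec, Matrix.vecMulVec_mul, Matrix.vecMulVec_mul, Matrix.vecMul_transpose,
      Matrix.vecMul_transpose]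
  · rw [PT2.wg_vv, PT2.wg_vv, Matrix.mul_sub, Matrix.sub_mul, Matrix.mul_vecMulVec,
      Matrix.mul_vecMulVec, Matrix.vecMulVec_mul, Matrix.vecMulVec_mul, Matrix.mulVec_transpose,
      Matrix.mulVec_transpose]
  · have := PT2.flip h u u
    linear_combination (1 / 2 : ℂ) * this

end Pool.Agent.Lib.F4
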