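import Pool.Agent.Lib.F4.BlueA

/-! Project f4, row TAN: vector fields tangent to the hyperplanes. -/

open scoped Classical Topology ContDiff ComplexOrder Matrix
open Set Filter

noncomputable section

namespace Pool.Agent.Lib.F4

open Pool.Agent.Lib.SV (E)
open Pool.Agent.Lib.HS32 Pool.Agent.Lib.HLK

theorem st_TAN (hPT1 : St_PT1) (hPT2 : St_PT2) (hOP : St_OP) (hIDT : St_IDT) (hDIV : St_DIV) :
    St_TAN := by
  intro M _ S P V W α F
  have sk := fun e he z hz (u v : E 4) =>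
    (hPT2.2 4 (S e z) 0 u v).2.2.2.2.2.2 (F.hS.alt e he z hz)
  refine ⟨fun e he z hz => ⟨?_, ?_, ?_⟩, fun a a0 a1 Y hY h => ?_⟩
  · rw [F.eα, (sk e he z hz _ _).1, F.kV e he z hz, zero_dotProduct, neg_zero]
  · rw [F.eα, (sk e he z hz _ 0).2.1]
  · rw [F.eα, F.eP, ← Matrix.mulVec_transpose, F.hS.alt e he z hz, Matrix.neg_mulVec,
      Matrix.mulVec_neg, Matrix.mulVec_mulVec, ((hPT1 _).2.2 (F.hS.alt e he z hz)).2.1,
      F.pf0 e he z hz, zero_smul, neg_zero, Matrix.zero_mulVec, neg_zero]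
  have a2 : a - 1 ≠ 0 := sub_ne_zero.2 a1
  have nS : ¬Zr M S := fun c => F.nα fun e he z hz => by
    beta_reduce
    rw [F.eα, c e he z hz, Matrix.vecMul_zero]
  have nV : ¬Zr M V := fun c => F.nVW fun e he z hz => by
    ext i j
    simp [wg, c e he z hz]
  have eS : M.All fun e z => P e z = 0 ↔ S e z = 0 := fun e he z hz => by
    have s0 : st 0 = 0 := by rw [← zero_smul ℂ (0 : Mat 4), ((hPT1 0).2.1 0).1, zero_smul, zero_smul]
    beta_reduce
    rw [F.eP]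
    exact ⟨fun c => by rw [← ((hPT1 _).2.2 (F.hS.alt e he z hz)).1, c, s0], fun c => by rw [c, s0]⟩
  obtain ⟨s, hs, es⟩ := (hDIV 4 M (a - 1) 1).1 α (fun e z => Y e z ᵥ* S e z)
    (Or.inl ⟨F.hα, by
      rw [sub_add_cancel, ← zero_add a]
      exact (hOP 4 M 0 a α Y Y S).2.1 F.hS hY⟩) (F.hyp.r1 _ F.hα F.nα)
    ((hIDT 4 M 1).1 _ (Or.inl F.hα) F.nα) fun e he z hz => by
      have k := h e he z hz
      beta_reduce at k ⊢
      rw [F.eα] at k ⊢
      rw [(hPT2.1 _ _ _ (F.hS.alt e he z hz)).1 (F.pf0 e he z hz), (sk e he z hz _ _).1, k,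
        neg_zero, zero_smul]
  obtain ⟨t, ht, et⟩ := (hDIV 4 M a 1).2.1 P (fun e z => wg (Y e z) (V e z)) F.hP
    ((hOP 4 M a 1 α Y V S).2.2.2.1 hY F.hV)
    (((hDIV 4 M 0 0).2.2 _ _ S P fun e he z hz => (eS e he z hz).symm).1
      (F.hyp.r2 _ (Or.inl F.hS) nS))
    ((hIDT 4 M 1).2.1 _ (Or.inr F.hP) fun c => nS (((hDIV 4 M 0 0).2.2 _ _ P S eS).2.2 c))
    fun e he z hz => by
      beta_reduce
      rw [F.eP]
      refine (hPT2.1 _ _ _ (F.hS.alt e he z hz)).2.1 ((es e he z hz).trans ?_) (F.kV e he z hz)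
      rw [F.hyp.z0 _ a2 _ hs e he z hz, zero_smul]
  obtain ⟨r, hr, er⟩ := (hDIV 4 M (a - 1) 1).1 V Y (Or.inr ⟨F.hV, by rwa [sub_add_cancel]⟩)
    (F.hyp.rT _ F.hV nV) ((hIDT 4 M 1).1 _ (Or.inr F.hV) nV) fun e he z hz =>
      (et e he z hz).trans (by rw [F.hyp.z0 _ a0 _ ht e he z hz, zero_smul])
  exact fun e he z hz => (er e he z hz).trans (by rw [F.hyp.z0 _ a2 _ hr e he z hz, zero_smul])

end Pool.Agent.Lib.F4
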