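import Pool.Agent.Lib.F4.BlueA

/-! Project f4: the vanishing of the twisted forms. -/

open scoped Classical Topology ContDiff ComplexOrder Matrix
open Set Filter

set_option linter.unusedVariables false

noncomputable section

namespace Pool.Agent.Lib.F4

open Pool.Agent.Lib.SV (E)
open Pool.Agent.Lib.HS32 Pool.Agent.Lib.HLK

namespace Van95

theorem st_zero (hPT1 : St_PT1) : st (0 : Mat 4) = 0 := by
  have h := ((hPT1 0).2.1 0).1
  rwa [zero_smul, zero_smul] at h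

theorem st_iff (hPT1 : St_PT1) {S : Mat 4} (h : Sᵀ = -S) : st S = 0 ↔ S = 0 := by
  refine ⟨fun h0 => ?_, fun h0 => by rw [h0, st_zero hPT1]⟩
  rw [← ((hPT1 S).2.2 h).1, h0, st_zero hPT1]

end Van95

open Van95 in
theorem st_VAN (hPT1 : St_PT1) (hPT2 : St_PT2) (hOP : St_OP) (hOS : St_OS) (hIDT : St_IDT)
    (hDIV : St_DIV) (hTAN : St_TAN) : St_VAN := by
  intro M _ S P V W α F
  obtain ⟨t1, t2⟩ := hTAN M S P V W α F
  have z1 : ∀ a, a ≠ -1 → a ≠ 1 → ∀ ρ, H1 M a ρ → Zr M ρ := by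
    intro a h1 h2 ρ hρ
    by_cases h0 : a = 0
    · exact F.hyp.q0 ρ (h0 ▸ hρ)
    have rW := F.hyp.z0 (a + 1) (by omega) _ ((hOP 4 M a 1 ρ W W S).1 hρ F.hW)
    have pρ := t2 (1 + a) (by omega) (by omega) _
      ((hOP 4 M 1 a ρ W W P).2.2.1 F.hP hρ) fun e he z hz => by
        beta_reduce
        rw [Matrix.dotProduct_mulVec, ← Matrix.mulVec_transpose, F.hP.alt e he z hz,
          Matrix.neg_mulVec, (t1 e he z hz).2.2, neg_zero, zero_dotProduct]
    obtain ⟨s, hs, es⟩ := (hDIV 4 M (a - 1) 1).1 α ρ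
      (Or.inl ⟨F.hα, by rwa [sub_add_cancel]⟩) (F.hyp.r1 _ F.hα F.nα)
      ((hIDT 4 M 1).1 _ (Or.inl F.hα) F.nα) fun e he z hz => by
        have a1 := F.hS.alt e he z hz
        have w3 : W3 (ρ e z) (S e z) := (((hPT1 _).2.2 a1).2.2.1 _).1 (by
          rw [← F.eP]
          exact pρ e he z hz)
        have w4 := ((hPT2.2 4 (S e z) 0 (ρ e z) (W e z)).2.2.2.2.2.2 a1).2.2 w3 (rW e he z hz)
        beta_reduce
        rw [(hPT2.2 4 0 0 (α e z) (ρ e z)).2.1, F.eα, w4, neg_zero]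
    intro e he z hz
    have s0 : s e z = 0 := F.hyp.z0 (a - 1) (by omega) s hs e he z hz
    exact (es e he z hz).trans (by rw [s0, zero_smul])
  refine ⟨z1, fun a h1 h2 h3 Y hY => t2 a h2 h3 Y hY
    (F.hyp.z0 (1 + a) (by omega) _ ((hOP 4 M 1 a α Y Y S).1 F.hα hY)), fun a h1 h2 h3 T hT => ?_⟩
  have vT := z1 (a + 1) (by omega) (by omega) _ ((hOP 4 M a 1 α V V T).2.1 hT F.hV)
  have wT := z1 (a + 1) (by omega) (by omega) _ ((hOP 4 M a 1 α W W T).2.1 hT F.hW)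
  have hB : HB M (1 + 1) fun e z => wg (V e z) (W e z) :=
    (hOP 4 M 1 1 α V W S).2.2.2.1 F.hV F.hW
  obtain ⟨c1, -, c3⟩ := (hDIV 4 M 0 0).2.2 _ _ (fun e z => st (wg (V e z) (W e z)))
    (fun e z => wg (V e z) (W e z)) fun e he z hz => st_iff hPT1 (hB.alt e he z hz)
  obtain ⟨s, hs, es⟩ := (hDIV 4 M (a - 1) (1 + 1)).2.1 (fun e z => wg (V e z) (W e z))
    (fun e z => st (T e z)) hB (by
      rw [show a - 1 + (1 + 1) = a + 1 by ring]
      exact ((hOS M a T).1 hT).1)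
    (c1 (F.hyp.r2 _ (Or.inr ((hOS M 1 _).2 hB)) fun h => F.nVW (c3 h)))
    ((hIDT 4 M (1 + 1)).2.1 _ (Or.inr hB) F.nVW) fun e he z hz i j k l => by
      have h := (hPT2.1 (T e z) (V e z) (W e z) (hT.alt e he z hz)).2.1 (vT e he z hz)
        (wT e he z hz) i j k l
      beta_reduce
      rw [mul_comm, ← h, mul_comm]
  intro e he z hz
  have s0 : s e z = 0 := F.hyp.z0 (a - 1) (by omega) s hs e he z hz
  exact (st_iff hPT1 (hT.alt e he z hz)).1 ((es e he z hz).trans (by rw [s0, zero_smul]))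

end Pool.Agent.Lib.F4
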