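import Pool.Agent.Lib.F4.BlueA
import Pool.Agent.Lib.K3E.B_STAR
import Pool.Agent.Lib.HLK.B_FK1
import Pool.Agent.Lib.HLK.B_FK2

/-! Project f4: multivectors at a point. -/

open scoped Classical Matrix

noncomputable section

namespace Pool.Agent.Lib.F4

open Pool.Agent.Lib.SV (E)
open Pool.Agent.Lib.HS32 Pool.Agent.Lib.HLK

namespace XP

variable {n : ℕ}

theorem vac (g : Mat n) (Y : Fs n → ℂ) : (La g *ᵥ Y) ∅ = Y ∅ := by
  have h : ∀ B, La g ∅ B = if B = ∅ then 1 else 0 := fun B => by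
    rw [← Matrix.transpose_apply (La g), K3E.STAR.la_tr, FK2.la_vac]
  simp [Matrix.mulVec, dotProduct, h]

theorem an_la (g : Mat n) (k : Fin n) (Y : Fs n → ℂ) :
    an k *ᵥ La g *ᵥ Y = ∑ j, g k j • La g *ᵥ an j *ᵥ Y := by
  rw [Matrix.mulVec_mulVec, ((st_FK2 st_FK1 n).2 g).2.2.2.2.1 k, Matrix.sum_mulVec]
  exact Finset.sum_congr rfl fun j _ => by rw [Matrix.smul_mulVec, Matrix.mulVec_mulVec]

theorem an_vec (k : Fin n) (Y : Fs n → ℂ) {A : Fs n} (h : k ∉ A) :
    (an k *ᵥ Y) A = FK1.sg k A * Y (insert k A) := by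
  simp [Matrix.mulVec, dotProduct, FK1.an_apply, h]

theorem sg_ne (k : Fin n) (A : Fs n) : FK1.sg k A ≠ 0 :=
  left_ne_zero_of_mul_eq_one (FK1.sg_sq k A)

theorem star_vec (Y : Fs n → ℂ) (A : Fs n) :
    (K3E.star n *ᵥ Y) Aᶜ = (-1) ^ (∑ b ∈ A, (b : ℕ)) * Y A := by
  rw [Matrix.mulVec, dotProduct, Finset.sum_eq_single A]
  · simp [K3E.star]
  · intro B _ hB
    have : Aᶜ ≠ Bᶜ := fun c => hB (compl_injective c).symm
    simp [K3E.star, this]
  · simp

end XP

open XP in
theorem st_XP : St_XP := by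
  refine fun n g Y => ⟨vac g Y, ?_, ?_, ?_, ?_, fun h A hA => ?_, fun h A hA => ?_,
    fun q h A hA => ?_⟩
  · funext k
    rw [v1, an_la, Finset.sum_apply, Matrix.mulVec, dotProduct]
    exact Finset.sum_congr rfl fun j _ => by rw [Pi.smul_apply, vac, smul_eq_mul, v1]
  · ext k l
    rw [v2, Matrix.of_apply, an_la, Matrix.mulVec_sum, Finset.sum_apply, Matrix.mul_assoc,
      Matrix.mul_apply]
    refine Finset.sum_congr rfl fun i _ => ?_
    rw [Matrix.mulVec_smul, Pi.smul_apply, an_la, Finset.sum_apply, smul_eq_mul, Matrix.mul_apply]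
    refine congrArg _ (Finset.sum_congr rfl fun j _ => ?_)
    rw [Pi.smul_apply, vac, smul_eq_mul, Matrix.transpose_apply, mul_comm, v2, Matrix.of_apply]
  · ext k l
    have h := congrFun (congrArg (· *ᵥ Y) ((st_FK1 n).1 k l).2.1) ∅
    simp only [Matrix.add_mulVec, Matrix.zero_mulVec, Pi.add_apply, Pi.zero_apply,
      ← Matrix.mulVec_mulVec] at h
    rw [Matrix.transpose_apply, Matrix.neg_apply, v2, Matrix.of_apply, Matrix.of_apply]
    exact eq_neg_of_add_eq_zero_left h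
  · have h := K3E.bSTAR st_FK1 (st_FK2 st_FK1) n gᵀ
    rw [K3E.STAR.la_tr, Matrix.transpose_transpose, Matrix.det_transpose] at h
    rw [Matrix.mulVec_mulVec, Matrix.mulVec_mulVec, h, Matrix.smul_mulVec]
  · obtain ⟨k, rfl⟩ := Finset.card_eq_one.1 hA
    have e := congrFun h k
    rw [v1, an_vec k Y (Finset.notMem_empty k)] at e
    exact (mul_eq_zero.1 e).resolve_left (sg_ne _ _)
  · obtain ⟨k, l, hkl, rfl⟩ := Finset.card_eq_two.1 hA
    have e := congrFun (congrFun h k) l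
    rw [v2, Matrix.of_apply, an_vec l _ (Finset.notMem_empty l), an_vec k Y (by simpa using hkl)]
      at e
    exact (mul_eq_zero.1 ((mul_eq_zero.1 e).resolve_left (sg_ne _ _))).resolve_left (sg_ne _ _)
  · have e := h Aᶜ (by rw [Finset.card_compl, Fintype.card_fin]; omega)
    rw [star_vec] at e
    exact (mul_eq_zero.1 e).resolve_left (pow_ne_zero _ (by norm_num))

end Pool.Agent.Lib.F4
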