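import Pool.Agent.Lib.F4.BlueA

/-! Project f4: multivectors as tensors. -/

open scoped Classical Topology ContDiff ComplexOrder Matrix
open Set Filter

set_option linter.unusedVariables false

noncomputable section

namespace Pool.Agent.Lib.F4

open Pool.Agent.Lib.SV (E)
open Pool.Agent.Lib.HS32 Pool.Agent.Lib.HLK

namespace XT

theorem hol_mv {n : ℕ} {σ : Type} [Fintype σ] (A : Mx σ) {Y : E n → σ → ℂ} {z : E n}
    (h : ∀ i, HolN (fun w => Y w i) z) (i : σ) : HolN (fun w => (A *ᵥ Y w) i) z := by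
  have h1 : ∀ᶠ w in 𝓝 z, ∀ j, DifferentiableAt ℂ (fun w => Y w j) w := eventually_all.2 h
  filter_upwards [h1] with w hw
  simp only [Matrix.mulVec, dotProduct]
  exact DifferentiableAt.fun_sum fun j _ => (hw j).const_mul _

theorem v1_smul {n : ℕ} (c : ℂ) (Y : Fs n → ℂ) : v1 (c • Y) = c • v1 Y := by
  funext k
  simp only [v1, Matrix.mulVec_smul, Pi.smul_apply]

theorem v2_smul {n : ℕ} (c : ℂ) (Y : Fs n → ℂ) : v2 (c • Y) = c • v2 Y := by
  ext k l
  simp only [v2, Matrix.mulVec_smul, Pi.smul_apply, Matrix.of_apply, Matrix.smul_apply]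

theorem key {n : ℕ} {M : Mf n} {H : M.Fam (Mat n)} {a : ℕ} {Y : M.Fam (Fs n → ℂ)}
    (h : (K3E.lk H a).Sec Y) : M.Ov fun e e' x =>
      La (M.J e e' x) *ᵥ Y e' (e' x) = jd M e e' x ^ (a : ℤ) • Y e (e x) :=
  fun e he e' he' x hx hx' => by
    have d : jd M e e' x ≠ 0 := ((mTR n M).2.1 e he e' he' x hx hx').2.1
    have c : Y e (e x) = ((jd M e e' x ^ a * 1)⁻¹ • La (M.J e e' x)) *ᵥ Y e' (e' x) :=
      h.cmp e he e' he' x hx hx'
    beta_reduce
    rw [c, Matrix.smul_mulVec, smul_smul, mul_one, zpow_natCast,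
      mul_inv_cancel₀ (pow_ne_zero a d), one_smul]

theorem key2 (hXP : St_XP) {n : ℕ} {M : Mf n} {H : M.Fam (Mat n)} {a : ℕ}
    {Y : M.Fam (Fs n → ℂ)} (h : (K3E.lk H a).Sec Y) : M.Ov fun e e' x =>
      K3E.star n *ᵥ Y e' (e' x) =
        jd M e e' x ^ ((a : ℤ) - 1) • La (M.J e e' x)ᵀ *ᵥ K3E.star n *ᵥ Y e (e x) :=
  fun e he e' he' x hx hx' => by
    have d : jd M e e' x ≠ 0 := ((mTR n M).2.1 e he e' he' x hx hx').2.1
    have c := (hXP n (M.J e e' x) (Y e' (e' x))).2.2.2.2.1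
    rw [key h e he e' he' x hx hx', Matrix.mulVec_smul, Matrix.mulVec_smul] at c
    beta_reduce
    rw [zpow_sub_one₀ d, mul_comm, mul_smul, c, smul_smul, inv_mul_cancel₀ d, one_smul]

end XT

theorem st_XT (hXP : St_XP) : St_XT := by
  intro n M H a Y h hY
  refine ⟨⟨fun e he z hz => hY e he z hz ∅, fun e he e' he' x hx hx' => ?_⟩,
    ⟨fun e he z hz k => XT.hol_mv (an k) (hY e he z hz) ∅, fun e he e' he' x hx hx' => ?_⟩,
    ⟨fun e he z hz k l => XT.hol_mv (an l) (XT.hol_mv (an k) (hY e he z hz)) ∅,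
      fun e he z hz => (hXP n 0 (Y e z)).2.2.2.1, fun e he e' he' x hx hx' => ?_⟩,
    ⟨fun e he z hz k => XT.hol_mv (an k) (XT.hol_mv (K3E.star n) (hY e he z hz)) ∅,
      fun e he e' he' x hx hx' => ?_⟩,
    ⟨fun e he z hz => XT.hol_mv (K3E.star n) (hY e he z hz) ∅, fun e he e' he' x hx hx' => ?_⟩⟩
  · beta_reduce
    rw [← (hXP n (M.J e e' x) (Y e' (e' x))).1, XT.key h e he e' he' x hx hx', Pi.smul_apply,
      smul_eq_mul]
  · beta_reduce
    rw [← (hXP n (M.J e e' x) (Y e' (e' x))).2.1, XT.key h e he e' he' x hx hx', XT.v1_smul]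
  · beta_reduce
    rw [← (hXP n (M.J e e' x) (Y e' (e' x))).2.2.1, XT.key h e he e' he' x hx hx', XT.v2_smul]
  · beta_reduce
    rw [XT.key2 hXP h e he e' he' x hx hx', XT.v1_smul, (hXP n _ _).2.1, Matrix.mulVec_transpose]
  · beta_reduce
    rw [XT.key2 hXP h e he e' he' x hx hx', Pi.smul_apply, smul_eq_mul, (hXP n _ _).1]

end Pool.Agent.Lib.F4
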