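import Pool.Agent.Lib.F4.BlueA
import Pool.Agent.Lib.HS32.MAll

/-! Project f4, row Z0: no power of the canonical bundle has a section. -/

open scoped Classical Topology ContDiff ComplexOrder Matrix
open Set Filter

set_option linter.unusedVariables false

noncomputable section

namespace Pool.Agent.Lib.F4

open Pool.Agent.Lib.SV (E)
open Pool.Agent.Lib.HS32 Pool.Agent.Lib.HLK

theorem z0_sec {n : ℕ} {M : Mf n} {m : ℕ} {s : M.Fam ℂ} (h : H0 M m s) : M.HSec m s where
  sm := fun e he z hz => ((mHOL n (s e) z).2.2 (h.hol e he z hz)).1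
  cmp := fun e he e' he' x hx hx' => by
    have := h.cmp e he e' he' x hx hx'
    beta_reduce at this ⊢
    rw [this, zpow_natCast, mul_comm]
  hol := fun e he z hz => (h.hol e he z hz).self_of_nhds

theorem z0_inv {n : ℕ} {M : Mf n} {a : ℤ} {s : M.Fam ℂ} (h : H0 M a s)
    (h0 : M.All fun e z => s e z ≠ 0) : H0 M (-a) fun e z => (s e z)⁻¹ where
  hol := fun e he z hz => by
    filter_upwards [h.hol e he z hz, Mf.AllOn.ev h0 he hz] with w h1 h2
    exact h1.inv h2
  cmp := fun e he e' he' x hx hx' => by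
    have := h.cmp e he e' he' x hx hx'
    beta_reduce at this ⊢
    rw [this, mul_inv, zpow_neg]

theorem st_Z0 (hNEG : St_NEG) : St_Z0 := by
  intro n M _ H hH hn hz a ha s hs
  rcases lt_or_gt_of_ne ha with h | h
  · by_contra hne
    obtain ⟨b, rfl⟩ : ∃ b : ℕ, a = -b := ⟨a.natAbs, by omega⟩
    have h0 := hNEG n M H hH hn b s hs hne
    have h1 := z0_inv hs h0
    rw [neg_neg] at h1
    have h2 := hz b (by omega) _ (z0_sec h1)
    exact hne fun e he z hz' => inv_eq_zero.1 (h2 e he z hz')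
  · obtain ⟨b, rfl⟩ : ∃ b : ℕ, a = b := ⟨a.natAbs, by omega⟩
    exact hz b (by omega) _ (z0_sec hs)

end Pool.Agent.Lib.F4
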