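import Pool.Agent.Lib.F4.BlueS
import Pool.Agent.Lib.HS32.MAll

/-! Project f4: the derivatives of a holomorphic form of degree one with values in `K`. -/

open scoped Classical Topology ContDiff ComplexOrder Matrix
open Set Filter MeasureTheory

set_option linter.unusedVariables false

noncomputable section

namespace Pool.Agent.Lib.F4

open Pool.Agent.Lib.SV (E)
open Pool.Agent.Lib.HS32 Pool.Agent.Lib.HLK

namespace MUS31

variable {n : ℕ}

theorem wg_eq (u v : E n) : wg u v = Matrix.vecMulVec u v - Matrix.vecMulVec v u := by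
  ext i j
  simp [wg, Matrix.vecMulVec_apply]

theorem wg_alt (u v : E n) : (wg u v)ᵀ = -wg u v := by
  ext i j
  simp only [wg, Matrix.of_apply, Matrix.transpose_apply, Matrix.neg_apply]
  ring

theorem d1_alt (α : E n → E n) (z : E n) : (d1 α z)ᵀ = -d1 α z := by
  ext i j
  simp only [d1, Matrix.of_apply, Matrix.transpose_apply, Matrix.neg_apply]
  ring

theorem wg_vm (J : Mat n) (u v : E n) : wg (u ᵥ* J) (v ᵥ* J) = Jᵀ * wg u v * J := by
  rw [wg_eq, wg_eq, Matrix.mul_sub, Matrix.sub_mul, Matrix.mul_vecMulVec, Matrix.mul_vecMulVec,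
    Matrix.vecMulVec_mul, Matrix.vecMulVec_mul, Matrix.mulVec_transpose, Matrix.mulVec_transpose]

theorem tr_vv (G : Mat n) (a b : E n) :
    (G * Matrix.vecMulVec (star b) a).trace = a ⬝ᵥ G *ᵥ star b := by
  rw [Matrix.mul_vecMulVec, Matrix.trace_vecMulVec, dotProduct_comm]

theorem sum_wg (H S : Mat n) (a : E n) :
    ∑ i, ((H⁻¹ᵀ * wg (S i) a * H⁻¹) *ᵥ star a) i = mq H S a := by
  rw [mq, tr_vv, tr_vv]
  generalize H⁻¹ = G
  have e : ∀ i, ((Gᵀ * wg (S i) a * G) *ᵥ star a) i =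
      (G * S) i i * 0 + (S i ⬝ᵥ fun j => G j i) * (a ⬝ᵥ G *ᵥ star a) -
        (a ᵥ* G) i * (S *ᵥ G *ᵥ star a) i := fun i => by
    rw [wg_eq, Matrix.mul_sub, Matrix.sub_mul, Matrix.mul_vecMulVec, Matrix.mul_vecMulVec,
      Matrix.vecMulVec_mul, Matrix.vecMulVec_mul, Matrix.sub_mulVec, Matrix.vecMulVec_mulVec,
      Matrix.vecMulVec_mulVec, Matrix.mulVec_transpose, Matrix.mulVec_transpose,
      ← Matrix.dotProduct_mulVec, ← Matrix.dotProduct_mulVec]
    simp only [Pi.sub_apply, Pi.smul_apply, MulOpposite.smul_eq_mul_unop, MulOpposite.unop_op,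
      mul_zero, zero_add]
    rfl
  simp only [e, mul_zero, zero_add, Finset.sum_sub_distrib, ← Finset.sum_mul]
  rw [Matrix.trace_mul_comm, mul_assoc, ← Matrix.mulVec_mulVec, ← Matrix.mulVec_mulVec,
    Matrix.dotProduct_mulVec a G (S *ᵥ _)]
  rfl

theorem mq_vv (H : Mat n) (g a : E n) :
    mq H (Matrix.vecMulVec (star g) g) a = p1 H g g * p1 H a a - p1 H g a * p1 H a g := by
  rw [mq, tr_vv, tr_vv, tr_vv, p1, p1, p1, p1, mul_assoc, ← Matrix.mulVec_mulVec,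
    ← Matrix.mulVec_mulVec, Matrix.vecMulVec_mulVec, Matrix.mulVec_smul, dotProduct_smul]
  simp only [MulOpposite.smul_eq_mul_unop, MulOpposite.unop_op]
  ring

theorem gd_comp {ψ : E n → E n} {z : E n} (hψ : HolN ψ z) {f : E n → ℂ}
    (hf : DifferentiableAt ℝ f (ψ z)) : gd (f ∘ ψ) z = gd f (ψ z) ᵥ* jm ψ z :=
  funext fun j => ((mCHN n ψ z hψ).2.2.2.2.2.2.2.2.2.1 f hf j).1

theorem d1_comp {ψ α α' : E n → E n} {z : E n} (hψ : HolN ψ z) {D : E n → ℂ}
    (hD : DifferentiableAt ℝ D z) (hα : ∀ i, DifferentiableAt ℝ (fun w => α w i) (ψ z))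
    (h : α' =ᶠ[𝓝 z] fun w => D w • (α (ψ w) ᵥ* jm ψ w)) :
    d1 α' z = wg (gd D z) (α (ψ z) ᵥ* jm ψ z) + D z • ((jm ψ z)ᵀ * d1 α (ψ z) * jm ψ z) := by
  obtain ⟨c1, c2, c3, -, -, -, -, -, -, c4, -⟩ := mCHN n ψ z hψ
  have hc : ∀ a, DifferentiableAt ℝ (fun w => α (ψ w) a) z := fun a =>
    (hα a).comp z (cd_diff c1)
  have e : ∀ i j, dz i (fun w => α' w j) z = dz i D z * (α (ψ z) ᵥ* jm ψ z) j + D z *
      (∑ a, (∑ b, dz b (fun w => α w a) (ψ z) * jm ψ z b i) * jm ψ z a j +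
        ∑ a, α (ψ z) a * dM i (jm ψ) z a j) := fun i j => by
    have e1 : (fun w => α' w j) =ᶠ[𝓝 z] fun w => D w * ∑ a, α (ψ w) a * jm ψ w a j :=
      h.mono fun w hw => by
        beta_reduce
        rw [hw]
        rfl
    rw [dz_congr e1, dz_mul hD (DifferentiableAt.fun_sum fun a _ => (hc a).fun_mul (c2.diff a j)),
      dz_sum fun a _ => (hc a).fun_mul (c2.diff a j), ← Finset.sum_add_distrib]
    refine congrArg₂ (· + ·) rfl (congrArg (D z * ·) (Finset.sum_congr rfl fun a _ => ?_))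
    rw [dz_mul (hc a) (c2.diff a j), ← (c4 _ (hα a) i).1]
    rfl
  ext i j
  have s1 : ∑ a, α (ψ z) a * dM i (jm ψ) z a j = ∑ a, α (ψ z) a * dM j (jm ψ) z a i :=
    Finset.sum_congr rfl fun a _ => by rw [c3 a j i]
  have s2 : ((jm ψ z)ᵀ * d1 α (ψ z) * jm ψ z) i j =
      ∑ a, (∑ b, dz b (fun w => α w a) (ψ z) * jm ψ z b i) * jm ψ z a j -
        ∑ a, (∑ b, dz b (fun w => α w a) (ψ z) * jm ψ z b j) * jm ψ z a i := by
    simp only [Matrix.mul_apply, Matrix.transpose_apply, d1, Matrix.of_apply, Finset.sum_mul,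
      mul_sub, sub_mul, Finset.sum_sub_distrib]
    rw [Finset.sum_comm (f := fun a b => dz b (fun w => α w a) (ψ z) * jm ψ z b j * jm ψ z a i)]
    refine congrArg₂ (· - ·) ?_ ?_ <;>
      exact Finset.sum_congr rfl fun a _ => Finset.sum_congr rfl fun b _ => by ring
  rw [Matrix.add_apply, Matrix.smul_apply, s2]
  simp only [d1, wg, gd, Matrix.of_apply, e, s1, smul_eq_mul]
  ring

theorem sm_wg {f : E n → ℂ} {α : E n → E n} {z : E n} (hf : ContDiffAt ℝ ∞ f z)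
    (hα : ∀ i, HolN (fun w => α w i) z) : SmM (fun w => wg (gd f w) (α w)) z := fun i j =>
  ((cd_dz hf i).mul ((mHOL n _ z).2.2 (hα j)).1).sub
    (((mHOL n _ z).2.2 (hα i)).1.mul (cd_dz hf j))

theorem sm_d1 {α : E n → E n} {z : E n} (hα : ∀ i, HolN (fun w => α w i) z) : SmM (d1 α) z :=
  fun i j => (cd_dz ((mHOL n _ z).2.2 (hα j)).1 i).sub (cd_dz ((mHOL n _ z).2.2 (hα i)).1 j)

theorem dzb_hol {f : E n → ℂ} {z : E n} (h : HolN f z) (j : Fin n) : dzb j f z = 0 :=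
  ((mHOL n f z).1 (cd_diff ((mHOL n f z).2.2 h).1)).1 h.self_of_nhds j

theorem dMb_wg {f : E n → ℂ} {α : E n → E n} {z : E n} (hf : ContDiffAt ℝ ∞ f z)
    (hα : ∀ i, HolN (fun w => α w i) z) (k : Fin n) :
    dMb k (fun w => wg (gd f w) (α w)) z = wg (hess f z k) (α z) := by
  ext i j
  have d := fun i => cd_diff ((mHOL n _ z).2.2 (hα i)).1
  have d' := fun i => cd_diff (cd_dz hf i)
  change dzb k (fun w => dz i f w * α w j - α w i * dz j f w) z =
    dzb k (dz i f) z * α z j - α z i * dzb k (dz j f) z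
  rw [dzb_sub ((d' i).fun_mul (d j)) ((d i).fun_mul (d' j)), dzb_mul (d' i) (d j),
    dzb_mul (d i) (d' j), dzb_hol (hα i), dzb_hol (hα j)]
  ring

theorem dMb_d1 {α : E n → E n} {z : E n} (hα : ∀ i, HolN (fun w => α w i) z) (k : Fin n) :
    dMb k (d1 α) z = 0 := by
  ext i j
  have d := fun i j => ((mHOL n _ z).2.2 (hα i)).2.1 j
  change dzb k (fun w => dz i (fun w => α w j) w - dz j (fun w => α w i) w) z = 0
  rw [dzb_sub (cd_diff ((mHOL n _ z).2.2 (d j i)).1) (cd_diff ((mHOL n _ z).2.2 (d i j)).1),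
    dzb_hol (d j i), dzb_hol (d i j), sub_zero]

theorem dd_vv {u : E n → ℝ} {z : E n} (hu : ContDiffAt ℝ ∞ (fun w => (u w : ℂ)) z) :
    dd (fun w => (u w : ℂ)) (fun w => (u w : ℂ)) z =
      Matrix.vecMulVec (star (gd (fun w => (u w : ℂ)) z)) (gd (fun w => (u w : ℂ)) z) := by
  ext i j
  rw [dd_apply, ← star_dz_ofReal (cd_diff hu)]
  rfl

variable {M : Mf n} {α : M.Fam (E n)}

theorem s2_mu (hα : H1 M 1 α) {φ : M.Fam ℝ} (hφ : M.Wt 1 φ) : S2 M (mu M φ α) := by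
  refine ⟨fun e he z hz => (sm_wg (cd_ofReal (hφ.sm e he z hz)) (hα.hol e he z hz)).sub
    (sm_d1 (hα.hol e he z hz)), fun e he z hz => ?_, fun e he e' he' x hx hx' => ?_⟩
  · simp only [mu, Matrix.transpose_sub, wg_alt, d1_alt, neg_sub_neg, neg_sub]
  obtain ⟨t1, t2, -, t4, -⟩ := (mTR n M).2.1 e he e' he' x hx hx'
  have hx0 : (e ∘ e'.symm) (e' x) = e x := by rw [Function.comp_apply, e'.left_inv hx']
  have hD := (mCHN n _ _ t1).2.2.2.2.1
  obtain ⟨d1', -, -, d4⟩ := (mHOL n _ _).2.2 hD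
  obtain ⟨d5, -, d6⟩ := d4 t2
  have s1 : ContDiffAt ℝ ∞ (fun w => (φ e w : ℂ)) ((e ∘ e'.symm) (e' x)) := by
    rw [hx0]
    exact cd_ofReal (hφ.sm.at he hx)
  have a1 : α e' =ᶠ[𝓝 (e' x)] fun w => (jm (e ∘ e'.symm) w).det •
      (α e ((e ∘ e'.symm) w) ᵥ* jm (e ∘ e'.symm) w) := t4.mono fun w hw => by
    have := hα.cmp e he e' he' _ hw.2.1 hw.2.2.1
    beta_reduce at this
    rwa [hw.2.2.2.2.2.1, jd, hw.2.2.2.2.2.2, zpow_one] at this
  have a2 : (fun w => (φ e' w : ℂ)) =ᶠ[𝓝 (e' x)] fun w =>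
      ((fun w => (φ e w : ℂ)) ∘ (e ∘ e'.symm)) w +
        (Real.log (Complex.normSq (jm (e ∘ e'.symm) w).det) : ℝ) := t4.mono fun w hw => by
    have := hφ.cmp e he e' he' _ hw.2.1 hw.2.2.1
    beta_reduce at this
    rw [hw.2.2.2.2.2.1, hw.2.2.2.2.2.2, one_mul] at this
    beta_reduce
    rw [this, Complex.ofReal_add]
    rfl
  have a3 : gd (fun w => (φ e' w : ℂ)) (e' x) = gd (fun w => (φ e w : ℂ)) (e x) ᵥ* M.J e e' x +
      (jd M e e' x)⁻¹ • gd (fun w => (jm (e ∘ e'.symm) w).det) (e' x) := by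
    have := gd_comp t1 (cd_diff s1)
    rw [hx0] at this
    funext j
    rw [gd, dz_congr a2, dz_add (cd_diff (s1.comp _ (mCHN n _ _ t1).1)) (cd_diff (cd_ofReal d5)),
      d6 j, div_eq_inv_mul]
    exact congrArg₂ (· + ·) (congrFun this j) rfl
  have a4 := d1_comp t1 (cd_diff d1') (α := α e) (fun i => by
    rw [hx0]
    exact cd_diff ((mHOL n _ _).2.2 (hα.hol.at he hx i)).1) a1
  rw [hx0] at a4
  have a5 := hα.cmp e he e' he' x hx hx'
  beta_reduce at a5 ⊢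
  rw [zpow_one] at a5
  rw [mu, mu, a3, a4, a5, Matrix.mul_sub, Matrix.sub_mul, ← wg_vm]
  change _ - (wg _ (α e (e x) ᵥ* M.J e e' x) +
    jd M e e' x • ((M.J e e' x)ᵀ * d1 (α e) (e x) * M.J e e' x)) = _
  have t3 : jd M e e' x ≠ 0 := t2
  ext i j
  simp only [wg, Matrix.sub_apply, Matrix.add_apply, Matrix.smul_apply, Matrix.of_apply,
    Pi.add_apply, Pi.smul_apply, smul_eq_mul]
  field_simp
  ring

theorem s2_da (hα : H1 M 1 α) {f : M.X → ℝ} (hf : M.Sm f) : S2 M (da M f α) := by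
  refine ⟨fun e he z hz => sm_wg (hf.lc e he z hz) (hα.hol e he z hz),
    fun e he z hz => wg_alt _ _, fun e he e' he' x hx hx' => ?_⟩
  obtain ⟨t1, t2, -, t4, -⟩ := (mTR n M).2.1 e he e' he' x hx hx'
  have hx0 : (e ∘ e'.symm) (e' x) = e x := by rw [Function.comp_apply, e'.left_inv hx']
  have s1 : ContDiffAt ℝ ∞ (M.lc f e) ((e ∘ e'.symm) (e' x)) := by
    rw [hx0]
    exact hf.lc.at he hx
  have a2 : M.lc f e' =ᶠ[𝓝 (e' x)] M.lc f e ∘ (e ∘ e'.symm) := t4.mono fun w hw => by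
    simp only [Mf.lc, Function.comp_apply, hw.2.2.2.2.1]
  have a3 : gd (M.lc f e') (e' x) = gd (M.lc f e) (e x) ᵥ* M.J e e' x := by
    have := gd_comp t1 (cd_diff s1)
    rw [hx0] at this
    funext j
    rw [gd, dz_congr a2]
    exact congrFun this j
  have a5 := hα.cmp e he e' he' x hx hx'
  beta_reduce at a5 ⊢
  rw [zpow_one] at a5
  rw [da, da, a3, a5, ← wg_vm]
  ext i j
  simp only [wg, Matrix.smul_apply, Matrix.of_apply, Pi.smul_apply, smul_eq_mul]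
  ring

end MUS31

open MUS31

theorem st_MUS (h1 : St_PW1) (h2 : St_S2K) : St_MUS := by
  intro n M H α hH hα
  obtain ⟨-, -, k3, -, -, k6, -⟩ := h2 n M H hH
  have hp : M.Wt 1 (ph M H) := (mINV n M H hH).2.2.2.2.2.2.1
  have hd : ∀ x, (((M.ev H x).det.re : ℝ) : ℂ) = (M.ev H x).det := fun x =>
    Mf.herm_det (hH.ev_pos x).isHermitian
  have key : ∀ (m T : M.Fam (Mat n)) (x : M.X), M.Form T →
      (∀ i, dMb i (m (M.ch x)) (M.ch x x) = wg (M.ev T x i) (M.ev α x)) →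
      dbc M H m α x = mx M H T (aa M H α) x := fun m T x hT h => by
    rw [((k6 α hα).2.2 T).1 x hT, Complex.ofReal_div, hd,
      (((h1 n _).2.2.2.2 (hH.ev_pos x)).2.2 (M.ev T x) (M.ev α x)).1 (Mf.AllOn.ch hT.herm x),
      ← sum_wg]
    simp only [← h]
    rfl
  refine ⟨hp, ?_, fun ψ hψ => ⟨s2_mu hα hψ, fun x => key _ _ x
      ((mHES n M).2.2.2.1 _ _ hψ).toForm fun i => ?_⟩,
    fun f hf => ⟨s2_da hα hf, ?_, fun x => key _ _ x ((mHES n M).1 f hf).toForm fun i =>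
      dMb_wg (hf.lc.ch x) (hα.hol.ch x) i, fun x => ?_, fun g g' hg e he z hz => ?_⟩⟩
  · funext e z
    exact (neg_neg _).symm
  · have := dMb_sub (k := i) (sm_wg (cd_ofReal (hψ.sm.ch x)) (hα.hol.ch x)) (sm_d1 (hα.hol.ch x))
    rw [dMb_wg (cd_ofReal (hψ.sm.ch x)) (hα.hol.ch x), dMb_d1 (hα.hol.ch x), sub_zero] at this
    exact this
  · exact (k3 _ _ (s2_da hα hf) ((k3 _ _ (s2_mu hα hp) (s2_mu hα hp)).2.2.1 f hf)).2.1
  · obtain ⟨-, w2, -, -, w5⟩ := h1 n (M.ev H x)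
    have e1 : M.ev (M.ds f f) x = Matrix.vecMulVec (star (gd (M.lc f (M.ch x)) (M.ch x x)))
        (gd (M.lc f (M.ch x)) (M.ch x x)) := dd_vv (hf.lc.ch x)
    have e2 : n2 M H (da M f α) x = (p2 (M.ev H x) (wg (gd (M.lc f (M.ch x)) (M.ch x x))
        (M.ev α x)) (wg (gd (M.lc f (M.ch x)) (M.ch x x)) (M.ev α x))).re / (M.ev H x).det.re := by
      rw [← Complex.div_ofReal_re, hd]
      rfl
    have e3 : M.tr H (aa M H α) x =
        (p1 (M.ev H x) (M.ev α x) (M.ev α x)).re / (M.ev H x).det.re := by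
      rw [← Complex.div_ofReal_re, hd, p1, ← tr_vv, div_eq_inv_mul, ← smul_eq_mul,
        ← Matrix.trace_smul, ← Matrix.mul_smul]
      rfl
    constructor
    · rw [((k6 α hα).2.2 _).1 x ((mHES n M).2.2.1 f hf).1, e1, mq_vv, e2, w2]
    · rw [e2, e3, Mf.gr, Mf.tr, e1, tr_vv, ← mul_div_assoc]
      exact div_le_div_of_nonneg_right ((w5 (hH.ev_pos x)).2.1 _ _).2
        (Mf.pd_det_re (hH.ev_pos x)).le
  · have e1 : ∀ j, dz j (M.lc (fun x => g (f x)) e) z = g' (f (e.symm z)) * dz j (M.lc f e) z :=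
      fun j => dz_comp_real (u := f ∘ e.symm) (hg _) (cd_diff (hf e he z hz))
    ext i j
    simp only [da, wg, gd, Matrix.smul_apply, Matrix.of_apply, smul_eq_mul, e1]
    ring

end Pool.Agent.Lib.F4
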