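import Pool.Agent.Lib.F4.BlueS
import Pool.Agent.Lib.HS32.MKit

/-! Project f4: the pointwise product of forms of degree two. -/

open scoped Classical Topology ContDiff ComplexOrder Matrix InnerProductSpace
open Set Filter

set_option linter.unusedVariables false

noncomputable section

namespace Pool.Agent.Lib.F4

open Pool.Agent.Lib.SV (E)
open Pool.Agent.Lib.HS32 Pool.Agent.Lib.HLK

namespace PW1

variable {n : ℕ}

theorem wg_eq (a b : E n) : wg a b = Matrix.vecMulVec a b - Matrix.vecMulVec b a := by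
  ext i j
  simp [wg, Matrix.vecMulVec_apply]

theorem add_l (H m m' m'' : Mat n) : p2 H (m + m') m'' = p2 H m m'' + p2 H m' m'' := by
  simp only [p2, Matrix.mul_add, Matrix.add_mul, Matrix.trace_add, add_div]

theorem add_r (H m m' m'' : Mat n) : p2 H m (m' + m'') = p2 H m m' + p2 H m m'' := by
  simp only [p2, Matrix.conjTranspose_add, Matrix.mul_add, Matrix.trace_add, add_div]

theorem sub_l (H m m' m'' : Mat n) : p2 H (m - m') m'' = p2 H m m'' - p2 H m' m'' := by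
  simp only [p2, Matrix.mul_sub, Matrix.sub_mul, Matrix.trace_sub, sub_div]

theorem sub_r (H m m' m'' : Mat n) : p2 H m (m' - m'') = p2 H m m' - p2 H m m'' := by
  simp only [p2, Matrix.conjTranspose_sub, Matrix.mul_sub, Matrix.trace_sub, sub_div]

theorem smul_l (H m m' : Mat n) (c : ℂ) : p2 H (c • m) m' = c * p2 H m m' := by
  simp only [p2, Matrix.mul_smul, Matrix.smul_mul, Matrix.trace_smul, smul_eq_mul, mul_div_assoc]

theorem smul_r (H m m' : Mat n) (c : ℂ) : p2 H m (c • m') = star c * p2 H m m' := by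
  simp only [p2, Matrix.conjTranspose_smul, Matrix.mul_smul, Matrix.trace_smul, smul_eq_mul,
    mul_div_assoc]

theorem tr_vv (G : Mat n) (a b c d : E n) :
    (Gᵀ * Matrix.vecMulVec a b * G * (Matrix.vecMulVec c d)ᴴ).trace =
      (a ⬝ᵥ G *ᵥ star c) * (b ⬝ᵥ G *ᵥ star d) := by
  rw [Matrix.conjTranspose_vecMulVec, Matrix.mul_vecMulVec Gᵀ, Matrix.vecMulVec_mul,
    Matrix.vecMulVec_mul_vecMulVec, Matrix.trace_vecMulVec, Matrix.mulVec_transpose,
    Matrix.dotProduct_mulVec, Matrix.dotProduct_mulVec]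
  simp only [dotProduct_smul, smul_eq_mul]
  ring

theorem p2_vv (H : Mat n) (a b c d : E n) :
    p2 H (Matrix.vecMulVec a b) (Matrix.vecMulVec c d) = p1 H a c * p1 H b d / 2 := by
  rw [p2, tr_vv]
  rfl

theorem p2_wg (H : Mat n) (a b c d : E n) :
    p2 H (wg a b) (wg c d) = p1 H a c * p1 H b d - p1 H a d * p1 H b c := by
  simp only [wg_eq, sub_l, sub_r, p2_vv]
  ring

theorem gram (B : Mat n) : Bᴴ * B = ∑ r, Matrix.vecMulVec (star (B r)) (B r) := by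
  ext i j
  simp [Matrix.mul_apply, Matrix.sum_apply, Matrix.vecMulVec_apply]

theorem tr1 (G : Mat n) (a : E n) :
    (G * Matrix.vecMulVec (star a) a).trace = a ⬝ᵥ G *ᵥ star a := by
  rw [Matrix.mul_vecMulVec, Matrix.trace_vecMulVec, dotProduct_comm]

theorem tr2 (G : Mat n) (a b : E n) :
    (G * Matrix.vecMulVec (star b) b * G * Matrix.vecMulVec (star a) a).trace =
      (b ⬝ᵥ G *ᵥ star a) * (a ⬝ᵥ G *ᵥ star b) := by
  rw [Matrix.mul_vecMulVec G, Matrix.vecMulVec_mul, Matrix.vecMulVec_mul_vecMulVec,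
    Matrix.trace_vecMulVec, Matrix.dotProduct_mulVec b, dotProduct_comm a]
  simp only [dotProduct_smul, smul_eq_mul]

theorem mq_gram (H B : Mat n) (a : E n) :
    mq H (Bᴴ * B) a = ∑ r, p2 H (wg (B r) a) (wg (B r) a) := by
  rw [gram, mq]
  simp only [Matrix.mul_sum, Matrix.sum_mul, Matrix.trace_sum, tr2]
  simp only [Finset.sum_mul, ← Finset.sum_sub_distrib, tr1, p2_wg, p1]

theorem p2_pb (H J m m' : Mat n) (hJ : J.det ≠ 0) :
    p2 (Jᴴ * H * J) (Jᵀ * m * J) (Jᵀ * m' * J) = p2 H m m' := by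
  have u1 : IsUnit J.det := Ne.isUnit hJ
  have u2 : IsUnit Jᴴ.det := by
    rw [Matrix.det_conjTranspose]
    exact Ne.isUnit (star_ne_zero.2 hJ)
  have e1 : J⁻¹ᵀ * Jᵀ = 1 := by
    rw [← Matrix.transpose_mul, Matrix.mul_nonsing_inv _ u1, Matrix.transpose_one]
  have e2 : J * J⁻¹ = 1 := Matrix.mul_nonsing_inv _ u1
  have e3 : Jᴴ⁻¹ * Jᴴ = 1 := Matrix.nonsing_inv_mul _ u2
  have e4 : Jᵀᴴ * Jᴴ⁻¹ᵀ = 1 := by
    have : Jᵀᴴ = Jᴴᵀ := rfl
    rw [this, ← Matrix.transpose_mul, e3, Matrix.transpose_one]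
  have key : (Jᴴ * H * J)⁻¹ᵀ * (Jᵀ * m * J) * (Jᴴ * H * J)⁻¹ * (Jᵀ * m' * J)ᴴ =
      Jᴴ⁻¹ᵀ * ((H⁻¹ᵀ * m * H⁻¹ * m'ᴴ) * Jᵀᴴ) := by
    calc _ = Jᴴ⁻¹ᵀ * H⁻¹ᵀ * (J⁻¹ᵀ * Jᵀ) * m * (J * J⁻¹) * H⁻¹ * (Jᴴ⁻¹ * Jᴴ) * m'ᴴ * Jᵀᴴ := by
          simp only [Matrix.mul_inv_rev, Matrix.transpose_mul, Matrix.conjTranspose_mul,
            Matrix.mul_assoc]
      _ = _ := by
          rw [e1, e2, e3]
          simp only [Matrix.mul_one, Matrix.mul_assoc]
  rw [p2, p2, key, Matrix.trace_mul_comm, Matrix.mul_assoc, e4, Matrix.mul_one]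

/-- The coordinates in an orthonormal frame. -/
def co (C m : Mat n) : EuclideanSpace ℂ (Fin n × Fin n) :=
  WithLp.toLp 2 fun p => (Cᵀᴴ * m * Cᴴ) p.1 p.2

theorem co_add (C m m' : Mat n) : co C (m + m') = co C m + co C m' := by
  ext p
  simp [co, Matrix.mul_add, Matrix.add_mul]

theorem p2_co {H C : Mat n} (h : H⁻¹ = Cᴴ * C) (m m' : Mat n) :
    p2 H m m' = ⟪co C m', co C m⟫_ℂ / 2 := by
  have key : H⁻¹ᵀ * m * H⁻¹ * m'ᴴ = Cᵀ * (Cᵀᴴ * m * Cᴴ * (C * m'ᴴ)) := by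
    have : Cᵀᴴ = Cᴴᵀ := rfl
    rw [h, this]
    simp only [Matrix.transpose_mul, Matrix.mul_assoc]
  have k2 : (Cᵀᴴ * m' * Cᴴ)ᴴ = C * m'ᴴ * Cᵀ := by
    simp only [Matrix.conjTranspose_mul, Matrix.conjTranspose_conjTranspose, Matrix.mul_assoc]
  rw [p2, key, Matrix.trace_mul_comm, Matrix.mul_assoc (Cᵀᴴ * m * Cᴴ), ← k2]
  refine congrArg (· / 2) ?_
  rw [PiLp.inner_apply, Fintype.sum_prod_type]
  simp only [co, Matrix.trace, Matrix.diag_apply, Matrix.mul_apply (M := Cᵀᴴ * m * Cᴴ),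
    Matrix.conjTranspose_apply, RCLike.inner_apply]
  rfl

theorem p2_re {H C : Mat n} (h : H⁻¹ = Cᴴ * C) (m : Mat n) :
    (p2 H m m).re = ‖co C m‖ ^ 2 / 2 := by
  rw [p2_co h, Complex.div_ofNat_re]
  exact congrArg (· / 2) (inner_self_eq_norm_sq (𝕜 := ℂ) (co C m))

theorem co_zero {H C : Mat n} (hH : H.PosDef) (h : H⁻¹ = Cᴴ * C) {m : Mat n}
    (h0 : co C m = 0) : m = 0 := by
  have d : C.det ≠ 0 := by
    intro h1
    have := hH.inv.det_pos
    rw [h, Matrix.det_mul, h1, mul_zero] at this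
    exact lt_irrefl _ this
  have u2 : IsUnit Cᴴ.det := by
    rw [Matrix.det_conjTranspose]
    exact Ne.isUnit (star_ne_zero.2 d)
  have u3 : IsUnit Cᵀᴴ.det := by
    rw [Matrix.det_conjTranspose, Matrix.det_transpose]
    exact Ne.isUnit (star_ne_zero.2 d)
  have h1 : Cᵀᴴ * m * Cᴴ = 0 := by
    ext i j
    exact congrArg (fun v : EuclideanSpace ℂ (Fin n × Fin n) => v (i, j)) h0
  calc m = (Cᵀᴴ⁻¹ * Cᵀᴴ) * m * (Cᴴ * Cᴴ⁻¹) := by
        rw [Matrix.nonsing_inv_mul _ u3, Matrix.mul_nonsing_inv _ u2, Matrix.one_mul,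
          Matrix.mul_one]
    _ = Cᵀᴴ⁻¹ * (Cᵀᴴ * m * Cᴴ) * Cᴴ⁻¹ := by simp only [Matrix.mul_assoc]
    _ = 0 := by rw [h1, Matrix.mul_zero, Matrix.zero_mul]

theorem p1_star {H : Mat n} (hH : H.PosDef) (a b : E n) : star (p1 H a b) = p1 H b a := by
  rw [p1, p1, ← Matrix.star_dotProduct_star, Matrix.star_mulVec, star_star,
    hH.inv.isHermitian.eq, Matrix.dotProduct_mulVec]

theorem p1_nn {H : Mat n} (hH : H.PosDef) (a : E n) : 0 ≤ p1 H a a := by
  have := hH.inv.posSemidef.dotProduct_mulVec_nonneg (star a)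
  rwa [star_star] at this

theorem mq_star {H S : Mat n} (hH : H.PosDef) (hS : S.IsHermitian) (a : E n) :
    star (mq H S a) = mq H S a := by
  have hG := hH.inv.isHermitian.eq
  have hA : (Matrix.vecMulVec (star a) a)ᴴ = Matrix.vecMulVec (star a) a := by
    rw [Matrix.conjTranspose_vecMulVec, star_star]
  have t1 : ∀ A : Mat n, Aᴴ = A → star (H⁻¹ * A).trace = (H⁻¹ * A).trace := fun A hA => by
    rw [← Matrix.trace_conjTranspose, Matrix.conjTranspose_mul, hA, hG, Matrix.trace_mul_comm]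
  have t2 : star (H⁻¹ * S * H⁻¹ * Matrix.vecMulVec (star a) a).trace =
      (H⁻¹ * S * H⁻¹ * Matrix.vecMulVec (star a) a).trace := by
    rw [← Matrix.trace_conjTranspose]
    simp only [Matrix.conjTranspose_mul, hA, hG, hS.eq]
    rw [Matrix.trace_mul_comm]
    simp only [Matrix.mul_assoc]
  rw [mq, star_sub, star_mul', t1 S hS.eq, t1 _ hA, t2]

end PW1

open PW1 in
theorem st_PW1 : St_PW1 := by
  intro n H
  refine ⟨fun m m' m'' c => ⟨add_l _ _ _ _, add_r _ _ _ _, sub_l _ _ _ _, sub_r _ _ _ _,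
    smul_l _ _ _ _, smul_r _ _ _ _⟩, p2_wg H, mq_gram H, fun J m m' hJ => p2_pb H J m m' hJ,
    fun hH => ?_⟩
  obtain ⟨C, h⟩ := Mf.psd_factor hH.inv.posSemidef
  have nn : ∀ m, 0 ≤ (p2 H m m).re := fun m => by
    rw [p2_re h]
    positivity
  refine ⟨fun m m' => ⟨?_, nn m, fun h0 => ?_, ?_, ?_⟩, fun a b => ⟨?_, ?_⟩,
    fun S a => ⟨fun hS => ?_, fun hS => ?_⟩⟩
  · rw [p2_co h, p2_co h, star_div₀, ← inner_conj_symm (co C m) (co C m')]
    simp
  · rw [p2_re h] at h0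
    refine co_zero hH h (norm_eq_zero.1 ?_)
    have : ‖co C m‖ ^ 2 = 0 := by linarith
    exact pow_eq_zero_iff two_ne_zero |>.1 this
  · rw [p2_re h, p2_re h, p2_co h, norm_div]
    have h1 := norm_inner_le_norm (𝕜 := ℂ) (co C m') (co C m)
    have h2 : ‖(2 : ℂ)‖ = 2 := by simp
    have h3 := pow_le_pow_left₀ (norm_nonneg _) h1 2
    rw [h2, div_pow]
    nlinarith
  · rw [p2_re h, p2_re h, p2_re h, co_add]
    have h1 := norm_add_le (co C m) (co C m')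
    have h3 := pow_le_pow_left₀ (norm_nonneg _) h1 2
    nlinarith [sq_nonneg (‖co C m‖ - ‖co C m'‖)]
  · exact (Complex.nonneg_iff.1 (p1_nn hH a)).1
  · rw [p2_wg, ← p1_star hH a b, Complex.sub_re, Complex.mul_re, Complex.star_def,
      Complex.mul_conj, Complex.ofReal_re, ← (Complex.nonneg_iff.1 (p1_nn hH a)).2]
    have := Complex.normSq_nonneg (p1 H a b)
    linarith
  · exact Complex.conj_eq_iff_re.1 (mq_star hH hS a)
  · obtain ⟨B, rfl⟩ := Mf.psd_factor hS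
    rw [mq_gram, Complex.re_sum]
    exact Finset.sum_nonneg fun r _ => nn _

end Pool.Agent.Lib.F4
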