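import Pool.Agent.Lib.F4.BlueS

/-! Project f4: the sections with values in the canonical bundle and their products. -/

open scoped Classical Topology ContDiff ComplexOrder Matrix
open Set Filter MeasureTheory

set_option linter.unusedVariables false

noncomputable section

namespace Pool.Agent.Lib.F4

open Pool.Agent.Lib.SV (E)
open Pool.Agent.Lib.HS32 Pool.Agent.Lib.HLK

namespace S2K

variable {n : ℕ}

theorem nsq (d : ℂ) : (Complex.normSq d : ℂ) = d * star d := (Complex.mul_conj d).symm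

theorem nsq_ne {d : ℂ} (h : d ≠ 0) : Complex.normSq d ≠ 0 := (Complex.normSq_pos.2 h).ne'

theorem c2_pb (h : St_PW1) {J : Mat n} (hJ : J.det ≠ 0) (H m m' : Mat n) :
    p2 (Jᴴ * H * J) (J.det • (Jᵀ * m * J)) (J.det • (Jᵀ * m' * J)) / (Jᴴ * H * J).det =
      p2 H m m' / H.det := by
  have b := (h n (Jᴴ * H * J)).1
  rw [(b _ _ 0 _).2.2.2.2.1, (b _ _ 0 _).2.2.2.2.2, (h n H).2.2.2.1 J m m' hJ, BINV.det_pb, nsq,
    ← mul_assoc]
  exact mul_div_mul_left _ _ (mul_ne_zero hJ (star_ne_zero.2 hJ))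

theorem aa_pb {J : Mat n} (hJ : J.det ≠ 0) (H : Mat n) (a : E n) :
    (Jᴴ * H * J).det⁻¹ • Matrix.vecMulVec (star (J.det • (a ᵥ* J))) (J.det • (a ᵥ* J)) =
      Jᴴ * (H.det⁻¹ • Matrix.vecMulVec (star a) a) * J := by
  rw [BINV.det_pb, nsq, star_smul, Matrix.smul_vecMulVec, Matrix.vecMulVec_smul, Matrix.mul_smul,
    Matrix.smul_mul, Matrix.mul_vecMulVec, Matrix.vecMulVec_mul, Matrix.star_vecMul, smul_smul,
    smul_smul]
  have h2 : star J.det ≠ 0 := star_ne_zero.2 hJ
  refine congrArg (· • _) ?_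
  field_simp

theorem det_re_pb (J H : Mat n) : (Jᴴ * H * J).det.re = Complex.normSq J.det * H.det.re := by
  rw [BINV.det_pb, Complex.re_ofReal_mul]

theorem qV_pb {J : Mat n} (hJ : J.det ≠ 0) (H T : Mat n) {V V' : E n}
    (e : J *ᵥ V' = J.det • V) : nq (Jᴴ * T * J) V' / (Jᴴ * H * J).det.re = nq T V / H.det.re := by
  have : nq (Jᴴ * T * J) V' = Complex.normSq J.det * nq T V := by
    rw [nq, nq, ← Matrix.mulVec_mulVec, ← Matrix.mulVec_mulVec, Matrix.dotProduct_mulVec,
      ← Matrix.star_mulVec, e, star_smul, Matrix.mulVec_smul, smul_dotProduct, dotProduct_smul,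
      smul_smul, mul_comm (star J.det), ← nsq, smul_eq_mul, Complex.re_ofReal_mul]
  rw [this, det_re_pb]
  exact mul_div_mul_left _ _ (nsq_ne hJ)

theorem qP_pb {J : Mat n} (hJ : J.det ≠ 0) (H T : Mat n) {P P' : Mat n}
    (e : J * P' * Jᵀ = J.det • P) :
    (Jᴴ * T * J * P' * (Jᴴ * H * J)ᵀ * P'ᴴ).trace.re / (Jᴴ * H * J).det.re =
      (T * P * Hᵀ * Pᴴ).trace.re / H.det.re := by
  have : (Jᴴ * T * J * P' * (Jᴴ * H * J)ᵀ * P'ᴴ).trace =
      (T * (J * P' * Jᵀ) * Hᵀ * (J * P' * Jᵀ)ᴴ).trace := by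
    simp only [Matrix.transpose_mul, Matrix.conjTranspose_mul, mul_assoc,
      Matrix.conjTranspose_transpose_eq_transpose_conjTranspose]
    rw [Matrix.trace_mul_comm]
    simp only [mul_assoc]
  rw [this, e, Matrix.conjTranspose_smul, Matrix.mul_smul, Matrix.mul_smul, Matrix.smul_mul,
    Matrix.smul_mul, smul_smul, mul_comm (star J.det), ← nsq, Matrix.trace_smul, smul_eq_mul,
    Complex.re_ofReal_mul, det_re_pb]
  exact mul_div_mul_left _ _ (nsq_ne hJ)

theorem mx_pt {H T : Mat n} (hH : H.IsHermitian) (hT : T.IsHermitian) (a : E n) :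
    (H⁻¹ * T).trace.re * (H⁻¹ * (H.det⁻¹ • Matrix.vecMulVec (star a) a)).trace.re -
      (H⁻¹ * T * H⁻¹ * (H.det⁻¹ • Matrix.vecMulVec (star a) a)).trace.re =
      (mq H T a).re / H.det.re := by
  rw [mq, Matrix.mul_smul, Matrix.mul_smul, Matrix.trace_smul, Matrix.trace_smul, smul_eq_mul,
    smul_eq_mul, ← BINV.re_trace2 hH hT, ← Mf.herm_det hH, ← Complex.ofReal_inv, Complex.sub_re]
  simp only [Complex.re_ofReal_mul, Complex.ofReal_re]
  ring

theorem sm_p2 {H m m' : E n → Mat n} {z : E n} (hH : SmM H z) (h0 : (H z).det ≠ 0) (hm : SmM m z)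
    (hm' : SmM m' z) : ContDiffAt ℝ ∞ (fun w => p2 (H w) (m w) (m' w)) z := by
  have hi := hH.inv h0
  have ht : SmM (fun w => (H w)⁻¹ᵀ) z := fun i j => hi j i
  exact (((ht.mul hm).mul hi).mul hm'.ct).trace.div_const _

variable {M : Mf n} {H : M.Fam (Mat n)}

theorem jne : M.Ov fun e e' x => (M.J e e' x).det ≠ 0 := fun e he e' he' x hx hx' =>
  ((mTR n M).2.1 e he e' he' x hx hx').2.1

theorem smM {S : M.Fam (Mat n)} (h : HolM M S) : M.All fun e z => SmM (S e) z :=
  fun e he z hz i j => ((mHOL n _ z).2.2 (h e he z hz i j)).1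

theorem smV {V : M.Fam (E n)} (h : Hol V) : M.All fun e z => ContDiffAt ℝ ∞ (V e) z :=
  fun e he z hz => contDiffAt_pi.2 fun i => ((mHOL n _ z).2.2 (h e he z hz i)).1

theorem smD (hH : M.Met H) {Φ : M.Fam ℝ} (h : M.All fun e z => ContDiffAt ℝ ∞ (Φ e) z) :
    M.All fun e z => ContDiffAt ℝ ∞ (fun w => Φ e w / (H e w).det.re) z := fun e he z hz =>
  (h e he z hz).div (cd_re (hH.sm e he z hz).det) (Mf.pd_det_re (hH.pos e he z hz)).ne'

theorem form_aa (hH : M.Met H) {α : M.Fam (E n)} (hα : H1 M 1 α) :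
    M.Form (aa M H α) ∧ M.Le 0 (aa M H α) := by
  have hp : M.All fun e z => (aa M H α e z).PosSemidef := fun e he z hz =>
    (Matrix.posSemidef_vecMulVec_star_self (α e z)).smul
      (inv_nonneg.2 (hH.pos e he z hz).det_pos.le)
  refine ⟨⟨⟨fun e he z hz => ?_, fun e he e' he' x hx hx' => ?_⟩, fun e he z hz =>
    (hp e he z hz).1⟩, fun e he z hz => ?_⟩
  · have ha := contDiffAt_pi.1 (smV hα.hol e he z hz)
    exact SmM.smul ((hH.sm e he z hz).det.inv (hH.det_ne e he z hz))
      fun i j => (cd_star (ha i)).mul (ha j)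
  · have h1 := hα.cmp e he e' he' x hx hx'
    beta_reduce at h1 ⊢
    rw [aa, aa, hH.cmp e he e' he' x hx hx', h1, zpow_one]
    exact aa_pb (jne e he e' he' x hx hx') _ _
  · beta_reduce
    rw [Pi.zero_apply, Pi.zero_apply, sub_zero]
    exact hp e he z hz

end S2K

open S2K in
theorem st_S2K (h : St_PW1) : St_S2K := fun n M H hH => by
  refine ⟨fun m hm => ⟨smM hm.hol, hm.alt, fun e he e' he' x hx hx' => ?_⟩,
    fun V hV => ⟨smV hV.hol, fun e he e' he' x hx hx' => ?_⟩, fun m m' hm hm' => ?_,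
    fun m m' x => ?_, fun S hS => ?_, fun α hα => ?_, fun T V hT hV => ?_, fun T P hT hP => ?_⟩
  · simpa only [zpow_one] using hm.cmp e he e' he' x hx hx'
  · simpa only [zpow_one] using hV.cmp e he e' he' x hx hx'
  · have key : ∀ a b, S2 M a → S2 M b →
        M.Rep (c2 M H a b) (fun e z => p2 (H e z) (a e z) (b e z) / (H e z).det) ∧
        M.Sm (c2 M H a b) := fun a b ha hb => by
      have hi : M.Inv fun e z => p2 (H e z) (a e z) (b e z) / (H e z).det :=
        fun e he e' he' x hx hx' => by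
          beta_reduce
          rw [hH.cmp e he e' he' x hx hx', ha.cmp e he e' he' x hx hx',
            hb.cmp e he e' he' x hx hx']
          exact c2_pb h (jne e he e' he' x hx hx') _ _ _
      refine ⟨hi.rep, hi.sm fun e he z hz => ?_⟩
      simp only [div_eq_mul_inv]
      exact (sm_p2 (hH.sm e he z hz) (hH.det_ne e he z hz) (ha.sm e he z hz)
        (hb.sm e he z hz)).mul ((hH.sm e he z hz).det.inv (hH.det_ne e he z hz))
    refine ⟨⟨fun e he z hz => (hm.sm e he z hz).add (hm'.sm e he z hz), fun e he z hz => ?_,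
        fun e he e' he' x hx hx' => ?_⟩,
      ⟨fun e he z hz => (hm.sm e he z hz).sub (hm'.sm e he z hz), fun e he z hz => ?_,
        fun e he e' he' x hx hx' => ?_⟩,
      fun f hf => ⟨fun e he z hz => SmM.smul (hf.lc e he z hz) (hm.sm e he z hz),
        fun e he z hz => ?_, fun e he e' he' x hx hx' => ?_⟩,
      (key m m' hm hm').1, (key m m' hm hm').2, (key m m hm hm).2.re, fun e he z hz => ?_⟩
    · simp only [Pi.add_apply, Matrix.transpose_add, hm.alt e he z hz, hm'.alt e he z hz, neg_add]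
    · simp only [Pi.add_apply, hm.cmp e he e' he' x hx hx', hm'.cmp e he e' he' x hx hx', mul_add,
        add_mul, smul_add]
    · simp only [Pi.sub_apply, Matrix.transpose_sub, hm.alt e he z hz, hm'.alt e he z hz,
        neg_sub_neg, neg_sub]
    · simp only [Pi.sub_apply, hm.cmp e he e' he' x hx hx', hm'.cmp e he e' he' x hx hx', mul_sub,
        sub_mul, smul_sub]
    · simp only [Matrix.transpose_smul, hm.alt e he z hz, smul_neg]
    · simp only [e.left_inv hx, e'.left_inv hx', hm.cmp e he e' he' x hx hx', Matrix.mul_smul,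
        Matrix.smul_mul]
      exact smul_comm _ _ _
    · beta_reduce
      rw [n2, (key m m hm hm).1 e he z hz, ← Complex.div_ofReal_re, Mf.herm_det (hH.herm e he z hz)]
  · have hp := hH.ev_pos x
    have hd := Mf.pd_det_re hp
    obtain ⟨h1, h2, -, h3, -⟩ := ((h n _).2.2.2.2 hp).1 (M.ev m x) (M.ev m' x)
    have hc : ∀ a b, c2 M H a b x =
        p2 (M.ev H x) (M.ev a x) (M.ev b x) / ((M.ev H x).det.re : ℂ) := fun a b => by
      rw [Mf.herm_det hp.1]; rfl
    simp only [n2, hc, Complex.div_ofReal_re]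
    refine ⟨?_, div_nonneg h2 hd.le, ?_⟩
    · rw [star_div₀, h1, Complex.star_def, Complex.conj_ofReal]
    · rw [norm_div, div_pow, div_mul_div_comm, Complex.norm_real, Real.norm_eq_abs, sq_abs,
        sq (M.ev H x).det.re]
      exact div_le_div_of_nonneg_right h3 (mul_pos hd hd).le
  · refine Mf.Inv.sm (fun e he e' he' x hx hx' => ?_) fun e he z hz => cd_re (sm_p2
      (hH.sm e he z hz) (hH.det_ne e he z hz) (smM hS.hol e he z hz) (smM hS.hol e he z hz))
    have h1 := hS.cmp e he e' he' x hx hx'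
    beta_reduce at h1 ⊢
    rw [hH.cmp e he e' he' x hx hx', h1, zpow_zero, one_smul,
      (h n _).2.2.2.1 _ _ _ (jne e he e' he' x hx hx')]
  · obtain ⟨hf, hl⟩ := form_aa hH hα
    have hx : ∀ T x, M.Form T → mx M H T (aa M H α) x =
        (mq (M.ev H x) (M.ev T x) (M.ev α x)).re / (M.ev H x).det.re := fun T x hT =>
      mx_pt (hH.ev_pos x).1 (Mf.AllOn.ch hT.herm x) _
    refine ⟨hf, hl, fun T => ⟨hx T, fun hT => ?_, fun hT h0 x => ?_⟩⟩
    · exact (((mINV n M H hH).1 T hT).2.1.mul ((mINV n M H hH).1 _ hf.toTen).2.1).sub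
        ((mINV n M H hH).2.2.1 T _ hT hf.toTen).2.1
    · have h1 := Mf.AllOn.ch h0 x
      rw [Pi.zero_apply, Pi.zero_apply, sub_zero] at h1
      rw [hx T x hT]
      exact div_nonneg ((((h n _).2.2.2.2 (hH.ev_pos x)).2.2 _ _).2 h1)
        (Mf.pd_det_re (hH.ev_pos x)).le
  · refine Mf.Inv.sm (fun e he e' he' x hx hx' => ?_) (smD hH fun e he z hz => cd_re ?_)
    · beta_reduce
      rw [hH.cmp e he e' he' x hx hx', hT.cmp e he e' he' x hx hx']
      exact qV_pb (jne e he e' he' x hx hx') _ _ (hV.cmp e he e' he' x hx hx')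
    · exact ContDiffAt.sum fun i _ => (cd_star (contDiffAt_pi.1 (hV.sm e he z hz) i)).mul
        (contDiffAt_pi.1 ((hT.sm e he z hz).mulVec (hV.sm e he z hz)) i)
  · refine Mf.Inv.sm (fun e he e' he' x hx hx' => ?_) (smD hH fun e he z hz => cd_re ?_)
    · have h1 := hP.cmp e he e' he' x hx hx'
      beta_reduce at h1 ⊢
      rw [zpow_one] at h1
      rw [hH.cmp e he e' he' x hx hx', hT.cmp e he e' he' x hx hx']
      exact qP_pb (jne e he e' he' x hx hx') _ _ h1
    · have hs := smM hP.hol e he z hz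
      have ht : SmM (fun w => (H e w)ᵀ) z := fun i j => hH.sm e he z hz j i
      exact ((((hT.sm e he z hz).mul hs).mul ht).mul hs.ct).trace

end Pool.Agent.Lib.F4
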