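import Pool.Agent.Lib.F4.BlueS
import Pool.Agent.Lib.HS32.MAll

/-! Project f4, block STK: the basic identity of Stokes type. -/

open scoped Classical Topology ContDiff ComplexOrder Matrix
open Set Filter MeasureTheory

set_option linter.unusedVariables false

noncomputable section

namespace Pool.Agent.Lib.F4

open Pool.Agent.Lib.SV (E)
open Pool.Agent.Lib.HS32 Pool.Agent.Lib.HLK

namespace STK

variable {n : ℕ}

theorem skew_swap {N : Mat n} (hN : Nᵀ = -N) (S : Fin n → Fin n → ℂ) :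
    ∑ i, ∑ l, N i l * S l i = -∑ i, ∑ l, N i l * S i l := by
  rw [Finset.sum_comm, ← Finset.sum_neg_distrib]
  refine Finset.sum_congr rfl fun i _ => ?_
  rw [← Finset.sum_neg_distrib]
  refine Finset.sum_congr rfl fun l _ => ?_
  have h : N l i = -N i l := congrFun (congrFun hN i) l
  rw [h]; ring

theorem skew_sym {N : Mat n} (hN : Nᵀ = -N) {S : Fin n → Fin n → ℂ} (hS : ∀ i l, S l i = S i l) :
    ∑ i, ∑ l, N i l * S i l = 0 := by
  have h := skew_swap hN S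
  simp only [hS] at h
  linear_combination h / 2

theorem skew_conj {G m : Mat n} (hm : mᵀ = -m) : (Gᵀ * m * G)ᵀ = -(Gᵀ * m * G) := by
  rw [Matrix.transpose_mul, Matrix.transpose_mul, Matrix.transpose_transpose, hm]
  simp only [Matrix.neg_mul, Matrix.mul_neg, Matrix.mul_assoc]

theorem tr_ct (N B : Mat n) : (N * Bᴴ).trace = ∑ i, ∑ l, N i l * star (B i l) := by
  simp only [Matrix.trace, Matrix.diag_apply, Matrix.mul_apply, Matrix.conjTranspose_apply]

/-- The term with the derivative of the first inverse. -/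
theorem term1 (G : Mat n) (B : Fin n → Mat n) (hB : ∀ i r s, B i r s = B r i s) (v : E n) :
    ∑ i, ((G * B i * G)ᵀ *ᵥ v) i = ∑ r, (B r * G).trace * (Gᵀ *ᵥ v) r := by
  have h1 : ∀ p, ∑ i, (G * B i * G) p i = ∑ r, G p r * (B r * G).trace := fun p => by
    simp only [Matrix.mul_assoc]
    simp only [Matrix.mul_apply, Matrix.trace, Matrix.diag_apply, Finset.mul_sum]
    rw [Finset.sum_comm]
    refine Finset.sum_congr rfl fun r _ => Finset.sum_congr rfl fun i _ =>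
      Finset.sum_congr rfl fun s _ => ?_
    rw [hB i r s]
  simp only [Matrix.mulVec, dotProduct, Matrix.transpose_apply]
  rw [Finset.sum_comm]
  simp only [← Finset.sum_mul, h1]
  simp only [Finset.sum_mul, Finset.mul_sum]
  rw [Finset.sum_comm]
  exact Finset.sum_congr rfl fun r _ => Finset.sum_congr rfl fun p _ => by ring

/-- The term with the derivative of the second inverse. -/
theorem term3 {N : Mat n} (hN : Nᵀ = -N) (B : Fin n → Mat n) (hB : ∀ i r s, B i r s = B r i s)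
    (v : E n) : ∑ i, (N *ᵥ (B i *ᵥ v)) i = 0 :=
  skew_sym hN (S := fun i r => (B i *ᵥ v) r) fun i r => by
    simp only [Matrix.mulVec, dotProduct, hB r i]

/-- The algebraic identity. -/
theorem alg (G m β : Mat n) (B Mb : Fin n → Mat n) (hm : mᵀ = -m)
    (hB : ∀ i r s, B i r s = B r i s) (a f : E n) (c : Fin n → E n) (F : ℂ)
    (hβ : ∀ i l, star (β i l) = f i * a l - a i * f l -
      F * ((B i * G).trace * a l - a i * (B l * G).trace - (c i l - c l i))) :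
    ∑ i, (f i * ((Gᵀ * m * G) *ᵥ a) i + F *
      (((((-(G * B i * G))ᵀ * m + Gᵀ * Mb i) * G + Gᵀ * m * -(G * B i * G)) *ᵥ a) i +
        ((Gᵀ * m * G) *ᵥ c i) i)) =
      F * ∑ i, ((Gᵀ * Mb i * G) *ᵥ a) i + (Gᵀ * m * G * βᴴ).trace / 2 := by
  have hN := skew_conj (G := G) hm
  have e : ∀ i, (((-(G * B i * G))ᵀ * m + Gᵀ * Mb i) * G + Gᵀ * m * -(G * B i * G)) *ᵥ a =
      -((G * B i * G)ᵀ *ᵥ ((m * G) *ᵥ a)) + (Gᵀ * Mb i * G) *ᵥ a -
        (Gᵀ * m * G) *ᵥ (B i *ᵥ (G *ᵥ a)) := fun i => by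
    simp only [Matrix.mulVec_mulVec, ← Matrix.neg_mulVec, ← Matrix.add_mulVec,
      ← Matrix.sub_mulVec]
    refine congrArg (· *ᵥ a) ?_
    simp only [Matrix.transpose_neg, Matrix.add_mul, Matrix.neg_mul, Matrix.mul_neg,
      Matrix.mul_assoc, sub_eq_add_neg]
  have t1 := term1 G B hB ((m * G) *ᵥ a)
  have t3 := term3 hN B hB (G *ᵥ a)
  rw [Matrix.mulVec_mulVec, ← Matrix.mul_assoc] at t1
  generalize Gᵀ * m * G = N at *
  have s1 := skew_swap hN fun i l => f i * a l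
  have s2 := skew_swap hN fun i l => (B i * G).trace * a l
  have s3 := skew_swap hN fun i l => c i l
  have u1 : ∑ i, f i * (N *ᵥ a) i = ∑ i, ∑ l, N i l * (f i * a l) := by
    simp only [Matrix.mulVec, dotProduct, Finset.mul_sum]
    exact Finset.sum_congr rfl fun i _ => Finset.sum_congr rfl fun l _ => by ring
  have u2 : ∑ i, (B i * G).trace * (N *ᵥ a) i = ∑ i, ∑ l, N i l * ((B i * G).trace * a l) := by
    simp only [Matrix.mulVec, dotProduct, Finset.mul_sum]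
    exact Finset.sum_congr rfl fun i _ => Finset.sum_congr rfl fun l _ => by ring
  have u3 : ∑ i, (N *ᵥ c i) i = ∑ i, ∑ l, N i l * c i l := rfl
  have v : (N * βᴴ).trace = ∑ i, ∑ l, N i l * (f i * a l) - ∑ i, ∑ l, N i l * (f l * a i) -
      F * (∑ i, ∑ l, N i l * ((B i * G).trace * a l) - ∑ i, ∑ l, N i l * ((B l * G).trace * a i) -
        (∑ i, ∑ l, N i l * c i l - ∑ i, ∑ l, N i l * c l i)) := by
    rw [tr_ct]
    simp only [hβ, Finset.mul_sum, ← Finset.sum_sub_distrib]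
    exact Finset.sum_congr rfl fun i _ => Finset.sum_congr rfl fun l _ => by ring
  simp only [e, Pi.add_apply, Pi.sub_apply, Pi.neg_apply, Finset.sum_add_distrib,
    Finset.sum_sub_distrib, Finset.sum_neg_distrib, ← Finset.mul_sum]
  rw [v, s1, s2, s3, t1, t3, u1, u2, u3]
  ring

theorem smM_tr {T : E n → Mat n} {z : E n} (h : SmM T z) : SmM (fun w => (T w)ᵀ) z :=
  fun i j => h j i

theorem dzb_mulVec {N : E n → Mat n} {a : E n → E n} {z : E n} (hN : SmM N z)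
    (ha : ∀ l, DifferentiableAt ℝ (fun w => a w l) z) (k i : Fin n) :
    dzb k (fun w => (N w *ᵥ a w) i) z =
      (dMb k N z *ᵥ a z) i + (N z *ᵥ fun l => dzb k (fun w => a w l) z) i := by
  simp only [Matrix.mulVec, dotProduct]
  rw [dzb_sum fun l _ => (hN.diff i l).fun_mul (ha l), ← Finset.sum_add_distrib]
  exact Finset.sum_congr rfl fun l _ => dzb_mul (hN.diff i l) (ha l)

/-- The field whose divergence is taken. -/
def fld (H m : E n → Mat n) (α : E n → E n) (F : E n → ℝ) (w : E n) : E n :=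
  (F w : ℂ) • (((H w)⁻¹ᵀ * m w * (H w)⁻¹) *ᵥ star (α w))

/-- The divergence in a chart. -/
theorem loc {H m : E n → Mat n} {α : E n → E n} {F : E n → ℝ} {z : E n} (hH : SmM H z)
    (hc : ClM H z) (hp : ∀ᶠ w in 𝓝 z, (H w).PosDef) (hm : SmM m z) (ha : (m z)ᵀ = -m z)
    (hα : ∀ l, ContDiffAt ℝ ∞ (fun w => α w l) z) (hF : ContDiffAt ℝ ∞ (fun w => (F w : ℂ)) z) :
    dvb (fld H m α F) z =
      F z * ∑ i, (((H z)⁻¹ᵀ * dMb i m z * (H z)⁻¹) *ᵥ star (α z)) i +
        p2 (H z) (m z) (wg (gd (fun w => (F w : ℂ)) z) (α z) -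
          (F z : ℂ) • (wg (gd (ld H) z) (α z) - d1 α z)) := by
  have h0 : (H z).det ≠ 0 := hp.self_of_nhds.det_pos.ne'
  obtain ⟨-, -, -, -, hI, hL⟩ := mCOF n H z hH
  obtain ⟨hG, hdG⟩ := hI h0
  obtain ⟨hl, -, hdl⟩ := hL hp
  have hh : ∀ k, dMb k H z = (dM k H z)ᴴ := fun k => dMb_herm hH (hp.mono fun w h => h.1)
  have hB : ∀ i r s, dMb i H z r s = dMb r H z i s := fun i r s => by
    rw [hh, hh, Matrix.conjTranspose_apply, Matrix.conjTranspose_apply, hc s r i]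
  have hGh : ((H z)⁻¹)ᴴ = (H z)⁻¹ := hp.self_of_nhds.1.inv.eq
  have ht : ∀ k, star (dz k (ld H) z) = (dMb k H z * (H z)⁻¹).trace := fun k => by
    rw [hdl k, gam, ← Matrix.trace_conjTranspose, Matrix.conjTranspose_mul, hGh, hh]
  have hs : ∀ l, DifferentiableAt ℝ (fun w => star (α w) l) z := fun l => diff_star (cd_diff (hα l))
  have hN : SmM (fun w => (H w)⁻¹ᵀ * m w * (H w)⁻¹) z := ((smM_tr hG).mul hm).mul hG
  have hd : ∀ i, dMb i (fun w => (H w)⁻¹ᵀ * m w * (H w)⁻¹) z =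
      ((-((H z)⁻¹ * dMb i H z * (H z)⁻¹))ᵀ * m z + (H z)⁻¹ᵀ * dMb i m z) * (H z)⁻¹ +
        (H z)⁻¹ᵀ * m z * -((H z)⁻¹ * dMb i H z * (H z)⁻¹) := fun i => by
    rw [dMb_mul ((smM_tr hG).mul hm) hG, dMb_mul (smM_tr hG) hm, ← (hdG i).2]
    rfl
  have hV : ∀ i, DifferentiableAt ℝ
      (fun w => (((H w)⁻¹ᵀ * m w * (H w)⁻¹) *ᵥ star (α w)) i) z := fun i =>
    cd_diff (contDiffAt_pi.1 (hN.mulVec (contDiffAt_pi.2 fun l => cd_star (hα l))) i)
  rw [p2, ← alg (H z)⁻¹ (m z) _ (fun i => dMb i H z) (fun i => dMb i m z) ha hB (star (α z))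
    (fun i => dzb i (fun w => (F w : ℂ)) z) (fun i l => dzb i (fun w => star (α w) l) z) (F z)]
  · refine Finset.sum_congr rfl fun i _ => ?_
    rw [← hd i, ← dzb_mulVec hN hs i i]
    exact dzb_mul (cd_diff hF) (hV i)
  · intro i l
    have e1 : ∀ i l, dzb i (fun w => star (α w) l) z = star (dz i (fun w => α w l) z) :=
      fun i l => dzb_star (cd_diff (hα l))
    rw [e1, e1]
    simp only [← ht, ← star_dz_ofReal (cd_diff hF), wg, d1, gd, Matrix.sub_apply,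
      Matrix.smul_apply, Matrix.of_apply, smul_eq_mul, star_sub, star_mul', Pi.star_apply,
      Complex.star_def, Complex.conj_ofReal]

/-- The law of the field under a change of coordinates. -/
theorem law {J H m : Mat n} (hJ : J.det ≠ 0) (a : E n) (F : ℝ) :
    J *ᵥ star ((F : ℂ) • (((Jᴴ * H * J)⁻¹ᵀ * (J.det • (Jᵀ * m * J)) * (Jᴴ * H * J)⁻¹) *ᵥ
      star (J.det ^ (1 : ℤ) • (a ᵥ* J)))) =
      (Complex.normSq J.det : ℂ) • star ((F : ℂ) • ((H⁻¹ᵀ * m * H⁻¹) *ᵥ star a)) := by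
  have hu : IsUnit J.det := hJ.isUnit
  have hu' : IsUnit (Jᴴ).det := by rw [Matrix.det_conjTranspose]; exact hu.star
  have e1 : star (a ᵥ* J) = Jᴴ *ᵥ star a := Matrix.star_vecMul J a
  have e2 : (Jᴴ * H * J)⁻¹ = J⁻¹ * H⁻¹ * Jᴴ⁻¹ := by
    rw [Matrix.mul_inv_rev, Matrix.mul_inv_rev, Matrix.mul_assoc]
  have e3 : J⁻¹ᵀ * Jᵀ = 1 := by
    rw [← Matrix.transpose_mul, Matrix.mul_nonsing_inv _ hu, Matrix.transpose_one]
  have e4 : (J⁻¹ * H⁻¹ * Jᴴ⁻¹)ᵀ * (Jᵀ * m * J) * (J⁻¹ * H⁻¹ * Jᴴ⁻¹) * Jᴴ =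
      Jᴴ⁻¹ᵀ * (H⁻¹ᵀ * m * H⁻¹) := by
    simp only [Matrix.transpose_mul, Matrix.mul_assoc]
    rw [Matrix.nonsing_inv_mul _ hu', Matrix.mul_one, ← Matrix.mul_assoc J,
      Matrix.mul_nonsing_inv _ hu, Matrix.one_mul, ← Matrix.mul_assoc J⁻¹ᵀ, e3, Matrix.one_mul]
  have e5 : ∀ v : E n, J *ᵥ star (Jᴴ⁻¹ᵀ *ᵥ v) = star v := fun v => by
    rw [Matrix.star_mulVec, ← Matrix.mulVec_transpose, Matrix.mulVec_mulVec]
    have : J * (Jᴴ⁻¹ᵀᴴ)ᵀ = 1 := by
      have h : (Jᴴ⁻¹ᵀᴴ)ᵀ = (Jᴴ⁻¹)ᴴ := rfl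
      rw [h, Matrix.conjTranspose_nonsing_inv, Matrix.conjTranspose_conjTranspose,
        Matrix.mul_nonsing_inv _ hu]
    rw [this, Matrix.one_mulVec]
  rw [zpow_one, star_smul J.det, e1, e2, Matrix.mul_smul, Matrix.smul_mul, Matrix.smul_mulVec,
    Matrix.mulVec_smul, Matrix.mulVec_mulVec, e4, ← Matrix.mulVec_mulVec]
  simp only [star_smul, Matrix.mulVec_smul, e5, smul_smul]
  refine congrArg (· • _) ?_
  rw [Complex.normSq_eq_conj_mul_self, star_mul', star_mul', star_star, Complex.star_def]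
  ring

end STK

theorem st_STK : St_STK := by
  intro n M _ H m α F hH hα hm hF
  have hs : M.All fun e z => ∀ l, ContDiffAt ℝ ∞ (fun w => α e w l) z := fun e he z hz l =>
    ((mHOL n _ z).2.2 (hα.hol e he z hz l)).1
  have h0 : M.All fun e z => (H e z).det ≠ 0 := fun e he z hz => (hH.pos e he z hz).det_pos.ne'
  have hW : M.VDen fun e z => star (STK.fld (H e) (m e) (α e) (fun w => F (e.symm w)) z) := by
    refine ⟨fun e he z hz => ?_, fun e he e' he' x hx hx' => ?_⟩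
    · have hG := (hH.sm e he z hz).inv (h0 e he z hz)
      have hV := (((STK.smM_tr hG).mul (hm.sm e he z hz)).mul hG).mulVec
        (V := fun w => star (α e w)) (contDiffAt_pi.2 fun l => cd_star (hs e he z hz l))
      exact contDiffAt_pi.2 fun i => cd_star ((hF.lc e he z hz).mul (contDiffAt_pi.1 hV i))
    · simp only [STK.fld]
      rw [e.left_inv hx, e'.left_inv hx', hH.cmp e he e' he' x hx hx',
        hm.cmp e he e' he' x hx hx', hα.cmp e he e' he' x hx hx']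
      exact STK.law ((mTR n M).2.1 e he e' he' x hx hx').2.1 _ _
  rw [← ((mDIV n M H hH.toMet).2.2 _ hW).2.2 inferInstance]
  refine integral_congr_ae (Eventually.of_forall fun x => ?_)
  have he := Mf.ch_mem x
  have hz := Mf.ch_tgt x
  have h := STK.loc (F := fun w => F ((M.ch x).symm w)) (hH.sm _ he _ hz) (hH.cl _ he _ hz)
    (Mf.AllOn.ev hH.pos he hz) (hm.sm _ he _ hz) (hm.alt _ he _ hz) (hs _ he _ hz)
    (hF.lc _ he _ hz)
  show _ = dvb _ _ / _
  rw [h, add_div, mul_div_assoc]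
  refine congrArg₂ (· + ·) ?_ rfl
  rw [Mf.ch_symm x]
  rfl

end Pool.Agent.Lib.F4
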