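import Pool.Agent.Lib.F4.BlueS

/-! Project f4: three consequences of the basic identity. -/

open scoped Classical Topology ContDiff ComplexOrder Matrix
open Set Filter MeasureTheory

noncomputable section

namespace Pool.Agent.Lib.F4

open Pool.Agent.Lib.SV (E)
open Pool.Agent.Lib.HS32 Pool.Agent.Lib.HLK

theorem st_THA (h2 : St_S2K) (h3 : St_MUS) (hK : St_STK) : St_THA := by
  intro n M _ H α F hH hα hF
  have hm := hH.toMet
  obtain ⟨k1, -, k3, -, -, k6, -⟩ := h2 n M H hm
  obtain ⟨-, -, m1, m2⟩ := h3 n M H α hm hα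
  have ig := (mMU n M H hm).2.2.2.2.1
  have hb := (m2 F hF).2.1
  have key : ∀ m T, S2 M m → M.Ten T → (∀ x, dbc M H m α x = mx M H T (aa M H α) x) →
      ∫ x, F x * mx M H T (aa M H α) x ∂M.mu H =
        -∫ x, (c2 M H m (bet M H α F) x).re ∂M.mu H := fun m T hm' hT he => by
    have c1 : Continuous fun x => F x * mx M H T (aa M H α) x :=
      hF.continuous.mul (((k6 α hα).2.2 T).2.1 hT).continuous
    have c2' : Continuous (c2 M H m (bet M H α F)) := (k3 _ _ hm' hb).2.2.2.2.1.continuous
    have h := hK n M H m α F hH hα hm' hF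
    simp only [he, ← Complex.ofReal_mul] at h
    have c3 : Continuous fun x => ((F x * mx M H T (aa M H α) x : ℝ) : ℂ) :=
      Complex.continuous_ofReal.comp c1
    rw [integral_add (ig _ _ c3) (ig _ _ c2'), integral_complex_ofReal] at h
    have r := congrArg Complex.re h
    rw [Complex.add_re, Complex.zero_re] at r
    have q := integral_re (𝕜 := ℂ) (ig _ _ c2')
    simp only [RCLike.re_to_complex] at q
    rw [q]
    exact eq_neg_of_add_eq_zero_left r
  refine ⟨fun ψ hψ => key _ _ (m1 ψ hψ).1 ((mHES n M).2.2.2.1 _ _ hψ).toTen (m1 ψ hψ).2,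
    fun v hv => key _ _ (m2 v hv).1 ((mHES n M).1 v hv).toTen (m2 v hv).2.2.1, fun m hm' => ?_⟩
  have h := hK n M H m α F hH hα (k1 m hm') hF
  have z : ∀ x, dbc M H m α x = 0 := fun x => by
    have e : ∀ i, dMb i (m (M.ch x)) (M.ch x x) = 0 := fun i => by
      ext j k
      have d := (Mf.AllOn.ch hm'.hol x j k).self_of_nhds
      exact ((mHOL n _ _).1 (d.restrictScalars ℝ)).1 d i
    simp [dbc, Mf.ev, e]
  simpa only [z, mul_zero, zero_add] using h

end Pool.Agent.Lib.F4
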