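import Pool.Agent.Lib.F4.BlueD
import Pool.Agent.Lib.HS32.MAll

/-! Project f4: the square of the form. -/

open scoped Classical Topology ContDiff ComplexOrder Matrix ENNReal
open Set MeasureTheory Complex Metric Filter

set_option linter.unusedVariables false

noncomputable section

namespace Pool.Agent.Lib.F4.LD

open Pool.Agent.Lib.SV (E)
open Pool.Agent.Lib.HS32
open Pool.Agent.Lib.EXH (aw)

namespace K7

variable {n : ℕ}

theorem tr1 (G : Mat n) (a : E n) :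
    (G * Matrix.vecMulVec (star a) a).trace = a ⬝ᵥ G *ᵥ star a := by
  rw [Matrix.mul_vecMulVec, Matrix.trace_vecMulVec, dotProduct_comm]

theorem tr2 (G : Mat n) (a : E n) :
    (G * Matrix.vecMulVec (star a) a * G * Matrix.vecMulVec (star a) a).trace =
      (a ⬝ᵥ G *ᵥ star a) * (a ⬝ᵥ G *ᵥ star a) := by
  rw [Matrix.mul_assoc (G * _), Matrix.mul_vecMulVec, Matrix.vecMulVec_mul_vecMulVec,
    Matrix.trace_vecMulVec, dotProduct_smul, smul_eq_mul, dotProduct_comm (G *ᵥ star a) a]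

theorem q_nonneg {H : Mat n} (h : H.PosDef) (a : E n) : 0 ≤ a ⬝ᵥ H⁻¹ *ᵥ star a := by
  have := h.inv.posSemidef.dotProduct_mulVec_nonneg (star a)
  rwa [star_star] at this

theorem q_pos {H : Mat n} (h : H.PosDef) {a : E n} (ha : a ≠ 0) : 0 < a ⬝ᵥ H⁻¹ *ᵥ star a := by
  have := h.inv.dotProduct_mulVec_pos (x := star a) (by simpa using ha)
  rwa [star_star] at this

theorem mx0 {H : Mat n} (h : H.PosDef) (a : E n) :
    (H⁻¹ * (H.det⁻¹ • Matrix.vecMulVec (star a) a)).trace.re *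
      (H⁻¹ * (H.det⁻¹ • Matrix.vecMulVec (star a) a)).trace.re -
      (H⁻¹ * (H.det⁻¹ • Matrix.vecMulVec (star a) a) * H⁻¹ *
        (H.det⁻¹ • Matrix.vecMulVec (star a) a)).trace.re = 0 := by
  have h0 : 0 ≤ H.det⁻¹ * (a ⬝ᵥ H⁻¹ *ᵥ star a) :=
    mul_nonneg (inv_nonneg.2 h.det_pos.le) (q_nonneg h a)
  have hi := (Complex.nonneg_iff.1 h0).2
  simp only [Matrix.mul_smul, Matrix.smul_mul, Matrix.trace_smul, smul_eq_mul]
  rw [tr2, tr1, show H.det⁻¹ * (H.det⁻¹ * ((a ⬝ᵥ H⁻¹ *ᵥ star a) * (a ⬝ᵥ H⁻¹ *ᵥ star a))) =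
    (H.det⁻¹ * (a ⬝ᵥ H⁻¹ *ᵥ star a)) * (H.det⁻¹ * (a ⬝ᵥ H⁻¹ *ᵥ star a)) by ring,
    Complex.mul_re (H.det⁻¹ * (a ⬝ᵥ H⁻¹ *ᵥ star a)), ← hi]
  ring

theorem t_nonneg {H : Mat n} (h : H.PosDef) (a : E n) :
    0 ≤ (H⁻¹ * (H.det⁻¹ • Matrix.vecMulVec (star a) a)).trace.re := by
  rw [Matrix.mul_smul, Matrix.trace_smul, smul_eq_mul, tr1]
  exact (Complex.nonneg_iff.1 (mul_nonneg (inv_nonneg.2 h.det_pos.le) (q_nonneg h a))).1

theorem t_pos {H : Mat n} (h : H.PosDef) {a : E n} (ha : a ≠ 0) :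
    0 < (H⁻¹ * (H.det⁻¹ • Matrix.vecMulVec (star a) a)).trace.re := by
  rw [Matrix.mul_smul, Matrix.trace_smul, smul_eq_mul, tr1]
  exact (Complex.pos_iff.1 (mul_pos (inv_pos.2 h.det_pos) (q_pos h ha))).1

end K7

theorem st_AAK (hS : St_S2K) : St_AAK := by
  intro n M _ H α hH h1
  have hF : M.Form (aa M H α) := ((hS n M H hH).2.2.2.2.2.1 α h1).1
  obtain ⟨rp, sm, -⟩ := (mINV n M H hH).1 _ hF.toTen
  obtain ⟨-, fin, op, -, itg, -⟩ := mMU n M H hH
  refine ⟨fun x => K7.mx0 (hH.ev_pos x) (M.ev α x), fun nz => ?_, fun s u e he z hz => ?_⟩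
  · obtain ⟨e, he, z, hz, hne⟩ : ∃ e ∈ M.C, ∃ z ∈ e.target, α e z ≠ 0 := by
      by_contra hc
      exact nz fun e he z hz => by
        by_contra h
        exact hc ⟨e, he, z, hz, h⟩
    have hp : 0 < M.tr H (aa M H α) (e.symm z) := by
      rw [rp e he z hz]
      exact K7.t_pos (hH.pos e he z hz) hne
    exact sm.continuous.integral_pos_of_hasCompactSupport_nonneg_nonzero
      (HasCompactSupport.of_compactSpace _) (fun x => K7.t_nonneg (hH.ev_pos x) (M.ev α x)) hp.ne'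
  · have hp := hH.pos e he z hz
    have hd := Mf.pd_det_re hp
    have e1 : Real.exp (-aw M (ph M H) u e z) = Real.exp (-u (e.symm z)) * (H e z).det.re⁻¹ := by
      change Real.exp (-(Real.log (H e z).det.re + u (e.symm z))) = _
      rw [neg_add, Real.exp_add, Real.exp_neg (Real.log _), Real.exp_log hd, mul_comm]
    change (s * Real.exp (-u (e.symm z))) • ((H e z).det⁻¹ • oo (α e z)) = _
    rw [e1, ← Mf.herm_det hp.isHermitian, ← Complex.coe_smul, smul_smul]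
    simp only [Complex.ofReal_re, Complex.ofReal_mul, Complex.ofReal_inv, mul_assoc]

end Pool.Agent.Lib.F4.LD
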