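import Pool.Agent.Lib.F4.BlueD
import Pool.Agent.Lib.HS32.MAll
import Pool.Agent.Lib.HS32.MKit

/-! Project f4: an invariant density of class `C^1` has smooth approximants. -/

open scoped Classical Topology ContDiff ComplexOrder Matrix ENNReal
open Set MeasureTheory Complex Metric Filter

set_option linter.unusedVariables false

noncomputable section

namespace Pool.Agent.Lib.F4.LD

open Pool.Agent.Lib.SV (E)
open Pool.Agent.Lib.HS32
open Pool.Agent.Lib.EXH (aw)

theorem st_AP2 (hS : St_SMO) (hB : St_BTB) (hK : St_CKK) (h2 : St_S2K) (hM : St_MUS) :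
    St_AP2 := by
  intro n M _ H α u hH h1 cu hz
  obtain ⟨-, fin, -, -, hint, -⟩ := mMU n M H hH
  obtain ⟨u0, cG, -⟩ := (hK n M 1 u).2.2 cu
  set G : M.X → ℝ := fun x => Real.exp (-u x) with hG
  have G0 : Continuous G := ((hK n M 1 G).2.2 cG).1
  obtain ⟨R, hR⟩ := isCompact_univ.exists_bound_of_continuousOn u0.continuousOn
  have lo : ∀ x, Real.exp (-R) ≤ G x := fun x =>
    Real.exp_le_exp.2 (neg_le_neg (le_of_abs_le (hR x trivial)))
  have hi : ∀ x, G x ≤ Real.exp R := fun x =>
    Real.exp_le_exp.2 (neg_le.1 (neg_le_of_abs_le (hR x trivial)))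
  set c := Real.exp (-R) with hc
  have c0 : 0 < c := Real.exp_pos _
  set ε : ℕ → ℝ := fun j => c / 2 * (1 / ((j : ℝ) + 1)) with hε
  have e0 : ∀ j, 0 < ε j := fun j => by positivity
  have e1 : ∀ j, ε j ≤ c / 2 := fun j => mul_le_of_le_one_right (by positivity)
    ((div_le_one (by positivity)).2 (by linarith [(Nat.cast_nonneg j : (0 : ℝ) ≤ j)]))
  have et : Tendsto ε atTop (𝓝 0) := by
    have := (tendsto_one_div_add_atTop_nhds_zero_nat (𝕜 := ℝ)).const_mul (c / 2)
    rwa [mul_zero] at this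
  choose F sF hF using fun j => hS n M H G (ε j) hH cG (e0 j)
  set T := Real.exp R + c / 2 with hT
  have T0 : 0 < T := by positivity
  obtain ⟨-, -, s2, pos, -, ha, -⟩ := h2 n M H hH
  obtain ⟨fa, la, -⟩ := ha α h1
  obtain ⟨wt, -, hm, -⟩ := hM n M H α hH h1
  have ct : Continuous (M.tr H (aa M H α)) :=
    ((mTR n M).2.2.2.1 ℝ _).1 (((mINV n M H hH).1 _ fa.toTen).2.1)
  have cm : Continuous (n2 M H (mu M (ph M H) α)) :=
    ((mTR n M).2.2.2.1 ℝ _).1 (s2 _ _ (hm _ wt).1 (hm _ wt).1).2.2.2.2.2.1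
  have sq : ∀ j x, (F j x - G x) ^ 2 ≤ ε j * (c / 2) := fun j x => by
    rw [← sq_abs, sq]
    exact mul_le_mul (hF j x).1 ((hF j x).1.trans (e1 j)) (abs_nonneg _) (e0 j).le
  have key : ∀ j x, n2 M H (bet M H α (F j)) x ≤ ε j * (2 * M.tr H (aa M H α) x +
      c * n2 M H (mu M (ph M H) α) x) := fun j x => by
    have cF : Ck M 1 (F j) := (hK n M 1 (F j)).1 (sF j)
    have cD : Ck M 1 fun y => F j y - G y := (((hK n M 1 (F j)).2.2 cF).2.2.2.1 G cG).2
    obtain ⟨he, hx⟩ := (mTR n M).1 x
    have hw := (M.ch x).map_source hx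
    have b1 := (hB n M H α (F j) hH h1 cF).2.1 G cG _ he _ hw
    have b2 := (hB n M H α u hH h1 cu).2.2.1 _ he _ hw
    have b3 : mu M (aw M (ph M H) u) α (M.ch x) (M.ch x x) = 0 := hz _ he _ hw
    beta_reduce at b1 b2
    rw [b3, smul_zero] at b2
    rw [b2, sub_zero] at b1
    have b4 : n2 M H (bet M H α (F j)) x = n2 M H (bet M H α fun y => F j y - G y) x := by
      simp only [n2, c2, Mf.ev, b1]
    have b5 := (hB n M H α _ hH h1 cD).1 x
    have t0 := hH.tr_nonneg la x
    have m0 := (pos (mu M (ph M H) α) (mu M (ph M H) α) x).2.1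
    have i1 := mul_le_mul_of_nonneg_right (hF j x).2 t0
    have i2 := mul_le_mul_of_nonneg_right (sq j x) m0
    rw [b4]
    linarith
  refine ⟨F, fun _ _ => T, ⟨sF, fun j e he z hz => contDiffAt_const, ⟨c / 2, by positivity,
    fun j x => ?_⟩, fun j x => ?_, fun p => ⟨_, fun j => le_rfl⟩, ?_⟩, G0.measurable, ?_, ?_⟩
  · linarith [lo x, neg_le_of_abs_le (hF j x).1, e1 j]
  · linarith [hi x, le_of_abs_le (hF j x).1, e1 j]
  · have cb : Continuous fun x => (2 * M.tr H (aa M H α) x + c * n2 M H (mu M (ph M H) α) x) / T :=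
      ((continuous_const.mul ct).add (continuous_const.mul cm)).div_const T
    refine squeeze_zero (fun j => integral_nonneg fun x => div_nonneg (pos _ 0 x).2.1 T0.le)
      (fun j => ?_) (by simpa using et.mul_const (∫ x, (2 * M.tr H (aa M H α) x +
        c * n2 M H (mu M (ph M H) α) x) / T ∂M.mu H))
    rw [← integral_const_mul]
    refine integral_mono_of_nonneg (ae_of_all _ fun x => div_nonneg (pos _ 0 x).2.1 T0.le)
      ((hint ℝ _ cb).const_mul _) (ae_of_all _ fun x => ?_)
    beta_reduce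
    rw [← mul_div_assoc]
    exact div_le_div_of_nonneg_right (key j x) T0.le
  · exact MemLp.of_bound G0.aestronglyMeasurable (Real.exp R) (ae_of_all _ fun x => by
      rw [Real.norm_of_nonneg (c0.le.trans (lo x))]
      exact hi x)
  · refine squeeze_zero (fun j => integral_nonneg fun x => sq_nonneg _) (fun j => ?_)
      (by simpa using et.mul_const (∫ x, c / 2 ∂M.mu H))
    have := integral_mono_of_nonneg (μ := M.mu H) (ae_of_all _ fun x => sq_nonneg (F j x - G x))
      (integrable_const (ε j * (c / 2))) (ae_of_all _ fun x => sq j x)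
    rw [integral_const_mul] at this
    simpa using this

end Pool.Agent.Lib.F4.LD
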