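import Pool.Agent.Lib.F4.BlueD
import Pool.Agent.Lib.HS32.MAll

/-! Project f4: the operator `bet` on functions of class one. -/

open scoped Classical Topology ContDiff ComplexOrder Matrix
open Set Filter

set_option linter.unusedVariables false

noncomputable section

namespace Pool.Agent.Lib.F4.LD

open Pool.Agent.Lib.SV (E)
open Pool.Agent.Lib.HS32
open Pool.Agent.Lib.EXH (aw)

namespace BTB58

variable {n : ℕ}

theorem tr_oo (H : Mat n) (a : E n) :
    (H⁻¹ * Matrix.vecMulVec (star a) a).trace = p1 H a a := by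
  simp only [Matrix.trace, Matrix.diag, Matrix.mul_apply, Matrix.vecMulVec_apply, p1, dotProduct,
    Matrix.mulVec, Finset.mul_sum]
  exact Finset.sum_congr rfl fun i _ => Finset.sum_congr rfl fun k _ => by ring

theorem dif_ofReal {u : E n → ℝ} {z : E n} (h : DifferentiableAt ℝ u z) :
    DifferentiableAt ℝ (fun w => (u w : ℂ)) z :=
  Complex.ofRealCLM.differentiableAt.comp z h

theorem dd_eq {u : E n → ℝ} {z : E n} (h : DifferentiableAt ℝ u z) :
    dd (fun w => (u w : ℂ)) (fun w => (u w : ℂ)) z =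
      Matrix.vecMulVec (star (gd (fun w => (u w : ℂ)) z)) (gd (fun w => (u w : ℂ)) z) := by
  ext i j
  rw [dd_apply, ← star_dz_ofReal (dif_ofReal h)]
  rfl

theorem wg_vm (J : Mat n) (u v : E n) : Jᵀ * wg u v * J = wg (u ᵥ* J) (v ᵥ* J) := by
  ext i j
  simp only [wg, Matrix.mul_apply, Matrix.transpose_apply, Matrix.of_apply, Matrix.vecMul,
    dotProduct, Finset.sum_mul, Finset.mul_sum, ← Finset.sum_sub_distrib]
  exact Finset.sum_congr rfl fun b _ => Finset.sum_congr rfl fun a _ => by ring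

theorem pw (hP : St_PW1) {H : Mat n} (hH : H.PosDef) (a α : E n) (μ : Mat n) (c : ℝ) :
    (p2 H (wg a α - (c : ℂ) • μ) (wg a α - (c : ℂ) • μ) / H.det).re ≤
      2 * ((p1 H a a).re * (H.det⁻¹ * p1 H α α).re) + 2 * (c ^ 2 * (p2 H μ μ / H.det).re) := by
  obtain ⟨l, -, -, -, p⟩ := hP n H
  obtain ⟨q1, q2, -⟩ := p hH
  have d0 := Mf.pd_det_re hH
  obtain ⟨d, hd⟩ : ∃ d : ℝ, d = H.det.re := ⟨_, rfl⟩
  have d1 : H.det = (d : ℂ) := by rw [hd, Mf.herm_det hH.1]
  rw [← hd] at d0
  have h1 := (q1 (wg a α) (((-c : ℝ) : ℂ) • μ)).2.2.2.2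
  have h2 := (q2 a α).2
  have h3 : (p2 H (((-c : ℝ) : ℂ) • μ) (((-c : ℝ) : ℂ) • μ)).re = c ^ 2 * (p2 H μ μ).re := by
    rw [(l μ _ 0 _).2.2.2.2.1, (l μ μ 0 _).2.2.2.2.2, ← mul_assoc, Complex.star_def,
      Complex.conj_ofReal, ← Complex.ofReal_mul, Complex.re_ofReal_mul]
    ring
  have h4 : wg a α - (c : ℂ) • μ = wg a α + ((-c : ℝ) : ℂ) • μ := by
    rw [Complex.ofReal_neg, neg_smul, sub_eq_add_neg]
  rw [h4, d1, Complex.div_ofReal_re, Complex.div_ofReal_re, ← Complex.ofReal_inv,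
    Complex.re_ofReal_mul, div_le_iff₀ d0]
  rw [h3] at h1
  have h5 : (2 * ((p1 H a a).re * (d⁻¹ * (p1 H α α).re)) +
      2 * (c ^ 2 * ((p2 H μ μ).re / d))) * d =
      2 * ((p1 H a a).re * (p1 H α α).re) + 2 * (c ^ 2 * (p2 H μ μ).re) := by
    field_simp
  rw [h5]
  linarith

end BTB58

open BTB58 in
theorem st_BTB (hPW1 : St_PW1) (hS2K : St_S2K) (hMUS : St_MUS) : St_BTB := by
  intro n M H α g hH h1 hg
  have dg : ∀ u, Ck M 1 u → M.All fun e z => DifferentiableAt ℝ (fun w => u (e.symm w)) z :=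
    fun u hu e he z hz => (hu e he z hz).differentiableAt (by simp)
  have dp : M.All fun e z => DifferentiableAt ℝ (ph M H e) z := fun e he z hz =>
    cd_diff ((hMUS n M H α hH h1).1.sm e he z hz)
  have c4 : M.All fun e z =>
      mu M (aw M (ph M H) g) α e z = mu M (ph M H) α e z + da M g α e z := fun e he z hz => by
    have h : ∀ j, dz j (fun w => ((aw M (ph M H) g e w : ℝ) : ℂ)) z =
        dz j (fun w => ((ph M H e w : ℝ) : ℂ)) z + dz j (M.lc g e) z := fun j => by
      rw [show M.lc g e = fun w => ((g (e.symm w) : ℝ) : ℂ) from rfl,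
        ← dz_add (dif_ofReal (dp e he z hz)) (dif_ofReal (dg g hg e he z hz))]
      congr 1
      funext w
      exact Complex.ofReal_add _ _
    ext i j
    simp only [mu, da, wg, gd, Matrix.sub_apply, Matrix.add_apply, Matrix.of_apply, h]
    ring
  refine ⟨fun x => ?_, fun g' hg' e he z hz => ?_, fun e he z hz => ?_, c4,
    fun e he e' he' x hx hx' => ?_, fun h0 e he z hz => (sub_eq_zero.1 (h0 e he z hz)).symm⟩
  · have k := pw hPW1 (hH.ev_pos x) (gd (M.lc g (M.ch x)) (M.ch x x)) (M.ev α x)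
      (M.ev (mu M (ph M H) α) x) (g x)
    have e1 : M.gr H g g x = (p1 (M.ev H x) (gd (M.lc g (M.ch x)) (M.ch x x))
        (gd (M.lc g (M.ch x)) (M.ch x x))).re := by
      rw [← tr_oo]
      exact congrArg (fun T : Mat n => ((M.ev H x)⁻¹ * T).trace.re)
        (dd_eq (Mf.AllOn.ch (dg g hg) x))
    have e2 : M.tr H (aa M H α) x =
        ((M.ev H x).det⁻¹ * p1 (M.ev H x) (M.ev α x) (M.ev α x)).re := by
      rw [← tr_oo, ← smul_eq_mul, ← Matrix.trace_smul, ← Matrix.mul_smul]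
      rfl
    have e3 : M.ev (bet M H α g) x = wg (gd (M.lc g (M.ch x)) (M.ch x x)) (M.ev α x) -
        (g x : ℂ) • M.ev (mu M (ph M H) α) x := by
      show _ - (g ((M.ch x).symm (M.ch x x)) : ℂ) • _ = _
      rw [Mf.ch_symm]
      rfl
    rw [← e1, ← e2, ← e3] at k
    exact k
  · have h : ∀ j, dz j (M.lc (fun x => g x - g' x) e) z =
        dz j (M.lc g e) z - dz j (M.lc g' e) z := fun j => by
      rw [show M.lc g e = fun w => ((g (e.symm w) : ℝ) : ℂ) from rfl,
        show M.lc g' e = fun w => ((g' (e.symm w) : ℝ) : ℂ) from rfl,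
        ← dz_sub (dif_ofReal (dg g hg e he z hz)) (dif_ofReal (dg g' hg' e he z hz))]
      congr 1
      funext w
      exact Complex.ofReal_sub _ _
    ext i j
    simp only [bet, da, wg, gd, Matrix.sub_apply, Matrix.smul_apply, Matrix.of_apply, h,
      smul_eq_mul, Complex.ofReal_sub]
    ring
  · have h : ∀ j, dz j (M.lc (fun x => Real.exp (-g x)) e) z =
        ((-Real.exp (-g (e.symm z)) : ℝ) : ℂ) * dz j (M.lc g e) z := fun j =>
      dz_comp_real (u := fun w => g (e.symm w)) (φ := fun t => Real.exp (-t))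
        (by simpa using (hasDerivAt_neg (g (e.symm z))).exp) (dg g hg e he z hz)
    beta_reduce
    rw [c4 e he z hz]
    ext i j
    simp only [bet, da, wg, gd, Matrix.sub_apply, Matrix.add_apply, Matrix.smul_apply,
      Matrix.of_apply, h, smul_eq_mul, Complex.ofReal_neg]
    ring
  · obtain ⟨t1, -, -, t2, -⟩ := (mTR n M).2.1 e he e' he' x hx hx'
    have t3 : (e ∘ e'.symm) (e' x) = e x := by
      rw [Function.comp_apply, e'.left_inv hx']
    have h : gd (M.lc g e') (e' x) = gd (M.lc g e) (e x) ᵥ* M.J e e' x := by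
      funext j
      have q : M.lc g e' =ᶠ[𝓝 (e' x)] M.lc g e ∘ (e ∘ e'.symm) := t2.mono fun w hw => by
        show (g (e'.symm w) : ℂ) = (g (e.symm (e (e'.symm w))) : ℂ)
        rw [hw.2.2.2.2.1]
      have k := ((mCHN n _ _ t1).2.2.2.2.2.2.2.2.2.1 (M.lc g e) (by
        rw [t3]
        exact dif_ofReal (dg g hg e he _ (e.map_source hx))) j).1
      rw [t3] at k
      exact (dz_congr q).trans k
    show wg (gd (M.lc g e') (e' x)) (α e' (e' x)) =
      jd M e e' x • ((M.J e e' x)ᵀ * wg (gd (M.lc g e) (e x)) (α e (e x)) * M.J e e' x)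
    rw [wg_vm, h, h1.cmp e he e' he' x hx hx', zpow_one]
    ext i j
    simp only [wg, Matrix.of_apply, Matrix.smul_apply, Pi.smul_apply, smul_eq_mul]
    ring

end Pool.Agent.Lib.F4.LD
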