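import Pool.Agent.Lib.F4.K13a
import Pool.Agent.Lib.VF72.Dol

/-! Project f4: regularity for the weak `(0,1)` gradient and the lemma of Dolbeault in finite
class. -/

open scoped Classical Topology ContDiff ENNReal
open Set MeasureTheory Complex Metric Filter

set_option linter.unusedVariables false

noncomputable section

namespace Pool.Agent.Lib.F4.K13

open Pool.Agent.Lib.SV (E)
open Pool.Agent.Lib.HS32

variable {n : ℕ} {f g g' : E n → ℂ} {δ r : ℝ} {c x : E n}

/-- The convolution. -/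
def cv (f g : E n → ℂ) : E n → ℂ := convolution f g (ContinuousLinearMap.mul ℝ ℂ) volume

theorem cv_def (f g : E n → ℂ) (x : E n) : cv f g x = ∫ t, f t * g (x - t) := rfl

theorem cv_cd {k : ℕ∞} (hf : LocallyIntegrable f) (hg : ContDiff ℝ k g) (hc : HasCompactSupport g) :
    ContDiff ℝ k (cv f g) := hc.contDiff_convolution_right _ hf hg

theorem cv_cd' (hf : ContDiff ℝ ∞ f) (hc : HasCompactSupport f) (hg : LocallyIntegrable g) :
    ContDiff ℝ ∞ (cv f g) := hc.contDiff_convolution_left _ hf hg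

theorem cv_dzb (hf : LocallyIntegrable f) (hg : ContDiff ℝ 1 g) (hc : HasCompactSupport g)
    (l : Fin n) (x : E n) : dzb l (cv f g) x = cv f (dzb l g) x := by
  have c1 := hg.continuous_fderiv one_ne_zero
  have e : ∀ v, fderiv ℝ (cv f g) x v = ∫ t, f t * fderiv ℝ g (x - t) v := fun v => by
    rw [cv, (hc.hasFDerivAt_convolution_right _ hf hg x).fderiv,
      convolution_precompR_apply _ hf (hc.fderiv ℝ) c1]
    rfl
  have i : ∀ v, Integrable fun t => f t * fderiv ℝ g (x - t) v := fun v =>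
    (hc.fderiv_apply ℝ v).convolutionExists_right (ContinuousLinearMap.mul ℝ ℂ) hf
      (c1.clm_apply continuous_const) x
  rw [dzb, e, e, ← integral_const_mul, ← integral_add (i _) ((i _).const_mul I), ← integral_div,
    cv_def]
  exact integral_congr_ae (.of_forall fun t => by simp only [dzb]; ring)

theorem cv_congr (hf : ∀ t ∉ ball (0 : E n) δ, f t = 0) (hg : ∀ z ∈ ball c (r + δ), g z = g' z)
    (hx : x ∈ ball c r) : cv f g x = cv f g' x := by
  refine integral_congr_ae (.of_forall fun t => ?_)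
  by_cases h : t ∈ ball (0 : E n) δ
  · have : x - t ∈ ball c (r + δ) := by
      rw [mem_ball_iff_norm] at h hx ⊢
      rw [sub_right_comm]
      linarith [norm_sub_le (x - c) t, sub_zero t ▸ h]
    simp only [hg _ this]
  · simp [hf t h]

theorem cv_out (hf : ∀ t ∉ ball (0 : E n) δ, f t = 0) (hg : ∀ z ∉ ball c r, g z = 0)
    (hx : x ∉ ball c (r + δ)) : cv f g x = 0 := by
  refine integral_eq_zero_of_ae (.of_forall fun t => ?_)
  by_cases h : t ∈ ball (0 : E n) δ
  · have : x - t ∉ ball c r := fun h' => hx (by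
      rw [mem_ball_iff_norm] at h h' ⊢
      rw [show x - c = x - t - c + t by abel]
      linarith [norm_add_le (x - t - c) t, sub_zero t ▸ h])
    simp [hg _ this]
  · simp [hf t h]

theorem cv_fub {θ : E n → ℂ} (hf : Integrable f) (hg : Integrable g) (hθ : Continuous θ)
    (hc : HasCompactSupport θ) :
    ∫ x, g x * cv f θ x = ∫ y, θ y * cv (fun t => f (-t)) g y := by
  obtain ⟨C, hC⟩ := hθ.bounded_above_of_compact_support hc
  have i : Integrable (Function.uncurry fun y x : E n => θ y * (g x * f (-(y - x))))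
      (volume.prod volume) :=
    (hg.convolution_integrand (ContinuousLinearMap.mul ℝ ℂ) hf.comp_neg).bdd_mul
      (hθ.comp continuous_fst).aestronglyMeasurable (.of_forall fun p => hC p.1)
  have h := integral_integral_swap i
  simp only [integral_const_mul] at h
  refine Eq.trans (integral_congr_ae (.of_forall fun x => ?_))
    (h.symm.trans (integral_congr_ae (.of_forall fun y => ?_)))
  · simp only [cv, convolution_eq_swap, ← integral_const_mul, ContinuousLinearMap.mul_apply',
      neg_sub]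
    exact integral_congr_ae (.of_forall fun y => by ring)
  · simp only [cv, convolution_eq_swap, ContinuousLinearMap.mul_apply', mul_comm]

theorem cv_ct {p q : ℝ} (h : q.HolderConjugate p) (hf : MemLp f (ENNReal.ofReal q))
    (hf' : LocallyIntegrable f) (hg : MemLp g (ENNReal.ofReal p)) : Continuous (cv f g) := by
  have := h.ennrealOfReal
  have p0 := h.symm.pos
  have m : ∀ {u : E n → ℂ}, MemLp u (ENNReal.ofReal p) → ∀ y,
      MemLp (fun t => u (y - t)) (ENNReal.ofReal p) := fun hu y =>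
    hu.comp_measurePreserving (Measure.measurePreserving_sub_left volume y)
  set A := (∫ a, ‖f a‖ ^ q) ^ (1 / q) with hA
  have A0 : 0 ≤ A := Real.rpow_nonneg (integral_nonneg fun _ => by positivity) _
  refine continuous_of_uniform_approx_of_continuous fun u hu => ?_
  obtain ⟨ε, ε0, hε⟩ := mem_uniformity_dist.1 hu
  obtain ⟨w, w1, w2, w3, w4⟩ := hg.exists_hasCompactSupport_integral_rpow_sub_le p0
    (ε := (ε / (A + 1)) ^ p) (by positivity)
  refine ⟨cv f w, w1.continuous_convolution_right _ hf' w3, fun y => hε ?_⟩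
  have h1 := integral_mul_norm_le_Lp_mul_Lq h hf (m (hg.sub w4) y)
  rw [integral_sub_left_eq_self (fun t => ‖(g - w) t‖ ^ p) volume y] at h1
  have h2 : (∫ t, ‖(g - w) t‖ ^ p) ^ (1 / p) ≤ ε / (A + 1) := by
    refine (Real.rpow_le_rpow (integral_nonneg fun _ => by positivity) w2 (by positivity)).trans ?_
    rw [one_div, Real.rpow_rpow_inv (by positivity) p0.ne']
  have h3 := integral_sub (hf.integrable_mul (m hg y)) (hf.integrable_mul (m w4 y))
  simp only [Pi.mul_apply] at h3
  rw [dist_eq_norm, cv_def, cv_def, ← h3]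
  refine (norm_integral_le_integral_norm _).trans_lt ?_
  simp only [← mul_sub, norm_mul]
  refine (h1.trans (mul_le_mul_of_nonneg_left h2 A0)).trans_lt ?_
  rw [← mul_div_assoc, div_lt_iff₀ (by positivity)]
  linarith

/-- A truncated kernel. -/
structure Ker (δ : ℝ) (κ : Fin n → E n → ℂ) (σ : E n → ℂ) : Prop where
  out : ∀ l, ∀ t ∉ ball (0 : E n) δ, κ l t = 0
  out' : ∀ t ∉ ball (0 : E n) δ, σ t = 0
  itg : ∀ l, Integrable (κ l)
  lq : ∀ p q : ℝ, q.HolderConjugate p → 2 * n < p → ∀ l, MemLp (κ l) (ENNReal.ofReal q)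
  sm : ContDiff ℝ ∞ σ
  rep : ∀ ψ, ContDiff ℝ 1 ψ → ∀ x, ψ x = ∑ l, cv (κ l) (dzb l ψ) x - cv σ ψ x

theorem hc_of (h : ∀ t ∉ ball c δ, f t = 0) : HasCompactSupport f :=
  HasCompactSupport.intro (isCompact_closedBall c δ) fun t ht =>
    h t fun k => ht (ball_subset_closedBall k)

theorem cd_bump (ρ : ContDiffBump c) : ContDiff ℝ ∞ fun t => (ρ t : ℂ) :=
  ofRealCLM.contDiff.comp ρ.contDiff

theorem out_bump (ρ : ContDiffBump c) (t : E n) (h : t ∉ ball c ρ.rOut) : (ρ t : ℂ) = 0 :=
  ofReal_eq_zero.2 (ρ.zero_of_le_dist (not_lt.1 h))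

theorem dzb_shift {ψ : E n → ℂ} (h : Differentiable ℝ ψ) (l : Fin n) (x t : E n) :
    dzb l (fun t => ψ (x - t)) t = -dzb l ψ (x - t) := by
  have e : ∀ v, fderiv ℝ (fun t => ψ (x - t)) t v = -fderiv ℝ ψ (x - t) v := fun v => by
    rw [show fderiv ℝ (fun t => ψ (x - t)) t = _ from
      ((h (x - t)).hasFDerivAt.comp t ((hasFDerivAt_id t).const_sub x)).fderiv]
    simp
  simp only [dzb, e]
  ring

theorem ker (hn : 0 < n) (hδ : 0 < δ) : ∃ κ σ, Ker (n := n) δ κ σ := by
  let ρ : ContDiffBump (0 : E n) := ⟨δ / 2, δ, by positivity, by linarith⟩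
  set a : ℂ := ((∫ v : E n, pf v : ℝ) : ℂ) with ha
  have a0 : a ≠ 0 := ofReal_ne_zero.2 (pos_pf hn).ne'
  have c1 : ContDiff ℝ 1 fun t => (ρ t : ℂ) := (cd_bump ρ).of_le (by simp)
  have o2 : ∀ l, ∀ t ∉ ball (0 : E n) δ, dzb l (fun t => (ρ t : ℂ)) t = 0 := fun l t ht => by
    have m : IsLocalMin ρ t := .of_forall fun w => by
      rw [ρ.zero_of_le_dist (not_lt.1 ht)]; exact ρ.nonneg
    simp [dzb, fderiv_ofReal ((ρ.contDiff (n := 1)).differentiable one_ne_zero t),
      m.fderiv_eq_zero]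
  have o1 : ∀ l, ∀ t ∉ ball (0 : E n) δ, a⁻¹ * (ρ t * ke 0 l t) = 0 := fun l t ht => by
    rw [out_bump ρ t ht, zero_mul, mul_zero]
  have me : ∀ l, AEStronglyMeasurable fun t => a⁻¹ * (ρ t * ke 0 l t) := fun l =>
    ((c1.continuous.measurable.mul (me_ke 0 l)).const_mul _).aestronglyMeasurable
  refine ⟨fun l t => a⁻¹ * (ρ t * ke 0 l t),
    fun t => a⁻¹ * ∑ l, ke 0 l t * dzb l (fun t => (ρ t : ℂ)) t, o1, fun t ht => by simp [o2 _ t ht],
    fun l => ((li_ke l).integrable_smul_left_of_hasCompactSupport c1.continuous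
      (hc_of (out_bump ρ))).const_mul _, fun p q h hp l => ?_, contDiff_const.mul ?_,
    fun ψ hψ x => ?_⟩
  · have q0 := h.pos
    rw [← integrable_norm_rpow_iff (me l) (by simpa) (by simp), ENNReal.toReal_ofReal q0.le]
    refine (integrableOn_iff_integrable_of_support_subset (s := closedBall 0 δ) fun t ht => ?_).1
      ((locallyIntegrable_of_norm_le_rpow (C := ‖a⁻¹‖ ^ q) (α := (2 * n - 1) * q)
      (by rw [rk]; omega) ?_ (.of_forall fun t => ?_)
      ((me l).norm.aemeasurable.pow_const q).aestronglyMeasurable).integrableOn_isCompact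
      (isCompact_closedBall 0 δ))
    · by_contra k
      exact ht (by simp only [o1 l t fun k' => k (ball_subset_closedBall k'), norm_zero,
        Real.zero_rpow q0.ne'])
    · have h1 := h.mul_eq_add
      have h2 := h.lt
      rw [rk]
      push_cast
      nlinarith
    · rw [Real.norm_of_nonneg (by positivity), ← neg_mul, Real.rpow_mul (norm_nonneg _),
        ← Real.mul_rpow (norm_nonneg _) (by positivity), norm_mul, norm_mul]
      refine Real.rpow_le_rpow (by positivity) (mul_le_mul_of_nonneg_left ((mul_le_of_le_one_left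
        (norm_nonneg _) ?_).trans ((norm_ke le_rfl l t).trans (one_mul _).le)) (norm_nonneg _)) q0.le
      rw [norm_real, Real.norm_of_nonneg ρ.nonneg]
      exact ρ.le_one
  · refine contDiff_iff_contDiffAt.2 fun z => ContDiffAt.sum fun l _ => ?_
    rcases eq_or_ne z 0 with rfl | h
    · refine (contDiffAt_const (c := (0 : ℂ))).congr_of_eventuallyEq ?_
      filter_upwards [ρ.eventuallyEq_one.eventuallyEq_nhds] with w hw
      rw [dzb_congr (g := fun _ => 1) (hw.mono fun y hy => by simp [hy]), dzb_const, mul_zero]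
    · exact (cd_ke (by linarith [(pow_pos (norm_pos_iff.2 h) 2).trans_le (le_qq z)]) l).mul
        (cd_dzb (cd_bump ρ).contDiffAt l)
  · have c2 : ContDiff ℝ 1 fun t => ψ (x - t) := hψ.comp (contDiff_const.sub contDiff_id)
    have h := rep0 (c1.mul c2) (hc_of (out_bump ρ)).mul_right
    have i1 : ∀ l, Integrable fun t => ke 0 l t * dzb l (fun t => (ρ t : ℂ)) t * ψ (x - t) :=
      fun l => ((li_ke l).integrable_smul_right_of_hasCompactSupport
        ((ct_dzb c1 l).mul c2.continuous) (hc_of (o2 l)).mul_right).congr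
        (.of_forall fun t => (mul_assoc _ _ _).symm)
    have i2 : ∀ l, Integrable fun t => ρ t * ke 0 l t * dzb l ψ (x - t) := fun l =>
      ((li_ke l).integrable_smul_right_of_hasCompactSupport (c1.continuous.mul ((ct_dzb hψ l).comp
        (continuous_const.sub continuous_id))) (hc_of (out_bump ρ)).mul_right).congr
        (.of_forall fun t => (mul_left_comm _ _ _).trans (mul_assoc _ _ _).symm)
    have e : ∀ l, ∫ w, ke 0 l w * dzb l (fun t => (ρ t : ℂ) * ψ (x - t)) w =
        (∫ t, ke 0 l t * dzb l (fun t => (ρ t : ℂ)) t * ψ (x - t)) -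
          ∫ t, ρ t * ke 0 l t * dzb l ψ (x - t) := fun l => by
      rw [← integral_sub (i1 l) (i2 l)]
      refine integral_congr_ae (.of_forall fun t => ?_)
      simp only [dzb_mul (c1.differentiable one_ne_zero t) (c2.differentiable one_ne_zero t),
        dzb_shift (hψ.differentiable one_ne_zero)]
      ring
    simp only [e, Finset.sum_sub_distrib, ρ.one_of_mem_closedBall (mem_closedBall_self ρ.rIn_pos.le),
      sub_zero, ofReal_one, one_mul] at h
    simp only [cv_def, mul_assoc a⁻¹, integral_const_mul, Finset.sum_mul, ← Finset.mul_sum,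
      integral_finsetSum _ fun l _ => i1 l]
    field_simp
    linear_combination h

/-- The weak `(0,1)` gradient of `h` on `U` is `g`. -/
def WDb (U : Set (E n)) (h : E n → ℂ) (g : Fin n → E n → ℂ) : Prop :=
  ∀ ψ : E n → ℂ, ContDiff ℝ ∞ ψ → HasCompactSupport ψ → tsupport ψ ⊆ U → ∀ l,
    ∫ z, h z * dzb l ψ z = -∫ z, g l z * ψ z

theorem ts_of (h : ∀ t ∉ ball c δ, f t = 0) : tsupport f ⊆ closedBall c δ :=
  closure_minimal (fun t ht => by_contra fun k => ht (h t fun k' => k (ball_subset_closedBall k')))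
    isClosed_closedBall

theorem weak {κ g : Fin n → E n → ℂ} {σ h : E n → ℂ} (K : Ker δ κ σ) (hh : Integrable h)
    (hg : ∀ l, Integrable (g l)) (hw : WDb (closedBall c (r + δ)) h g) :
    ∀ᵐ x, x ∈ ball c r → h x = -∑ l, cv (fun t => κ l (-t)) (g l) x - cv (fun t => σ (-t)) h x := by
  have iσ : Integrable σ := K.sm.continuous.integrable_of_hasCompactSupport (hc_of K.out')
  have j1 : ∀ l, Integrable (cv (fun t => κ l (-t)) (g l)) := fun l =>
    (K.itg l).comp_neg.integrable_convolution _ (hg l)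
  have j2 : Integrable (cv (fun t => σ (-t)) h) := iσ.comp_neg.integrable_convolution _ hh
  have j3 := integrable_finsetSum Finset.univ fun l _ => j1 l
  refine (isOpen_ball.ae_eq_zero_of_integral_contDiff_smul_eq_zero (μ := volume)
    (f := fun x => h x + ∑ l, cv (fun t => κ l (-t)) (g l) x + cv (fun t => σ (-t)) h x)
    (((hh.add j3).add j2).locallyIntegrable.locallyIntegrableOn _) fun u u1 u2 u3 => ?_).mono
    fun x hx hm => by linear_combination hx hm
  set θ : E n → ℂ := fun z => u z with hθ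
  have t1 : ContDiff ℝ ∞ θ := ofRealCLM.contDiff.comp u1
  have t1' : ContDiff ℝ 1 θ := t1.of_le (by simp)
  have t0 : ∀ z ∉ ball c r, θ z = 0 := fun z hz =>
    ofReal_eq_zero.2 (image_eq_zero_of_notMem_tsupport fun k => hz (u3 k))
  have t2 := hc_of t0
  have bd : ∀ {a b : E n → ℂ}, Continuous a → HasCompactSupport a → Integrable b →
      Integrable fun x => a x * b x := fun h1 h2 h3 =>
    h3.locallyIntegrable.integrable_smul_left_of_hasCompactSupport h1 h2
  have li := fun l => (K.itg l).locallyIntegrable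
  have o := fun l x => cv_out (x := x) (K.out l) t0
  have e1 : ∀ l, ∫ z, cv (κ l) (dzb l θ) z * h z = -∫ y, θ y * cv (fun t => κ l (-t)) (g l) y :=
    fun l => by
    rw [← cv_fub (K.itg l) (hg l) t1.continuous t2,
      ← hw _ (cv_cd (li l) t1 t2) (hc_of (o l)) (ts_of (o l)) l]
    simp only [cv_dzb (li l) t1' t2, mul_comm]
  have e2 := cv_fub iσ hh t1.continuous t2
  have b1 : ∀ l, Integrable fun z => cv (κ l) (dzb l θ) z * h z := fun l =>
    bd ((hc_dzb t2 l).continuous_convolution_right _ (li l) (ct_dzb t1' l))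
      ((hc_of (K.out l)).convolution _ (hc_dzb t2 l)) hh
  have b2 : Integrable fun z => h z * cv σ θ z :=
    (bd (cv_cd iσ.locallyIntegrable t1 t2).continuous ((hc_of K.out').convolution _ t2) hh).congr
      (.of_forall fun z => mul_comm _ _)
  have e3 : ∫ z, θ z * h z = ∑ l, (∫ z, cv (κ l) (dzb l θ) z * h z) - ∫ z, h z * cv σ θ z := by
    rw [← integral_finsetSum _ fun l _ => b1 l,
      ← integral_sub (integrable_finsetSum _ fun l _ => b1 l) b2]
    refine integral_congr_ae (.of_forall fun z => ?_)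
    simp only [← Finset.sum_mul]
    rw [K.rep θ t1' z]
    ring
  have e4 : ∫ x, u x • (h x + ∑ l, cv (fun t => κ l (-t)) (g l) x + cv (fun t => σ (-t)) h x) =
      (∫ z, θ z * h z) + ∑ l, (∫ y, θ y * cv (fun t => κ l (-t)) (g l) y) +
        ∫ y, θ y * cv (fun t => σ (-t)) h y := by
    have k := fun {b} => bd (b := b) t1.continuous t2
    have k1 := integrable_finsetSum Finset.univ fun l _ => k (j1 l)
    rw [← integral_finsetSum _ fun l _ => k (j1 l), ← integral_add (k hh) k1,
      ← integral_add (by exact (k hh).add k1) (k j2)]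
    refine integral_congr_ae (.of_forall fun z => ?_)
    simp only [← Finset.mul_sum, real_smul, hθ]
    ring
  rw [e4, e3, e2]
  simp only [e1, Finset.sum_neg_distrib]
  ring

theorem glue {U : Set (E n)} (hU : IsOpen U) {h : E n → ℂ} {k : ℕ∞ω}
    (A : ∀ c ∈ U, ∃ r > (0 : ℝ), ∃ F : E n → ℂ, ContDiffOn ℝ k F (ball c r) ∧
      ∀ᵐ v, v ∈ ball c r → F v = h v) :
    ∃ F : E n → ℂ, ContDiffOn ℝ k F U ∧ ∀ᵐ v, v ∈ U → F v = h v := by
  choose! r r0 F hF ha using A
  have B : ∀ c ∈ U, ∀ v ∈ U, v ∈ ball c (r c) → F v v = F c v := fun c hc v hv hm =>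
    Measure.eqOn_open_of_ae_eq (μ := volume) (U := ball v (r v) ∩ ball c (r c))
      ((ae_restrict_iff' (measurableSet_ball.inter measurableSet_ball)).2
        (((ha v hv).and (ha c hc)).mono fun w hw k => (hw.1 k.1).trans (hw.2 k.2).symm))
      (isOpen_ball.inter isOpen_ball) ((hF v hv).continuousOn.mono inter_subset_left)
      ((hF c hc).continuousOn.mono inter_subset_right) ⟨mem_ball_self (r0 v hv), hm⟩
  refine ⟨fun v => F v v, fun c hc => ?_, ?_⟩
  · refine (((hF c hc).contDiffAt (ball_mem_nhds c (r0 c hc))).congr_of_eventuallyEq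
      ?_).contDiffWithinAt
    filter_upwards [hU.mem_nhds hc, ball_mem_nhds c (r0 c hc)] with v h1 h2 using B c hc v h1 h2
  · refine measure_null_of_locally_null _ fun c hc => ?_
    have hc' : c ∈ U := by
      by_contra k
      exact hc fun k' => absurd k' k
    refine ⟨_, inter_mem_nhdsWithin _ (ball_mem_nhds c (r0 c hc')),
      measure_mono_null (fun v hv => ?_) (ae_iff.1 (ha c hc'))⟩
    exact fun k => hv.1 fun h1 => (B c hc' v h1 hv.2).trans (k hv.2)

theorem cd_cut {k : ℕ∞} (ρ : ContDiffBump c) {U : Set (E n)} (hU : IsOpen U)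
    (hs : closedBall c ρ.rOut ⊆ U) (hf : ContDiffOn ℝ k f U) :
    ContDiff ℝ k fun z => ρ z * f z := contDiff_iff_contDiffAt.2 fun z => by
  by_cases h : z ∈ closedBall c ρ.rOut
  · exact ((cd_bump ρ).of_le (by exact_mod_cast le_top)).contDiffAt.mul
      (hf.contDiffAt (hU.mem_nhds (hs h)))
  refine (contDiffAt_const (c := (0 : ℂ))).congr_of_eventuallyEq ?_
  filter_upwards [isClosed_closedBall.isOpen_compl.mem_nhds h] with w hw
  rw [out_bump ρ w fun k => hw (ball_subset_closedBall k), zero_mul]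

theorem loc {U : Set (E n)} {h : E n → ℂ} {g : Fin n → E n → ℂ} {k : ℕ∞} (hn : 0 < n)
    (hU : IsOpen U) (hh : LocallyIntegrableOn h U) (hg : ∀ l, LocallyIntegrableOn (g l) U)
    (hw : WDb U h g) (A : ∀ c ∈ U, ∃ V ∈ 𝓝 c, ∀ ρ : ContDiffBump c, closedBall c ρ.rOut ⊆ U ∩ V →
      ∀ δ κ σ, Ker δ κ σ → ∀ l, ContDiff ℝ k (cv (fun t => κ l (-t)) fun z => ρ z * g l z)) :
    ∃ F : E n → ℂ, ContDiffOn ℝ k F U ∧ ∀ᵐ v, v ∈ U → F v = h v := by
  refine glue hU fun c hc => ?_
  obtain ⟨V, hV, A⟩ := A c hc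
  obtain ⟨R, R0, hR⟩ := nhds_basis_closedBall.mem_iff.1 (inter_mem (hU.mem_nhds hc) hV)
  obtain ⟨δ, rfl⟩ : ∃ δ, R = 3 * δ := ⟨R / 3, by ring⟩
  have d0 : 0 < δ := by linarith
  let ρ : ContDiffBump c := ⟨δ + δ, 3 * δ, by linarith, by linarith⟩
  obtain ⟨κ, σ, K⟩ := ker hn d0
  have it : ∀ {f : E n → ℂ}, LocallyIntegrableOn f U → Integrable fun z => ρ z * f z :=
    fun {f} hf => (integrableOn_iff_integrable_of_support_subset (s := closedBall c (3 * δ))
      fun t ht => by_contra fun k => ht (by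
        simp only [out_bump ρ t fun k' => k (ball_subset_closedBall k'), zero_mul])).1
      ((hf.integrableOn_compact_subset (fun z hz => (hR hz).1)
        (isCompact_closedBall _ _)).continuousOn_mul (cd_bump ρ).continuous.continuousOn
        (isCompact_closedBall _ _))
  have one : ∀ {f a : E n → ℂ}, (∀ z ∉ closedBall c (δ + δ), a z = 0) →
      ∫ z, ρ z * f z * a z = ∫ z, f z * a z := fun {f a} ha =>
    integral_congr_ae (.of_forall fun z => by
      by_cases hz : z ∈ closedBall c (δ + δ)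
      · simp only [ρ.one_of_mem_closedBall hz, ofReal_one, one_mul]
      · simp only [ha z hz, mul_zero])
  have W := weak (c := c) (r := δ) K (it hh) (fun l => it (hg l)) fun ψ p1 p2 p3 l => by
    rw [one fun z hz => dzb_out (fun k => hz (p3 k)) l,
      one fun z hz => image_eq_zero_of_notMem_tsupport fun k => hz (p3 k)]
    exact hw ψ p1 p2 (fun z hz => (hR (closedBall_subset_closedBall (by linarith) (p3 hz))).1) l
  refine ⟨δ, d0, _, ContDiff.contDiffOn ?_, W.mono fun v hv hm => (hv hm).symm.trans ?_⟩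
  · exact (ContDiff.sum fun l _ => A ρ hR δ κ σ K l).neg.sub ((cv_cd' (K.sm.comp contDiff_neg)
      ((hc_of K.out').comp_homeomorph (Homeomorph.neg _)) (it hh).locallyIntegrable).of_le
      (by exact_mod_cast le_top))
  · rw [ρ.one_of_mem_closedBall (closedBall_subset_closedBall (by show δ ≤ δ + δ; linarith)
      (ball_subset_closedBall hm)), ofReal_one, one_mul]

/-- A function whose weak `(0,1)` gradient is of class `C^k` is of class `C^k`. -/
theorem kerB {U : Set (E n)} {h : E n → ℂ} {g : Fin n → E n → ℂ} {k : ℕ∞} (hn : 0 < n)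
    (hU : IsOpen U) (hh : LocallyIntegrableOn h U) (hg : ∀ l, ContDiffOn ℝ k (g l) U)
    (hw : WDb U h g) : ∃ F : E n → ℂ, ContDiffOn ℝ k F U ∧ ∀ᵐ v, v ∈ U → F v = h v :=
  loc hn hU hh (fun l => (hg l).continuousOn.locallyIntegrableOn hU.measurableSet) hw
    fun c hc => ⟨univ, univ_mem, fun ρ hρ δ κ σ K l => cv_cd (K.itg l).comp_neg.locallyIntegrable
      (cd_cut ρ hU (fun z hz => (hρ hz).1) (hg l)) (hc_of (out_bump ρ)).mul_right⟩

/-- A function whose weak `(0,1)` gradient is locally in `L^p`, `p > 2 n`, is continuous. -/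
theorem kerA {U : Set (E n)} {h : E n → ℂ} {g : Fin n → E n → ℂ} {p : ℝ} (hn : 0 < n)
    (hU : IsOpen U) (hh : LocallyIntegrableOn h U) (hp : 2 * n < p)
    (hg : ∀ c ∈ U, ∃ V ∈ 𝓝 c, ∀ l, MemLp (g l) (ENNReal.ofReal p) (volume.restrict V))
    (hw : WDb U h g) : ∃ F : E n → ℂ, ContinuousOn F U ∧ ∀ᵐ v, v ∈ U → F v = h v := by
  have p1 : 1 < p := by linarith [(Nat.one_le_cast (α := ℝ)).2 hn]
  have q := (Real.HolderConjugate.conjExponent p1).symm
  refine (loc (k := 0) hn hU hh (fun l c hc => ?_) hw fun c hc => ?_).imp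
    fun F hF => ⟨hF.1.continuousOn, hF.2⟩
  · obtain ⟨V, hV, h1⟩ := hg c hc
    have : Fact (volume (V ∩ ball c 1) < ⊤) :=
      ⟨(measure_mono inter_subset_right).trans_lt measure_ball_lt_top⟩
    exact ⟨V ∩ ball c 1, mem_nhdsWithin_of_mem_nhds (inter_mem hV (ball_mem_nhds c one_pos)),
      ((h1 l).mono_measure (Measure.restrict_mono_set _ inter_subset_left)).integrable
        (ENNReal.one_le_ofReal.2 p1.le)⟩
  obtain ⟨V, hV, h1⟩ := hg c hc
  refine ⟨V, hV, fun ρ hρ δ κ σ K l => contDiff_zero.2 (cv_ct q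
    ((K.lq _ _ q hp l).comp_measurePreserving (Measure.measurePreserving_neg volume))
    (K.itg l).comp_neg.locallyIntegrable ?_)⟩
  have h2 := (memLp_indicator_iff_restrict measurableSet_closedBall).2
    ((h1 l).mono_measure (Measure.restrict_mono_set _ fun z hz => (hρ hz).2))
  have e : (fun z => ρ z * g l z) = fun z => ρ z * (closedBall c ρ.rOut).indicator (g l) z := by
    funext z
    by_cases hz : z ∈ closedBall c ρ.rOut
    · rw [indicator_of_mem hz]
    · simp only [out_bump ρ z fun k => hz (ball_subset_closedBall k), zero_mul]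
  rw [e]
  refine h2.of_le ((cd_bump ρ).continuous.aestronglyMeasurable.mul h2.1) (.of_forall fun z => ?_)
  rw [norm_mul, norm_real, Real.norm_of_nonneg ρ.nonneg]
  exact mul_le_of_le_one_left (norm_nonneg _) ρ.le_one

/-- The lemma of Dolbeault in finite class. -/
theorem dolk {a : Fin n → E n → ℂ} {R : ℝ} {k : ℕ∞} (hn : 0 < n) (hk : 1 ≤ k) (hR : 0 < R)
    (ha : ∀ l, ContDiffOn ℝ k (a l) (ball c R))
    (hcl : ∀ z ∈ ball c R, ∀ i j, dzb i (a j) z = dzb j (a i) z) :
    ∃ r, 0 < r ∧ r ≤ R ∧ ∃ G : E n → ℂ, ContDiffOn ℝ k G (ball c r) ∧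
      ∀ z ∈ ball c r, ∀ i, dzb i G z = a i z := by
  obtain ⟨δ, rfl⟩ : ∃ δ, R = 4 * δ := ⟨R / 4, by ring⟩
  have d0 : 0 < δ := by linarith
  let ρ : ContDiffBump c := ⟨δ + δ, 3 * δ, by linarith, by linarith⟩
  obtain ⟨κ, σ, K⟩ := ker hn d0
  set b : Fin n → E n → ℂ := fun l z => ρ z * a l z with hb
  have b1 : ∀ l, ContDiff ℝ k (b l) := fun l =>
    cd_cut ρ isOpen_ball (closedBall_subset_ball (by show 3 * δ < _; linarith)) (ha l)
  have b1' : ∀ l, ContDiff ℝ 1 (b l) := fun l => (b1 l).of_le (by exact_mod_cast hk)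
  have b2 : ∀ l, HasCompactSupport (b l) := fun l => (hc_of (out_bump ρ)).mul_right
  have b3 : ∀ z ∈ ball c (δ + δ), ∀ l, b l =ᶠ[𝓝 z] a l := fun z hz l => by
    filter_upwards [isOpen_ball.mem_nhds hz] with w hw
    simp only [hb, ρ.one_of_mem_closedBall (ball_subset_closedBall hw), ofReal_one, one_mul]
  have b4 : ∀ i j, ∀ z ∈ ball c (δ + δ), dzb i (b j) z = dzb j (b i) z := fun i j z hz => by
    rw [dzb_congr (b3 z hz j), dzb_congr (b3 z hz i), hcl z (ball_subset_ball (by linarith) hz)]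
  have li := fun l => (K.itg l).locallyIntegrable
  have lσ := K.sm.continuous.locallyIntegrable (μ := volume)
  obtain ⟨r, r0, r1, ψ, hψ⟩ := VF72.dolb (a := fun l => cv σ (b l)) (c := c) d0
    (fun l z _ => (cv_cd' K.sm (hc_of K.out') (b1 l).continuous.locallyIntegrable).contDiffAt)
    fun z hz i j => by
      rw [cv_dzb lσ (b1' j) (b2 j), cv_dzb lσ (b1' i) (b2 i), cv_congr K.out' (b4 i j) hz]
  have g1 := fun l => cv_cd (li l) (b1' l) (b2 l)
  refine ⟨r, r0, by linarith, fun z => ∑ l, cv (κ l) (b l) z - ψ z, fun z hz =>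
    ((ContDiff.sum fun l _ => cv_cd (li l) (b1 l) (b2 l)).contDiffAt.sub
      ((hψ z hz).1.of_le (by exact_mod_cast le_top))).contDiffWithinAt, fun z hz i => ?_⟩
  have hz' := ball_subset_ball r1 hz
  rw [dzb_sub (DifferentiableAt.fun_sum fun l _ => (g1 l).differentiable one_ne_zero z)
    (cd_diff (hψ z hz).1), dzb_sum fun l _ => (g1 l).differentiable one_ne_zero z, (hψ z hz).2,
    ← (b3 z (ball_subset_ball (by linarith) hz') i).eq_of_nhds, K.rep _ (b1' i) z]
  refine congrArg (· - _) (Finset.sum_congr rfl fun l _ => ?_)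
  rw [cv_dzb (li l) (b1' l) (b2 l), cv_congr (K.out l) (b4 i l) hz']

end Pool.Agent.Lib.F4.K13
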