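import Pool.Agent.Lib.F4.BlueD0
import Pool.Agent.Lib.F4.K13

/-! Project f4: a real function with a continuous weak gradient is of class `C^1`. -/

open scoped Classical Topology ContDiff Convolution
open Set MeasureTheory Complex Metric Filter

set_option linter.unusedVariables false

noncomputable section

namespace Pool.Agent.Lib.F4.LD

open Pool.Agent.Lib.SV (E)
open Pool.Agent.Lib.HS32

namespace C1W

open K13

variable {n : ℕ}

/-- The real linear form with the given derivatives in the conjugate variables. -/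
def La (b : E n) : E n →L[ℝ] ℝ :=
  ∑ l, reCLM.comp ((2 * b l) • (conjCLE : ℂ →L[ℝ] ℂ).comp (ContinuousLinearMap.proj l))

theorem la_ap (b v : E n) : La b v = ∑ l, (2 * b l * star (v l)).re := by
  simp [La]

theorem cd_la : ContDiff ℝ ∞ (La : E n → _) :=
  ContDiff.sum fun l _ => contDiff_const.clm_comp
    ((contDiff_const.mul (cd_co l)).smul contDiff_const)

theorem fd_la {u : E n → ℝ} {z : E n} (hu : DifferentiableAt ℝ u z) :
    fderiv ℝ u z = La fun l => dzb l (fun w => (u w : ℂ)) z := by
  ext v
  have d : DifferentiableAt ℝ (fun w => (u w : ℂ)) z := ofRealCLM.differentiableAt.comp z hu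
  have h := congrArg re ((fderiv_ofReal hu v).symm.trans (fderiv_eq_sum _ z v))
  rw [ofReal_re, re_sum] at h
  rw [h, la_ap]
  refine Finset.sum_congr rfl fun l _ => ?_
  rw [← star_dzb_ofReal d]
  simp
  ring

theorem dzb_la {u : E n → ℝ} {z b : E n} (hu : HasFDerivAt u (La b) z) (l : Fin n) :
    dzb l (fun w => (u w : ℂ)) z = b l := by
  have e : ∀ a : ℂ, La b (Pi.single l a) = (2 * b l * star a).re := fun a => by
    rw [la_ap, Finset.sum_eq_single l (fun j _ h => by simp [h]) (by simp), Pi.single_eq_same]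
  rw [dzb, fderiv_ofReal hu.differentiableAt, fderiv_ofReal hu.differentiableAt, hu.fderiv, e, e]
  apply Complex.ext <;> simp

theorem key {U : Set (E n)} {f : E n → ℝ} {b : Fin n → E n → ℂ} (hU : IsOpen U)
    (hf : ContinuousOn f U) (hb : ∀ l, ContinuousOn (b l) U) (hw : WDb U (fun z => (f z : ℂ)) b)
    {c : E n} (hc : c ∈ U) : HasFDerivAt f (La fun l => b l c) c := by
  obtain ⟨R, R0, hR⟩ := nhds_basis_closedBall.mem_iff.1 (hU.mem_nhds hc)
  obtain ⟨r, rfl⟩ : ∃ r, R = r + r := ⟨R / 2, by ring⟩
  have r0 : 0 < r := by linarith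
  set K := closedBall c (r + r) with hK
  have kc : IsCompact K := isCompact_closedBall _ _
  let φ : ℕ → ContDiffBump (0 : E n) := fun k =>
    ⟨1 / ((k : ℝ) + 1) / 2, 1 / ((k : ℝ) + 1), by positivity, half_lt_self (by positivity)⟩
  have hφ : Tendsto (fun k => (φ k).rOut) atTop (𝓝 0) := tendsto_one_div_add_atTop_nhds_zero_nat
  let N : ℕ → E n → ℂ := fun k t => ((φ k).normed volume t : ℝ)
  have N1 : ∀ k, ContDiff ℝ ∞ (N k) := fun k => ofRealCLM.contDiff.comp (φ k).contDiff_normed
  have N0 : ∀ k, ∀ t ∉ ball (0 : E n) (φ k).rOut, N k t = 0 := fun k t ht =>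
    ofReal_eq_zero.2 (Function.notMem_support.1 (by rwa [(φ k).support_normed_eq]))
  have lim : ∀ {g : E n → ℂ}, ContinuousOn g U → ∀ x ∈ ball c (r + r),
      Tendsto (fun p : ℕ × E n => cv (K.indicator g) (N p.1) p.2) (atTop ×ˢ 𝓝 x) (𝓝 (g x)) :=
    fun {g} hg x hx => by
    have h1 : ContinuousAt (K.indicator g) x :=
      (hg.continuousAt (hU.mem_nhds (hR (ball_subset_closedBall hx)))).congr (by
        filter_upwards [isOpen_ball.mem_nhds hx] with y hy
        rw [indicator_of_mem (ball_subset_closedBall hy)])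
    have h2 := ContDiffBump.convolution_tendsto_right (μ := volume) (φ := fun p : ℕ × E n => φ p.1)
      (g := fun _ => K.indicator g) (k := Prod.snd) (hφ.comp tendsto_fst) (.of_forall fun _ =>
        (aestronglyMeasurable_indicator_iff kc.measurableSet).2
          ((hg.mono hR).aestronglyMeasurable kc.measurableSet))
      (h1.tendsto.comp tendsto_snd) (tendsto_snd (f := atTop))
    rw [indicator_of_mem (ball_subset_closedBall hx)] at h2
    refine h2.congr fun p => ?_
    rw [convolution_eq_swap, cv_def]
    exact integral_congr_ae (.of_forall fun t => by simp [N, mul_comm])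
  have fc : ContinuousOn (fun z => (f z : ℂ)) U := continuous_ofReal.comp_continuousOn hf
  set W := K.indicator fun z => (f z : ℂ) with hW
  have Wi : LocallyIntegrable W := ((integrable_indicator_iff kc.measurableSet).2
    ((fc.mono hR).integrableOn_compact kc)).locallyIntegrable
  have N1' : ∀ k, ContDiff ℝ 1 (N k) := fun k => (N1 k).of_le (by simp)
  have re1 : ∀ k, (fun y => ((cv W (N k) y).re : ℂ)) = cv W (N k) := fun k => funext fun y => by
    have : cv W (N k) y = ((∫ t, K.indicator f t * (φ k).normed volume (y - t) : ℝ) : ℂ) := by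
      rw [cv_def, ← integral_complex_ofReal]
      refine integral_congr_ae (.of_forall fun t => ?_)
      by_cases h : t ∈ K <;> simp [hW, N, h]
    rw [this, ofReal_re]
  have D : ∀ k, Differentiable ℝ fun y => (cv W (N k) y).re := fun k =>
    reCLM.differentiable.comp ((cv_cd Wi (N1' k) (hc_of (N0 k))).differentiable one_ne_zero)
  refine hasFDerivAt_of_tendstoUniformlyOnFilter (l := atTop) (g' := fun _ => La fun l => b l c)
    (f := fun k y => (cv W (N k) y).re)
    (f' := fun k y => La fun l => cv (K.indicator (b l)) (N k) y) (tendsto_prod_filter_iff.1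
      ((cd_la.continuous.tendsto _).comp (tendsto_pi_nhds.2 fun l =>
        lim (hb l) c (mem_ball_self R0)))) ?_ ?_
  · filter_upwards [(hφ.eventually (gt_mem_nhds r0)).prod_mk (ball_mem_nhds c r0)] with p hp
    obtain ⟨k, y⟩ := p
    have h1 := (D k y).hasFDerivAt
    rw [fd_la (D k y), re1] at h1
    refine h1.congr_fderiv (congrArg La (funext fun l => ?_))
    have o : ∀ t ∉ ball y (φ k).rOut, N k (y - t) = 0 := fun t ht => N0 k _ fun h => ht (by
      rwa [mem_ball_zero_iff, ← dist_eq_norm, dist_comm] at h)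
    have s : tsupport (fun t => N k (y - t)) ⊆ K := (ts_of o).trans
      (closedBall_subset_closedBall' (by linarith [hp.1, mem_ball.1 hp.2]))
    have h2 := hw _ ((N1 k).comp (contDiff_const.sub contDiff_id)) (hc_of o) (s.trans hR) l
    have h3 := fun t => dzb_shift ((N1' k).differentiable one_ne_zero) l y t
    have e1 : ∫ t, W t * dzb l (N k) (y - t) = -∫ t, (f t : ℂ) * dzb l (fun t => N k (y - t)) t := by
      rw [← integral_neg]
      refine integral_congr_ae (.of_forall fun t => ?_)
      by_cases h : t ∈ K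
      · simp only [hW, indicator_of_mem h, h3, mul_neg, neg_neg]
      · simp only [hW, indicator_of_notMem h, dzb_out (fun q => h (s q)) l, zero_mul, mul_zero,
          neg_zero]
    rw [cv_dzb Wi (N1' k) (hc_of (N0 k)), cv_def, cv_def, e1]
    refine (neg_eq_iff_eq_neg.2 h2).trans (integral_congr_ae (.of_forall fun t => ?_))
    by_cases h : t ∈ K
    · simp only [indicator_of_mem h, Function.comp, id]
    · have : N k (y - t) = 0 :=
        image_eq_zero_of_notMem_tsupport (f := fun t => N k (y - t)) fun q => h (s q)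
      simp only [this, Function.comp, id, mul_zero]
  · filter_upwards [ball_mem_nhds c R0] with y hy
    exact (continuous_re.tendsto _).comp ((lim fc y hy).comp
      (tendsto_id.prodMk (tendsto_const_nhds (x := y))))

theorem wdb {U : Set (E n)} {h : E n → ℂ} {g : Fin n → E n → ℂ} (hw : Wd U h g) : WDb U h g :=
  fun ψ p1 p2 p3 l => by
  have e := hw ψ ⟨p1, p2, p3⟩ l
  rwa [setIntegral_eq_integral_of_forall_compl_eq_zero fun z hz => by
    rw [dzb_out (fun q => hz (p3 q)) l, mul_zero], setIntegral_eq_integral_of_forall_compl_eq_zero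
    fun z hz => by rw [image_eq_zero_of_notMem_tsupport fun q => hz (p3 q), mul_zero]] at e

end C1W

open C1W K13 in
theorem st_C1W : St_C1W := by
  intro n U w b hU hi hb hw
  have hw := wdb hw
  obtain ⟨f, f1, f2⟩ : ∃ f : E n → ℝ, ContinuousOn f U ∧ ∀ᵐ z, z ∈ U → f z = w z := by
    rcases n.eq_zero_or_pos with rfl | hn
    · exact ⟨w, (continuous_of_const fun x y => congrArg w (Subsingleton.elim x y)).continuousOn,
        .of_forall fun _ _ => rfl⟩
    obtain ⟨F, h1, h2⟩ := kerB (k := 0) hn hU (IntegrableOn.locallyIntegrableOn hi.ofReal)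
      (fun l => contDiffOn_zero.2 (hb l)) hw
    exact ⟨fun z => (F z).re, continuous_re.comp_continuousOn h1.continuousOn,
      h2.mono fun z hz hm => congrArg re (hz hm)⟩
  have D : ∀ c ∈ U, HasFDerivAt f (La fun l => b l c) c := fun c hc =>
    key hU f1 hb (fun ψ p1 p2 p3 l => (integral_congr_ae (f2.mono fun z hz => by
      by_cases h : z ∈ U
      · simp only [hz h]
      · simp only [dzb_out (fun q => h (p3 q)) l, mul_zero])).trans (hw ψ p1 p2 p3 l)) hc
  have A : ∀ m : ℕ, (∀ l, ContDiffOn ℝ m (b l) U) → ContDiffOn ℝ (m + 1 : ℕ) f U := fun m hm => by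
    rw [Nat.cast_add, Nat.cast_one, contDiffOn_succ_iff_fderiv_of_isOpen hU]
    exact ⟨fun c hc => (D c hc).differentiableAt.differentiableWithinAt, fun h => absurd h (by simp),
      ((cd_la.of_le (by exact_mod_cast le_top)).comp_contDiffOn (contDiffOn_pi.2 hm)).congr
        fun c hc => (D c hc).fderiv⟩
  exact ⟨f, f2, by simpa using A 0 fun l => contDiffOn_zero.2 (hb l),
    fun l z hz => dzb_la (D z hz) l, A⟩

end Pool.Agent.Lib.F4.LD
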