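import Pool.Agent.Lib.F4.BlueD0
import Pool.Agent.Lib.HS32.MAll

/-! Project f4: comparison of the measure and of the norms with the flat ones on a coordinate
ball. -/

open scoped Classical Topology ContDiff ComplexOrder Matrix ENNReal
open Set MeasureTheory Complex Metric Filter

noncomputable section

namespace Pool.Agent.Lib.F4.LD

open Pool.Agent.Lib.SV (E)
open Pool.Agent.Lib.HS32

namespace C33

variable {n : ℕ} {H A R : Mat n} {C : ℝ}

theorem inv_lo (hH : H.PosDef) (hC : 0 < C) (h : (C • (1 : Mat n) - H).PosSemidef) :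
    (C • H⁻¹ - 1).PosSemidef := by
  have hu : IsUnit H.det := (Mf.pd_det_ne hH).isUnit
  have hX : (C • H⁻¹ - 1)ᴴ = C • H⁻¹ - 1 :=
    ((Mf.herm_rsmul hH.inv.1 C).sub Matrix.isHermitian_one).eq
  have h1 := (hH.posSemidef.conjTranspose_mul_mul_same (C • H⁻¹ - 1)).add h
  have h2 : (C • H⁻¹ - 1)ᴴ * H * (C • H⁻¹ - 1) + (C • (1 : Mat n) - H) = C • (C • H⁻¹ - 1) := by
    rw [hX, Matrix.sub_mul, Matrix.smul_mul, Matrix.nonsing_inv_mul _ hu, Matrix.one_mul,
      Matrix.mul_sub, Matrix.mul_one, Matrix.mul_smul, Matrix.sub_mul, Matrix.smul_mul,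
      Matrix.one_mul, Matrix.mul_nonsing_inv _ hu]
    abel
  rw [h2] at h1
  have h3 := Mf.psd_rsmul h1 (inv_nonneg.2 hC.le)
  rwa [smul_smul, inv_mul_cancel₀ hC.ne', one_smul] at h3

theorem tr_lo {P : Mat n} (hP : (C • P - 1).PosSemidef) (hA : A.PosSemidef) :
    A.trace.re ≤ C * (P * A).trace.re := by
  have h := BLAP.tr_nonneg hP hA
  rw [Matrix.sub_mul, Matrix.smul_mul, Matrix.one_mul, Matrix.trace_sub, Matrix.trace_smul,
    sub_re, smul_re, smul_eq_mul] at h
  linarith

theorem dg_le (hA : A.PosSemidef) (k : Fin n) : (A k k).re ≤ A.trace.re := by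
  rw [Matrix.trace, re_sum]
  exact Finset.single_le_sum (f := fun i => (A.diag i).re)
    (fun i _ => (Complex.nonneg_iff.1 (hA.diag_nonneg (i := i))).1) (Finset.mem_univ k)

theorem en_le (R : Mat n) (l k : Fin n) : ‖R l k‖ ^ 2 ≤ (Rᴴ * R).trace.re := by
  refine le_trans ?_ (dg_le (Matrix.posSemidef_conjTranspose_mul_self R) k)
  have h : ∀ i, (Rᴴ k i * R i k).re = ‖R i k‖ ^ 2 := fun i => by
    rw [Matrix.conjTranspose_apply, Complex.star_def, ← Complex.normSq_eq_conj_mul_self,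
      ofReal_re, Complex.normSq_eq_norm_sq]
  rw [Matrix.mul_apply, re_sum, Finset.sum_congr rfl fun i _ => h i]
  exact Finset.single_le_sum (f := fun i => ‖R i k‖ ^ 2) (fun i _ => sq_nonneg _)
    (Finset.mem_univ l)

theorem ip_lo (hH : H.PosDef) (hC : 0 < C) (h : (C • (1 : Mat n) - H).PosSemidef)
    (hR : R.IsHermitian) (l k : Fin n) :
    ‖R l k‖ ^ 2 ≤ C ^ 2 * (H⁻¹ * R * H⁻¹ * R).trace.re := by
  have hP := inv_lo hH hC h
  have h1 := tr_lo hP (hH.inv.posSemidef.conjTranspose_mul_mul_same R)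
  have h2 := tr_lo hP (Matrix.posSemidef_self_mul_conjTranspose R)
  have h3 := en_le R l k
  rw [hR.eq] at h1 h2 h3
  rw [Matrix.trace_mul_cycle, Matrix.trace_mul_comm, ← Matrix.mul_assoc, ← Matrix.mul_assoc,
    ← Matrix.mul_assoc] at h1
  rw [← Matrix.mul_assoc] at h2
  have h4 := mul_le_mul_of_nonneg_left h1 hC.le
  calc _ ≤ _ := h3
    _ ≤ _ := h2
    _ ≤ _ := h4
    _ = _ := by ring

theorem mu_le {M : Mf n} [M.Cpt] {G : M.Fam (Mat n)} (hG : M.Met G) {e : M.Ch} (he : e ∈ M.C)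
    {B : Set (E n)} (hB : MeasurableSet B) (hs : B ⊆ e.target) (hC : 0 < C)
    (hd : ∀ z ∈ B, C⁻¹ ≤ (G e z).det.re) :
    (volume.restrict B).map e.symm ≤ ENNReal.ofReal C • M.mu G := by
  have ha : AEMeasurable e.symm (volume.restrict B) :=
    (e.continuousOn_symm.mono hs).aemeasurable hB
  obtain ⟨-, h1, -⟩ := (mMU n M G hG).2.2.2.2.2.1 e he B hB hs
  refine Measure.le_iff.2 fun s hm => ?_
  have hi : Measurable (s.indicator (1 : M.X → ℝ≥0∞)) := measurable_one.indicator hm
  rw [← lintegral_indicator_one hm, lintegral_map' hi.aemeasurable ha, Measure.smul_apply,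
    smul_eq_mul, ← lintegral_indicator_one hm]
  calc ∫⁻ z in B, s.indicator 1 (e.symm z)
      ≤ ∫⁻ z in B, ENNReal.ofReal C * (ENNReal.ofReal (G e z).det.re *
          s.indicator 1 (e.symm z)) := by
        refine setLIntegral_mono' hB fun z hz => ?_
        rw [← mul_assoc, ← ENNReal.ofReal_mul hC.le]
        refine le_mul_of_one_le_left' (ENNReal.one_le_ofReal.2 ?_)
        have := mul_le_mul_of_nonneg_left (hd z hz) hC.le
        rwa [mul_inv_cancel₀ hC.ne'] at this
    _ = ENNReal.ofReal C * ∫⁻ x in e.symm '' B, s.indicator 1 x ∂M.mu G := by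
        rw [lintegral_const_mul' _ _ ENNReal.ofReal_ne_top, h1]
    _ ≤ _ := mul_le_mul_right (setLIntegral_le_lintegral _ _) _

end C33

open C33

theorem st_CH2 : St_CH2 := by
  intro n M _ H hH e he c r hs
  obtain ⟨C, hC, hb⟩ := (mBD n M H hH).2.2.1 e he _ (isCompact_closedBall c r) hs
  have hC0 : 0 < C := one_pos.trans_le hC
  have hC2 : C ≤ C ^ 2 := le_self_pow₀ hC two_ne_zero
  have hs' : ball c r ⊆ e.target := ball_subset_closedBall.trans hs
  have ha : AEMeasurable e.symm (volume.restrict (ball c r)) :=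
    (e.continuousOn_symm.mono hs').aemeasurable measurableSet_ball
  have hm := mu_le hH he measurableSet_ball hs' hC0
    fun z hz => (hb z (ball_subset_closedBall hz)).2.2.1
  refine ⟨C ^ 2, sq_nonneg C, fun u p _ hu =>
    (hu.of_measure_le_smul ENNReal.ofReal_ne_top hm).comp_of_map ha, fun u hu hi h0 => ⟨
    (hi.of_measure_le_smul ENNReal.ofReal_ne_top hm).comp_aemeasurable ha, ?_⟩,
    fun z hz => ⟨fun R hR l k => ?_, fun v hv k => ?_⟩⟩
  · have h1 := integral_mono_measure hm (Eventually.of_forall h0)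
      (hi.smul_measure ENNReal.ofReal_ne_top)
    rw [integral_map ha hu.aestronglyMeasurable, integral_smul_measure,
      ENNReal.toReal_ofReal hC0.le, smul_eq_mul] at h1
    exact h1.trans (mul_le_mul_of_nonneg_right hC2 (integral_nonneg h0))
  · rw [((mINV n M H hH).2.2.1 R R hR.toTen hR.toTen).1 e he z (hs hz)]
    exact ip_lo (hH.pos e he z (hs hz)) hC0 (hb z hz).2.1 (hR.herm e he z (hs hz)) l k
  · obtain ⟨hf, hp⟩ := (mHES n M).2.2.1 v hv
    have hA : (M.ds v v e z).PosSemidef := by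
      have : (M.ds v v e z - 0).PosSemidef := hp e he z (hs hz)
      rwa [sub_zero] at this
    have h1 := tr_lo (inv_lo (hH.pos e he z (hs hz)) hC0 (hb z hz).2.1) hA
    have h2 := dg_le hA k
    have h3 : (M.ds v v e z k k).re = ‖dz k (M.lc v e) z‖ ^ 2 := by
      have h4 : star (dz k (M.lc v e) z) = dzb k (M.lc v e) z :=
        star_dz_ofReal (u := fun w => v (e.symm w)) (cd_diff (hv.lc e he z (hs hz)))
      show (dzb k (M.lc v e) z * dz k (M.lc v e) z).re = _
      rw [← h4, Complex.star_def, ← Complex.normSq_eq_conj_mul_self, ofReal_re,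
        Complex.normSq_eq_norm_sq]
    have h5 := Mf.trace_inv_mul_nonneg (hH.pos e he z (hs hz)) hA
    rw [Mf.gr, ((mINV n M H hH).1 _ hf.toTen).1 e he z (hs hz), ← h3]
    exact (h2.trans h1).trans (mul_le_mul_of_nonneg_right hC2 h5)

end Pool.Agent.Lib.F4.LD
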