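import Pool.Agent.Lib.F4.BlueD
import Pool.Agent.Lib.HS32.MKit

/-! Project f4: functions of finite class. -/

open scoped Classical Topology ContDiff ComplexOrder Matrix ENNReal
open Set MeasureTheory Complex Metric Filter

set_option linter.unusedVariables false

noncomputable section

namespace Pool.Agent.Lib.F4.LD

open Pool.Agent.Lib.SV (E)
open Pool.Agent.Lib.HS32
open Pool.Agent.Lib.EXH (aw)

namespace Ckk37

variable {n : ℕ} {z : E n} {f g : E n → ℂ}

theorem diff_dz (h : ContDiffAt ℝ 2 f z) (j : Fin n) : DifferentiableAt ℝ (dz j f) z := by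
  have d : ∀ v : E n, DifferentiableAt ℝ (fun w => fderiv ℝ f w v) z := fun v =>
    (((h.fderiv_right (m := 1) (by norm_num)).clm_apply contDiffAt_const).differentiableAt
      (by simp))
  have e : dz j f = fun w =>
      (fderiv ℝ f w (Pi.single j 1) - I * fderiv ℝ f w (Pi.single j I)) * (2 : ℂ)⁻¹ := by
    funext w
    rw [dz, div_eq_mul_inv]
  rw [e]
  exact ((d _).sub ((d _).const_mul I)).mul_const _

theorem hess_add2 (hf : ContDiffAt ℝ 2 f z) (hg : ContDiffAt ℝ 2 g z) :
    hess (fun w => f w + g w) z = hess f z + hess g z := by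
  ext i j
  have ev : dz j (fun w => f w + g w) =ᶠ[𝓝 z] fun w => dz j f w + dz j g w := by
    filter_upwards [hf.eventually (by simp), hg.eventually (by simp)] with w a b
    exact dz_add (a.differentiableAt (by simp)) (b.differentiableAt (by simp))
  simp only [hess_apply, Matrix.add_apply]
  rw [dzb_congr ev, dzb_add (diff_dz hf j) (diff_dz hg j)]

theorem ck_cont {M : Mf n} {k : ℕ} {u : M.X → ℝ} (h : Ck M k u) : Continuous u := by
  refine continuous_iff_continuousAt.2 fun x => ?_
  have h1 : ContinuousAt (u ∘ (M.ch x).symm) (M.ch x x) := (Mf.AllOn.ch h x).continuousAt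
  refine (h1.comp ((M.ch x).continuousAt (Mf.mem_ch x))).congr ?_
  filter_upwards [(M.ch x).open_source.mem_nhds (Mf.mem_ch x)] with y hy
  simp only [Function.comp_apply, (M.ch x).left_inv hy]

end Ckk37

open Ckk37 in
theorem st_CKK : St_CKK := by
  intro n M k u
  refine ⟨fun h e he z hz => cd_le (h e he z hz) k,
    fun h e he z hz => (h e he z hz).of_le (by exact_mod_cast Nat.le_succ k),
    fun h => ⟨ck_cont h, fun e he z hz => (h e he z hz).neg.exp,
      fun c e he z hz => contDiffAt_const.mul (h e he z hz),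
      fun w hw => ⟨fun e he z hz => (h e he z hz).add (hw e he z hz),
        fun e he z hz => (h e he z hz).sub (hw e he z hz)⟩, fun φ hφ => ⟨⟨fun e he z hz =>
          (cd_le (hφ.sm e he z hz) k).add (h e he z hz), fun e he e' he' x hx hx' => ?_⟩,
        fun hk e he z hz => ?_⟩⟩⟩
  · have q := hφ.cmp e he e' he' x hx hx'
    simp only [aw, Pi.add_apply, e.left_inv hx, e'.left_inv hx']
    simp only [jd] at *
    rw [q]
    ring
  · have a : ContDiffAt ℝ 2 (fun w => (φ e w : ℂ)) z := cd_le (cd_ofReal (hφ.sm e he z hz)) 2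
    have b : ContDiffAt ℝ 2 (fun w => (u (e.symm w) : ℂ)) z :=
      ofRealCLM.contDiff.contDiffAt.comp z ((h e he z hz).of_le (by exact_mod_cast hk))
    have q := hess_add2 a b
    simp only [Mf.hw, Mf.hs, aw, Pi.add_apply, ofReal_add]
    exact q

end Pool.Agent.Lib.F4.LD
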