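import Pool.Agent.Lib.F4.BlueD0
import Pool.Agent.Lib.HS32.EKit

/-! Project f4, row EU1: the weak equations of the limit on a ball. -/

open scoped Classical Topology ContDiff ComplexOrder Matrix ENNReal
open Set MeasureTheory Complex Metric Filter

set_option linter.unusedVariables false

noncomputable section

namespace Pool.Agent.Lib.F4.LD

open Pool.Agent.Lib.SV (E)
open Pool.Agent.Lib.HS32

namespace EU69

section abs

variable {X : Type} [MeasurableSpace X] {μ : Measure X}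

theorem nsq {f g : X → ℂ} (hf : MemLp f 2 μ) (hg : MemLp g 2 μ) :
    ‖hf.toLp f - hg.toLp g‖ ^ 2 = ∫ x, ‖f x - g x‖ ^ 2 ∂μ := by
  rw [← real_inner_self_eq_norm_sq, L2.inner_def]
  refine integral_congr_ae ?_
  filter_upwards [Lp.coeFn_sub (hf.toLp f) (hg.toLp g), hf.coeFn_toLp, hg.coeFn_toLp]
    with x h0 h1 h2
  rw [h0, Pi.sub_apply, h1, h2, real_inner_self_eq_norm_sq]

theorem tend {f : ℕ → X → ℂ} {F : X → ℂ} (hf : ∀ j, MemLp (f j) 2 μ) (hF : MemLp F 2 μ) :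
    Tendsto (fun j => (hf j).toLp (f j)) atTop (𝓝 (hF.toLp F)) ↔
      Tendsto (fun j => ∫ x, ‖f j x - F x‖ ^ 2 ∂μ) atTop (𝓝 0) := by
  rw [tendsto_iff_norm_sub_tendsto_zero]
  constructor
  · intro h
    have h2 := h.pow 2
    rw [zero_pow two_ne_zero] at h2
    exact h2.congr fun j => nsq (hf j) hF
  · intro h
    have h2 := h.sqrt
    rw [Real.sqrt_zero] at h2
    refine h2.congr fun j => ?_
    rw [← nsq (hf j) hF, Real.sqrt_sq (norm_nonneg _)]

theorem pr1 {f φ : X → ℂ} (hf : MemLp f 2 μ) (hφ : MemLp (star φ) 2 μ) :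
    inner ℂ (hφ.toLp (star φ)) (hf.toLp f) = ∫ x, f x * φ x ∂μ := by
  rw [L2.inner_def]
  refine integral_congr_ae ?_
  filter_upwards [hf.coeFn_toLp, hφ.coeFn_toLp] with x h1 h2
  rw [h1, h2, RCLike.inner_apply]
  simp

theorem pair {f : ℕ → X → ℂ} {F φ : X → ℂ} (hf : ∀ j, MemLp (f j) 2 μ) (hF : MemLp F 2 μ)
    (hφ : MemLp φ 2 μ) (h : Tendsto (fun j => ∫ x, ‖f j x - F x‖ ^ 2 ∂μ) atTop (𝓝 0)) :
    Tendsto (fun j => ∫ x, f j x * φ x ∂μ) atTop (𝓝 (∫ x, F x * φ x ∂μ)) := by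
  have h1 := (tend hf hF).2 h
  have h2 : Tendsto (fun j => inner ℂ (hφ.star.toLp (star φ)) ((hf j).toLp (f j))) atTop
      (𝓝 (inner ℂ (hφ.star.toLp (star φ)) (hF.toLp F))) := tendsto_const_nhds.inner h1
  rw [pr1 hF hφ.star] at h2
  exact h2.congr fun j => pr1 (hf j) hφ.star

theorem cau {f : ℕ → X → ℂ} (hf : ∀ j, MemLp (f j) 2 μ)
    (h : ∀ ε : ℝ, 0 < ε → ∃ N, ∀ i j, N ≤ i → N ≤ j → ∫ x, ‖f i x - f j x‖ ^ 2 ∂μ ≤ ε) :
    ∃ F, MemLp F 2 μ ∧ Tendsto (fun j => ∫ x, ‖f j x - F x‖ ^ 2 ∂μ) atTop (𝓝 0) := by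
  have hc : CauchySeq fun j => (hf j).toLp (f j) := by
    rw [Metric.cauchySeq_iff]
    intro ε hε
    obtain ⟨N, hN⟩ := h ((ε / 2) ^ 2) (by positivity)
    refine ⟨N, fun i hi j hj => ?_⟩
    have h1 := hN i j hi hj
    rw [← nsq (hf i) (hf j)] at h1
    rw [dist_eq_norm]
    have h2 := (pow_le_pow_iff_left₀ (norm_nonneg _) (by positivity) two_ne_zero).1 h1
    linarith
  obtain ⟨G, hG⟩ := cauchySeq_tendsto_of_complete hc
  refine ⟨G, Lp.memLp G, (tend hf (Lp.memLp G)).1 ?_⟩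
  rwa [Lp.toLp_coeFn]

end abs

variable {n : ℕ}

theorem fin (c : E n) (r : ℝ) : IsFiniteMeasure (volume.restrict (ball c r)) :=
  ⟨by rw [Measure.restrict_apply_univ]; exact measure_ball_lt_top⟩

theorem mem {c : E n} {r : ℝ} {f : E n → ℂ} (hf : ∀ z ∈ closedBall c r, ContinuousAt f z) :
    MemLp f 2 (volume.restrict (ball c r)) := by
  haveI := fin c r
  have hc : ContinuousOn f (closedBall c r) := fun z hz => (hf z hz).continuousWithinAt
  obtain ⟨C, hC⟩ := (isCompact_closedBall c r).exists_bound_of_continuousOn hc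
  refine MemLp.of_bound
    ((hc.mono ball_subset_closedBall).aestronglyMeasurable measurableSet_ball) C ?_
  filter_upwards [ae_restrict_mem measurableSet_ball] with z hz
  exact hC z (ball_subset_closedBall hz)

/-- Weak derivatives pass to the limit in `L^2`. -/
theorem wd_lim {c : E n} {r : ℝ} {f : ℕ → E n → ℂ} {F : E n → ℂ} {G : Fin n → E n → ℂ}
    (hW : St_WPT) (hf : ∀ j, ∀ z ∈ closedBall c r, ContDiffAt ℝ ∞ (f j) z)
    (hF : MemLp F 2 (volume.restrict (ball c r)))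
    (hG : ∀ l, MemLp (G l) 2 (volume.restrict (ball c r)))
    (h0 : Tendsto (fun j => ∫ z in ball c r, ‖f j z - F z‖ ^ 2) atTop (𝓝 0))
    (h1 : ∀ l, Tendsto (fun j => ∫ z in ball c r, ‖dzb l (f j) z - G l z‖ ^ 2) atTop (𝓝 0)) :
    Wd (ball c r) F G := by
  intro ψ hψ l
  have hs : ∀ z, ContDiffAt ℝ ∞ ψ z := fun z => hψ.1.contDiffAt
  have a0 := pair (fun j => mem fun z hz => (hf j z hz).continuousAt) hF
    (mem fun z _ => (cd_dzb (hs z) l).continuousAt) h0
  have a1 := (pair (fun j => mem fun z hz => (cd_dzb (hf j z hz) l).continuousAt) (hG l)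
    (mem fun z _ => (hs z).continuousAt) (h1 l)).neg
  refine tendsto_nhds_unique a0 (a1.congr fun j => ?_)
  have hc : ContDiffOn ℝ 1 (f j) (ball c r) := fun z hz =>
    (cd_le (hf j z (ball_subset_closedBall hz)) 1).contDiffWithinAt
  exact ((hW n (ball c r) (f j) isOpen_ball hc).1 ψ hψ l).symm

end EU69

open EU69

theorem st_EU1 (hWPT : St_WPT) : St_EU1 := by
  intro n c r v w g hn L
  haveI := EU69.fin c r
  have hv : ∀ j, ∀ z ∈ closedBall c r, ContDiffAt ℝ ∞ (fun y => (v j y : ℂ)) z :=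
    fun j z hz => cd_ofReal (L.sm j z hz)
  have hd : ∀ k j, ∀ z ∈ closedBall c r, ContDiffAt ℝ ∞ (dz k fun y => (v j y : ℂ)) z :=
    fun k j z hz => cd_dz (hv j z hz) k
  have ex : ∀ k, ∃ F, MemLp F 2 (volume.restrict (ball c r)) ∧ Tendsto (fun j =>
      ∫ z in ball c r, ‖dz k (fun y => (v j y : ℂ)) z - F z‖ ^ 2) atTop (𝓝 0) := fun k =>
    cau (fun j => mem fun z hz => (hd k j z hz).continuousAt) (L.l1 k)
  choose h hm ht using ex
  refine ⟨h, hm, ?_, fun k => ?_⟩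
  · refine wd_lim hWPT hv L.mw.ofReal (fun l => (hm l).star) (L.l0.congr fun j => ?_) fun l => ?_
    · refine integral_congr_ae (Eventually.of_forall fun z => ?_)
      show (v j z - w z) ^ 2 = ‖(v j z : ℂ) - (w z : ℂ)‖ ^ 2
      rw [← ofReal_sub, norm_real, Real.norm_eq_abs, sq_abs]
    · refine (ht l).congr fun j => integral_congr_ae ?_
      filter_upwards [ae_restrict_mem measurableSet_ball] with z hz
      rw [← star_dz_ofReal (cd_diff (hv j z (ball_subset_closedBall hz))), ← star_sub, norm_star]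
  · refine wd_lim hWPT (hd k) (hm k) (fun l => (L.mg l k).mono_exponent ?_) (ht k)
      fun l => L.l2 l k
    have : 2 ≤ 2 * n + 1 := by omega
    exact_mod_cast this

end Pool.Agent.Lib.F4.LD
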