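import Pool.Agent.Lib.F4.BlueD0
import Pool.Agent.Lib.HS32.EKit

/-! Project f4: regularity of the limit on a ball. -/

open scoped Classical Topology ContDiff ComplexOrder Matrix ENNReal
open Set MeasureTheory Complex Metric Filter

set_option linter.unusedVariables false

noncomputable section

namespace Pool.Agent.Lib.F4.LD

open Pool.Agent.Lib.SV (E)
open Pool.Agent.Lib.HS32

namespace Euc37

variable {n : ℕ}

theorem wd_congr {U : Set (E n)} (hU : IsOpen U) {h h' : E n → ℂ} {g g' : Fin n → E n → ℂ}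
    (hw : Wd U h g) (e1 : ∀ᵐ z, z ∈ U → h' z = h z) (e2 : ∀ l, ∀ᵐ z, z ∈ U → g' l z = g l z) :
    Wd U h' g' := by
  intro ψ hψ l
  have a1 : ∫ z in U, h' z * dzb l ψ z = ∫ z in U, h z * dzb l ψ z :=
    setIntegral_congr_ae hU.measurableSet (e1.mono fun z hz hu => by rw [hz hu])
  have a2 : ∫ z in U, g' l z * ψ z = ∫ z in U, g l z * ψ z :=
    setIntegral_congr_ae hU.measurableSet ((e2 l).mono fun z hz hu => by rw [hz hu])
  rw [a1, a2]
  exact hw ψ hψ l

theorem cdo_star {U : Set (E n)} {f : E n → ℂ} {m : ℕ} (h : ContDiffOn ℝ m f U) :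
    ContDiffOn ℝ m (fun w => star (f w)) U :=
  (conjCLE : ℂ →L[ℝ] ℂ).contDiff.comp_contDiffOn h

theorem fin_ball (c : E n) (r : ℝ) : IsFiniteMeasure (volume.restrict (ball c r)) :=
  ⟨by rw [Measure.restrict_apply_univ]; exact measure_ball_lt_top⟩

end Euc37

open Euc37 in
theorem st_EUC (hK : St_KER) (hC : St_C1W) (hW : St_WPT) (hR : St_WRU) (hE : St_EU1) :
    St_EUC := by
  intro n c r v w g hn L
  obtain ⟨h, h2, hw, hg⟩ := hE n c r v w g hn L
  have := fin_ball c r
  have hB : IsOpen (ball c r) := isOpen_ball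
  have ih : ∀ k, IntegrableOn (h k) (ball c r) := fun k => (h2 k).integrable (by norm_num)
  have ig : ∀ k l, IntegrableOn (fun z => g z l k) (ball c r) := fun k l =>
    (L.mg l k).integrable (by exact_mod_cast Nat.le_add_left 1 (2 * n))
  have iw : IntegrableOn w (ball c r) := L.mw.integrable (by norm_num)
  have K := fun k => hK n (ball c r) (h k) (fun l z => g z l k) hn hB (ih k) (ig k) (hg k)
  choose h1 c1 e1 using fun k => (K k).1 fun l => L.mg l k
  have hw1 : Wd (ball c r) (fun z => (w z : ℂ)) (fun l z => star (h1 l z)) :=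
    wd_congr hB hw (Eventually.of_forall fun z _ => rfl)
      fun l => (e1 l).mono fun z hz hu => by rw [hz hu]
  obtain ⟨w', ew, cw, dw, rw'⟩ := hC n (ball c r) w (fun l z => star (h1 l z)) hB iw
    (fun l => continuous_star.comp_continuousOn (c1 l)) hw1
  have df : ∀ z ∈ ball c r, DifferentiableAt ℝ (fun y => (w' y : ℂ)) z := fun z hz =>
    ofRealCLM.differentiableAt.comp z
      ((cw.contDiffAt (hB.mem_nhds hz)).differentiableAt (by simp))
  have ed : ∀ k, ∀ z ∈ ball c r, dz k (fun y => (w' y : ℂ)) z = h1 k z := fun k z hz => by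
    rw [← star_dzb_ofReal (df z hz), dw k z hz, star_star]
  have hg1 : ∀ k, Wd (ball c r) (h1 k) fun l z => g z l k := fun k =>
    wd_congr hB (hg k) (e1 k) fun l => Eventually.of_forall fun z _ => rfl
  refine ⟨w', ew, cw, fun k => wd_congr hB (hg1 k) (Eventually.of_forall fun z hz => ed k z hz)
    fun l => Eventually.of_forall fun z _ => rfl, fun m hm => ?_⟩
  have s1 : ∀ k, ContDiffOn ℝ (m + 1 : ℕ) (h1 k) (ball c r) := fun k => by
    obtain ⟨h', c', e'⟩ := (K k).2 (m + 1) fun l => hm l k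
    have q : EqOn (h1 k) h' (ball c r) := by
      refine Measure.eqOn_open_of_ae_eq (μ := volume) ?_ hB (c1 k) c'.continuousOn
      refine (ae_restrict_iff' hB.measurableSet).2 ?_
      filter_upwards [e1 k, e'] with z a b hz
      rw [a hz, b hz]
    exact c'.congr q
  refine ⟨rw' (m + 1) fun l => cdo_star (s1 l), fun z hz => ?_⟩
  ext l k
  have q : dz k (fun y => (w' y : ℂ)) =ᶠ[𝓝 z] h1 k :=
    Filter.mem_of_superset (hB.mem_nhds hz) fun y hy => ed k y hy
  have p := (hW n (ball c r) (h1 k) hB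
    ((s1 k).of_le (by exact_mod_cast Nat.le_add_left 1 m))).2 (fun l z => g z l k)
    (fun l => (hm l k).continuousOn) (hg1 k) l z hz
  rw [hess, Matrix.of_apply, dzb_congr q]
  exact p

end Pool.Agent.Lib.F4.LD
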