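import Pool.Agent.Lib.F4.BlueD0
import Pool.Agent.Lib.HS32.MAll

/-! Project f4: existence of the global limit of the approximate solutions. -/

open scoped Classical Topology ContDiff ComplexOrder Matrix ENNReal
open Set MeasureTheory Complex Metric Filter

set_option linter.unusedVariables false

noncomputable section

namespace Pool.Agent.Lib.F4.LD

open Pool.Agent.Lib.SV (E)
open Pool.Agent.Lib.HS32

namespace LM1

/-- The norm in `L^2`. -/
theorem norm_sq_toLp {X : Type} [MeasurableSpace X] {μ : Measure X} {a : X → ℝ}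
    (ha : MemLp a 2 μ) : ‖ha.toLp a‖ ^ 2 = ∫ x, a x ^ 2 ∂μ := by
  rw [← real_inner_self_eq_norm_sq, L2.inner_def]
  refine integral_congr_ae ?_
  filter_upwards [ha.coeFn_toLp] with x h1
  rw [h1, real_inner_self_eq_norm_sq, Real.norm_eq_abs, sq_abs]

/-- A Cauchy sequence in `L^2` converges. -/
theorem l2_lim {X : Type} [MeasurableSpace X] {μ : Measure X} (v : ℕ → X → ℝ)
    (hv : ∀ j, MemLp (v j) 2 μ) (a : ℕ → ℝ) (ha : Tendsto a atTop (𝓝 0))
    (h : ∀ i j, ∫ x, (v i x - v j x) ^ 2 ∂μ ≤ a i + a j) :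
    ∃ w : X → ℝ, Measurable w ∧ MemLp w 2 μ ∧
      Tendsto (fun j => ∫ x, (v j x - w x) ^ 2 ∂μ) atTop (𝓝 0) := by
  have d : ∀ (f g : X → ℝ) (hf : MemLp f 2 μ) (hg : MemLp g 2 μ),
      ‖hf.toLp f - hg.toLp g‖ ^ 2 = ∫ x, (f x - g x) ^ 2 ∂μ := fun f g hf hg => by
    rw [← MemLp.toLp_sub hf hg, norm_sq_toLp]
    rfl
  have c : CauchySeq fun j => (hv j).toLp (v j) := by
    rw [Metric.cauchySeq_iff]
    intro ε hε
    have h2 : 0 < ε ^ 2 / 2 := div_pos (pow_pos hε 2) two_pos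
    obtain ⟨N, hN⟩ := eventually_atTop.1 (ha.eventually (gt_mem_nhds h2))
    refine ⟨N, fun i hi j hj => ?_⟩
    rw [dist_eq_norm]
    refine lt_of_pow_lt_pow_left₀ 2 hε.le ?_
    rw [d]
    have := h i j
    have := hN i hi
    have := hN j hj
    linarith
  obtain ⟨z, hz⟩ := cauchySeq_tendsto_of_complete c
  have hzm := Lp.aestronglyMeasurable z
  have e : (z : X → ℝ) =ᵐ[μ] hzm.mk z := hzm.ae_eq_mk
  have hF : MemLp (hzm.mk z) 2 μ := (Lp.memLp z).ae_eq e
  have ez : z = hF.toLp _ := Lp.ext (e.trans hF.coeFn_toLp.symm)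
  refine ⟨hzm.mk z, hzm.stronglyMeasurable_mk.measurable, hF, ?_⟩
  have t := (tendsto_iff_norm_sub_tendsto_zero.1 hz).pow 2
  rw [zero_pow two_ne_zero] at t
  refine t.congr fun j => ?_
  rw [← d _ _ (hv j) hF, ← ez]

theorem sq_bd {p q s t f b B : ℝ} (hb : b ^ 2 ≤ B) :
    (p - q + (s - t) * b) ^ 2 ≤ 3 * p ^ 2 + 3 * q ^ 2 + 6 * B * (s - f) ^ 2 + 6 * B * (t - f) ^ 2 := by
  have h1 : (p - q + (s - t) * b) ^ 2 ≤ 3 * p ^ 2 + 3 * q ^ 2 + 3 * ((s - t) * b) ^ 2 := by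
    nlinarith [sq_nonneg (p + q), sq_nonneg (p - (s - t) * b), sq_nonneg (q + (s - t) * b)]
  have h2 : (s - t) ^ 2 ≤ 2 * (s - f) ^ 2 + 2 * (t - f) ^ 2 := by
    nlinarith [sq_nonneg (s - f + (t - f))]
  have h3 : ((s - t) * b) ^ 2 ≤ (2 * (s - f) ^ 2 + 2 * (t - f) ^ 2) * B := by
    rw [mul_pow]
    exact mul_le_mul h2 hb (sq_nonneg b) ((sq_nonneg _).trans h2)
  nlinarith

end LM1

open LM1 in
theorem st_LM1 (hPW : St_PW) (hPSD : St_PSD) : St_LM1 := by
  intro n M _ H θ A v fj f hn h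
  have hm : M.Met H := h.kae.toMet
  obtain ⟨-, hfin, -, -, hint, -⟩ := mMU n M H hm
  obtain ⟨C, hC, hP⟩ := hPW n M H hn h.kae
  have inv := mINV n M H hm
  obtain ⟨B, -, hB⟩ := (inv.1 A h.hA.toTen).2.1.exists_bound
  have hB2 : ∀ x, M.tr H A x ^ 2 ≤ B ^ 2 := fun x => by
    rw [← sq_abs]
    exact pow_le_pow_left₀ (abs_nonneg _) (hB x) 2
  have m2 : ∀ u : M.X → ℝ, Continuous u → MemLp u 2 (M.mu H) := fun u hu =>
    (memLp_two_iff_integrable_sq hu.aestronglyMeasurable).2 (hint ℝ _ (hu.pow 2))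
  have hf2 : MemLp f 2 (M.mu H) := h.lp.mono_exponent (by
    have : (2 : ℕ) ≤ 2 * n + 1 := by omega
    exact_mod_cast this)
  let R : ℕ → M.Fam (Mat n) := fun j => θ + M.hs (v j) - fs M (fj j) A
  have hR : ∀ j, M.Form (R j) := fun j =>
    (h.hθ.add ((mHES n M).1 _ (h.sv j)).toForm).sub (h.hA.fsmul (h.sf j))
  have iR : ∀ j, Integrable (M.ip H (R j) (R j)) (M.mu H) := fun j =>
    hint ℝ _ (inv.2.2.1 _ _ (hR j).toTen (hR j).toTen).2.1.continuous
  have iF : ∀ j, Integrable (fun x => (fj j x - f x) ^ 2) (M.mu H) := fun j =>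
    ((m2 _ (h.sf j).continuous).sub hf2).integrable_sq
  let a : ℕ → ℝ := fun j => 3 * n * ∫ x, M.ip H (R j) (R j) x ∂M.mu H +
    6 * B ^ 2 * ∫ x, (fj j x - f x) ^ 2 ∂M.mu H
  have ha : Tendsto a atTop (𝓝 0) := by
    have := (h.lr.const_mul (3 * n : ℝ)).add (h.lf.const_mul (6 * B ^ 2))
    rw [mul_zero, mul_zero, add_zero] at this
    exact this
  have ia : ∀ j, Integrable (fun x => 3 * n * M.ip H (R j) (R j) x +
      6 * B ^ 2 * (fj j x - f x) ^ 2) (M.mu H) := fun j =>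
    ((iR j).const_mul _).add ((iF j).const_mul _)
  have ea : ∀ j, ∫ x, (3 * n * M.ip H (R j) (R j) x + 6 * B ^ 2 * (fj j x - f x) ^ 2) ∂M.mu H =
      a j := fun j => by
    rw [integral_add ((iR j).const_mul _) ((iF j).const_mul _), integral_const_mul,
      integral_const_mul]
  have trR : ∀ j x, M.lap H (v j) x = M.tr H (R j) x - M.tr H θ x + fj j x * M.tr H A x :=
    fun j x => by
      have e1 : M.tr H (R j) x = M.tr H θ x + M.tr H (M.hs (v j)) x - M.tr H (fs M (fj j) A) x := by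
        rw [← Mf.tr_add, ← Mf.tr_sub]
      rw [e1, ((hPSD n M H hm x).2.2 (fj j) A A).1, Mf.lap]
      ring
  have sd : ∀ i j, M.Sm fun y => v i y - v j y := fun i j => (h.sv i).sub (h.sv j)
  have lapb : ∀ i j, ∫ x, M.lap H (fun y => v i y - v j y) x ^ 2 ∂M.mu H ≤ a i + a j :=
    fun i j => by
      rw [← ea, ← ea, ← integral_add (ia i) (ia j)]
      refine integral_mono (hint ℝ _
        (((mLAP n M _ _ (sd i j) (sd i j)).2.2 H hm).1.continuous.pow 2)) ((ia i).add (ia j))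
        fun x => ?_
      have e1 := ((((mLAP n M _ _ (h.sv i) (h.sv j)).2.2 H hm).2.2.1 x 0).2.2.1)
      have p1 := ((hPSD n M H hm x).2.1 _ (hR i)).2.1
      have p2 := ((hPSD n M H hm x).2.1 _ (hR j)).2.1
      have q := sq_bd (p := M.tr H (R i) x) (q := M.tr H (R j) x) (s := fj i x) (t := fj j x)
        (f := f x) (hB2 x)
      have e2 : M.lap H (fun y => v i y - v j y) x =
          M.tr H (R i) x - M.tr H (R j) x + (fj i x - fj j x) * M.tr H A x := by
        rw [e1, trR, trR]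
        ring
      beta_reduce
      rw [e2]
      linarith
  have mean : ∀ i j, ∫ x, (v i x - v j x) ∂M.mu H = 0 := fun i j => by
    rw [integral_sub (hint ℝ _ (h.sv i).continuous) (hint ℝ _ (h.sv j).continuous), h.mean,
      h.mean, sub_zero]
  have g1 : ∀ i j, ∫ x, M.gr H (fun y => v i y - v j y) (fun y => v i y - v j y) x ∂M.mu H ≤
      C * a i + C * a j := fun i j => by
    rw [← mul_add]
    exact (hP _ (sd i j) (mean i j)).2.trans (mul_le_mul_of_nonneg_left (lapb i j) hC)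
  have g0 : ∀ i j, ∫ x, (v i x - v j x) ^ 2 ∂M.mu H ≤ C * (C * a i) + C * (C * a j) :=
    fun i j => by
      rw [← mul_add]
      exact (hP _ (sd i j) (mean i j)).1.trans (mul_le_mul_of_nonneg_left (g1 i j) hC)
  have ha1 : Tendsto (fun j => C * a j) atTop (𝓝 0) := by
    have := ha.const_mul C
    rwa [mul_zero] at this
  have ha2 : Tendsto (fun j => C * (C * a j)) atTop (𝓝 0) := by
    have := ha1.const_mul C
    rwa [mul_zero] at this
  obtain ⟨w, w1, w2, w3⟩ := l2_lim v (fun j => m2 _ (h.sv j).continuous) _ ha2 g0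
  refine ⟨w, w1, w2, w3, fun ε hε => ?_⟩
  obtain ⟨N, hN⟩ := eventually_atTop.1 (ha1.eventually (gt_mem_nhds (half_pos hε)))
  refine ⟨N, fun i j hi hj => (g1 i j).trans ?_⟩
  have := hN i hi
  have := hN j hj
  linarith

end Pool.Agent.Lib.F4.LD
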