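import Pool.Agent.Lib.F4.BlueD
import Pool.Agent.Lib.F4.D_LM1

/-! Project f4: the scalars and the potentials. -/

open scoped Classical Topology ContDiff ComplexOrder Matrix ENNReal
open Set MeasureTheory Complex Metric Filter

set_option linter.unusedVariables false

noncomputable section

namespace Pool.Agent.Lib.F4.LD

open Pool.Agent.Lib.SV (E)
open Pool.Agent.Lib.HS32

namespace HD1

/-- Strong convergence in `L^2` implies weak convergence. -/
theorem weak_of {X : Type} [MeasurableSpace X] {μ : Measure X} {F : ℕ → X → ℝ} {G a : X → ℝ}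
    (hF : ∀ j, MemLp (F j) 2 μ) (hG : MemLp G 2 μ) (ha : MemLp a 2 μ)
    (h : Tendsto (fun j => ∫ x, (F j x - G x) ^ 2 ∂μ) atTop (𝓝 0)) :
    Tendsto (fun j => ∫ x, F j x * a x ∂μ) atTop (𝓝 (∫ x, G x * a x ∂μ)) := by
  have ip : ∀ (f : X → ℝ) (hf : MemLp f 2 μ),
      inner ℝ (hf.toLp f) (ha.toLp a) = ∫ x, f x * a x ∂μ := fun f hf => by
    rw [L2.inner_def]
    refine integral_congr_ae ?_
    filter_upwards [hf.coeFn_toLp, ha.coeFn_toLp] with x h1 h2
    rw [h1, h2, real_inner_comm]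
    simp
  have d : ∀ j, ‖(hF j).toLp (F j) - hG.toLp G‖ = Real.sqrt (∫ x, (F j x - G x) ^ 2 ∂μ) :=
    fun j => by
      have e := LM1.norm_sq_toLp ((hF j).sub hG)
      rw [MemLp.toLp_sub (hF j) hG] at e
      have e2 : ∫ x, (F j - G) x ^ 2 ∂μ = ∫ x, (F j x - G x) ^ 2 ∂μ := rfl
      rw [← e2, ← e, Real.sqrt_sq (norm_nonneg _)]
  have t : Tendsto (fun j => (hF j).toLp (F j)) atTop (𝓝 (hG.toLp G)) := by
    rw [tendsto_iff_norm_sub_tendsto_zero]
    simp only [d]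
    have := h.sqrt
    rwa [Real.sqrt_zero] at this
  have := t.inner (𝕜 := ℝ) (tendsto_const_nhds (x := ha.toLp a))
  simp only [ip] at this
  exact this

theorem sq2 (p q : ℝ) : (p + q) ^ 2 ≤ 2 * p ^ 2 + 2 * q ^ 2 := by nlinarith [sq_nonneg (p - q)]

end HD1

open HD1 in
theorem st_HD1 (hP : KP.St_POI) : St_HD1 := by
  intro n M _ H θ A F G c hn hk hθ hA A0 T0 I0 sF c0 cF hG lim
  have hm : M.Met H := hk.toMet
  obtain ⟨-, hfin, -, hvol, hint, -⟩ := mMU n M H hm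
  have inv := mINV n M H hm
  have sa : M.Sm (M.tr H A) := (inv.1 A hA.toTen).2.1
  have st : M.Sm (M.tr H θ) := (inv.1 θ hθ.toTen).2.1
  have a0 : ∀ x, 0 ≤ M.tr H A x := hm.tr_nonneg A0
  obtain ⟨B, -, hB⟩ := sa.exists_bound
  have hB2 : ∀ x, M.tr H A x ^ 2 ≤ B ^ 2 := fun x => by
    rw [← sq_abs]
    exact pow_le_pow_left₀ (abs_nonneg _) (hB x) 2
  have it : ∀ u : M.X → ℝ, M.Sm u → Integrable u (M.mu H) := fun u hu => hint ℝ _ hu.continuous
  have m2 : ∀ u : M.X → ℝ, M.Sm u → MemLp u 2 (M.mu H) := fun u hu =>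
    (memLp_two_iff_integrable_sq hu.continuous.aestronglyMeasurable).2 (it _ (hu.pow 2))
  set T := ∫ x, M.tr H θ x ∂M.mu H with hT
  set J := ∫ x, M.tr H A x ∂M.mu H with hJ
  let d : ℕ → ℝ := fun j => ∫ x, F j x * M.tr H A x ∂M.mu H
  let d₀ : ℝ := ∫ x, G x * M.tr H A x ∂M.mu H
  have cJ : 0 < c * J := mul_pos c0 I0
  have dl : ∀ j, c * J ≤ d j := fun j => by
    rw [hJ, ← integral_const_mul]
    exact integral_mono ((it _ sa).const_mul c) (it _ ((sF j).mul sa))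
      fun x => mul_le_mul_of_nonneg_right (cF j x) (a0 x)
  have dp : ∀ j, 0 < d j := fun j => cJ.trans_le (dl j)
  have dt : Tendsto d atTop (𝓝 d₀) := weak_of (fun j => m2 _ (sF j)) hG (m2 _ sa) lim
  have d0 : 0 < d₀ := cJ.trans_le (ge_of_tendsto dt (Eventually.of_forall dl))
  let s : ℕ → ℝ := fun j => T / d j
  let S : ℝ := T / (c * J)
  have s0 : ∀ j, 0 ≤ s j := fun j => div_nonneg T0 (dp j).le
  have sS : ∀ j, s j ≤ S := fun j => div_le_div_of_nonneg_left T0 cJ (dl j)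
  have stt : Tendsto s atTop (𝓝 (T / d₀)) := tendsto_const_nhds.div dt d0.ne'
  have iF : ∀ j, Integrable (fun x => (F j x - G x) ^ 2) (M.mu H) := fun j =>
    ((m2 _ (sF j)).sub hG).integrable_sq
  have iG : Integrable (fun x => G x ^ 2) (M.mu H) := hG.integrable_sq
  have ex : ∀ j, ∃ v : M.X → ℝ, M.Sm v ∧ ∫ x, v x ∂M.mu H = 0 ∧
      ∀ x, M.lap H v x = s j * F j x * M.tr H A x - M.tr H θ x := fun j => by
    have sb : M.Sm fun x => s j * (F j x * M.tr H A x) := Mf.Sm.const_mul (s j) ((sF j).mul sa)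
    obtain ⟨w, b, sw, hw⟩ := hP n M H _ hn hk (st.sub sb)
    have z := ((mGRN n M).2 H w w hk sw sw).1
    have e1 : ∫ x, M.lap H w x ∂M.mu H = b * (M.mu H).real univ - (T - s j * d j) := by
      simp only [hw]
      rw [integral_sub (integrable_const b) (it _ (st.sub sb)), integral_sub (it _ st) (it _ sb),
        integral_const_mul, integral_const, smul_eq_mul, mul_comm]
    have e2 : s j * d j = T := div_mul_cancel₀ T (dp j).ne'
    have b0 : b = 0 := by
      rw [e1, e2, sub_self, sub_zero] at z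
      exact (mul_eq_zero.1 z).resolve_right hvol.ne'
    let m : ℝ := (∫ x, w x ∂M.mu H) / (M.mu H).real univ
    refine ⟨fun x => w x - m, sw.sub (Mf.sm_const m), ?_, fun x => ?_⟩
    · rw [integral_sub (it _ sw) (integrable_const m), integral_const, smul_eq_mul,
        mul_div_cancel₀ _ hvol.ne', sub_self]
    · have l := ((mLAP n M w (fun _ => m) sw (Mf.sm_const m)).2.2 H hm).2.2.1 x m
      rw [l.2.2.1, l.1, hw, b0]
      ring
  choose v sv mv ev using ex
  obtain ⟨D, hD⟩ := lim.bddAbove_range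
  have hD' : ∀ j, ∫ x, (F j x - G x) ^ 2 ∂M.mu H ≤ D := fun j => hD ⟨j, rfl⟩
  let K : ℝ := 2 * (S ^ 2 * B ^ 2)
  have K0 : 0 ≤ K := mul_nonneg zero_le_two (mul_nonneg (sq_nonneg S) (sq_nonneg B))
  let B₁ : ℝ := K * (2 * D + 2 * ∫ x, G x ^ 2 ∂M.mu H) + 2 * ∫ x, M.tr H θ x ^ 2 ∂M.mu H
  have bd : ∀ j, ∫ x, M.lap H (v j) x ^ 2 ∂M.mu H ≤ B₁ := fun j => by
    have i1 : Integrable (fun x => 2 * (F j x - G x) ^ 2 + 2 * G x ^ 2) (M.mu H) :=
      ((iF j).const_mul 2).add (iG.const_mul 2)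
    have i2 : Integrable (fun x => 2 * M.tr H θ x ^ 2) (M.mu H) := (it _ (st.pow 2)).const_mul 2
    have b1 : ∫ x, M.lap H (v j) x ^ 2 ∂M.mu H ≤ ∫ x, (K * (2 * (F j x - G x) ^ 2 + 2 * G x ^ 2) +
        2 * M.tr H θ x ^ 2) ∂M.mu H := by
      refine integral_mono (it _ (((mLAP n M _ _ (sv j) (sv j)).2.2 H hm).1.pow 2))
        ((i1.const_mul K).add i2) fun x => ?_
      have p1 := sq2 (s j * F j x * M.tr H A x) (-M.tr H θ x)
      have p2 := sq2 (F j x - G x) (G x)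
      rw [sub_add_cancel] at p2
      have p3 : s j ^ 2 * M.tr H A x ^ 2 ≤ S ^ 2 * B ^ 2 :=
        mul_le_mul (pow_le_pow_left₀ (s0 j) (sS j) 2) (hB2 x) (sq_nonneg _) (sq_nonneg _)
      have p4 : s j ^ 2 * M.tr H A x ^ 2 * F j x ^ 2 ≤
          S ^ 2 * B ^ 2 * (2 * (F j x - G x) ^ 2 + 2 * G x ^ 2) :=
        mul_le_mul p3 p2 (sq_nonneg _) (mul_nonneg (sq_nonneg S) (sq_nonneg B))
      have p5 : (s j * F j x * M.tr H A x) ^ 2 = s j ^ 2 * M.tr H A x ^ 2 * F j x ^ 2 := by ring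
      have p6 : K * (2 * (F j x - G x) ^ 2 + 2 * G x ^ 2) =
          2 * (S ^ 2 * B ^ 2 * (2 * (F j x - G x) ^ 2 + 2 * G x ^ 2)) := by
        simp only [K]
        ring
      beta_reduce
      rw [ev, sub_eq_add_neg, p6]
      rw [neg_sq] at p1
      linarith
    rw [integral_add (i1.const_mul K) i2, integral_const_mul, integral_const_mul,
      integral_add ((iF j).const_mul 2) (iG.const_mul 2), integral_const_mul,
      integral_const_mul] at b1
    have b2 : K * (2 * ∫ x, (F j x - G x) ^ 2 ∂M.mu H + 2 * ∫ x, G x ^ 2 ∂M.mu H) ≤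
        K * (2 * D + 2 * ∫ x, G x ^ 2 ∂M.mu H) :=
      mul_le_mul_of_nonneg_left (by linarith [hD' j]) K0
    simp only [B₁]
    linarith
  refine ⟨v, s, max S B₁, T / d₀, ⟨fun j => ⟨s0 j, (sS j).trans (le_max_left _ _)⟩, sv, mv, ev,
    fun j => (bd j).trans (le_max_right _ _)⟩, div_nonneg T0 d0.le, ?_⟩
  have up : Tendsto (fun j => 2 * S ^ 2 * ∫ x, (F j x - G x) ^ 2 ∂M.mu H +
      2 * (s j - T / d₀) ^ 2 * ∫ x, G x ^ 2 ∂M.mu H) atTop (𝓝 0) := by
    have := (lim.const_mul (2 * S ^ 2)).add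
      ((((stt.sub_const (T / d₀)).pow 2).const_mul 2).mul_const (∫ x, G x ^ 2 ∂M.mu H))
    rw [sub_self, zero_pow two_ne_zero, mul_zero, mul_zero, zero_mul, add_zero] at this
    exact this
  refine squeeze_zero (fun j => integral_nonneg fun x => sq_nonneg _) (fun j => ?_) up
  rw [← integral_const_mul, ← integral_const_mul,
    ← integral_add ((iF j).const_mul _) (iG.const_mul _)]
  refine integral_mono (((m2 _ (sF j)).const_mul (s j)).sub (hG.const_mul (T / d₀))).integrable_sq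
    (((iF j).const_mul _).add (iG.const_mul _)) fun x => ?_
  have p1 := sq2 (s j * (F j x - G x)) ((s j - T / d₀) * G x)
  have p2 : s j ^ 2 * (F j x - G x) ^ 2 ≤ S ^ 2 * (F j x - G x) ^ 2 :=
    mul_le_mul_of_nonneg_right (pow_le_pow_left₀ (s0 j) (sS j) 2) (sq_nonneg _)
  have p3 : s j * F j x - T / d₀ * G x = s j * (F j x - G x) + (s j - T / d₀) * G x := by ring
  rw [mul_pow, mul_pow] at p1
  beta_reduce
  rw [p3]
  linarith

end Pool.Agent.Lib.F4.LD
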