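import Pool.Agent.Lib.F4.BlueD
import Pool.Agent.Lib.HS32.MAll

/-! Project f4, row HDB: the two error terms tend to zero. -/

open scoped Classical Topology ContDiff ComplexOrder Matrix ENNReal
open Set MeasureTheory Complex Metric Filter

set_option linter.unusedVariables false

noncomputable section

namespace Pool.Agent.Lib.F4.LD

open Pool.Agent.Lib.SV (E)
open Pool.Agent.Lib.HS32

namespace HB69

theorem tz {a e : ℕ → ℝ} {K : ℝ} (he : Tendsto e atTop (𝓝 0))
    (h : ∀ δ : ℝ, 0 < δ → ∀ j, |a j| ≤ δ * K + e j / δ) : Tendsto a atTop (𝓝 0) := by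
  rw [Metric.tendsto_atTop] at he ⊢
  intro ε hε
  have hK : 0 < |K| + 1 := by positivity
  have hδ : 0 < ε / (2 * (|K| + 1)) := by positivity
  obtain ⟨N, hN⟩ := he (ε / 2 * (ε / (2 * (|K| + 1)))) (by positivity)
  refine ⟨N, fun j hj => ?_⟩
  have h1 := hN j hj
  have h2 := h _ hδ j
  rw [Real.dist_eq, sub_zero] at h1 ⊢
  have h3 : e j / (ε / (2 * (|K| + 1))) < ε / 2 := by
    rw [div_lt_iff₀ hδ]
    exact (le_abs_self _).trans_lt h1
  have h4 : ε / (2 * (|K| + 1)) * K ≤ ε / (2 * (|K| + 1)) * (|K| + 1) :=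
    mul_le_mul_of_nonneg_left (by linarith [le_abs_self K]) hδ.le
  have h5 : ε / (2 * (|K| + 1)) * (|K| + 1) = ε / 2 := by field_simp
  linarith

theorem pw {c : ℂ} {m b t δ : ℝ} (hm : 0 ≤ m) (hb : 0 ≤ b) (ht : 0 < t) (hδ : 0 < δ)
    (h : ‖c‖ ^ 2 ≤ m * b) : |c.re| ≤ δ * (t * m) + b / t / δ := by
  refine (abs_re_le_norm c).trans ?_
  have h0 : 0 ≤ δ * (t * m) := by positivity
  have h1 : 0 ≤ b / t / δ := by positivity
  have h2 : δ * (t * m) * (b / t / δ) = m * b := by field_simp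
  refine (pow_le_pow_iff_left₀ (norm_nonneg _) (by positivity) two_ne_zero).1 (h.trans ?_)
  nlinarith [mul_nonneg h0 h1, sq_nonneg (δ * (t * m)), sq_nonneg (b / t / δ)]

variable {n : ℕ} {M : Mf n} [M.Cpt] {H : M.Fam (Mat n)}

theorem itg (hH : M.Met H) {f : M.X → ℝ} (hf : Continuous f) : Integrable f (M.mu H) := by
  have := (mMU n M H hH).2.1
  exact hf.integrable_of_hasCompactSupport (HasCompactSupport.of_compactSpace f)

theorem cs (hS : St_S2K) (hH : M.Met H) {m b : M.Fam (Mat n)} {t : M.X → ℝ} (hm : S2 M m)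
    (hb : S2 M b) (ht : M.Sm t) (h0 : ∀ x, 0 < t x) {K δ : ℝ} (hδ : 0 < δ)
    (hK : ∫ x, t x * n2 M H m x ∂M.mu H ≤ K) :
    |-∫ x, (c2 M H m b x).re ∂M.mu H| ≤ δ * K + (∫ x, n2 M H b x / t x ∂M.mu H) / δ := by
  obtain ⟨-, -, s3, s4, -⟩ := hS n M H hH
  have cm : Continuous (n2 M H m) := (s3 m b hm hb).2.2.2.2.2.1.continuous
  have cb : Continuous (n2 M H b) := (s3 b b hb hb).2.2.2.2.2.1.continuous
  have cc : Continuous (c2 M H m b) := (s3 m b hm hb).2.2.2.2.1.continuous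
  have i1 : Integrable (fun x => t x * n2 M H m x) (M.mu H) := itg hH (ht.continuous.mul cm)
  have i2 : Integrable (fun x => n2 M H b x / t x) (M.mu H) :=
    itg hH (cb.div ht.continuous fun x => (h0 x).ne')
  rw [abs_neg]
  refine abs_integral_le_integral_abs.trans ?_
  have h1 : ∫ x, |(c2 M H m b x).re| ∂M.mu H ≤
      ∫ x, (δ * (t x * n2 M H m x) + n2 M H b x / t x / δ) ∂M.mu H :=
    integral_mono (itg hH (continuous_re.comp cc).abs) ((i1.const_mul δ).add (i2.div_const δ))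
      fun x => pw (s4 m b x).2.1 (s4 b b x).2.1 (h0 x) hδ (s4 m b x).2.2
  rw [integral_add (i1.const_mul δ) (i2.div_const δ), integral_const_mul, integral_div] at h1
  have h2 := mul_le_mul_of_nonneg_left hK hδ.le
  linarith

end HB69

open HB69

theorem st_HDB (hT : St_THA) (hM : St_MUS) (hS : St_S2K) (hB : St_SB1) (hP : St_PW)
    (hX : St_MXC) : St_HDB := by
  intro n M _ H α F t v B hn hk h1 ap sv mean bd
  have hH := hk.toMet
  obtain ⟨wt, hw, m3, m4⟩ := hM n M H α hH h1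
  obtain ⟨c, hc, lo⟩ := ap.lo
  have t0 : ∀ j x, 0 < t j x := fun j x => hc.trans_le ((lo j x).trans (ap.le j x))
  have sb : ∀ j, S2 M (bet M H α (F j)) := fun j => (m4 (F j) (ap.sF j)).2.1
  obtain ⟨-, -, s3, s4, -, s6, -⟩ := hS n M H hH
  constructor
  · have sm := (m3 _ wt).1
    have sn := (s3 _ _ sm sm).2.2.2.2.2.1
    obtain ⟨C0, hC0, b0⟩ := sn.exists_bound
    obtain ⟨C1, b1⟩ := ap.lp 1
    refine tz (K := C0 * C1) ap.lim fun δ hδ j => ?_
    rw [← hw, (hT n M H α (F j) hk h1 (ap.sF j)).1 _ wt]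
    refine cs hS hH sm (sb j) (ap.st j) (t0 j) hδ ?_
    have h2 : ∫ x, t j x * n2 M H (mu M (ph M H) α) x ∂M.mu H ≤ ∫ x, C0 * t j x ^ 1 ∂M.mu H := by
      refine integral_mono (itg hH ((ap.st j).continuous.mul sn.continuous))
        ((itg hH ((ap.st j).continuous.pow 1)).const_mul C0) fun x => ?_
      have := (le_abs_self _).trans (b0 x)
      beta_reduce
      rw [pow_one, mul_comm]
      exact mul_le_mul_of_nonneg_right this (t0 j x).le
    rw [integral_const_mul] at h2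
    exact h2.trans (mul_le_mul_of_nonneg_left (b1 j) hC0.le)
  · obtain ⟨fa, pa, -⟩ := s6 α h1
    obtain ⟨Ca, hCa, ba⟩ := ((mINV n M H hH).1 _ fa.toTen).2.1.exists_bound
    obtain ⟨C2, b2⟩ := ap.lp (2 * n)
    obtain ⟨Cs, hCs, bs⟩ := hB n M H hn hH
    obtain ⟨Cp, hCp, bp⟩ := hP n M H hn hk
    refine tz (K := Ca * (Cs * C2 ^ (1 / (2 * n : ℝ)) * (Cp * B + B))) ap.lim fun δ hδ j => ?_
    rw [(hT n M H α (F j) hk h1 (ap.sF j)).2.1 _ (sv j)]
    obtain ⟨sd, -, -, nd, -⟩ := m4 (v j) (sv j)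
    refine cs hS hH sd (sb j) (ap.st j) (t0 j) hδ ?_
    obtain ⟨sl, sg, lp, -⟩ := (mLAP n M (v j) (v j) (sv j) (sv j)).2.2 H hH
    have g0 : ∀ x, 0 ≤ M.gr H (v j) (v j) x := fun x => (lp x 0).2.2.2.2.2.2.1
    have h2 : ∫ x, t j x * n2 M H (da M (v j) α) x ∂M.mu H ≤
        ∫ x, Ca * (t j x * M.gr H (v j) (v j) x) ∂M.mu H := by
      refine integral_mono
        (itg hH ((ap.st j).continuous.mul (s3 _ _ sd sd).2.2.2.2.2.1.continuous))
        ((itg hH ((ap.st j).continuous.mul sg.continuous)).const_mul Ca) fun x => ?_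
      have a1 := (le_abs_self _).trans (ba x)
      have a2 := (nd x).2.trans (mul_le_mul_of_nonneg_left a1 (g0 x))
      have a3 := mul_le_mul_of_nonneg_left a2 (t0 j x).le
      beta_reduce
      linarith
    rw [integral_const_mul] at h2
    refine h2.trans (mul_le_mul_of_nonneg_left ?_ hCa.le)
    refine (bs (v j) (t j) (sv j) (ap.st j).continuous fun x => (t0 j x).le).trans ?_
    have cl := (mHES n M).1 _ (sv j)
    have si := ((mINV n M H hH).2.2.1 _ _ cl.toTen cl.toTen).2.1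
    have e1 := hX n M H _ (v j) hk cl (sv j)
    have i0 : Integrable (fun x => M.tr H (M.hs (v j)) x * M.tr H (M.hs (v j)) x) (M.mu H) :=
      itg hH (sl.continuous.mul sl.continuous)
    rw [integral_sub i0 (itg hH si.continuous)] at e1
    have e2 : ∫ x, M.lap H (v j) x ^ 2 ∂M.mu H =
        ∫ x, M.tr H (M.hs (v j)) x * M.tr H (M.hs (v j)) x ∂M.mu H :=
      integral_congr_ae (Eventually.of_forall fun x => sq _)
    have e3 : ∫ x, M.ip H (M.hs (v j)) (M.hs (v j)) x ∂M.mu H ≤ B := by linarith [bd j]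
    have e4 : ∫ x, M.gr H (v j) (v j) x ∂M.mu H ≤ Cp * B :=
      (bp _ (sv j) (mean j)).2.trans (mul_le_mul_of_nonneg_left (bd j) hCp)
    have p0 : 0 ≤ ∫ x, t j x ^ (2 * n) ∂M.mu H :=
      integral_nonneg fun x => pow_nonneg (t0 j x).le _
    have p1 : (∫ x, t j x ^ (2 * n) ∂M.mu H) ^ (1 / (2 * n : ℝ)) ≤ C2 ^ (1 / (2 * n : ℝ)) :=
      Real.rpow_le_rpow p0 (b2 j) (by positivity)
    have p2 : 0 ≤ ∫ x, M.lap H (v j) x ^ 2 ∂M.mu H := integral_nonneg fun x => sq_nonneg _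
    have p3 : 0 ≤ ∫ x, M.gr H (v j) (v j) x ∂M.mu H := integral_nonneg g0
    refine mul_le_mul (mul_le_mul_of_nonneg_left p1 hCs) (add_le_add e4 e3) (by linarith)
      (mul_nonneg hCs (Real.rpow_nonneg (p0.trans (b2 j)) _))

end Pool.Agent.Lib.F4.LD
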