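import Pool.Agent.Lib.F4.BlueD

/-! Project f4, row HDI: the inequality of Hodge index type. -/

open scoped Classical Topology ContDiff ComplexOrder Matrix ENNReal
open Set MeasureTheory Complex Metric Filter

set_option linter.unusedVariables false

noncomputable section

namespace Pool.Agent.Lib.F4.LD

open Pool.Agent.Lib.SV (E)
open Pool.Agent.Lib.HS32

theorem st_HDI (hMXC : St_MXC) (hPSD : St_PSD) : St_HDI := by
  intro n M _ H θ A f v hH hθ hA hf hv hAA h0 he
  obtain ⟨-, -, -, -, hi, -⟩ := mMU n M H hH.toMet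
  have hs := (mHES n M).1 v hv
  have sm : ∀ S T, M.Ten S → M.Ten T → M.Sm (mx M H S T) := fun S T hS hT =>
    (((mINV n M H hH.toMet).1 S hS).2.1.mul ((mINV n M H hH.toMet).1 T hT).2.1).sub
      ((mINV n M H hH.toMet).2.2.1 S T hS hT).2.1
  have tθ : M.Ten θ := hθ.toForm.toTen
  have tv : M.Ten (M.hs v) := hs.toForm.toTen
  have pt : ∀ x, M.ip H (θ + M.hs v - fs M f A) (θ + M.hs v - fs M f A) x =
      2 * (f x * mx M H θ A x) + 2 * (f x * mx M H (M.hs v) A x) -
        (mx M H θ θ x + 2 * mx M H θ (M.hs v) x + mx M H (M.hs v) (M.hs v) x) := fun x => by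
    have p := fun T => ((hPSD n M H hH.toMet x).2.2 f A T).2.1
    have q : ∀ T, M.ip H T (θ + M.hs v - fs M f A) x =
        M.ip H T θ x + M.ip H T (M.hs v) x - f x * M.ip H T A x := fun T => by
      rw [Mf.ip_sub, Mf.ip_add, p]
    have q' : ∀ T, M.ip H (θ + M.hs v - fs M f A) T x =
        M.ip H T θ x + M.ip H T (M.hs v) x - f x * M.ip H T A x := fun T => by
      rw [Mf.ip_comm, q]
    have e1 := he x
    have e2 := hAA x
    rw [q, q', q', q', Mf.ip_comm (S := M.hs v) (T := θ), Mf.ip_comm (S := A) (T := θ),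
      Mf.ip_comm (S := A) (T := M.hs v)]
    simp only [mx, Mf.lap] at e1 e2 ⊢
    linear_combination
      (M.tr H θ x + M.tr H (M.hs v) x - f x * M.tr H A x) * e1 - f x ^ 2 * e2
  have i1 := (hi ℝ _ (hf.mul (sm _ _ tθ hA.toTen)).continuous).const_mul 2
  have i2 := (hi ℝ _ (hf.mul (sm _ _ tv hA.toTen)).continuous).const_mul 2
  have i3 := hi ℝ _ (sm _ _ tθ tθ).continuous
  have i4 := (hi ℝ _ (sm _ _ tθ tv).continuous).const_mul 2
  have i5 := hi ℝ _ (sm _ _ tv tv).continuous
  have j1 : Integrable (fun x => 2 * (f x * mx M H θ A x) + 2 * (f x * mx M H (M.hs v) A x))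
    (M.mu H) := i1.add i2
  have j2 : Integrable (fun x => mx M H θ θ x + 2 * mx M H θ (M.hs v) x) (M.mu H) := i3.add i4
  have j3 : Integrable (fun x => mx M H θ θ x + 2 * mx M H θ (M.hs v) x +
    mx M H (M.hs v) (M.hs v) x) (M.mu H) := j2.add i5
  have z1 : ∫ x, mx M H θ (M.hs v) x ∂M.mu H = 0 := hMXC n M H θ v hH hθ hv
  have z2 : ∫ x, mx M H (M.hs v) (M.hs v) x ∂M.mu H = 0 := hMXC n M H _ v hH hs hv
  simp only [pt]
  rw [integral_sub j1 j3, integral_add i1 i2, integral_add j2 i5, integral_add i3 i4,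
    integral_const_mul, integral_const_mul, integral_const_mul, z1, z2]
  linarith

end Pool.Agent.Lib.F4.LD
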