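import Pool.Agent.Lib.F4.BlueD
import Pool.Agent.Lib.HS32.MAll

/-! Project f4, the lemma on the weight: approximate solutions. -/

open scoped Classical Topology ContDiff ComplexOrder Matrix ENNReal
open Set MeasureTheory Complex Metric Filter

set_option linter.unusedVariables false

noncomputable section

namespace Pool.Agent.Lib.F4.LD

open Pool.Agent.Lib.SV (E)
open Pool.Agent.Lib.HS32 Pool.Agent.Lib.HS32.Mf

namespace HOD63

theorem bddMul {s a : ℕ → ℝ} {B : ℝ} (hs : ∀ j, 0 ≤ s j ∧ s j ≤ B)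
    (ha : Tendsto a atTop (𝓝 0)) : Tendsto (fun j => s j * a j) atTop (𝓝 0) := by
  have h1 : Tendsto (fun j => B * |a j|) atTop (𝓝 0) := by
    have := ha.abs.const_mul B
    simpa using this
  refine squeeze_zero_norm (fun j => ?_) h1
  rw [Real.norm_eq_abs, abs_mul, abs_of_nonneg (hs j).1]
  exact mul_le_mul_of_nonneg_right (hs j).2 (abs_nonneg _)

end HOD63

open HOD63

theorem st_HOD (h1 : St_HD1) (hI : St_HDI) (hB : St_HDB) (hN : St_NF2) (hA : St_AAK)
    (hS : St_S2K) (hP : St_PSD) (hM : St_MUS) : St_HOD := by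
  intro n M _ H α a F t G hn hk hα nz ho ap
  have hm := hk.toMet
  obtain ⟨wt, hw, -⟩ := hM n M H α hm hα
  have cθ : M.Clo (-M.ric H) := hw ▸ (mHES n M).2.2.2.1 1 _ wt
  obtain ⟨fA, lA, -⟩ := (hS n M H hm).2.2.2.2.2.1 α hα
  obtain ⟨n1, n2⟩ := hN n M H a hk ho
  obtain ⟨a1, a2, -⟩ := hA n M H α hm hα
  obtain ⟨c, c0, hc⟩ := ap.lo
  have fin : IsFiniteMeasure (M.mu H) := (mMU n M H hm).2.1
  have g2 : MemLp G 2 (M.mu H) := ap.lG.mono_exponent (by
    have : 2 ≤ 2 * n + 1 := by omega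
    exact_mod_cast this)
  obtain ⟨v, s, B, s₀, po, s0, lim⟩ := h1 n M H (-M.ric H) (aa M H α) F G c hn hk cθ.toForm fA lA
    n1 (a2 nz) ap.sF c0 hc g2 ap.l2
  obtain ⟨b1, b2⟩ := hB n M H α F t v B hn hk hα ap.toApp po.sv po.mean po.bd
  have sf : ∀ j, M.Sm fun x => s j * F j x := fun j => (ap.sF j).const_mul (s j)
  refine ⟨s₀, v, fun j x => s j * F j x, s0, hk, cθ.toForm, fA, po.sv, po.mean, sf,
    ap.mG.const_mul s₀, ap.lG.const_mul s₀, lim, ?_⟩
  have up : Tendsto (fun j => 2 * (s j * ∫ x, F j x * mx M H (-M.ric H) (aa M H α) x ∂M.mu H) +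
      2 * (s j * ∫ x, F j x * mx M H (M.hs (v j)) (aa M H α) x ∂M.mu H)) atTop (𝓝 0) := by
    have := ((bddMul po.s0 b1).const_mul 2).add ((bddMul po.s0 b2).const_mul 2)
    simpa using this
  refine squeeze_zero (fun j => integral_nonneg fun x => ?_) (fun j => ?_) up
  · exact ((hP n M H hm x).2.1 _ ((cθ.toForm.add ((mHES n M).1 _ (po.sv j)).toForm).sub
      (fA.fsmul (sf j)))).1
  · refine (hI n M H _ _ _ _ hk cθ fA (sf j) (po.sv j) a1 n2 (po.eq j)).trans (le_of_eq ?_)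
    rw [← integral_const_mul (s j), ← integral_const_mul (s j)]
    simp only [mul_assoc]

end Pool.Agent.Lib.F4.LD
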