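import Pool.Agent.Lib.F4.BlueD0
import Pool.Agent.Lib.F4.K13

/-! Project f4, row KER: regularity from the weak derivatives in the conjugate variables. -/

open scoped Classical Topology ContDiff ENNReal
open Set MeasureTheory Complex Metric Filter

noncomputable section

namespace Pool.Agent.Lib.F4.LD

open Pool.Agent.Lib.SV (E)
open Pool.Agent.Lib.HS32

theorem wd_iff {n : ℕ} {U : Set (E n)} {h : E n → ℂ} {g : Fin n → E n → ℂ} :
    Wd U h g ↔ K13.WDb U h g := by
  have e : ∀ ψ, Tst U ψ → ∀ l, (∫ z in U, h z * dzb l ψ z = -∫ z in U, g l z * ψ z ↔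
      ∫ z, h z * dzb l ψ z = -∫ z, g l z * ψ z) := fun ψ p l => by
    rw [setIntegral_eq_integral_of_forall_compl_eq_zero fun z hz => by
        rw [K13.dzb_out (fun k => hz (p.2.2 k)), mul_zero],
      setIntegral_eq_integral_of_forall_compl_eq_zero fun z hz => by
        rw [image_eq_zero_of_notMem_tsupport fun k => hz (p.2.2 k), mul_zero]]
  exact ⟨fun w ψ a b c l => (e ψ ⟨a, b, c⟩ l).1 (w ψ ⟨a, b, c⟩ l),
    fun w ψ p l => (e ψ p l).2 (w ψ p.1 p.2.1 p.2.2 l)⟩

theorem st_KER : St_KER := fun n U h g hn hU hh _ hw =>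
  ⟨fun hg => K13.kerA (p := (2 * n + 1 : ℕ)) hn hU hh.locallyIntegrableOn (by push_cast; linarith)
    (fun c hc => ⟨U, hU.mem_nhds hc, fun l => (ENNReal.ofReal_natCast _).symm ▸ hg l⟩)
    (wd_iff.1 hw), fun k hg => K13.kerB (k := k) hn hU hh.locallyIntegrableOn hg (wd_iff.1 hw)⟩

end Pool.Agent.Lib.F4.LD
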