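import Pool.Agent.Lib.F4.BlueD0
import Pool.Agent.Lib.HS32.MAll

/-! Project f4, row LM2: the limit read in a coordinate ball. -/

open scoped Classical Topology ContDiff ComplexOrder Matrix ENNReal
open Set MeasureTheory Complex Metric Filter

noncomputable section

namespace Pool.Agent.Lib.F4.LD

open Pool.Agent.Lib.SV (E)
open Pool.Agent.Lib.HS32

namespace LM2

theorem bdd {n : ℕ} {c : E n} {r : ℝ} {g : E n → ℂ}
    (h : ∀ z ∈ closedBall c r, ContinuousAt g z) :
    AEStronglyMeasurable g (volume.restrict (ball c r)) ∧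
      ∃ B : ℝ, 0 ≤ B ∧ ∀ z ∈ ball c r, ‖g z‖ ≤ B := by
  have hc : ContinuousOn g (closedBall c r) := fun z hz => (h z hz).continuousWithinAt
  obtain ⟨B, hB⟩ := (isCompact_closedBall c r).exists_bound_of_continuousOn hc
  exact ⟨(hc.mono ball_subset_closedBall).aestronglyMeasurable measurableSet_ball,
    max B 0, le_max_right _ _, fun z hz => (hB z (ball_subset_closedBall hz)).trans (le_max_left _ _)⟩

theorem two (a b : ℂ) : ‖a + b‖ ^ 2 ≤ 2 * ‖a‖ ^ 2 + 2 * ‖b‖ ^ 2 := by
  have h := pow_le_pow_left₀ (norm_nonneg _) (norm_add_le a b) 2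
  nlinarith [sq_nonneg (‖a‖ - ‖b‖)]

theorem l2c {n : ℕ} {M : Mf n} [M.Cpt] {μ : Measure M.X} [IsFiniteMeasure μ] {u : M.X → ℝ}
    (hu : M.Sm u) : MemLp u 2 μ := by
  obtain ⟨C, -, hC⟩ := hu.exists_bound
  exact MemLp.of_bound hu.continuous.measurable.aestronglyMeasurable C (Eventually.of_forall hC)

end LM2

open LM2 in
theorem st_LM2 (hCH2 : St_CH2) (hPSD : St_PSD) : St_LM2 := by
  intro n M _ H θ A v fj f w hn a g e he c r hr
  have hH : M.Met H := a.kae.toMet
  obtain ⟨C, C0, c1, c2, c3⟩ := hCH2 n M H hH e he c r hr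
  obtain ⟨-, fin, -, -, int, -⟩ := mMU n M H hH
  have fb : IsFiniteMeasure (volume.restrict (ball c r)) :=
    ⟨by simpa using measure_ball_lt_top⟩
  have key : ∀ (q : E n → ℝ) (u : M.X → ℝ), Measurable u → Integrable u (M.mu H) →
      (∀ x, 0 ≤ u x) → (∀ z, 0 ≤ q z) → (∀ z ∈ ball c r, q z ≤ u (e.symm z)) →
      ∫ z in ball c r, q z ≤ C * ∫ x, u x ∂M.mu H := fun q u u1 u2 u3 q0 q1 =>
    (integral_mono_of_nonneg (Eventually.of_forall q0) (c2 u u1 u2 u3).1
      ((ae_restrict_iff' measurableSet_ball).2 (Eventually.of_forall q1))).trans (c2 u u1 u2 u3).2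
  have bA := fun l k => bdd (c := c) (r := r) (g := fun z => A e z l k) fun z hz =>
    (a.hA.sm e he z (hr hz) l k).continuousAt
  have bθ := fun l k => bdd (c := c) (r := r) (g := fun z => θ e z l k) fun z hz =>
    (a.hθ.sm e he z (hr hz) l k).continuousAt
  refine ⟨fun j z hz => a.sv j e he z (hr hz), c1 w 2 g.mw g.lp, fun l k => ?_, ?_,
    fun k ε ε0 => ?_, fun l k => ?_⟩
  · obtain ⟨m1, B, -, hB⟩ := bA l k
    obtain ⟨m2, B', -, hB'⟩ := bθ l k
    have hf := c1 f _ a.mf a.lp
    have h1 : MemLp (fun z => f (e.symm z) • A e z l k) ((2 * n + 1 : ℕ) : ℝ≥0∞)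
        (volume.restrict (ball c r)) := by
      refine hf.of_le_mul (c := B) (hf.1.smul m1) ?_
      filter_upwards [ae_restrict_mem measurableSet_ball] with z hz
      rw [norm_smul, mul_comm]
      exact mul_le_mul_of_nonneg_right (hB z hz) (norm_nonneg _)
    exact h1.sub (MemLp.of_bound m2 B' ((ae_restrict_iff' measurableSet_ball).2
      (Eventually.of_forall hB')))
  · refine squeeze_zero (fun j => integral_nonneg fun z => sq_nonneg _) (fun j => ?_)
      (by simpa using g.l0.const_mul C)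
    exact key _ (fun x => (v j x - w x) ^ 2) (((a.sv j).continuous.measurable.sub g.mw).pow_const 2)
      ((l2c (a.sv j)).sub g.lp).integrable_sq (fun x => sq_nonneg _) (fun z => sq_nonneg _)
      fun z _ => le_rfl
  · obtain ⟨N, hN⟩ := g.l1 (ε / (C * C + 1)) (by positivity)
    refine ⟨N, fun i j hi hj => ?_⟩
    have sd := (a.sv i).sub (a.sv j)
    obtain ⟨-, s1, s2, -⟩ := (mLAP n M _ _ sd sd).2.2 H hH
    have h1 := key (fun z => ‖dz k (fun y => ((v i ∘ e.symm) y : ℂ)) z -
        dz k (fun y => ((v j ∘ e.symm) y : ℂ)) z‖ ^ 2)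
      (fun x => C * M.gr H (fun y => v i y - v j y) (fun y => v i y - v j y) x)
      (s1.continuous.measurable.const_mul C) ((int ℝ _ s1.continuous).const_mul C)
      (fun x => mul_nonneg C0 (s2 x 0).2.2.2.2.2.2.1) (fun z => sq_nonneg _) fun z hz => by
        have hz' := ball_subset_closedBall hz
        have h2 := (c3 z hz').2 _ sd k
        have h3 : M.lc (fun y => v i y - v j y) e = fun y => M.lc (v i) e y - M.lc (v j) e y :=
          funext fun y => ofReal_sub _ _
        rw [h3, dz_sub (cd_diff ((a.sv i).lc e he z (hr hz')))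
          (cd_diff ((a.sv j).lc e he z (hr hz')))] at h2
        exact h2
    rw [integral_const_mul] at h1
    refine h1.trans ?_
    have h4 := mul_le_mul_of_nonneg_left (hN i j hi hj) (mul_nonneg C0 C0)
    rw [← mul_assoc]
    refine h4.trans ?_
    rw [mul_div_assoc', div_le_iff₀ (by positivity)]
    nlinarith
  · obtain ⟨-, B, B0, hB⟩ := bA l k
    have f2 : MemLp f 2 (M.mu H) := a.lp.mono_exponent (by exact_mod_cast (by omega : 2 ≤ 2 * n + 1))
    refine squeeze_zero (fun j => integral_nonneg fun z => sq_nonneg _) (fun j => ?_)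
      (by simpa using ((a.lr.const_mul (2 * C)).add (a.lf.const_mul (2 * B ^ 2))).const_mul C)
    have hR : M.Form (θ + M.hs (v j) - fs M (fj j) A) :=
      (a.hθ.add ((mHES n M).1 _ (a.sv j)).toForm).sub (a.hA.fsmul (a.sf j))
    have s1 := ((mINV n M H hH).2.2.1 _ _ hR.toTen hR.toTen).2.1
    have i1 := (int ℝ _ s1.continuous).const_mul (2 * C)
    have i2 : Integrable (fun x => 2 * B ^ 2 * (fj j x - f x) ^ 2) (M.mu H) :=
      ((l2c (a.sf j)).sub f2).integrable_sq.const_mul (2 * B ^ 2)
    have h1 := key (fun z => ‖hess (fun y => ((v j ∘ e.symm) y : ℂ)) z l k -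
        (fs M f A - θ) e z l k‖ ^ 2)
      (fun x => 2 * C * M.ip H (θ + M.hs (v j) - fs M (fj j) A)
        (θ + M.hs (v j) - fs M (fj j) A) x + 2 * B ^ 2 * (fj j x - f x) ^ 2)
      ((s1.continuous.measurable.const_mul (2 * C)).add
        ((((a.sf j).continuous.measurable.sub a.mf).pow_const 2).const_mul (2 * B ^ 2)))
      (i1.add i2)
      (fun x => add_nonneg (mul_nonneg (by positivity) ((hPSD n M H hH x).2.1 _ hR).1)
        (by positivity)) (fun z => sq_nonneg _) fun z hz => by
        have h2 := (c3 z (ball_subset_closedBall hz)).1 _ hR l k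
        have h3 : hess (fun y => ((v j ∘ e.symm) y : ℂ)) z l k - (fs M f A - θ) e z l k =
            (θ + M.hs (v j) - fs M (fj j) A) e z l k +
              (fj j (e.symm z) - f (e.symm z)) • A e z l k := by
          have h4 : hess (fun y => ((v j ∘ e.symm) y : ℂ)) z = M.hs (v j) e z := rfl
          simp only [h4, fs, Pi.sub_apply, Pi.add_apply, Matrix.sub_apply, Matrix.add_apply,
            Matrix.smul_apply, sub_smul]
          ring
        have h5 : ‖(fj j (e.symm z) - f (e.symm z)) • A e z l k‖ ^ 2 ≤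
            B ^ 2 * (fj j (e.symm z) - f (e.symm z)) ^ 2 := by
          rw [norm_smul, mul_pow, Real.norm_eq_abs, sq_abs, mul_comm]
          exact mul_le_mul_of_nonneg_right (pow_le_pow_left₀ (norm_nonneg _) (hB z hz) 2)
            (sq_nonneg _)
        rw [h3]
        refine (two _ _).trans ?_
        linarith
    rw [integral_add i1 i2, integral_const_mul, integral_const_mul] at h1
    exact h1

end Pool.Agent.Lib.F4.LD
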