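import Mathlib

/-! Convex combinations of tails of a bounded sequence converge strongly. -/

open MeasureTheory Filter Topology Set

noncomputable section

namespace Pool.Agent.Lib.F4.Maz

/-- Weights of convex combinations of tails of a sequence. -/
def Tails (N : ℕ → Finset ℕ) (w : ℕ → ℕ → ℝ) : Prop :=
  (∀ j, ∀ k ∈ N j, j ≤ k ∧ 0 ≤ w j k) ∧ ∀ j, ∑ k ∈ N j, w j k = 1

theorem Tails.sub {N : ℕ → Finset ℕ} {w : ℕ → ℕ → ℝ} (h : Tails N w) {φ : ℕ → ℕ}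
    (hφ : StrictMono φ) : Tails (fun j => N (φ j)) (fun j => w (φ j)) :=
  ⟨fun j k hk => ⟨(hφ.id_le j).trans (h.1 _ k hk).1, (h.1 _ k hk).2⟩, fun _ => h.2 _⟩

theorem sum_ite_sub {M : Type*} [AddCommGroup M] (f : ℕ → M) (A B : Finset ℕ) (hAB : A ⊆ B) :
    ∑ k ∈ B, (if k ∈ A then f k else 0) = ∑ k ∈ A, f k := by
  rw [← Finset.sum_filter, Finset.filter_mem_eq_inter, Finset.inter_eq_right.2 hAB]

theorem hull_rep {H : Type*} [AddCommGroup H] [Module ℝ H] (x : ℕ → H) (j : ℕ) {y : H}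
    (hy : y ∈ convexHull ℝ (x '' Ici j)) : ∃ (N : Finset ℕ) (w : ℕ → ℝ),
      (∀ k ∈ N, j ≤ k ∧ 0 ≤ w k) ∧ ∑ k ∈ N, w k = 1 ∧ ∑ k ∈ N, w k • x k = y := by
  classical
  have hc : Convex ℝ {y : H | ∃ (N : Finset ℕ) (w : ℕ → ℝ),
      (∀ k ∈ N, j ≤ k ∧ 0 ≤ w k) ∧ ∑ k ∈ N, w k = 1 ∧ ∑ k ∈ N, w k • x k = y} := by
    rintro _ ⟨N, w, h1, h2, rfl⟩ _ ⟨N', w', h1', h2', rfl⟩ a b ha hb hab
    refine ⟨N ∪ N', fun k => a * (if k ∈ N then w k else 0) + b * (if k ∈ N' then w' k else 0),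
      fun k hk => ⟨?_, ?_⟩, ?_, ?_⟩
    · rcases Finset.mem_union.1 hk with h | h
      · exact (h1 k h).1
      · exact (h1' k h).1
    · refine add_nonneg (mul_nonneg ha ?_) (mul_nonneg hb ?_)
      · split_ifs with h
        · exact (h1 k h).2
        · exact le_rfl
      · split_ifs with h
        · exact (h1' k h).2
        · exact le_rfl
    · rw [Finset.sum_add_distrib, ← Finset.mul_sum, ← Finset.mul_sum,
        sum_ite_sub w N _ Finset.subset_union_left, sum_ite_sub w' N' _ Finset.subset_union_right, h2, h2']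
      simpa using hab
    · rw [← sum_ite_sub (fun k => w k • x k) N _ (Finset.subset_union_left (s₂ := N')),
        ← sum_ite_sub (fun k => w' k • x k) N' _ (Finset.subset_union_right (s₁ := N)),
        Finset.smul_sum, Finset.smul_sum, ← Finset.sum_add_distrib]
      refine Finset.sum_congr rfl fun k _ => ?_
      by_cases h : k ∈ N <;> by_cases h' : k ∈ N' <;> simp [h, h', add_smul, mul_smul]
  refine convexHull_min (t := {y : H | ∃ (N : Finset ℕ) (w : ℕ → ℝ),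
      (∀ k ∈ N, j ≤ k ∧ 0 ≤ w k) ∧ ∑ k ∈ N, w k = 1 ∧ ∑ k ∈ N, w k • x k = y}) ?_ hc hy
  rintro _ ⟨k, hk, rfl⟩
  exact ⟨{k}, fun _ => 1, by simpa using hk, by simp, by simp⟩

/-- The statement in a Hilbert space. -/
theorem hilbert {H : Type*} [NormedAddCommGroup H] [InnerProductSpace ℝ H] [CompleteSpace H]
    (x : ℕ → H) (R : ℝ) (hx : ∀ j, ‖x j‖ ≤ R) : ∃ (N : ℕ → Finset ℕ) (w : ℕ → ℕ → ℝ) (z : H),
      Tails N w ∧ Tendsto (fun j => ∑ k ∈ N j, w j k • x k) atTop (𝓝 z) := by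
  let K : ℕ → Set H := fun j => convexHull ℝ (x '' Ici j)
  have hK : ∀ j, x j ∈ K j := fun j => subset_convexHull ℝ _ ⟨j, mem_Ici.2 le_rfl, rfl⟩
  have hanti : ∀ {i j}, i ≤ j → K j ⊆ K i := fun h =>
    convexHull_mono (image_mono (Ici_subset_Ici.2 h))
  let d : ℕ → ℝ := fun j => sInf ((fun y => ‖y‖ ^ 2) '' K j)
  have hb : ∀ j, BddBelow ((fun y : H => ‖y‖ ^ 2) '' K j) := fun j =>
    ⟨0, by rintro _ ⟨y, -, rfl⟩; positivity⟩
  have hne : ∀ j, ((fun y : H => ‖y‖ ^ 2) '' K j).Nonempty := fun j => ⟨_, _, hK j, rfl⟩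
  have hle : ∀ j, ∀ y ∈ K j, d j ≤ ‖y‖ ^ 2 := fun j y hy => csInf_le (hb j) ⟨y, hy, rfl⟩
  have hmono : Monotone d := fun i j h => csInf_le_csInf (hb i) (hne j) (image_mono (hanti h))
  have hbd : BddAbove (range d) := ⟨R ^ 2, by
    rintro _ ⟨j, rfl⟩
    exact (hle j _ (hK j)).trans (pow_le_pow_left₀ (norm_nonneg _) (hx j) 2)⟩
  have hd : Tendsto d atTop (𝓝 (⨆ j, d j)) := tendsto_atTop_ciSup hmono hbd
  have hy : ∀ j : ℕ, ∃ y ∈ K j, ‖y‖ ^ 2 < d j + 1 / ((j : ℝ) + 1) := fun j => by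
    obtain ⟨_, ⟨y, hy, rfl⟩, h⟩ := exists_lt_of_csInf_lt (hne j)
      (lt_add_of_pos_right (d j) (Nat.one_div_pos_of_nat (n := j)))
    exact ⟨y, hy, h⟩
  choose y hyK hyl using hy
  let b : ℕ → ℝ := fun n => Real.sqrt (4 * ((⨆ j, d j) - d n) + 4 * (1 / ((n : ℝ) + 1)))
  have hb0 : Tendsto b atTop (𝓝 0) := by
    have h1 := (((tendsto_const_nhds (x := ⨆ j, d j)).sub hd).const_mul 4).add
      ((tendsto_one_div_add_atTop_nhds_zero_nat (𝕜 := ℝ)).const_mul 4)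
    have h2 := h1.sqrt
    rw [sub_self, mul_zero, add_zero, Real.sqrt_zero] at h2
    exact h2
  have hC : CauchySeq y := by
    refine cauchySeq_of_le_tendsto_0 b (fun i j n hi hj => ?_) hb0
    rw [dist_eq_norm]
    refine Real.le_sqrt_of_sq_le ?_
    have hm : (1 / 2 : ℝ) • y i + (1 / 2 : ℝ) • y j ∈ K n :=
      convex_convexHull ℝ _ (hanti hi (hyK i)) (hanti hj (hyK j)) (by norm_num) (by norm_num)
        (by norm_num)
    have h1 := hle n _ hm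
    rw [← smul_add, norm_smul, mul_pow] at h1
    have h2 := parallelogram_law_with_norm ℝ (y i) (y j)
    have h3 := hyl i
    have h4 := hyl j
    have h5 : d i ≤ ⨆ j, d j := le_ciSup hbd i
    have h6 : d j ≤ ⨆ j, d j := le_ciSup hbd j
    have h7 : 1 / ((i : ℝ) + 1) ≤ 1 / ((n : ℝ) + 1) := Nat.one_div_le_one_div hi
    have h8 : 1 / ((j : ℝ) + 1) ≤ 1 / ((n : ℝ) + 1) := Nat.one_div_le_one_div hj
    have h9 : ‖(1 / 2 : ℝ)‖ ^ 2 = 1 / 4 := by norm_num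
    rw [h9] at h1
    nlinarith
  obtain ⟨z, hz⟩ := cauchySeq_tendsto_of_complete hC
  choose N w h1 h2 h3 using fun j => hull_rep x j (hyK j)
  exact ⟨N, w, z, ⟨h1, h2⟩, by simpa only [h3] using hz⟩

variable {X : Type*} [MeasurableSpace X] {μ : Measure X}

theorem norm_sq_toLp {f : X → ℝ} (hf : MemLp f 2 μ) : ‖hf.toLp f‖ ^ 2 = ∫ x, f x ^ 2 ∂μ := by
  rw [← real_inner_self_eq_norm_sq, L2.inner_def]
  refine integral_congr_ae ?_
  filter_upwards [hf.coeFn_toLp] with x hx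
  rw [hx, real_inner_self_eq_norm_sq, Real.norm_eq_abs, sq_abs]

/-- Convex combinations of tails converge in `L²` and almost everywhere. -/
theorem mazur (F : ℕ → X → ℝ) (hF : ∀ j, MemLp (F j) 2 μ) (C : ℝ)
    (hC : ∀ j, ∫ x, F j x ^ 2 ∂μ ≤ C) : ∃ (N : ℕ → Finset ℕ) (w : ℕ → ℕ → ℝ) (G : X → ℝ),
      Tails N w ∧ Measurable G ∧ MemLp G 2 μ ∧
      Tendsto (fun j => ∫ x, (∑ k ∈ N j, w j k * F k x - G x) ^ 2 ∂μ) atTop (𝓝 0) ∧
      ∀ᵐ x ∂μ, Tendsto (fun j => ∑ k ∈ N j, w j k * F k x) atTop (𝓝 (G x)) := by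
  obtain ⟨N, w, z, hT, hz⟩ := hilbert (fun j => (hF j).toLp (F j)) (Real.sqrt C) fun j =>
    Real.le_sqrt_of_sq_le (by rw [norm_sq_toLp]; exact hC j)
  let G : X → ℝ := (Lp.aestronglyMeasurable z).mk z
  have hG : (z : X → ℝ) =ᵐ[μ] G := (Lp.aestronglyMeasurable z).ae_eq_mk
  have hG2 : MemLp G 2 μ := (Lp.memLp z).ae_eq hG
  have hS : ∀ j, MemLp (fun x => ∑ k ∈ N j, w j k * F k x) 2 μ := fun j =>
    memLp_finsetSum _ fun k _ => (hF k).const_mul _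
  have he : ∀ j, ((∑ k ∈ N j, w j k • (hF k).toLp (F k) : Lp ℝ 2 μ) : X → ℝ) =ᵐ[μ]
      fun x => ∑ k ∈ N j, w j k * F k x := fun j => by
    induction N j using Finset.induction_on with
    | empty => exact Lp.coeFn_zero ℝ 2 μ
    | insert a s ha ih =>
      rw [Finset.sum_insert ha]
      filter_upwards [Lp.coeFn_add (w j a • (hF a).toLp (F a))
        (∑ k ∈ s, w j k • (hF k).toLp (F k)), Lp.coeFn_smul (w j a) ((hF a).toLp (F a)),
        (hF a).coeFn_toLp, ih] with x h1 h2 h3 h4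
      rw [h1, Pi.add_apply, h2, Pi.smul_apply, h3, h4, Finset.sum_insert ha, smul_eq_mul]
  obtain ⟨φ, hφ, hae⟩ := (tendstoInMeasure_of_tendsto_Lp hz).exists_seq_tendsto_ae
  refine ⟨fun j => N (φ j), fun j => w (φ j), G, hT.sub hφ,
    (Lp.aestronglyMeasurable z).stronglyMeasurable_mk.measurable, hG2, ?_, ?_⟩
  · have h1 := ((tendsto_iff_norm_sub_tendsto_zero.1 hz).pow 2).comp hφ.tendsto_atTop
    rw [zero_pow two_ne_zero] at h1
    refine h1.congr fun j => ?_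
    refine Eq.trans ?_ (norm_sq_toLp ((hS (φ j)).sub hG2))
    refine congrArg (fun t => ‖t‖ ^ 2) (Lp.ext ?_)
    filter_upwards [Lp.coeFn_sub (∑ k ∈ N (φ j), w (φ j) k • (hF k).toLp (F k)) z, he (φ j), hG,
      ((hS (φ j)).sub hG2).coeFn_toLp] with x h1 h2 h3 h4
    rw [h1, h4, Pi.sub_apply, h2, h3, Pi.sub_apply]
  · filter_upwards [hae, hG, ae_all_iff.2 he] with x h1 h2 h3
    rw [← h2]
    exact h1.congr fun j => h3 _

/-- Convex combinations of tails of a null sequence tend to zero. -/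
theorem tail {N : ℕ → Finset ℕ} {w : ℕ → ℕ → ℝ} (h : Tails N w) {a : ℕ → ℝ}
    (ha : Tendsto a atTop (𝓝 0)) : Tendsto (fun j => ∑ k ∈ N j, w j k * a k) atTop (𝓝 0) := by
  rw [Metric.tendsto_atTop] at ha ⊢
  intro ε hε
  obtain ⟨n, hn⟩ := ha (ε / 2) (half_pos hε)
  refine ⟨n, fun j hj => ?_⟩
  rw [Real.dist_eq, sub_zero]
  calc |∑ k ∈ N j, w j k * a k| ≤ ∑ k ∈ N j, |w j k * a k| := Finset.abs_sum_le_sum_abs _ _
    _ ≤ ∑ k ∈ N j, w j k * (ε / 2) := Finset.sum_le_sum fun k hk => by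
        rw [abs_mul, abs_of_nonneg (h.1 j k hk).2]
        refine mul_le_mul_of_nonneg_left ?_ (h.1 j k hk).2
        have := hn k (hj.trans (h.1 j k hk).1)
        rw [Real.dist_eq, sub_zero] at this
        exact this.le
    _ = ε / 2 := by rw [← Finset.sum_mul, h.2 j, one_mul]
    _ < ε := half_lt_self hε

theorem le_comb {N : ℕ → Finset ℕ} {w : ℕ → ℕ → ℝ} (h : Tails N w) (j : ℕ) {c : ℝ} {a : ℕ → ℝ}
    (ha : ∀ k, c ≤ a k) : c ≤ ∑ k ∈ N j, w j k * a k := by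
  calc c = ∑ k ∈ N j, w j k * c := by rw [← Finset.sum_mul, h.2 j, one_mul]
    _ ≤ _ := Finset.sum_le_sum fun k hk => mul_le_mul_of_nonneg_left (ha k) (h.1 j k hk).2

theorem comb_le {N : ℕ → Finset ℕ} {w : ℕ → ℕ → ℝ} (h : Tails N w) (j : ℕ) {c : ℝ} {a : ℕ → ℝ}
    (ha : ∀ k, a k ≤ c) : ∑ k ∈ N j, w j k * a k ≤ c := by
  calc _ ≤ ∑ k ∈ N j, w j k * c :=
        Finset.sum_le_sum fun k hk => mul_le_mul_of_nonneg_left (ha k) (h.1 j k hk).2
    _ = c := by rw [← Finset.sum_mul, h.2 j, one_mul]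

theorem comb_mono {N : ℕ → Finset ℕ} {w : ℕ → ℕ → ℝ} (h : Tails N w) (j : ℕ) {a b : ℕ → ℝ}
    (hab : ∀ k, a k ≤ b k) : ∑ k ∈ N j, w j k * a k ≤ ∑ k ∈ N j, w j k * b k :=
  Finset.sum_le_sum fun k hk => mul_le_mul_of_nonneg_left (hab k) (h.1 j k hk).2

/-- Joint convexity of `q ^ 2 / t`: `q0` is the length of the combination, `q k` the lengths. -/
theorem titu {N : ℕ → Finset ℕ} {w : ℕ → ℕ → ℝ} (h : Tails N w) (j : ℕ) {q t : ℕ → ℝ} {q0 : ℝ}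
    (h0 : 0 ≤ q0) (hq : q0 ≤ ∑ k ∈ N j, w j k * q k) (ht : ∀ k, 0 < t k) :
    q0 ^ 2 / ∑ k ∈ N j, w j k * t k ≤ ∑ k ∈ N j, w j k * (q k ^ 2 / t k) := by
  have hT : 0 < ∑ k ∈ N j, w j k * t k := by
    by_contra hc
    have h1 : ∑ k ∈ N j, w j k * t k = 0 := le_antisymm (not_lt.1 hc)
      (Finset.sum_nonneg fun k hk => mul_nonneg (h.1 j k hk).2 (ht k).le)
    rw [Finset.sum_eq_zero_iff_of_nonneg
      fun k hk => mul_nonneg (h.1 j k hk).2 (ht k).le] at h1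
    have h2 : ∑ k ∈ N j, w j k = 0 := Finset.sum_eq_zero fun k hk =>
      (mul_eq_zero.1 (h1 k hk)).resolve_right (ht k).ne'
    rw [h.2 j] at h2
    exact one_ne_zero h2
  rw [div_le_iff₀ hT]
  refine (pow_le_pow_left₀ h0 hq 2).trans ?_
  refine Finset.sum_sq_le_sum_mul_sum_of_sq_le_mul _ (fun k hk => ?_) (fun k hk => ?_)
    fun k hk => ?_
  · exact mul_nonneg (h.1 j k hk).2 (div_nonneg (sq_nonneg _) (ht k).le)
  · exact mul_nonneg (h.1 j k hk).2 (ht k).le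
  · have := (ht k).ne'
    refine le_of_eq ?_
    field_simp

/-- The same for a non-negative quadratic quantity `Q` whose square root is subadditive. -/
theorem titu_sqrt {N : ℕ → Finset ℕ} {w : ℕ → ℕ → ℝ} (h : Tails N w) (j : ℕ) {Q t : ℕ → ℝ}
    {Q0 : ℝ} (h0 : 0 ≤ Q0) (hQ : ∀ k, 0 ≤ Q k)
    (hq : Real.sqrt Q0 ≤ ∑ k ∈ N j, w j k * Real.sqrt (Q k)) (ht : ∀ k, 0 < t k) :
    Q0 / ∑ k ∈ N j, w j k * t k ≤ ∑ k ∈ N j, w j k * (Q k / t k) := by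
  have := titu h j (Real.sqrt_nonneg Q0) hq ht
  simpa only [Real.sq_sqrt h0, Real.sq_sqrt (hQ _)] using this

theorem jensen {N : ℕ → Finset ℕ} {w : ℕ → ℕ → ℝ} (h : Tails N w) (j : ℕ) {t : ℕ → ℝ}
    (ht : ∀ k, 0 ≤ t k) (p : ℕ) :
    (∑ k ∈ N j, w j k * t k) ^ p ≤ ∑ k ∈ N j, w j k * t k ^ p :=
  Real.pow_arith_mean_le_arith_mean_pow _ _ _ (fun k hk => (h.1 j k hk).2) (h.2 j)
    (fun k _ => ht k) p

theorem jensen_rpow {N : ℕ → Finset ℕ} {w : ℕ → ℕ → ℝ} (h : Tails N w) (j : ℕ) {t : ℕ → ℝ}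
    (ht : ∀ k, 0 ≤ t k) {p : ℝ} (hp : 1 ≤ p) :
    (∑ k ∈ N j, w j k * t k) ^ p ≤ ∑ k ∈ N j, w j k * t k ^ p :=
  Real.rpow_arith_mean_le_arith_mean_rpow _ _ _ (fun k hk => (h.1 j k hk).2) (h.2 j)
    (fun k _ => ht k) hp

/-- Integral of a function below a convex combination. -/
theorem int_le {N : ℕ → Finset ℕ} {w : ℕ → ℕ → ℝ} (j : ℕ) {f : X → ℝ} {g : ℕ → X → ℝ}
    (hf : 0 ≤ᵐ[μ] f) (hg : ∀ k, Integrable (g k) μ)
    (hle : ∀ᵐ x ∂μ, f x ≤ ∑ k ∈ N j, w j k * g k x) :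
    ∫ x, f x ∂μ ≤ ∑ k ∈ N j, w j k * ∫ x, g k x ∂μ := by
  have hi : ∀ k ∈ N j, Integrable (fun x => w j k * g k x) μ := fun k _ => (hg k).const_mul _
  refine (integral_mono_of_nonneg hf (integrable_finsetSum _ hi) hle).trans_eq ?_
  rw [integral_finsetSum _ hi]
  exact Finset.sum_congr rfl fun k _ => integral_const_mul _ _

/-- Fatou for real integrals. -/
theorem fatou {f : ℕ → X → ℝ} {g : X → ℝ} (hf : ∀ j, Integrable (f j) μ)
    (h0 : ∀ j, 0 ≤ᵐ[μ] f j) {C : ℝ} (hC : ∀ j, ∫ x, f j x ∂μ ≤ C)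
    (hl : ∀ᵐ x ∂μ, Tendsto (fun j => f j x) atTop (𝓝 (g x))) :
    Integrable g μ ∧ ∫ x, g x ∂μ ≤ C := by
  have hm : AEStronglyMeasurable g μ :=
    aestronglyMeasurable_of_tendsto_ae atTop (fun j => (hf j).1) hl
  have hg0 : 0 ≤ᵐ[μ] g := by
    filter_upwards [hl, ae_all_iff.2 h0] with x h1 h2
    exact ge_of_tendsto' h1 h2
  have hC0 : 0 ≤ C := (integral_nonneg_of_ae (h0 0)).trans (hC 0)
  have h1 : ∫⁻ x, ENNReal.ofReal (g x) ∂μ ≤ ENNReal.ofReal C := by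
    calc ∫⁻ x, ENNReal.ofReal (g x) ∂μ
        = ∫⁻ x, liminf (fun j => ENNReal.ofReal (f j x)) atTop ∂μ := by
          refine lintegral_congr_ae ?_
          filter_upwards [hl] with x hx
          exact ((ENNReal.continuous_ofReal.tendsto _).comp hx).liminf_eq.symm
      _ ≤ liminf (fun j => ∫⁻ x, ENNReal.ofReal (f j x) ∂μ) atTop :=
          lintegral_liminf_le' fun j => (hf j).1.aemeasurable.ennreal_ofReal
      _ ≤ ENNReal.ofReal C := by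
          refine liminf_le_of_frequently_le' (Frequently.of_forall fun j => ?_)
          rw [← ofReal_integral_eq_lintegral_ofReal (hf j) (h0 j)]
          exact ENNReal.ofReal_le_ofReal (hC j)
  have hi : Integrable g μ :=
    ⟨hm, (hasFiniteIntegral_iff_ofReal hg0).2 (h1.trans_lt ENNReal.ofReal_lt_top)⟩
  refine ⟨hi, ?_⟩
  rw [← ofReal_integral_eq_lintegral_ofReal hi hg0] at h1
  exact (ENNReal.ofReal_le_ofReal_iff hC0).1 h1

end Pool.Agent.Lib.F4.Maz
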