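import Pool.Agent.Lib.F4.BlueS
import Pool.Agent.Lib.F4.Maz44
import Pool.Agent.Lib.HS32.MAll

/-! Project f4: approximate invariant densities that converge strongly. -/

open scoped Classical Topology ContDiff ComplexOrder Matrix ENNReal
open Set Filter MeasureTheory

set_option linter.unusedVariables false

noncomputable section

namespace Pool.Agent.Lib.F4.Maz

open Pool.Agent.Lib.SV (E)
open Pool.Agent.Lib.HS32 Pool.Agent.Lib.HS32.Mf Pool.Agent.Lib.HLK

theorem tot_pos {N : ℕ → Finset ℕ} {w : ℕ → ℕ → ℝ} (h : Tails N w) (j : ℕ) {t : ℕ → ℝ}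
    (ht : ∀ k, 0 < t k) : 0 < ∑ k ∈ N j, w j k * t k := by
  by_contra hc
  have h1 : ∑ k ∈ N j, w j k * t k = 0 := le_antisymm (not_lt.1 hc)
    (Finset.sum_nonneg fun k hk => mul_nonneg (h.1 j k hk).2 (ht k).le)
  rw [Finset.sum_eq_zero_iff_of_nonneg
    fun k hk => mul_nonneg (h.1 j k hk).2 (ht k).le] at h1
  have h2 : ∑ k ∈ N j, w j k = 0 := Finset.sum_eq_zero fun k hk =>
    (mul_eq_zero.1 (h1 k hk)).resolve_right (ht k).ne'
  rw [h.2 j] at h2
  exact one_ne_zero h2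

/-- Joint convexity of `Q b / t` for a convex function `Q` of degree two. -/
theorem titu_quad {V : Type*} [AddCommGroup V] [Module ℝ V] (Q : V → ℝ)
    (hs : ∀ (c : ℝ) x, Q (c • x) = c ^ 2 * Q x) (hc : ConvexOn ℝ univ Q)
    {N : ℕ → Finset ℕ} {w : ℕ → ℕ → ℝ} (h : Tails N w) (j : ℕ) (b : ℕ → V) {t : ℕ → ℝ}
    (ht : ∀ k, 0 < t k) :
    Q (∑ k ∈ N j, w j k • b k) / ∑ k ∈ N j, w j k * t k ≤ ∑ k ∈ N j, w j k * (Q (b k) / t k) := by
  have hT := tot_pos h j ht
  set T := ∑ k ∈ N j, w j k * t k with hTd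
  have h1 := hc.map_sum_le (t := N j) (w := fun k => w j k * t k / T)
    (p := fun k => (t k)⁻¹ • b k)
    (fun k hk => div_nonneg (mul_nonneg (h.1 j k hk).2 (ht k).le) hT.le)
    (by rw [← Finset.sum_div, div_self hT.ne']) (fun _ _ => mem_univ _)
  have h2 : ∑ k ∈ N j, (w j k * t k / T) • (t k)⁻¹ • b k = T⁻¹ • ∑ k ∈ N j, w j k • b k := by
    rw [Finset.smul_sum]
    refine Finset.sum_congr rfl fun k _ => ?_
    rw [smul_smul, smul_smul]
    congr 1
    have := (ht k).ne'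
    field_simp
  have h3 : ∑ k ∈ N j, (w j k * t k / T) • Q ((t k)⁻¹ • b k) =
      T⁻¹ * ∑ k ∈ N j, w j k * (Q (b k) / t k) := by
    rw [Finset.mul_sum]
    refine Finset.sum_congr rfl fun k _ => ?_
    rw [hs, smul_eq_mul]
    have := (ht k).ne'
    field_simp
  rw [h2, h3, hs, pow_two, mul_assoc] at h1
  rw [div_eq_inv_mul]
  exact le_of_mul_le_mul_left h1 (inv_pos.2 hT)

theorem convex_quad {V : Type*} [AddCommGroup V] [Module ℝ V] (B : V → V → ℝ)
    (ha : ∀ x y z, B (x + y) z = B x z + B y z) (hb : ∀ x y z, B x (y + z) = B x y + B x z)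
    (hs : ∀ (c : ℝ) x y, B (c • x) y = c * B x y) (ht : ∀ (c : ℝ) x y, B x (c • y) = c * B x y)
    (h0 : ∀ x, 0 ≤ B x x) : ConvexOn ℝ univ fun x => B x x := by
  refine ⟨convex_univ, fun x _ y _ a b ha' hb' hab => ?_⟩
  have h1 := h0 ((1 : ℝ) • x + (-1 : ℝ) • y)
  simp only [ha, hb, hs, ht, smul_eq_mul] at h1 ⊢
  obtain rfl : b = 1 - a := by linarith
  nlinarith [mul_nonneg (mul_nonneg ha' hb') h1]

variable {n : ℕ}

theorem rsm (c : ℝ) (m : Mat n) : c • m = (c : ℂ) • m := by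
  ext i j
  simp

/-- The pointwise inequality. -/
theorem pw (hP : St_PW1) {H : Mat n} (hH : H.PosDef) {N : ℕ → Finset ℕ} {w : ℕ → ℕ → ℝ}
    (h : Tails N w) (j : ℕ) (b : ℕ → Mat n) {t : ℕ → ℝ} (ht : ∀ k, 0 < t k) :
    (p2 H (∑ k ∈ N j, w j k • b k) (∑ k ∈ N j, w j k • b k) / H.det).re /
      ∑ k ∈ N j, w j k * t k ≤ ∑ k ∈ N j, w j k * ((p2 H (b k) (b k) / H.det).re / t k) := by
  obtain ⟨h1, -, -, -, h5⟩ := hP n H
  have hd : H.det = (H.det.re : ℂ) := (herm_det hH.1).symm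
  have hs : ∀ (c : ℝ) (x y : Mat n), (p2 H (c • x) y / H.det).re = c * (p2 H x y / H.det).re :=
    fun c x y => by
      rw [rsm, (h1 x y y c).2.2.2.2.1, mul_div_assoc, Complex.re_ofReal_mul]
  have hs' : ∀ (c : ℝ) (x y : Mat n), (p2 H x (c • y) / H.det).re = c * (p2 H x y / H.det).re :=
    fun c x y => by
      rw [rsm, (h1 x y y c).2.2.2.2.2, Complex.star_def, Complex.conj_ofReal, mul_div_assoc,
        Complex.re_ofReal_mul]
  refine titu_quad (fun m => (p2 H m m / H.det).re) (fun c x => ?_)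
    (convex_quad (fun m m' => (p2 H m m' / H.det).re) (fun x y z => ?_) (fun x y z => ?_) hs hs'
      fun x => ?_) h j b ht
  · rw [hs, hs', pow_two, mul_assoc]
  · rw [(h1 x y z 0).1, add_div, Complex.add_re]
  · rw [(h1 x y z 0).2.1, add_div, Complex.add_re]
  · rw [hd, Complex.div_ofReal_re]
    exact div_nonneg ((h5 hH).1 x x).2.1 (pd_det_re hH).le

theorem bet_sum {M : Mf n} (H : M.Fam (Mat n)) (α : M.Fam (E n)) {F : ℕ → M.X → ℝ}
    (hF : ∀ k, M.Sm (F k)) (s : Finset ℕ) (w : ℕ → ℝ) : M.All fun e z =>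
    bet M H α (fun x => ∑ k ∈ s, w k * F k x) e z = ∑ k ∈ s, w k • bet M H α (F k) e z := by
  intro e he z hz
  have hd : ∀ k, DifferentiableAt ℝ (M.lc (F k) e) z := fun k =>
    ((hF k).lc e he z hz).differentiableAt (by simp)
  have h1 : ∀ i, dz i (M.lc (fun x => ∑ k ∈ s, w k * F k x) e) z =
      ∑ k ∈ s, (w k : ℂ) * dz i (M.lc (F k) e) z := fun i => by
    have e1 : M.lc (fun x => ∑ k ∈ s, w k * F k x) e =
        fun y => ∑ k ∈ s, (w k : ℂ) * M.lc (F k) e y := by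
      funext y
      simp [Mf.lc]
    rw [e1, dz_sum fun k _ => (hd k).const_mul _]
    exact Finset.sum_congr rfl fun k _ => dz_const_mul _ (hd k)
  ext i j
  simp only [bet, da, wg, gd, h1, Matrix.sub_apply, Matrix.of_apply, Matrix.smul_apply,
    Matrix.sum_apply, smul_eq_mul, Complex.real_smul, Complex.ofReal_sum, Complex.ofReal_mul,
    Finset.sum_mul, Finset.mul_sum, ← Finset.sum_sub_distrib]
  exact Finset.sum_congr rfl fun k _ => by ring

/-- Convex combinations of tails are again approximate invariant densities. -/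
theorem app_comb (hP : St_PW1) (hS : St_S2K) (hM : St_MUS) {M : Mf n} [M.Cpt]
    {H : M.Fam (Mat n)} {α : M.Fam (E n)} {F t : ℕ → M.X → ℝ} (hH : M.Met H) (hα : H1 M 1 α)
    (hA : App M H α F t) {N : ℕ → Finset ℕ} {w : ℕ → ℕ → ℝ} (h : Tails N w) :
    App M H α (fun j x => ∑ k ∈ N j, w j k * F k x) fun j x => ∑ k ∈ N j, w j k * t k x := by
  obtain ⟨c, hc, hlo⟩ := hA.lo
  have hi := (mMU n M H hH).2.2.2.2.1 ℝ
  have ht : ∀ k x, 0 < t k x := fun k x => hc.trans_le ((hlo k x).trans (hA.le k x))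
  refine ⟨fun j => Sm.sum fun k _ => (hA.sF k).const_mul _,
    fun j => Sm.sum fun k _ => (hA.st k).const_mul _,
    ⟨c, hc, fun j x => le_comb h j fun k => hlo k x⟩,
    fun j x => comb_mono h j fun k => hA.le k x, fun p => ?_, ?_⟩
  · obtain ⟨C, hC⟩ := hA.lp p
    refine ⟨C, fun j => (int_le (N := N) (w := w) j (g := fun k x => t k x ^ p) ?_
      (fun k => hi _ ((hA.st k).continuous.pow p)) ?_).trans (comb_le h j hC)⟩
    · exact Eventually.of_forall fun x => pow_nonneg (tot_pos h j fun k => ht k x).le p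
    · exact Eventually.of_forall fun x => jensen h j (fun k => (ht k x).le) p
  · refine squeeze_zero (fun j => integral_nonneg fun x => div_nonneg
      ((hS n M H hH).2.2.2.1 _ 0 x).2.1 (tot_pos h j fun k => ht k x).le) (fun j => ?_)
      (tail h hA.lim)
    refine int_le (N := N) (w := w) j (g := fun k x => n2 M H (bet M H α (F k)) x / t k x)
      (Eventually.of_forall fun x => div_nonneg ((hS n M H hH).2.2.2.1 _ 0 x).2.1
        (tot_pos h j fun k => ht k x).le) (fun k => hi _ ?_) (Eventually.of_forall fun x => ?_)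
    · have hb := ((hM n M H α hH hα).2.2.2 (F k) (hA.sF k)).2.1
      exact ((hS n M H hH).2.2.1 _ _ hb hb).2.2.2.2.2.1.continuous.div (hA.st k).continuous
        fun x => (ht k x).ne'
    · have e1 := AllOn.ch (bet_sum H α hA.sF (N j) (w j)) x
      simp only [n2, c2, Mf.ev]
      rw [e1]
      exact pw hP (hH.ev_pos x) h j _ fun k => ht k x

/-- The strong limit. -/
theorem maz (hP : St_PW1) (hS : St_S2K) (hM : St_MUS) {M : Mf n} [M.Cpt]
    {H : M.Fam (Mat n)} {α : M.Fam (E n)} {F t : ℕ → M.X → ℝ} (hH : M.Met H) (hα : H1 M 1 α)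
    (hA : App M H α F t) : ∃ (F' t' : ℕ → M.X → ℝ) (G : M.X → ℝ), App M H α F' t' ∧
      Measurable G ∧ (∃ c : ℝ, 0 < c ∧ ∀ x, c ≤ G x) ∧
      (∀ p : ℝ≥0∞, p ≠ ⊤ → MemLp G p (M.mu H)) ∧ (∀ p : ℕ, Integrable (fun x => G x ^ p) (M.mu H)) ∧
      Tendsto (fun j => ∫ x, (F' j x - G x) ^ 2 ∂M.mu H) atTop (𝓝 0) ∧
      ∀ᵐ x ∂M.mu H, Tendsto (fun j => F' j x) atTop (𝓝 (G x)) := by
  obtain ⟨c, hc, hlo⟩ := hA.lo
  have hi := (mMU n M H hH).2.2.2.2.1 ℝ
  have := (mMU n M H hH).2.1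
  have hb : ∀ {F t : ℕ → M.X → ℝ}, App M H α F t → ∀ p : ℕ, ∃ C : ℝ, ∀ j,
      ∫ x, F j x ^ p ∂M.mu H ≤ C := fun {F t} hA p => by
    obtain ⟨c, hc, hlo⟩ := hA.lo
    obtain ⟨C, hC⟩ := hA.lp p
    exact ⟨C, fun j => (integral_mono (hi _ ((hA.sF j).continuous.pow p))
      (hi _ ((hA.st j).continuous.pow p)) fun x =>
        pow_le_pow_left₀ (hc.le.trans (hlo j x)) (hA.le j x) p).trans (hC j)⟩
  obtain ⟨C, hC⟩ := hb hA 2
  obtain ⟨N, w, G, hT, hG, -, h2, hae⟩ := mazur F (fun j =>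
    (memLp_two_iff_integrable_sq (hA.sF j).continuous.aestronglyMeasurable).2
      (hi _ ((hA.sF j).continuous.pow 2))) C hC
  have hA' := app_comb hP hS hM hH hα hA hT
  have hl : ∀ j x, c ≤ ∑ k ∈ N j, w j k * F k x := fun j x => le_comb hT j fun k => hlo k x
  have hG' : G =ᵐ[M.mu H] fun x => max (G x) c := by
    filter_upwards [hae] with x hx
    exact (max_eq_left (ge_of_tendsto' hx fun j => hl j x)).symm
  have hae' : ∀ᵐ x ∂M.mu H, Tendsto (fun j => ∑ k ∈ N j, w j k * F k x) atTop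
      (𝓝 (max (G x) c)) := by
    filter_upwards [hae, hG'] with x h1 h2
    exact h2 ▸ h1
  have hm : Measurable fun x => max (G x) c := hG.max measurable_const
  have hp : ∀ p : ℕ, Integrable (fun x => max (G x) c ^ p) (M.mu H) := fun p => by
    obtain ⟨C, hC⟩ := hb hA' p
    refine (fatou (fun j => hi _ ((hA'.sF j).continuous.pow p))
      (fun j => Eventually.of_forall fun x => pow_nonneg (hc.le.trans (hl j x)) p) hC ?_).1
    filter_upwards [hae'] with x hx
    exact hx.pow p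
  refine ⟨_, _, fun x => max (G x) c, hA', hm, ⟨c, hc, fun x => le_max_right _ _⟩,
    fun p hp' => ?_, hp, ?_, hae'⟩
  · obtain ⟨q, hq⟩ := ENNReal.exists_nat_gt hp'
    have hq0 : q ≠ 0 := by
      rintro rfl
      simp at hq
    refine MemLp.mono_exponent (q := (q : ℝ≥0∞)) ?_ hq.le
    refine (integrable_norm_rpow_iff hm.aestronglyMeasurable (by simpa using hq0)
      (by simp)).1 ((hp q).congr (Eventually.of_forall fun x => ?_))
    simp only [ENNReal.toReal_natCast, Real.rpow_natCast, Real.norm_eq_abs]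
    rw [abs_of_nonneg (hc.le.trans (le_max_right _ _))]
  · refine h2.congr fun j => integral_congr_ae ?_
    filter_upwards [hG'] with x hx
    rw [← hx]

end Pool.Agent.Lib.F4.Maz
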