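import Pool.Agent.Lib.F4.BlueD
import Pool.Agent.Lib.F4.B_MAZ0

/-! Project f4: the strong limit of the approximate invariant densities. -/

noncomputable section

namespace Pool.Agent.Lib.F4.LD

theorem st_MAZ (hP : St_PW1) (hS : St_S2K) (hM : St_MUS) : St_MAZ := by
  intro n M _ H α F t hH hα hA
  obtain ⟨F', t', G, h1, h2, -, h3, -, h4, -⟩ := Maz.maz hP hS hM hH hα hA
  exact ⟨F', t', G, h1, h2, h3 _ (ENNReal.natCast_ne_top _), h4⟩

end Pool.Agent.Lib.F4.LD
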