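import Pool.Agent.Lib.F4.BlueD

/-! Project f4: the covariant derivative of the form is zero. -/

open scoped Classical Topology ContDiff ComplexOrder Matrix
open Set Filter MeasureTheory

noncomputable section

namespace Pool.Agent.Lib.F4.LD

open Pool.Agent.Lib.HS32 Pool.Agent.Lib.HS32.Mf
open Pool.Agent.Lib.EXH (aw)

theorem st_MU0 (hT : St_THA) (hS : St_SMO) (hB : St_BTB) (hK : St_CKK) (h2 : St_S2K)
    (hP : St_PW1) (hM : St_MUS) : St_MU0 := by
  intro n M _ H α v hH hα hv hm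
  have hG := hH.toMet
  set m := mu M (aw M (ph M H) v) α with em
  obtain ⟨k1, -, k3, k4, -, k6, -⟩ := h2 n M H hG
  obtain ⟨w1, -, m1, m2⟩ := hM n M H α hG hα
  obtain ⟨-, fin, op, -, ig, -⟩ := mMU n M H hG
  obtain ⟨-, -, -, -, -, sN, rN⟩ := k3 m m (k1 m hm) (k1 m hm)
  obtain ⟨B₁, p1, b1⟩ := sN.exists_bound
  obtain ⟨B₂, p2', b2⟩ := (((mINV n M H hG).1 _ (k6 α hα).1.toTen).2.1).exists_bound
  obtain ⟨B₃, p3, b3⟩ := (k3 _ _ (m1 _ w1).1 (m1 _ w1).1).2.2.2.2.2.1.exists_bound
  obtain ⟨cv, ce, -⟩ := (hK n M 1 v).2.2 hv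
  have cg : Continuous fun x => Real.exp (-v x) * n2 M H m x :=
    (Real.continuous_exp.comp cv.neg).mul sN.continuous
  have g0 : ∀ x, 0 ≤ Real.exp (-v x) * n2 M H m x := fun x =>
    mul_nonneg (Real.exp_pos _).le (k4 m m x).2.1
  set B := B₁ + B₂ + B₃ with eB
  have B0 : 0 < B := by positivity
  have key : ∀ η ∈ Ioc (0 : ℝ) 1,
      ∫ x, Real.exp (-v x) * n2 M H m x ∂M.mu H ≤ η * (2 * B * (M.mu H).real univ) := fun η hη => by
    obtain ⟨G, sG, hG'⟩ := hS n M H _ (η ^ 2) hG ce (pow_pos hη.1 2)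
    have cG : Ck M 1 G := (hK n M 1 G).1 sG
    have cd := (((hK n M 1 G).2.2 cG).2.2.2.1 _ ce).2
    have c2' : Continuous (c2 M H m (bet M H α G)) :=
      (k3 _ _ (k1 m hm) (m2 G sG).2.1).2.2.2.2.1.continuous
    have z := (hT n M H α G hH hα sG).2.2 m hm
    have z' : ∫ x, (c2 M H m (bet M H α G) x).re ∂M.mu H = 0 := by
      have q := integral_re (𝕜 := ℂ) (ig _ _ c2')
      simp only [RCLike.re_to_complex] at q
      rw [q, z, Complex.zero_re]
    have pt : ∀ x, Real.exp (-v x) * n2 M H m x + (c2 M H m (bet M H α G) x).re ≤ η * (2 * B) := by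
      intro x
      have e1 := AllOn.ch ((hB n M H α G hG hα cG).2.1 _ ce) x
      have e2 := AllOn.ch (hB n M H α v hG hα hv).2.2.1 x
      obtain ⟨-, -, -, a4, -, a6⟩ := (hP n (H (M.ch x) (M.ch x x))).1 (m (M.ch x) (M.ch x x))
        (bet M H α G (M.ch x) (M.ch x x))
        (-((Real.exp (-v x) : ℝ) : ℂ) • m (M.ch x) (M.ch x x)) 0
      obtain ⟨-, -, -, -, -, a7⟩ := (hP n (H (M.ch x) (M.ch x x))).1 (m (M.ch x) (M.ch x x))
        (m (M.ch x) (M.ch x x)) 0 (-((Real.exp (-v x) : ℝ) : ℂ))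
      beta_reduce at e1 e2
      rw [e2, ch_symm, ← em] at e1
      have e3 : c2 M H m (bet M H α fun y => G y - Real.exp (-v y)) x =
          ((Real.exp (-v x) : ℝ) : ℂ) * c2 M H m m x + c2 M H m (bet M H α G) x := by
        simp only [c2, Mf.ev]
        rw [e1, a4, a7, star_neg, Complex.star_def, Complex.conj_ofReal]
        ring
      have i1 := (k4 m (bet M H α fun y => G y - Real.exp (-v y)) x).2.2
      have i2 := (hB n M H α _ hG hα cd).1 x
      have i3 : (G x - Real.exp (-v x)) ^ 2 ≤ η ^ 2 :=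
        (sq_le_sq' (abs_le.1 (hG' x).1).1 (abs_le.1 (hG' x).1).2).trans
          (pow_le_pow_left₀ (sq_nonneg η) (by nlinarith [hη.1, hη.2]) 2)
      have n1 := (le_abs_self _).trans (b1 x)
      have n2' := (le_abs_self _).trans (b2 x)
      have n3 := (le_abs_self _).trans (b3 x)
      have t0 := hG.tr_nonneg (k6 α hα).2.1 x
      have j1 := mul_le_mul (hG' x).2 (show _ ≤ B by linarith) t0 (sq_nonneg η)
      have j2 := mul_le_mul i3 (show _ ≤ B by linarith) (k4 (mu M (ph M H) α) m x).2.1 (sq_nonneg η)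
      have j3 := mul_le_mul (show n2 M H m x ≤ B by linarith)
        (show _ ≤ 4 * (η ^ 2 * B) by linarith)
        (k4 (bet M H α fun y => G y - Real.exp (-v y)) m x).2.1 B0.le
      have j4 := (abs_le_of_sq_le_sq' (b := η * (2 * B)) (i1.trans (j3.trans_eq (by ring)))
        (by have := hη.1; positivity)).2
      have j5 := (Complex.re_le_norm _).trans j4
      rwa [e3, Complex.add_re, Complex.re_ofReal_mul] at j5
    have i := integral_mono ((ig _ _ cg).add (ig _ _ (Complex.continuous_re.comp c2')))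
      (integrable_const (η * (2 * B))) pt
    rw [integral_add' (ig _ _ cg) (ig _ _ (Complex.continuous_re.comp c2')), integral_const] at i
    simp only [Function.comp_def, z', smul_eq_mul] at i
    linarith
  have le0 : ∫ x, Real.exp (-v x) * n2 M H m x ∂M.mu H ≤ 0 := by
    have t : Tendsto (fun η : ℝ => η * (2 * B * (M.mu H).real univ)) (𝓝[>] 0) (𝓝 (0 * _)) :=
      (tendsto_id.mono_left nhdsWithin_le_nhds).mul_const _
    rw [zero_mul] at t
    exact ge_of_tendsto t (mem_of_superset (Ioc_mem_nhdsGT one_pos) key)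
  have z := (cg.ae_eq_iff_eq (M.mu H) continuous_const).1
    ((integral_eq_zero_iff_of_nonneg g0 (ig _ _ cg)).1 (le_antisymm le0 (integral_nonneg g0)))
  intro e he w hw
  have z1 := (mul_eq_zero.1 (congrFun z (e.symm w))).resolve_left (Real.exp_pos _).ne'
  rw [rN e he w hw, div_eq_zero_iff, or_iff_left (pd_det_re (hG.pos e he w hw)).ne'] at z1
  exact (((hP n (H e w)).2.2.2.2 (hG.pos e he w hw)).1 _ (m e w)).2.2.1 z1

end Pool.Agent.Lib.F4.LD
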