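import Pool.Agent.Lib.F4.BlueD
import Pool.Agent.Lib.HS32.B_HOL

/-! Project f4, row MUH: the covariant derivative of the form is holomorphic. -/

open scoped Classical Topology ContDiff Matrix
open Set MeasureTheory Complex Metric Filter

set_option linter.unusedVariables false

noncomputable section

namespace Pool.Agent.Lib.F4.LD

open Pool.Agent.Lib.SV (E)
open Pool.Agent.Lib.HS32
open Pool.Agent.Lib.EXH (aw)

namespace MUH

variable {n : ℕ} {U : Set (E n)}

theorem euc (hW : St_WRU) {u a : Fin n → E n → ℂ} {g : Fin n → Fin n → E n → ℂ} (hU : IsOpen U)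
    (hu : ∀ k, ContinuousOn (u k) U) (hg : ∀ k l, LocallyIntegrableOn (g k l) U)
    (hw : ∀ k, Wd U (u k) (g k)) (ha : ∀ k, DifferentiableOn ℂ (a k) U) (i j : Fin n)
    (h0 : ∀ l, ∀ z ∈ U, g i l z * a j z - g j l z * a i z = 0) :
    DifferentiableOn ℂ (fun z => u i z * a j z - u j z * a i z) U := by
  have m := hU.measurableSet
  have c : ∀ k l, ContinuousOn (fun z => u k z * a l z) U := fun k l =>
    (hu k).mul (ha l).continuousOn
  have d : ∀ k l p, LocallyIntegrableOn (fun z => g k p z * a l z) U := fun k l p =>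
    (hg k p).mul_continuousOn (ha l).continuousOn hU.isLocallyClosed
  have w : ∀ k l, Wd U (fun z => u k z * a l z) fun p z => g k p z * a l z := fun k l =>
    (hW n U _ (u k) _ (g k) hU ((hu k).locallyIntegrableOn m) (hg k) (hw k)).2.2.1 _ (ha l)
  have s := ((hW n U _ _ _ _ hU ((c i j).locallyIntegrableOn m) (d i j) (w i j)).2.1
    ((c j i).locallyIntegrableOn m) (d j i) (w j i)).2
  exact (hW n U _ (u i) _ (g i) hU (((c i j).sub (c j i)).locallyIntegrableOn m)
    (fun l => (d i j l).sub (d j i l)) s).2.2.2 h0 ((c i j).sub (c j i))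

theorem cdz {f : E n → ℂ} {z : E n} (h : ContDiffAt ℝ 1 f z) (k : Fin n) :
    ContinuousAt (dz k f) z := by
  have c : ∀ v, ContinuousAt (fun w => fderiv ℝ f w v) z := fun v =>
    ((h.fderiv_right (m := 0) (by simp)).continuousAt).clm_apply continuousAt_const
  exact ((c _).sub (continuousAt_const.mul (c _))).div_const 2

end MUH

theorem st_MUH (hB : St_BTB) (hM : St_MUS) (hP : St_WPT) (hW : St_WRU) : St_MUH := by
  intro n M H α f v hH h1 so
  obtain ⟨wt, hw, hs, -⟩ := hM n M H α hH h1
  obtain ⟨-, -, -, b4, b5, -⟩ := hB n M H α v hH h1 so.c1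
  refine ⟨fun e he c hc i j => ?_, fun e he z hz => ?_, fun e he e' he' x hx hx' => ?_⟩
  · obtain ⟨r, r0, hr⟩ := Metric.nhds_basis_closedBall.mem_iff.1 (e.open_target.mem_nhds hc)
    have sub : ∀ z ∈ ball c r, z ∈ e.target := fun z hz => hr (ball_subset_closedBall hz)
    have m : MeasurableSet (ball c r) := measurableSet_ball
    have sP : ∀ z ∈ ball c r, ContDiffAt ℝ ∞ (fun w => (ph M H e w : ℂ)) z := fun z hz =>
      cd_ofReal (wt.sm e he z (sub z hz))
    have c1 : ∀ k, ContDiffOn ℝ 1 (dz k fun w => (ph M H e w : ℂ)) (ball c r) := fun k z hz =>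
      (cd_le (cd_dz (sP z hz) k) 1).contDiffWithinAt
    have c2 : ∀ k l, LocallyIntegrableOn (dzb l (dz k fun w => (ph M H e w : ℂ))) (ball c r) :=
      fun k l => ContinuousOn.locallyIntegrableOn
        (fun z hz => (cd_dzb (cd_dz (sP z hz) k) l).continuousAt.continuousWithinAt) m
    have c3 : ∀ k, ContinuousOn (dz k (M.lc v e)) (ball c r) := fun k z hz =>
      (MUH.cdz (f := M.lc v e) (ofRealCLM.contDiff.contDiffAt.comp z
        (so.c1 e he z (sub z hz))) k).continuousWithinAt
    have c4 : ∀ k l, LocallyIntegrableOn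
        (fun z => (fs M f (aa M H α) - -M.ric H) e z l k) (ball c r) := fun k l =>
      ((so.wk e he c r hr k).1 l).locallyIntegrableOn
    have D := MUH.euc hW (a := fun k w => α e w k) isOpen_ball
      (fun k => (c1 k).continuousOn.add (c3 k)) (fun k l => (c2 k l).add (c4 k l))
      (fun k => ((hW n _ _ _ _ _ isOpen_ball ((c1 k).continuousOn.locallyIntegrableOn m) (c2 k)
        (hP n _ _ isOpen_ball (c1 k)).1).2.1 ((c3 k).locallyIntegrableOn m) (c4 k)
        (so.wk e he c r hr k).2).1)
      (fun k z hz => (h1.hol e he z (sub z hz) k).self_of_nhds.differentiableWithinAt) i j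
      fun l z hz => by
        have q : ∀ k, dzb l (dz k fun w => (ph M H e w : ℂ)) z = (-M.ric H) e z l k := fun k =>
          congrFun (congrFun (congrFun (congrFun hw e) z) l) k
        simp only [Pi.add_apply, q, Pi.sub_apply, Matrix.sub_apply, fs, aa, Matrix.smul_apply,
          Matrix.vecMulVec_apply, real_smul, smul_eq_mul]
        ring
    filter_upwards [ball_mem_nhds c r0] with z hz
    have a1 := (BHOL.hol_dz (h1.hol e he z (sub z hz) j) i).self_of_nhds
    have a2 := (BHOL.hol_dz (h1.hol e he z (sub z hz) i) j).self_of_nhds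
    refine ((D.differentiableAt (isOpen_ball.mem_nhds hz)).sub (a1.sub a2)).congr_of_eventuallyEq ?_
    filter_upwards [isOpen_ball.mem_nhds hz] with w hw'
    rw [b4 e he w (sub w hw')]
    simp only [mu, da, wg, gd, d1, Matrix.add_apply, Matrix.sub_apply, Matrix.of_apply,
      Pi.add_apply, Pi.sub_apply]
    ring
  · ext i j
    simp only [mu, wg, d1, Matrix.transpose_apply, Matrix.sub_apply, Matrix.neg_apply,
      Matrix.of_apply]
    ring
  · beta_reduce
    rw [b4 e' he' _ (e'.map_source hx'), b4 e he _ (e.map_source hx), b5 e he e' he' x hx hx',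
      (hs _ wt).1.cmp e he e' he' x hx hx', zpow_one, Matrix.mul_add, Matrix.add_mul, smul_add]

end Pool.Agent.Lib.F4.LD
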