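import Pool.Agent.Lib.F4.BlueD0
import Pool.Agent.Lib.HS32.MAll

/-! Project f4: the mixed product of a closed form and of a complex Hessian has integral zero. -/

open scoped Classical Topology ContDiff ComplexOrder Matrix ENNReal
open Set MeasureTheory Complex Metric Filter

set_option linter.unusedVariables false

noncomputable section

namespace Pool.Agent.Lib.F4.LD

open Pool.Agent.Lib.SV (E)
open Pool.Agent.Lib.HS32

namespace MXC

open Polynomial

theorem poly_int {Y : Type} [MeasurableSpace Y] (μ : Measure Y) (P : Y → ℂ[X]) (n : ℕ)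
    (hdeg : ∀ x, (P x).natDegree ≤ n)
    (hi : ∀ i : ℕ, Integrable (fun x => (P x).eval (i : ℂ)) μ)
    (h0 : ∀ i : ℕ, ∫ x, (P x).eval (i : ℂ) ∂μ = 0) :
    Integrable (fun x => (P x).coeff 1) μ ∧ ∫ x, (P x).coeff 1 ∂μ = 0 := by
  have hv : Set.InjOn (fun i : ℕ => (i : ℂ)) (Finset.range (n + 1)) :=
    fun a _ b _ h => Nat.cast_injective h
  have hP : ∀ x, P x = ∑ i ∈ Finset.range (n + 1), C ((P x).eval (i : ℂ)) *
      Lagrange.basis (Finset.range (n + 1)) (fun i : ℕ => (i : ℂ)) i := fun x => by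
    have := Lagrange.eq_interpolate (f := P x) hv (by
      rw [Finset.card_range]
      exact lt_of_le_of_lt degree_le_natDegree (by exact_mod_cast Nat.lt_succ_of_le (hdeg x)))
    rwa [Lagrange.interpolate_apply] at this
  have e1 : (fun x => (P x).coeff 1) = fun x => ∑ i ∈ Finset.range (n + 1), (P x).eval (i : ℂ) *
      (Lagrange.basis (Finset.range (n + 1)) (fun i : ℕ => (i : ℂ)) i).coeff 1 := by
    funext x
    conv_lhs => rw [hP x]
    simp only [finsetSum_coeff, coeff_C_mul]
  rw [e1]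
  refine ⟨integrable_finsetSum _ fun i _ => (hi i).mul_const _, ?_⟩
  rw [integral_finsetSum _ fun i _ => (hi i).mul_const _]
  refine Finset.sum_eq_zero fun i _ => ?_
  rw [integral_mul_const, h0 i, zero_mul]

variable {n : ℕ}

/-- The line of matrices. -/
def ln (H S : Mat n) : Matrix (Fin n) (Fin n) ℂ[X] := (X : ℂ[X]) • S.map C + H.map C

theorem adj_eval (H S : Mat n) (t : ℂ) (i j : Fin n) :
    ((ln H S).adjugate i j).eval t = (H + t • S).adjugate i j := by
  have h := RingHom.map_adjugate (evalRingHom t) (ln H S)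
  rw [ln, BCOH.ev_mat] at h
  rw [← h]
  rfl

theorem adj_deg (H S : Mat n) (i j : Fin n) : ((ln H S).adjugate i j).natDegree ≤ n := by
  have e : (ln H S).updateRow j (Pi.single i 1) =
      (X : ℂ[X]) • (S.updateRow j 0).map C + (H.updateRow j (Pi.single i 1)).map C := by
    ext a b : 2
    by_cases h : a = j
    · subst h
      by_cases h2 : b = i
      · subst h2; simp
      · simp [Pi.single_eq_of_ne h2]
    · simp [Matrix.updateRow_ne h, ln]
  rw [Matrix.adjugate_apply, e]
  exact (natDegree_det_X_add_C_le _ _).trans (by simp)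

/-- The trace of the cofactor matrix against a fixed matrix. -/
def q (H S A : Mat n) : ℂ[X] := ∑ i, ∑ j, (ln H S).adjugate i j * C (A j i)

theorem q_eval (H S A : Mat n) (t : ℂ) :
    (q H S A).eval t = ((H + t • S).adjugate * A).trace := by
  simp only [q, eval_finsetSum, eval_mul, eval_C, adj_eval, Matrix.trace, Matrix.diag_apply,
    Matrix.mul_apply]

theorem q_deg (H S A : Mat n) : (q H S A).natDegree ≤ n :=
  natDegree_sum_le_of_forall_le _ _ fun i _ => natDegree_sum_le_of_forall_le _ _ fun j _ =>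
    (natDegree_mul_C_le _ _).trans (adj_deg H S i j)

theorem adj_one (H S : Mat n) :
    H.adjugate * S + (Matrix.of fun i j => ((ln H S).adjugate i j).coeff 1) * H =
      (H.adjugate * S).trace • (1 : Mat n) := by
  ext i j
  have h := congrArg (fun p : ℂ[X] => p.coeff 1)
    (congrFun (congrFun (Matrix.adjugate_mul (ln H S)) i) j)
  have d : (ln H S).det.coeff 1 = (H.adjugate * S).trace := by
    have h1 := BCOH.pl_deriv H S 0
    rw [← coeff_zero_eq_eval_zero, coeff_derivative] at h1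
    simpa [BCOH.pl, ln] using h1
  have c0 : ∀ a b, ((ln H S).adjugate a b).coeff 0 = H.adjugate a b := fun a b => by
    rw [coeff_zero_eq_eval_zero, adj_eval]; simp
  have l0 : ∀ a b, (ln H S a b).coeff 0 = H a b := fun a b => by simp [ln]
  have l1 : ∀ a b, (ln H S a b).coeff 1 = S a b := fun a b => by simp [ln, coeff_C]
  simp only [Matrix.mul_apply, finsetSum_coeff, mul_coeff_one, c0, l0, l1,
    Finset.sum_add_distrib] at h
  simp only [Matrix.add_apply, Matrix.mul_apply, Matrix.of_apply]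
  rw [h]
  by_cases hij : i = j
  · subst hij; simp [d]
  · simp [Matrix.one_apply_ne hij]

theorem q_one (H S A : Mat n) (hH : H.det ≠ 0) : (q H S A).coeff 1 * H.det⁻¹ =
    (H⁻¹ * S).trace * (H⁻¹ * A).trace - (H⁻¹ * S * H⁻¹ * A).trace := by
  set B : Mat n := Matrix.of fun i j => ((ln H S).adjugate i j).coeff 1 with hB
  have hu : IsUnit H.det := isUnit_iff_ne_zero.2 hH
  have e1 : (q H S A).coeff 1 = (B * A).trace := by
    simp only [q, finsetSum_coeff, coeff_mul_C, Matrix.trace, Matrix.diag_apply,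
      Matrix.mul_apply, hB, Matrix.of_apply]
  have ea : H.adjugate = H.det • H⁻¹ := by
    rw [Matrix.inv_def, Ring.inverse_eq_inv', smul_smul, mul_inv_cancel₀ hH, one_smul]
  have e2 : B = H.det • ((H⁻¹ * S).trace • H⁻¹ - H⁻¹ * S * H⁻¹) := by
    have h := adj_one H S
    rw [← hB, ea] at h
    have h2 : B = (B * H) * H⁻¹ := by rw [Matrix.mul_nonsing_inv_cancel_right _ _ hu]
    rw [h2, eq_sub_of_add_eq' h]
    simp only [Matrix.sub_mul, Matrix.smul_mul, Matrix.one_mul, Matrix.trace_smul, smul_sub,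
      smul_smul, smul_eq_mul]
  rw [e1, e2]
  simp only [Matrix.smul_mul, Matrix.sub_mul, Matrix.trace_smul, Matrix.trace_sub, smul_eq_mul]
  field_simp

end MXC

open MXC Polynomial in
theorem st_MXC : St_MXC := by
  intro n M _ H S v hK hS hv
  have hH : M.Met H := hK.toMet
  have hA : M.Clo (M.hs v) := (mHES n M).1 v hv
  have hL := BCOH.clo_line hK.toClo hS
  obtain ⟨i1, i2, i3, i4, -⟩ := mINV n M H hH
  obtain ⟨-, -, -, -, hI, -⟩ := mMU n M H hH
  have g := fun t : ℝ => BGRN.part1 mCHN mCOF mTR mDIV M H _ (fun x => (v x : ℂ)) (fun _ => 1) hH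
    (hL t).toTen (hL t).cl (fun e he z hz => cd_ofReal (hv e he z hz))
    (fun e he z hz => contDiffAt_const)
  have ev : ∀ t : ℝ, (fun x => (q (M.ev H x) (M.ev S x) (M.ev (M.hs v) x) *
      C (M.ev H x).det⁻¹).eval (t : ℂ)) = M.ev fun e z => ((H e z + (t : ℂ) • S e z).adjugate *
        (dd ((fun x => (v x : ℂ)) ∘ e.symm) ((fun _ => (1 : ℂ)) ∘ e.symm) z +
          (1 : ℂ) • hess ((fun x => (v x : ℂ)) ∘ e.symm) z)).trace / (H e z).det := fun t => by
    funext x
    have d0 : dd ((fun x => (v x : ℂ)) ∘ (M.ch x).symm) ((fun _ => (1 : ℂ)) ∘ (M.ch x).symm)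
        (M.ch x x) = 0 := by
      ext i j
      simp [Function.comp_def]
    simp only [Mf.ev, d0, zero_add, one_smul, eval_mul, eval_C, q_eval, div_eq_mul_inv]
    rfl
  obtain ⟨m1, m2⟩ := poly_int (M.mu H)
    (fun x => q (M.ev H x) (M.ev S x) (M.ev (M.hs v) x) * C (M.ev H x).det⁻¹) n
    (fun x => (natDegree_mul_C_le _ _).trans (q_deg _ _ _))
    (fun i => by
      have h := ev (i : ℝ)
      rw [ofReal_natCast] at h
      rw [h, ← ofReal_natCast]
      exact hI ℂ _ (g i).2.1.continuous)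
    (fun i => by
      have h := ev (i : ℝ)
      rw [ofReal_natCast] at h
      rw [h, ← ofReal_natCast]
      exact (g i).2.2)
  have e : ∀ x, (q (M.ev H x) (M.ev S x) (M.ev (M.hs v) x) * C (M.ev H x).det⁻¹).coeff 1 =
      ((M.tr H S x * M.tr H (M.hs v) x - M.ip H S (M.hs v) x : ℝ) : ℂ) := fun x => by
    have a1 := (Mf.AllOn.ch (i2 _ hS.toForm) x).1
    have a2 := (Mf.AllOn.ch (i2 _ hA.toForm) x).1
    have a3 := Mf.AllOn.ch (i4 _ _ hS.toForm hA.toForm) x
    rw [Mf.ch_symm] at a1 a2 a3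
    have hd : (M.ev H x).det ≠ 0 := Mf.pd_det_ne (Mf.AllOn.ch hH.pos x)
    rw [coeff_mul_C, q_one _ _ _ hd, ofReal_sub, ofReal_mul, a1, a2, a3]
    rfl
  have m3 : ∫ x, ((M.tr H S x * M.tr H (M.hs v) x - M.ip H S (M.hs v) x : ℝ) : ℂ) ∂M.mu H = 0 := by
    rw [← m2]
    exact integral_congr_ae (ae_of_all _ fun x => (e x).symm)
  rw [integral_complex_ofReal] at m3
  exact ofReal_eq_zero.1 m3

end Pool.Agent.Lib.F4.LD
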