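import Pool.Agent.Lib.F4.BlueD0

/-! Project f4: the two intersection numbers of a nef class. -/

open scoped Classical Topology ContDiff ComplexOrder Matrix
open Set MeasureTheory Filter

noncomputable section

namespace Pool.Agent.Lib.F4.LD

open Pool.Agent.Lib.SV (E)
open Pool.Agent.Lib.HS32

namespace NF88

theorem lim {a b c : ℝ} (h : ∀ ε ∈ Ioc (0 : ℝ) 1, 0 ≤ a + ε * b + ε ^ 2 * c) : 0 ≤ a := by
  have t : Tendsto (fun ε : ℝ => a + ε * b + ε ^ 2 * c) (𝓝[>] 0) (𝓝 (a + 0 * b + 0 ^ 2 * c)) :=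
    (Continuous.tendsto (by fun_prop) 0).mono_left nhdsWithin_le_nhds
  have r := ge_of_tendsto t (by
    filter_upwards [Ioc_mem_nhdsGT (zero_lt_one (α := ℝ))] with ε hε using h ε hε)
  simpa using r

variable {n : ℕ} {M : Mf n} {H : M.Fam (Mat n)}

/-- The mixed term. -/
def mq (M : Mf n) (H S T : M.Fam (Mat n)) (x : M.X) : ℝ :=
  M.tr H S x * M.tr H T x - M.ip H S T x

theorem mq_add (S T : M.Fam (Mat n)) (x : M.X) :
    mq M H (S + T) (S + T) x = mq M H S S x + (2 * mq M H S T x + mq M H T T x) := by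
  have a : M.ip H (S + T) S x = M.ip H S S x + M.ip H S T x := by rw [Mf.ip_comm, Mf.ip_add]
  have b : M.ip H (S + T) T x = M.ip H S T x + M.ip H T T x := by
    rw [Mf.ip_comm, Mf.ip_add, Mf.ip_comm (S := T) (T := S)]
  simp only [mq]
  rw [Mf.ip_add, a, b, Mf.tr_add]
  ring

theorem mq_smul (S T : M.Fam (Mat n)) (c : ℝ) (x : M.X) :
    mq M H S (c • T) x = c * mq M H S T x := by
  simp only [mq]
  rw [Mf.ip_smul, Mf.tr_smul]
  ring

theorem mq_smul2 (T : M.Fam (Mat n)) (c : ℝ) (x : M.X) :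
    mq M H (c • T) (c • T) x = c ^ 2 * mq M H T T x := by
  simp only [mq]
  rw [Mf.ip_smul, Mf.ip_comm, Mf.ip_smul, Mf.tr_smul]
  ring

theorem itr [M.Cpt] (hH : M.Met H) {T : M.Fam (Mat n)} (hT : M.Ten T) :
    Integrable (M.tr H T) (M.mu H) :=
  (mMU n M H hH).2.2.2.2.1 _ _ ((mINV n M H hH).1 T hT).2.1.continuous

theorem imq [M.Cpt] (hH : M.Met H) {S T : M.Fam (Mat n)} (hS : M.Ten S) (hT : M.Ten T) :
    Integrable (mq M H S T) (M.mu H) :=
  (mMU n M H hH).2.2.2.2.1 _ _ ((((mINV n M H hH).1 S hS).2.1.mul ((mINV n M H hH).1 T hT).2.1).sub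
    ((mINV n M H hH).2.2.1 S T hS hT).2.1).continuous

theorem int_add [M.Cpt] (hH : M.Met H) {S T : M.Fam (Mat n)} (hS : M.Ten S) (hT : M.Ten T) :
    ∫ x, mq M H (S + T) (S + T) x ∂M.mu H = ∫ x, mq M H S S x ∂M.mu H +
      (2 * ∫ x, mq M H S T x ∂M.mu H + ∫ x, mq M H T T x ∂M.mu H) := by
  have i1 : Integrable (fun x => 2 * mq M H S T x) (M.mu H) := (imq hH hS hT).const_mul 2
  have i2 : Integrable (fun x => 2 * mq M H S T x + mq M H T T x) (M.mu H) :=
    i1.add (imq hH hT hT)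
  simp only [mq_add]
  rw [integral_add (imq hH hS hS) i2, integral_add i1 (imq hH hT hT), integral_const_mul]

end NF88

open NF88

theorem st_NF2 (hX : St_MXC) (hP : St_PSD) : St_NF2 := by
  intro n M _ H a hH ho
  have hm := hH.toMet
  have cθ : M.Clo (-M.ric H) := ((mHES n M).2.2.2.2.2.2.2.2.1 H hm).neg
  have key : ∀ ε ∈ Ioc (0 : ℝ) 1, M.Le 0 (-M.ric H + ε • H + M.hs (a ε)) := fun ε hε => by
    have h := (ho.kae ε hε).toMet.nonneg
    rwa [zero_sub] at h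
  constructor
  · refine lim (b := ∫ x, M.tr H H x ∂M.mu H) (c := 0) fun ε hε => ?_
    have cv := (mHES n M).1 _ (ho.sm ε hε)
    have h0 : 0 ≤ ∫ x, M.tr H (-M.ric H + ε • H + M.hs (a ε)) x ∂M.mu H :=
      integral_nonneg fun x => hm.tr_nonneg (key ε hε) x
    have i1 : Integrable (fun x => ε * M.tr H H x) (M.mu H) := (itr hm hm.toTen).const_mul ε
    have i2 : Integrable (fun x => M.tr H (-M.ric H) x + ε * M.tr H H x) (M.mu H) :=
      (itr hm cθ.toTen).add i1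
    have z : ∫ x, M.tr H (M.hs (a ε)) x ∂M.mu H = 0 :=
      ((mGRN n M).2 H (a ε) (a ε) hH (ho.sm ε hε) (ho.sm ε hε)).1
    simp only [Mf.tr_add, Mf.tr_smul] at h0
    rw [integral_add i2 (itr hm cv.toTen), integral_add (itr hm cθ.toTen) i1, integral_const_mul,
      z] at h0
    linarith
  · refine lim (a := ∫ x, mq M H (-M.ric H) (-M.ric H) x ∂M.mu H)
      (b := 2 * ∫ x, mq M H (-M.ric H) H x ∂M.mu H) (c := ∫ x, mq M H H H x ∂M.mu H)
      fun ε hε => ?_
    have cv := (mHES n M).1 _ (ho.sm ε hε)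
    have cH : M.Clo (ε • H) := hH.toClo.smul ε
    have cS : M.Clo (-M.ric H + ε • H) := cθ.add cH
    have h0 : 0 ≤ ∫ x, mq M H (-M.ric H + ε • H + M.hs (a ε)) (-M.ric H + ε • H + M.hs (a ε)) x
        ∂M.mu H :=
      integral_nonneg fun x => sub_nonneg.2 ((hP n M H hm x).1 _ _ (key ε hε) (key ε hε))
    have z1 : ∫ x, mq M H (-M.ric H + ε • H) (M.hs (a ε)) x ∂M.mu H = 0 :=
      hX n M H _ _ hH cS (ho.sm ε hε)
    have z2 : ∫ x, mq M H (M.hs (a ε)) (M.hs (a ε)) x ∂M.mu H = 0 :=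
      hX n M H _ _ hH cv (ho.sm ε hε)
    rw [int_add hm cS.toTen cv.toTen, z1, z2, int_add hm cθ.toTen cH.toTen] at h0
    simp only [mq_smul2] at h0
    simp only [mq_smul, integral_const_mul] at h0
    linarith

end Pool.Agent.Lib.F4.LD
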