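import Pool.Agent.Lib.F4.BlueD0

/-! Project f4: pointwise inequalities for Hermitian matrices. -/

open scoped Classical Topology ContDiff ComplexOrder Matrix ENNReal
open Set MeasureTheory Complex Metric Filter

set_option linter.unusedVariables false

noncomputable section

namespace Pool.Agent.Lib.F4.LD

open Pool.Agent.Lib.SV (E)
open Pool.Agent.Lib.HS32

namespace P23

variable {n : ℕ}

/-- The sum of the squares of the entries. -/
def fro (A : Mat n) : ℝ := ∑ i, ∑ j, ‖A i j‖ ^ 2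

theorem fro_nonneg (A : Mat n) : 0 ≤ fro A :=
  Finset.sum_nonneg fun _ _ => Finset.sum_nonneg fun _ _ => sq_nonneg _

theorem tr_fro (A : Mat n) : (A * Aᴴ).trace.re = fro A := by
  simp only [Matrix.trace, Matrix.diag, Matrix.mul_apply, Matrix.conjTranspose_apply, re_sum, fro]
  refine Finset.sum_congr rfl fun i _ => Finset.sum_congr rfl fun j _ => ?_
  rw [star_def, mul_conj, ofReal_re, Complex.normSq_eq_norm_sq]

theorem fro_mul (A B : Mat n) : fro (A * Bᴴ) ≤ fro A * fro B := by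
  unfold fro
  rw [Finset.sum_mul_sum]
  refine Finset.sum_le_sum fun i _ => Finset.sum_le_sum fun j _ => ?_
  refine le_trans ?_ (Finset.sum_mul_sq_le_sq_mul_sq Finset.univ (fun k => ‖A i k‖)
    fun k => ‖B j k‖)
  refine pow_le_pow_left₀ (norm_nonneg _) ?_ 2
  rw [Matrix.mul_apply]
  refine (norm_sum_le _ _).trans (Finset.sum_le_sum fun k _ => ?_)
  rw [norm_mul, Matrix.conjTranspose_apply, norm_star]

theorem tr_sq (A : Mat n) : A.trace.re ^ 2 ≤ n * fro A := by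
  have h1 : A.trace.re = ∑ i, (A i i).re := by simp [Matrix.trace, re_sum]
  have h2 := sq_sum_le_card_mul_sum_sq (s := Finset.univ) (f := fun i => (A i i).re)
  rw [Finset.card_univ, Fintype.card_fin] at h2
  rw [h1]
  refine h2.trans (mul_le_mul_of_nonneg_left ?_ (Nat.cast_nonneg n))
  refine Finset.sum_le_sum fun i _ => ?_
  refine le_trans ?_ (Finset.single_le_sum (f := fun j => ‖A i j‖ ^ 2)
    (fun _ _ => sq_nonneg _) (Finset.mem_univ i))
  exact sq_le_sq' (by linarith [(abs_le.1 (abs_re_le_norm (A i i))).1]) (re_le_norm _)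

theorem psd_ip {G S T : Mat n} (hG : G.PosDef) (hS : S.PosSemidef) (hT : T.PosSemidef) :
    (G⁻¹ * S * G⁻¹ * T).trace.re ≤ (G⁻¹ * S).trace.re * (G⁻¹ * T).trace.re := by
  obtain ⟨W, hW⟩ := Mf.psd_factor hG.inv.posSemidef
  obtain ⟨A, rfl⟩ := Mf.psd_factor hS
  obtain ⟨B, rfl⟩ := Mf.psd_factor hT
  have h1 : ∀ C : Mat n, (G⁻¹ * (Cᴴ * C)).trace = (C * Wᴴ * (C * Wᴴ)ᴴ).trace := fun C => by
    rw [hW, Matrix.conjTranspose_mul, Matrix.conjTranspose_conjTranspose, ← Matrix.mul_assoc,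
      Matrix.trace_mul_comm]
    simp only [Matrix.mul_assoc]
  have h2 : (G⁻¹ * (Aᴴ * A) * G⁻¹ * (Bᴴ * B)).trace =
      (B * Wᴴ * (A * Wᴴ)ᴴ * (B * Wᴴ * (A * Wᴴ)ᴴ)ᴴ).trace := by
    rw [hW, ← Matrix.mul_assoc, Matrix.trace_mul_comm]
    simp only [Matrix.conjTranspose_mul, Matrix.conjTranspose_conjTranspose, Matrix.mul_assoc]
  rw [h1, h1, h2, tr_fro, tr_fro, tr_fro, mul_comm]
  exact fro_mul _ _

theorem herm_ip {G S : Mat n} (hG : G.PosDef) (hS : S.IsHermitian) :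
    0 ≤ (G⁻¹ * S * G⁻¹ * S).trace.re ∧
      (G⁻¹ * S).trace.re ^ 2 ≤ n * (G⁻¹ * S * G⁻¹ * S).trace.re := by
  obtain ⟨W, hW⟩ := Mf.psd_factor hG.inv.posSemidef
  have h1 : (G⁻¹ * S).trace = (W * S * Wᴴ).trace := by
    rw [hW, Matrix.mul_assoc, Matrix.trace_mul_comm]
  have h2 : (G⁻¹ * S * G⁻¹ * S).trace = (W * S * Wᴴ * (W * S * Wᴴ)ᴴ).trace := by
    rw [hW, Matrix.mul_assoc, Matrix.mul_assoc, Matrix.mul_assoc, Matrix.trace_mul_comm]
    simp only [Matrix.conjTranspose_mul, Matrix.conjTranspose_conjTranspose, Matrix.mul_assoc,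
      hS.eq]
  rw [h1, h2, tr_fro]
  exact ⟨fro_nonneg _, tr_sq _⟩

end P23

open P23 in
theorem st_PSD : St_PSD := by
  intro n M H hH x
  have k : ∀ S, M.Form S → 0 ≤ M.ip H S S x ∧ M.tr H S x ^ 2 ≤ n * M.ip H S S x := fun S hS =>
    herm_ip (hH.ev_pos x) (Mf.AllOn.ch hS.herm x)
  refine ⟨fun S T hS hT => ?_, fun S hS => ⟨(k S hS).1, (k S hS).2, fun T hT => ?_⟩,
    fun f S T => ⟨Mf.tr_fsmul f, ?_, fun hf hS => hS.fsmul hf⟩⟩
  · have h1 := Mf.AllOn.ch hS x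
    have h2 := Mf.AllOn.ch hT x
    simp only [Pi.zero_apply, sub_zero] at h1 h2
    exact psd_ip (hH.ev_pos x) h1 h2
  · have h1 := (k _ (hS.add hT)).1
    have h2 := (k _ (hS.sub hT)).1
    have e1 : M.ip H (S + T) (S + T) x = M.ip H S S x + 2 * M.ip H S T x + M.ip H T T x := by
      rw [Mf.ip_add, Mf.ip_comm (S := S + T), Mf.ip_comm (S := S + T), Mf.ip_add, Mf.ip_add,
        Mf.ip_comm (S := T) (T := S)]
      ring
    have e2 : M.ip H (S - T) (S - T) x = M.ip H S S x - 2 * M.ip H S T x + M.ip H T T x := by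
      rw [Mf.ip_sub, Mf.ip_comm (S := S - T), Mf.ip_comm (S := S - T), Mf.ip_sub, Mf.ip_sub,
        Mf.ip_comm (S := T) (T := S)]
      ring
    constructor <;> linarith
  · simp [Mf.ip, Mf.ev, fs, Mf.ch_symm]

end Pool.Agent.Lib.F4.LD
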