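import Pool.Agent.Lib.F4.BlueD0
import Pool.Agent.Lib.KP.B_HARM

/-! Project f4, row PW: the inequality of Poincaré on a compact Kähler manifold. -/

open scoped Classical Topology ContDiff ComplexOrder Matrix ENNReal
open Set MeasureTheory Complex Metric Filter

set_option linter.unusedVariables false

noncomputable section

namespace Pool.Agent.Lib.F4.LD

open Pool.Agent.Lib.SV (E)
open Pool.Agent.Lib.HS32 Pool.Agent.Lib.HLK

namespace PW26

variable {n : ℕ} {M : Mf n}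

/-- The trivial bundle of rank one. -/
def tb (M : Mf n) : Bun M Unit := ⟨fun _ _ _ => 1, fun _ _ => 1⟩

theorem tb_ok : (tb M).Ok where
  tsm := fun _ _ _ _ _ _ _ _ _ => contDiffAt_const
  one := fun _ _ _ _ => rfl
  mul := fun _ _ _ _ _ _ _ _ _ _ => by simp [tb]
  gsm := fun _ _ _ _ _ _ => contDiffAt_const
  pos := fun _ _ _ _ => Matrix.PosDef.one
  cmp := fun _ _ _ _ _ _ _ => by simp [tb]

theorem tb_hl : (tb M).Hl := fun _ _ _ _ _ _ _ _ _ =>
  Eventually.of_forall fun _ => differentiableAt_const _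

/-- A function as a section. -/
def sc (w : M.X → ℝ) : M.Fam (Unit → ℂ) := fun e z _ => M.lc w e z

theorem sc_sec {w : M.X → ℝ} (hw : M.Sm w) : (tb M).Sec (sc w) where
  sm := fun e he z hz => contDiffAt_pi.2 fun _ => hw.lc e he z hz
  cmp := fun e he e' he' x hx hx' => by
    funext i
    simp only [tb, sc, Mf.lc, Matrix.one_mulVec, e.left_inv hx, e'.left_inv hx']

theorem pn_eq (W : M.Fam (Unit → ℂ)) (x : M.X) : (tb M).pn W x = normSq (M.ev W x ()) := by
  simp only [Bun.pn, Bun.pp, tb, Mf.ev, Matrix.one_mulVec, dotProduct, Finset.univ_unique,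
    Finset.sum_singleton, Pi.star_apply, star_def, ← normSq_eq_conj_mul_self, ofReal_re]

theorem ev_sc (w : M.X → ℝ) (x : M.X) : M.ev (sc w) x () = w x := by
  simp only [Mf.ev, sc, Mf.lc, Mf.ch_symm]

theorem gb_eq (H : M.Fam (Mat n)) {w : M.X → ℝ} (hw : M.Sm w) (x : M.X) :
    gb H (tb M) (sc w) x = M.gr H w w x := by
  have d := cd_diff (Mf.AllOn.ch hw.lc x)
  have e : ∀ k, star (dzb k (M.lc w (M.ch x)) (M.ch x x)) = dz k (M.lc w (M.ch x)) (M.ch x x) :=
    fun k => star_dzb_ofReal d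
  simp only [gb, Mf.gr, Mf.tr, Mf.ds, Mf.ev, tb, Matrix.one_mulVec, dotProduct, Finset.univ_unique,
    Finset.sum_singleton, Pi.star_apply, Matrix.trace, Matrix.diag_apply, Matrix.mul_apply,
    dd_apply]
  congr 1
  refine Finset.sum_congr rfl fun k _ => Finset.sum_congr rfl fun l _ => ?_
  rw [← e k, mul_comm (dzb l _ _)]
  rfl

theorem cst [M.Cpt] {H : M.Fam (Mat n)} (hH : M.Kae H) {V : M.Fam (Unit → ℂ)}
    (hV : (tb M).Sec V) (h : Hol V) : ∃ c : ℝ, ∀ x, (M.ev V x ()).re = c := by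
  have i : M.Inv fun e z => V e z () := fun e he e' he' x hx hx' => by
    have := congrFun (hV.cmp e he e' he' x hx hx') ()
    simpa only [tb, Matrix.one_mulVec] using this.symm
  have s : M.Sm (M.ev fun e z => V e z ()) :=
    i.sm fun e he z hz => contDiffAt_pi.1 (hV.sm e he z hz) ()
  refine KP.st_HARM n M H (fun x => (M.ev (fun e z => V e z ()) x).re) hH s.re fun x => ?_
  obtain ⟨h1, -, h2, -⟩ := (mHOL n _ _).2.2 (Mf.AllOn.ch h x ())
  have e : M.lc (fun x => (M.ev (fun e z => V e z ()) x).re) (M.ch x) =ᶠ[𝓝 (M.ch x x)]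
      fun z => (1 / 2 : ℂ) * (V (M.ch x) z () + star (V (M.ch x) z ())) := by
    filter_upwards [(M.ch x).open_target.mem_nhds (Mf.ch_tgt x)] with z hz
    rw [Mf.lc, i.rep _ (Mf.ch_mem x) z hz, re_eq_add_conj, star_def]
    ring
  have e2 : M.ev (M.hs fun x => (M.ev (fun e z => V e z ()) x).re) x = 0 := by
    rw [Mf.ev, Mf.hs, hess_congr e, hess_const_mul _ (h1.add (cd_star h1)),
      hess_add h1 (cd_star h1), hess_star h1, h2]
    simp
  simp [Mf.lap, Mf.tr, e2]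

theorem gr_mul {H : M.Fam (Mat n)} (hH : M.Met H) {w : M.X → ℝ} (hw : M.Sm w) (s : ℝ) (x : M.X) :
    M.gr H (fun y => s * w y) (fun y => s * w y) x = s ^ 2 * M.gr H w w x := by
  have d : ∀ t, deriv (fun t : ℝ => s * t) t = s := fun t => by simp
  have h : ∀ g, M.Sm g → M.gr H (fun y => s * w y) g x = s * M.gr H w g x := fun g hg => by
    have := ((((mLAP n M w g hw hg).2.2 H hH).2.2.2.1 (fun t => s * t) fun _ => by fun_prop) x).2
    rwa [d] at this
  rw [h _ (hw.const_mul s), (((mLAP n M w _ hw (hw.const_mul s)).2.2 H hH).2.2.1 x 0).2.2.2.2.2.1,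
    h _ hw]
  ring

theorem one (hVL : HLK.St_VL) [M.Cpt] {H : M.Fam (Mat n)} (hn : 0 < n) (hH : M.Kae H) :
    ∃ C : ℝ, 0 < C ∧ ∀ w, M.Sm w → ∫ x, w x ∂M.mu H = 0 →
      ∫ x, w x ^ 2 ∂M.mu H ≤ C * ∫ x, M.gr H w w x ∂M.mu H := by
  obtain ⟨-, hfin, -, hv, hi, -⟩ := mMU n M H hH.toMet
  by_contra hc
  push Not at hc
  choose w w1 w2 w3 using fun j : ℕ => hc (j + 1) (by positivity)
  have g0 : ∀ j, 0 ≤ ∫ x, M.gr H (w j) (w j) x ∂M.mu H := fun j => integral_nonneg fun x =>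
    (((mLAP n M _ _ (w1 j) (w1 j)).2.2 H hH.toMet).2.2.1 x 0).2.2.2.2.2.2.1
  have a0 : ∀ j, 0 < ∫ x, w j x ^ 2 ∂M.mu H := fun j =>
    (mul_nonneg (by positivity) (g0 j)).trans_lt (w3 j)
  let s : ℕ → ℝ := fun j => (√(∫ x, w j x ^ 2 ∂M.mu H))⁻¹
  have s2 : ∀ j, s j ^ 2 = (∫ x, w j x ^ 2 ∂M.mu H)⁻¹ := fun j => by
    rw [inv_pow, Real.sq_sqrt (a0 j).le]
  let u : ℕ → M.X → ℝ := fun j x => s j * w j x
  have u1 : ∀ j, M.Sm (u j) := fun j => (w1 j).const_mul _
  have u2 : ∀ j, ∫ x, u j x ∂M.mu H = 0 := fun j => by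
    simp only [u]
    rw [integral_const_mul, w2, mul_zero]
  have u3 : ∀ j, ∫ x, u j x ^ 2 ∂M.mu H = 1 := fun j => by
    simp only [u, mul_pow]
    rw [integral_const_mul, s2, inv_mul_cancel₀ (a0 j).ne']
  have u4 : ∀ j, 0 ≤ ∫ x, gb H (tb M) (sc (u j)) x ∂M.mu H ∧
      ∫ x, gb H (tb M) (sc (u j)) x ∂M.mu H ≤ 1 / (j + 1 : ℝ) := fun j => by
    simp only [gb_eq H (u1 j)]
    simp only [u, gr_mul hH.toMet (w1 j)]
    rw [integral_const_mul, s2, inv_mul_eq_div]
    refine ⟨div_nonneg (g0 j) (a0 j).le, ?_⟩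
    rw [div_le_div_iff₀ (a0 j) (by positivity)]
    linarith [w3 j]
  obtain ⟨V, v1, v2, v3⟩ := hVL n M Unit H (tb M) (Ultrafilter.of atTop) (fun j => sc (u j)) 1 hn
    hH.toMet tb_ok tb_hl (fun j => ⟨sc_sec (u1 j), by
      simp only [Bun.nr, pn_eq, ev_sc, normSq_ofReal, ← sq, u3, le_refl],
      (u4 j).2.trans (by
        rw [div_le_one (by positivity)]
        exact le_add_of_nonneg_left (Nat.cast_nonneg _))⟩)
    ((squeeze_zero (fun j => (u4 j).1) (fun j => (u4 j).2)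
      tendsto_one_div_add_atTop_nhds_zero_nat).mono_left (Ultrafilter.of_le _))
  obtain ⟨c, hc⟩ := cst hH v1 v2
  have k : ∀ j, 1 ≤ (tb M).nr H (sc (u j) - V) := fun j => by
    have i1 := hi ℝ _ ((u1 j).pow 2).continuous
    have i2 := (hi ℝ _ (u1 j).continuous).const_mul (2 * c)
    have e : ∫ x, (u j x ^ 2 - 2 * c * u j x) ∂M.mu H = 1 := by
      rw [integral_sub i1 i2, integral_const_mul, u2, u3, mul_zero, sub_zero]
    have hs : (tb M).Sec (sc (u j) - V) := (tb M).secs.sub_mem (sc_sec (u1 j)) v1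
    rw [← e]
    refine integral_mono (i1.sub i2)
      (hi ℝ _ (continuous_re.comp (tb_ok.pp_rep hs hs).2.continuous)) fun x => ?_
    have e1 : M.ev (sc (u j) - V) x () = u j x - M.ev V x () := by
      rw [← ev_sc]
      rfl
    show _ ≤ (tb M).pn (sc (u j) - V) x
    rw [pn_eq, e1, normSq_apply, sub_re, ofReal_re, hc x]
    nlinarith [mul_self_nonneg ((u j x : ℂ) - M.ev V x ()).im, sq_nonneg c]
  exact absurd (ge_of_tendsto' v3 k) (by norm_num)

end PW26

theorem st_PW (hVL : HLK.St_VL) : St_PW := by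
  intro n M _ H hn hH
  obtain ⟨C, hC, h⟩ := PW26.one hVL hn hH
  obtain ⟨-, -, -, -, hi, -⟩ := mMU n M H hH.toMet
  refine ⟨C, hC.le, fun w hw h0 => ⟨h w hw h0, ?_⟩⟩
  have hl := ((mLAP n M w w hw hw).2.2 H hH.toMet).1
  have g := ((mGRN n M).2 H w w hH hw hw).2.1
  have i1 := hi ℝ _ (hw.pow 2).continuous
  have i2 := (hi ℝ _ (hl.pow 2).continuous).const_mul (C ^ 2)
  have i3 := (hi ℝ _ (hw.mul hl).continuous).const_mul (2 * C)
  have k : 0 ≤ ∫ x, (w x ^ 2 + C ^ 2 * M.lap H w x ^ 2 + 2 * C * (w x * M.lap H w x)) ∂M.mu H :=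
    integral_nonneg fun x => by
      have := sq_nonneg (w x + C * M.lap H w x)
      simp only [Pi.zero_apply]
      nlinarith
  have i4 : Integrable (fun x => w x ^ 2 + C ^ 2 * M.lap H w x ^ 2) (M.mu H) := i1.add i2
  rw [integral_add i4 i3, integral_add i1 i2, integral_const_mul, integral_const_mul,
    g] at k
  refine le_of_mul_le_mul_left ?_ hC
  nlinarith [h w hw h0]

end Pool.Agent.Lib.F4.LD
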