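import Pool.Agent.Lib.F4.BlueD0

/-! Project f4: the inequality of Sobolev for a gradient. -/

open scoped Classical Topology ContDiff ComplexOrder Matrix ENNReal
open Set MeasureTheory Complex Metric Filter

set_option linter.unusedVariables false

noncomputable section

namespace Pool.Agent.Lib.F4.LD

open Pool.Agent.Lib.SV (E)
open Pool.Agent.Lib.HS32

namespace SB2

variable {n : ℕ} {M : Mf n}

/-- The cotangent bundle. -/
def cot (H : M.Fam (Mat n)) : HLK.Bun M (Fin n) where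
  T e e' x := (M.J e' e x)ᵀ
  G e z := ((H e z)⁻¹)ᵀ

/-- The `(1,0)` derivative of a real function. -/
def dv (v : M.X → ℝ) : M.Fam (Fin n → ℂ) := fun e z j => dz j (M.lc v e) z

variable {H : M.Fam (Mat n)}

theorem hl : (cot H).Hl := fun e he e' he' x hx hx' i j => by
  have t1 := ((mTR n M).2.1 e he e' he' x hx hx').1
  have s1 := ((mTR n M).2.1 e' he' e he x hx' hx).1
  have hj : HolN (fun w => jm (e' ∘ e.symm) w j i) (e x) := by
    filter_upwards [((mHOL n _ _).2.2 (BCHN.hol_comp s1 j)).2.1 i,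
      (BCHN.jm_ev mHOL s1 j i).eventually_nhds] with w h1 h2 using h1.congr_of_eventuallyEq h2
  have hc : Tendsto (e ∘ e'.symm) (𝓝 (e' x)) (𝓝 (e x)) := by
    have := t1.self_of_nhds.continuousAt.tendsto
    simpa only [Function.comp_apply, e'.left_inv hx'] using this
  filter_upwards [t1, hc.eventually hj] with w h1 h2
  exact h2.comp w h1

theorem ok (hH : M.Met H) : (cot H).Ok where
  tsm e he e' he' x hx hx' i j := ((mHOL n _ _).2.2 (hl (H := H) e he e' he' x hx hx' i j)).1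
  one e he x hx := by simp only [cot, (mTR n M).2.2.1 e he x hx, Matrix.transpose_one]
  mul e he e' he' x hx hx' e'' he'' hx'' := by
    simp only [cot, ← Matrix.transpose_mul]
    rw [((mTR n M).2.1 e'' he'' e' he' x hx'' hx').2.2.2.2 e he hx]
  gsm e he z hz i j := ((hH.sm e he z hz).inv (hH.det_ne e he z hz)) j i
  pos e he z hz := (hH.pos e he z hz).inv.transpose
  cmp e he e' he' x hx hx' := by
    have h1 := hH.cmp e' he' e he x hx' hx
    have h0 := ((mTR n M).2.1 e' he' e he x hx' hx).2.1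
    have h0' : (M.J e' e x)ᴴ.det ≠ 0 := by
      rw [Matrix.det_conjTranspose]; exact star_ne_zero.2 h0
    beta_reduce at h1
    have e1 : ((M.J e' e x)ᵀ)ᴴ = ((M.J e' e x)ᴴ)ᵀ := rfl
    simp only [cot]
    rw [e1, ← Matrix.transpose_mul, ← Matrix.transpose_mul, h1, Matrix.mul_inv_rev,
      Matrix.mul_inv_rev, Matrix.mul_assoc, Matrix.mul_assoc,
      Matrix.nonsing_inv_mul _ h0'.isUnit, Matrix.mul_one, ← Matrix.mul_assoc,
      Matrix.mul_nonsing_inv _ h0.isUnit, Matrix.one_mul]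

theorem sec {v : M.X → ℝ} (hv : M.Sm v) : (cot H).Sec (dv v) where
  sm e he z hz := contDiffAt_pi.2 fun j => cd_dz (hv.lc e he z hz) j
  cmp e he e' he' x hx hx' := by
    obtain ⟨s1, -, -, s3, -⟩ := (mTR n M).2.1 e' he' e he x hx' hx
    funext j
    have e0 : (e' ∘ e.symm) (e x) = e' x := by simp only [Function.comp_apply, e.left_inv hx]
    have e1 : M.lc v e =ᶠ[𝓝 (e x)] M.lc v e' ∘ (e' ∘ e.symm) := s3.mono fun w hw => by
      simp only [Mf.lc, Function.comp_apply, hw.2.2.2.2.1]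
    have hd : DifferentiableAt ℝ (M.lc v e') ((e' ∘ e.symm) (e x)) := by
      rw [e0]; exact cd_diff (hv.lc e' he' _ (e'.map_source hx'))
    have := ((mCHN n _ _ s1).2.2.2.2.2.2.2.2.2.1 _ hd j).1
    rw [e0] at this
    simp only [dv, cot, Matrix.mulVec, dotProduct, Matrix.transpose_apply, Mf.J]
    rw [dz_congr e1, this]
    exact Finset.sum_congr rfl fun a _ => mul_comm _ _

theorem pn_eq {v : M.X → ℝ} (hv : M.Sm v) : (cot H).pn (dv v) = M.gr H v v := by
  funext x
  have hd : DifferentiableAt ℝ (M.lc v (M.ch x)) (M.ch x x) := cd_diff (Mf.AllOn.ch hv.lc x)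
  have hs : ∀ i, star (dz i (M.lc v (M.ch x)) (M.ch x x)) = dzb i (M.lc v (M.ch x)) (M.ch x x) :=
    fun i => star_dz_ofReal (u := fun w => v ((M.ch x).symm w)) hd
  simp only [HLK.Bun.pn, HLK.Bun.pp, Mf.gr, Mf.tr, Mf.ev, cot, dv, Mf.ds, dd, Matrix.trace,
    Matrix.diag_apply, Matrix.mul_apply, Matrix.of_apply, Matrix.mulVec, dotProduct,
    Matrix.transpose_apply, Pi.star_apply, hs, Finset.mul_sum]
  rw [Finset.sum_comm]
  exact congrArg re (Finset.sum_congr rfl fun j _ => Finset.sum_congr rfl fun i _ => by ring)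

theorem alg (A S : Mat n) (hS : S.IsHermitian) :
    ∑ k, ∑ l, A k l * (star (S k) ⬝ᵥ Aᵀ *ᵥ S l) = (A * S * A * S).trace := by
  have hs : ∀ k i, star (S k i) = S i k := fun k i => hS.apply i k
  simp only [Matrix.trace, Matrix.diag_apply, Matrix.mul_apply, Matrix.mulVec, dotProduct,
    Matrix.transpose_apply, Pi.star_apply, hs, Finset.mul_sum, Finset.sum_mul]
  refine Finset.sum_congr rfl fun k _ => ?_
  rw [Finset.sum_comm]
  refine Finset.sum_congr rfl fun i _ => ?_
  rw [Finset.sum_comm]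
  exact Finset.sum_congr rfl fun j _ => Finset.sum_congr rfl fun l _ => by ring

theorem gb_eq {v : M.X → ℝ} (hv : M.Sm v) :
    HLK.gb H (cot H) (dv v) = M.ip H (M.hs v) (M.hs v) := by
  funext x
  have hS := Mf.AllOn.ch ((mHES n M).1 v hv).herm x
  exact congrArg re (alg _ _ hS)

end SB2

theorem st_SB1 (hS : HLK.St_SOB) : St_SB1 := by
  intro n M _ H hn hH
  obtain ⟨C, hC, h⟩ := hS n M (Fin n) H (SB2.cot H) hn hH (SB2.ok hH) SB2.hl
  refine ⟨C, hC, fun v ρ hv hρ h0 => ?_⟩
  obtain ⟨A, hA⟩ := isCompact_univ.exists_bound_of_continuousOn hρ.continuousOn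
  have := h (SB2.dv v) ρ A (SB2.sec hv) hρ.measurable fun x =>
    ⟨h0 x, (le_abs_self _).trans (hA x (mem_univ x))⟩
  rwa [HLK.Bun.nr, SB2.pn_eq hv, SB2.gb_eq hv] at this

end Pool.Agent.Lib.F4.LD
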