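import Pool.Agent.Lib.HS32.MAll

/-! Smooth approximation of functions of class `C^1` on a compact complex manifold. -/

open scoped Classical Topology ENNReal ContDiff ComplexOrder Matrix Convolution
open Set MeasureTheory Complex Metric Filter

noncomputable section

namespace Pool.Agent.Lib.F4.W82

open Pool.Agent.Lib.HS32
open Pool.Agent.Lib.SV (E)

variable {n : ℕ}

/-- Mollification of a compactly supported function of class `C^1`. -/
theorem moll {F : E n → ℝ} (hF : ContDiff ℝ 1 F) (hc : HasCompactSupport F) {δ r : ℝ}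
    (hδ : 0 < δ) (hr : 0 < r) : ∃ G : E n → ℝ, ContDiff ℝ ∞ G ∧ (∀ z, |G z - F z| ≤ δ) ∧
      (∀ z, ‖fderiv ℝ G z - fderiv ℝ F z‖ ≤ δ) ∧ ∀ z, (∀ w ∈ ball z r, F w = 0) → G z = 0 := by
  have hd : Continuous (fderiv ℝ F) := hF.continuous_fderiv one_ne_zero
  obtain ⟨r1, h1, u1⟩ := Metric.uniformContinuous_iff.1
    (hc.uniformContinuous_of_continuous hF.continuous) δ hδ
  obtain ⟨r2, h2, u2⟩ := Metric.uniformContinuous_iff.1
    ((hc.fderiv ℝ).uniformContinuous_of_continuous hd) δ hδ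
  have hm : 0 < min r (min r1 r2) := lt_min hr (lt_min h1 h2)
  let φ : ContDiffBump (0 : E n) := ⟨min r (min r1 r2) / 2, min r (min r1 r2), by positivity,
    by linarith⟩
  have hR : φ.rOut = min r (min r1 r2) := rfl
  refine ⟨φ.normed volume ⋆[ContinuousLinearMap.lsmul ℝ ℝ, volume] F,
    φ.hasCompactSupport_normed.contDiff_convolution_left _ φ.contDiff_normed
      hF.continuous.locallyIntegrable, fun z => ?_, fun z => ?_, fun z hz => ?_⟩
  · rw [← Real.dist_eq]
    refine φ.dist_normed_convolution_le hF.continuous.aestronglyMeasurable fun x hx => ?_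
    rw [hR] at hx
    exact (u1 (hx.trans_le ((min_le_right _ _).trans (min_le_left _ _)))).le
  · have e : (ContinuousLinearMap.lsmul ℝ ℝ : ℝ →L[ℝ] ℝ →L[ℝ] ℝ).precompR (E n) =
        ContinuousLinearMap.lsmul ℝ ℝ := by
      ext
      simp
    rw [(hc.hasFDerivAt_convolution_right (ContinuousLinearMap.lsmul ℝ ℝ)
      (φ.continuous_normed (μ := volume)).locallyIntegrable hF z).fderiv, e, ← dist_eq_norm]
    refine φ.dist_normed_convolution_le hd.aestronglyMeasurable fun x hx => ?_
    rw [hR] at hx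
    exact (u2 (hx.trans_le ((min_le_right _ _).trans (min_le_right _ _)))).le
  · rw [φ.normed_convolution_eq_right fun x hx => ?_]
    · exact hz z (mem_ball_self hr)
    · rw [hR] at hx
      rw [hz x (ball_subset_ball (min_le_left _ _) hx), hz z (mem_ball_self hr)]

theorem psd_vec {v : E n} {δ : ℝ} (hv : ∀ j, ‖v j‖ ≤ δ) :
    (((n : ℝ) * δ ^ 2) • (1 : Mat n) - Matrix.vecMulVec (star v) v).PosSemidef := by
  refine Matrix.PosSemidef.of_dotProduct_mulVec_nonneg
    ((Mf.herm_rsmul Matrix.isHermitian_one _).sub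
      (Matrix.posSemidef_vecMulVec_star_self v).isHermitian) fun x => ?_
  have e : star x ⬝ᵥ (((n : ℝ) * δ ^ 2) • (1 : Mat n) - Matrix.vecMulVec (star v) v) *ᵥ x =
      (((n : ℝ) * δ ^ 2 * ∑ j, ‖x j‖ ^ 2 - ‖∑ j, v j * x j‖ ^ 2 : ℝ) : ℂ) := by
    have e1 : star x ⬝ᵥ x = ((∑ j, ‖x j‖ ^ 2 : ℝ) : ℂ) := by
      simp only [dotProduct, Pi.star_apply, ofReal_sum, ofReal_pow]
      exact Finset.sum_congr rfl fun j _ => Complex.conj_mul' _
    have e2 : star x ⬝ᵥ (Matrix.vecMulVec (star v) v *ᵥ x) =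
        ((‖∑ j, v j * x j‖ ^ 2 : ℝ) : ℂ) := by
      rw [ofReal_pow, ← Complex.conj_mul', map_sum, Finset.sum_mul]
      simp only [dotProduct, Matrix.mulVec, Matrix.vecMulVec_apply, Pi.star_apply, map_mul,
        Finset.mul_sum]
      refine Finset.sum_congr rfl fun i _ => Finset.sum_congr rfl fun j _ => ?_
      simp only [RCLike.star_def]
      ring
    rw [Matrix.sub_mulVec, dotProduct_sub, e2, Matrix.smul_mulVec, Matrix.one_mulVec,
      dotProduct_smul, e1, real_smul]
    push_cast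
    ring
  rw [e]
  refine Complex.zero_le_real.2 (sub_nonneg.2 ?_)
  have h1 : ‖∑ j, v j * x j‖ ≤ δ * ∑ j, ‖x j‖ := by
    rw [Finset.mul_sum]
    refine (norm_sum_le _ _).trans (Finset.sum_le_sum fun j _ => ?_)
    rw [norm_mul]
    exact mul_le_mul_of_nonneg_right (hv j) (norm_nonneg _)
  have h2 := sq_sum_le_card_mul_sum_sq (s := Finset.univ) (f := fun j => ‖x j‖)
  rw [Finset.card_univ, Fintype.card_fin] at h2
  calc ‖∑ j, v j * x j‖ ^ 2 ≤ (δ * ∑ j, ‖x j‖) ^ 2 := by gcongr
    _ = δ ^ 2 * (∑ j, ‖x j‖) ^ 2 := by ring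
    _ ≤ δ ^ 2 * (n * ∑ j, ‖x j‖ ^ 2) := by gcongr
    _ = _ := by ring

theorem dd_eq {u : E n → ℝ} {z : E n} (hu : DifferentiableAt ℝ u z) :
    dd (fun w => (u w : ℂ)) (fun w => (u w : ℂ)) z =
      Matrix.vecMulVec (star fun j => dz j (fun w => (u w : ℂ)) z)
        fun j => dz j (fun w => (u w : ℂ)) z := by
  ext i j
  rw [dd_apply, Matrix.vecMulVec_apply, Pi.star_apply,
    star_dz_ofReal (u := u) (ofRealCLM.differentiableAt.comp z hu)]

theorem norm_dz_le {u : E n → ℝ} {z : E n} (hu : DifferentiableAt ℝ u z) (j : Fin n) :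
    ‖dz j (fun w => (u w : ℂ)) z‖ ≤ ‖fderiv ℝ u z‖ := by
  have h : ∀ c : ℂ, ‖c‖ = 1 → ‖((fderiv ℝ u z (Pi.single j c) : ℝ) : ℂ)‖ ≤ ‖fderiv ℝ u z‖ := by
    intro c hc
    rw [norm_real]
    simpa [Pi.norm_single, hc] using (fderiv ℝ u z).le_opNorm (Pi.single j c)
  rw [dz, fderiv_ofReal hu, fderiv_ofReal hu, norm_div, Complex.norm_two]
  have := norm_sub_le ((fderiv ℝ u z (Pi.single j 1) : ℝ) : ℂ)
    (I * ((fderiv ℝ u z (Pi.single j I) : ℝ) : ℂ))
  rw [norm_mul, norm_I, one_mul] at this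
  linarith [h 1 norm_one, h I norm_I]

variable {M : Mf n} {H : M.Fam (Mat n)}

/-- Real functions of class `C^1` on the manifold. -/
def C1 (M : Mf n) (f : M.X → ℝ) : Prop := M.All fun e z => ContDiffAt ℝ 1 (f ∘ e.symm) z

/-- `f` is a limit of smooth functions in the topology `C^1`. -/
def Ap (M : Mf n) (H : M.Fam (Mat n)) (f : M.X → ℝ) : Prop :=
  ∀ ε : ℝ, 0 < ε → ∃ g : M.X → ℝ, M.Sm g ∧ (∀ x, |g x - f x| ≤ ε) ∧
    M.Le (M.ds (fun x => g x - f x) fun x => g x - f x) (ε • H)

theorem C1.diff {f : M.X → ℝ} (h : C1 M f) :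
    M.All fun e z => DifferentiableAt ℝ (fun w => f (e.symm w)) z :=
  fun e he z hz => (h e he z hz).differentiableAt one_ne_zero

theorem c1_of_sm {f : M.X → ℝ} (h : M.Sm f) : C1 M f := fun e he z hz => cd_le (h e he z hz) 1

theorem C1.sub {f g : M.X → ℝ} (hf : C1 M f) (hg : C1 M g) : C1 M fun x => f x - g x :=
  fun e he z hz => (hf e he z hz).sub (hg e he z hz)

theorem C1.add {f g : M.X → ℝ} (hf : C1 M f) (hg : C1 M g) : C1 M fun x => f x + g x :=
  fun e he z hz => (hf e he z hz).add (hg e he z hz)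

theorem C1.mul {f g : M.X → ℝ} (hf : C1 M f) (hg : C1 M g) : C1 M fun x => f x * g x :=
  fun e he z hz => (hf e he z hz).mul (hg e he z hz)

theorem ds_eq {u : M.X → ℝ} (hu : C1 M u) : M.All fun e z => M.ds u u e z =
    Matrix.vecMulVec (star fun j => dz j (M.lc u e) z) fun j => dz j (M.lc u e) z :=
  fun e he z hz => dd_eq (hu.diff e he z hz)

theorem ds_add {u v : M.X → ℝ} (hu : C1 M u) (hv : C1 M v) :
    M.Le (M.ds (fun x => u x + v x) fun x => u x + v x)
      ((2 : ℝ) • M.ds u u + (2 : ℝ) • M.ds v v) := by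
  intro e he z hz
  have d1 : DifferentiableAt ℝ (M.lc u e) z :=
    ofRealCLM.differentiableAt.comp z (hu.diff e he z hz)
  have d2 : DifferentiableAt ℝ (M.lc v e) z :=
    ofRealCLM.differentiableAt.comp z (hv.diff e he z hz)
  have e1 : ∀ j, dz j (M.lc (fun x => u x + v x) e) z = dz j (M.lc u e) z + dz j (M.lc v e) z := by
    intro j
    rw [← dz_add d1 d2]
    exact dz_congr (Eventually.of_forall fun w => ofReal_add _ _)
  have := Matrix.posSemidef_vecMulVec_star_self fun j => dz j (M.lc u e) z - dz j (M.lc v e) z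
  show (((2 : ℝ) • M.ds u u e z + (2 : ℝ) • M.ds v v e z) - _).PosSemidef
  rw [ds_eq hu e he z hz, ds_eq hv e he z hz, ds_eq (hu.add hv) e he z hz]
  refine (congrArg Matrix.PosSemidef ?_).mp this
  ext i j
  simp only [Matrix.vecMulVec_apply, Pi.star_apply, Matrix.sub_apply, Matrix.add_apply,
    Matrix.smul_apply, e1, star_add, star_sub, real_smul, ofReal_ofNat]
  ring

theorem Ap.add {f f' : M.X → ℝ} (hf : C1 M f) (hf' : C1 M f') (h : Ap M H f) (h' : Ap M H f') :
    Ap M H fun x => f x + f' x := by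
  intro ε hε
  obtain ⟨g, g1, g2, g3⟩ := h (ε / 4) (by positivity)
  obtain ⟨g', g1', g2', g3'⟩ := h' (ε / 4) (by positivity)
  refine ⟨fun x => g x + g' x, g1.add g1', fun x => ?_, ?_⟩
  · have := abs_add_le (g x - f x) (g' x - f' x)
    rw [show g x + g' x - (f x + f' x) = g x - f x + (g' x - f' x) by ring]
    linarith [g2 x, g2' x]
  · have e : (fun x => g x + g' x - (f x + f' x)) = fun x => g x - f x + (g' x - f' x) := by
      funext x
      ring
    have e' : ε • H = (2 : ℝ) • (ε / 4) • H + (2 : ℝ) • (ε / 4) • H := by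
      rw [smul_smul, ← add_smul]
      congr 1
      ring
    rw [e, e']
    exact (ds_add ((c1_of_sm g1).sub hf) ((c1_of_sm g1').sub hf')).trans
      ((g3.smul zero_le_two).add (g3'.smul zero_le_two))

theorem ap_sm (hH : M.Met H) {f : M.X → ℝ} (hf : M.Sm f) : Ap M H f := by
  intro ε hε
  refine ⟨f, hf, fun x => by simp [hε.le], fun e he z hz => ?_⟩
  have : M.ds (fun x => f x - f x) (fun x => f x - f x) e z = 0 := by
    have h2 : M.lc (fun x => f x - f x) e =ᶠ[𝓝 z] fun _ => 0 :=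
      Eventually.of_forall fun w => by simp [Mf.lc]
    show dd _ _ _ = _
    rw [dd_congr h2 h2]
    ext i j
    simp
  show (ε • H e z - _).PosSemidef
  rw [this, sub_zero]
  exact Mf.psd_rsmul (hH.pos e he z hz).posSemidef hε.le

/-- Change of chart for the product of the derivatives of functions of class `C^1`. -/
theorem ds_cmp {u v : M.X → ℝ} (hu : C1 M u) (hv : C1 M v) : M.Ov fun e e' x =>
    M.ds u v e' (e' x) = (M.J e e' x)ᴴ * M.ds u v e (e x) * M.J e e' x := by
  intro e he e' he' x hx hx'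
  obtain ⟨h1, -, -, h4, -⟩ := (mTR n M).2.1 e he e' he' x hx hx'
  have hex : (e ∘ e'.symm) (e' x) = e x := by simp [e'.left_inv hx']
  have d : ∀ {u : M.X → ℝ}, C1 M u → DifferentiableAt ℝ (M.lc u e) ((e ∘ e'.symm) (e' x)) := by
    intro u hu
    rw [hex]
    exact ofRealCLM.differentiableAt.comp _ (hu.diff e he _ (e.map_source hx))
  have c : ∀ u : M.X → ℝ, M.lc u e' =ᶠ[𝓝 (e' x)] M.lc u e ∘ (e ∘ e'.symm) := fun u =>
    h4.mono fun w hw => by simp only [Mf.lc, Function.comp_apply, hw.2.2.2.2.1]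
  have := (mCHN n _ _ h1).2.2.2.2.2.2.2.2.2.2.1 _ _ (d hu) (d hv)
  show dd _ _ _ = _
  rw [dd_congr (c u) (c v), this, hex]
  rfl

theorem ap_loc [M.Cpt] (hH : M.Met H) {f : M.X → ℝ} (hf : C1 M f) {e : M.Ch} (he : e ∈ M.C)
    {c : E n} {ρ : ℝ} (hρ : 0 < ρ) (hs : closedBall c (4 * ρ) ⊆ e.target)
    (h0 : ∀ x, f x ≠ 0 → x ∈ e.source ∧ e x ∈ ball c (2 * ρ)) : Ap M H f := by
  intro ε hε
  have hK : closedBall c (3 * ρ) ⊆ e.target :=
    (closedBall_subset_closedBall (by linarith)).trans hs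
  obtain ⟨C, hC, hb⟩ := (mBD n M H hH).2.2.1 e he _ (isCompact_closedBall c (3 * ρ)) hK
  set F : E n → ℝ := e.target.indicator (f ∘ e.symm) with hF
  have e1 : ∀ z ∈ e.target, F =ᶠ[𝓝 z] f ∘ e.symm := fun z hz =>
    (e.open_target.eventually_mem hz).mono fun w hw => indicator_of_mem hw _
  have e0 : ∀ w ∉ closedBall c (2 * ρ), F w = 0 := fun w hw => by
    by_cases h : w ∈ e.target
    · rw [hF, indicator_of_mem h]
      by_contra h'
      have := (h0 _ h').2
      rw [e.right_inv h] at this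
      exact hw (ball_subset_closedBall this)
    · exact indicator_of_notMem h _
  have e2 : ∀ z ∉ closedBall c (2 * ρ), F =ᶠ[𝓝 z] fun _ => 0 := fun z hz =>
    (isClosed_closedBall.isOpen_compl.eventually_mem hz).mono e0
  have Fs : ContDiff ℝ 1 F := contDiff_iff_contDiffAt.2 fun z => by
    by_cases h : z ∈ e.target
    · exact (hf e he z h).congr_of_eventuallyEq (e1 z h)
    · exact contDiffAt_const.congr_of_eventuallyEq (e2 z fun h' =>
        h (hK (closedBall_subset_closedBall (by linarith) h')))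
  have Fc : HasCompactSupport F := HasCompactSupport.intro (isCompact_closedBall c (2 * ρ)) e0
  obtain ⟨δ, hδ, hδ1, hδ2⟩ : ∃ δ : ℝ, 0 < δ ∧ δ ≤ ε ∧ n * δ ^ 2 * C ≤ ε := by
    have hp : 0 < (n + 1 : ℝ) * C := by positivity
    refine ⟨min 1 (min ε (ε / ((n + 1) * C))), by positivity,
      (min_le_right _ _).trans (min_le_left _ _), ?_⟩
    set δ := min 1 (min ε (ε / ((n + 1) * C)))
    have a0 : 0 < δ := by positivity
    have a1 : δ ≤ 1 := min_le_left _ _
    have a2 : δ ≤ ε / ((n + 1) * C) := (min_le_right _ _).trans (min_le_right _ _)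
    rw [le_div_iff₀ hp] at a2
    calc n * δ ^ 2 * C = δ * (δ * (n * C)) := by ring
      _ ≤ 1 * (δ * ((n + 1) * C)) := by gcongr; linarith
      _ ≤ ε := by linarith
  obtain ⟨G, G1, G2, G3, G4⟩ := moll Fs Fc hδ hρ
  have G0 : ∀ z ∉ closedBall c (3 * ρ), G z = 0 := fun z hz => G4 z fun w hw => e0 w fun h => by
    rw [mem_closedBall] at h hz
    rw [mem_ball] at hw
    have := dist_triangle_left z c w
    exact hz (by linarith)
  have gs : M.Sm (e.source.indicator fun x => G (e x)) :=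
    (mCOV n M).2.2.2.1 ℝ e he _ G (isCompact_closedBall c (3 * ρ)) hK
      (fun z _ => G1.contDiffAt) fun z _ h => G0 z h
  set g : M.X → ℝ := e.source.indicator fun x => G (e x) with hg
  have hu : C1 M fun x => g x - f x := (c1_of_sm gs).sub hf
  have hin : ∀ x ∈ e.source, g x - f x = G (e x) - F (e x) := fun x hx => by
    rw [hg, hF, indicator_of_mem hx, indicator_of_mem (e.map_source hx), Function.comp_apply,
      e.left_inv hx]
  have hout : ∀ x ∉ e.symm '' closedBall c (3 * ρ), g x - f x = 0 := fun x hx => by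
    by_cases h : x ∈ e.source
    · have h1 := BCOV.not_mem_of M e _ x h hx
      rw [hin x h, G0 _ h1, e0 _ fun h2 => h1 (closedBall_subset_closedBall (by linarith) h2),
        sub_zero]
    · have h1 : f x = 0 := by
        by_contra h'
        exact h (h0 x h').1
      rw [hg, indicator_of_notMem h, h1, sub_zero]
  refine ⟨g, gs, fun x => ?_, Mf.allOn_of_source fun e' he' x hx' => ?_⟩
  · by_cases h : x ∈ e.source
    · rw [hin x h]
      exact (G2 _).trans hδ1
    · rw [hout x fun h' => h (BCOV.src_of M e _ hK x h')]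
      simp [hε.le]
  · show (ε • H e' (e' x) - _).PosSemidef
    by_cases h : x ∈ e.symm '' closedBall c (3 * ρ)
    · have hx := BCOV.src_of M e _ hK x h
      have hz : e x ∈ closedBall c (3 * ρ) := by
        obtain ⟨z, hz, rfl⟩ := h
        rwa [e.right_inv (hK hz)]
      rw [ds_cmp hu hu e he e' he' x hx hx', hH.cmp e he e' he' x hx hx', ← Matrix.smul_mul,
        ← Matrix.mul_smul, ← Matrix.sub_mul, ← Matrix.mul_sub]
      refine Matrix.PosSemidef.conjTranspose_mul_mul_same ?_ _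
      have hd : DifferentiableAt ℝ (fun w => G w - F w) (e x) :=
        (G1.differentiable (by simp) _).sub (Fs.differentiable one_ne_zero _)
      have hv : ∀ j, ‖dz j (M.lc (fun x => g x - f x) e) (e x)‖ ≤ δ := fun j => by
        have : M.lc (fun x => g x - f x) e =ᶠ[𝓝 (e x)] fun w => ((G w - F w : ℝ) : ℂ) := by
          filter_upwards [e.open_target.mem_nhds (e.map_source hx)] with w hw
          simp only [Mf.lc, hin _ (e.map_target hw), e.right_inv hw]
        rw [dz_congr this]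
        refine (norm_dz_le hd j).trans ?_
        rw [fderiv_fun_sub (G1.differentiable (by simp) _) (Fs.differentiable one_ne_zero _)]
        exact G3 _
      have p1 := psd_vec hv
      have p2 := Mf.psd_rsmul (hb _ hz).1 (c := n * δ ^ 2) (by positivity)
      have p3 := Mf.psd_rsmul (hH.pos e he _ (e.map_source hx)).posSemidef (sub_nonneg.2 hδ2)
      rw [ds_eq hu e he _ (e.map_source hx)]
      refine (congrArg Matrix.PosSemidef ?_).mp ((p1.add p2).add p3)
      rw [smul_sub, smul_smul, sub_smul]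
      abel
    · have h1 : e'.symm (e' x) ∉ e.symm '' closedBall c (3 * ρ) := by rwa [e'.left_inv hx']
      have h2 : M.lc (fun x => g x - f x) e' =ᶠ[𝓝 (e' x)] fun _ => 0 :=
        (BCOV.ev_off M e e' _ (isCompact_closedBall c (3 * ρ)) hK _ (e'.map_source hx') h1).mono
          fun w hw => by simp only [Mf.lc, hout _ hw, ofReal_zero]
      have : M.ds (fun x => g x - f x) (fun x => g x - f x) e' (e' x) = 0 := by
        show dd _ _ _ = _
        rw [dd_congr h2 h2]
        ext i j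
        simp
      rw [this, sub_zero]
      exact Mf.psd_rsmul (hH.pos e' he' _ (e'.map_source hx')).posSemidef hε.le

/-- Every function of class `C^1` is a limit of smooth functions in the topology `C^1`. -/
theorem ap_of_c1 [M.Cpt] (hH : M.Met H) {f : M.X → ℝ} (hf : C1 M f) : Ap M H f := by
  obtain ⟨V, -⟩ := (mCOV n M).2.2.1
  have c : ∀ a, C1 M fun x => V.χ a x ^ 2 * f x := fun a => (c1_of_sm ((V.sm a).pow 2)).mul hf
  have key : ∀ s : Finset (Fin V.r), C1 M (fun x => ∑ a ∈ s, V.χ a x ^ 2 * f x) ∧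
      Ap M H fun x => ∑ a ∈ s, V.χ a x ^ 2 * f x := by
    intro s
    induction s using Finset.induction_on with
    | empty => exact ⟨c1_of_sm (Mf.sm_const 0), ap_sm hH (Mf.sm_const 0)⟩
    | insert a s ha ih =>
      simp only [Finset.sum_insert ha]
      refine ⟨(c a).add ih.1, Ap.add (c a) ih.1 (ap_loc hH (c a) (V.mem a) (V.pos a) (V.sub a)
        fun x hx => V.supp a x fun h => hx ?_) ih.2⟩
      simp [h]
  have := (key Finset.univ).2
  simpa only [← Finset.sum_mul, V.sum, one_mul] using this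

/-- The approximation theorem, with the bound for the gradient in three forms. -/
theorem smo1 [M.Cpt] (hH : M.Met H) {f : M.X → ℝ}
    (hf : M.All fun e z => ContDiffAt ℝ 1 (f ∘ e.symm) z) {ε : ℝ} (hε : 0 < ε) :
    ∃ g : M.X → ℝ, M.Sm g ∧ (∀ x, |g x - f x| ≤ ε) ∧
      M.Le (M.ds (fun x => g x - f x) fun x => g x - f x) (ε • H) ∧
      (∀ x, M.gr H (fun x => g x - f x) (fun x => g x - f x) x ≤ ε) ∧
      M.All fun e z =>
        ((H e z)⁻¹ * M.ds (fun x => g x - f x) (fun x => g x - f x) e z).trace.re ≤ ε := by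
  have hp : 0 < (n + 1 : ℝ) := by positivity
  obtain ⟨g, g1, g2, g3⟩ := ap_of_c1 hH hf (ε / (n + 1)) (by positivity)
  have h1 : ε / (n + 1) ≤ ε := div_le_self hε.le (by linarith [Nat.cast_nonneg (α := ℝ) n])
  have h2 : ε / (n + 1) * n ≤ ε := by
    rw [div_mul_eq_mul_div, div_le_iff₀ hp]
    nlinarith
  have h3 : M.All fun e z =>
      ((H e z)⁻¹ * M.ds (fun x => g x - f x) (fun x => g x - f x) e z).trace.re ≤ ε := by
    intro e he z hz
    have := Mf.trace_inv_mul_nonneg (hH.pos e he z hz) (g3 e he z hz)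
    rw [Pi.smul_apply, Pi.smul_apply, mul_sub, Matrix.mul_smul,
      Matrix.nonsing_inv_mul _ (hH.det_ne e he z hz).isUnit, Matrix.trace_sub, Matrix.trace_smul,
      Matrix.trace_one, Fintype.card_fin, sub_re, smul_re, natCast_re, smul_eq_mul] at this
    show _ ≤ _
    linarith
  exact ⟨g, g1, fun x => (g2 x).trans h1, g3.trans (hH.le_smul h1),
    fun x => Mf.AllOn.ch h3 x, h3⟩

end Pool.Agent.Lib.F4.W82
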