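import Pool.Agent.Lib.F4.BlueD0
import Pool.Agent.Lib.F4.W82

/-! Project f4: smoothing in the norm of `C^1`. -/

namespace Pool.Agent.Lib.F4.LD

theorem st_SMO : St_SMO := by
  intro n M _ H f ε hH hf hε
  obtain ⟨g, g1, g2, -, g3, -⟩ := W82.smo1 hH (f := f) (fun e he z hz => by
    simpa using hf e he z hz) hε
  exact ⟨g, g1, fun x => ⟨g2 x, g3 x⟩⟩

end Pool.Agent.Lib.F4.LD
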