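import Pool.Agent.Lib.F4.BlueD0

/-! Project f4: weak and strong derivatives agree. -/

open scoped Classical Topology ContDiff
open Set MeasureTheory Complex Metric Filter

noncomputable section

namespace Pool.Agent.Lib.F4.LD

open Pool.Agent.Lib.SV (E)
open Pool.Agent.Lib.HS32

namespace DWPT

variable {n : ℕ} {U : Set (E n)}

theorem intg {a φ : E n → ℂ} (ha : ContinuousOn a U) (hφ : Continuous φ)
    (hc : HasCompactSupport φ) (hs : tsupport φ ⊆ U) : Integrable fun z => a z * φ z := by
  have h1 : IntegrableOn (fun z => a z * φ z) (tsupport φ) :=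
    ((ha.mono hs).mul hφ.continuousOn).integrableOn_compact hc.isCompact
  exact (integrableOn_iff_integrable_of_support_subset fun z hz =>
    subset_tsupport φ fun h0 => hz (by simp [h0])).1 h1

theorem whole (a : E n → ℂ) {φ : E n → ℂ} (hs : tsupport φ ⊆ U) :
    ∫ z in U, a z * φ z = ∫ z, a z * φ z :=
  setIntegral_eq_integral_of_forall_compl_eq_zero fun z hz => by
    rw [image_eq_zero_of_notMem_tsupport fun h => hz (hs h), mul_zero]

theorem core {h ψ : E n → ℂ} (hU : IsOpen U) (hh : ContDiffOn ℝ 1 h U) (hψ : Tst U ψ) (v : E n) :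
    IntegrableOn (fun z => h z * fderiv ℝ ψ z v) U ∧
    IntegrableOn (fun z => fderiv ℝ h z v * ψ z) U ∧
    ∫ z in U, h z * fderiv ℝ ψ z v = -∫ z in U, fderiv ℝ h z v * ψ z := by
  obtain ⟨s, c, t⟩ := hψ
  have s1 : ContDiff ℝ 1 ψ := s.of_le (by exact_mod_cast le_top)
  have dc : Continuous fun z => fderiv ℝ ψ z v :=
    (s1.continuous_fderiv one_ne_zero).clm_apply continuous_const
  have dt : tsupport (fun z => fderiv ℝ ψ z v) ⊆ U := (tsupport_fderiv_apply_subset ℝ v).trans t
  have hd : ContinuousOn (fun z => fderiv ℝ h z v) U :=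
    (hh.continuousOn_fderiv_of_isOpen hU le_rfl).clm_apply continuousOn_const
  have i1 := intg hh.continuousOn dc (c.fderiv_apply ℝ v) dt
  have i2 := intg hd s1.continuous c t
  refine ⟨i1.integrableOn, i2.integrableOn, ?_⟩
  rw [whole h dt, whole (fun z => fderiv ℝ h z v) t]
  exact integral_mul_fderiv_eq_neg_fderiv_mul_of_integrable i2 i1
    (intg hh.continuousOn s1.continuous c t)
    (fun z hz => (hh.contDiffAt (hU.mem_nhds (t hz))).differentiableAt one_ne_zero)
    fun z _ => s1.differentiable one_ne_zero z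

theorem wd {h : E n → ℂ} (hU : IsOpen U) (hh : ContDiffOn ℝ 1 h U) :
    Wd U h fun l => dzb l h := by
  intro ψ hψ l
  obtain ⟨a1, b1, c1⟩ := core hU hh hψ (Pi.single l 1)
  obtain ⟨a2, b2, c2⟩ := core hU hh hψ (Pi.single l I)
  have e1 : ∀ z, h z * dzb l ψ z = (h z * fderiv ℝ ψ z (Pi.single l 1) +
      I * (h z * fderiv ℝ ψ z (Pi.single l I))) / 2 := fun z => by
    simp only [dzb]; ring
  have e2 : ∀ z, dzb l h z * ψ z = (fderiv ℝ h z (Pi.single l 1) * ψ z +
      I * (fderiv ℝ h z (Pi.single l I) * ψ z)) / 2 := fun z => by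
    simp only [dzb]; ring
  simp only [e1, e2]
  rw [integral_div, integral_div, integral_add a1 (a2.const_mul I),
    integral_add b1 (b2.const_mul I), integral_const_mul, integral_const_mul, c1, c2]
  ring

theorem cont {h : E n → ℂ} (hU : IsOpen U) (hh : ContDiffOn ℝ 1 h U) (l : Fin n) :
    ContinuousOn (dzb l h) U := by
  have hd : ∀ v, ContinuousOn (fun z => fderiv ℝ h z v) U := fun v =>
    (hh.continuousOn_fderiv_of_isOpen hU le_rfl).clm_apply continuousOn_const
  exact ((hd _).add (continuousOn_const.mul (hd _))).div_const 2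

theorem uniq {a b : E n → ℂ} (hU : IsOpen U) (ha : ContinuousOn a U) (hb : ContinuousOn b U)
    (h : ∀ ψ, Tst U ψ → ∫ z in U, a z * ψ z = ∫ z in U, b z * ψ z) : EqOn a b U := by
  have h0 : ∀ᵐ z, z ∈ U → a z - b z = 0 := by
    refine hU.ae_eq_zero_of_integral_contDiff_smul_eq_zero
      ((ha.sub hb).locallyIntegrableOn hU.measurableSet) fun g s c t => ?_
    have t' : tsupport (fun z => (g z : ℂ)) ⊆ U :=
      (tsupport_comp_subset (g := fun r : ℝ => (r : ℂ)) ofReal_zero g).trans t
    have T : Tst U fun z => (g z : ℂ) :=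
      ⟨ofRealCLM.contDiff.comp s, c.comp_left (g := fun r : ℝ => (r : ℂ)) ofReal_zero, t'⟩
    have e := h _ T
    rw [whole a t', whole b t'] at e
    have e' : ∀ z, g z • (a z - b z) = a z * g z - b z * g z := fun z => by
      rw [real_smul]; ring
    simp only [e']
    rw [integral_sub (intg ha T.1.continuous T.2.1 t') (intg hb T.1.continuous T.2.1 t'), e,
      sub_self]
  exact Measure.eqOn_open_of_ae_eq (μ := volume)
    ((ae_restrict_iff' hU.measurableSet).2 (h0.mono fun z hz h => sub_eq_zero.1 (hz h))) hU ha hb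

end DWPT

theorem st_WPT : St_WPT := by
  intro n U h hU hh
  refine ⟨DWPT.wd hU hh, fun g hg hw l z hz => ?_⟩
  exact DWPT.uniq hU (DWPT.cont hU hh l) (hg l)
    (fun ψ hψ => neg_injective ((DWPT.wd hU hh ψ hψ l).symm.trans (hw ψ hψ l))) hz

end Pool.Agent.Lib.F4.LD
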