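import Pool.Agent.Lib.F4.BlueD0
import Pool.Agent.Lib.CY.B_WEU
import Pool.Agent.Lib.HS32.B_HOL

/-! Project f4, row WRU: rules for the weak derivative. -/

open scoped Classical Topology ContDiff
open Set MeasureTheory Complex Metric Filter

set_option linter.unusedVariables false

noncomputable section

namespace Pool.Agent.Lib.F4.LD

open Pool.Agent.Lib.SV (E)
open Pool.Agent.Lib.HS32

namespace WRU

variable {n : ℕ} {U : Set (E n)} {h φ ψ a : E n → ℂ}

theorem int0 {K : Set (E n)} (hU : IsOpen U) (hh : LocallyIntegrableOn h U) (hφ : Continuous φ)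
    (hK : IsCompact K) (hKU : K ⊆ U) (h0 : ∀ z ∉ K, φ z = 0) :
    IntegrableOn (fun z => h z * φ z) U :=
  ((hh.integrableOn_compact_subset hKU hK).mul_continuousOn hφ.continuousOn
    hK).of_forall_sdiff_eq_zero hU.measurableSet fun z hz => by rw [h0 z hz.2, mul_zero]

theorem int1 (hU : IsOpen U) (hh : LocallyIntegrableOn h U) (hψ : Tst U ψ) :
    IntegrableOn (fun z => h z * ψ z) U :=
  int0 hU hh hψ.1.continuous hψ.2.1 hψ.2.2 fun z hz => image_eq_zero_of_notMem_tsupport hz

theorem int2 (hU : IsOpen U) (hh : LocallyIntegrableOn h U) (hψ : Tst U ψ) (l : Fin n) :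
    IntegrableOn (fun z => h z * dzb l ψ z) U := by
  have c : ∀ v, Continuous fun z => fderiv ℝ ψ z v := fun v =>
    (hψ.1.continuous_fderiv (by simp)).clm_apply continuous_const
  refine int0 (φ := dzb l ψ) hU hh (((c _).add (continuous_const.mul (c _))).div_const 2) hψ.2.1
    hψ.2.2 fun z hz => ?_
  have : fderiv ℝ ψ z = 0 := Function.notMem_support.1 fun k => hz (support_fderiv_subset ℝ k)
  simp [dzb, this]

theorem tst_mul (hU : IsOpen U) (ha : DifferentiableOn ℂ a U) (hψ : Tst U ψ) :
    Tst U fun z => a z * ψ z := by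
  refine ⟨contDiff_iff_contDiffAt.2 fun z => ?_, hψ.2.1.mul_left,
    tsupport_mul_subset_right.trans hψ.2.2⟩
  by_cases hz : z ∈ U
  · refine (BHOL.smooth ?_).mul hψ.1.contDiffAt
    filter_upwards [hU.mem_nhds hz] with w hw using ha.differentiableAt (hU.mem_nhds hw)
  · refine (contDiffAt_const (c := (0 : ℂ))).congr_of_eventuallyEq ?_
    filter_upwards [(isClosed_tsupport ψ).isOpen_compl.mem_nhds fun k => hz (hψ.2.2 k)] with w hw
    rw [image_eq_zero_of_notMem_tsupport hw, mul_zero]

theorem tst_star (hψ : Tst U ψ) : Tst U fun z => star (ψ z) :=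
  ⟨contDiff_iff_contDiffAt.2 fun z => cd_star hψ.1.contDiffAt,
    hψ.2.1.comp_left (g := fun w : ℂ => star w) (star_zero ℂ),
    (closure_mono (Function.support_comp_subset (g := fun w : ℂ => star w) (star_zero ℂ)
      ψ)).trans hψ.2.2⟩

end WRU

theorem st_WRU : St_WRU := by
  intro n U h h' g g' hU hh hg hw
  have m := hU.measurableSet
  refine ⟨fun e1 e2 ψ hψ l => ?_, fun hh' hg' hw' => ⟨fun ψ hψ l => ?_, fun ψ hψ l => ?_⟩,
    fun a ha ψ hψ l => ?_, fun g0 hc => ?_⟩
  · rw [setIntegral_congr_ae m (e1.mono fun z hz k => by rw [hz k]), hw ψ hψ l,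
      setIntegral_congr_ae m ((e2 l).mono fun z hz k => by rw [← hz k])]
  · simp only [add_mul]
    rw [integral_add (WRU.int2 hU hh hψ l) (WRU.int2 hU hh' hψ l),
      integral_add (WRU.int1 hU (hg l) hψ) (WRU.int1 hU (hg' l) hψ), hw ψ hψ l, hw' ψ hψ l]
    ring
  · simp only [sub_mul]
    rw [integral_sub (WRU.int2 hU hh hψ l) (WRU.int2 hU hh' hψ l),
      integral_sub (WRU.int1 hU (hg l) hψ) (WRU.int1 hU (hg' l) hψ), hw ψ hψ l, hw' ψ hψ l]
    ring
  · simp only [mul_assoc]
    rw [← hw _ (WRU.tst_mul hU ha hψ) l]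
    refine setIntegral_congr_fun m fun z hz => ?_
    have d := ha.differentiableAt (hU.mem_nhds hz)
    simp only [dzb_mul (d.restrictScalars ℝ) (cd_diff hψ.1.contDiffAt), BHOL.dzb_zero d]
    ring
  · obtain ⟨F, hF, ae⟩ := CY.cWEU n U h hU hh fun θ h1 h2 h3 j => by
      have k := hw _ (WRU.tst_star ⟨h1, h2, h3⟩) j
      rw [setIntegral_congr_fun (f := fun z => g j z * star (θ z)) (g := fun _ => 0) m
        (fun z hz => by simp only [g0 j z hz, zero_mul]), integral_zero, neg_zero] at k
      have k2 := congrArg (starRingEnd ℂ) k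
      rw [map_zero, ← integral_conj] at k2
      rw [← k2]
      refine integral_congr_ae (.of_forall fun z => ?_)
      simp only [dzb_star (cd_diff h1.contDiffAt)]
      simp only [map_mul, star_def, conj_conj, mul_comm]
    exact hF.congr fun z hz => (Measure.eqOn_open_of_ae_eq (μ := volume)
      ((ae_restrict_iff' m).2 ae) hU hF.continuousOn hc hz).symm

end Pool.Agent.Lib.F4.LD
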