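import Pool.Agent.Lib.F4.Blue
import Pool.Agent.Lib.F4.B_MUS
import Pool.Agent.Lib.F4.B_PW1
import Pool.Agent.Lib.F4.B_S2K
import Pool.Agent.Lib.F4.B_STK
import Pool.Agent.Lib.F4.B_THA
import Pool.Agent.Lib.F4.D_AAK
import Pool.Agent.Lib.F4.D_AP2
import Pool.Agent.Lib.F4.D_BTB
import Pool.Agent.Lib.F4.D_C1W
import Pool.Agent.Lib.F4.D_CH2
import Pool.Agent.Lib.F4.D_CKK
import Pool.Agent.Lib.F4.D_EU1
import Pool.Agent.Lib.F4.D_EUC
import Pool.Agent.Lib.F4.D_GLU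
import Pool.Agent.Lib.F4.D_HD1
import Pool.Agent.Lib.F4.D_HDB
import Pool.Agent.Lib.F4.D_HDI
import Pool.Agent.Lib.F4.D_HOD
import Pool.Agent.Lib.F4.D_KER
import Pool.Agent.Lib.F4.D_LM1
import Pool.Agent.Lib.F4.D_LM2
import Pool.Agent.Lib.F4.D_MAZ
import Pool.Agent.Lib.F4.D_MU0
import Pool.Agent.Lib.F4.D_MUH
import Pool.Agent.Lib.F4.D_MXC
import Pool.Agent.Lib.F4.D_NF2
import Pool.Agent.Lib.F4.D_PSD
import Pool.Agent.Lib.F4.D_PW
import Pool.Agent.Lib.F4.D_RG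
import Pool.Agent.Lib.F4.D_SB1
import Pool.Agent.Lib.F4.D_SMO
import Pool.Agent.Lib.F4.D_WPT
import Pool.Agent.Lib.F4.D_WRU
import Pool.Agent.Lib.HLK.All0
import Pool.Agent.Lib.KP.B_HARM
import Pool.Agent.Lib.KP.R_CPT
import Pool.Agent.Lib.KP.R_POI

/-! Project f4, the lemma on the weight: assembly. -/

namespace Pool.Agent.Lib.F4.LD

theorem dS2K : St_S2K := st_S2K st_PW1
theorem dMUS : St_MUS := st_MUS st_PW1 dS2K
theorem dTHA : St_THA := st_THA dS2K dMUS st_STK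
theorem dEUC : St_EUC := st_EUC st_KER st_C1W st_WPT st_WRU (st_EU1 st_WPT)
theorem dPW : St_PW := st_PW HLK.aVL
theorem dRG : St_RG := st_RG (st_LM1 dPW st_PSD) (st_LM2 st_CH2 st_PSD) dEUC st_GLU
theorem dBTB : St_BTB := st_BTB st_PW1 dS2K dMUS
theorem dAAK : St_AAK := st_AAK dS2K
theorem dHD1 : St_HD1 := st_HD1 (KP.st_POI KP.st_HARM KP.st_CPT)
theorem dHDB : St_HDB := st_HDB dTHA dMUS dS2K (st_SB1 HLK.aSOB) dPW st_MXC
theorem dHOD : St_HOD :=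
  st_HOD dHD1 (st_HDI st_MXC st_PSD) dHDB (st_NF2 st_MXC st_PSD) dAAK dS2K st_PSD dMUS
theorem dMUH : St_MUH := st_MUH dBTB dMUS st_WPT st_WRU
theorem dMU0 : St_MU0 := st_MU0 dTHA st_SMO dBTB st_CKK dS2K st_PW1 dMUS
theorem dAP2 : St_AP2 := st_AP2 st_SMO dBTB st_CKK dS2K dMUS
theorem dMAZ : St_MAZ := st_MAZ st_PW1 dS2K dMUS
theorem dRND : St_RND := st_RND dMUS st_CKK dHOD dRG dMUH dMU0
theorem dLD : LD.St_LD := st_LD dMUS st_CKK dBTB dAAK dMAZ dAP2 dRND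

/-- The lemma in the wording of the main blueprint. -/
theorem aLD : F4.St_LD := fun M _ H α a F t k hH hO h1 nz ap =>
  dLD 4 M H α a F t k (by omega) hH h1 nz hO ap

end Pool.Agent.Lib.F4.LD
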