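import Pool.Agent.Lib.F4.BlueR

/-! Project f4, part R: the zero set of a holomorphic function has capacity zero. -/

open scoped Classical Topology ContDiff Manifold
open Set MeasureTheory Complex Metric Filter

noncomputable section

namespace Pool.Agent.Lib.F4.R

open Pool.Agent.Lib.SV (E)
open Pool.Agent.Lib.HS32 Pool.Agent.Lib.HS32.Mf

namespace CAP

variable {n : ℕ} {U K : Set (E n)} {a : E n → ℂ} {z : E n} {k : Fin n}

theorem dN (ha : HolN a z) : dz k (fun w => (normSq (a w) : ℂ)) z = star (a z) * dz k a z ∧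
    dzb k (fun w => (normSq (a w) : ℂ)) z = a z * star (dz k a z) := by
  have d := cd_diff ((mHOL n a z).2.2 ha).1
  have b := ((mHOL n a z).1 d).1 ha.self_of_nhds k
  simp only [← mul_conj, ← star_def]
  rw [dz_mul d (diff_star d), dzb_mul d (diff_star d), dz_star d, dzb_star d, b]
  simp [mul_comm]

theorem gen {φ ψ : ℝ → ℝ} {c : ℝ} (ha : HolN a z) (h1 : ∀ t, 0 ≤ t → HasDerivAt φ (ψ t) t)
    (h2 : HasDerivAt ψ c (normSq (a z))) :
    dzb k (fun w => (φ (normSq (a w)) : ℂ)) z = ψ (normSq (a z)) * (a z * star (dz k a z)) ∧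
    dzb k (dz k fun w => (φ (normSq (a w)) : ℂ)) z =
      ((c * normSq (a z) + ψ (normSq (a z))) * normSq (dz k a z) : ℝ) := by
  have D : ∀ {w}, HolN a w → DifferentiableAt ℝ (fun w => normSq (a w)) w := fun h =>
    (cd_normSq ((mHOL n a _).2.2 h).1).differentiableAt (by simp)
  have d := cd_diff ((mHOL n a z).2.2 ha).1
  have hk := ((mHOL n a z).2.2 ha).2.1 k
  have d' := cd_diff ((mHOL n _ z).2.2 hk).1
  have ev : (dz k fun w => (φ (normSq (a w)) : ℂ)) =ᶠ[𝓝 z]
      fun w => (ψ (normSq (a w)) : ℂ) * (star (a w) * dz k a w) :=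
    ha.eventually_nhds.mono fun w hw => by
      rw [dz_comp_real (h1 _ (normSq_nonneg _)) (D hw), (dN hw).1]
  have d'' : DifferentiableAt ℝ (fun w => (ψ (normSq (a w)) : ℂ)) z :=
    ofRealCLM.differentiableAt.comp z (h2.differentiableAt.comp z (D ha))
  refine ⟨by rw [dzb_comp_real (h1 _ (normSq_nonneg _)) (D ha), (dN ha).2], ?_⟩
  rw [dzb_congr ev, dzb_mul d'' ((diff_star d).fun_mul d'), dzb_mul (diff_star d) d', dzb_star d,
    ((mHOL n _ z).1 d').1 hk.self_of_nhds k, dzb_comp_real h2 (D ha), (dN ha).2]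
  push_cast
  simp only [← mul_conj, ← star_def]
  ring

/-- A small power. -/
def pw (δ h t : ℝ) : ℝ := Real.exp (δ * Real.log (t + h))

theorem pw_d {δ h t : ℝ} (ht : 0 < t + h) : HasDerivAt (pw δ h) (δ * pw δ h t / (t + h)) t :=
  ((((hasDerivAt_id t).add_const h).log ht.ne').const_mul δ).exp.congr_deriv (by
    simp only [pw, id]; ring)

theorem key {δ h : ℝ} (hδ : 0 < δ) (hh : 0 < h) (ha : HolN a z) :
    ‖dzb k (fun w => (pw δ h (normSq (a w)) : ℂ)) z‖ ^ 2 ≤ pw δ h (normSq (a z)) *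
      (dzb k (dz k fun w => (pw δ h (normSq (a w)) : ℂ)) z).re := by
  have p : ∀ t, 0 ≤ t → 0 < t + h := fun t ht => add_pos_of_nonneg_of_pos ht hh
  have q := p _ (normSq_nonneg (a z))
  obtain ⟨e1, e2⟩ := gen (k := k) ha (fun t ht => pw_d (δ := δ) (p t ht))
    (((pw_d (δ := δ) q).const_mul δ).fun_div ((hasDerivAt_id' _).add_const h) q.ne')
  rw [e1, e2, ofReal_re, ← normSq_eq_norm_sq, map_mul, map_mul, star_def, normSq_conj,
    normSq_ofReal]
  have := normSq_nonneg (dz k a z)
  have : 0 ≤ δ * pw δ h (normSq (a z)) ^ 2 * normSq (dz k a z) * h / (normSq (a z) + h) ^ 2 := by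
    positivity
  refine (le_add_of_nonneg_right this).trans_eq ?_
  field_simp
  ring

theorem ibp (hU : IsOpen U) (hK : IsCompact K) (s : K ⊆ U) {f : E n → ℂ}
    (hf : ∀ z ∈ U, ContDiffAt ℝ ∞ f z) (h0 : ∀ z, z ∉ K → f z = 0) :
    ∫ z in K, dz k f z = 0 ∧ ∫ z in K, dzb k f z = 0 := by
  obtain ⟨-, -, i1, i2⟩ := mIBPE n U K f hU hK s hf (fun z _ => h0 z) k
  have ev : ∀ z ∈ U \ K, f =ᶠ[𝓝 z] fun _ => 0 := fun z hz =>
    mem_of_superset (hK.isClosed.isOpen_compl.mem_nhds hz.2) h0
  exact ⟨(setIntegral_eq_of_subset_of_forall_sdiff_eq_zero hU.measurableSet s fun z hz =>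
      (dz_congr (ev z hz)).trans (dz_const 0)).symm.trans i1,
    (setIntegral_eq_of_subset_of_forall_sdiff_eq_zero hU.measurableSet s fun z hz =>
      (dzb_congr (ev z hz)).trans (dzb_const 0)).symm.trans i2⟩

theorem io (hK : IsCompact K) (s : K ⊆ U) {F : Type} [NormedAddCommGroup F] [NormedSpace ℝ F]
    {f : E n → F} (hf : ∀ z ∈ U, ContDiffAt ℝ ∞ f z) : IntegrableOn f K :=
  ContinuousOn.integrableOn_compact hK fun z hz => (hf z (s hz)).continuousAt.continuousWithinAt

theorem grn (hU : IsOpen U) (hK : IsCompact K) (s : K ⊆ U) {p χ : E n → ℂ}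
    (hp : ∀ z ∈ U, ContDiffAt ℝ ∞ p z) (hχ : ∀ z, ContDiffAt ℝ ∞ χ z) (h0 : ∀ z, z ∉ K → χ z = 0) :
    ∫ z in K, χ z * dzb k (dz k p) z = ∫ z in K, (p z - 1) * dz k (dzb k χ) z := by
  have f1 := fun z hz => (hχ z).mul (cd_dz (hp z hz) k)
  have f2 := fun z hz => ((hp z hz).sub (contDiffAt_const (c := 1))).mul (cd_dzb (hχ z) k)
  have i1 := (ibp (k := k) hU hK s f1 fun z hz => by rw [h0 z hz, zero_mul]).2
  have i2 := (ibp (k := k) hU hK s f2 fun z hz => by
    rw [dzb_congr (g := fun _ => 0) (mem_of_superset (hK.isClosed.isOpen_compl.mem_nhds hz) h0),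
      dzb_const, mul_zero]).1
  rw [← sub_eq_zero, ← integral_sub (io hK s fun z hz => (hχ z).mul (cd_dzb (cd_dz (hp z hz) k) k))
    (io hK s fun z hz => ((hp z hz).sub contDiffAt_const).mul (cd_dz (cd_dzb (hχ z) k) k)),
    ← sub_self (0 : ℂ)]
  nth_rw 1 [← i1]
  rw [← i2, ← integral_sub (io hK s fun z hz => cd_dzb (f1 z hz) k)
    (io hK s fun z hz => cd_dz (f2 z hz) k)]
  refine setIntegral_congr_fun hK.measurableSet fun z hz => ?_
  have d := hp z (s hz)
  rw [dzb_mul (cd_diff (hχ z)) (cd_diff (cd_dz d k)),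
    dz_mul (cd_diff (d.sub contDiffAt_const)) (cd_diff (cd_dzb (hχ z) k)),
    dz_sub (cd_diff d) (differentiableAt_const _), dz_const]
  ring

theorem am {t A h : ℝ} (ht : 0 < t) (h1 : 0 ≤ t * A) (h2 : 0 ≤ h / t) :
    A * h ≤ (t * A + h / t) ^ 2 := by
  rw [show A * h = t * A * (h / t) by field_simp]
  nlinarith [mul_nonneg h1 h2]

/-- The sequence of powers. -/
def sq (j : ℕ) : ℝ → ℝ := pw (1 / (j + 1)) (Real.exp (-(j + 1)) / 2)

theorem sq_pos (j : ℕ) (t : ℝ) : 0 < sq j t := Real.exp_pos _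

theorem sq_le (j : ℕ) {t B : ℝ} (h0 : 0 ≤ t) (h : t ≤ B) : sq j t ≤ B + 1 := by
  have e1 : Real.exp (-(j + 1)) ≤ 1 := Real.exp_le_one_iff.2 (neg_nonpos.2 (by positivity))
  have e2 := Real.log_le_log (by positivity)
    (show t + Real.exp (-(j + 1)) / 2 ≤ B + 1 by linarith)
  have e3 := Real.log_nonneg (show 1 ≤ B + 1 by linarith)
  have e4 : (1 : ℝ) / (j + 1) ≤ 1 := div_le_one_of_le₀ (by simp) (by positivity)
  rw [← Real.exp_log (show 0 < B + 1 by linarith)]
  exact Real.exp_le_exp.2 ((mul_le_mul_of_nonneg_left e2 (by positivity)).trans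
    (mul_le_of_le_one_left e3 e4))

theorem sq_small (j : ℕ) {t : ℝ} (h0 : 0 ≤ t) (h : t ≤ Real.exp (-(j + 1)) / 2) :
    sq j t ≤ 1 / 2 := by
  have e2 := Real.log_le_log (by positivity)
    (show t + Real.exp (-(j + 1)) / 2 ≤ Real.exp (-(j + 1)) by linarith)
  rw [Real.log_exp] at e2
  have e3 := mul_le_mul_of_nonneg_left e2 (show (0 : ℝ) ≤ 1 / (j + 1) by positivity)
  rw [show (1 : ℝ) / (j + 1) * -(j + 1) = -1 by field_simp] at e3
  refine (Real.exp_le_exp.2 e3).trans ?_
  rw [Real.exp_neg, one_div]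
  exact inv_anti₀ two_pos (by linarith [Real.add_one_le_exp 1])

theorem sq_lim {t : ℝ} (h : t ≠ 0) : Tendsto (fun j => sq j t) atTop (𝓝 1) := by
  have t1 : Tendsto (fun j : ℕ => t + Real.exp (-(j + 1)) / 2) atTop (𝓝 (t + 0 / 2)) :=
    ((Real.tendsto_exp_neg_atTop_nhds_zero.comp (tendsto_atTop_add_const_right _ 1
      tendsto_natCast_atTop_atTop)).div_const 2).const_add t
  have t2 := (tendsto_one_div_add_atTop_nhds_zero_nat.mul (t1.log (by simpa using h))).rexp
  rwa [zero_mul, Real.exp_zero] at t2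

theorem sq_sm (j : ℕ) (ha : HolN a z) : ContDiffAt ℝ ∞ (fun w => sq j (normSq (a w))) z :=
  (contDiffAt_const.mul (((cd_normSq ((mHOL n a _).2.2 ha).1).add contDiffAt_const).log
    (add_pos_of_nonneg_of_pos (normSq_nonneg _) (by positivity)).ne')).exp

end CAP

open CAP in
theorem st_CAP : St_CAP := by
  intro n U K a hU hK s ha h0
  have hol : ∀ z ∈ U, HolN a z := fun z hz => ha.eventually_differentiableAt (hU.mem_nhds hz)
  have κs : ContDiff ℝ ∞ fun x : ℝ => Real.smoothTransition (4 * x - 2) :=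
    Real.smoothTransition.contDiff.comp ((contDiff_const.mul contDiff_id).sub contDiff_const)
  refine ⟨fun j z => Real.smoothTransition (4 * sq j (normSq (a z)) - 2), fun j =>
    ⟨fun z hz => κs.contDiffAt.comp z (sq_sm j (hol z hz)), fun z =>
      ⟨Real.smoothTransition.nonneg _, Real.smoothTransition.le_one _⟩,
      √(Real.exp (-(j + 1)) / 2), by positivity, fun z hz => Real.smoothTransition.zero_of_nonpos
        (by linarith [sq_small j (normSq_nonneg (a z)) (by
          rw [normSq_eq_norm_sq]; exact ((Real.lt_sqrt (norm_nonneg _)).1 hz).le)])⟩,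
    fun z hz => ?_, fun k => ?_⟩
  · have := (κs.continuous.tendsto 1).comp (sq_lim (mt normSq_eq_zero.1 hz))
    rwa [Real.smoothTransition.one_of_one_le (by norm_num)] at this
  obtain ⟨K', hK', s1, s2⟩ := exists_compact_between hK hU s
  obtain ⟨χ, c1, c2, c3⟩ := exists_contMDiffMap_one_nhds_of_subset_interior (n := ⊤)
    𝓘(ℝ, E n) hK.isClosed s1
  have cs : ∀ z, ContDiffAt ℝ ∞ (fun w => (χ w : ℂ)) z := fun z =>
    cd_ofReal χ.contMDiff.contDiff.contDiffAt
  obtain ⟨B, hB⟩ := hK'.exists_bound_of_continuousOn (ha.continuousOn.mono s2)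
  have b1 : ∀ j, ∀ z ∈ K', sq j (normSq (a z)) ≤ B ^ 2 + 1 := fun j z hz =>
    sq_le j (normSq_nonneg _) (by
      rw [normSq_eq_norm_sq]; exact pow_le_pow_left₀ (norm_nonneg _) (hB z hz) 2)
  obtain ⟨L, hL⟩ := (isCompact_Icc (a := (0 : ℝ)) (b := B ^ 2 + 1)).exists_bound_of_continuousOn
    (κs.continuous_deriv (by simp)).continuousOn
  have L0 : 0 ≤ L := (norm_nonneg _).trans (hL 0 ⟨le_rfl, by positivity⟩)
  have ps : ∀ j, ∀ z ∈ U, ContDiffAt ℝ ∞ (fun w => (sq j (normSq (a w)) : ℂ)) z := fun j z hz =>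
    cd_ofReal (sq_sm j (hol z hz))
  have iχ := io hK' s2 fun z _ => cd_dz (cd_dzb (cs z) k) k
  have lim : Tendsto (fun j => ∫ z in K', ((sq j (normSq (a z)) : ℂ) - 1) *
      dz k (dzb k fun w => (χ w : ℂ)) z) atTop (𝓝 (∫ z in K', 0)) := by
    refine tendsto_integral_of_dominated_convergence
      (fun z => (B ^ 2 + 1 + 1) * ‖dz k (dzb k fun w => (χ w : ℂ)) z‖) (fun j =>
        (io hK' s2 fun z hz => ((ps j z hz).sub contDiffAt_const).mul
          (cd_dz (cd_dzb (cs z) k) k)).aestronglyMeasurable) (iχ.norm.const_mul _)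
      (fun j => (ae_restrict_iff' hK'.measurableSet).2 (Eventually.of_forall fun z hz => ?_))
      ((ae_restrict_iff' hK'.measurableSet).2 (h0.mono fun z h hz => ?_))
    · rw [norm_mul]
      refine mul_le_mul_of_nonneg_right ((norm_sub_le _ _).trans ?_) (norm_nonneg _)
      rw [norm_one, norm_real, Real.norm_of_nonneg (sq_pos _ _).le]
      linarith [b1 j z hz]
    · have := (((continuous_ofReal.tendsto 1).comp (sq_lim (mt normSq_eq_zero.1
        (h (s2 hz))))).sub_const 1).mul_const (dz k (dzb k fun w => (χ w : ℂ)) z)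
      rwa [ofReal_one, sub_self, zero_mul] at this
  rw [integral_zero] at lim
  have est : ∀ t : ℝ, 0 < t → ∀ j, ∫ z in K, ‖dzb k (fun w =>
      (Real.smoothTransition (4 * sq j (normSq (a w)) - 2) : ℂ)) z‖ ≤
      L * (t * ((B ^ 2 + 1) * volume.real K') + (∫ z in K', ((sq j (normSq (a z)) : ℂ) - 1) *
        dz k (dzb k fun w => (χ w : ℂ)) z).re / t) := fun t ht j => by
    have i1 := io hK' s2 fun z hz => (cs z).mul (cd_dzb (cd_dz (ps j z hz) k) k)
    have q := integral_re (𝕜 := ℂ) i1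
    simp only [RCLike.re_to_complex] at q
    have kk := fun z hz => key (k := k) (δ := 1 / (j + 1)) (h := Real.exp (-(j + 1)) / 2)
      (by positivity) (by positivity) (hol z (s2 hz))
    have k0 : ∀ z ∈ K', 0 ≤ (dzb k (dz k fun w => (sq j (normSq (a w)) : ℂ)) z).re := fun z hz =>
      nonneg_of_mul_nonneg_right ((sq_nonneg _).trans (kk z hz)) (sq_pos j _)
    have : IsFiniteMeasure (volume.restrict K') := isFiniteMeasure_restrict.2 hK'.measure_ne_top
    have i2 : IntegrableOn (fun z => L * (t * (B ^ 2 + 1) + ((χ z : ℂ) *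
        dzb k (dz k fun w => (sq j (normSq (a w)) : ℂ)) z).re / t)) K' :=
      ((integrable_const _).add (i1.re.div_const t)).const_mul L
    rw [← grn hU hK' s2 (ps j) cs fun z hz => by rw [c2 z hz, ofReal_zero], ← q]
    calc _ ≤ ∫ z in K, L * (t * (B ^ 2 + 1) + ((χ z : ℂ) *
          dzb k (dz k fun w => (sq j (normSq (a w)) : ℂ)) z).re / t) := by
          refine setIntegral_mono_on (io hK s fun z hz => cd_dzb (cd_ofReal
            (κs.contDiffAt.comp z (sq_sm j (hol z hz)))) k).norm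
            (i2.mono_set (s1.trans interior_subset)) hK.measurableSet fun z hz => ?_
          have hz' := interior_subset (s1 hz)
          rw [dzb_comp_real (u := fun w => sq j (normSq (a w)))
            (κs.differentiable (by simp) _).hasDerivAt
            ((sq_sm j (hol z (s hz))).differentiableAt (by simp)), norm_mul, norm_real,
            c1.self_of_nhdsSet z hz, ofReal_one, one_mul]
          refine mul_le_mul (hL _ ⟨(sq_pos _ _).le, b1 j z hz'⟩) ?_ (norm_nonneg _) L0
          have j1 := (kk z hz').trans (mul_le_mul_of_nonneg_right (b1 j z hz') (k0 z hz'))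
          have j2 := div_nonneg (k0 z hz') ht.le
          have j3 : 0 ≤ t * (B ^ 2 + 1) := by positivity
          exact (abs_le_of_sq_le_sq' (j1.trans (am ht j3 j2)) (add_nonneg j3 j2)).2
      _ ≤ ∫ z in K', L * (t * (B ^ 2 + 1) + ((χ z : ℂ) *
          dzb k (dz k fun w => (sq j (normSq (a w)) : ℂ)) z).re / t) := by
          refine setIntegral_mono_set i2 ((ae_restrict_iff' hK'.measurableSet).2
            (Eventually.of_forall fun z hz => ?_)) (s1.trans interior_subset).eventuallyLE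
          have := k0 z hz
          have := (c3 z).1
          simp only [Pi.zero_apply, re_ofReal_mul]
          positivity
      _ = _ := by
          have i3 := i1.re.div_const t
          simp only [RCLike.re_to_complex] at i3
          rw [integral_const_mul, integral_add (integrable_const _) i3,
            integral_div, setIntegral_const, smul_eq_mul]
          ring
  refine tendsto_order.2 ⟨fun b hb => Eventually.of_forall fun j =>
    hb.trans_le (integral_nonneg fun _ => norm_nonneg _), fun b hb => ?_⟩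
  have t0 : Tendsto (fun t : ℝ => L * (t * ((B ^ 2 + 1) * volume.real K') + 0)) (𝓝[>] 0)
      (𝓝 (L * (0 * ((B ^ 2 + 1) * volume.real K') + 0))) :=
    (((tendsto_id.mono_left nhdsWithin_le_nhds).mul_const _).add_const 0).const_mul L
  obtain ⟨t, t1, t2⟩ := ((t0.eventually (gt_mem_nhds (by simpa using hb))).and
    self_mem_nhdsWithin).exists
  have t3 := ((((continuous_re.tendsto 0).comp lim).div_const t).const_add
    (t * ((B ^ 2 + 1) * volume.real K'))).const_mul L
  rw [zero_re, zero_div] at t3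
  exact (t3.eventually (gt_mem_nhds t1)).mono fun j hj => (est t t2 j).trans_lt hj

end Pool.Agent.Lib.F4.R
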