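import Pool.Agent.Lib.F4.BlueR
import Pool.Agent.Lib.EXA.K71

/-! Project f4, part R: a bounded form that is exact off a hypersurface is weakly closed. -/

open scoped Classical Topology ContDiff
open Set MeasureTheory Complex Metric Filter

noncomputable section

namespace Pool.Agent.Lib.F4.R

open Pool.Agent.Lib.SV (E)
open Pool.Agent.Lib.HS32

namespace CLO

variable {n : ℕ}

theorem out {ψ : E n → ℂ} {z : E n} (hz : z ∉ tsupport ψ) (k : Fin n) :
    dzb k ψ =ᶠ[𝓝 z] fun _ => 0 :=
  (dzb_congr_ev (notMem_tsupport_iff_eventuallyEq.1 hz)).trans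
    (Eventually.of_forall fun _ => dzb_const 0)

theorem step {V : Set (E n)} (hV : IsOpen V) {g ψ : E n → ℂ} {ξ : E n → E n}
    (hg : ContDiffOn ℝ 1 g V) (hξ : ∀ z ∈ V, ∀ l, ξ z l = dzb l g z) (hψ : Tst V ψ) (j k : Fin n) :
    ∫ z, (ξ z j * dzb k ψ z - ξ z k * dzb j ψ z) = 0 := by
  have ev : ∀ k, ∀ z ∉ tsupport ψ, (fun w => g w * dzb k ψ w) =ᶠ[𝓝 z] fun _ => 0 :=
    fun k z hz => (out hz k).mono fun w hw => by simp only [hw, mul_zero]
  have key : ∀ j k, Integrable (dzb j fun w => g w * dzb k ψ w) ∧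
      ∫ z, dzb j (fun w => g w * dzb k ψ w) z = 0 := fun j k => by
    refine EXA.K71.int_dzb (contDiff_iff_contDiffAt.2 fun z => ?_)
      (HasCompactSupport.intro hψ.2.1 fun z hz => (ev k z hz).self_of_nhds) j
    by_cases hz : z ∈ tsupport ψ
    · exact (hg.contDiffAt (hV.mem_nhds (hψ.2.2 hz))).mul
        (cd_le (cd_dzb hψ.1.contDiffAt k) 1)
    · exact contDiffAt_const.congr_of_eventuallyEq (ev k z hz)
  rw [← sub_self (0 : ℂ)]
  nth_rewrite 1 [← (key j k).2]
  rw [← (key k j).2, ← integral_sub (key j k).1 (key k j).1]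
  refine integral_congr_ae (Eventually.of_forall fun z => ?_)
  beta_reduce
  by_cases hz : z ∈ tsupport ψ
  · have d := (hg.contDiffAt (hV.mem_nhds (hψ.2.2 hz))).differentiableAt one_ne_zero
    rw [dzb_mul d (cd_diff (cd_dzb hψ.1.contDiffAt k)),
      dzb_mul d (cd_diff (cd_dzb hψ.1.contDiffAt j)), hξ z (hψ.2.2 hz), hξ z (hψ.2.2 hz),
      dzb_dzb hψ.1.contDiffAt j k]
    ring
  · rw [dzb_congr (ev k z hz), dzb_congr (ev j z hz), (out hz k).self_of_nhds,
      (out hz j).self_of_nhds]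
    simp

theorem intg {U K : Set (E n)} {ξ : E n → E n} (hξ : Bd U ξ) (hK : IsCompact K) (hU : K ⊆ U)
    {θ : E n → ℂ} (hθ : ContinuousOn θ K) (h0 : ∀ z ∉ K, θ z = 0) (l : Fin n) :
    Integrable fun z => ξ z l * θ z := by
  obtain ⟨C, hC⟩ := hξ.2 K hK hU
  refine IntegrableOn.integrable_of_forall_notMem_eq_zero (s := K) ?_
    fun z hz => by rw [h0 z hz, mul_zero]
  exact Integrable.bdd_mul (c := C) (hθ.integrableOn_compact hK)
    ((hξ.1 l).mono_measure (Measure.restrict_mono hU le_rfl))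
    (ae_restrict_of_forall_mem hK.measurableSet fun z hz => (norm_le_pi_norm _ l).trans (hC z hz))

end CLO

theorem st_CLO (hC : St_CAP) : St_CLO := by
  intro n U a ρ ξ hU ha h0 hρ hξ hx χ hχ j k
  obtain ⟨u, u1, u2, u3⟩ := hC n U (tsupport χ) a hU hχ.2.1 hχ.2.2 ha h0
  have hK : IsCompact (tsupport χ) := hχ.2.1
  have sm : ∀ i, ∀ z ∈ U, ContDiffAt ℝ ∞ (fun w => (u i w : ℂ)) z := fun i z hz =>
    cd_ofReal ((u1 i).1 z hz)
  have ev : ∀ i, ∀ z ∉ tsupport χ, (fun w => χ w * u i w) =ᶠ[𝓝 z] fun _ => 0 := fun i z hz =>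
    (notMem_tsupport_iff_eventuallyEq.1 hz).mono fun w hw => by
      simp only [hw, Pi.zero_apply, zero_mul]
  have hV : IsOpen (U ∩ a ⁻¹' {0}ᶜ) :=
    ha.continuousOn.isOpen_inter_preimage hU isOpen_compl_singleton
  have tst : ∀ i, Tst (U ∩ a ⁻¹' {0}ᶜ) fun w => χ w * u i w := fun i => by
    refine ⟨contDiff_iff_contDiffAt.2 fun z => ?_, hχ.2.1.mul_right, fun z hz => ?_⟩
    · by_cases hz : z ∈ tsupport χ
      · exact hχ.1.contDiffAt.mul (sm i z (hχ.2.2 hz))
      · exact contDiffAt_const.congr_of_eventuallyEq (ev i z hz)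
    · have h1 := hχ.2.2 (tsupport_mul_subset_left hz)
      obtain ⟨d, d0, hd⟩ := (u1 i).2.2
      refine ⟨h1, fun h => notMem_tsupport_iff_eventuallyEq.2 ?_ hz⟩
      have h2 : ∀ᶠ w in 𝓝 z, ‖a w‖ < d :=
        (ha.continuousOn.continuousAt (hU.mem_nhds h1)).norm.eventually
          (gt_mem_nhds (show ‖a z‖ < d by rwa [show a z = 0 from h, norm_zero]))
      exact h2.mono fun w hw => by simp only [hd w hw, ofReal_zero, mul_zero, Pi.zero_apply]
  have hi : DifferentiableOn ℂ (fun z => (a z)⁻¹) (U ∩ a ⁻¹' {0}ᶜ) :=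
    (ha.mono inter_subset_left).inv fun z hz => hz.2
  have st := fun i => CLO.step (ξ := ξ) hV (g := fun z => ρ z * (a z)⁻¹)
    ((hρ.mono inter_subset_left).mul fun z hz => ((SV.H85.contDiffAt_nat
      (hi.eventually_differentiableAt (hV.mem_nhds hz)) 1).restrict_scalars ℝ).contDiffWithinAt)
    (fun z hz l => by
      have h1 := hi.differentiableAt (hV.mem_nhds hz)
      rw [dzb_mul ((hρ.contDiffAt (hU.mem_nhds hz.1)).differentiableAt one_ne_zero)
        (h1.restrictScalars ℝ), HLK.GB.dzb_hol h1, ← hx z hz.1 hz.2 l, mul_zero, add_zero,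
        mul_right_comm, mul_inv_cancel₀ hz.2, one_mul]) (tst i) j k
  have cχ : ∀ k, Continuous (dzb k χ) := fun k =>
    continuous_iff_continuousAt.2 fun _ => (cd_dzb hχ.1.contDiffAt k).continuousAt
  have cu : ∀ i k, ContinuousOn (dzb k fun w => (u i w : ℂ)) (tsupport χ) := fun i k z hz =>
    (cd_dzb (sm i z (hχ.2.2 hz)) k).continuousAt.continuousWithinAt
  have i1 : ∀ i j k, Integrable fun z => ξ z j * (dzb k χ z * u i z) := fun i j k =>
    CLO.intg hξ hK hχ.2.2 ((cχ k).continuousOn.mul fun z hz =>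
      (sm i z (hχ.2.2 hz)).continuousAt.continuousWithinAt)
      (fun z hz => mul_eq_zero_of_left (CLO.out hz k).self_of_nhds _) j
  have i2 : ∀ i j k, Integrable fun z => ξ z j * (χ z * dzb k (fun w => (u i w : ℂ)) z) :=
    fun i j k => CLO.intg hξ hK hχ.2.2 (hχ.1.continuous.continuousOn.mul (cu i k))
      (fun z hz => mul_eq_zero_of_left (image_eq_zero_of_notMem_tsupport hz) _) j
  have pr : ∀ i j k, (fun z => ξ z j * dzb k (fun w => χ w * u i w) z) = fun z =>
      ξ z j * (dzb k χ z * u i z) + ξ z j * (χ z * dzb k (fun w => (u i w : ℂ)) z) :=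
    fun i j k => funext fun z => by
      by_cases hz : z ∈ tsupport χ
      · rw [dzb_mul (cd_diff hχ.1.contDiffAt) (cd_diff (sm i z (hχ.2.2 hz))), mul_add]
      · rw [dzb_congr (ev i z hz), (CLO.out hz k).self_of_nhds,
          image_eq_zero_of_notMem_tsupport hz]
        simp
  have lim : ∀ j k, Tendsto (fun i => ∫ z, ξ z j * dzb k (fun w => χ w * u i w) z) atTop
      (𝓝 (∫ z, ξ z j * dzb k χ z)) := fun j k => by
    simp only [pr, integral_add (i1 _ j k) (i2 _ j k)]
    rw [← add_zero (∫ z, ξ z j * dzb k χ z)]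
    refine Tendsto.add (tendsto_integral_of_dominated_convergence
      (fun z => ‖ξ z j * dzb k χ z‖) (fun i => (i1 i j k).1)
      (CLO.intg hξ hK hχ.2.2 (cχ k).continuousOn
        (fun z hz => (CLO.out hz k).self_of_nhds) j).norm
      (fun i => Eventually.of_forall fun z => ?_) (h0.mono fun z hz => ?_)) ?_
    · rw [← mul_assoc, norm_mul, norm_real, Real.norm_of_nonneg ((u1 i).2.1 z).1]
      exact mul_le_of_le_one_right (norm_nonneg _) ((u1 i).2.1 z).2
    · by_cases h : z ∈ tsupport χ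
      · have := (((continuous_ofReal.tendsto 1).comp (u2 z (hz (hχ.2.2 h)))).const_mul
          (dzb k χ z)).const_mul (ξ z j)
        rwa [ofReal_one, mul_one] at this
      · simp only [(CLO.out h k).self_of_nhds, zero_mul, tendsto_const_nhds]
    · obtain ⟨C, hC⟩ := hξ.2 _ hK hχ.2.2
      obtain ⟨B, hB⟩ := hK.exists_bound_of_continuousOn hχ.1.continuous.continuousOn
      have := (u3 k).const_mul (C * B)
      rw [mul_zero] at this
      refine squeeze_zero_norm (fun i => ?_) this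
      rw [← setIntegral_eq_integral_of_forall_compl_eq_zero (s := tsupport χ)
        (fun z hz => by rw [image_eq_zero_of_notMem_tsupport hz, zero_mul, mul_zero]),
        ← integral_const_mul]
      refine norm_integral_le_of_norm_le (((cu i k).integrableOn_compact hK).norm.const_mul _)
        (ae_restrict_of_forall_mem hK.measurableSet fun z hz => ?_)
      rw [← mul_assoc, norm_mul, norm_mul]
      exact mul_le_mul_of_nonneg_right (mul_le_mul ((norm_le_pi_norm _ j).trans (hC z hz))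
        (hB z hz) (norm_nonneg _) ((norm_nonneg _).trans (hC z hz))) (norm_nonneg _)
  refine tendsto_nhds_unique (lim j k) ((lim k j).congr fun i => ?_)
  have := st i
  rw [integral_sub (pr i j k ▸ (i1 i j k).add (i2 i j k)) (pr i k j ▸ (i1 i k j).add (i2 i k j)),
    sub_eq_zero] at this
  exact this.symm

end Pool.Agent.Lib.F4.R
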