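import Pool.Agent.Lib.F4.BlueR

/-! Project f4, part R: the functional given by a bounded form. -/

open scoped Classical Topology ContDiff ComplexOrder Matrix
open Set MeasureTheory Complex Metric Filter

set_option linter.unusedVariables false

noncomputable section

namespace Pool.Agent.Lib.F4.R

open Pool.Agent.Lib.SV (E)
open Pool.Agent.Lib.HS32 Pool.Agent.Lib.KP Pool.Agent.Lib.HLK

namespace FUN

variable {n : ℕ}

theorem la_row (g : Mat n) (B : Fs n) :
    La g Finset.univ B = if B = Finset.univ then g.det else 0 := by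
  split_ifs with h
  · subst h
    have c : (Finset.univ : Fs n).card = n := Finset.card_fin n
    have k : ∀ (A : Fs n) (m : ℕ) (hA : A.card = m),
        La g A A = (g.submatrix (A.orderEmbOfFin hA) (A.orderEmbOfFin hA)).det := by
      intro A m hA
      subst hA
      exact dif_pos rfl
    have e : id = ⇑((Finset.univ : Fs n).orderEmbOfFin c) :=
      Finset.orderEmbOfFin_unique c (fun _ => Finset.mem_univ _) strictMono_id
    rw [k _ n c, ← e, Matrix.submatrix_id_id]
  · exact dif_neg fun c => h (Finset.eq_univ_of_card _ (c.trans (Finset.card_univ)))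

theorem la_top (g : Mat n) (u : Fs n → ℂ) :
    (La g *ᵥ u) Finset.univ = g.det * u Finset.univ := by
  simp only [Matrix.mulVec, dotProduct, la_row, ite_mul, zero_mul, Finset.sum_ite_eq',
    Finset.mem_univ, if_true]

theorem alg (J H : Mat n) (c : ℂ) (ξ ξ' : E n) (W W' : Fs n → ℂ) (hJ : J.det ≠ 0) (hc : c ≠ 0)
    (hH : H.det ≠ 0) (hξ : ∀ l, ξ' l = J.det / c * ∑ a, star (J a l) * ξ a)
    (hW : W = (c⁻¹ • La J) *ᵥ W') :
    (∑ l, ξ' l * ((cr l * La (Jᴴ * H * J)) *ᵥ W') Finset.univ) / (Jᴴ * H * J).det =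
      (∑ l, ξ l * ((cr l * La H) *ᵥ W) Finset.univ) / H.det := by
  have hm := fun g h => ((aFK2 n).2 g).2.2.1 h
  have hW' : La J *ᵥ W' = c • W := by
    rw [hW, Matrix.smul_mulVec, smul_smul, mul_inv_cancel₀ hc, one_smul]
  have h1 : ∀ l, (cr l * La (Jᴴ * H * J)) *ᵥ W' = c • ((cr l * La Jᴴ) *ᵥ (La H *ᵥ W)) := by
    intro l
    rw [hm, hm, ← Matrix.mul_assoc, ← Matrix.mul_assoc, ← Matrix.mulVec_mulVec,
      ← Matrix.mulVec_mulVec, hW', Matrix.mulVec_smul, Matrix.mulVec_smul]
  have h2 : ∀ a, ∑ l, star (J a l) * ((cr l * La Jᴴ) *ᵥ (La H *ᵥ W)) Finset.univ =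
      star J.det * ((cr a * La H) *ᵥ W) Finset.univ := by
    intro a
    have h3 := congrFun (congrArg (fun T : Mx (Fs n) => T *ᵥ (La H *ᵥ W))
      (((aFK2 n).2 Jᴴ).2.2.2.1 a)) Finset.univ
    simp only [Matrix.sum_mulVec, Matrix.smul_mulVec, Finset.sum_apply, Pi.smul_apply, smul_eq_mul,
      Matrix.conjTranspose_apply] at h3
    rw [← h3, ← Matrix.mulVec_mulVec, la_top, Matrix.det_conjTranspose, Matrix.mulVec_mulVec]
  have h4 : ∑ l, ξ' l * ((cr l * La (Jᴴ * H * J)) *ᵥ W') Finset.univ =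
      J.det * star J.det * ∑ l, ξ l * ((cr l * La H) *ᵥ W) Finset.univ := by
    calc _ = ∑ l, ∑ a, J.det * (ξ a *
          (star (J a l) * ((cr l * La Jᴴ) *ᵥ (La H *ᵥ W)) Finset.univ)) := by
          refine Finset.sum_congr rfl fun l _ => ?_
          rw [hξ, h1, Pi.smul_apply, smul_eq_mul, Finset.mul_sum, Finset.sum_mul]
          refine Finset.sum_congr rfl fun a _ => ?_
          field_simp
      _ = ∑ a, J.det * (ξ a * (star J.det * ((cr a * La H) *ᵥ W) Finset.univ)) := by
          rw [Finset.sum_comm]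
          refine Finset.sum_congr rfl fun a _ => ?_
          rw [← Finset.mul_sum, ← Finset.mul_sum, h2]
      _ = _ := by
          rw [Finset.mul_sum]
          exact Finset.sum_congr rfl fun a _ => by ring
  have h5 : star J.det ≠ 0 := star_ne_zero.2 hJ
  rw [h4, Matrix.det_mul, Matrix.det_mul, Matrix.det_conjTranspose]
  field_simp

theorem cs {X : Type} [MeasurableSpace X] (μ : Measure X) [IsFiniteMeasure μ] {p : X → ℝ}
    (h0 : ∀ x, 0 ≤ p x) (h1 : Integrable p μ) (h2 : Integrable (fun x => √(p x)) μ) :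
    ∫ x, √(p x) ∂μ ≤ √(μ.real univ) * √(∫ x, p x ∂μ) := by
  have h3 : ∀ t : ℝ, 0 ≤ μ.real univ * (t * t) + -(2 * ∫ x, √(p x) ∂μ) * t + ∫ x, p x ∂μ := by
    intro t
    have h4 : 0 ≤ ∫ x, (t * t - 2 * t * √(p x) + p x) ∂μ := integral_nonneg fun x => by
      have := Real.sq_sqrt (h0 x)
      show (0 : ℝ) ≤ t * t - 2 * t * √(p x) + p x
      nlinarith [sq_nonneg (t - √(p x))]
    have h6 : Integrable (fun x => t * t - 2 * t * √(p x)) μ :=
      (integrable_const _).sub (h2.const_mul _)
    rw [integral_add h6 h1,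
      integral_sub (integrable_const _) (h2.const_mul _), integral_const, integral_const_mul,
      smul_eq_mul] at h4
    linarith
  have h5 := discrim_le_zero h3
  rw [discrim] at h5
  rw [← Real.sqrt_mul measureReal_nonneg]
  exact Real.le_sqrt_of_sq_le (by nlinarith)

variable {M : Mf n}

theorem aesm [M.Cpt] {H : M.Fam (Mat n)} (hH : M.Met H) {f : M.X → ℂ} {Φ : M.Fam ℂ}
    (hr : M.Rep f Φ) (hm : ∀ e ∈ M.C, AEStronglyMeasurable (Φ e) (volume.restrict e.target)) :
    AEStronglyMeasurable f (M.mu H) := by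
  obtain ⟨V, -⟩ := (mCOV n M).2.2.1
  have hu : ⋃ a, (V.e a).source = univ :=
    eq_univ_of_forall fun x => (V.cov x).elim fun a ha => mem_iUnion.2 ⟨a, ha.1⟩
  rw [← Measure.restrict_univ (μ := M.mu H), ← hu, aestronglyMeasurable_iUnion_iff]
  intro a
  have he := V.mem a
  generalize V.e a = e at he
  have h1 : AEMeasurable e ((M.mu H).restrict e.source) :=
    e.continuousOn.aemeasurable e.open_source.measurableSet
  have hac := withDensity_absolutelyContinuous (volume.restrict e.target)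
    fun z => ENNReal.ofReal (H e z).det.re
  have h2 : AEMeasurable e.symm ((volume.restrict e.target).withDensity
      fun z => ENNReal.ofReal (H e z).det.re) :=
    (e.continuousOn_symm.aemeasurable e.open_target.measurableSet).mono_ac hac
  have h3 := (mMU n M H hH).1 e he
  have h4 : Measure.map e ((M.mu H).restrict e.source) = (volume.restrict e.target).withDensity
      fun z => ENNReal.ofReal (H e z).det.re := by
    rw [h3, AEMeasurable.map_map_of_aemeasurable (h3 ▸ h1) h2]
    refine (Measure.map_congr (g := id) ?_).trans Measure.map_id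
    refine hac.ae_le ?_
    filter_upwards [ae_restrict_mem e.open_target.measurableSet] with z hz using e.right_inv hz
  have h5 : AEStronglyMeasurable (Φ e ∘ e) ((M.mu H).restrict e.source) :=
    AEStronglyMeasurable.comp_aemeasurable (h4 ▸ (hm e he).mono_ac hac) h1
  refine h5.congr ?_
  filter_upwards [ae_restrict_mem e.open_source.measurableSet] with x hx
  exact (hr.at he hx).symm

/-- The coefficients of the pairing. -/
def co (H : E n → Mat n) (l : Fin n) (B : Fs n) (z : E n) : ℂ :=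
  (cr l * La (H z)) Finset.univ B / (H z).det

theorem pl_eq (H : M.Fam (Mat n)) (ξ : M.Fam (E n)) (W : M.Fam (Fs n → ℂ)) (e : M.Ch) (z : E n) :
    pl H ξ W e z = ∑ l, ∑ B, ξ e z l * (co (H e) l B z * W e z B) := by
  simp only [pl, co, Matrix.mulVec, dotProduct, Finset.mul_sum, Finset.sum_div]
  exact Finset.sum_congr rfl fun l _ => Finset.sum_congr rfl fun B _ => by ring

theorem co_cont {H : E n → Mat n} {z : E n} (h : SmM H z) (h0 : (H z).det ≠ 0) (l : Fin n)
    (B : Fs n) : ContinuousAt (co H l B) z := by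
  have h1 := ((aFK3 n H z).2 h).1
  refine ContinuousAt.div ?_ h.det.continuousAt h0
  simp only [Matrix.mul_apply]
  exact tendsto_finset_sum _ fun A _ => continuousAt_const.mul (h1 A B).continuousAt

end FUN

open FUN in
theorem st_FUN : St_FUN := by
  intro n M _ H L φ ξ hH hφ hξ
  obtain ⟨ok, hl, -⟩ := aLAM n M H L φ hH hφ
  obtain ⟨-, fin, -, -, itg, -⟩ := mMU n M H hH
  have inv : ∀ W, (lam H L φ).Sec W → M.Inv (pl H ξ W) := fun W hW e he e' he' x hx hx' => by
    have h1 := (mTR n M).2.1 e he e' he' x hx hx'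
    simp only [pl]
    rw [hH.cmp e he e' he' x hx hx']
    exact alg _ _ _ _ _ _ _ h1.2.1 (L.ne e he e' he' x hx hx') (hH.det_ne.at he hx)
      (hξ.law e he e' he' x hx hx') (hW.cmp e he e' he' x hx hx')
  have cc : ∀ e ∈ M.C, ∀ l B, ContinuousOn (co (H e) l B) e.target := fun e he l B z hz =>
    (co_cont (hH.sm e he z hz) (hH.det_ne e he z hz) l B).continuousWithinAt
  have loc : ∀ e ∈ M.C, ∀ K, IsCompact K → K ⊆ e.target → ∃ C : ℝ, 0 ≤ C ∧ ∀ z ∈ K, ∀ W,
      (lam H L φ).Sec W → ‖pl H ξ W e z‖ ≤ C * √((lam H L φ).pn W (e.symm z)) := by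
    intro e he K hK hs
    obtain ⟨c, hc⟩ := (aGB n M _ H _ hH ok hl).2 e he
    obtain ⟨C1, h1⟩ := (hξ.bd e he).2 K hK hs
    have h2 : ContinuousOn (fun z => ∑ l, ∑ B, ‖co (H e) l B z‖ * √(c z)) K :=
      continuousOn_finset_sum _ fun l _ => continuousOn_finset_sum _ fun B _ =>
        ((cc e he l B).mono hs).norm.mul fun z hz => (hc z (hs hz)).1.sqrt.continuousWithinAt
    obtain ⟨C2, h3⟩ := hK.exists_bound_of_continuousOn h2
    refine ⟨|C1| * |C2|, by positivity, fun z hz W hW => ?_⟩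
    obtain ⟨-, c0, h4⟩ := hc z (hs hz)
    have h5 : ∀ B, ‖W e z B‖ ≤ √(c z) * √((lam H L φ).pn W (e.symm z)) := fun B => by
      rw [← Real.sqrt_mul c0.le]
      exact Real.le_sqrt_of_sq_le ((h4 W hW).1 B)
    have h6 : ∀ l, ‖ξ e z l‖ ≤ |C1| := fun l =>
      (norm_le_pi_norm (ξ e z) l).trans ((h1 z hz).trans (le_abs_self _))
    have h7 : ∑ l, ∑ B, ‖co (H e) l B z‖ * √(c z) ≤ |C2| :=
      (le_abs_self _).trans ((h3 z hz).trans (le_abs_self _))
    rw [pl_eq]
    calc _ ≤ ∑ l, ∑ B, |C1| * (‖co (H e) l B z‖ * √(c z)) * √((lam H L φ).pn W (e.symm z)) := by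
          refine (norm_sum_le _ _).trans (Finset.sum_le_sum fun l _ =>
            (norm_sum_le _ _).trans (Finset.sum_le_sum fun B _ => ?_))
          rw [norm_mul, norm_mul, mul_assoc, mul_assoc]
          have := h5 B
          have := h6 l
          gcongr
      _ = |C1| * (∑ l, ∑ B, ‖co (H e) l B z‖ * √(c z)) * √((lam H L φ).pn W (e.symm z)) := by
          simp only [Finset.mul_sum, Finset.sum_mul]
      _ ≤ _ := by gcongr
  obtain ⟨V, -⟩ := (mCOV n M).2.2.1
  choose C C0 hC using fun a => loc (V.e a) (V.mem a) (closedBall (V.c a) (V.ρ a))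
    (isCompact_closedBall _ _)
    ((closedBall_subset_closedBall (by linarith [V.pos a])).trans (V.sub a))
  have S0 : 0 ≤ ∑ a, C a := Finset.sum_nonneg fun a _ => C0 a
  have glo : ∀ W, (lam H L φ).Sec W → ∀ x,
      ‖M.ev (pl H ξ W) x‖ ≤ (∑ a, C a) * √((lam H L φ).pn W x) := fun W hW x => by
    obtain ⟨a, hx, hb, -⟩ := V.cov x
    have h1 := hC a _ (ball_subset_closedBall hb) W hW
    rw [(V.e a).left_inv hx] at h1
    rw [(inv W hW).rep.at (V.mem a) hx]
    refine h1.trans ?_
    have := Finset.single_le_sum (fun a _ => C0 a) (Finset.mem_univ a)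
    gcongr
  have pc : ∀ W, (lam H L φ).Sec W → Continuous ((lam H L φ).pn W) := fun W hW =>
    Complex.continuous_re.comp (ok.pp_rep hW hW).2.continuous
  have i1 : ∀ W, (lam H L φ).Sec W → Integrable (fun x => √((lam H L φ).pn W x)) (M.mu H) :=
    fun W hW => itg _ _ (pc W hW).sqrt
  have i2 : ∀ W, (lam H L φ).Sec W → Integrable (M.ev (pl H ξ W)) (M.mu H) := fun W hW => by
    refine ((i1 W hW).const_mul _).mono' (aesm hH (inv W hW).rep fun e he => ?_)
      (Eventually.of_forall (glo W hW))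
    have : pl H ξ W e = fun z => ∑ l, ∑ B, ξ e z l * (co (H e) l B z * W e z B) :=
      funext (pl_eq H ξ W e)
    rw [this]
    refine Finset.aestronglyMeasurable_fun_sum _ fun l _ =>
      Finset.aestronglyMeasurable_fun_sum _ fun B _ => ((hξ.bd e he).1 l).mul ?_
    exact ((cc e he l B).mul fun z hz => (contDiffAt_pi.1 (hW.sm e he z hz)
      B).continuousAt.continuousWithinAt).aestronglyMeasurable e.open_target.measurableSet
  refine ⟨fun W hW => ⟨inv W hW, i2 W hW⟩, (∑ a, C a) * √((M.mu H).real univ), fun W hW => ?_⟩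
  have h1 := cs (M.mu H) (Pre.pn_nonneg (g := ⟨H, lam H L φ, hH, ok⟩) W) (itg _ _ (pc W hW))
    (i1 W hW)
  calc ‖fn H ξ W‖ ≤ ∫ x, (∑ a, C a) * √((lam H L φ).pn W x) ∂M.mu H :=
        norm_integral_le_of_norm_le ((i1 W hW).const_mul _) (Eventually.of_forall (glo W hW))
    _ = (∑ a, C a) * ∫ x, √((lam H L φ).pn W x) ∂M.mu H := integral_const_mul _ _
    _ ≤ (∑ a, C a) * (√((M.mu H).real univ) * √((lam H L φ).nr H W)) :=
        mul_le_mul_of_nonneg_left h1 S0
    _ = _ := (mul_assoc _ _ _).symm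

end Pool.Agent.Lib.F4.R
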