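import Pool.Agent.Lib.F4.BlueR
import Pool.Agent.Lib.K3E.B_KAN

/-! Project f4, part R: no almost harmonic sections. -/

open scoped Classical Topology ContDiff ComplexOrder Matrix
open Set MeasureTheory Filter

noncomputable section

namespace Pool.Agent.Lib.F4.R

open Pool.Agent.Lib.HS32 Pool.Agent.Lib.HLK

theorem st_HV : St_HV := by
  intro n M _ H a m hn hH hO
  have hK := K3E.bKAN n M H (m + 2) hH.toMet
  refine ⟨hK.1, fun hY hA => ?_⟩
  have k0 : (0 : ℝ) < (m : ℝ) + 1 := by positivity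
  have n0 : (0 : ℝ) < n := Nat.cast_pos.2 hn
  obtain ⟨e₀, C, he₀, hC⟩ := hO.itg (2 * n * ((m : ℝ) + 1)) (by positivity)
  refine (aHL n M H _ _ C hn hH hK.1 (fun δ hδ => ?_) hA).elim fun V v => hY V v.1 v.2.1 v.2.2
  obtain ⟨ε, e0, e1, e2, e3⟩ : ∃ ε : ℝ, 0 < ε ∧ ε ≤ 1 ∧ ε ≤ e₀ ∧ ((m : ℝ) + 1) * ε ≤ δ :=
    ⟨min 1 (min e₀ (δ / ((m : ℝ) + 1))), lt_min one_pos (lt_min he₀ (by positivity)),
      min_le_left _ _, (min_le_right _ _).trans (min_le_left _ _),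
      (le_div_iff₀' k0).1 ((min_le_right _ _).trans (min_le_right _ _))⟩
  have s := hO.sm ε ⟨e0, e1⟩
  refine ⟨((m : ℝ) + 1) * ε, ⟨by positivity, e3⟩, fun x => ((m : ℝ) + 1) * a ε x, s.const_mul _,
    fun x => mul_nonpos_of_nonneg_of_nonpos k0.le (hO.le ε ⟨e0, e1⟩ x), fun c hc z hz => ?_, ?_⟩
  · have p := Mf.psd_rsmul ((hO.kae ε ⟨e0, e1⟩).pos c hc z hz).posSemidef k0.le
    have q1 := hK.2 c hc z hz
    have q2 := ((mLAP n M _ _ s s).1 ((m : ℝ) + 1) c hc z hz).2.2.2.1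
    simp only [Pi.add_apply, Pi.zero_apply, Pi.smul_apply, Pi.neg_apply, q1, q2, sub_zero,
      zero_sub] at p ⊢
    refine (congrArg _ ?_).mp p
    push_cast
    module
  · simpa only [mul_assoc] using hC ε ⟨e0, e1⟩ e2

end Pool.Agent.Lib.F4.R
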