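import Pool.Agent.Lib.F4.BlueR

/-! Project f4, part R, row LIM: the limit of a rapidly converging sequence of sections. -/

open scoped Classical Topology ContDiff ComplexOrder Matrix ENNReal
open Set MeasureTheory Complex Metric Filter

set_option linter.unusedVariables false

noncomputable section

namespace Pool.Agent.Lib.F4.R

open Pool.Agent.Lib.SV (E)
open Pool.Agent.Lib.HS32 Pool.Agent.Lib.KP Pool.Agent.Lib.HLK

namespace L36

/-- The limit of a sequence, or zero. -/
def lm {F : Type} [NormedAddCommGroup F] (u : ℕ → F) : F :=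
  if h : ∃ v, Tendsto u atTop (𝓝 v) then h.choose else 0

theorem lm_eq {F : Type} [NormedAddCommGroup F] {u : ℕ → F} {v : F} (h : Tendsto u atTop (𝓝 v)) :
    lm u = v := by
  have h1 : ∃ v, Tendsto u atTop (𝓝 v) := ⟨v, h⟩
  rw [lm, dif_pos h1]
  exact tendsto_nhds_unique h1.choose_spec h

theorem lm_law {σ : Type} [Fintype σ] {u v : ℕ → σ → ℂ} {A B : Mx σ} (h1 : ∀ j, u j = A *ᵥ v j)
    (h2 : ∀ j, v j = B *ᵥ u j) : lm u = A *ᵥ lm v := by
  have c : ∀ T : Mx σ, Continuous fun w : σ → ℂ => T *ᵥ w := fun T =>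
    continuous_const.matrix_mulVec continuous_id
  by_cases h : ∃ w, Tendsto v atTop (𝓝 w)
  · obtain ⟨w, hw⟩ := h
    rw [lm_eq hw]
    exact lm_eq ((((c A).tendsto w).comp hw).congr fun j => (h1 j).symm)
  · have h' : ¬∃ w, Tendsto u atTop (𝓝 w) := fun ⟨w, hw⟩ =>
      h ⟨_, (((c B).tendsto w).comp hw).congr fun j => (h2 j).symm⟩
    rw [lm, lm, dif_neg h, dif_neg h', Matrix.mulVec_zero]

theorem l1 {α F : Type} [MeasurableSpace α] [NormedAddCommGroup F] [CompleteSpace F]
    {μ : Measure α} {f : ℕ → α → F} {C : ℝ} (hf : ∀ j, Integrable (f j) μ)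
    (hC : ∀ j, ∫ z, ‖f (j + 1) z - f j z‖ ∂μ ≤ C * (1 / 2) ^ j) :
    Integrable (fun z => lm fun j => f j z) μ ∧
      Tendsto (fun j => ∫ z, ‖f j z - lm fun j => f j z‖ ∂μ) atTop (𝓝 0) := by
  have d : ∀ (a b : α →₁[μ] F), dist a b = ∫ z, ‖a z - b z‖ ∂μ := fun a b => by
    rw [dist_eq_norm, L1.norm_eq_integral_norm]
    exact integral_congr_ae ((Lp.coeFn_sub a b).mono fun z hz => by simp only [hz, Pi.sub_apply])
  have c : ∀ᵐ z ∂μ, ∀ j, (hf j).toL1 (f j) z = f j z := ae_all_iff.2 fun j => (hf j).coeFn_toL1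
  have d1 : ∀ j, dist ((hf j).toL1 (f j)) ((hf (j + 1)).toL1 (f (j + 1))) ≤ C * (1 / 2) ^ j :=
    fun j => by
    rw [dist_comm, d]
    exact (integral_congr_ae (c.mono fun z hz => by simp only [hz])).trans_le (hC j)
  obtain ⟨G, hG⟩ := cauchySeq_tendsto_of_complete
    (cauchySeq_of_le_geometric (1 / 2) C (by norm_num) d1)
  obtain ⟨ns, hns, hl⟩ := (tendstoInMeasure_of_tendsto_Lp hG).exists_seq_tendsto_ae
  have s : ∀ᵐ z ∂μ, Summable fun j => ‖(f (j + 1) - f j) z‖ := by
    refine summable_norm_of_tsum_eLpNorm_ne_top (p := 1) le_rfl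
      (fun j => ((hf (j + 1)).sub (hf j)).1) (ne_top_of_le_ne_top
        (b := ∑' j : ℕ, ENNReal.ofReal (C * (1 / 2) ^ j)) ?_ (ENNReal.tsum_le_tsum fun j => ?_))
    · exact (summable_geometric_two.mul_left C).tsum_ofReal_ne_top
    · rw [eLpNorm_one_eq_lintegral_enorm,
        ← ofReal_integral_norm_eq_lintegral_enorm ((hf (j + 1)).sub (hf j))]
      exact ENNReal.ofReal_le_ofReal (hC j)
  have e : ∀ᵐ z ∂μ, (lm fun j => f j z) = G z := by
    filter_upwards [c, hl, s] with z h1 h2 h3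
    obtain ⟨v, hv⟩ := cauchySeq_tendsto_of_complete (cauchySeq_of_summable_dist
      (f := fun j => f j z) (h3.congr fun j => by rw [dist_comm, dist_eq_norm]; rfl))
    rw [lm_eq hv]
    exact tendsto_nhds_unique (hv.comp hns.tendsto_atTop) (h2.congr fun j => h1 _)
  refine ⟨(L1.integrable_coeFn G).congr (e.mono fun z hz => hz.symm), ?_⟩
  refine (tendsto_iff_dist_tendsto_zero.1 hG).congr fun j => ?_
  rw [d]
  refine integral_congr_ae ?_
  filter_upwards [c, e] with z h1 h2
  rw [h1, h2]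

theorem loc {n : ℕ} {M : Mf n} [M.Cpt] {σ : Type} [Fintype σ] [DecidableEq σ]
    {H : M.Fam (Mat n)} {b : Bun M σ} (hH : M.Met H) (ok : b.Ok) (hl : b.Hl) {e : M.Ch}
    (he : e ∈ M.C) {K : Set (E n)} (hK : IsCompact K) (hs : K ⊆ e.target) :
    ∃ C : ℝ, ∀ D, b.Sec D → ∀ t : ℝ, 0 < t → √(b.nr H D) ≤ t → ∫ z in K, ‖D e z‖ ≤ C * t := by
  obtain ⟨c, hc⟩ := (aGB n M σ H b hH ok hl).2 e he
  obtain ⟨-, -, -, -, itg, hm, -⟩ := mMU n M H hH
  have cd : ContinuousOn (fun z => (H e z).det.re) K := fun z hz =>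
    (continuous_re.continuousAt.comp (hH.sm e he z (hs hz)).det.continuousAt).continuousWithinAt
  have pd : ∀ z ∈ K, 0 < (H e z).det.re := fun z hz => Mf.pd_det_re (hH.pos e he z (hs hz))
  have cq : ContinuousOn (fun z => c z / (H e z).det.re) K :=
    ContinuousOn.div (fun z hz => (hc z (hs hz)).1.continuousWithinAt) cd fun z hz => (pd z hz).ne'
  obtain ⟨A, hA⟩ := hK.exists_bound_of_continuousOn cq
  refine ⟨volume.real K + |A|, fun D hD t ht hn => ?_⟩
  have cp : Continuous (b.pn D) := continuous_re.comp (ok.pp_rep hD hD).2.continuous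
  have p0 : ∀ x, 0 ≤ b.pn D x := Pre.pn_nonneg (g := ⟨H, b, hH, ok⟩) D
  have n0 : b.nr H D ≤ t ^ 2 := (Real.sqrt_le_iff.1 hn).2
  have i1 : IntegrableOn (fun z => (H e z).det.re * b.pn D (e.symm z)) K :=
    (cd.mul (cp.comp_continuousOn (e.continuousOn_symm.mono hs))).integrableOn_compact hK
  have i2 : ∫ z in K, (H e z).det.re * b.pn D (e.symm z) ≤ t ^ 2 := by
    rw [← (hm e he K hK.measurableSet hs).2.2.1]
    exact (setIntegral_le_integral (itg ℝ _ cp) (Eventually.of_forall p0)).trans n0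
  have i3 : IntegrableOn (fun z => ‖D e z‖) K := ContinuousOn.integrableOn_compact hK fun z hz =>
    (hD.sm e he z (hs hz)).continuousAt.norm.continuousWithinAt
  have i4 : IntegrableOn (fun z : E n => t) K := continuousOn_const.integrableOn_compact hK
  have pt : ∀ z ∈ K, ‖D e z‖ ≤ t + |A| / t * ((H e z).det.re * b.pn D (e.symm z)) := fun z hz => by
    have h1 : c z ≤ |A| * (H e z).det.re := (div_le_iff₀ (pd z hz)).1
      ((le_abs_self _).trans ((hA z hz).trans (le_abs_self A)))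
    have h0 : 0 ≤ |A| / t * ((H e z).det.re * b.pn D (e.symm z)) :=
      mul_nonneg (div_nonneg (abs_nonneg A) ht.le) (mul_nonneg (pd z hz).le (p0 _))
    refine (pi_norm_le_iff_of_nonneg (add_nonneg ht.le h0)).2 fun i => ?_
    have h2 : ‖D e z i‖ ^ 2 ≤ t * (|A| / t * ((H e z).det.re * b.pn D (e.symm z))) := by
      rw [← mul_assoc, mul_div_cancel₀ _ ht.ne', ← mul_assoc]
      exact (((hc z (hs hz)).2.2 D hD).1 i).trans (mul_le_mul_of_nonneg_right h1 (p0 _))
    generalize |A| / t * ((H e z).det.re * b.pn D (e.symm z)) = q at h0 h2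
    refine (abs_le_of_sq_le_sq' (h2.trans ?_) (add_nonneg ht.le h0)).2
    nlinarith [mul_nonneg ht.le h0, sq_nonneg t, sq_nonneg q]
  refine (setIntegral_mono_on i3 (i4.add (i1.const_mul _)) hK.measurableSet pt).trans ?_
  simp only [Pi.add_apply]
  rw [integral_add i4 (i1.const_mul _), integral_const_mul, setIntegral_const, smul_eq_mul, add_mul]
  refine add_le_add le_rfl ((mul_le_mul_of_nonneg_left i2
    (div_nonneg (abs_nonneg A) ht.le)).trans_eq ?_)
  field_simp

end L36

open L36 in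
theorem st_LIM : St_LIM := by
  intro n M _ σ _ _ H b W hH ok hl hW hn
  refine ⟨fun e z => lm fun j => W j e z, fun e he e' he' x hx hx' =>
    lm_law (fun j => (hW j).cmp e he e' he' x hx hx') fun j => (hW j).cmp e' he' e he x hx' hx,
    fun e he K hK hs i => ?_⟩
  obtain ⟨C, hC⟩ := loc hH ok hl he hK hs
  have iW : ∀ j, IntegrableOn (W j e) K := fun j => ContinuousOn.integrableOn_compact hK
    fun z hz => ((hW j).sm e he z (hs hz)).continuousAt.continuousWithinAt
  obtain ⟨h1, h2⟩ := l1 (μ := volume.restrict K) (f := fun j => W j e) iW fun j =>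
    hC (W (j + 1) - W j) (b.secs.sub_mem (hW (j + 1)) (hW j)) _ (by positivity) (hn j)
  refine ⟨h1.eval i, squeeze_zero (fun j => integral_nonneg fun z => norm_nonneg _)
    (fun j => integral_mono (((iW j).sub h1).eval i).norm ((iW j).sub h1).norm fun z => ?_) h2⟩
  exact norm_le_pi_norm (W j e z - lm fun j => W j e z) i

end Pool.Agent.Lib.F4.R
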