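import Pool.Agent.Lib.F4.BlueR

/-! Row ORT: the functional of a weakly closed form vanishes on the image of `Q`. -/

open scoped Classical Topology ContDiff ComplexOrder Matrix
open Set MeasureTheory Complex Metric Filter

noncomputable section

namespace Pool.Agent.Lib.F4.R

open Pool.Agent.Lib.SV (E)
open Pool.Agent.Lib.HS32 Pool.Agent.Lib.KP Pool.Agent.Lib.HLK

namespace ORT

variable {n : ℕ}

theorem ev0 {K : Set (E n)} (hK : IsCompact K) {g : E n → ℂ} (h : ∀ z, z ∉ K → g z = 0) {z : E n}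
    (hz : z ∉ K) : g =ᶠ[𝓝 z] fun _ => 0 := by
  filter_upwards [hK.isClosed.isOpen_compl.mem_nhds hz] with w hw using h w hw

theorem tst {U K : Set (E n)} (hU : IsOpen U) (hK : IsCompact K) (hKU : K ⊆ U) {g : E n → ℂ}
    (hs : ∀ z ∈ U, ContDiffAt ℝ ∞ g z) (h0 : ∀ z ∈ U, z ∉ K → g z = 0) :
    Tst U (U.indicator g) ∧ (∀ z, z ∉ K → U.indicator g z = 0) ∧
      ∀ z ∈ U, U.indicator g =ᶠ[𝓝 z] g := by
  have a : ∀ z, z ∉ K → U.indicator g z = 0 := fun z hz => by
    by_cases c : z ∈ U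
    · rw [indicator_of_mem c, h0 z c hz]
    · exact indicator_of_notMem c _
  have b : ∀ z ∈ U, U.indicator g =ᶠ[𝓝 z] g := fun z hz => by
    filter_upwards [hU.mem_nhds hz] with w hw using indicator_of_mem hw _
  refine ⟨⟨contDiff_iff_contDiffAt.2 fun z => ?_, HasCompactSupport.intro hK a, ?_⟩, a, b⟩
  · by_cases c : z ∈ K
    · exact (hs z (hKU c)).congr_of_eventuallyEq (b z (hKU c))
    · exact contDiffAt_const.congr_of_eventuallyEq (ev0 hK a c)
  · exact (closure_minimal (Function.support_subset_iff'.2 a) hK.isClosed).trans hKU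

theorem skew {U K : Set (E n)} (hK : IsCompact K) (hKU : K ⊆ U) {ξ : E n → E n} (hb : Bd U ξ)
    (hc : Cl U ξ) {ψ : Fin n → Fin n → E n → ℂ} (ht : ∀ l m, Tst U (ψ l m))
    (h0 : ∀ l m z, z ∉ K → ψ l m z = 0) (hs : ∀ l m z, ψ l m z = -ψ m l z) :
    ∫ z in K, ∑ l, ∑ m, ξ z l * dzb m (ψ l m) z = 0 := by
  obtain ⟨C, hC⟩ := hb.2 K hK hKU
  have it : ∀ l m, IntegrableOn (fun z => ξ z l * dzb m (ψ l m) z) K := fun l m => by
    have c : Continuous (dzb m (ψ l m)) :=
      continuous_iff_continuousAt.2 fun z => (cd_dzb (ht l m).1.contDiffAt m).continuousAt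
    refine Integrable.bdd_mul (c := C) (c.continuousOn.integrableOn_compact hK)
      ((hb.1 l).mono_measure (Measure.restrict_mono hKU le_rfl)) ?_
    filter_upwards [ae_restrict_mem hK.measurableSet] with z hz
    exact (norm_le_pi_norm (ξ z) l).trans (hC z hz)
  have e1 : ∫ z in K, ∑ l, ∑ m, ξ z l * dzb m (ψ l m) z =
      ∑ l, ∑ m, ∫ z, ξ z l * dzb m (ψ l m) z := by
    rw [integral_finsetSum _ fun l _ => integrable_finsetSum _ fun m _ => it l m]
    refine Finset.sum_congr rfl fun l _ => ?_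
    rw [integral_finsetSum _ fun m _ => it l m]
    refine Finset.sum_congr rfl fun m _ => setIntegral_eq_integral_of_forall_compl_eq_zero
      fun z hz => ?_
    rw [dzb_congr (ev0 hK (h0 l m) hz), dzb_const, mul_zero]
  have e2 : (∑ l, ∑ m, ∫ z, ξ z l * dzb m (ψ l m) z) =
      -∑ l, ∑ m, ∫ z, ξ z l * dzb m (ψ l m) z := by
    conv_lhs => rw [Finset.sum_comm]
    simp only [← Finset.sum_neg_distrib]
    refine Finset.sum_congr rfl fun l _ => Finset.sum_congr rfl fun m _ => ?_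
    rw [hc _ (ht m l) m l, ← integral_neg]
    refine integral_congr_ae (Eventually.of_forall fun z => ?_)
    beta_reduce
    rw [show ψ m l = fun w => -ψ l m w from funext (hs m l), dzb_neg, mul_neg]
  rw [e1]
  linear_combination e2 / 2

theorem dzbv_mv {K : E n → Mx (Fs n)} {U : E n → Fs n → ℂ} {z : E n} (l : Fin n)
    (hK : ∀ i j, ContDiffAt ℝ ∞ (fun w => K w i j) z) (hU : ContDiffAt ℝ ∞ U z) :
    dzbv l (fun w => K w *ᵥ U w) z =
      (Matrix.of fun i j => dzb l (fun w => K w i j) z) *ᵥ U z + K z *ᵥ dzbv l U z := by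
  funext i
  simp only [dzbv, Matrix.mulVec, dotProduct, Pi.add_apply, Matrix.of_apply]
  rw [dzb_sum fun j _ => cd_diff ((hK i j).mul (contDiffAt_pi.1 hU j)), ← Finset.sum_add_distrib]
  exact Finset.sum_congr rfl fun j _ => dzb_mul (cd_diff (hK i j)) (cd_diff (contDiffAt_pi.1 hU j))

variable {M : Mf n} {H : M.Fam (Mat n)}

theorem q_ap (W : M.Fam (Fs n → ℂ)) (e : M.Ch) (z : E n) :
    (oQ H).ap W e z = ∑ l, (∑ k, (H e z)⁻¹ k l • cr k) *ᵥ dzbv l (W e) z := by
  simp only [Op.ap, oQ, Matrix.zero_mulVec, zero_add, add_zero]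

theorem la_herm {T : Mat n} (h : T.IsHermitian) : (La T)ᴴ = La T := by
  rw [← ((aFK2 n).2 T).1, h.eq]

theorem dla (hH : M.Kae H) {e : M.Ch} (he : e ∈ M.C) {z : E n} (hz : z ∈ e.target) :
    ∑ l, cr l * (Matrix.of fun i j => dzb l (fun w => La (H e w) i j) z) = 0 := by
  have hM := hH.toMet
  obtain ⟨sL, dLa⟩ := (aFK3 n (H e) z).2 (hM.sm e he z hz)
  have hz0 := ADJ.sym_zero aFK1 (g := fun l => gam (H e) l z) fun i j l => by
    simp only [gam, Matrix.mul_apply]
    exact Finset.sum_congr rfl fun a _ => by rw [hH.cl e he z hz a j l]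
  have d : ∀ l, (Matrix.of fun i j => dzb l (fun w => La (H e w) i j) z) =
      (La (H e z) * dL (gam (H e) l z))ᴴ := fun l => by
    ext i j
    have ev : (fun w => La (H e w) i j) =ᶠ[𝓝 z] fun w => star (La (H e w) j i) := by
      filter_upwards [e.open_target.mem_nhds hz] with w hw
      exact (congrFun (congrFun (la_herm (hM.herm e he w hw)) i) j).symm
    rw [Matrix.of_apply, dzb_congr ev, dzb_star (cd_diff (sL j i)), Matrix.conjTranspose_apply,
      (dLa (Mf.pd_det_ne (hM.pos e he z hz)) l j i).1]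
    rfl
  have := congrArg (fun X => (La (H e z) * X)ᴴ) hz0
  simp only [Finset.mul_sum, ← Matrix.mul_assoc, Matrix.conjTranspose_sum, Matrix.mul_zero,
    Matrix.conjTranspose_zero] at this
  rw [← this]
  refine Finset.sum_congr rfl fun l _ => ?_
  rw [d, Matrix.conjTranspose_mul _ (an l), an, Matrix.conjTranspose_conjTranspose]

theorem la_q (hH : M.Kae H) {e : M.Ch} (he : e ∈ M.C) {z : E n} (hz : z ∈ e.target)
    {s : M.Fam (Fs n → ℂ)} (hs : ContDiffAt ℝ ∞ (s e) z) :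
    La (H e z) *ᵥ (oQ H).ap s e z = ∑ m, cr m *ᵥ dzbv m (fun w => La (H e w) *ᵥ s e w) z := by
  have hM := hH.toMet
  have sL := ((aFK3 n (H e) z).2 (hM.sm e he z hz)).1
  have u : ∀ l, La (H e z) * ∑ k, (H e z)⁻¹ k l • cr k = cr l * La (H e z) := fun l => by
    have := congrArg Matrix.conjTranspose (ADJ.up aFK2 (hM.pos e he z hz) l)
    rwa [Matrix.conjTranspose_mul, Matrix.conjTranspose_mul, la_herm (hM.herm e he z hz), an,
      Matrix.conjTranspose_conjTranspose, Matrix.conjTranspose_conjTranspose] at this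
  simp only [dzbv_mv _ sL hs, Matrix.mulVec_add, Finset.sum_add_distrib, Matrix.mulVec_mulVec]
  rw [← Matrix.sum_mulVec, dla hH he hz, Matrix.zero_mulVec, zero_add, q_ap, Matrix.mulVec_sum]
  simp only [Matrix.mulVec_mulVec, u]

theorem dzb_top (A : Mx (Fs n)) {U : E n → Fs n → ℂ} {z : E n} (m : Fin n)
    (hU : ContDiffAt ℝ ∞ U z) :
    dzb m (fun w => (A *ᵥ U w) Finset.univ) z = (A *ᵥ dzbv m U z) Finset.univ := by
  simp only [dzbv, Matrix.mulVec, dotProduct]
  rw [dzb_sum fun j _ => cd_diff (contDiffAt_const.mul (contDiffAt_pi.1 hU j))]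
  exact Finset.sum_congr rfl fun j _ => dzb_const_mul _ (cd_diff (contDiffAt_pi.1 hU j))

theorem sm_top (A : Mx (Fs n)) {U : E n → Fs n → ℂ} {z : E n} (hU : ContDiffAt ℝ ∞ U z) :
    ContDiffAt ℝ ∞ (fun w => (A *ᵥ U w) Finset.univ) z := by
  simp only [Matrix.mulVec, dotProduct]
  exact ContDiffAt.sum fun j _ => contDiffAt_const.mul (contDiffAt_pi.1 hU j)

theorem out [M.Cpt] (ξ : M.Fam (E n)) {K : Set M.X} (hK : IsClosed K) {s : M.Fam (Fs n → ℂ)}
    (h0 : ∀ e' z, e'.symm z ∉ K → s e' z = 0) : ∀ x ∉ K, M.ev (pl H ξ ((oQ H).ap s)) x = 0 :=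
  fun x hx => by
    have c : ∀ᶠ w in 𝓝 (M.ch x x), (M.ch x).symm w ∉ K :=
      ((M.ch x).continuousAt_symm (Mf.ch_tgt x)).eventually
        (hK.isOpen_compl.mem_nhds (by rwa [Mf.ch_symm]))
    have d : ∀ l, dzbv l (s (M.ch x)) (M.ch x x) = 0 := fun l => funext fun i => by
      have ev : (fun w => s (M.ch x) w i) =ᶠ[𝓝 (M.ch x x)] fun _ => 0 :=
        c.mono fun w hw => congrFun (h0 _ w hw) i
      rw [dzbv, dzb_congr ev, dzb_const, Pi.zero_apply]
    simp only [Mf.ev, pl, q_ap, d, Matrix.mulVec_zero, Finset.sum_const_zero, Pi.zero_apply,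
      mul_zero, zero_div]

theorem pt (hH : M.Kae H) (ξ : M.Fam (E n)) {e : M.Ch} (he : e ∈ M.C) {z : E n}
    (hz : z ∈ e.target) {s : M.Fam (Fs n → ℂ)} (hs : ContDiffAt ℝ ∞ (s e) z) :
    (H e z).det * pl H ξ ((oQ H).ap s) e z = ∑ l, ∑ m, ξ e z l *
      dzb m (fun w => ((cr l * cr m) *ᵥ La (H e w) *ᵥ s e w) Finset.univ) z := by
  have hM := hH.toMet
  rw [pl, mul_div_cancel₀ _ (Mf.pd_det_ne (hM.pos e he z hz))]
  refine Finset.sum_congr rfl fun l _ => ?_
  rw [← Matrix.mulVec_mulVec, la_q hH he hz hs, Matrix.mulVec_sum, Finset.sum_apply,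
    Finset.mul_sum]
  refine Finset.sum_congr rfl fun m _ => ?_
  rw [dzb_top _ m (ADJ.sm_mv ((aFK3 n (H e) z).2 (hM.sm e he z hz)).1 hs), Matrix.mulVec_mulVec]

theorem loc [M.Cpt] {ξ : M.Fam (E n)} (hH : M.Kae H) {e : M.Ch} (he : e ∈ M.C) {K : Set (E n)}
    (hK : IsCompact K) (hKe : K ⊆ e.target) (hb : Bd e.target (ξ e)) (hc : Cl e.target (ξ e))
    {s : M.Fam (Fs n → ℂ)} (hs : M.All fun e z => ContDiffAt ℝ ∞ (s e) z)
    (h0 : ∀ e' z, e'.symm z ∉ e.symm '' K → s e' z = 0)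
    (hi : M.Inv (pl H ξ ((oQ H).ap s))) : fn H ξ ((oQ H).ap s) = 0 := by
  have hM := hH.toMet
  have z0 := out (H := H) ξ (hK.image_of_continuousOn (e.continuousOn_symm.mono hKe)).isClosed h0
  have sm : ∀ z ∈ e.target, ContDiffAt ℝ ∞ (fun w => La (H e w) *ᵥ s e w) z := fun z hz =>
    ADJ.sm_mv ((aFK3 n (H e) z).2 (hM.sm e he z hz)).1 (hs e he z hz)
  have t := fun l m => tst e.open_target hK hKe
    (g := fun w => ((cr l * cr m) *ᵥ La (H e w) *ᵥ s e w) Finset.univ)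
    (fun z hz => sm_top _ (sm z hz)) fun z hz hn => by
      rw [h0 e z fun ⟨w, hw, h⟩ => hn (e.symm.injOn (hKe hw) hz h ▸ hw)]
      simp only [Matrix.mulVec_zero, Pi.zero_apply]
  have k := skew hK hKe hb hc (fun l m => (t l m).1) (fun l m => (t l m).2.1) fun l m z => by
    by_cases c : z ∈ e.target
    · rw [indicator_of_mem c, indicator_of_mem c,
        eq_neg_of_add_eq_zero_left ((aFK1 n).1 l m).1, Matrix.neg_mulVec, Pi.neg_apply]
    · rw [indicator_of_notMem c, indicator_of_notMem c, neg_zero]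
  refine (((mMU n M H hM).2.2.2.2.2.1 e he K hK.measurableSet hKe).2.2.2.2.2 _ z0).trans
    (Eq.trans (setIntegral_congr_fun hK.measurableSet fun z hz => ?_) k)
  have hz' := hKe hz
  rw [hi.rep e he z hz', pt hH ξ he hz' (hs e he z hz')]
  simp only [dzb_congr ((t _ _).2.2 z hz')]

end ORT

open ORT in
theorem st_ORT (hF : St_FUN) : St_ORT := by
  intro n M _ H L φ ξ hH hw hξ hc W hW
  have hM := hH.toMet
  obtain ⟨V, hV⟩ := (mCOV n M).2.1 {e | e ∈ M.C ∧ Cl e.target (ξ e)} (fun _ => univ)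
    ⟨fun e he => he.1, fun x => let ⟨e, he, hx, h⟩ := hc x; ⟨e, ⟨he, h⟩, hx⟩⟩ fun _ => univ_mem
  set s : Fin V.r → M.Fam (Fs n → ℂ) := fun a e z =>
    ((V.χ a (e.symm z) * V.χ a (e.symm z) : ℝ) : ℂ) • W e z with hs
  have sec : ∀ a, (lam H L φ).Sec (s a) := fun a =>
    CUT.sec_mul (χ := fun x => V.χ a x * V.χ a x) ((V.sm a).mul (V.sm a)) hW
  have f := fun a => (hF n M H L φ ξ hM hw hξ).1 _ (aSQ n M H L φ _ hM (sec a)).1
  have e1 : M.All fun e z => pl H ξ ((oQ H).ap W) e z = ∑ a, pl H ξ ((oQ H).ap (s a)) e z := by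
    intro e he z hz
    have d : ∀ l, dzbv l (W e) z = ∑ a, dzbv l (s a e) z := fun l => funext fun i => by
      rw [Finset.sum_apply]
      simp only [dzbv]
      rw [← dzb_sum fun a _ => cd_diff (contDiffAt_pi.1 ((sec a).sm e he z hz) i)]
      refine congrArg (fun g => dzb l g z) (funext fun w => ?_)
      simp only [hs, Pi.smul_apply, smul_eq_mul, ← Finset.sum_mul, ← ofReal_sum, ← sq,
        V.sum (e.symm w), ofReal_one, one_mul]
    have q : (oQ H).ap W e z = ∑ a, (oQ H).ap (s a) e z := by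
      simp only [q_ap, d, Matrix.mulVec_sum]
      exact Finset.sum_comm
    simp only [pl, q, Matrix.mulVec_sum, Finset.sum_apply, Finset.mul_sum, ← Finset.sum_div]
    rw [Finset.sum_comm]
  have e2 : fn H ξ ((oQ H).ap W) = ∑ a, fn H ξ ((oQ H).ap (s a)) := by
    rw [fn, Mf.ev_congr e1]
    exact integral_finsetSum _ fun a _ => (f a).2
  rw [e2]
  refine Finset.sum_eq_zero fun a _ => ?_
  refine loc hH (V.mem a) (isCompact_closedBall (V.c a) (4 * V.ρ a)) (V.sub a)
    (hξ.bd _ (V.mem a)) (hV a).1.2 (sec a).sm (fun e' z hz => ?_) (f a).1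
  have : V.χ a (e'.symm z) = 0 := by_contra fun c => by
    obtain ⟨h1, h2⟩ := V.supp a _ c
    exact hz ⟨_, closedBall_subset_closedBall (by linarith [V.pos a]) (ball_subset_closedBall h2),
      (V.e a).left_inv h1⟩
  simp only [hs, this, mul_zero, ofReal_zero, zero_smul]

end Pool.Agent.Lib.F4.R
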