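import Pool.Agent.Lib.F4.BlueR
import Pool.Agent.Lib.K3E.B_STAR

/-! Project f4, part R: the weak solution. -/

open scoped Classical Topology ContDiff ComplexOrder Matrix
open Set MeasureTheory Complex Metric Filter

noncomputable section

namespace Pool.Agent.Lib.F4.R

open Pool.Agent.Lib.SV (E)
open Pool.Agent.Lib.HS32 Pool.Agent.Lib.KP Pool.Agent.Lib.HLK
open Pool.Agent.Lib.KP.T60 (phC phC_sm expC_cmp)

namespace SOL

variable {n : ℕ}

theorem la_row (g : Mat n) (v : Fs n → ℂ) : (La g *ᵥ v) Finset.univ = g.det * v Finset.univ := by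
  have h : ∀ B, La g Finset.univ B = if B = Finset.univ then g.det else 0 := fun B => by
    rw [← Matrix.transpose_apply (La g), K3E.STAR.la_tr, K3E.STAR.la_univ, Matrix.det_transpose]
  simp [Matrix.mulVec, dotProduct, h]

theorem scl {C : Type} [SeminormedAddCommGroup C] [NormedSpace ℂ C] (D : C →ₗ[ℂ] C) {η : ℝ}
    (hη : ∀ u, ‖u‖ ^ 2 = 1 → η < ‖D u‖ ^ 2) (u : C) : √η * ‖u‖ ≤ ‖D u‖ := by
  rcases (norm_nonneg u).eq_or_lt with h | h
  · rw [← h, mul_zero]
    exact norm_nonneg _
  have := hη (((‖u‖⁻¹ : ℝ) : ℂ) • u) (by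
    rw [norm_smul, norm_real, norm_inv, norm_norm, inv_mul_cancel₀ h.ne', one_pow])
  have := Real.sqrt_le_sqrt this.le
  rwa [Real.sqrt_sq (norm_nonneg _), map_smul, norm_smul, norm_real, norm_inv, norm_norm,
    ← div_eq_inv_mul, le_div_iff₀ h] at this

theorem lim {K : Set (E n)} (hK : IsCompact K) {F : ℕ → E n → ℂ} {V G : E n → ℂ}
    (hF : ∀ j, ContinuousOn (F j) K) (hV : IntegrableOn V K) (hG : ContinuousOn G K)
    (h : Tendsto (fun j => ∫ z in K, ‖F j z - V z‖) atTop (𝓝 0)) :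
    Tendsto (fun j => ∫ z in K, G z * star (F j z)) atTop (𝓝 (∫ z in K, G z * star (V z))) := by
  obtain ⟨C, hC⟩ := hK.exists_bound_of_continuousOn hG
  have i : ∀ {A : E n → ℂ}, IntegrableOn A K → IntegrableOn (fun z => G z * star (A z)) K :=
    fun hA => IntegrableOn.continuousOn_mul hG
      ((conjCLE : ℂ →L[ℝ] ℂ).integrable_comp hA) hK
  have iF := fun j => (hF j).integrableOn_compact (μ := volume) hK
  rw [tendsto_iff_norm_sub_tendsto_zero]
  refine squeeze_zero (fun _ => norm_nonneg _) (fun j => ?_) (by simpa using h.const_mul C)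
  rw [← integral_sub (i (iF j)) (i hV), ← integral_const_mul]
  refine norm_integral_le_of_norm_le (((iF j).sub hV).norm.const_mul C) ?_
  filter_upwards [ae_restrict_mem hK.measurableSet] with z hz
  rw [← mul_sub, ← star_sub, norm_mul, norm_star]
  exact mul_le_mul_of_nonneg_right (hC z hz) (norm_nonneg _)

end SOL

open SOL HLK.ONE

theorem st_SOL (hHIL : St_HIL) (hFUN : St_FUN) (hORT : St_ORT) (hWEQ : St_WEQ) (hLIM : St_LIM) :
    St_SOL := by
  intro n M _ H L φ ξ hH hφ hA hξ hc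
  have hm := hH.toMet
  obtain ⟨o, l0, -⟩ := aLAM n M H L φ hm hφ
  let g : Geo M (Fs n) := ⟨H, lam H L φ, hm, o⟩
  have q : ∀ W, g.b.Sec W → g.b.Sec ((oQ H).ap W) := fun W h => (aSQ n M H L _ W hm h).1
  have p : ∀ W, g.b.Sec W → g.b.Sec ((oP H φ).ap W) := fun W h => aSP n M H L _ W hm hφ h
  obtain ⟨k, -, s⟩ := aSKW n M H L φ hH hφ
  have eD : ∀ u : Pre g, Pre.op (g := g) _ k.sec u = Pre.op _ q u + Pre.op _ p u := fun u =>
    Pre.ext (funext fun e => funext fun z => by
      show (if e ∈ M.C ∧ z ∈ e.target then (oD H φ).ap u.val e z else 0) =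
        (if e ∈ M.C ∧ z ∈ e.target then (oQ H).ap u.val e z else 0) +
        if e ∈ M.C ∧ z ∈ e.target then (oP H φ).ap u.val e z else 0
      by_cases c : e ∈ M.C ∧ z ∈ e.target
      · simp only [if_pos c]
        exact (s _ u.sec).1 e z
      · simp only [if_neg c, add_zero])
  obtain ⟨F1, A, F2⟩ := hFUN n M H L φ ξ hm hφ hξ
  let f : Pre g →ₗ[ℂ] ℂ := ⟨⟨fun u => fn H ξ u.val, fun u v => by
      rw [fn, fn, fn, ← integral_add (F1 _ u.sec).2 (F1 _ v.sec).2]
      refine integral_congr_ae (Eventually.of_forall fun x => ?_)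
      simp only [Mf.ev, pl, Pre.val_add, Pi.add_apply, Matrix.mulVec_add, mul_add,
        Finset.sum_add_distrib, add_div]⟩, fun c u => by
      simp only [fn, RingHom.id_apply, smul_eq_mul]
      rw [← integral_const_mul]
      refine integral_congr_ae (Eventually.of_forall fun x => ?_)
      simp only [Mf.ev, pl, Pre.val_smul, Pi.smul_apply, Matrix.mulVec_smul, smul_eq_mul,
        mul_left_comm _ c, ← Finset.mul_sum, mul_div_assoc]⟩
  have sq : ∀ u : Pre g, √((lam H L φ).nr H u.val) = ‖u‖ := fun u => by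
    rw [show (lam H L φ).nr H u.val = _ from (Pre.norm_sq u).symm, Real.sqrt_sq (norm_nonneg _)]
  simp only [Ah, not_forall, not_exists, not_and, not_le] at hA
  obtain ⟨η, η0, hη⟩ := hA
  obtain ⟨W, W1, W2⟩ := hHIL (Pre g) (Pre.op _ p) (Pre.op _ q) f √η A (Real.sqrt_pos.2 η0)
    (fun a b => (ip_op q p a b).2.2.trans ((s _ a.sec).2.1 _ b.sec))
    (fun u hu => by
      simpa only [eD, zero_add, UniformSpace.Completion.norm_coe] using
        (aDNS (Pre g) (Pre.op (g := g) _ k.sec) (Pre.op_skew (g := g) k) (aWS n M _ g _ k)).2 u 0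
          fun t => by rw [eD, hu, inner_zero_left])
    (fun u => by
      rw [← eD]
      refine scl _ (fun v hv => ?_) u
      rw [nr_op (g := g) k.sec v]
      exact hη v.val v.sec ((Pre.norm_sq v).symm.trans hv))
    (fun u => sq u ▸ F2 _ u.sec)
    fun u => by
      have : M.ev (pl H ξ (Pre.op _ q u).val) = M.ev (pl H ξ ((oQ H).ap u.val)) :=
        Mf.ev_congr fun e he z hz => by simp only [pl, Pre.op_val q u e he z hz]
      have h := hORT n M H L φ ξ hH hφ hξ hc u.val u.sec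
      rw [fn, ← this] at h
      exact h
  obtain ⟨V, V1, V2⟩ := hLIM n M _ H (lam H L φ) (fun j => (W j).val) hm o l0 (fun j => (W j).sec)
    fun j => (sq (W (j + 1) - W j)).le.trans (W1 j)
  have ec : ∀ e ∈ M.C, ContinuousOn (fun z => ((Real.exp (-phC M H φ e z) : ℝ) : ℂ)) e.target :=
    fun e he z hz => (cd_ofReal (phC_sm hm hφ he hz).neg.exp).continuousAt.continuousWithinAt
  refine ⟨rl H φ V, fun e he => ?_, fun e he e' he' x hx hx' => ?_, fun e he χ hχ l => ?_⟩
  · rw [locallyIntegrableOn_iff e.open_target.isLocallyClosed]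
    exact fun K hK cK => IntegrableOn.continuousOn_mul ((ec e he).mono hK)
      ((conjCLE : ℂ →L[ℝ] ℂ).integrable_comp (V2 e he K cK hK _).1) cK
  · have c0 := L.ne e he e' he' x hx hx'
    have c1 : star (L.c e e' x) ≠ 0 := star_ne_zero.2 c0
    have h1 := V1 e he e' he' x hx hx'
    have h2 := expC_cmp hm hφ he he' hx hx'
    beta_reduce at h1 c0 ⊢
    rw [rl, rl, h1, (eq_div_iff (mul_ne_zero c0 c1)).2 h2]
    simp only [lam, Matrix.smul_mulVec, Pi.smul_apply, la_row, smul_eq_mul, star_mul', star_inv₀,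
      ← mul_conj, starRingEnd_apply]
    field_simp
  · obtain ⟨T, T1, T2, T3⟩ := hWEQ n M H L φ hm hφ e he χ hχ l
    have dc : ContinuousOn (dzb l χ) (tsupport χ) := fun z _ =>
      (cd_dzb hχ.1.contDiffAt l).continuousAt.continuousWithinAt
    have re : ∀ Y : M.Fam (Fs n → ℂ), ∫ z, rl H φ Y e z * dzb l χ z = ∫ z in tsupport χ,
        (Real.exp (-phC M H φ e z) : ℝ) * dzb l χ z * star (Y e z Finset.univ) := fun Y => by
      rw [← setIntegral_eq_integral_of_forall_compl_eq_zero (s := tsupport χ) fun z hz => by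
        rw [dzb_congr (notMem_tsupport_iff_eventuallyEq.1 hz), show dzb l 0 z = 0 from dzb_const 0,
          mul_zero]]
      simp only [rl, mul_right_comm _ (dzb l χ _)]
    have h1 := (lim hχ.2.1 (fun j z hz => (contDiffAt_pi.1 ((W j).sec.sm e he z (hχ.2.2 hz))
      Finset.univ).continuousAt.continuousWithinAt) (V2 e he _ hχ.2.1 hχ.2.2 _).1
      (((ec e he).mono hχ.2.2).mul dc) (V2 e he _ hχ.2.1 hχ.2.2 _).2).neg
    have h2 := W2 (Pre.mk T T1)
    simp only [(ip_op p p _ _).1] at h2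
    rw [← T2 ξ (F1 T T1).1, re, eq_neg_iff_add_eq_zero, add_comm, ← eq_neg_iff_add_eq_zero]
    refine tendsto_nhds_unique h2 (h1.congr fun j => ?_)
    exact ((T3 _ (W j).sec).trans (congrArg _ (re _))).symm

end Pool.Agent.Lib.F4.R
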