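import Pool.Agent.Lib.F4.BlueR

/-! Project f4, part R, row WEQ: the test sections. -/

open scoped Classical Topology ContDiff ComplexOrder Matrix
open Set MeasureTheory Complex Metric Filter

noncomputable section

namespace Pool.Agent.Lib.F4.R

open Pool.Agent.Lib.SV (E)
open Pool.Agent.Lib.HS32 Pool.Agent.Lib.KP Pool.Agent.Lib.HLK
open Pool.Agent.Lib.KP.T60 (phC phC_sm exp_phC)

namespace WEQ

variable {n : ℕ}

theorem top (m l : Fin n) (Y : Fs n → ℂ) :
    ((cr m * an l) *ᵥ Y) Finset.univ = if l = m then Y Finset.univ else 0 := by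
  have e : cr m * an l = (if l = m then 1 else 0) - an l * cr m :=
    eq_sub_of_add_eq' ((aFK1 n).1 l m).2.2
  have z : ((an l * cr m) *ᵥ Y) Finset.univ = 0 := by
    rw [← Matrix.mulVec_mulVec, Matrix.mulVec, dotProduct]
    refine Finset.sum_eq_zero fun B _ => ?_
    simp [an, cr]
  rw [e, Matrix.sub_mulVec, Pi.sub_apply, z, sub_zero]
  split_ifs <;> simp

theorem la_inv {A : Mat n} (h : A.det ≠ 0) (Y : Fs n → ℂ) : La A *ᵥ La A⁻¹ *ᵥ Y = Y := by
  rw [Matrix.mulVec_mulVec, ← ((aFK2 n).2 A).2.2.1, Matrix.mul_nonsing_inv _ h.isUnit,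
    (aFK2 n).1, Matrix.one_mulVec]

theorem dot (l : Fin n) (Y : Fs n → ℂ) :
    star Y ⬝ᵥ an l *ᵥ Pi.single Finset.univ 1 = star ((cr l *ᵥ Y) Finset.univ) := by
  rw [an, Matrix.dotProduct_mulVec, ← Matrix.star_mulVec, dotProduct_single, mul_one,
    Pi.star_apply]

theorem top_P {M : Mf n} (H : M.Fam (Mat n)) (φ : M.Fam ℝ) (W : M.Fam (Fs n → ℂ)) (e : M.Ch)
    (z : E n) (l : Fin n) : (cr l *ᵥ (oP H φ).ap W e z) Finset.univ =
      dz l (fun w => W e w Finset.univ) z -
        dz l (fun w => (phC M H φ e w : ℂ)) z * W e z Finset.univ := by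
  simp only [Op.ap, oP, Matrix.zero_mulVec, add_zero, Matrix.neg_mulVec, Matrix.mulVec_add,
    Matrix.mulVec_neg, Matrix.mulVec_sum, Matrix.sum_mulVec, Matrix.smul_mulVec,
    Matrix.mulVec_smul, Matrix.mulVec_mulVec, Pi.add_apply, Pi.neg_apply, Finset.sum_apply,
    Pi.smul_apply, top, smul_eq_mul, mul_ite, mul_zero, Finset.sum_ite_eq', Finset.mem_univ,
    if_true, dzv, sub_eq_add_neg]

end WEQ

open WEQ CHT in
theorem st_WEQ : St_WEQ := by
  intro n M _ H L φ hM hw e he χ hχ l
  obtain ⟨c1, c2, c3⟩ := hχ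
  have ok := (HLK.aLAM n M H L φ hM hw).1
  have hd := fun z hz => Mf.pd_det_ne (hM.pos e he z hz)
  have c0 : ∀ z ∉ tsupport χ, χ z = 0 := fun z hz => image_eq_zero_of_notMem_tsupport hz
  have d0 : ∀ z ∉ tsupport χ, dzb l χ z = 0 := fun z hz => by
    rw [dzb_congr (g := fun _ => 0) (notMem_tsupport_iff_eventuallyEq.1 hz), dzb_const]
  obtain ⟨F, hF⟩ : ∃ F : E n → Fs n → ℂ,
    F = fun z => La (H e z)⁻¹ *ᵥ (χ z • an l *ᵥ Pi.single Finset.univ 1) := ⟨_, rfl⟩
  have sec : (lam H L φ).Sec (wf (lam H L φ) e F) := by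
    refine wf_sec ok he c2 c3 (fun z hz => ?_) fun z hz => ?_
    · rw [hF]
      simp only [c0 z hz, zero_smul, Matrix.mulVec_zero]
    · rw [hF]
      exact cd_mv ((aFK3 n (fun w => (H e w)⁻¹) z).2 ((hM.sm e he z (c3 hz)).inv (hd z (c3 hz)))).1
        (c1.contDiffAt.smul contDiffAt_const)
  have out : ∀ x ∉ e.symm '' e.target, wf (lam H L φ) e F (M.ch x) (M.ch x x) = 0 := fun x hx => by
    rw [wf, Mf.ch_symm, if_neg fun c => hx ⟨_, e.map_source c, e.left_inv c⟩]
  have slf : ∀ z ∈ e.target, La (H e z) *ᵥ wf (lam H L φ) e F e z =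
      χ z • an l *ᵥ Pi.single Finset.univ 1 := fun z hz => by
    rw [wf_self ok he F hz, hF, la_inv (hd z hz)]
  have mu := ((mMU n M H hM).2.2.2.2.2.1 e he e.target e.open_target.measurableSet
    Subset.rfl).2.2.2.2.2
  refine ⟨_, sec, fun ξ hi => ?_, fun W hW => ?_⟩
  · rw [fn, mu _ fun x hx => by simp only [Mf.ev, pl, out x hx, Matrix.mulVec_zero,
        Pi.zero_apply, mul_zero, Finset.sum_const_zero, zero_div],
      ← setIntegral_eq_integral_of_forall_compl_eq_zero (s := e.target)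
        (f := fun z => ξ e z l * χ z) fun z hz => by rw [c0 z fun c => hz (c3 c), mul_zero]]
    refine setIntegral_congr_fun e.open_target.measurableSet fun z hz => ?_
    rw [hi.rep e he z hz, pl, mul_div_cancel₀ _ (hd z hz)]
    simp only [← Matrix.mulVec_mulVec, slf z hz, Matrix.mulVec_smul]
    simp only [Matrix.mulVec_mulVec, Pi.smul_apply, top, smul_eq_mul, mul_ite, mul_zero,
      Finset.sum_ite_eq, Finset.mem_univ, if_true, Pi.single_eq_same, mul_one]
  · have hP := aSP n M H L φ W hM hw hW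
    have sW : ∀ z ∈ e.target, ContDiffAt ℝ ∞ (fun w => W e w Finset.univ) z := fun z hz =>
      contDiffAt_pi.1 (hW.sm e he z hz) _
    have sE : ∀ z ∈ e.target, ContDiffAt ℝ ∞ (fun w => ((Real.exp (-phC M H φ e w) : ℝ) : ℂ)) z :=
      fun z hz => cd_ofReal (phC_sm hM hw he hz).neg.exp
    have sr : ∀ z ∈ e.target, ContDiffAt ℝ ∞ (rl H φ W e) z := fun z hz =>
      (sE z hz).mul (cd_star (sW z hz))
    obtain ⟨-, i1, -, i2⟩ := mIBPE n e.target (tsupport χ) (fun z => χ z * rl H φ W e z)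
      e.open_target c2 c3 (fun z hz => c1.contDiffAt.mul (sr z hz))
      (fun z _ hz => by rw [c0 z hz, zero_mul]) l
    have i3 : IntegrableOn (fun z => rl H φ W e z * dzb l χ z) e.target :=
      (ContinuousOn.integrableOn_compact c2 fun z hz => ((sr z (c3 hz)).mul
        (cd_dzb c1.contDiffAt l)).continuousAt.continuousWithinAt).of_forall_sdiff_eq_zero
        e.open_target.measurableSet fun z hz => by rw [d0 z hz.2, mul_zero]
    rw [Bun.ip, mu _ fun x hx => by
        rw [Bun.pp, Mf.ev, Mf.ev, Mf.ev, out x hx, Matrix.mulVec_zero, dotProduct_zero],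
      ← setIntegral_eq_integral_of_forall_compl_eq_zero (s := e.target)
        (f := fun z => rl H φ W e z * dzb l χ z) fun z hz => by
          rw [d0 z fun c => hz (c3 c), mul_zero],
      ← zero_sub, ← i2, ← integral_sub i1 i3]
    refine setIntegral_congr_fun e.open_target.measurableSet fun z hz => ?_
    have sψ := phC_sm hM hw he hz
    have d1 : dzb l (fun w => ((Real.exp (-phC M H φ e w) : ℝ) : ℂ)) z =
        -(Real.exp (-phC M H φ e z) : ℝ) * dzb l (fun w => (phC M H φ e w : ℂ)) z := by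
      have := dzb_comp_real (j := l) (φ := fun s => Real.exp (-s))
        (c := -Real.exp (-phC M H φ e z)) (u := phC M H φ e)
        (by simpa using (hasDerivAt_neg (phC M H φ e z)).exp) (sψ.differentiableAt (by simp))
      rw [this, ofReal_neg]
    have d2 : dzb l (rl H φ W e) z = (Real.exp (-phC M H φ e z) : ℝ) *
        star ((cr l *ᵥ (oP H φ).ap W e z) Finset.univ) := by
      rw [top_P, star_sub, star_mul', star_dz_ofReal (cd_diff (cd_ofReal sψ)),
        ← dzb_star (cd_diff (sW z hz))]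
      refine (dzb_mul (cd_diff (sE z hz)) (cd_diff (cd_star (sW z hz)))).trans ?_
      rw [d1]
      ring
    rw [(ok.pp_rep hP sec).1 e he z hz, dzb_mul (cd_diff c1.contDiffAt) (cd_diff (sr z hz)), d2,
      exp_phC hM he hz, ofReal_mul, Mf.herm_det (hM.herm e he z hz)]
    simp only [lam, Matrix.smul_mulVec]
    have := slf z hz
    simp only [lam] at this
    rw [this, dotProduct_smul, dotProduct_smul, dot, smul_eq_mul, smul_eq_mul]
    ring

end Pool.Agent.Lib.F4.R
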