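import Pool.Agent.Lib.F4.R_HIL
import Pool.Agent.Lib.F4.R_FUN
import Pool.Agent.Lib.F4.R_ORT
import Pool.Agent.Lib.F4.R_WEQ
import Pool.Agent.Lib.F4.R_LIM
import Pool.Agent.Lib.F4.R_SOL
import Pool.Agent.Lib.F4.R_HV
import Pool.Agent.Lib.F4.R_CAP
import Pool.Agent.Lib.F4.R_CLO

/-! Project f4, part R: assembly. -/

namespace Pool.Agent.Lib.F4.R

theorem aSOL : St_SOL := st_SOL st_HIL st_FUN (st_ORT st_FUN) st_WEQ st_LIM
theorem aHV : St_HV := st_HV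
theorem aCLO : St_CLO := st_CLO st_CAP

end Pool.Agent.Lib.F4.R
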