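import Pool.Agent.Lib.F4.BlueS
import Pool.Agent.Lib.HS32.MAll

/-! Project f4: the divergence of a vector field or of a bivector with values in the canonical
bundle is a tensor. -/

open scoped Classical Topology ContDiff ComplexOrder Matrix
open Set Filter

noncomputable section

namespace Pool.Agent.Lib.F4

open Pool.Agent.Lib.SV (E)
open Pool.Agent.Lib.HS32 Pool.Agent.Lib.HLK

namespace DVC

open BDIV

variable {n : ℕ}

theorem hol_sum {ι : Type} [Fintype ι] {f : ι → E n → ℂ} {z : E n} (h : ∀ i, HolN (f i) z) :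
    HolN (fun w => ∑ i, f i w) z := by
  filter_upwards [eventually_all.2 h] with w hw
  exact DifferentiableAt.fun_sum fun i _ => hw i

theorem hol_dz {f : E n → ℂ} {z : E n} (h : HolN f z) (j : Fin n) : HolN (dz j f) z :=
  ((mHOL n f z).2.2 h).2.1 j

theorem hol_d {f : E n → ℂ} {z : E n} (h : HolN f z) : DifferentiableAt ℝ f z :=
  ((mHOL n f z).2.2 h).1.differentiableAt (by simp)

/-- The divergence under a holomorphic change of variables. -/
theorem dv_one {ψ W W' : E n → E n} {z : E n} (hψ : HolN ψ z) (hd : (jm ψ z).det ≠ 0)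
    (hWd : ∀ a, DifferentiableAt ℝ (fun w => W w a) (ψ z))
    (h : ∀ᶠ w in 𝓝 z, jm ψ w *ᵥ W' w = (jm ψ w).det • W (ψ w)) :
    dv W' z = (jm ψ z).det * dv W (ψ z) := by
  obtain ⟨hψs, hJ, hcl, -, -, -, -, -, -, hch, -⟩ := mCHN n ψ z hψ
  obtain ⟨hds, has, -, hcof, -⟩ := mCOF n (jm ψ) z hJ
  have hne : ∀ᶠ w in 𝓝 z, (jm ψ w).det ≠ 0 := hds.continuousAt.eventually_ne hd
  have hWψ : ∀ a, DifferentiableAt ℝ (fun w => W (ψ w) a) z := fun a =>
    (hWd a).comp z (hψs.differentiableAt (by simp))
  have had : ∀ j a, DifferentiableAt ℝ (fun w => (jm ψ w).adjugate j a) z := fun j a =>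
    (has j a).differentiableAt (by simp)
  have e1 : W' =ᶠ[𝓝 z] fun w j => ∑ a, (jm ψ w).adjugate j a * W (ψ w) a := by
    filter_upwards [h, hne] with w hw hw0
    have h2 : (jm ψ w).det • W' w = (jm ψ w).det • ((jm ψ w).adjugate *ᵥ W (ψ w)) := by
      rw [← Matrix.mulVec_smul, ← hw, Matrix.mulVec_mulVec, Matrix.adjugate_mul,
        Matrix.smul_mulVec, Matrix.one_mulVec]
    funext j
    have h3 := congrFun h2 j
    simp only [Pi.smul_apply, smul_eq_mul, Matrix.mulVec, dotProduct] at h3
    exact mul_left_cancel₀ hw0 h3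
  rw [dv_congr e1]
  unfold dv
  have e2 : ∀ j, dz j (fun w => ∑ a, (jm ψ w).adjugate j a * W (ψ w) a) z =
      ∑ a, dM j (fun w => (jm ψ w).adjugate) z j a * W (ψ z) a +
        ∑ a, ∑ b, dz b (fun w => W w a) (ψ z) * (jm ψ z b j * (jm ψ z).adjugate j a) := by
    intro j
    rw [dz_sum fun a => (had j a).fun_mul (hWψ a), ← Finset.sum_add_distrib]
    refine Finset.sum_congr rfl fun a _ => ?_
    rw [BDIV.dz_mul (had j a) (hWψ a)]
    have := (hch (fun w => W w a) (hWd a) j).1
    rw [show (fun w => W (ψ w) a) = (fun w => W w a) ∘ ψ from rfl, this, Finset.mul_sum]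
    congr 1
    exact Finset.sum_congr rfl fun b _ => by ring
  simp only [e2, Finset.sum_add_distrib]
  have e3 : ∑ j, ∑ a, dM j (fun w => (jm ψ w).adjugate) z j a * W (ψ z) a = 0 := by
    rw [Finset.sum_comm]
    refine Finset.sum_eq_zero fun a _ => ?_
    rw [← Finset.sum_mul, hcof hcl a, zero_mul]
  have e4 : ∑ j, ∑ a, ∑ b, dz b (fun w => W w a) (ψ z) * (jm ψ z b j * (jm ψ z).adjugate j a) =
      (jm ψ z).det * ∑ a, dz a (fun w => W w a) (ψ z) := by
    rw [Finset.sum_comm, Finset.mul_sum]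
    refine Finset.sum_congr rfl fun a _ => ?_
    rw [Finset.sum_comm]
    simp only [← Finset.mul_sum, ← Matrix.mul_apply, Matrix.mul_adjugate, Matrix.smul_apply,
      Matrix.one_apply, smul_eq_mul, mul_ite, mul_one, mul_zero, Finset.sum_ite_eq',
      Finset.mem_univ, if_true]
    ring
  rw [e3, e4, zero_add]

/-- A skew matrix against a symmetric one. -/
theorem skew_sym {A : Mat n} {B : Fin n → Fin n → ℂ} (hA : Aᵀ = -A)
    (hB : ∀ k b, B k b = B b k) :
    ∑ k, ∑ b, A k b * B k b = 0 := by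
  have h1 : ∑ k, ∑ b, A k b * B k b = -∑ k, ∑ b, A k b * B k b := by
    conv_lhs => rw [Finset.sum_comm]
    rw [← Finset.sum_neg_distrib]
    refine Finset.sum_congr rfl fun k _ => ?_
    rw [← Finset.sum_neg_distrib]
    refine Finset.sum_congr rfl fun b _ => ?_
    have := congrFun (congrFun hA k) b
    simp only [Matrix.transpose_apply, Matrix.neg_apply] at this
    rw [this, hB b k]; ring
  linear_combination h1 / 2

/-- The divergence of a bivector under a holomorphic change of variables. -/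
theorem dvM_one {ψ : E n → E n} {P P' : E n → Mat n} {z : E n} (hψ : HolN ψ z)
    (hd : (jm ψ z).det ≠ 0) (hP : ∀ i j, DifferentiableAt ℝ (fun w => P w i j) (ψ z))
    (hP' : ∀ i j, DifferentiableAt ℝ (fun w => P' w i j) z) (ha : (P' z)ᵀ = -P' z)
    (h : ∀ᶠ w in 𝓝 z, jm ψ w * P' w * (jm ψ w)ᵀ = (jm ψ w).det • P (ψ w)) :
    jm ψ z *ᵥ dvM P' z = (jm ψ z).det • dvM P (ψ z) := by
  obtain ⟨-, hJ, hcl, -⟩ := mCHN n ψ z hψ
  have hJd : ∀ i j, DifferentiableAt ℝ (fun w => jm ψ w i j) z := fun i j =>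
    (hJ i j).differentiableAt (by simp)
  funext a
  have key := dv_one (W := fun w k => P w k a) (W' := fun w k => ∑ b, P' w k b * jm ψ w a b)
    hψ hd (fun k => hP k a) (by
      filter_upwards [h] with w hw
      funext i
      have := congrFun (congrFun hw i) a
      rw [Matrix.mul_assoc] at this
      simpa only [Matrix.mul_apply, Matrix.transpose_apply, Matrix.smul_apply, Pi.smul_apply,
        Matrix.mulVec, dotProduct] using this)
  have e1 : dv (fun w k => ∑ b, P' w k b * jm ψ w a b) z =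
      ∑ k, ∑ b, dz k (fun w => P' w k b) z * jm ψ z a b +
        ∑ k, ∑ b, P' z k b * dM k (jm ψ) z a b := by
    unfold dv
    rw [← Finset.sum_add_distrib]
    refine Finset.sum_congr rfl fun k _ => ?_
    rw [dz_sum fun b => (hP' k b).fun_mul (hJd a b), ← Finset.sum_add_distrib]
    exact Finset.sum_congr rfl fun b _ => BDIV.dz_mul (hP' k b) (hJd a b) k
  rw [e1, skew_sym (B := fun k b => dM k (jm ψ) z a b) ha fun k b => hcl a b k,
    add_zero, Finset.sum_comm] at key
  show ∑ b, jm ψ z a b * ∑ k, dz k (fun w => P' w k b) z = _ * ∑ k, dz k (fun w => P w k a) (ψ z)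
  rw [show (∑ k, dz k (fun w => P w k a) (ψ z)) = dv (fun w k => P w k a) (ψ z) from rfl, ← key]
  refine Finset.sum_congr rfl fun b _ => ?_
  rw [← Finset.sum_mul, mul_comm]

end DVC

open DVC in
theorem st_DVC : St_DVC := by
  intro n M
  refine ⟨fun V hV => ⟨fun e he z hz => ?_, fun e he e' he' x hx hx' => ?_⟩,
    fun P hP => ⟨fun e he z hz a => ?_, fun e he e' he' x hx hx' => ?_⟩⟩
  · exact hol_sum fun j => hol_dz (hV.hol e he z hz j) j
  · obtain ⟨h1, h2, -, h4, -⟩ := (mTR n M).2.1 e he e' he' x hx hx'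
    have hex : (e ∘ e'.symm) (e' x) = e x := by simp [e'.left_inv hx']
    have key := dv_one (W := V e) (W' := V e') h1 h2
      (fun a => by rw [hex]; exact hol_d (hV.hol e he _ (e.map_source hx) a))
      (by
        filter_upwards [h4] with w ⟨_, a2, a3, _, _, a6, a7⟩
        have := hV.cmp e he e' he' _ a2 a3
        simp only [jd, a6, a7, zpow_one] at this
        exact this)
    rw [hex] at key
    show dv (V e') (e' x) = _ * dv (V e) (e x)
    rw [zpow_one]
    exact key
  · exact hol_sum fun k => hol_dz (hP.hol e he z hz k a) k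
  · obtain ⟨h1, h2, -, h4, -⟩ := (mTR n M).2.1 e he e' he' x hx hx'
    have hex : (e ∘ e'.symm) (e' x) = e x := by simp [e'.left_inv hx']
    have key := dvM_one (P := P e) (P' := P e') h1 h2
      (fun i j => by rw [hex]; exact hol_d (hP.hol e he _ (e.map_source hx) i j))
      (fun i j => hol_d (hP.hol e' he' _ (e'.map_source hx') i j))
      (hP.alt e' he' _ (e'.map_source hx'))
      (by
        filter_upwards [h4] with w ⟨_, a2, a3, _, _, a6, a7⟩
        have := hP.cmp e he e' he' _ a2 a3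
        simp only [jd, a6, a7, zpow_one] at this
        exact this)
    rw [hex] at key
    show _ *ᵥ dvM (P e') (e' x) = _ • dvM (P e) (e x)
    rw [zpow_one]
    exact key

end Pool.Agent.Lib.F4
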