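import Pool.Agent.Lib.F4.BlueS
import Pool.Agent.Lib.HS32.MAll

/-! Project f4: the primitives of the curvature form contracted with the tangent fields. -/

open scoped Classical Topology ContDiff ComplexOrder Matrix
open Set Filter

noncomputable section

namespace Pool.Agent.Lib.F4

open Pool.Agent.Lib.SV (E)
open Pool.Agent.Lib.HS32 Pool.Agent.Lib.HLK

theorem psi_wg {n : ℕ} {a Y : E n} {D : Mat n} (h : W3 a D) (hD : ∀ i j, D j i = -D i j)
    (hY : a ⬝ᵥ Y = 0) : wg (Y ᵥ* D) a = 0 := by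
  ext j k
  have h1 : ∑ i, Y i * (a i * D j k + a j * D k i + a k * D i j) = 0 :=
    Finset.sum_eq_zero fun i _ => by rw [h i j k, mul_zero]
  have h2 : ∑ i, Y i * (a i * D j k + a j * D k i + a k * D i j) =
      (a ⬝ᵥ Y) * D j k + ((Y ᵥ* D) j * a k - a j * (Y ᵥ* D) k) := by
    simp only [dotProduct, Matrix.vecMul, Finset.sum_mul, Finset.mul_sum, ← Finset.sum_sub_distrib,
      ← Finset.sum_add_distrib]
    exact Finset.sum_congr rfl fun i _ => by rw [hD i k]; ring
  rw [h2, hY, zero_mul, zero_add] at h1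
  exact h1

theorem psi_vm {n : ℕ} {a Y : E n} (g : E n) (hY : a ⬝ᵥ Y = 0) : Y ᵥ* wg g a = (Y ⬝ᵥ g) • a := by
  funext j
  have h2 : (Y ᵥ* wg g a) j = (Y ⬝ᵥ g) * a j - (a ⬝ᵥ Y) * g j := by
    simp only [dotProduct, Matrix.vecMul, wg, Matrix.of_apply, Finset.sum_mul,
      ← Finset.sum_sub_distrib]
    exact Finset.sum_congr rfl fun i _ => by ring
  rw [h2, hY, zero_mul, sub_zero]
  rfl

theorem psi_hol_on {n : ℕ} {U : Set (E n)} {b : E n → ℂ} (hU : IsOpen U)
    (hb : DifferentiableOn ℂ b U) {z : E n} (hz : z ∈ U) : HolN b z := by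
  filter_upwards [hU.mem_nhds hz] with w hw using hb.differentiableAt (hU.mem_nhds hw)

theorem psi_loc {M : Mf 4} {S P : M.Fam (Mat 4)} {V W α : M.Fam (E 4)} {ψ : M.Fam ℝ}
    (hD : Data M S P V W α) (hψ : M.Wt 1 ψ) {e : M.Ch} (he : e ∈ M.C) (Y : E 4 → E 4)
    (hY : ∀ z ∈ e.target, ∀ i, HolN (fun w => Y w i) z) (h0 : ∀ z ∈ e.target, α e z ⬝ᵥ Y z = 0) :
    ∃ f : E 4 → ℂ, ∀ z ∈ e.target, ContDiffAt ℝ ∞ f z ∧
      (∀ l, dzb l f z = (M.hw ψ e z *ᵥ Y z) l) ∧ f z • α e z = Y z ᵥ* mu M ψ α e z := by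
  have hd : ∀ z ∈ e.target, ∀ i j, HolN (dz i fun w => α e w j) z := fun z hz i j =>
    ((mHOL 4 _ z).2.2 (hD.hα.hol e he z hz j)).2.1 i
  obtain ⟨b, hb, eb⟩ := hD.loc e he e.target (fun z => Y z ᵥ* d1 (α e) z) e.open_target Subset.rfl
    (fun z hz => by
      refine DifferentiableAt.differentiableWithinAt (differentiableAt_pi.2 fun j => ?_)
      have : (fun w => (Y w ᵥ* d1 (α e) w) j) = fun w => ∑ i, Y w i *
          (dz i (fun w => α e w j) w - dz j (fun w => α e w i) w) := rfl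
      rw [this]
      exact DifferentiableAt.fun_sum fun i _ => (hY z hz i).self_of_nhds.mul
        ((hd z hz i j).self_of_nhds.sub (hd z hz j i).self_of_nhds))
    (fun z hz => psi_wg (hD.int e he z hz) (fun i j => by simp [d1]) (h0 z hz))
  refine ⟨fun z => (∑ j, Y z j * dz j (fun w => (ψ e w : ℂ)) z) - b z, fun z hz => ?_⟩
  have sb := ((mHOL 4 b z).2.2 (psi_hol_on e.open_target hb hz)).1
  have sY := fun j => ((mHOL 4 _ z).2.2 (hY z hz j)).1
  have sψ := fun j => cd_dz (cd_ofReal (hψ.sm e he z hz)) j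
  have sS : ContDiffAt ℝ ∞ (fun z => ∑ j, Y z j * dz j (fun w => (ψ e w : ℂ)) z) z :=
    ContDiffAt.sum fun j _ => (sY j).mul (sψ j)
  refine ⟨sS.sub sb, fun l => ?_, ?_⟩
  · rw [dzb_sub (cd_diff sS) (cd_diff sb), dzb_sum fun j _ => cd_diff ((sY j).mul (sψ j)),
      ((mHOL 4 b z).1 (cd_diff sb)).1 (psi_hol_on e.open_target hb hz).self_of_nhds l, sub_zero]
    show _ = ∑ j, M.hw ψ e z l j * Y z j
    refine Finset.sum_congr rfl fun j _ => ?_
    rw [dzb_mul (cd_diff (sY j)) (cd_diff (sψ j)),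
      ((mHOL 4 _ z).1 (cd_diff (sY j))).1 (hY z hz j).self_of_nhds l]
    simp only [Mf.hw, hess_apply]
    ring
  · rw [mu, Matrix.vecMul_sub, psi_vm _ (h0 z hz), eb z hz, sub_smul]
    rfl

theorem psi_cancel {n : ℕ} {ι : Type} {u v : ι → ℂ} {a : E n} (ha : a ≠ 0)
    (h : Matrix.vecMulVec u a = Matrix.vecMulVec v a) : u = v := by
  obtain ⟨j, hj⟩ := Function.ne_iff.1 ha
  funext i
  exact mul_right_cancel₀ hj (congrFun (congrFun h i) j)

theorem psi_dense {n : ℕ} {M : Mf n} {α : M.Fam (E n)} (hα : Den M α) {F : Type}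
    [TopologicalSpace F] [T2Space F] {e e' : M.Ch} (he : e ∈ M.C) (he' : e' ∈ M.C) {x : M.X}
    (hx : x ∈ e.source) (hx' : x ∈ e'.source) (φ : Mat n → E n → E n → F) (φ' : Mat n → E n → E n → F)
    (hφ : ContinuousAt (fun p : Mat n × E n × E n => φ p.1 p.2.1 p.2.2) (M.J e e' x, e x, e' x))
    (hφ' : ContinuousAt (fun p : Mat n × E n × E n => φ' p.1 p.2.1 p.2.2) (M.J e e' x, e x, e' x))
    (h : ∀ y ∈ e.source, y ∈ e'.source → α e' (e' y) ≠ 0 →
      φ (M.J e e' y) (e y) (e' y) = φ' (M.J e e' y) (e y) (e' y)) :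
    φ (M.J e e' x) (e x) (e' x) = φ' (M.J e e' x) (e x) (e' x) := by
  obtain ⟨hh, -, -, hev, -⟩ := (mTR n M).2.1 e he e' he' x hx hx'
  obtain ⟨c1, c2, -⟩ := mCHN n _ _ hh
  have hs : e'.symm (e' x) = x := e'.left_inv hx'
  have ht : Tendsto (fun w => (jm (e ∘ e'.symm) w, (e ∘ e'.symm) w, w)) (𝓝 (e' x))
      (𝓝 (M.J e e' x, e x, e' x)) := by
    have := c2.continuousAt.prodMk (c1.continuousAt.prodMk continuousAt_id)
    unfold ContinuousAt at this
    simpa [Mf.J, hs] using this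
  refine tendsto_nhds_unique_of_frequently_eq (hφ.tendsto.comp ht) (hφ'.tendsto.comp ht) ?_
  refine ((hα e' he' _ (e'.map_source hx')).and_eventually hev).mono fun w hw => ?_
  obtain ⟨h0, -, h2, h3, -, -, h6, h7⟩ := hw
  have := h _ h2 h3 (by rw [h6]; exact h0)
  rw [h6, h7] at this
  exact this

theorem st_PSI (h3 : St_MUS) : St_PSI := by
  intro M H S P V W α ψ hH hD hψ
  have hm := (((h3 4 M H α hH hD.hα).2.2.1 ψ hψ).1).cmp
  have ha := hD.hα.cmp
  constructor
  · have : ∀ e : M.Ch, ∃ f : E 4 → ℂ, e ∈ M.C → ∀ z ∈ e.target, ContDiffAt ℝ ∞ f z ∧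
        (∀ l, dzb l f z = (M.hw ψ e z *ᵥ W e z) l) ∧ f z • α e z = W e z ᵥ* mu M ψ α e z := by
      intro e
      by_cases he : e ∈ M.C
      · obtain ⟨f, hf⟩ := psi_loc hD hψ he (W e) (hD.hW.hol e he) (hD.aW e he)
        exact ⟨f, fun _ => hf⟩
      · exact ⟨0, fun h => (he h).elim⟩
    choose f hf using this
    refine ⟨f, ⟨fun e he z hz => (hf e he z hz).1, fun e he e' he' x hx hx' => ?_⟩,
      fun e he z hz => (hf e he z hz).2.1⟩
    refine psi_dense hD.den he he' hx hx' (fun _ _ z' => f e' z') (fun J z _ => f e z * J.det ^ 1)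
      ?_ ?_ fun y hy hy' h0 => ?_
    · exact ContinuousAt.comp (f := fun p : Mat 4 × E 4 × E 4 => p.2.2)
        (hf e' he' _ (e'.map_source hx')).1.continuousAt (by fun_prop)
    · refine ContinuousAt.mul (ContinuousAt.comp (f := fun p : Mat 4 × E 4 × E 4 => p.2.1)
        (hf e he _ (e.map_source hx)).1.continuousAt (by fun_prop)) (ContinuousAt.pow ?_ 1)
      exact (continuous_fst.matrix_det).continuousAt
    · have e1 := (hf e he _ (e.map_source hy)).2.2
      have e2 := (hf e' he' _ (e'.map_source hy')).2.2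
      have e3 := hD.hW.cmp e he e' he' y hy hy'
      have e4 := ha e he e' he' y hy hy'
      rw [hm e he e' he' y hy hy', Matrix.vecMul_smul, ← Matrix.vecMul_vecMul,
        ← Matrix.vecMul_vecMul, Matrix.vecMul_transpose, e3, Matrix.smul_vecMul, ← e1,
        Matrix.smul_vecMul, Matrix.smul_vecMul] at e2
      refine smul_left_injective ℂ h0 ?_
      show f e' (e' y) • α e' (e' y) = (f e (e y) * (M.J e e' y).det ^ 1) • α e' (e' y)
      rw [e2, e4]
      simp only [smul_smul, zpow_one, pow_one, jd]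
      congr 1
      ring
  · have : ∀ (e : M.Ch) (a : Fin 4), ∃ f : E 4 → ℂ, e ∈ M.C → ∀ z ∈ e.target,
        ContDiffAt ℝ ∞ f z ∧ (∀ l, dzb l f z = (M.hw ψ e z *ᵥ fun i => P e z i a) l) ∧
        f z • α e z = (fun i => P e z i a) ᵥ* mu M ψ α e z := by
      intro e a
      by_cases he : e ∈ M.C
      · obtain ⟨f, hf⟩ := psi_loc hD hψ he (fun z i => P e z i a)
          (fun z hz i => hD.hP.hol e he z hz i a) fun z hz => by
            have h1 := congrFun (hD.aP e he z hz) a
            have h2 := fun i => congrFun (congrFun (hD.hP.alt e he z hz) a) i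
            simp only [Matrix.transpose_apply, Matrix.neg_apply] at h2
            simp only [Matrix.mulVec, dotProduct, Pi.zero_apply] at h1 ⊢
            rw [← neg_eq_zero, ← h1, ← Finset.sum_neg_distrib]
            exact Finset.sum_congr rfl fun i _ => by rw [h2 i]; ring
        exact ⟨f, fun _ => hf⟩
      · exact ⟨0, fun h => (he h).elim⟩
    choose f hf using this
    have hs : M.All fun e z => ContDiffAt ℝ ∞ (fun z a => f e a z) z := fun e he z hz =>
      contDiffAt_pi.2 fun a => (hf e a he z hz).1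
    have hv : M.All fun e z =>
        Matrix.vecMulVec (fun a => f e a z) (α e z) = (P e z)ᵀ * mu M ψ α e z := by
      intro e he z hz
      ext a j
      exact congrFun (hf e a he z hz).2.2 j
    refine ⟨fun e z a => f e a z, ⟨hs, fun e he e' he' x hx hx' => ?_⟩,
      fun e he z hz l a => (hf e a he z hz).2.1 l⟩
    refine psi_dense hD.den he he' hx hx' (fun J _ z' => J *ᵥ fun a => f e' a z')
      (fun J z _ => J.det • fun a => f e a z) ?_ ?_ fun y hy hy' h0 => ?_
    · have c1 : ContinuousAt (fun p : Mat 4 × E 4 × E 4 => fun a => f e' a p.2.2)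
          (M.J e e' x, e x, e' x) :=
        ContinuousAt.comp (f := fun p : Mat 4 × E 4 × E 4 => p.2.2) (g := fun z a => f e' a z)
          (hs e' he' _ (e'.map_source hx')).continuousAt (by fun_prop)
      have c2 : Continuous fun p : Mat 4 × E 4 => p.1 *ᵥ p.2 :=
        continuous_fst.matrix_mulVec continuous_snd
      exact c2.continuousAt.comp (continuousAt_fst.prodMk c1)
    · refine ContinuousAt.smul (continuous_fst.matrix_det).continuousAt ?_
      exact ContinuousAt.comp (f := fun p : Mat 4 × E 4 × E 4 => p.2.1) (g := fun z a => f e a z)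
        (hs e he _ (e.map_source hx)).continuousAt (by fun_prop)
    · have e1 := hv e he _ (e.map_source hy)
      have e2 := hv e' he' _ (e'.map_source hy')
      have e3 := congrArg Matrix.transpose (hD.hP.cmp e he e' he' y hy hy')
      have e4 := ha e he e' he' y hy hy'
      simp only [Matrix.transpose_mul, Matrix.transpose_transpose, Matrix.transpose_smul,
        zpow_one] at e3 e4
      refine psi_cancel h0 ?_
      rw [← Matrix.mul_vecMulVec, e2, hm e he e' he' y hy hy', Matrix.mul_smul, Matrix.mul_smul,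
        e4, Matrix.smul_vecMulVec, Matrix.vecMulVec_smul, ← Matrix.vecMulVec_mul, e1,
        ← Matrix.smul_mul, ← Matrix.smul_mul, ← Matrix.smul_mul, ← Matrix.smul_mul, ← e3]
      simp only [Matrix.mul_assoc, Matrix.smul_mul]

end Pool.Agent.Lib.F4
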