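import Pool.Agent.Lib.F4.BlueS

/-! Project f4: the pointwise inequality in dimension four. -/

open scoped Classical Topology ContDiff ComplexOrder Matrix
open Set Filter MeasureTheory

set_option linter.unusedVariables false

noncomputable section

namespace Pool.Agent.Lib.F4

open Pool.Agent.Lib.SV (E)
open Pool.Agent.Lib.HS32 Pool.Agent.Lib.HLK

namespace PW4

theorem skew {S : Mat 4} (hS : Sᵀ = -S) (i j : Fin 4) : S j i = -S i j := by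
  have h := congrFun (congrFun hS i) j
  simpa using h

theorem diag {S : Mat 4} (hS : Sᵀ = -S) (i : Fin 4) : S i i = 0 := by
  have h := skew hS i i
  linear_combination h / 2

theorem split (S : Mat 4) (hS : Sᵀ = -S) (ξ W : E 4) :
    wg ξ (W ᵥ* S) = (ξ ⬝ᵥ W) • S + (-1 : ℂ) • st (wg W (ξ ᵥ* st S)) := by
  have h10 := skew hS 0 1
  have h20 := skew hS 0 2
  have h30 := skew hS 0 3
  have h21 := skew hS 1 2
  have h31 := skew hS 1 3
  have h32 := skew hS 2 3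
  have d0 := diag hS 0
  have d1 := diag hS 1
  have d2 := diag hS 2
  have d3 := diag hS 3
  ext i j
  fin_cases i <;> fin_cases j <;>
    simp [wg, st, Matrix.vecMul, dotProduct, Fin.sum_univ_four, h10, h20, h30, h21, h31, h32,
      d0, d1, d2, d3] <;> ring

theorem det4 (J : Mat 4) : J.det =
    J 0 0 * (J 1 1 * (J 2 2 * J 3 3 - J 2 3 * J 3 2) - J 1 2 * (J 2 1 * J 3 3 - J 2 3 * J 3 1) +
      J 1 3 * (J 2 1 * J 3 2 - J 2 2 * J 3 1)) -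
    J 0 1 * (J 1 0 * (J 2 2 * J 3 3 - J 2 3 * J 3 2) - J 1 2 * (J 2 0 * J 3 3 - J 2 3 * J 3 0) +
      J 1 3 * (J 2 0 * J 3 2 - J 2 2 * J 3 0)) +
    J 0 2 * (J 1 0 * (J 2 1 * J 3 3 - J 2 3 * J 3 1) - J 1 1 * (J 2 0 * J 3 3 - J 2 3 * J 3 0) +
      J 1 3 * (J 2 0 * J 3 1 - J 2 1 * J 3 0)) -
    J 0 3 * (J 1 0 * (J 2 1 * J 3 2 - J 2 2 * J 3 1) - J 1 1 * (J 2 0 * J 3 2 - J 2 2 * J 3 0) +
      J 1 2 * (J 2 0 * J 3 1 - J 2 1 * J 3 0)) := by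
  simp [Matrix.det_succ_row_zero, Fin.sum_univ_succ, Fin.succAbove]
  ring

theorem st_ap (S : Mat 4) : (st S 0 0 = 0 ∧ st S 0 1 = S 2 3 ∧ st S 0 2 = -S 1 3 ∧
    st S 0 3 = S 1 2) ∧ (st S 1 0 = -S 2 3 ∧ st S 1 1 = 0 ∧ st S 1 2 = S 0 3 ∧
    st S 1 3 = -S 0 2) ∧ (st S 2 0 = S 1 3 ∧ st S 2 1 = -S 0 3 ∧ st S 2 2 = 0 ∧
    st S 2 3 = S 0 1) ∧ (st S 3 0 = -S 1 2 ∧ st S 3 1 = S 0 2 ∧ st S 3 2 = -S 0 1 ∧
    st S 3 3 = 0) :=
  ⟨⟨rfl, rfl, rfl, rfl⟩, ⟨rfl, rfl, rfl, rfl⟩, ⟨rfl, rfl, rfl, rfl⟩, ⟨rfl, rfl, rfl, rfl⟩⟩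

theorem all4 {p : Fin 4 → Prop} (h0 : p 0) (h1 : p 1) (h2 : p 2) (h3 : p 3) (i : Fin 4) :
    p i := by
  fin_cases i <;> assumption

set_option maxHeartbeats 2000000 in
theorem law (J : Mat 4) (W Y : E 4) :
    Jᵀ * st (wg (J *ᵥ W) (J *ᵥ Y)) * J = J.det • st (wg W Y) := by
  ext i j
  rw [det4]
  revert i j
  refine all4 (all4 ?_ ?_ ?_ ?_) (all4 ?_ ?_ ?_ ?_) (all4 ?_ ?_ ?_ ?_) (all4 ?_ ?_ ?_ ?_) <;>
  · simp only [Matrix.mul_apply, Fin.sum_univ_four, Matrix.smul_apply, st_ap, wg, Matrix.of_apply,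
      Matrix.transpose_apply, Matrix.mulVec, dotProduct, smul_eq_mul]
    ring

theorem one_st (u v : E 4) : p2 1 (st (wg u v)) (st (wg u v)) = p2 1 (wg u v) (wg u v) := by
  simp only [p2, inv_one, Matrix.transpose_one, Matrix.one_mul, Matrix.mul_one, Matrix.trace,
    Matrix.diag_apply, Matrix.mul_apply, Matrix.conjTranspose_apply, Fin.sum_univ_four, st_ap,
    wg, Matrix.of_apply, star_neg, star_sub, star_mul', star_zero]
  ring

theorem nq_fac (J : Mat 4) (W : E 4) : nq (Jᴴ * J) W = (p1 1 (J *ᵥ W) (J *ᵥ W)).re := by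
  rw [nq, p1, inv_one, Matrix.one_mulVec, ← Matrix.mulVec_mulVec, Matrix.dotProduct_mulVec,
    ← Matrix.star_mulVec, dotProduct_comm]

theorem st_le (h : St_PW1) (H : Mat 4) (hH : H.PosDef) (W Y : E 4) :
    (p2 H (st (wg W Y)) (st (wg W Y))).re ≤ nq H W / H.det.re * nq H Y := by
  obtain ⟨J, rfl⟩ := Mf.psd_factor hH.posSemidef
  have hd : (Jᴴ * J).det = star J.det * J.det := by
    rw [Matrix.det_mul, Matrix.det_conjTranspose]
  have hJ : J.det ≠ 0 := fun h0 => hH.det_pos.ne' (by rw [hd, h0, mul_zero])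
  have hn : (Jᴴ * J).det.re = Complex.normSq J.det := by
    rw [hd, mul_comm, Complex.star_def, Complex.mul_conj, Complex.ofReal_re]
  have hp : 0 < Complex.normSq J.det := Complex.normSq_pos.2 hJ
  have e1 := (h 4 1).2.2.2.1 J (st (wg (J *ᵥ W) (J *ᵥ Y))) (st (wg (J *ᵥ W) (J *ᵥ Y))) hJ
  rw [law, Matrix.mul_one, ((h 4 (Jᴴ * J)).1 _ _ 0 _).2.2.2.2.1,
    ((h 4 (Jᴴ * J)).1 _ _ 0 _).2.2.2.2.2, one_st, ← mul_assoc, Complex.star_def,
    Complex.mul_conj] at e1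
  have e2 := (((h 4 1).2.2.2.2 Matrix.PosDef.one).2.1 (J *ᵥ W) (J *ᵥ Y)).2
  rw [← e1, Complex.re_ofReal_mul, ← nq_fac, ← nq_fac] at e2
  rw [hn, div_mul_eq_mul_div, le_div_iff₀ hp, mul_comm]
  exact e2

theorem sum_dot (B : Mat 4) (W : E 4) :
    ∑ r, Complex.normSq (B r ⬝ᵥ W) = nq (Bᴴ * B) W := by
  rw [nq_fac, p1, inv_one, Matrix.one_mulVec, dotProduct, Complex.re_sum]
  refine Finset.sum_congr rfl fun r _ => ?_
  rw [Pi.star_apply, Complex.star_def, Complex.mul_conj, Complex.ofReal_re]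
  rfl

theorem sum_nq (B P H : Mat 4) :
    ∑ r, nq H (B r ᵥ* P) = (Bᴴ * B * P * Hᵀ * Pᴴ).trace.re := by
  have e : (Bᴴ * B * P * Hᵀ * Pᴴ).trace = ((B * P) * Hᵀ * (B * P)ᴴ).trace := by
    rw [Matrix.conjTranspose_mul, ← Matrix.mul_assoc (B * P * Hᵀ), Matrix.trace_mul_comm _ Bᴴ]
    simp only [Matrix.mul_assoc]
  rw [e, Matrix.trace, Complex.re_sum]
  refine Finset.sum_congr rfl fun r _ => ?_
  have e2 : B r ᵥ* P = (B * P) r := rfl
  rw [e2]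
  generalize B * P = C
  simp only [nq, Matrix.diag_apply, Matrix.mul_apply, dotProduct, Matrix.mulVec,
    Matrix.transpose_apply, Matrix.conjTranspose_apply, Pi.star_apply]
  refine congrArg Complex.re (Finset.sum_congr rfl fun a _ => ?_)
  rw [mul_comm]
  refine congrArg (· * _) (Finset.sum_congr rfl fun b _ => mul_comm _ _)

end PW4

open PW4 in
theorem st_PW4 (h : St_PW1) : St_PW4 := by
  intro H S T W hH hS hT
  obtain ⟨B, rfl⟩ := Mf.psd_factor hT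
  rw [(h 4 H).2.2.1, Complex.re_sum, ← sum_dot, ← sum_nq, Finset.mul_sum, Finset.mul_sum,
    ← Finset.sum_add_distrib]
  refine Finset.sum_le_sum fun r _ => ?_
  rw [split S hS]
  refine ((((h 4 H).2.2.2.2 hH).1 _ _).2.2.2.2).trans ?_
  have e := st_le h H hH W (B r ᵥ* st S)
  rw [((h 4 H).1 _ _ 0 _).2.2.2.2.1, ((h 4 H).1 _ _ 0 _).2.2.2.2.2,
    ((h 4 H).1 _ _ 0 _).2.2.2.2.1, ((h 4 H).1 _ _ 0 _).2.2.2.2.2, ← mul_assoc, ← mul_assoc,
    Complex.star_def, Complex.mul_conj, Complex.mul_conj, Complex.re_ofReal_mul,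
    Complex.re_ofReal_mul]
  simp only [Complex.normSq_neg, Complex.normSq_one, one_mul]
  nlinarith [e]

end Pool.Agent.Lib.F4
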