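import Pool.Agent.Lib.F4.BlueS
import Pool.Agent.Lib.HS32.MAll

/-! Project f4, row S3: the forms close to the canonical class are small along the kernel. -/

open scoped Classical Topology ContDiff ComplexOrder Matrix
open Set Filter MeasureTheory

set_option linter.unusedVariables false

noncomputable section

namespace Pool.Agent.Lib.F4

open Pool.Agent.Lib.SV (E)
open Pool.Agent.Lib.HS32 Pool.Agent.Lib.HLK

namespace S371

variable {n : ℕ}

theorem nq_nonneg {T : Mat n} (h : T.PosSemidef) (v : E n) : 0 ≤ nq T v :=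
  (Complex.nonneg_iff.1 (h.dotProduct_mulVec_nonneg v)).1

theorem tr_nonneg {T H : Mat n} (hT : T.PosSemidef) (hH : H.PosSemidef) (P : Mat n) :
    0 ≤ (T * P * Hᵀ * Pᴴ).trace.re := by
  obtain ⟨W, rfl⟩ := Mf.psd_factor hT
  have h1 : (W * (P * Hᵀ * Pᴴ) * Wᴴ).PosSemidef :=
    (hH.transpose.mul_mul_conjTranspose_same P).mul_mul_conjTranspose_same W
  have h2 : (Wᴴ * W * P * Hᵀ * Pᴴ).trace = (W * (P * Hᵀ * Pᴴ) * Wᴴ).trace := by
    rw [Matrix.trace_mul_comm (W * (P * Hᵀ * Pᴴ))]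
    simp only [Matrix.mul_assoc]
  rw [h2]
  exact (Complex.nonneg_iff.1 h1.trace_nonneg).1

theorem nq_add (A B : Mat n) (c : ℝ) (v : E n) : nq (A + c • B) v = nq A v + c * nq B v := by
  simp only [nq, Matrix.add_mulVec, Matrix.smul_mulVec, dotProduct_add, dotProduct_smul,
    Complex.add_re, Complex.real_smul, Complex.mul_re, Complex.ofReal_re, Complex.ofReal_im,
    zero_mul, sub_zero]

theorem tr_add (A B H P : Mat n) (c : ℝ) : ((A + c • B) * P * Hᵀ * Pᴴ).trace.re =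
    (A * P * Hᵀ * Pᴴ).trace.re + c * (B * P * Hᵀ * Pᴴ).trace.re := by
  simp only [Matrix.add_mul, Matrix.smul_mul, Matrix.trace_add, Matrix.trace_smul,
    Complex.add_re, Complex.real_smul, Complex.mul_re, Complex.ofReal_re, Complex.ofReal_im,
    zero_mul, sub_zero]

end S371

open S371 in
theorem st_S3 (h4 : St_PW4) (h2 : St_S2K) (h3 : St_MUS) (hD : St_DVC) (hV : St_SKV)
    (hP : St_SKP) (hI : St_PSI) : St_S3 := by
  intro M _ H S P V W α hK hd
  have hH : M.Met H := hK.toMet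
  obtain ⟨-, k2, -, -, k5, k6, k7, k8⟩ := h2 4 M H hH
  obtain ⟨m1, m2, -⟩ := h3 4 M H α hH hd.hα
  obtain ⟨e1, -, -, e4, e5, e6, -, -, e9, -⟩ := mHES 4 M
  have hint := (mMU 4 M H hH).2.2.2.2.1
  have hW : SK M W := k2 W hd.hW
  obtain ⟨C1, hC1, b1⟩ := (k5 S hd.hS).exists_bound
  obtain ⟨C2, hC2, b2⟩ := (k7 H W hH.toTen hW).exists_bound
  have hA1 : 0 ≤ ∫ x, qV M H H W x ∂M.mu H := integral_nonneg fun x =>
    div_nonneg (nq_nonneg (hH.ev_pos x).posSemidef _) (Mf.pd_det_re (hH.ev_pos x)).le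
  have hA2 : 0 ≤ ∫ x, qP M H H P x ∂M.mu H := integral_nonneg fun x =>
    div_nonneg (tr_nonneg (hH.ev_pos x).posSemidef (hH.ev_pos x).posSemidef _)
      (Mf.pd_det_re (hH.ev_pos x)).le
  refine ⟨2 * C1 * (∫ x, qV M H H W x ∂M.mu H) + 2 * C2 * ∫ x, qP M H H P x ∂M.mu H,
    by positivity, fun ε u hε hu hle => ?_⟩
  obtain ⟨w0, w1⟩ := e6 u hu
  obtain ⟨w2, -, w3⟩ := e5 1 0 (ph M H) (fun e z => u (e.symm z)) 0 m1 w0
  rw [add_zero] at w2
  set ψ : M.Fam ℝ := ph M H + fun e z => u (e.symm z) with hψ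
  have hc : M.Clo (M.hw ψ) := e4 1 ψ w2
  obtain ⟨⟨f, f1, f2⟩, Ψ, p1, p2'⟩ := hI M H S P V W α ψ hH hd w2
  have z1 : ∫ x, qV M H (M.hw ψ) W x ∂M.mu H = 0 :=
    hV 4 M H (M.hw ψ) W f hH hd.hW (hd.hyp.z0 1 one_ne_zero _ ((hD 4 M).1 W hd.hW)) f1 f2
  have z2 : ∫ x, qP M H (M.hw ψ) P x ∂M.mu H = 0 := hP 4 M H (M.hw ψ) P Ψ hK hd.hP p1 p2'
  set T : M.Fam (Mat 4) := -M.ric H + ε • H + M.hs u with hT
  have hTf : M.Form T := ((e9 H hH).toForm.neg.add (hH.toForm.smul ε)).add (e1 u hu).toForm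
  have hTe : ∀ x, M.ev T x = M.ev (M.hw ψ) x + ε • M.ev H x := fun x => by
    have h := (Mf.AllOn.ch w3 x).1
    rw [m2, w1] at h
    simp only [Mf.ev, hT, Pi.add_apply, Pi.smul_apply, Pi.neg_apply] at h ⊢
    rw [h]
    abel
  have hTp : ∀ x, (M.ev T x).PosSemidef := fun x => by
    have h := Mf.AllOn.ch hle x
    simpa only [Pi.zero_apply, sub_zero, Mf.ev] using h
  have qa : ∀ x, qV M H T W x = qV M H (M.hw ψ) W x + ε * qV M H H W x := fun x => by
    change nq (M.ev T x) (M.ev W x) / (M.ev H x).det.re =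
      nq (M.ev (M.hw ψ) x) (M.ev W x) / (M.ev H x).det.re +
        ε * (nq (M.ev H x) (M.ev W x) / (M.ev H x).det.re)
    rw [hTe, nq_add]
    ring
  have qb : ∀ x, qP M H T P x = qP M H (M.hw ψ) P x + ε * qP M H H P x := fun x => by
    change (M.ev T x * M.ev P x * (M.ev H x)ᵀ * (M.ev P x)ᴴ).trace.re / (M.ev H x).det.re =
      (M.ev (M.hw ψ) x * M.ev P x * (M.ev H x)ᵀ * (M.ev P x)ᴴ).trace.re / (M.ev H x).det.re +
        ε * ((M.ev H x * M.ev P x * (M.ev H x)ᵀ * (M.ev P x)ᴴ).trace.re / (M.ev H x).det.re)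
    rw [hTe, tr_add]
    ring
  obtain ⟨-, -, k9⟩ := k6 α hd.hα
  obtain ⟨r1, r2, -⟩ := k9 T
  have pt : ∀ x, mx M H T (aa M H α) x ≤ 2 * C1 * qV M H T W x + 2 * C2 * qP M H T P x :=
    fun x => by
    have hp := hH.ev_pos x
    have hd0 := Mf.pd_det_re hp
    have h := h4 (M.ev H x) (M.ev S x) (M.ev T x) (M.ev W x) hp (Mf.AllOn.ch hd.hS.alt x) (hTp x)
    have ea : M.ev α x = M.ev W x ᵥ* M.ev S x := hd.eα _ _
    have eP : M.ev P x = st (M.ev S x) := hd.eP _ _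
    have c1 : (p2 (M.ev H x) (M.ev S x) (M.ev S x)).re ≤ C1 := (le_abs_self _).trans (b1 x)
    have c2' : nq (M.ev H x) (M.ev W x) / (M.ev H x).det.re ≤ C2 := (le_abs_self _).trans (b2 x)
    have n1 := nq_nonneg (hTp x) (M.ev W x)
    have n2' := tr_nonneg (hTp x) hp.posSemidef (st (M.ev S x))
    rw [r1 x hTf, ea]
    change _ ≤ 2 * C1 * (nq (M.ev T x) (M.ev W x) / (M.ev H x).det.re) + 2 * C2 *
      ((M.ev T x * M.ev P x * (M.ev H x)ᵀ * (M.ev P x)ᴴ).trace.re / (M.ev H x).det.re)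
    rw [eP, ← mul_div_assoc, ← mul_div_assoc, ← add_div]
    refine div_le_div_of_nonneg_right (h.trans ?_) hd0.le
    have := mul_le_mul_of_nonneg_right c1 n1
    have := mul_le_mul_of_nonneg_right c2' n2'
    nlinarith
  have i1 := hint ℝ _ (k7 (M.hw ψ) W hc.toTen hW).continuous
  have i2 := hint ℝ _ (k7 H W hH.toTen hW).continuous
  have i3 := hint ℝ _ (k8 (M.hw ψ) P hc.toTen hd.hP).continuous
  have i4 := hint ℝ _ (k8 H P hH.toTen hd.hP).continuous
  have i5 := hint ℝ _ (k7 T W hTf.toTen hW).continuous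
  have i6 := hint ℝ _ (k8 T P hTf.toTen hd.hP).continuous
  have j1 : ∫ x, qV M H T W x ∂M.mu H = ε * ∫ x, qV M H H W x ∂M.mu H := by
    simp only [qa]
    rw [integral_add i1 (i2.const_mul ε), z1, integral_const_mul, zero_add]
  have j2 : ∫ x, qP M H T P x ∂M.mu H = ε * ∫ x, qP M H H P x ∂M.mu H := by
    simp only [qb]
    rw [integral_add i3 (i4.const_mul ε), z2, integral_const_mul, zero_add]
  calc ∫ x, mx M H T (aa M H α) x ∂M.mu H
      ≤ ∫ x, (2 * C1 * qV M H T W x + 2 * C2 * qP M H T P x) ∂M.mu H :=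
        integral_mono (hint ℝ _ (r2 hTf.toTen).continuous)
          ((i5.const_mul _).add (i6.const_mul _)) pt
    _ = _ := by
        rw [integral_add (i5.const_mul _) (i6.const_mul _), integral_const_mul,
          integral_const_mul, j1, j2]
        ring

end Pool.Agent.Lib.F4
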