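import Pool.Agent.Lib.F4.BlueS

/-! Project f4: the approximate invariant densities. -/

open scoped Classical Topology ContDiff ComplexOrder Matrix
open Set Filter MeasureTheory

noncomputable section

namespace Pool.Agent.Lib.F4

open Pool.Agent.Lib.SV (E)
open Pool.Agent.Lib.HS32 Pool.Agent.Lib.HLK

namespace S4

theorem gram {A B X : ℝ} (hA : 0 ≤ A) (hB : 0 ≤ B) (h : X ^ 2 ≤ A * B) (p q : ℝ) :
    0 ≤ p ^ 2 * A + 2 * p * q * X + q ^ 2 * B := by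
  have h1 : (2 * p * q * X) ^ 2 ≤ (p ^ 2 * A + q ^ 2 * B) ^ 2 := by
    nlinarith [sq_nonneg (p ^ 2 * A - q ^ 2 * B), mul_le_mul_of_nonneg_left h (sq_nonneg (p * q))]
  have h2 := abs_le_of_sq_le_sq' h1 (by positivity)
  linarith [h2.1]

theorem num {δ t : ℝ} (hδ : 0 < δ) (h1 : δ ≤ 1) (ht : 1 ≤ t) :
    1 / 2 ≤ t / (1 + δ * t) ∧ t / (1 + δ * t) ≤ 1 / δ ∧
    t / (1 + δ * t) ≤ Real.log (1 + δ * t) / δ ∧ Real.log (1 + δ * t) / δ ≤ t ∧
    t - t / (1 + δ * t) ≤ δ * t ^ 2 := by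
  have p : 0 < δ * t := by positivity
  have q : 0 < 1 + δ * t := by positivity
  refine ⟨?_, ?_, ?_, ?_, ?_⟩
  · rw [div_le_div_iff₀ two_pos q]; nlinarith
  · rw [div_le_div_iff₀ q hδ]; nlinarith
  · rw [le_div_iff₀ hδ]
    refine le_trans (le_of_eq ?_) (Real.one_sub_inv_le_log_of_pos q)
    field_simp
    ring
  · rw [div_le_iff₀ hδ]
    have := Real.log_le_sub_one_of_pos q
    linarith
  · rw [sub_le_iff_le_add, ← sub_le_iff_le_add', le_div_iff₀ q]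
    nlinarith [mul_pos p p, mul_pos (mul_pos p p) (lt_of_lt_of_le one_pos ht)]

theorem ineq {A B X t s W C δ : ℝ} (hA : 0 ≤ A) (hB : 0 ≤ B) (h : X ^ 2 ≤ A * B) (ht : 1 ≤ t)
    (h0 : 0 ≤ W) (hW : W ≤ t) (hC : B ≤ C) (hd : t - W ≤ δ * t ^ 2) :
    ((t * s) ^ 2 * A + 2 * (t * s) * W * X + W ^ 2 * B) / t ≤
      2 * ((t * s * X + W * B) + (t * s ^ 2 * A + t * s * X)) + 4 * C * δ * t ^ 2 := by
  have tp : 0 < t := lt_of_lt_of_le one_pos ht
  have g := gram hA hB h (t * s) (2 * t - W)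
  have d0 : 0 ≤ t - W := sub_nonneg.2 hW
  have e1 : (t - W) * B ≤ δ * t ^ 2 * C := mul_le_mul hd hC hB (d0.trans hd)
  have e2 : (t - W) ^ 2 * B ≤ t * ((t - W) * B) := by
    have := mul_nonneg h0 (mul_nonneg d0 hB)
    nlinarith
  rw [div_le_iff₀ tp]
  nlinarith [mul_le_mul_of_nonneg_left e1 tp.le]

theorem dW {δ : ℝ} (hδ : 0 < δ) (y : ℝ) : HasDerivAt (fun y => Real.log (1 + δ * Real.exp (-y)) / δ)
    (-(Real.exp (-y) / (1 + δ * Real.exp (-y)))) y := by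
  have q : 0 < 1 + δ * Real.exp (-y) := by positivity
  have h := ((((hasDerivAt_neg y).exp.const_mul δ).const_add 1).log q.ne').div_const δ
  refine h.congr_deriv ?_
  field_simp

theorem df {δ : ℝ} (hδ : 0 < δ) (y : ℝ) :
    HasDerivAt (fun y => Real.exp (-y) / (1 + δ * Real.exp (-y)))
      (-(Real.exp (-y) * (1 / (1 + δ * Real.exp (-y))) ^ 2)) y := by
  have q : 0 < 1 + δ * Real.exp (-y) := by positivity
  have h := (hasDerivAt_neg y).exp.div (((hasDerivAt_neg y).exp.const_mul δ).const_add 1) q.ne'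
  refine h.congr_deriv ?_
  field_simp
  ring

variable {n : ℕ} {M : Mf n} {H : M.Fam (Mat n)}

theorem mx_add (S T A : M.Fam (Mat n)) (x : M.X) :
    mx M H (S + T) A x = mx M H S A x + mx M H T A x := by
  simp only [mx, Mf.tr_add, Mf.ip_comm (T := A), Mf.ip_add]
  ring

theorem mx_smul (c : ℝ) (S A : M.Fam (Mat n)) (x : M.X) :
    mx M H (c • S) A x = c * mx M H S A x := by
  simp only [mx, Mf.tr_smul, Mf.ip_comm (T := A), Mf.ip_smul]
  ring

theorem c2_lin (h1 : St_PW1) {b a m : M.Fam (Mat n)} {x : M.X} {p q : ℝ}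
    (h : M.ev b x = (p : ℂ) • M.ev a x - (q : ℂ) • M.ev m x) (k : M.Fam (Mat n)) :
    (c2 M H k b x).re = p * (c2 M H k a x).re - q * (c2 M H k m x).re ∧
    (c2 M H b k x).re = p * (c2 M H a k x).re - q * (c2 M H m k x).re := by
  have e : ∀ k k', c2 M H k k' x = p2 (M.ev H x) (M.ev k x) (M.ev k' x) / (M.ev H x).det :=
    fun _ _ => rfl
  have l := (h1 n (M.ev H x)).1
  simp only [e, h]
  rw [(l _ _ _ 0).2.2.2.1, (l _ _ 0 _).2.2.2.2.2, (l _ _ 0 _).2.2.2.2.2, (l _ _ _ 0).2.2.1,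
    (l _ _ 0 _).2.2.2.2.1, (l _ _ 0 _).2.2.2.2.1]
  simp only [RCLike.star_def, Complex.conj_ofReal, sub_div, mul_div_assoc, Complex.sub_re,
    Complex.re_ofReal_mul, and_self]

theorem step (h1 : St_PW1) (h2 : St_S2K) (h3 : St_MUS) (h4 : St_THA) [M.Cpt] {α : M.Fam (E n)}
    (hH : M.Kae H) (hα : H1 M 1 α) (hS : Sm3 M H α) : ∃ K : ℝ, 0 ≤ K ∧ ∀ (ε δ : ℝ) (u : M.X → ℝ),
    0 ≤ ε → 0 < δ → δ ≤ 1 → M.Sm u → (∀ x, u x ≤ 0) → M.Met (-M.ric H + ε • H + M.hs u) →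
    ∃ F, M.Sm F ∧ (∀ x, 1 / 2 ≤ F x ∧ F x ≤ Real.exp (-u x)) ∧
      ∫ x, n2 M H (bet M H α F) x / Real.exp (-u x) ∂M.mu H ≤
        K * (δ * ∫ x, Real.exp (-u x) ^ 2 ∂M.mu H + ε / δ) := by
  have hm := hH.toMet
  obtain ⟨-, -, k3, k4, -, k6, -⟩ := h2 n M H hm
  obtain ⟨w0, w1, m1, m2⟩ := h3 n M H α hm hα
  have ig := (mMU n M H hm).2.2.2.2.1 ℝ
  have kx := (k6 α hα).2.2
  have hm0 := (m1 _ w0).1
  have hθ : M.Clo (-M.ric H) := w1 ▸ (mHES n M).2.2.2.1 _ _ w0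
  obtain ⟨C1, c1, b1⟩ := (k3 _ _ hm0 hm0).2.2.2.2.2.1.exists_bound
  obtain ⟨C2, c2p, b2⟩ := ((kx _).2.1 hθ.toTen).exists_bound
  obtain ⟨C3, c3, b3⟩ := hS
  refine ⟨4 * C1 + 2 * C2 + 2 * C3, by positivity, fun ε δ u hε hδ hδ1 hu hu0 hω => ?_⟩
  have st : M.Sm fun x => Real.exp (-u x) := hu.neg.exp
  have t1 : ∀ x, 1 ≤ Real.exp (-u x) := fun x => Real.one_le_exp (neg_nonneg.2 (hu0 x))
  have q0 : ∀ x, 1 + δ * Real.exp (-u x) ≠ 0 := fun x => by positivity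
  have sq : M.Sm fun x => 1 + δ * Real.exp (-u x) := (Mf.sm_const 1).add (st.const_mul δ)
  have sW : M.Sm fun x => Real.log (1 + δ * Real.exp (-u x)) / δ :=
    (sq.log q0).div (Mf.sm_const δ) fun _ => hδ.ne'
  have sf : M.Sm fun x => Real.exp (-u x) / (1 + δ * Real.exp (-u x)) := st.div sq q0
  have nm := fun x => num hδ hδ1 (t1 x)
  refine ⟨_, sW, fun x => ⟨(nm x).1.trans (nm x).2.2.1, (nm x).2.2.2.1⟩, ?_⟩
  obtain ⟨ha, -, -, -, ch⟩ := m2 u hu
  have eb : ∀ (g g' : ℝ → ℝ), (∀ y, HasDerivAt g (g' y) y) → ∀ x,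
      M.ev (bet M H α fun x => g (u x)) x = (g' (u x) : ℂ) • M.ev (da M u α) x -
        (g (u x) : ℂ) • M.ev (mu M (ph M H) α) x := fun g g' hg x => by
    have := Mf.AllOn.ch (ch g g' fun x => hg _) x
    simp only [Mf.ch_symm] at this
    simp only [Mf.ev, bet, this, Mf.ch_symm]
  have eW := fun x => c2_lin (H := H) h1 (eb _ _ (dW hδ) x)
  have ef := fun x => c2_lin (H := H) h1 (eb _ _ (df hδ) x)
  have sy : ∀ x, (c2 M H (mu M (ph M H) α) (da M u α) x).re =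
      (c2 M H (da M u α) (mu M (ph M H) α) x).re := fun x => by
    rw [← (k4 (da M u α) (mu M (ph M H) α) x).1]; rfl
  have i1 := (h4 n M H α _ hH hα sW).1 _ w0
  have i2 := (h4 n M H α _ hH hα sf).2.1 u hu
  rw [w1] at i1
  have hbW := (m2 _ sW).2.1
  have hbf := (m2 _ sf).2.1
  have sθ := (kx _).2.1 hθ.toTen
  have su := (kx _).2.1 ((mHES n M).1 u hu).toTen
  have sω := (kx _).2.1 hω.toTen
  have r1 := (k3 _ _ hm0 hbW).2.2.2.2.1.re
  have r2 := (k3 _ _ ha hbf).2.2.2.2.1.re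
  have j1 := ig _ r1.continuous
  have j2 := ig _ r2.continuous
  have j3 := ig _ (st.pow 2).continuous
  have j4 := ig _ (sW.mul sθ).continuous
  have j5 := ig _ (sf.mul su).continuous
  have j6 := ig _ sω.continuous
  have s1 : ∫ x, n2 M H (bet M H α fun x => Real.log (1 + δ * Real.exp (-u x)) / δ) x /
      Real.exp (-u x) ∂M.mu H ≤ ∫ x, (2 * (-(c2 M H (mu M (ph M H) α)
        (bet M H α fun x => Real.log (1 + δ * Real.exp (-u x)) / δ) x).re + -(c2 M H (da M u α)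
        (bet M H α fun x => Real.exp (-u x) / (1 + δ * Real.exp (-u x))) x).re) +
        4 * C1 * δ * Real.exp (-u x) ^ 2) ∂M.mu H := by
    refine integral_mono (ig _ ((k3 _ _ hbW hbW).2.2.2.2.2.1.div st fun x =>
      (Real.exp_pos _).ne').continuous) (((j1.neg.add j2.neg).const_mul 2).add (j3.const_mul _))
      fun x => ?_
    have cs : (c2 M H (da M u α) (mu M (ph M H) α) x).re ^ 2 ≤ _ :=
      le_trans (sq_le_sq.2 ((Complex.abs_re_le_norm _).trans (le_abs_self _))) (k4 _ _ x).2.2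
    have z := ineq (s := 1 / (1 + δ * Real.exp (-u x))) (k4 (da M u α) 0 x).2.1
      (k4 (mu M (ph M H) α) 0 x).2.1 cs (t1 x) (le_trans (by norm_num) ((nm x).1.trans (nm x).2.2.1))
      (nm x).2.2.2.1 ((le_abs_self _).trans (b1 x))
      (le_trans (sub_le_sub_left (nm x).2.2.1 _) (nm x).2.2.2.2)
    simp only [n2] at z ⊢
    rw [(eW x _).1, (eW x _).2, (eW x _).2, (eW x _).1, (ef x _).1, sy x]
    rw [mul_one_div] at z
    refine le_trans (le_of_eq ?_) (z.trans (le_of_eq ?_)) <;> ring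
  have s2 : ∫ x, (Real.log (1 + δ * Real.exp (-u x)) / δ * mx M H (-M.ric H) (aa M H α) x +
      Real.exp (-u x) / (1 + δ * Real.exp (-u x)) * mx M H (M.hs u) (aa M H α) x) ∂M.mu H ≤
      ∫ x, (C2 * δ * Real.exp (-u x) ^ 2 +
        1 / δ * mx M H (-M.ric H + ε • H + M.hs u) (aa M H α) x) ∂M.mu H := by
    refine integral_mono (j4.add j5) ((j3.const_mul _).add (j6.const_mul _)) fun x => ?_
    obtain ⟨a1, a2, a3, a4, a5⟩ := nm x
    have p1 := (kx _).2.2 hω.toForm hω.nonneg x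
    have p2 := (kx _).2.2 hm.toForm hm.nonneg x
    have p3 := mul_le_mul_of_nonneg_right a2 p1
    have p4 := mul_nonneg (le_trans (by norm_num) a1) (mul_nonneg hε p2)
    have p6 : (Real.log (1 + δ * Real.exp (-u x)) / δ -
        Real.exp (-u x) / (1 + δ * Real.exp (-u x))) * mx M H (-M.ric H) (aa M H α) x ≤
        δ * Real.exp (-u x) ^ 2 * C2 :=
      (mul_le_mul_of_nonneg_left ((le_abs_self _).trans (b2 x)) (sub_nonneg.2 a3)).trans
        (mul_le_mul_of_nonneg_right ((sub_le_sub_right a4 _).trans a5) c2p.le)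
    simp only [mx_add, mx_smul] at p3 ⊢
    nlinarith
  have j7 := ig _ (r1.neg.add r2.neg).continuous
  rw [integral_add (j7.const_mul 2) (j3.const_mul _), integral_const_mul, integral_const_mul,
    integral_add (ig _ r1.neg.continuous) (ig _ r2.neg.continuous), integral_neg, integral_neg,
    ← i1, ← i2] at s1
  rw [integral_add j4 j5, integral_add (j3.const_mul _) (j6.const_mul _), integral_const_mul,
    integral_const_mul] at s2
  have s3 := mul_le_mul_of_nonneg_left (b3 ε u hε hu hω.nonneg) (one_div_pos.2 hδ).le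
  have s4 : 0 ≤ δ * ∫ x, Real.exp (-u x) ^ 2 ∂M.mu H :=
    mul_nonneg hδ.le (integral_nonneg fun x => sq_nonneg _)
  have s5 : 0 ≤ ε / δ := div_nonneg hε hδ.le
  have s6 : 1 / δ * (C3 * ε) = C3 * (ε / δ) := by ring
  nlinarith [mul_nonneg c3 s4, mul_nonneg c1.le s5, mul_nonneg c2p.le s5]

end S4

theorem st_S4 (h1 : St_PW1) (h2 : St_S2K) (h3 : St_MUS) (h4 : St_THA) : St_S4 := by
  intro n M _ H α a hH hα hO hS
  obtain ⟨K, hK, st⟩ := S4.step h1 h2 h3 h4 hH hα hS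
  have hm := hH.toMet
  have ig := (mMU n M H hm).2.2.2.2.1 ℝ
  have d0 : ∀ j : ℕ, (0 : ℝ) < 1 / (j + 1) := fun j => Nat.one_div_pos_of_nat
  have d1 : ∀ j : ℕ, (1 : ℝ) / (j + 1) ≤ 1 := fun j => by
    rw [div_le_one (by positivity)]; linarith [(Nat.cast_nonneg j : (0 : ℝ) ≤ j)]
  have e1 : ∀ j : ℕ, ((1 : ℝ) / (j + 1)) ^ 2 ∈ Ioc (0 : ℝ) 1 := fun j =>
    ⟨pow_pos (d0 j) 2, pow_le_one₀ (d0 j).le (d1 j)⟩
  have l0 : Tendsto (fun j : ℕ => (1 : ℝ) / (j + 1)) atTop (𝓝 0) :=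
    tendsto_one_div_add_atTop_nhds_zero_nat
  choose F hF using fun j : ℕ => st _ _ _ (e1 j).1.le (d0 j) (d1 j) (hO.sm _ (e1 j))
    (hO.le _ (e1 j)) (by simpa only [zero_sub] using (hO.kae _ (e1 j)).toMet)
  have sm := fun j : ℕ => (hO.sm _ (e1 j)).neg.exp
  have ev : ∀ p : ℕ, ∃ C : ℝ, ∀ᶠ j : ℕ in atTop,
      ∫ x, Real.exp (-a ((1 / (j + 1)) ^ 2) x) ^ p ∂M.mu H ≤ C := fun p => by
    obtain ⟨ε₀, C, p0, hC⟩ := hO.itg (p + 1 : ℕ) (by positivity)
    have l1 := l0.pow 2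
    rw [zero_pow two_ne_zero] at l1
    refine ⟨C, (l1.eventually (ge_mem_nhds p0)).mono fun j hj => le_trans (integral_mono
      (ig _ ((sm j).pow p).continuous) (ig _ (((hO.sm _ (e1 j)).const_mul _).neg.exp.continuous))
      fun x => ?_) (hC _ (e1 j) hj)⟩
    beta_reduce
    rw [← mul_neg, Real.exp_nat_mul]
    exact pow_le_pow_right₀ (Real.one_le_exp (neg_nonneg.2 (hO.le _ (e1 j) x))) p.le_succ
  refine ⟨F, fun j x => Real.exp (-a ((1 / (j + 1)) ^ 2) x), fun j => (hF j).1, sm,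
    ⟨1 / 2, by norm_num, fun j x => ((hF j).2.1 x).1⟩, fun j x => ((hF j).2.1 x).2,
    fun p => ?_, ?_⟩
  · obtain ⟨C, hC⟩ := ev p
    obtain ⟨C', hC'⟩ := (show IsBoundedUnder (· ≤ ·) atTop _ from ⟨C, hC⟩).bddAbove_range
    exact ⟨C', fun j => hC' ⟨j, rfl⟩⟩
  · obtain ⟨C, hC⟩ := ev 2
    have l2 := (l0.mul_const (C + 1)).const_mul K
    rw [zero_mul, mul_zero] at l2
    refine squeeze_zero' (Eventually.of_forall fun j => integral_nonneg fun x => div_nonneg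
      ((h2 n M H hm).2.2.2.1 _ 0 x).2.1 (Real.exp_pos _).le) (hC.mono fun j hj => ?_) l2
    refine (hF j).2.2.trans (mul_le_mul_of_nonneg_left ?_ hK)
    rw [mul_add]
    refine add_le_add (mul_le_mul_of_nonneg_left hj (d0 j).le) (le_of_eq ?_)
    rw [sq, mul_div_assoc, div_self (d0 j).ne']

end Pool.Agent.Lib.F4
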