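import Pool.Agent.Lib.F4.BlueS
import Pool.Agent.Lib.HS32.MAll

/-! Project f4, row SKP: the identity of Stokes type for a bivector. -/

open scoped Classical Topology ContDiff ComplexOrder Matrix
open Set Filter MeasureTheory

set_option linter.unusedVariables false

noncomputable section

namespace Pool.Agent.Lib.F4

open Pool.Agent.Lib.SV (E)
open Pool.Agent.Lib.HS32 Pool.Agent.Lib.HLK

namespace SKP

variable {n : ℕ}

/-- The field whose divergence is integrated. -/
def ww (H P : E n → Mat n) (Ψ : E n → E n) (z : E n) : E n :=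
  fun l => ∑ b, star (P z l b) * ∑ a, H z b a * Ψ z a

theorem star_ww (H P : E n → Mat n) (Ψ : E n → E n) (z : E n) :
    star (ww H P Ψ z) = P z *ᵥ star (H z *ᵥ Ψ z) := by
  funext l
  simp only [ww, Pi.star_apply, star_sum, star_mul', star_star, Matrix.mulVec, dotProduct]

theorem skew_sum (A B : Mat n) (hA : Aᵀ = -A) (hB : ∀ l b, B l b = B b l) :
    ∑ l, ∑ b, star (A l b) * B l b = 0 := by
  have h : ∑ l, ∑ b, star (A l b) * B l b = -∑ l, ∑ b, star (A l b) * B l b := by
    conv_lhs => rw [Finset.sum_comm]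
    rw [← Finset.sum_neg_distrib]
    refine Finset.sum_congr rfl fun l _ => ?_
    rw [← Finset.sum_neg_distrib]
    refine Finset.sum_congr rfl fun b _ => ?_
    have e : A b l = -A l b := congrFun (congrFun hA l) b
    rw [e, star_neg, hB b l]
    ring
  linear_combination h / 2

theorem dvb_ww {H P : E n → Mat n} {Ψ : E n → E n} {z : E n} (hH : SmM H z)
    (hh : ∀ᶠ w in 𝓝 z, (H w).IsHermitian) (hc : ClM H z) (hP : SmM P z) (hs : (P z)ᵀ = -P z)
    (hΨ : ContDiffAt ℝ ∞ Ψ z) :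
    dvb (ww H P Ψ) z = star (dvM P z) ⬝ᵥ H z *ᵥ Ψ z +
      ∑ l, ∑ b, star (P z l b) * ∑ a, H z b a * dzb l (fun w => Ψ w a) z := by
  have dΨ : ∀ a, DifferentiableAt ℝ (fun w => Ψ w a) z := fun a => cd_diff (contDiffAt_pi.1 hΨ a)
  have dS : ∀ b, DifferentiableAt ℝ (fun w => ∑ a, H w b a * Ψ w a) z := fun b =>
    DifferentiableAt.fun_sum fun a _ => (hH.diff b a).fun_mul (dΨ a)
  have h1 : ∀ l, dzb l (fun w => ww H P Ψ w l) z =
      ∑ b, (star (dz l (fun w => P w l b) z) * ∑ a, H z b a * Ψ z a +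
        star (P z l b) * ∑ a, dMb l H z b a * Ψ z a +
        star (P z l b) * ∑ a, H z b a * dzb l (fun w => Ψ w a) z) := fun l => by
    simp only [ww]
    rw [dzb_sum fun b _ => (diff_star (hP.diff l b)).fun_mul (dS b)]
    refine Finset.sum_congr rfl fun b _ => ?_
    rw [dzb_mul (diff_star (hP.diff l b)) (dS b), dzb_star (hP.diff l b),
      dzb_sum fun a _ => (hH.diff b a).fun_mul (dΨ a), add_assoc, ← mul_add,
      ← Finset.sum_add_distrib]
    congr 2
    refine Finset.sum_congr rfl fun a _ => ?_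
    rw [dzb_mul (hH.diff b a) (dΨ a)]
    rfl
  have h2 : ∑ l, ∑ b, star (P z l b) * ∑ a, dMb l H z b a * Ψ z a = 0 :=
    skew_sum (P z) (Matrix.of fun l b => ∑ a, dMb l H z b a * Ψ z a) hs fun l b => by
      simp only [Matrix.of_apply]
      refine Finset.sum_congr rfl fun a _ => ?_
      rw [dMb_herm hH hh, dMb_herm hH hh, Matrix.conjTranspose_apply, Matrix.conjTranspose_apply,
        hc a b l]
  simp only [dvb, h1, Finset.sum_add_distrib, h2, add_zero]
  congr 1
  rw [Finset.sum_comm]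
  simp only [dotProduct, Matrix.mulVec, dvM, Pi.star_apply, star_sum, Finset.sum_mul]

variable {M : Mf n} {H P : M.Fam (Mat n)} {Ψ : M.Fam (E n)}

theorem smP (hP : HB M 1 P) : M.All fun e z => SmM (P e) z := fun e he z hz i j =>
  ((mHOL n _ z).2.2 (hP.hol e he z hz i j)).1

theorem vden (hH : M.Met H) (hP : HB M 1 P) (hΨ : SK M Ψ) :
    M.VDen fun e z => star (ww (H e) (P e) (Ψ e) z) := by
  refine ⟨fun e he z hz => ?_, fun e he e' he' x hx hx' => ?_⟩
  · simp only [star_ww]
    exact (smP hP e he z hz).mulVec (contDiffAt_pi.2 fun l =>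
      cd_star (contDiffAt_pi.1 ((hH.sm e he z hz).mulVec (hΨ.sm e he z hz)) l))
  have h1 := hP.cmp e he e' he' x hx hx'
  have h2 := hΨ.cmp e he e' he' x hx hx'
  have h3 := hH.cmp e he e' he' x hx hx'
  beta_reduce at h1 h2 h3 ⊢
  rw [zpow_one] at h1
  have h4 : star (H e' (e' x) *ᵥ Ψ e' (e' x)) =
      star (jd M e e' x) • (M.J e e' x)ᵀ *ᵥ star (H e (e x) *ᵥ Ψ e (e x)) := by
    rw [h3, ← Matrix.mulVec_mulVec, h2, Matrix.mulVec_smul, star_smul, ← Matrix.mulVec_mulVec,
      Matrix.star_mulVec, Matrix.conjTranspose_conjTranspose, Matrix.mulVec_transpose]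
  rw [star_ww, star_ww, h4, Matrix.mulVec_smul, Matrix.mulVec_smul, Matrix.mulVec_mulVec,
    Matrix.mulVec_mulVec, h1, Matrix.smul_mulVec, smul_smul, Complex.normSq_eq_conj_mul_self]
  rfl

theorem int_re [M.Cpt] (hH : M.Kae H) (hP : HB M 1 P) (hΨ : SK M Ψ) {Φ : M.Fam ℂ}
    (hΦ : M.All fun e z => Φ e z = dvb (ww (H e) (P e) (Ψ e)) z) :
    M.Rep (M.ev fun e z => (Φ e z).re / (H e z).det.re) (fun e z => (Φ e z).re / (H e z).det.re) ∧
    Continuous (M.ev fun e z => (Φ e z).re / (H e z).det.re) ∧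
    ∫ x, M.ev (fun e z => (Φ e z).re / (H e z).det.re) x ∂M.mu H = 0 := by
  obtain ⟨i1, i2, i3⟩ := (mDIV n M H hH.toMet).2.2 _ (vden hH.toMet hP hΨ)
  have key : M.All fun e z => (Φ e z).re / (H e z).det.re =
      (dvb (ww (H e) (P e) (Ψ e)) z / (H e z).det).re := fun e he z hz => by
    beta_reduce
    rw [hΦ e he z hz]
    conv_rhs => rw [← Mf.herm_det (hH.herm e he z hz), Complex.div_ofReal_re]
  have e1 : (M.ev fun e z => (Φ e z).re / (H e z).det.re) = fun x =>
      (M.ev (fun e z => dvb (ww (H e) (P e) (Ψ e)) z / (H e z).det) x).re := Mf.ev_congr key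
  refine ⟨fun e he z hz => ?_, ?_, ?_⟩
  · beta_reduce
    rw [key e he z hz, e1]
    exact congrArg Complex.re (i1.rep e he z hz)
  · rw [e1]
    exact Complex.continuous_re.comp i2.continuous
  · rw [e1]
    have h := integral_re (𝕜 := ℂ) ((mMU n M H hH.toMet).2.2.2.2.1 ℂ _ i2.continuous)
    rw [i3 inferInstance] at h
    exact h

theorem dv0 [M.Cpt] (h2 : St_S2K) (hD : St_DVC) (hH : M.Kae H) (hP : HB M 1 P) :
    M.All fun e z => dvM (P e) z = 0 := by
  have hV := (hD n M).2 P hP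
  obtain ⟨r1, r2, r3⟩ := int_re hH hP ((h2 n M H hH.toMet).2.1 _ hV)
    (Φ := fun e z => star (dvM (P e) z) ⬝ᵥ H e z *ᵥ dvM (P e) z) fun e he z hz => by
      beta_reduce
      rw [dvb_ww (hH.sm e he z hz) (hH.herm.ev he hz) (hH.cl e he z hz) (smP hP e he z hz)
        (hP.alt e he z hz) (((h2 n M H hH.toMet).2.1 _ hV).sm e he z hz)]
      have h0 : ∀ l a, dzb l (fun w => dvM (P e) w a) z = 0 := fun l a =>
        ((mHOL n _ z).1 ((hV.hol e he z hz a).self_of_nhds.restrictScalars ℝ)).1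
          (hV.hol e he z hz a).self_of_nhds l
      simp only [h0, mul_zero, Finset.sum_const_zero, add_zero]
  have := (mMU n M H hH.toMet).2.2.1
  have := (mMU n M H hH.toMet).2.1
  have nn : ∀ x, 0 ≤ M.ev (fun e z =>
      (star (dvM (P e) z) ⬝ᵥ H e z *ᵥ dvM (P e) z).re / (H e z).det.re) x := fun x =>
    div_nonneg (Complex.nonneg_iff.1 ((hH.toMet.ev_pos x).posSemidef.dotProduct_mulVec_nonneg _)).1
      (Mf.pd_det_re (hH.toMet.ev_pos x)).le
  have z0 := fun x => r2.integral_pos_of_hasCompactSupport_nonneg_nonzero (μ := M.mu H) (x := x)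
    (HasCompactSupport.of_compactSpace _) nn
  intro e he z hz
  by_contra hne
  have p1 : 0 < (star (dvM (P e) z) ⬝ᵥ H e z *ᵥ dvM (P e) z).re / (H e z).det.re :=
    div_pos (Complex.pos_iff.1 ((hH.pos e he z hz).dotProduct_mulVec_pos hne)).1
      (Mf.pd_det_re (hH.pos e he z hz))
  have p2 := r1 e he z hz
  beta_reduce at p2
  exact (z0 (e.symm z) (by rw [p2]; exact p1.ne')).ne' r3

end SKP

theorem st_SKP (h2 : St_S2K) (hD : St_DVC) : St_SKP := fun n M _ H T P Ψ hH hP hΨ hd =>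
  (SKP.int_re hH hP hΨ (Φ := fun e z => (T e z * P e z * (H e z)ᵀ * (P e z)ᴴ).trace)
    fun e he z hz => by
      beta_reduce
      rw [SKP.dvb_ww (hH.sm e he z hz) (hH.herm.ev he hz) (hH.cl e he z hz) (SKP.smP hP e he z hz)
        (hP.alt e he z hz) (hΨ.sm e he z hz), SKP.dv0 h2 hD hH hP e he z hz, star_zero,
        zero_dotProduct, zero_add]
      simp only [hd e he z hz]
      generalize T e z * P e z = A
      simp only [Matrix.trace, Matrix.diag_apply, Matrix.mul_apply, Matrix.transpose_apply,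
        Matrix.conjTranspose_apply]
      refine Finset.sum_congr rfl fun l _ => Finset.sum_congr rfl fun b _ => ?_
      rw [mul_comm]
      exact congrArg _ (Finset.sum_congr rfl fun a _ => mul_comm _ _)).2.2

end Pool.Agent.Lib.F4
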