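import Pool.Agent.Lib.F4.BlueS

/-! Project f4: the identity of Stokes type for a vector field without divergence. -/

open scoped Classical Topology ContDiff ComplexOrder Matrix
open Set Filter MeasureTheory

set_option linter.unusedVariables false

noncomputable section

namespace Pool.Agent.Lib.F4

open Pool.Agent.Lib.SV (E)
open Pool.Agent.Lib.HS32 Pool.Agent.Lib.HLK

theorem st_SKV : St_SKV := by
  intro n M hM H T V f hH hV hd hf hT
  have sV : M.All fun e z => ∀ i, ContDiffAt ℝ ∞ (fun w => V e w i) z := fun e he z hz i =>
    ((mHOL n _ z).2.2 (hV.hol e he z hz i)).1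
  obtain ⟨-, h2, h3⟩ := (mDIV n M H hH).2.2 (fun e z => f e z • star (V e z))
    ⟨fun e he z hz => contDiffAt_pi.2 fun i =>
      cd_star ((hf.sm e he z hz).mul (cd_star (sV e he z hz i))),
    fun e he e' he' x hx hx' => by
      have a := hV.cmp e he e' he' x hx hx'
      beta_reduce at a ⊢
      rw [star_smul, star_star, star_smul, star_star, Matrix.mulVec_smul, a,
        hf.cmp e he e' he' x hx hx', smul_smul, smul_smul, Complex.normSq_eq_conj_mul_self]
      congr 1
      simp only [pow_one, zpow_one, star_mul', RCLike.star_def]
      ring⟩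
  have i := (mMU n M H hH).2.2.2.2.1 _ _ h2.continuous
  have r := congrArg Complex.re (h3 hM)
  rw [Complex.zero_re, show ∀ z : ℂ, z.re = RCLike.re z from fun _ => rfl, ← integral_re i] at r
  refine Eq.trans (integral_congr_ae (Eventually.of_forall fun x => ?_)) r
  have key : M.All fun e z => nq (T e z) (V e z) / (H e z).det.re =
      (dvb (fun w => f e w • star (V e w)) z / (H e z).det).re := fun e he z hz => by
    have d0 : ∑ j, dz j (fun w => V e w j) z = 0 := hd e he z hz
    have e1 : dvb (fun w => f e w • star (V e w)) z = star (V e z) ⬝ᵥ T e z *ᵥ V e z := by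
      have e2 : ∀ j, dzb j (fun w => (f e w • star (V e w)) j) z =
          star (V e z j) * (T e z *ᵥ V e z) j + f e z * star (dz j (fun w => V e w j) z) :=
        fun j => by
          have := dzb_mul (j := j) (cd_diff (hf.sm e he z hz)) (cd_diff (cd_star (sV e he z hz j)))
          rw [hT e he z hz j, dzb_star (cd_diff (sV e he z hz j)), mul_comm] at this
          exact this
      rw [dvb, Finset.sum_congr rfl fun j _ => e2 j, Finset.sum_add_distrib, ← Finset.mul_sum,
        ← star_sum, d0, star_zero, mul_zero, add_zero]
      rfl
    beta_reduce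
    rw [e1, ← Mf.herm_det (hH.pos e he z hz).1, Complex.div_ofReal_re, Complex.ofReal_re]
    rfl
  exact key.ch x

end Pool.Agent.Lib.F4
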