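import Pool.Agent.Lib.F4.B_PW1
import Pool.Agent.Lib.F4.B_PW4
import Pool.Agent.Lib.F4.B_S2K
import Pool.Agent.Lib.F4.B_MUS
import Pool.Agent.Lib.F4.B_STK
import Pool.Agent.Lib.F4.B_THA
import Pool.Agent.Lib.F4.B_DVC
import Pool.Agent.Lib.F4.B_SKV
import Pool.Agent.Lib.F4.B_SKP
import Pool.Agent.Lib.F4.B_PSI
import Pool.Agent.Lib.F4.B_S3
import Pool.Agent.Lib.F4.B_S4

/-! Project f4, steps three and four: assembly. -/

namespace Pool.Agent.Lib.F4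

theorem aPW1 : St_PW1 := st_PW1
theorem aPW4 : St_PW4 := st_PW4 aPW1
theorem aS2K : St_S2K := st_S2K aPW1
theorem aMUS : St_MUS := st_MUS aPW1 aS2K
theorem aSTK : St_STK := st_STK
theorem aTHA : St_THA := st_THA aS2K aMUS aSTK
theorem aSKP : St_SKP := st_SKP aS2K st_DVC
theorem aS3 : St_S3 := st_S3 aPW4 aS2K aMUS st_DVC st_SKV aSKP (st_PSI aMUS)
theorem aS4 : St_S4 := st_S4 aPW1 aS2K aMUS aTHA
theorem aS34 : St_S34 := st_S34 aS3 aS4

end Pool.Agent.Lib.F4
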