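import Pool.Agent.Lib.F4.BlueT

/-! Project f4, step six: the second form of the triple. -/

open scoped Classical Topology ContDiff ComplexOrder Matrix
open Set Filter MeasureTheory Metric

set_option linter.unusedVariables false

noncomputable section

namespace Pool.Agent.Lib.F4.T6

open Pool.Agent.Lib.SV (E)
open Pool.Agent.Lib.HS32 Pool.Agent.Lib.HLK

theorem tBE (hCK : St_CK) : St_BE := by
  intro n U a p q s G hU hP hG
  have hp : ∀ z ∈ U, ContDiffAt ℝ 3 (rc p) z := fun z hz =>
    Complex.ofRealCLM.contDiff.contDiffAt.comp z (hP z hz).sp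
  have hd : ∀ z ∈ U, ∀ k, DifferentiableAt ℝ (dz k (rc p)) z := fun z hz k =>
    ((hCK n (rc p) z).1 2 k (hp z hz)).1.differentiableAt (by simp)
  have ha : ∀ z ∈ U, ∀ k, DifferentiableAt ℂ (a · k) z := fun z hz k =>
    ((hP z hz).hol k).self_of_nhds
  have hr : ∀ z ∈ U, ∀ k, DifferentiableAt ℝ (a · k) z := fun z hz k =>
    (ha z hz k).restrictScalars ℝ
  have hg : ∀ z ∈ U, DifferentiableAt ℝ G z := fun z hz =>
    (hG z hz).sm.differentiableAt (by simp)
  have eb : ∀ k, (be a p G · k) = fun w => dz k (rc p) w - G w * a w k := fun k => rfl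
  refine ⟨fun z hz => (differentiableAt_pi.2 fun k => ?_).differentiableWithinAt,
    fun z hz j k => ⟨?_, ?_⟩⟩
  · have h1 : DifferentiableAt ℝ (fun w => G w * a w k) z := (hg z hz).mul (hr z hz k)
    rw [eb k]
    refine ((mHOL n _ z).1 ((hd z hz k).fun_sub h1)).2 fun l => ?_
    have h2 : dzb l (dz k (rc p)) z = af a q s z l * a z k := (hP z hz).eq l k
    have h3 : dzb l (fun w => a w k) z = 0 := ((mHOL n _ z).1 (hr z hz k)).1 (ha z hz k) l
    rw [dzb_sub (hd z hz k) h1, dzb_mul (hg z hz) (hr z hz k), h2, h3, (hG z hz).eq l]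
    ring
  · rw [(hP z hz).pp j k]
    simp only [be]
    ring
  · have h1 : ∀ j k, dz j (be a p G · k) z =
        dz j (dz k (rc p)) z - (dz j G z * a z k + G z * dz j (a · k) z) := fun j k => by
      rw [eb k, dz_sub (hd z hz k) ((hg z hz).fun_mul (hr z hz k)), dz_mul (hg z hz) (hr z hz k)]
    have h2 := (((hCK n (rc p) z).2 ((hp z hz).of_le (by norm_num))) j k).1
    have h3 := (hP z hz).pp j k
    rw [h1, h1, h2]
    simp only [rho]
    linear_combination (-G z) * h3

end Pool.Agent.Lib.F4.T6
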