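import Pool.Agent.Lib.F4.BlueT

/-! Project f4, step six: derivatives of finite order. -/

open scoped Classical Topology ContDiff
open Set Filter Complex

noncomputable section

namespace Pool.Agent.Lib.F4.T6

open Pool.Agent.Lib.SV (E)
open Pool.Agent.Lib.HS32

namespace CK

variable {n : ℕ} {f : E n → ℂ} {z : E n}

theorem cf {m : ℕ} (h : ContDiffAt ℝ (m + 1 : ℕ) f z) (v : E n) :
    ContDiffAt ℝ m (fun w => fderiv ℝ f w v) z :=
  (h.fderiv_right (m := m) (by push_cast; exact le_rfl)).clm_apply contDiffAt_const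

theorem df (h : ContDiffAt ℝ 2 f z) (v : E n) :
    DifferentiableAt ℝ (fun w => fderiv ℝ f w v) z :=
  (cf (m := 1) (by exact_mod_cast h) v).differentiableAt (by simp)

theorem sy (h : ContDiffAt ℝ 2 f z) (v w : E n) :
    fderiv ℝ (fun y => fderiv ℝ f y v) z w = fderiv ℝ (fun y => fderiv ℝ f y w) z v := by
  have hd : DifferentiableAt ℝ (fderiv ℝ f) z :=
    (h.fderiv_right (m := 1) (by norm_num)).differentiableAt (by simp)
  rw [fderiv_clm_apply hd (differentiableAt_const _), fderiv_clm_apply hd (differentiableAt_const _)]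
  simpa using (h.isSymmSndFDerivAt (by simp)).eq w v

theorem fz (h : ContDiffAt ℝ 2 f z) (j : Fin n) (v : E n) :
    fderiv ℝ (dz j f) z v = dz j (fun w => fderiv ℝ f w v) z := by
  have h1 := df h (Pi.single j 1)
  have h2 := df h (Pi.single j I)
  have e : dz j f = fun w => (2 : ℂ)⁻¹ * (fderiv ℝ f w (Pi.single j 1) -
      I * fderiv ℝ f w (Pi.single j I)) := by
    funext w; rw [dz]; ring
  rw [e, fderiv_const_mul (h1.fun_sub (h2.const_mul I)), fderiv_fun_sub h1 (h2.const_mul I),
    fderiv_const_mul h2, dz, ← sy h (Pi.single j 1), ← sy h (Pi.single j I)]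
  simp; ring

theorem fzb (h : ContDiffAt ℝ 2 f z) (j : Fin n) (v : E n) :
    fderiv ℝ (dzb j f) z v = dzb j (fun w => fderiv ℝ f w v) z := by
  have h1 := df h (Pi.single j 1)
  have h2 := df h (Pi.single j I)
  have e : dzb j f = fun w => (2 : ℂ)⁻¹ * (fderiv ℝ f w (Pi.single j 1) +
      I * fderiv ℝ f w (Pi.single j I)) := by
    funext w; rw [dzb]; ring
  rw [e, fderiv_const_mul (h1.fun_add (h2.const_mul I)), fderiv_fun_add h1 (h2.const_mul I),
    fderiv_const_mul h2, dzb, ← sy h (Pi.single j 1), ← sy h (Pi.single j I)]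
  simp; ring

end CK

open CK in
theorem tCK : St_CK := by
  intro n f z
  refine ⟨fun m j h => ⟨((cf h _).sub (contDiffAt_const.mul (cf h _))).div_const _,
    ((cf h _).add (contDiffAt_const.mul (cf h _))).div_const _⟩, fun h i j => ⟨?_, ?_, ?_⟩⟩
  · rw [dz, fz h, fz h, dz, dz, dz, fz h, fz h, dz, dz,
      sy h (Pi.single i 1) (Pi.single j 1), sy h (Pi.single i 1) (Pi.single j I),
      sy h (Pi.single i I) (Pi.single j 1), sy h (Pi.single i I) (Pi.single j I)]
    ring
  · rw [dzb, fzb h, fzb h, dzb, dzb, dzb, fzb h, fzb h, dzb, dzb,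
      sy h (Pi.single i 1) (Pi.single j 1), sy h (Pi.single i 1) (Pi.single j I),
      sy h (Pi.single i I) (Pi.single j 1), sy h (Pi.single i I) (Pi.single j I)]
    ring
  · rw [dz, fzb h, fzb h, dzb, dzb, dzb, fz h, fz h, dz, dz,
      sy h (Pi.single i 1) (Pi.single j 1), sy h (Pi.single i 1) (Pi.single j I),
      sy h (Pi.single i I) (Pi.single j 1), sy h (Pi.single i I) (Pi.single j I)]
    ring

end Pool.Agent.Lib.F4.T6
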