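import Pool.Agent.Lib.HLK.All
import Pool.Agent.Lib.K3E.Defs
import Pool.Agent.Lib.ZK47.Blue

/-! Project f4, part R: weak solutions of the equation of Cauchy and Riemann for bounded forms.
Blueprint. -/

open scoped Classical Topology ContDiff ComplexOrder Matrix
open Set MeasureTheory Complex Metric Filter

set_option linter.unusedVariables false

noncomputable section

namespace Pool.Agent.Lib.F4.R

open Pool.Agent.Lib.SV (E)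
open Pool.Agent.Lib.HS32 Pool.Agent.Lib.KP Pool.Agent.Lib.HLK
open Pool.Agent.Lib.KP.T60 (phC)

variable {n : ℕ}

/-- Test functions on `U`. -/
def Tst (U : Set (E n)) (χ : E n → ℂ) : Prop :=
  ContDiff ℝ ∞ χ ∧ HasCompactSupport χ ∧ tsupport χ ⊆ U

/-- Measurable and locally bounded on `U`. -/
def Bd (U : Set (E n)) (ξ : E n → E n) : Prop :=
  (∀ l, AEStronglyMeasurable (fun z => ξ z l) (volume.restrict U)) ∧
    ∀ K, IsCompact K → K ⊆ U → ∃ C : ℝ, ∀ z ∈ K, ‖ξ z‖ ≤ C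

/-- Weakly closed on `U`. -/
def Cl (U : Set (E n)) (ξ : E n → E n) : Prop :=
  ∀ χ, Tst U χ → ∀ j k, ∫ z, ξ z j * dzb k χ z = ∫ z, ξ z k * dzb j χ z

/-- A bounded form of type `(0,1)` with values in `K - L`. -/
structure Xi (M : Mf n) (L : M.Co) (ξ : M.Fam (E n)) : Prop where
  bd : ∀ e ∈ M.C, Bd e.target (ξ e)
  law : M.Ov fun e e' x => ∀ l, ξ e' (e' x) l =
    (M.J e e' x).det / L.c e e' x * ∑ a, star (M.J e e' x a l) * ξ e (e x) a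

/-- A weak solution. -/
structure Sol (M : Mf n) (L : M.Co) (ξ : M.Fam (E n)) (r : M.Fam ℂ) : Prop where
  int : ∀ e ∈ M.C, LocallyIntegrableOn (r e) e.target volume
  law : M.Ov fun e e' x => r e' (e' x) = (M.J e e' x).det / L.c e e' x * r e (e x)
  eq : ∀ e ∈ M.C, ∀ χ, Tst e.target χ → ∀ l, ∫ z, r e z * dzb l χ z = -∫ z, ξ e z l * χ z

variable {M : Mf n}

/-- The pairing of a form and a multivector, in the charts. -/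
def pl (H : M.Fam (Mat n)) (ξ : M.Fam (E n)) (W : M.Fam (Fs n → ℂ)) : M.Fam ℂ := fun e z =>
  (∑ l, ξ e z l * ((cr l * La (H e z)) *ᵥ W e z) Finset.univ) / (H e z).det

/-- The functional given by a form. -/
def fn (H : M.Fam (Mat n)) (ξ : M.Fam (E n)) (W : M.Fam (Fs n → ℂ)) : ℂ :=
  ∫ x, M.ev (pl H ξ W) x ∂M.mu H

/-- The section of `K - L` given by the part of top degree. -/
def rl (H : M.Fam (Mat n)) (φ : M.Fam ℝ) (W : M.Fam (Fs n → ℂ)) : M.Fam ℂ := fun e z =>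
  ((Real.exp (-phC M H φ e z) : ℝ) : ℂ) * star (W e z Finset.univ)

/-- The abstract step. -/
def St_HIL : Prop := ∀ (C : Type) [SeminormedAddCommGroup C] [InnerProductSpace ℂ C]
  (P Q : C →ₗ[ℂ] C) (f : C →ₗ[ℂ] ℂ) (c A : ℝ), 0 < c →
  (∀ a b, inner ℂ (Q a) (P b) = 0) →
  (∀ u : UniformSpace.Completion C,
    (∀ s : C, inner ℂ u ((Q s + P s : C) : UniformSpace.Completion C) = 0) →
    ∀ η : ℝ, 0 < η → ∃ s : C, ‖u - s‖ < η ∧ ‖Q s + P s‖ < η) →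
  (∀ s, c * ‖s‖ ≤ ‖Q s + P s‖) → (∀ s, ‖f s‖ ≤ A * ‖s‖) → (∀ s, f (Q s) = 0) →
  ∃ W : ℕ → C, (∀ j, ‖W (j + 1) - W j‖ ≤ (1 / 2) ^ j) ∧
    ∀ t, Tendsto (fun j => inner ℂ (P (W j)) t) atTop (𝓝 (f t))

/-- The functional is well defined and bounded. -/
def St_FUN : Prop := ∀ (n : ℕ) (M : Mf n) [M.Cpt] (H : M.Fam (Mat n)) (L : M.Co) (φ : M.Fam ℝ)
  (ξ : M.Fam (E n)), M.Met H → M.WtC L φ → Xi M L ξ →
  (∀ W, (lam H L φ).Sec W → M.Inv (pl H ξ W) ∧ Integrable (M.ev (pl H ξ W)) (M.mu H)) ∧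
  ∃ A : ℝ, ∀ W, (lam H L φ).Sec W → ‖fn H ξ W‖ ≤ A * √((lam H L φ).nr H W)

/-- The functional vanishes on the image of `Q`. -/
def St_ORT : Prop := ∀ (n : ℕ) (M : Mf n) [M.Cpt] (H : M.Fam (Mat n)) (L : M.Co) (φ : M.Fam ℝ)
  (ξ : M.Fam (E n)), M.Kae H → M.WtC L φ → Xi M L ξ →
  (∀ x, ∃ e ∈ M.C, x ∈ e.source ∧ Cl e.target (ξ e)) →
  ∀ W, (lam H L φ).Sec W → fn H ξ ((oQ H).ap W) = 0

/-- The test sections. -/
def St_WEQ : Prop := ∀ (n : ℕ) (M : Mf n) [M.Cpt] (H : M.Fam (Mat n)) (L : M.Co) (φ : M.Fam ℝ),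
  M.Met H → M.WtC L φ → ∀ e ∈ M.C, ∀ χ, Tst e.target χ → ∀ l, ∃ T, (lam H L φ).Sec T ∧
    (∀ ξ, M.Inv (pl H ξ T) → fn H ξ T = ∫ z, ξ e z l * χ z) ∧
    ∀ W, (lam H L φ).Sec W →
      (lam H L φ).ip H ((oP H φ).ap W) T = -∫ z, rl H φ W e z * dzb l χ z

/-- The limit of a rapidly converging sequence of sections. -/
def St_LIM : Prop := ∀ (n : ℕ) (M : Mf n) [M.Cpt] (σ : Type) [Fintype σ] [DecidableEq σ]
  (H : M.Fam (Mat n)) (b : Bun M σ) (W : ℕ → M.Fam (σ → ℂ)), M.Met H → b.Ok → b.Hl →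
  (∀ j, b.Sec (W j)) → (∀ j, √(b.nr H (W (j + 1) - W j)) ≤ (1 / 2) ^ j) →
  ∃ V : M.Fam (σ → ℂ), (M.Ov fun e e' x => V e (e x) = b.T e e' x *ᵥ V e' (e' x)) ∧
    ∀ e ∈ M.C, ∀ K, IsCompact K → K ⊆ e.target → ∀ i, IntegrableOn (fun z => V e z i) K ∧
      Tendsto (fun j => ∫ z in K, ‖W j e z i - V e z i‖) atTop (𝓝 0)

/-- The equation has a weak solution. -/
def St_SOL : Prop := ∀ (n : ℕ) (M : Mf n) [M.Cpt] (H : M.Fam (Mat n)) (L : M.Co) (φ : M.Fam ℝ)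
  (ξ : M.Fam (E n)), M.Kae H → M.WtC L φ → ¬Ah H L φ → Xi M L ξ →
  (∀ x, ∃ e ∈ M.C, x ∈ e.source ∧ Cl e.target (ξ e)) → ∃ r, Sol M L ξ r

/-- No almost harmonic sections. -/
def St_HV : Prop := ∀ (n : ℕ) (M : Mf n) [M.Cpt] (H : M.Fam (Mat n)) (a : ℝ → M.X → ℝ) (m : ℕ),
  0 < n → M.Kae H → ZK47.Out M H 0 a →
  M.WtC (K3E.kan M (m + 2)) (K3E.wk H (m + 2)) ∧
  ((∀ Y, (K3E.lk H (m + 2)).Sec Y → Hol Y → ¬Nz Y) →
    ¬Ah H (K3E.kan M (m + 2)) (K3E.wk H (m + 2)))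

/-- The zero set of a holomorphic function has capacity zero. -/
def St_CAP : Prop := ∀ (n : ℕ) (U K : Set (E n)) (a : E n → ℂ), IsOpen U → IsCompact K → K ⊆ U →
  DifferentiableOn ℂ a U → (∀ᵐ z, z ∈ U → a z ≠ 0) → ∃ u : ℕ → E n → ℝ,
  (∀ j, (∀ z ∈ U, ContDiffAt ℝ ∞ (u j) z) ∧ (∀ z, 0 ≤ u j z ∧ u j z ≤ 1) ∧
    ∃ d : ℝ, 0 < d ∧ ∀ z, ‖a z‖ < d → u j z = 0) ∧
  (∀ z, a z ≠ 0 → Tendsto (fun j => u j z) atTop (𝓝 1)) ∧
  ∀ k, Tendsto (fun j => ∫ z in K, ‖dzb k (fun w => (u j w : ℂ)) z‖) atTop (𝓝 0)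

/-- A bounded form that is exact off the zero set is weakly closed. -/
def St_CLO : Prop := ∀ (n : ℕ) (U : Set (E n)) (a ρ : E n → ℂ) (ξ : E n → E n), IsOpen U →
  DifferentiableOn ℂ a U → (∀ᵐ z, z ∈ U → a z ≠ 0) → ContDiffOn ℝ 1 ρ U → Bd U ξ →
  (∀ z ∈ U, a z ≠ 0 → ∀ l, a z * ξ z l = dzb l ρ z) → Cl U ξ

end Pool.Agent.Lib.F4.R
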