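import Pool.Agent.Lib.F4.BlueT
import Pool.Agent.Lib.F4.BlueR

/-! Project f4, step six: weak closedness of the obstruction form. -/

open scoped Classical Topology ContDiff
open Set MeasureTheory

noncomputable section

namespace Pool.Agent.Lib.F4.T6

theorem tCL (hCLO : R.St_CLO) : St_CL := by
  intro n U a ρ ξ hU ha h0 hξ hρ
  refine hCLO n U a ρ ξ hU ha h0 (fun z hz => ((hρ z hz).1.of_le one_le_two).contDiffWithinAt)
    ⟨fun l => (hξ l).1, fun K hK hKU => ?_⟩ fun z hz _ l => ((hρ z hz).2 l).symm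
  choose C hC using fun l => (hξ l).2 K hK hKU
  refine ⟨∑ l, |C l|, fun z hz => (pi_norm_le_iff_of_nonneg
    (Finset.sum_nonneg fun l _ => abs_nonneg _)).2 fun l => ?_⟩
  exact (hC l z hz).trans ((le_abs_self _).trans
    (Finset.single_le_sum (f := fun l => |C l|) (fun l _ => abs_nonneg _) (Finset.mem_univ l)))

end Pool.Agent.Lib.F4.T6
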