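import Pool.Agent.Lib.VF72.Dol

/-! The lemma of Dolbeault and Grothendieck for forms of type `(0,1)` of finite regularity,
without loss of derivatives. -/

open scoped Classical Topology ContDiff Convolution
open Set MeasureTheory Complex Metric Filter

noncomputable section

namespace Pool.Agent.Lib.F4.D91

open Pool.Agent.Lib.SV (E)
open Pool.Agent.Lib.HS32 Pool.Agent.Lib.VF72 Pool.Agent.Lib.MP_9cdd18_an.CX

variable {n m : ℕ} {U : Set (E n)} {Ψ : ℂ → E n → ℂ} {w : ℂ → ℂ} {z : E n}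

/-- Jointly of class `m` in the parameter and in the point. -/
def Jk (m : ℕ) (U : Set (E n)) (Ψ : ℂ → E n → ℂ) : Prop :=
  ∀ t, ∀ z ∈ U, ContDiffAt ℝ m (fun p : ℂ × E n => Ψ p.1 p.2) (t, z)

theorem Jk.left (h : Jk m U Ψ) (hz : z ∈ U) : ContDiff ℝ m fun t => Ψ t z :=
  contDiff_iff_contDiffAt.2 fun t =>
    ContDiffAt.comp (f := fun s => (s, z)) t (h t z hz) (contDiffAt_id.prodMk contDiffAt_const)

theorem intg {g : ℂ → ℂ} (hg : Continuous g) (hw : Wg w) : Integrable fun t => w t * g t := by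
  have h1 : IntegrableOn (fun t => w t * g t) (tsupport w) :=
    hw.int.integrableOn.mul_continuousOn hg.continuousOn hw.cpt
  exact (integrableOn_iff_integrable_of_support_subset
    ((Function.support_mul_subset_left _ _).trans (subset_tsupport w))).1 h1

theorem ne1 (m : ℕ) : ((m + 1 : ℕ) : WithTop ℕ∞) ≠ 0 := by exact_mod_cast Nat.succ_ne_zero m

theorem le1 (m : ℕ) : (m : WithTop ℕ∞) + 1 ≤ ((m + 1 : ℕ) : WithTop ℕ∞) := by
  push_cast
  exact le_rfl

theorem Jk.fd_eq (h : Jk (m + 1) U Ψ) (t : ℂ) (hz : z ∈ U) : HasFDerivAt (Ψ t)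
    ((fderiv ℝ (fun p : ℂ × E n => Ψ p.1 p.2) (t, z)).comp (ContinuousLinearMap.inr ℝ ℂ (E n))) z :=
  HasFDerivAt.comp (f := fun x => (t, x)) z ((h t z hz).differentiableAt (ne1 m)).hasFDerivAt
    (hasFDerivAt_prodMk_right t z)

theorem Jk.dir (h : Jk (m + 1) U Ψ) (hU : IsOpen U) (v : E n) :
    Jk m U fun t z => fderiv ℝ (Ψ t) z v := by
  intro t z hz
  refine (((h t z hz).fderiv_right (m := m) (le1 m)).clm_apply
    (contDiffAt_const (c := ((0 : ℂ), v)))).congr_of_eventuallyEq ?_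
  filter_upwards [(hU.preimage continuous_snd).mem_nhds (show (t, z) ∈ Prod.snd ⁻¹' U from hz)]
    with p hp
  rw [(h.fd_eq p.1 hp).fderiv]
  rfl

theorem Jk.dzb (h : Jk (m + 1) U Ψ) (hU : IsOpen U) (j : Fin n) : Jk m U fun t => dzb j (Ψ t) :=
  fun t z hz => ((h.dir hU _ t z hz).add (contDiffAt_const.mul (h.dir hU _ t z hz))).div_const _

theorem Jk.sm (h : Jk m U Ψ) (hw : Wg w) (hU : IsOpen U) (hz : z ∈ U) :
    ContDiffAt ℝ m (fun x => ∫ t, w t * Ψ t x) z := by
  obtain ⟨R, hR0, hR⟩ := hw.cpt.isCompact.isBounded.subset_closedBall_lt 0 0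
  let χ : ContDiffBump (0 : ℂ) := ⟨R, R + 1, hR0, by linarith⟩
  have h1 := contDiffOn_convolution_right_with_param_comp (μ := volume) (n := (m : ℕ∞))
    (ContinuousLinearMap.mul ℝ ℂ) (v := fun _ : E n => (0 : ℂ)) contDiffOn_const (f := w)
    (g := fun x y => (χ y : ℂ) * Ψ (-y) x) (k := closedBall 0 (R + 1)) hU
    (isCompact_closedBall _ _)
    (fun x y _ hy => by rw [χ.zero_of_le_dist (le_of_lt (by simpa using hy))]; simp)
    hw.int.locallyIntegrable (fun p hp => ContDiffAt.contDiffWithinAt (by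
      refine ContDiffAt.mul ((ofRealCLM.contDiff.comp (χ.contDiff.comp contDiff_snd)).contDiffAt) ?_
      exact ContDiffAt.comp (f := fun p : E n × ℂ => (-p.2, p.1)) p (h (-p.2) p.1 hp.1)
        (contDiffAt_snd.neg.prodMk contDiffAt_fst)))
  refine (h1.contDiffAt (hU.mem_nhds hz)).congr_of_eventuallyEq (.of_forall fun x => ?_)
  refine integral_congr_ae (.of_forall fun t => ?_)
  by_cases ht : w t = 0
  · simp [ht]
  have : χ (-t) = 1 := χ.one_of_mem_closedBall (by simpa using hR (subset_tsupport w ht))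
  simp [this]

theorem Jk.der (h : Jk (m + 1) U Ψ) (hw : Wg w) (hU : IsOpen U) (hz : z ∈ U) (v : E n) :
    fderiv ℝ (fun x => ∫ t, w t * Ψ t x) z v = ∫ t, w t * fderiv ℝ (Ψ t) z v := by
  obtain ⟨r, hr, hb⟩ := nhds_basis_closedBall.mem_iff.1 (hU.mem_nhds hz)
  set D := fun p : ℂ × E n =>
    (fderiv ℝ (fun p : ℂ × E n => Ψ p.1 p.2) p).comp (ContinuousLinearMap.inr ℝ ℂ (E n)) with hD
  have hc : ∀ t, ∀ x ∈ U, ContinuousAt D (t, x) := fun t x hx =>
    (((h t x hx).fderiv_right (m := m) (le1 m)).clm_comp contDiffAt_const).continuousAt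
  obtain ⟨C, hC⟩ := (hw.cpt.isCompact.prod (isCompact_closedBall z r)).exists_bound_of_continuousOn
    (f := D) fun p hp => (hc p.1 p.2 (hb hp.2)).continuousWithinAt
  have hm : AEStronglyMeasurable (fun t => w t • D (t, z)) volume :=
    hw.int.1.smul (continuous_iff_continuousAt.2 fun t => ContinuousAt.comp (f := fun s => (s, z))
      (hc t z hz) (by fun_prop)).aestronglyMeasurable
  have hb' : ∀ t, ∀ x ∈ ball z r, ‖w t • D (t, x)‖ ≤ ‖w t‖ * C := fun t x hx => by
    rw [norm_smul]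
    by_cases ht : w t = 0
    · simp [ht]
    exact mul_le_mul_of_nonneg_left (hC (t, x) ⟨subset_tsupport w ht, ball_subset_closedBall hx⟩)
      (norm_nonneg _)
  have hi : ∀ x ∈ U, Integrable fun t => w t * Ψ t x := fun x hx =>
    intg (h.left hx).continuous hw
  have key := hasFDerivAt_integral_of_dominated_of_fderiv_le (μ := volume) (s := ball z r)
    (F := fun x t => w t * Ψ t x) (F' := fun x t => w t • D (t, x)) (bound := fun t => ‖w t‖ * C)
    (ball_mem_nhds z hr)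
    ((hU.eventually_mem hz).mono fun x hx => (hi x hx).1) (hi z hz) hm
    (.of_forall hb') (hw.int.norm.mul_const C)
    (.of_forall fun t x hx => (h.fd_eq t (hb (ball_subset_closedBall hx))).const_mul (w t))
  rw [key.fderiv, ContinuousLinearMap.integral_apply
    ((hw.int.norm.mul_const C).mono' hm (.of_forall fun t => hb' t z (mem_ball_self hr)))]
  refine integral_congr_ae (.of_forall fun t => ?_)
  simp only [(h.fd_eq t hz).fderiv]
  rfl

theorem Jk.dzb_int (h : Jk (m + 1) U Ψ) (hw : Wg w) (hU : IsOpen U) (hz : z ∈ U) (j : Fin n) :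
    HS32.dzb j (fun x => ∫ t, w t * Ψ t x) z = ∫ t, w t * HS32.dzb j (Ψ t) z := by
  have hi : ∀ v, Integrable fun t => w t * fderiv ℝ (Ψ t) z v := fun v =>
    intg ((h.dir hU v).left hz).continuous hw
  rw [HS32.dzb, h.der hw hU hz, h.der hw hU hz, ← integral_const_mul,
    ← integral_add (hi _) ((hi _).const_mul _), ← integral_div]
  exact integral_congr_ae (.of_forall fun t => by simp only [HS32.dzb]; ring)

/-- The transform of Cauchy in the direction `k`. -/
def ct (r : ℝ) (k : Fin n) (F : E n → ℂ) (z : E n) : ℂ :=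
  -(Real.pi : ℂ)⁻¹ * ∫ t, kw (2 * r) t * F (z + Pi.single k t)

/-- The product of a function of the coordinate `k` and of `f`. -/
def cut (k : Fin n) (φ : ℂ → ℂ) (f : E n → ℂ) (y : E n) : ℂ := φ (y k) * f y

variable {c : E n} {r : ℝ} {k : Fin n} {φ : ℂ → ℂ} {f : E n → ℂ}

theorem dzb_coord (hφ : ContDiff ℝ ∞ φ) (j : Fin n) (y : E n) :
    dzb j (fun y : E n => φ (y k)) y = if j = k then dbar φ (y k) / 2 else 0 := by
  have h2 := ((hφ.differentiable (by simp) (y k)).hasFDerivAt.comp y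
    (ContinuousLinearMap.proj (R := ℝ) (φ := fun _ : Fin n => ℂ) k).hasFDerivAt).fderiv
  rw [dzb, show fderiv ℝ (fun y : E n => φ (y k)) y = _ from h2]
  by_cases e : j = k
  · subst e
    simp [dbar]
  · simp [e, Ne.symm e]

theorem alt (hr : 0 < r) (hz : z ∈ ball c r) (t : ℂ) : z + Pi.single k t ∈ ball c r ∨
    r / 2 < dist ((z + Pi.single k t : E n) k) (c k) := by
  by_cases h : r / 2 < dist ((z + Pi.single k t : E n) k) (c k)
  · exact Or.inr h
  refine Or.inl ((dist_pi_lt_iff hr).2 fun j => ?_)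
  by_cases e : j = k
  · subst e; linarith [not_lt.1 h]
  · simpa [e] using (dist_pi_lt_iff hr).1 hz j

theorem cut_out (h0 : ∀ s, r / 2 < dist s (c k) → φ s = 0) {y : E n}
    (hy : r / 2 < dist (y k) (c k)) : cut k φ f =ᶠ[𝓝 y] fun _ => 0 := by
  filter_upwards [(isOpen_lt continuous_const
    (by fun_prop : Continuous fun y : E n => dist (y k) (c k))).mem_nhds hy] with x hx
  rw [cut, h0 _ hx, zero_mul]

theorem dbar_out (h0 : ∀ s, r / 2 < dist s (c k) → φ s = 0) {s : ℂ}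
    (hs : r / 2 < dist s (c k)) : dbar φ s = 0 := by
  have : φ =ᶠ[𝓝 s] fun _ => 0 := by
    filter_upwards [(isOpen_lt continuous_const
      (by fun_prop : Continuous fun y : ℂ => dist y (c k))).mem_nhds hs] with x hx
    exact h0 _ hx
  simp [dbar, this.fderiv_eq]

theorem coord_cd (hφ : ContDiff ℝ ∞ φ) (m : ℕ) : ContDiff ℝ m fun y : E n => φ (y k) :=
  (hφ.of_le (by exact_mod_cast le_top)).comp (contDiff_apply ℝ ℂ k)

theorem cut_cd (hr : 0 < r) (hφ : ContDiff ℝ ∞ φ) (h0 : ∀ s, r / 2 < dist s (c k) → φ s = 0)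
    (hf : ∀ z ∈ ball c r, ContDiffAt ℝ m f z) (hz : z ∈ ball c r) (t : ℂ) :
    ContDiffAt ℝ m (cut k φ f) (z + Pi.single k t) :=
  (alt (k := k) hr hz t).elim (fun h => (coord_cd hφ m).contDiffAt.mul (hf _ h))
    fun h => contDiffAt_const.congr_of_eventuallyEq (cut_out h0 h)

theorem cut_jk (hr : 0 < r) (hφ : ContDiff ℝ ∞ φ) (h0 : ∀ s, r / 2 < dist s (c k) → φ s = 0)
    (hf : ∀ z ∈ ball c r, ContDiffAt ℝ m f z) :
    Jk m (ball c r) fun t z => cut k φ f (z + Pi.single k t) := fun t z hz =>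
  ContDiffAt.comp
    (f := fun p : ℂ × E n => p.2 + (ContinuousLinearMap.single ℝ (fun _ => ℂ) k : ℂ →L[ℝ] E n) p.1)
    (t, z) (cut_cd hr hφ h0 hf hz t)
    (contDiffAt_snd.add ((ContinuousLinearMap.contDiff _).contDiffAt.comp _ contDiffAt_fst))

theorem dzb_cut (hr : 0 < r) (hφ : ContDiff ℝ ∞ φ) (h0 : ∀ s, r / 2 < dist s (c k) → φ s = 0)
    (hf : ∀ z ∈ ball c r, ContDiffAt ℝ (m + 1 : ℕ) f z) (hz : z ∈ ball c r) (t : ℂ) (j : Fin n) :
    dzb j (cut k φ f) (z + Pi.single k t) =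
      (if j = k then dbar φ ((z + Pi.single k t : E n) k) / 2 else 0) * f (z + Pi.single k t) +
        φ ((z + Pi.single k t : E n) k) * dzb j f (z + Pi.single k t) := by
  rcases alt (k := k) hr hz t with h | h
  · rw [← dzb_coord hφ]
    exact dzb_mul ((coord_cd hφ 1).differentiable one_ne_zero _)
      ((hf _ h).differentiableAt (ne1 m))
  · rw [dzb_congr (cut_out h0 h), dzb_const, dbar_out h0 h, h0 _ h]
    simp

theorem ct_cd (hr : 0 < r) (hφ : ContDiff ℝ ∞ φ) (h0 : ∀ s, r / 2 < dist s (c k) → φ s = 0)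
    (hf : ∀ z ∈ ball c r, ContDiffAt ℝ m f z) (hz : z ∈ ball c r) :
    ContDiffAt ℝ m (ct r k (cut k φ f)) z :=
  contDiffAt_const.mul ((cut_jk hr hφ h0 hf).sm (wg_kw _) isOpen_ball hz)

theorem ct_dzb (hr : 0 < r) (hφ : ContDiff ℝ ∞ φ) (h0 : ∀ s, r / 2 < dist s (c k) → φ s = 0)
    (hf : ∀ z ∈ ball c r, ContDiffAt ℝ (m + 1 : ℕ) f z) (hz : z ∈ ball c r) (j : Fin n) :
    dzb j (ct r k (cut k φ f)) z = ct r k (dzb j (cut k φ f)) z := by
  have hJ := cut_jk hr hφ h0 hf
  unfold ct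
  rw [dzb_const_mul _ ((hJ.sm (wg_kw _) isOpen_ball hz).differentiableAt (ne1 m)),
    hJ.dzb_int (wg_kw _) isOpen_ball hz]
  simp only [dzb, fd_shift]

theorem ct_pomp (hr : 0 < r) (hφ : ContDiff ℝ ∞ φ) (h0 : ∀ s, r / 2 < dist s (c k) → φ s = 0)
    (hf : ∀ z ∈ ball c r, ContDiffAt ℝ (m + 1 : ℕ) f z) (hz : z ∈ ball c r) :
    ct r k (dzb k (cut k φ f)) z = cut k φ f z := by
  set F := cut k φ f with hF
  have hJ : Jk (m + 1) (ball c r) fun t z => F (z + Pi.single k t) := cut_jk hr hφ h0 hf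
  let L : ℂ →L[ℝ] E n := ContinuousLinearMap.single ℝ (fun _ => ℂ) k
  have hk : dist (z k) (c k) < r := (dist_pi_lt_iff hr).1 hz k
  have h1 := pomp (R := 2 * r) ((hJ.left hz).of_le (m := 1) (by exact_mod_cast Nat.le_add_left 1 m))
    fun t ht => by
      refine (cut_out h0 ?_).eq_of_nhds
      have h2 := dist_triangle_right (z k + t) (z k) (c k)
      simp only [mem_closedBall, dist_zero_right, not_le, dist_self_add_left] at ht h2
      simp only [Pi.add_apply, Pi.single_eq_same]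
      linarith
  have h2 : ∀ t, dbar (fun t => F (z + Pi.single k t)) t = 2 * dzb k F (z + Pi.single k t) :=
    fun t => by
      have h3 := (((cut_cd hr hφ h0 hf hz t).differentiableAt (ne1 m)).hasFDerivAt.comp t
        (L.hasFDerivAt.const_add z)).fderiv
      rw [dbar, show fderiv ℝ (fun t => F (z + Pi.single k t)) t = _ from h3, dzb]
      simp only [ContinuousLinearMap.comp_apply, L, ContinuousLinearMap.single_apply]
      ring
  simp only [h2, mul_left_comm _ (2 : ℂ), integral_const_mul, Pi.single_zero, add_zero] at h1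
  have h5 : (Real.pi : ℂ) ≠ 0 := ofReal_ne_zero.2 Real.pi_ne_zero
  unfold ct
  field_simp
  linear_combination -h1 / 2

theorem ct_congr {F G : E n → ℂ} (h : ∀ t, F (z + Pi.single k t) = G (z + Pi.single k t)) :
    ct r k F z = ct r k G z := by
  simp only [ct, h]

theorem ct_sub {F G H : E n → ℂ} (hF : Continuous fun t => F (z + Pi.single k t))
    (hG : Continuous fun t => G (z + Pi.single k t))
    (h : ∀ t, H (z + Pi.single k t) = F (z + Pi.single k t) - G (z + Pi.single k t)) :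
    ct r k H z = ct r k F z - ct r k G z := by
  simp only [ct, h, mul_sub]
  rw [integral_sub (intg hF (wg_kw _)) (intg hG (wg_kw _)), mul_sub]

theorem cd_dbar (hφ : ContDiff ℝ ∞ φ) : ContDiff ℝ ∞ fun s => dbar φ s / 2 := by
  have h : ∀ v : ℂ, ContDiff ℝ ∞ fun s => fderiv ℝ φ s v := fun v =>
    (hφ.fderiv_right (m := ∞) (by simp)).clm_apply contDiff_const
  exact ((h 1).add (contDiff_const.mul (h I))).div_const _

/-- One step: the component `k` is removed. -/
theorem step {a : Fin n → E n → ℂ} (hr : 0 < r) (k : Fin n)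
    (ha : ∀ i, ∀ z ∈ ball c r, ContDiffAt ℝ (m + 1 : ℕ) (a i) z)
    (hcl : ∀ z ∈ ball c r, ∀ i j, dzb i (a j) z = dzb j (a i) z) :
    ∃ (u : E n → ℂ) (b : Fin n → E n → ℂ), ∀ z ∈ ball c (r / 4),
      ContDiffAt ℝ (m + 1 : ℕ) u z ∧ (∀ i, ContDiffAt ℝ (m + 1 : ℕ) (b i) z) ∧
      (∀ i j, dzb i (b j) z = dzb j (b i) z) ∧ (∀ i, dzb i u z = a i z - b i z) ∧ b k z = 0 ∧
      ∀ i, (∀ y ∈ ball c r, a i y = 0) → b i z = 0 := by
  let χ : ContDiffBump (c k) := ⟨r / 4, r / 2, by positivity, by linarith⟩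
  set φ : ℂ → ℂ := fun s => (χ s : ℂ) with hφd
  have hφ : ContDiff ℝ ∞ φ := ofRealCLM.contDiff.comp χ.contDiff
  have h0 : ∀ s, r / 2 < dist s (c k) → φ s = 0 := fun s hs => by
    simp only [hφd, χ.zero_of_le_dist (le_of_lt hs), ofReal_zero]
  set ψ : ℂ → ℂ := fun s => dbar φ s / 2 with hψd
  have hψ : ContDiff ℝ ∞ ψ := cd_dbar hφ
  have g0 : ∀ s, r / 2 < dist s (c k) → ψ s = 0 := fun s hs => by
    simp only [hψd, dbar_out h0 hs, zero_div]
  have h1 : ∀ s, dist s (c k) < r / 4 → φ s = 1 := fun s hs => by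
    simp only [hφd, χ.one_of_mem_closedBall (le_of_lt hs), ofReal_one]
  have g1 : ∀ s, dist s (c k) < r / 4 → ψ s = 0 := fun s hs => by
    have : φ =ᶠ[𝓝 s] fun _ => 1 := by
      filter_upwards [(isOpen_lt (by fun_prop : Continuous fun y : ℂ => dist y (c k))
        continuous_const).mem_nhds hs] with x hx
      exact h1 _ hx
    simp [hψd, dbar, this.fderiv_eq]
  refine ⟨ct r k (cut k φ (a k)), fun j => if j = k then fun _ => 0 else ct r k (cut k ψ (a j)),
    fun z hz => ?_⟩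
  have hz' : z ∈ ball c r := ball_subset_ball (by linarith) hz
  have hk : dist (z k) (c k) < r / 4 := (dist_pi_lt_iff (by positivity)).1 hz k
  have hb : ∀ j, dzb k (ct r k (cut k ψ (a j))) z = 0 := fun j => by
    rw [ct_dzb hr hψ g0 (ha j) hz', ct_pomp hr hψ g0 (ha j) hz', cut, g1 _ hk, zero_mul]
  refine ⟨ct_cd hr hφ h0 (ha k) hz', fun i => ?_, fun i j => ?_, fun i => ?_, by simp,
    fun i hi => ?_⟩
  · by_cases e : i = k
    · simp only [e, if_true]
      exact contDiffAt_const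
    · simp only [e, if_false]
      exact ct_cd hr hψ g0 (ha i) hz'
  · by_cases ei : i = k
    · by_cases ej : j = k
      · rw [ei, ej]
      · simp only [ei, ej, if_true, if_false, dzb_const, hb]
    by_cases ej : j = k
    · simp only [ei, ej, if_true, if_false, dzb_const, hb]
    simp only [ei, ej, if_false]
    rw [ct_dzb hr hψ g0 (ha j) hz', ct_dzb hr hψ g0 (ha i) hz']
    refine ct_congr fun t => ?_
    rw [dzb_cut hr hψ g0 (ha j) hz', dzb_cut hr hψ g0 (ha i) hz', if_neg ei, if_neg ej]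
    rcases alt (k := k) hr hz' t with h | h
    · rw [hcl _ h, zero_mul, zero_mul]
    · rw [g0 _ h]
      simp
  · rw [ct_dzb hr hφ h0 (ha k) hz']
    have e1 : ∀ j, ct r k (dzb k (cut k φ (a j))) z = a j z := fun j => by
      rw [ct_pomp hr hφ h0 (ha j) hz', cut, h1 _ hk, one_mul]
    by_cases e : i = k
    · simp only [e, if_true, e1, sub_zero]
    simp only [e, if_false]
    rw [← e1 i]
    refine ct_sub ?_ ((cut_jk hr hψ g0 (ha i)).left hz').continuous fun t => ?_
    · have := (((cut_jk hr hφ h0 (ha i)).dzb isOpen_ball k).left hz').continuous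
      simpa only [dzb, fd_shift] using this
    rw [dzb_cut hr hφ h0 (ha k) hz', dzb_cut hr hφ h0 (ha i) hz', if_neg e, if_pos rfl, cut]
    rcases alt (k := k) hr hz' t with h | h
    · rw [hcl _ h]
      simp only [hψd]
      ring
    · rw [h0 _ h]
      simp only [hψd]
      ring
  · by_cases e : i = k
    · simp only [e, if_true]
    simp only [e, if_false]
    rw [ct_congr (G := fun _ => 0) fun t => ?_]
    · simp [ct]
    rcases alt (k := k) hr hz' t with h | h
    · rw [cut, hi _ h, mul_zero]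
    · rw [cut, g0 _ h, zero_mul]

theorem dolk' {a : Fin n → E n → ℂ} {R : ℝ} (hR : 0 < R)
    (ha : ∀ i, ∀ z ∈ ball c R, ContDiffAt ℝ (m + 1 : ℕ) (a i) z)
    (hcl : ∀ z ∈ ball c R, ∀ i j, dzb i (a j) z = dzb j (a i) z) :
    ∃ r, 0 < r ∧ r ≤ R ∧ ∃ G : E n → ℂ, ∀ z ∈ ball c r,
      ContDiffAt ℝ (m + 1 : ℕ) G z ∧ ∀ i, dzb i G z = a i z := by
  have key : ∀ k, k ≤ n → ∃ r, 0 < r ∧ r ≤ R ∧ ∃ (G : E n → ℂ) (b : Fin n → E n → ℂ),
      ∀ z ∈ ball c r, ContDiffAt ℝ (m + 1 : ℕ) G z ∧ (∀ i, ContDiffAt ℝ (m + 1 : ℕ) (b i) z) ∧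
      (∀ i j, dzb i (b j) z = dzb j (b i) z) ∧ (∀ i, dzb i G z = a i z - b i z) ∧
      ∀ i : Fin n, i.val < k → b i z = 0 := by
    intro k
    induction k with
    | zero => exact fun _ => ⟨R, hR, le_rfl, fun _ => 0, a, fun z hz =>
        ⟨contDiffAt_const, fun i => ha i z hz, hcl z hz, by simp, by simp⟩⟩
    | succ k ih =>
      intro hk
      obtain ⟨r, h0, h1, G, b, hG⟩ := ih (by omega)
      obtain ⟨u, b', hu⟩ := step (m := m) h0 ⟨k, hk⟩ (fun i z hz => (hG z hz).2.1 i)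
        fun z hz => (hG z hz).2.2.1
      refine ⟨r / 4, by positivity, by linarith, fun z => G z + u z, b', fun z hz => ?_⟩
      have hz' : z ∈ ball c r := ball_subset_ball (by linarith) hz
      obtain ⟨u1, u2, u3, u4, u5, u6⟩ := hu z hz
      refine ⟨(hG z hz').1.add u1, u2, u3, fun i => ?_, fun i hi => ?_⟩
      · rw [dzb_add ((hG z hz').1.differentiableAt (ne1 m)) (u1.differentiableAt (ne1 m)),
          (hG z hz').2.2.2.1, u4]
        ring
      by_cases e : i = ⟨k, hk⟩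
      · rw [e, u5]
      have hi' : i.val < k := by
        have : i.val ≠ k := fun h => e (Fin.ext h)
        omega
      exact u6 i fun y hy => (hG y hy).2.2.2.2 i hi'
  obtain ⟨r, h0, h1, G, b, hG⟩ := key n le_rfl
  exact ⟨r, h0, h1, G, fun z hz => ⟨(hG z hz).1, fun i => by
    rw [(hG z hz).2.2.2.1, (hG z hz).2.2.2.2 i i.2, sub_zero]⟩⟩

/-- The equation for a closed form of class `m + 1` has a local solution of class `m + 1`. -/
theorem dolk {a : Fin n → E n → ℂ} {R : ℝ} (hR : 0 < R)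
    (ha : ∀ i, ContDiffOn ℝ (m + 1 : ℕ) (a i) (ball c R))
    (hcl : ∀ z ∈ ball c R, ∀ i j, dzb i (a j) z = dzb j (a i) z) :
    ∃ r, 0 < r ∧ r ≤ R ∧ ∃ G : E n → ℂ, ContDiffOn ℝ (m + 1 : ℕ) G (ball c r) ∧
      ∀ z ∈ ball c r, ∀ i, dzb i G z = a i z := by
  obtain ⟨r, h0, h1, G, hG⟩ := dolk' (m := m) hR
    (fun i z hz => (ha i).contDiffAt (isOpen_ball.mem_nhds hz)) hcl
  exact ⟨r, h0, h1, G, fun z hz => (hG z hz).1.contDiffWithinAt, fun z hz => (hG z hz).2⟩

end Pool.Agent.Lib.F4.D91
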