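import Pool.Agent.Lib.F4.BlueT
import Pool.Agent.Lib.F4.Dolk91

/-! Project f4, step six, row DK. -/

namespace Pool.Agent.Lib.F4.T6

theorem tDK : St_DK := fun n f c r hr h => by
  obtain ⟨r', h0, h1, G, hG⟩ := D91.dolk' (m := 2) (a := fun l z => f z l) (c := c) hr
    (fun i z hz => (h z hz).1 i) fun z hz i j => (h z hz).2 j i
  exact ⟨G, r', h0, h1, hG⟩

end Pool.Agent.Lib.F4.T6
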