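import Pool.Agent.Lib.F4.BlueT

/-! Project f4, step six: local data on small balls. -/

open scoped Classical Topology ContDiff ComplexOrder Matrix
open Set Filter MeasureTheory Metric

noncomputable section

namespace Pool.Agent.Lib.F4.T6

open Pool.Agent.Lib.SV (E)
open Pool.Agent.Lib.HS32

theorem tDT (hDK : St_DK) (hAF : St_AF) : St_DT := by
  intro n M α φ ψ s hI x
  obtain ⟨e, he, hx⟩ := M.cov x
  obtain ⟨r, hr, hb⟩ := Metric.isOpen_iff.1 e.open_target (e x) (e.map_source hx)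
  obtain ⟨G, ρ, hρ, hle, hG⟩ := hDK n (af (α e) (ψ e) s) (e x) r hr fun z hz =>
    hAF n (α e) (φ e) (ψ e) s z (hI.pt e he z (hb hz))
  exact ⟨e, ρ, G, hρ, hx, he, isOpen_ball, (ball_subset_ball hle).trans hb,
    fun z hz => ⟨(hG z hz).1, (hG z hz).2⟩⟩

end Pool.Agent.Lib.F4.T6
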