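import Pool.Agent.Lib.F4.BlueT

/-! Project f4, step six, row E0: the curvature of the triple is zero. -/

open scoped Classical Topology ContDiff ComplexOrder Matrix
open Set Filter

noncomputable section

namespace Pool.Agent.Lib.F4.T6

open Pool.Agent.Lib.SV (E)
open Pool.Agent.Lib.HS32 Pool.Agent.Lib.HLK

namespace E0

variable {n : ℕ} {U : Set (E n)} {z : E n} {b g : E n → E n}

theorem hol (hU : IsOpen U) (hb : DifferentiableOn ℂ b U) (hz : z ∈ U) : HolN b z :=
  hb.eventually_differentiableAt (hU.mem_nhds hz)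

theorem cmp (h : HolN b z) (i : Fin n) : HolN (fun w => b w i) z :=
  h.mono fun _ hw => differentiableAt_pi.1 hw i

theorem ent (hb : HolN b z) (hg : HolN g z) (i j : Fin n) : HolN (fun w => cv b g w i j) z := by
  have d := fun i j => ((mHOL n _ z).2.2 (cmp hg j)).2.1 i
  filter_upwards [d i j, d j i, cmp hb i, cmp hb j, cmp hg i, cmp hg j] with w h1 h2 h3 h4 h5 h6
  exact (h1.sub h2).add ((h3.mul h6).sub (h5.mul h4))

theorem alt (b g : E n → E n) (z : E n) : (cv b g z)ᵀ = -cv b g z := by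
  ext i j
  simp only [cv, d1, wg, Matrix.transpose_apply, Matrix.add_apply, Matrix.of_apply,
    Matrix.neg_apply]
  ring

end E0

open E0 in
theorem tE0 (hEL : St_EL) (hGL : St_GL) : St_E0 := by
  intro n M ι e D al b g c h0 he hD hs hc hh hg
  obtain ⟨T, hT, eT⟩ := hGL n M (-1) ι e D (fun a => cv (b a) (g a)) he hD hc
    (fun a x hx => ⟨ent (hol (hD a) (hh a).2.1 hx.2) (hol (hD a) (hh a).2.2.1 hx.2), alt _ _ _⟩)
    fun a a' x hx hx' => by
      obtain ⟨h1, h2, -, h4, -⟩ := (mTR n M).2.1 _ (he a) _ (he a') x hx.1 hx'.1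
      have e1 : (e a ∘ (e a').symm) (e a' x) = e a x := by
        rw [Function.comp_apply, (e a').left_inv hx'.1]
      have h5 : ∀ᶠ w in 𝓝 (e a' x), (e a ∘ (e a').symm) w ∈ D a :=
        h1.self_of_nhds.continuousAt.eventually ((hD a).mem_nhds (e1 ▸ hx.2))
      have k : ∀ᶠ w in 𝓝 (e a' x), e a' ((e a').symm w) = w ∧
          M.J (e a) (e a') ((e a').symm w) = jm (e a ∘ (e a').symm) w ∧
          Gg (e a) (e a') (al a) (b a) (g a) (al a') (b a') (g a') (c a a') ((e a').symm w) := by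
        filter_upwards [h4, h5, (hD a').mem_nhds hx'.2] with w hw hw5 hw6
        exact ⟨hw.2.2.2.2.2.1, hw.2.2.2.2.2.2, hg a a' _ ⟨hw.2.1, hw5⟩
          ⟨hw.2.2.1, by rw [hw.2.2.2.2.2.1]; exact hw6⟩⟩
      have t := hEL n (e a ∘ (e a').symm) (al a) (b a) (g a) (al a') (b a') (g a') (c a a')
        (e a' x) h1 h2 (hol (hD a) (hh a).1 (e1 ▸ hx.2)) (hol (hD a) (hh a).2.1 (e1 ▸ hx.2))
        (hol (hD a) (hh a).2.2.1 (e1 ▸ hx.2)) (hol (hD a') (hh a').1 hx'.2)
        (hol (hD a') (hh a').2.1 hx'.2) (k.mono fun w hw => by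
          have t := hw.2.2.dc
          rwa [hw.1] at t)
        ((hh a').2.2.2 _ hx'.2).1 ((hh a').2.2.2 _ hx'.2).2 (k.mono fun w hw => by
          have t1 := hw.2.2.ea
          have t2 := hw.2.2.eb
          have t3 := hw.2.2.eg
          rw [hw.2.1, hw.1] at t1 t2 t3
          exact ⟨t1, fun j => ⟨t2 j, t3 j⟩⟩)
      rw [e1] at t
      rw [zpow_neg_one]
      exact t
  intro a z hz
  have hz' := hs a hz
  have t := eT a ((e a).symm z) ⟨(e a).map_target hz', by rw [(e a).right_inv hz']; exact hz⟩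
  rw [(e a).right_inv hz'] at t
  exact t.symm.trans (h0 T hT _ (he a) z hz')

end Pool.Agent.Lib.F4.T6
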