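import Pool.Agent.Lib.F4.BlueT
import Pool.Agent.Lib.F4.A_D1

/-! Project f4, step six: the change of chart for the curvature form of a triple. -/

open scoped Classical Topology ContDiff ComplexOrder Matrix
open Set Filter

noncomputable section

namespace Pool.Agent.Lib.F4.T6

open Pool.Agent.Lib.SV (E)
open Pool.Agent.Lib.HS32 Pool.Agent.Lib.HLK

namespace EL

variable {n : ℕ}

theorem co {a : E n → E n} {z : E n} (h : HolN a z) (k : Fin n) : HolN (fun w => a w k) z := by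
  filter_upwards [h] with w hw using differentiableAt_pi.1 hw k

theorem df {f : E n → ℂ} {z : E n} (h : HolN f z) : DifferentiableAt ℝ f z :=
  cd_diff ((mHOL n _ _).2.2 h).1

theorem wgJ (u v : E n) (J : Mat n) : Jᵀ * wg u v * J = wg (u ᵥ* J) (v ᵥ* J) := by
  ext i j
  simp only [Matrix.mul_apply, Matrix.transpose_apply, wg, Matrix.of_apply, Matrix.vecMul,
    dotProduct, mul_sub, Finset.sum_sub_distrib, sub_mul, Finset.sum_mul, Finset.mul_sum]
  exact congrArg₂ _ (Finset.sum_congr rfl fun b _ => Finset.sum_congr rfl fun c _ => by ring)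
    (Finset.sum_congr rfl fun b _ => Finset.sum_congr rfl fun c _ => by ring)

theorem one {γ a b g : E n → E n} {c : E n → ℂ} {z : E n}
    (hγ : ∀ k, DifferentiableAt ℝ (fun w => γ w k) z) (ha : HolN a z) (hb : HolN b z)
    (hc : HolN c z)
    (e : ∀ᶠ w in 𝓝 z, ∀ k, g w k = γ w k + dz k c w + c w * b w k + c w ^ 2 / 2 * a w k)
    (i j : Fin n) :
    dz i (fun w => g w j) z = dz i (fun w => γ w j) z + dz i (dz j c) z +
      (dz i c z * b z j + c z * dz i (fun w => b w j) z) +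
      (c z * dz i c z * a z j + c z ^ 2 / 2 * dz i (fun w => a w j) z) := by
  have e1 : (fun w => g w j) =ᶠ[𝓝 z]
      fun w => γ w j + dz j c w + c w * b w j + 2⁻¹ * (c w * c w) * a w j := by
    filter_upwards [e] with w hw
    rw [hw j]
    ring
  have d0 := df hc
  have d1' : DifferentiableAt ℝ (dz j c) z := df (((mHOL n _ _).2.2 hc).2.1 j)
  have d2 := df (co hb j)
  have d3 := df (co ha j)
  have d4 : DifferentiableAt ℝ (fun w => c w * c w) z := d0.mul d0
  have d5 : DifferentiableAt ℝ (fun w => 2⁻¹ * (c w * c w)) z := d4.const_mul _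
  have d6 : DifferentiableAt ℝ (fun w => γ w j + dz j c w) z := (hγ j).add d1'
  have d7 : DifferentiableAt ℝ (fun w => c w * b w j) z := d0.mul d2
  have d8 : DifferentiableAt ℝ (fun w => γ w j + dz j c w + c w * b w j) z := d6.add d7
  have d9 : DifferentiableAt ℝ (fun w => 2⁻¹ * (c w * c w) * a w j) z := d5.mul d3
  rw [dz_congr e1, dz_add d8 d9, dz_add d6 d7, dz_add (hγ j) d1', dz_mul d0 d2, dz_mul d5 d3,
    dz_const_mul _ d4, dz_mul d0 d0]
  ring

end EL

theorem tEL : St_EL := by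
  intro n ψ a b g a' b' g' c z hψ h0 ha hb hg ha' hb' hc e1 e2 e
  obtain ⟨s1, s2, -, -, s5, -⟩ := mCHN n ψ z hψ
  obtain ⟨γ, hγ⟩ : ∃ γ : E n → E n,
      γ = fun w => (jm ψ w).det ^ (-1 : ℤ) • (g (ψ w) ᵥ* jm ψ w) := ⟨_, rfl⟩
  have g1 : ∀ w k, γ w k = ((jm ψ w).det)⁻¹ * ∑ l, g (ψ w) l * jm ψ w l k := fun w k => by
    rw [hγ]
    simp only [zpow_neg_one, Pi.smul_apply, smul_eq_mul]
    rfl
  have g2 : ∀ w k, (g (ψ w) ᵥ* jm ψ w) k / (jm ψ w).det = γ w k := fun w k => by
    rw [g1, div_eq_inv_mul]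
    rfl
  have dγ : ∀ k, DifferentiableAt ℝ (fun w => γ w k) z := fun k => by
    simp only [g1]
    exact ((EL.df s5).inv h0).mul (DifferentiableAt.fun_sum fun l _ =>
      ((EL.df (EL.co hg l)).comp z (cd_diff s1)).mul (s2.diff l k))
  have p := D1.euc (β := g) (γ := γ) (a := -1) hψ h0 (EL.co hg)
    (Eventually.of_forall fun w => by rw [hγ])
  have ee : ∀ᶠ w in 𝓝 z, ∀ k,
      g' w k = γ w k + dz k c w + c w * b' w k + c w ^ 2 / 2 * a' w k := by
    filter_upwards [e] with w hw k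
    rw [(hw.2 k).2, g2]
  have q := EL.one dγ ha' hb' hc ee
  have z1 := ee.self_of_nhds
  have z2 := fun k => (e.self_of_nhds.2 k).1
  have sy := dz_dz ((mHOL n _ _).2.2 hc).1
  ext i j
  have p1 := congrFun (congrFun p i) j
  have a1 := congrFun (congrFun e1 i) j
  have a2 := congrFun (congrFun e2 i) j
  have w1 := congrFun (congrFun (EL.wgJ (b (ψ z)) (g (ψ z)) (jm ψ z)) i) j
  have y := fun k => (div_eq_iff h0).1 (g2 z k)
  rw [cv, cv, Matrix.mul_add, Matrix.add_mul, Matrix.smul_apply, Matrix.add_apply,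
    Matrix.add_apply, w1]
  rw [Matrix.add_apply, Matrix.smul_apply, zpow_neg_one] at p1
  generalize ((jm ψ z)ᵀ * d1 g (ψ z) * jm ψ z) i j = X at p1 ⊢
  simp only [d1, wg, Matrix.of_apply, smul_eq_mul] at p1 a1 a2 ⊢
  rw [q i j, q j i, sy i j, y i, y j]
  have u1 : (b (ψ z) ᵥ* jm ψ z) i = b' z i - dz i (fun w => (jm ψ w).det) z / (jm ψ z).det +
      c z * a' z i := by rw [z2 i]; ring
  have u2 : (b (ψ z) ᵥ* jm ψ z) j = b' z j - dz j (fun w => (jm ψ w).det) z / (jm ψ z).det +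
      c z * a' z j := by rw [z2 j]; ring
  rw [u1, u2]
  rw [z1 i, z1 j] at a2 ⊢
  have h1 : (jm ψ z).det⁻¹ * (jm ψ z).det = 1 := inv_mul_cancel₀ h0
  push_cast at p1
  linear_combination p1 + c z * a2 + c z ^ 2 / 2 * a1 -
    ((b' z i - dz i (fun w => (jm ψ w).det) z / (jm ψ z).det + c z * a' z i) * γ z j -
      γ z i * (b' z j - dz j (fun w => (jm ψ w).det) z / (jm ψ z).det + c z * a' z j)) * h1

end Pool.Agent.Lib.F4.T6
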