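import Pool.Agent.Lib.F4.T_X1

/-! Project f4, step six: the gauge law without the third form. -/

open scoped Classical Topology ContDiff ComplexOrder Matrix
open Set Filter MeasureTheory Metric

set_option linter.unusedVariables false

noncomputable section

namespace Pool.Agent.Lib.F4.T6

open Pool.Agent.Lib.SV (E)
open Pool.Agent.Lib.HS32 Pool.Agent.Lib.HLK

namespace G1

variable {n : ℕ}

theorem der {ψ : E n → E n} {G G' : E n → ℂ} {z : E n} (hψ : HolN ψ z) (h0 : (jm ψ z).det ≠ 0)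
    (hG : DifferentiableAt ℝ G (ψ z)) (hG' : DifferentiableAt ℝ G' z) :
    DifferentiableAt ℝ (fun w => G' w - G (ψ w) / (jm ψ w).det) z ∧ ∀ k,
    dz k (fun w => G' w - G (ψ w) / (jm ψ w).det) z = dz k G' z -
      ((∑ i, dz i G (ψ z) * jm ψ z i k) / (jm ψ z).det -
        G (ψ z) * dz k (fun w => (jm ψ w).det) z / (jm ψ z).det ^ 2) ∧
    dzb k (fun w => G' w - G (ψ w) / (jm ψ w).det) z = dzb k G' z -
      (∑ i, dzb i G (ψ z) * star (jm ψ z i k)) / (jm ψ z).det := by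
  obtain ⟨c1, -, -, -, c5, -, -, -, -, c10, -⟩ := mCHN n ψ z hψ
  have d1 : DifferentiableAt ℝ (G ∘ ψ) z := hG.comp z (cd_diff c1)
  have d2 : DifferentiableAt ℝ (fun w => (jm ψ w).det) z := cd_diff ((mHOL n _ z).2.2 c5).1
  have d3 : DifferentiableAt ℝ (fun w => ((jm ψ w).det)⁻¹) z := d2.inv h0
  have d4 : DifferentiableAt ℝ (fun w => (G ∘ ψ) w * ((jm ψ w).det)⁻¹) z := d1.mul d3
  have e : (fun w => G' w - G (ψ w) / (jm ψ w).det) =
      fun w => G' w - (G ∘ ψ) w * ((jm ψ w).det)⁻¹ := by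
    funext w
    rw [div_eq_mul_inv]
    rfl
  rw [e]
  refine ⟨hG'.sub d4, fun k => ⟨?_, ?_⟩⟩
  · rw [dz_sub hG' d4, dz_mul d1 d3, dz_inv d2 h0, (c10 G hG k).1, Function.comp_apply]
    field_simp
    ring
  · rw [dzb_sub hG' d4, dzb_mul d1 d3, dzb_inv d2 h0, (c10 G hG k).2,
      ((mHOL n _ z).1 d2).1 c5.self_of_nhds k]
    field_simp
    ring

theorem hol {ψ a a' : E n → E n} {q q' : E n → ℝ} {s : ℝ} {G G' : E n → ℂ} {z : E n}
    (hψ : HolN ψ z) (h0 : (jm ψ z).det ≠ 0) (hG : Pr a q s G (ψ z)) (hG' : Pr a' q' s G' z)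
    (e1 : a' z = (jm ψ z).det • (a (ψ z) ᵥ* jm ψ z))
    (e3 : q' z = q (ψ z) + Real.log (Complex.normSq (jm ψ z).det)) :
    DifferentiableAt ℂ (fun w => G' w - G (ψ w) / (jm ψ w).det) z := by
  obtain ⟨d, h⟩ := der hψ h0 (hG.sm.differentiableAt (by simp)) (hG'.sm.differentiableAt (by simp))
  refine ((mHOL n _ z).1 d).2 fun l => ?_
  have hn : 0 < Complex.normSq (jm ψ z).det := Complex.normSq_pos.2 h0
  have hs : star (jm ψ z).det ≠ 0 := star_ne_zero.2 h0
  have e2 : a' z l = (jm ψ z).det * ∑ i, a (ψ z) i * jm ψ z i l := by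
    rw [e1]; rfl
  have e4 : ((s * Real.exp (-q' z) : ℝ) : ℂ) =
      ((s * Real.exp (-q (ψ z)) : ℝ) : ℂ) / ((jm ψ z).det * star (jm ψ z).det) := by
    rw [e3, neg_add, Real.exp_add, Real.exp_neg (Real.log _), Real.exp_log hn, Complex.star_def,
      Complex.mul_conj]
    push_cast
    ring
  rw [(h l).2, hG'.eq]
  simp only [hG.eq, af]
  rw [e4, e2, star_mul', star_sum, sub_eq_zero, Finset.mul_sum, Finset.mul_sum, Finset.sum_div]
  refine Finset.sum_congr rfl fun i _ => ?_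
  rw [star_mul']
  field_simp

end G1

theorem tG1 : St_G1 := by
  intro n ψ a a' p q p' q' s G G' z hψ h0 hP hG hG' he
  obtain ⟨c1, -, -, -, c5, -⟩ := mCHN n ψ z hψ
  have k5 := (mHOL n _ z).2.2 c5
  have g0 := hG.self_of_nhds
  have g1 := hG'.self_of_nhds
  refine ⟨?_, fun k => ?_⟩
  · filter_upwards [hψ.eventually_nhds, k5.1.continuousAt.eventually_ne h0,
      c1.continuousAt.eventually hG, hG', he] with w w1 w2 w3 w4 w5
    exact G1.hol w1 w2 w3 w4 w5.1 w5.2.2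
  have hp := X1.law hψ h0 hP.sp (he.mono fun w h => h.2.1) k
  rw [(k5.2.2.2 h0).2.2 k] at hp
  have hd := ((G1.der hψ h0 (g0.sm.differentiableAt (by simp))
    (g1.sm.differentiableAt (by simp))).2 k).1
  have e2 : a' z k = (jm ψ z).det * ∑ i, a (ψ z) i * jm ψ z i k := by
    rw [he.self_of_nhds.1]; rfl
  have e5 : (be a p G (ψ z) ᵥ* jm ψ z) k = ∑ i, dz i (rc p) (ψ z) * jm ψ z i k -
      G (ψ z) * ∑ i, a (ψ z) i * jm ψ z i k := by
    rw [Finset.mul_sum, ← Finset.sum_sub_distrib]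
    show ∑ i, be a p G (ψ z) i * jm ψ z i k = _
    exact Finset.sum_congr rfl fun i _ => by simp only [be]; ring
  have e6 : (rho a p G (ψ z) ᵥ* jm ψ z) k = G (ψ z) ^ 2 / 2 * ∑ i, a (ψ z) i * jm ψ z i k -
      (∑ i, dz i G (ψ z) * jm ψ z i k + G (ψ z) * ∑ i, dz i (rc p) (ψ z) * jm ψ z i k) := by
    rw [Finset.mul_sum, Finset.mul_sum, ← Finset.sum_add_distrib, ← Finset.sum_sub_distrib]
    show ∑ i, rho a p G (ψ z) i * jm ψ z i k = _
    exact Finset.sum_congr rfl fun i _ => by simp only [rho]; ring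
  rw [hd, e5, e6]
  simp only [be, rho]
  rw [hp, e2]
  constructor <;> field_simp <;> ring

end Pool.Agent.Lib.F4.T6
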