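import Pool.Agent.Lib.F4.BlueT
import Pool.Agent.Lib.CY.B_WEU
import Pool.Agent.Lib.HS32.MAll
import Pool.Agent.Lib.HS32.EKit

/-! Project f4, step six, row GA: the third form of the triple. -/

open scoped Classical Topology ContDiff ComplexOrder Matrix ComplexConjugate
open Set Filter MeasureTheory Metric

set_option linter.unusedVariables false

noncomputable section

namespace Pool.Agent.Lib.F4.T6

open Pool.Agent.Lib.SV (E)
open Pool.Agent.Lib.HS32 Pool.Agent.Lib.HLK

namespace GA

variable {n : ℕ} {U : Set (E n)} {θ : E n → ℂ}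

theorem zb {v : E n} (h : v ∉ tsupport θ) (j : Fin n) : dzb j θ v = 0 := by
  have : fderiv ℝ θ v = 0 := Function.notMem_support.1 fun c => h (support_fderiv_subset ℝ c)
  simp [dzb, this]

theorem tstar (h : Tst U θ) : Tst U fun w => star (θ w) := by
  have e : tsupport (fun w => star (θ w)) = tsupport θ := by
    have : Function.support (fun w => star (θ w)) = Function.support θ := by
      ext w
      simp
    rw [tsupport, this, tsupport]
  refine ⟨contDiff_iff_contDiffAt.2 fun z => cd_star h.1.contDiffAt, ?_, e ▸ h.2.2⟩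
  rw [HasCompactSupport, e]
  exact h.2.1

theorem tmul {a : E n → ℂ} (h : Tst U θ) (ha : ∀ z ∈ U, HolN a z) : Tst U fun w => a w * θ w := by
  refine ⟨contDiff_iff_contDiffAt.2 fun z => ?_, h.2.1.mul_left,
    (tsupport_mul_subset_right (f := a) (g := θ)).trans h.2.2⟩
  by_cases hz : z ∈ tsupport θ
  · exact ((mHOL n a z).2.2 (ha z (h.2.2 hz))).1.mul h.1.contDiffAt
  · refine (contDiffAt_const (c := (0 : ℂ))).congr_of_eventuallyEq ?_
    filter_upwards [notMem_tsupport_iff_eventuallyEq.1 hz] with w hw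
    rw [hw]
    simp

theorem dmul {a : E n → ℂ} (h : Tst U θ) (ha : ∀ z ∈ U, HolN a z) (j : Fin n) (z : E n) :
    dzb j (fun w => a w * θ w) z = a z * dzb j θ z := by
  by_cases hz : z ∈ tsupport θ
  · have h1 := ha z (h.2.2 hz)
    have h2 : DifferentiableAt ℝ a z := cd_diff ((mHOL n a z).2.2 h1).1
    rw [dzb_mul h2 (cd_diff h.1.contDiffAt), (((mHOL n a z).1 h2).1 h1.self_of_nhds) j]
    ring
  · rw [zb hz, zb fun c => hz (tsupport_mul_subset_right (f := a) (g := θ) c), mul_zero]

theorem cdzb (h : Tst U θ) (j : Fin n) : Continuous (dzb j θ) := by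
  have := h.1.continuous_fderiv (by simp)
  unfold dzb
  fun_prop

theorem one (hIB : St_IB) {a ρ r : E n → ℂ} {ξ : E n → E n} (hU : IsOpen U)
    (ha : ∀ z ∈ U, HolN a z) (hρ : ∀ z ∈ U, ContDiffAt ℝ 2 ρ z)
    (he : ∀ z ∈ U, ∀ l, dzb l ρ z = a z * ξ z l) (hr : LocallyIntegrableOn r U) (hw : Wd U r ξ) :
    ∃ F : E n → ℂ, DifferentiableOn ℂ F U ∧ ∀ᵐ z, z ∈ U → F z = r z * a z - ρ z := by
  have ca : ContinuousOn a U := fun z hz =>
    (ha z hz).self_of_nhds.continuousAt.continuousWithinAt
  have cρ : ContinuousOn ρ U := fun z hz => (hρ z hz).continuousAt.continuousWithinAt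
  have l1 : LocallyIntegrableOn (fun z => r z * a z) U :=
    hr.mul_continuousOn ca hU.isLocallyClosed
  refine CY.cWEU n U _ hU (l1.sub (cρ.locallyIntegrableOn hU.measurableSet))
    fun θ t1 t2 t3 j => ?_
  have hθ : Tst U fun w => star (θ w) := tstar ⟨t1, t2, t3⟩
  have i1 : Integrable fun z => r z * a z * dzb j (fun w => star (θ w)) z :=
    (((l1.integrableOn_compact_subset hθ.2.2 hθ.2.1).mul_continuousOn (cdzb hθ j).continuousOn
      hθ.2.1)).integrable_of_forall_notMem_eq_zero fun z hz => by rw [zb hz, mul_zero]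
  obtain ⟨i2, -, e2⟩ := hIB n U ρ _ hU hθ (fun z hz => (hρ z hz).of_le (by norm_num)) j
  have e1 := hw _ (tmul hθ ha) j
  have e3 : (fun z => dzb j ρ z * star (θ z)) = fun z => ξ z j * (a z * star (θ z)) := by
    funext z
    by_cases hz : z ∈ U
    · rw [he z hz]
      ring
    · rw [image_eq_zero_of_notMem_tsupport fun c => hz (t3 c)]
      simp
  have e4 : ∫ z, (r z * a z - ρ z) * dzb j (fun w => star (θ w)) z = 0 := by
    simp only [dmul hθ ha, ← mul_assoc] at e1
    simp only [sub_mul]
    rw [integral_sub i1 i2, e1, e2, e3]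
    simp only [← mul_assoc, sub_self]
  rw [setIntegral_eq_integral_of_forall_compl_eq_zero fun v hv => by
    rw [CY.WEU.zero (fun c => hv (t3 c)), zero_mul]]
  have e5 : (fun v => dz j θ v * star (r v * a v - ρ v)) =
      fun v => conj ((r v * a v - ρ v) * dzb j (fun w => star (θ w)) v) := by
    funext v
    rw [dzb_star (cd_diff t1.contDiffAt), map_mul, mul_comm]
    simp
  show ∫ v, dz j θ v * star (r v * a v - ρ v) = 0
  rw [e5, integral_conj, e4, map_zero]

end GA

theorem tGA (hIB : St_IB) : St_GA := by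
  intro n U a ξ ρ r hU h hr hw
  choose F hF he using fun k => GA.one hIB (a := (a · k)) (ρ := (ρ · k)) hU
    (fun z hz => (h z hz k).1) (fun z hz => (h z hz k).2.1) (fun z hz => (h z hz k).2.2) hr hw
  refine ⟨fun z k => F k z, differentiableOn_pi.2 hF, ?_⟩
  filter_upwards [ae_all_iff.2 he] with z hz hu k using hz k hu

end Pool.Agent.Lib.F4.T6
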