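import Pool.Agent.Lib.F4.BlueT

/-! Project f4, step six: the gauge law. -/

open scoped Classical Topology ContDiff ComplexOrder Matrix
open Set Filter MeasureTheory Metric

noncomputable section

namespace Pool.Agent.Lib.F4.T6

open Pool.Agent.Lib.SV (E)
open Pool.Agent.Lib.HS32 Pool.Agent.Lib.HLK

namespace GG82

variable {n : ℕ} {M : Mf n} {α : M.Fam (E n)} {φ ψ : M.Fam ℝ} {s : ℝ} {e e' : M.Ch}
  {D D' : Set (E n)} {G G' : E n → ℂ}

theorem key (hG1 : St_G1) (hI : Inp M α φ ψ s) (hd : Dt M α ψ s e D G) (hd' : Dt M α ψ s e' D' G')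
    {y : M.X} (hy : In e D y) (hy' : In e' D' y) : HolN (gc e e' G G') (e' y) ∧ ∀ k,
      be (α e') (φ e') G' (e' y) k = (be (α e) (φ e) G (e y) ᵥ* M.J e e' y) k +
        dz k (fun w => (jm (e ∘ e'.symm) w).det) (e' y) / (M.J e e' y).det -
          gc e e' G G' (e' y) * α e' (e' y) k ∧
      -rho (α e') (φ e') G' (e' y) k =
        -(rho (α e) (φ e) G (e y) ᵥ* M.J e e' y) k / (M.J e e' y).det +
        dz k (gc e e' G G') (e' y) + gc e e' G G' (e' y) * be (α e') (φ e') G' (e' y) k +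
        gc e e' G G' (e' y) ^ 2 / 2 * α e' (e' y) k := by
  obtain ⟨h1, h2, -, h4, -⟩ := (mTR n M).2.1 e hd.mem e' hd'.mem y hy.1 hy'.1
  have hex : (e ∘ e'.symm) (e' y) = e y := by simp [e'.left_inv hy'.1]
  have h := hG1 n (e ∘ e'.symm) (α e) (α e') (φ e) (ψ e) (φ e') (ψ e') s G G' (e' y) h1 h2
    (by rw [hex]; exact hI.pt e hd.mem _ (e.map_source hy.1))
    (by rw [hex]; exact (hd.op.eventually_mem hy.2).mono hd.pr)
    ((hd'.op.eventually_mem hy'.2).mono hd'.pr)
    (by
      filter_upwards [h4] with w ⟨_, a2, a3, _, _, a6, a7⟩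
      have b1 := hI.h1.cmp e hd.mem e' hd'.mem _ a2 a3
      have b2 := hI.cφ e hd.mem e' hd'.mem _ a2 a3
      have b3 := hI.cψ e hd.mem e' hd'.mem _ a2 a3
      simp only [jd, a6, a7, zpow_one] at b1 b2 b3
      exact ⟨b1, b2, b3⟩)
  refine ⟨h.1, fun k => ?_⟩
  have h' := h.2 k
  have hc : gc e e' G G' (e' y) = G' (e' y) - G (e y) / (jm (e ∘ e'.symm) (e' y)).det := by
    rw [gc, hex]
  rw [hex] at h'
  rw [hc]
  exact h'

theorem isOpen_in (hD : IsOpen D) : IsOpen {y : M.X | In e D y} := e.isOpen_inter_preimage hD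

end GG82

open GG82 in
theorem tGG (hBE : St_BE) (hG1 : St_G1) : St_GG := by
  intro n M _ H α φ ψ s r e e' D D' G G' γ γ' hH hI hS hd hd' ht ht' x hx hx'
  have ea : ∀ y, In e D y → In e' D' y →
      α e' (e' y) = (M.J e e' y).det • (α e (e y) ᵥ* M.J e e' y) := fun y hy hy' => by
    simpa only [zpow_one] using hI.h1.cmp e hd.mem e' hd'.mem y hy.1 hy'.1
  refine ⟨(key hG1 hI hd hd' hx hx').1.self_of_nhds, ea x hx hx',
    fun k => ((key hG1 hI hd hd' hx hx').2 k).1, fun k => ?_⟩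
  have := (mMU n M H hH).2.2.1
  have hO : IsOpen ({y : M.X | In e D y} ∩ {y | In e' D' y}) :=
    (isOpen_in hd.op).inter (isOpen_in hd'.op)
  refine Measure.eqOn_open_of_ae_eq (μ := M.mu H) (f := fun y => γ' (e' y) k)
    (g := fun y => (γ (e y) ᵥ* M.J e e' y) k / (M.J e e' y).det + dz k (gc e e' G G') (e' y) +
      gc e e' G G' (e' y) * be (α e') (φ e') G' (e' y) k +
      gc e e' G G' (e' y) ^ 2 / 2 * α e' (e' y) k) ?_ hO ?_ ?_ ⟨hx, hx'⟩
  · refine (ae_restrict_iff' hO.measurableSet).2 ?_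
    filter_upwards [hS.cmp, ht.ae, ht'.ae] with y h1 h2 h3 ⟨hy, hy'⟩
    have h0 := ((mTR n M).2.1 e hd.mem e' hd'.mem y hy.1 hy'.1).2.1
    have h4 : γ (e y) = r e (e y) • α e (e y) - rho (α e) (φ e) G (e y) := funext (h2 hy)
    have h5 := ((key hG1 hI hd hd' hy hy').2 k).2
    have h6 := congrFun (ea y hy hy') k
    rw [Pi.smul_apply, smul_eq_mul] at h6
    have h7 : r e' (e' y) * α e' (e' y) k =
        r e (e y) * (α e (e y) ᵥ* M.J e e' y) k / (M.J e e' y).det := by
      rw [h1 e hd.mem e' hd'.mem hy.1 hy'.1, h6, jd]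
      field_simp
    rw [h3 hy' k, h4, Matrix.sub_vecMul, Matrix.smul_vecMul, Pi.sub_apply, Pi.smul_apply,
      smul_eq_mul, h7]
    linear_combination h5
  · intro y ⟨_, hy'⟩
    exact (((continuous_apply k).continuousAt.comp
      (ht'.hol.continuousOn.continuousAt (hd'.op.mem_nhds hy'.2))).comp
        (e'.continuousAt hy'.1)).continuousWithinAt
  · intro y ⟨hy, hy'⟩
    obtain ⟨h1, h2, -⟩ := (mTR n M).2.1 e hd.mem e' hd'.mem y hy.1 hy'.1
    have c0 := e'.continuousAt hy'.1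
    have c1 : ContinuousAt (fun y => γ (e y)) y :=
      (ht.hol.continuousOn.continuousAt (hd.op.mem_nhds hy.2)).comp (e.continuousAt hy.1)
    have c2 : ContinuousAt (fun y => M.J e e' y) y := (mCHN n _ _ h1).2.1.continuousAt.comp c0
    have c3 : ContinuousAt (fun y => (M.J e e' y).det) y :=
      (continuous_id.matrix_det).continuousAt.comp c2
    have c4 : ContinuousAt (fun y => (γ (e y) ᵥ* M.J e e' y) k) y := by
      simp only [Matrix.vecMul, dotProduct]
      exact tendsto_finsetSum _ fun i _ => (continuousAt_pi.1 c1 i).mul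
        (continuousAt_pi.1 (continuousAt_pi.1 c2 i) k)
    have hk := (key hG1 hI hd hd' hy hy').1
    have c5 : ContinuousAt (fun y => gc e e' G G' (e' y)) y :=
      hk.self_of_nhds.continuousAt.comp c0
    have c6 : ContinuousAt (fun y => dz k (gc e e' G G') (e' y)) y :=
      (((mHOL n _ _).2.2 hk).2.1 k).self_of_nhds.continuousAt.comp c0
    have c7 : ContinuousAt (fun y => be (α e') (φ e') G' (e' y) k) y :=
      ((continuous_apply k).continuousAt.comp
        ((hBE n D' _ _ _ s G' hd'.op (fun z hz => hI.pt e' hd'.mem z (hd'.sub hz))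
          hd'.pr).1.continuousOn.continuousAt (hd'.op.mem_nhds hy'.2))).comp c0
    have c8 : ContinuousAt (fun y => α e' (e' y) k) y :=
      (hI.h1.hol e' hd'.mem _ (e'.map_source hy'.1) k).self_of_nhds.continuousAt.comp c0
    exact ((((c4.div c3 h2).add c6).add (c5.mul c7)).add
      (((c5.pow 2).div_const 2).mul c8)).continuousWithinAt

end Pool.Agent.Lib.F4.T6
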