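import Pool.Agent.Lib.F4.BlueT

/-! Project f4, step six: gluing of local forms of degree two. -/

open scoped Classical Topology ContDiff ComplexOrder Matrix
open Set Filter MeasureTheory Metric

set_option linter.unusedVariables false

noncomputable section

namespace Pool.Agent.Lib.F4.T6

open Pool.Agent.Lib.SV (E)
open Pool.Agent.Lib.HS32 Pool.Agent.Lib.HLK

namespace GL35

variable {n : ℕ}

/-- Transport of a matrix by a matrix. -/
def tp (m : ℤ) (J A : Mat n) : Mat n := J.det ^ m • (Jᵀ * A * J)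

theorem tp_tp (m : ℤ) (J K A : Mat n) : tp m K (tp m J A) = tp m (J * K) A := by
  unfold tp
  rw [Matrix.det_mul, mul_zpow, Matrix.transpose_mul, Matrix.mul_smul, Matrix.smul_mul, smul_smul,
    mul_comm (K.det ^ m)]
  simp only [Matrix.mul_assoc]

theorem tp_one (m : ℤ) (A : Mat n) : tp m 1 A = A := by
  unfold tp
  simp

theorem tp_alt (m : ℤ) (J A : Mat n) (h : Aᵀ = -A) : (tp m J A)ᵀ = -tp m J A := by
  unfold tp
  rw [Matrix.transpose_smul, Matrix.transpose_mul, Matrix.transpose_mul,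
    Matrix.transpose_transpose, h, ← smul_neg]
  simp only [Matrix.neg_mul, Matrix.mul_neg, Matrix.mul_assoc]

theorem hol_jm {ψ : E n → E n} {z : E n} (h : HolN ψ z) (i j : Fin n) :
    HolN (fun w => jm ψ w i j) z := by
  have h1 : HolN (dz j fun w => ψ w i) z :=
    ((mHOL n _ z).2.2 (BCHN.hol_comp h i)).2.1 j
  have h2 := BCHN.jm_ev mHOL h i j
  filter_upwards [h1, h2.eventually_nhds] with w hw hw'
  exact hw.congr_of_eventuallyEq hw'

theorem hol_tp (m : ℤ) {J A : E n → Mat n} {z : E n}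
    (hJ : ∀ i j, DifferentiableAt ℂ (fun w => J w i j) z)
    (hd : DifferentiableAt ℂ (fun w => (J w).det) z) (h0 : (J z).det ≠ 0)
    (hA : ∀ i j, DifferentiableAt ℂ (fun w => A w i j) z) (i j : Fin n) :
    DifferentiableAt ℂ (fun w => tp m (J w) (A w) i j) z := by
  have e : (fun w => tp m (J w) (A w) i j) =
      fun w => (J w).det ^ m * ∑ l, (∑ k, J w k i * A w k l) * J w l j := by
    funext w
    simp only [tp, Matrix.smul_apply, smul_eq_mul, Matrix.mul_apply, Matrix.transpose_apply]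
  rw [e]
  refine (hd.zpow (Or.inl h0)).mul ?_
  refine DifferentiableAt.fun_sum fun l _ => DifferentiableAt.mul ?_ (hJ l j)
  exact DifferentiableAt.fun_sum fun k _ => (hJ k i).mul (hA k l)

end GL35

open GL35 in
theorem tGL : St_GL := by
  intro n M m ι e D S he hD hcov hS hc
  choose c hcx using hcov
  have hT := mTR n M
  have key : ∀ a, ∀ e' ∈ M.C, ∀ x, In (e a) (D a) x → x ∈ e'.source →
      tp m (M.J (e (c x)) e' x) (S (c x) (e (c x) x)) = tp m (M.J (e a) e' x) (S a (e a x)) := by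
    intro a e' he' x hx hx'
    have h1 : S (c x) (e (c x) x) = tp m (M.J (e a) (e (c x)) x) (S a (e a x)) :=
      hc a (c x) x hx (hcx x)
    rw [h1, tp_tp, ← (hT.2.1 (e a) (he a) (e (c x)) (he _) x hx.1 (hcx x).1).2.2.2.2 e' he' hx']
  refine ⟨fun e' z => tp m (M.J (e (c (e'.symm z))) e' (e'.symm z))
    (S (c (e'.symm z)) (e (c (e'.symm z)) (e'.symm z))), ⟨?_, ?_, ?_⟩, ?_⟩
  · intro e' he' z hz i j
    obtain ⟨x, hx', rfl⟩ : ∃ x, x ∈ e'.source ∧ z = e' x :=
      ⟨e'.symm z, e'.map_target hz, (e'.right_inv hz).symm⟩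
    have hx := hcx x
    obtain ⟨hψ, hd0, -, hev, -⟩ := hT.2.1 (e (c x)) (he _) e' he' x hx.1 hx'
    have hψx : (e (c x) ∘ e'.symm) (e' x) = e (c x) x := by
      simp only [Function.comp_apply, e'.left_inv hx']
    have hct : ContinuousAt (e (c x) ∘ e'.symm) (e' x) := hψ.self_of_nhds.continuousAt
    have htd : Tendsto (e (c x) ∘ e'.symm) (𝓝 (e' x)) (𝓝 (e (c x) x)) := by
      have := hct.tendsto
      rwa [hψx] at this
    have hin : ∀ᶠ w in 𝓝 (e' x), (e (c x) ∘ e'.symm) w ∈ D (c x) :=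
      htd.eventually ((hD _).mem_nhds hx.2)
    have heq : ∀ᶠ w in 𝓝 (e' x), tp m (M.J (e (c (e'.symm w))) e' (e'.symm w))
        (S (c (e'.symm w)) (e (c (e'.symm w)) (e'.symm w))) i j =
        tp m (jm (e (c x) ∘ e'.symm) w) (S (c x) ((e (c x) ∘ e'.symm) w)) i j := by
      filter_upwards [hev, hin] with w hw hw'
      rw [key (c x) e' he' (e'.symm w) ⟨hw.2.1, hw'⟩ hw.2.2.1, hw.2.2.2.2.2.2]
      rfl
    have hdet := (mCHN n _ _ hψ).2.2.2.2.1
    have hne : ∀ᶠ w in 𝓝 (e' x), (jm (e (c x) ∘ e'.symm) w).det ≠ 0 :=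
      hdet.self_of_nhds.continuousAt.eventually_ne hd0
    have hJ : ∀ᶠ w in 𝓝 (e' x), ∀ k l,
        DifferentiableAt ℂ (fun w => jm (e (c x) ∘ e'.symm) w k l) w :=
      eventually_all.2 fun k => eventually_all.2 fun l => hol_jm hψ k l
    have hA : ∀ᶠ w in 𝓝 (e' x), ∀ k l,
        DifferentiableAt ℂ (fun w => S (c x) w k l) ((e (c x) ∘ e'.symm) w) :=
      eventually_all.2 fun k => eventually_all.2 fun l =>
        htd.eventually ((hS (c x) x hx).1 k l)
    filter_upwards [heq.eventually_nhds, hdet, hne, hJ, hA, hψ] with w h1 h2 h3 h4 h5 h6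
    exact (hol_tp m (A := fun w => S (c x) ((e (c x) ∘ e'.symm) w)) h4 h2 h3
      (fun k l => (h5 k l).comp w h6) i j).congr_of_eventuallyEq h1
  · intro e' he' z hz
    exact tp_alt m _ _ (hS _ _ (hcx _)).2
  · intro e1 he1 e2 he2 x hx1 hx2
    simp only [e1.left_inv hx1, e2.left_inv hx2]
    rw [(hT.2.1 (e (c x)) (he _) e1 he1 x (hcx x).1 hx1).2.2.2.2 e2 he2 hx2, ← tp_tp]
    rfl
  · intro a x hx
    simp only [(e a).left_inv hx.1]
    rw [key a (e a) (he a) x hx hx.1, hT.2.2.1 (e a) (he a) x hx.1, tp_one]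

end Pool.Agent.Lib.F4.T6
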