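import Pool.Agent.Lib.F4.BlueT

/-! Project f4, step six: integration by parts for functions of class one. -/

open scoped Classical Topology ContDiff
open Set MeasureTheory Complex Metric Filter

set_option linter.unusedVariables false

noncomputable section

namespace Pool.Agent.Lib.F4.T6

open Pool.Agent.Lib.SV (E)
open Pool.Agent.Lib.HS32

namespace TIB

variable {n : ℕ} {U : Set (E n)}

theorem intg {a φ : E n → ℂ} (ha : ContinuousOn a U) (hφ : Continuous φ)
    (hc : HasCompactSupport φ) (hs : tsupport φ ⊆ U) : Integrable fun z => a z * φ z := by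
  have h1 : IntegrableOn (fun z => a z * φ z) (tsupport φ) :=
    ((ha.mono hs).mul hφ.continuousOn).integrableOn_compact hc.isCompact
  exact (integrableOn_iff_integrable_of_support_subset fun z hz =>
    subset_tsupport φ fun h0 => hz (by simp [h0])).1 h1

theorem core {h ψ : E n → ℂ} (hU : IsOpen U) (hh : ContDiffOn ℝ 1 h U) (hψ : Tst U ψ) (v : E n) :
    Integrable (fun z => h z * fderiv ℝ ψ z v) ∧ Integrable (fun z => fderiv ℝ h z v * ψ z) ∧
    ∫ z, h z * fderiv ℝ ψ z v = -∫ z, fderiv ℝ h z v * ψ z := by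
  obtain ⟨s, c, t⟩ := hψ
  have s1 : ContDiff ℝ 1 ψ := s.of_le (by exact_mod_cast le_top)
  have dc : Continuous fun z => fderiv ℝ ψ z v :=
    (s1.continuous_fderiv one_ne_zero).clm_apply continuous_const
  have dt : tsupport (fun z => fderiv ℝ ψ z v) ⊆ U := (tsupport_fderiv_apply_subset ℝ v).trans t
  have hd : ContinuousOn (fun z => fderiv ℝ h z v) U :=
    (hh.continuousOn_fderiv_of_isOpen hU le_rfl).clm_apply continuousOn_const
  have i1 := intg hh.continuousOn dc (c.fderiv_apply ℝ v) dt
  have i2 := intg hd s1.continuous c t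
  exact ⟨i1, i2, integral_mul_fderiv_eq_neg_fderiv_mul_of_integrable i2 i1
    (intg hh.continuousOn s1.continuous c t)
    (fun z hz => (hh.contDiffAt (hU.mem_nhds (t hz))).differentiableAt one_ne_zero)
    fun z _ => s1.differentiable one_ne_zero z⟩

end TIB

theorem tIB (hCK : St_CK) : St_IB := by
  intro n U h ψ hU hψ hf l
  have hh : ContDiffOn ℝ 1 h U := fun z hz => (hf z hz).contDiffWithinAt
  obtain ⟨a1, b1, c1⟩ := TIB.core hU hh hψ (Pi.single l 1)
  obtain ⟨a2, b2, c2⟩ := TIB.core hU hh hψ (Pi.single l I)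
  have e1 : ∀ z, h z * dzb l ψ z = (h z * fderiv ℝ ψ z (Pi.single l 1) +
      I * (h z * fderiv ℝ ψ z (Pi.single l I))) / 2 := fun z => by
    simp only [dzb]; ring
  have e2 : ∀ z, dzb l h z * ψ z = (fderiv ℝ h z (Pi.single l 1) * ψ z +
      I * (fderiv ℝ h z (Pi.single l I) * ψ z)) / 2 := fun z => by
    simp only [dzb]; ring
  rw [funext e1, funext e2]
  refine ⟨(a1.add (a2.const_mul I)).div_const 2, (b1.add (b2.const_mul I)).div_const 2, ?_⟩
  rw [integral_div, integral_div, integral_add a1 (a2.const_mul I),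
    integral_add b1 (b2.const_mul I), integral_const_mul, integral_const_mul, c1, c2]
  ring

end Pool.Agent.Lib.F4.T6
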