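import Pool.Agent.Lib.F4.BlueT
import Pool.Agent.Lib.HS32.MAll

/-! Project f4, step six: the derivative of the potential. -/

open scoped Classical Topology ContDiff ComplexOrder Matrix
open Set Filter

noncomputable section

namespace Pool.Agent.Lib.F4.T6

open Pool.Agent.Lib.SV (E)
open Pool.Agent.Lib.HS32

namespace RH74

variable {n : ℕ}

theorem cd_rc {p : E n → ℝ} {z : E n} {m : WithTop ℕ∞} (h : ContDiffAt ℝ m p z) :
    ContDiffAt ℝ m (rc p) z :=
  Complex.ofRealCLM.contDiff.contDiffAt.comp z h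

theorem dz_af {a : E n → E n} {q : E n → ℝ} {s : ℝ} {z : E n} {l : Fin n}
    (ha : HolN (a · l) z) (hq : DifferentiableAt ℝ q z) (k : Fin n) :
    dz k (af a q s · l) z = -dz k (rc q) z * af a q s z l := by
  have hsm := ((mHOL n (a · l) z).2.2 ha).1
  have hd : DifferentiableAt ℝ (a · l) z := cd_diff hsm
  have hb : dzb k (a · l) z = 0 := ((mHOL n (a · l) z).1 hd).1 ha.self_of_nhds k
  have hφ : HasDerivAt (fun t : ℝ => s * Real.exp (-t)) (s * (Real.exp (-q z) * -1)) (q z) :=
    ((hasDerivAt_neg (q z)).exp).const_mul s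
  have h1 : DifferentiableAt ℝ (fun w => ((s * Real.exp (-q w) : ℝ) : ℂ)) z :=
    Complex.ofRealCLM.differentiableAt.comp z (hφ.differentiableAt.comp z hq)
  have h2 := dz_comp_real (j := k) hφ hq
  have h3 := dz_mul (j := k) h1 (diff_star hd)
  rw [dz_star hd, hb, h2] at h3
  refine h3.trans ?_
  simp only [af, star_zero, mul_zero, add_zero]
  change _ = -dz k (fun w => (q w : ℂ)) z * _
  push_cast
  ring

theorem mul_f1 {a : E n → E n} {p q : E n → ℝ} {z : E n} (hp : Pa a p z) (hq : Pa a q z)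
    (h0 : a z ≠ 0) (k : Fin n) : a z k * f1 a p q z = dz k (rc q) z - dz k (rc p) z := by
  have hN : ∑ j, a z j * star (a z j) ≠ 0 := fun h => h0 (dotProduct_self_star_eq_zero.1 h)
  rw [f1, ← mul_div_assoc, div_eq_iff hN, Finset.mul_sum, Finset.mul_sum]
  refine Finset.sum_congr rfl fun j _ => ?_
  linear_combination star (a z j) * (hp j k - hq j k)

end RH74

open RH74 in
theorem tRH (hCK : St_CK) : St_RH := by
  intro n U a p q s G hU hP hG z hz k
  have hp := hP z hz
  have hg := hG z hz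
  have hsm := ((mHOL n (a · k) z).2.2 (hp.hol k)).1
  have hd : DifferentiableAt ℝ (a · k) z := cd_diff hsm
  have hG3 : ContDiffAt ℝ (2 + 1 : ℕ) G z := hg.sm
  have hp3 : ContDiffAt ℝ (2 + 1 : ℕ) (rc p) z := cd_rc hp.sp
  have hG2 : ContDiffAt ℝ 2 G z := hg.sm.of_le (by norm_num)
  have hdG : ContDiffAt ℝ 2 (dz k G) z := ((hCK n G z).1 2 k hG3).1
  have hdp : ContDiffAt ℝ 2 (dz k (rc p)) z := ((hCK n (rc p) z).1 2 k hp3).1
  have ha2 : ContDiffAt ℝ 2 (a · k) z := cd_le hsm 2
  refine ⟨(((hG2.pow 2).div_const 2).mul ha2).sub (hdG.add (hG2.mul hdp)), fun l => ?_⟩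
  have dG : DifferentiableAt ℝ G z := hG2.differentiableAt (by norm_num)
  have ddG : DifferentiableAt ℝ (dz k G) z := hdG.differentiableAt (by norm_num)
  have ddp : DifferentiableAt ℝ (dz k (rc p)) z := hdp.differentiableAt (by norm_num)
  have dG2 : DifferentiableAt ℝ (fun w => G w ^ 2 / 2) z :=
    ((hG2.pow 2).div_const 2).differentiableAt (by norm_num)
  have hb : dzb l (a · k) z = 0 := ((mHOL n (a · k) z).1 hd).1 (hp.hol k).self_of_nhds l
  have e1 : dzb l (fun w => G w ^ 2 / 2) z = G z * af a q s z l := by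
    have hφ : HasDerivAt (fun t : ℂ => t ^ 2 / 2) (G z) (G z) := by
      simpa using (hasDerivAt_pow 2 (G z)).div_const 2
    rw [dzb_comp hφ dG, hg.eq l]
  have e2 : dzb l (dz k G) z = -dz k (rc q) z * af a q s z l := by
    rw [← ((hCK n G z).2 hG2 k l).2.2,
      ← dz_af (hp.hol l) (hp.sq.differentiableAt (by norm_num)) k]
    exact dz_congr ((hU.eventually_mem hz).mono fun w hw => (hG w hw).eq l)
  have e3 : dzb l (dz k (rc p)) z = af a q s z l * a z k := hp.eq l k
  have e4 : dzb l (rho a p G · k) z = af a q s z l * (dz k (rc q) z - dz k (rc p) z) := by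
    have := dzb_sub (j := l) (dG2.mul hd) (ddG.add (dG.mul ddp))
    refine Eq.trans ?_ (Eq.trans this ?_)
    · rfl
    · have h5 := dzb_add (j := l) ddG (dG.mul ddp)
      have h6 := dzb_mul (j := l) dG2 hd
      have h7 := dzb_mul (j := l) dG ddp
      rw [e1, hb] at h6
      rw [e3, hg.eq l] at h7
      rw [e2] at h5
      have h8 := h5.trans (congrArg _ h7)
      refine (congrArg₂ (· - ·) h6 h8).trans ?_
      ring
  rw [e4, xi]
  by_cases h0 : a z = 0
  · simp [af, h0]
  · rw [← mul_f1 hp.pp hp.pq h0 k]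
    ring

end Pool.Agent.Lib.F4.T6
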