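import Pool.Agent.Lib.F4.Defs
import Pool.Agent.Lib.K3E.Blue

/-! Project f4: the algebraic step. Blueprint. -/

open scoped Classical Topology ContDiff ComplexOrder Matrix
open Set Filter

set_option linter.unusedVariables false

noncomputable section

namespace Pool.Agent.Lib.F4

open Pool.Agent.Lib.SV (E)
open Pool.Agent.Lib.HS32 Pool.Agent.Lib.HLK

/-- The star and the Pfaffian. -/
def St_PT1 : Prop := ∀ S : Mat 4, (st S)ᵀ = -st S ∧ (∀ c : ℂ, st (c • S) = c • st S ∧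
    pf (c • S) = c ^ 2 * pf S) ∧ (Sᵀ = -S → st (st S) = S ∧ st S * S = -(pf S • 1) ∧
  (∀ a, st S *ᵥ a = 0 ↔ W3 a S) ∧
  ∀ J : Mat 4, J * st (Jᵀ * S * J) * Jᵀ = J.det • st S ∧ pf (Jᵀ * S * J) = J.det * pf S)

/-- Contractions and exterior products at a point. -/
def St_PT2 : Prop :=
  (∀ (S : Mat 4) (V W : E 4), Sᵀ = -S →
    (pf S = 0 → wg (V ᵥ* S) (W ᵥ* S) = (V ᵥ* S ⬝ᵥ W) • S) ∧
    (V ᵥ* S = 0 → W ᵥ* S = 0 → ∀ i j k l, wg V W i j * st S k l = wg V W k l * st S i j) ∧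
    st (wg V W) *ᵥ W = 0) ∧
  ∀ (n : ℕ) (S J : Mat n) (u v : E n), (wg u v)ᵀ = -wg u v ∧ wg v u = -wg u v ∧ wg u u = 0 ∧
    (wg u v = 0 ↔ ∀ i j, u i * v j = u j * v i) ∧
    J * wg u v * Jᵀ = wg (J *ᵥ u) (J *ᵥ v) ∧ Jᵀ * wg u v * J = wg (u ᵥ* J) (v ᵥ* J) ∧
    (Sᵀ = -S → u ᵥ* S ⬝ᵥ v = -(v ᵥ* S ⬝ᵥ u) ∧ u ᵥ* S ⬝ᵥ u = 0 ∧
      (W3 u S → u ⬝ᵥ v = 0 → wg (v ᵥ* S) u = 0))

/-- Operations on tensors. -/
def St_OP : Prop := ∀ (n : ℕ) (M : Mf n) (a b : ℤ) (α V W : M.Fam (E n)) (S : M.Fam (Mat n)),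
  (H1 M a α → HT M b V → H0 M (a + b) fun e z => α e z ⬝ᵥ V e z) ∧
  (H2 M a S → HT M b V → H1 M (a + b) fun e z => V e z ᵥ* S e z) ∧
  (HB M a S → H1 M b α → HT M (a + b) fun e z => S e z *ᵥ α e z) ∧
  (HT M a V → HT M b W → HB M (a + b) fun e z => wg (V e z) (W e z)) ∧
  (HT M a V → HT M a W → ∀ c : ℂ, HT M a fun e z => V e z - c • W e z)

/-- The star of a tensor. -/
def St_OS : Prop := ∀ (M : Mf 4) (a : ℤ) (S : M.Fam (Mat 4)),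
  (H2 M a S → HB M (a + 1) (fun e z => st (S e z)) ∧ H0 M (2 * a + 1) fun e z => pf (S e z)) ∧
  (HB M (a + 1) S → H2 M a fun e z => st (S e z))

/-- The identity theorem; holomorphic functions are constant. -/
def St_IDT : Prop := ∀ (n : ℕ) (M : Mf n) [M.Cpt] (a : ℤ),
  (∀ u, H1 M a u ∨ HT M a u → ¬Zr M u → Den M u) ∧
  (∀ u, H2 M a u ∨ HB M a u → ¬Zr M u → Den M u) ∧
  ∀ s, H0 M 0 s → ∃ c, M.All fun e z => s e z = c

/-- Local division. -/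
def St_LOC : Prop := ∀ (n : ℕ) (σ : Type) [Fintype σ] (O U : Set (E n)) (u w : E n → σ → ℂ),
  IsOpen U → U ⊆ O → Rm O {z | u z = 0} → DifferentiableOn ℂ u U → DifferentiableOn ℂ w U →
  (∀ z ∈ U, ∃ᶠ y in 𝓝 z, u y ≠ 0) → (∀ z ∈ U, ∀ i j, w z i * u z j = w z j * u z i) →
  ∃ b : E n → ℂ, DifferentiableOn ℂ b U ∧ ∀ z ∈ U, w z = b z • u z

/-- Global division. -/
def St_DIV : Prop := ∀ (n : ℕ) (M : Mf n) (a b : ℤ),
  (∀ u w, H1 M b u ∧ H1 M (a + b) w ∨ HT M b u ∧ HT M (a + b) w → Rem M u → Den M u →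
    (M.All fun e z => wg (w e z) (u e z) = 0) →
    ∃ s, H0 M a s ∧ M.All fun e z => w e z = s e z • u e z) ∧
  (∀ u w, HB M b u → HB M (a + b) w → Rem M u → Den M u →
    (M.All fun e z => ∀ i j k l, w e z i j * u e z k l = w e z k l * u e z i j) →
    ∃ s, H0 M a s ∧ M.All fun e z => w e z = s e z • u e z) ∧
  ∀ (F G : Type) [Zero F] [Zero G] (u : M.Fam F) (v : M.Fam G),
    (M.All fun e z => u e z = 0 ↔ v e z = 0) →
    (Rem M u → Rem M v) ∧ (Den M u → Den M v) ∧ (Zr M u → Zr M v)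

/-- The exterior derivative and the change of chart. -/
def St_D1 : Prop := ∀ (n : ℕ) (M : Mf n) (a : ℤ) (α : M.Fam (E n)), H1 M a α →
  HolM M (fun e => d1 (α e)) ∧ (∀ e z, (d1 (α e) z)ᵀ = -d1 (α e) z) ∧ M.Ov fun e e' x =>
    d1 (α e') (e' x) = jd M e e' x ^ a • ((M.J e e' x)ᵀ * d1 (α e) (e x) * M.J e e' x) +
      wg (fun k => a * dz k (fun w => (jm (e ∘ e'.symm) w).det) (e' x) / jd M e e' x)
        (α e' (e' x))

/-- The vector field dual to the product of a form and of its derivative. -/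
def St_INT : Prop := ∀ (M : Mf 4) (a : ℤ) (α : M.Fam (E 4)), H1 M a α →
  HT M (2 * a + 1) fun e z => st (d1 (α e) z) *ᵥ α e z

/-- The flag exists. -/
def St_FLAG : Prop := ∀ (M : Mf 4) [M.Cpt] (S : M.Fam (Mat 4)) (V W : M.Fam (E 4)), Hyp M →
  H2 M 0 S → ¬Zr M S → HT M 1 V → HT M 1 W → Ind M V W →
  ∃ V' W', Flag M S (fun e z => st (S e z)) V' W' fun e z => W' e z ᵥ* S e z

/-- Vector fields tangent to the hyperplanes. -/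
def St_TAN : Prop := ∀ (M : Mf 4) [M.Cpt] (S P : M.Fam (Mat 4)) (V W α : M.Fam (E 4)),
  Flag M S P V W α → (M.All fun e z => α e z ⬝ᵥ V e z = 0 ∧ α e z ⬝ᵥ W e z = 0 ∧
    P e z *ᵥ α e z = 0) ∧ ∀ a, a ≠ 0 → a ≠ 1 → ∀ Y, HT M a Y →
    (M.All fun e z => α e z ⬝ᵥ Y e z = 0) → Zr M Y

/-- The vanishing of the twisted forms. -/
def St_VAN : Prop := ∀ (M : Mf 4) [M.Cpt] (S P : M.Fam (Mat 4)) (V W α : M.Fam (E 4)),
  Flag M S P V W α → (∀ a, a ≠ -1 → a ≠ 1 → ∀ ρ, H1 M a ρ → Zr M ρ) ∧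
    (∀ a, a ≠ -1 → a ≠ 0 → a ≠ 1 → ∀ Y, HT M a Y → Zr M Y) ∧
    ∀ a, a ≠ -2 → a ≠ 0 → a ≠ 1 → ∀ T, H2 M a T → Zr M T

/-- The part of degree one of a multivector. -/
def v1 {n : ℕ} (Y : Fs n → ℂ) : E n := fun k => (an k *ᵥ Y) ∅

/-- The part of degree two of a multivector. -/
def v2 {n : ℕ} (Y : Fs n → ℂ) : Mat n := Matrix.of fun k l => (an l *ᵥ an k *ᵥ Y) ∅

/-- Multivectors at a point. -/
def St_XP : Prop := (∀ (n : ℕ) (g : Mat n) (Y : Fs n → ℂ), (La g *ᵥ Y) ∅ = Y ∅ ∧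
    v1 (La g *ᵥ Y) = g *ᵥ v1 Y ∧ v2 (La g *ᵥ Y) = g * v2 Y * gᵀ ∧ (v2 Y)ᵀ = -v2 Y ∧
    La gᵀ *ᵥ K3E.star n *ᵥ La g *ᵥ Y = g.det • K3E.star n *ᵥ Y ∧
    (v1 Y = 0 → ∀ A, A.card = 1 → Y A = 0) ∧ (v2 Y = 0 → ∀ A, A.card = 2 → Y A = 0) ∧
    ∀ q, (∀ A, A.card = q → (K3E.star n *ᵥ Y) A = 0) → ∀ A, A.card + q = n → Y A = 0)

/-- Multivectors as tensors. -/
def St_XT : Prop := ∀ (n : ℕ) (M : Mf n) (H : M.Fam (Mat n)) (a : ℕ) (Y : M.Fam (Fs n → ℂ)),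
  (K3E.lk H a).Sec Y → Hol Y → H0 M a (fun e z => Y e z ∅) ∧ HT M a (fun e z => v1 (Y e z)) ∧
    HB M a (fun e z => v2 (Y e z)) ∧ H1 M (a - 1) (fun e z => v1 (K3E.star n *ᵥ Y e z)) ∧
    H0 M (a - 1) fun e z => (K3E.star n *ᵥ Y e z) ∅

/-- The negative powers of a nef canonical bundle. -/
def St_NEG : Prop := ∀ (n : ℕ) (M : Mf n) [M.Cpt] (H : M.Fam (Mat n)), M.Met H →
  (∀ ε ∈ Ioc (0 : ℝ) 1, ∃ w, M.Sm w ∧ M.Le 0 (ε • H - M.ric H + M.hs w)) →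
  ∀ (b : ℕ) (s : M.Fam ℂ), H0 M (-b) s → ¬Zr M s → M.All fun e z => s e z ≠ 0

/-- No power of the canonical bundle has a section. -/
def St_Z0 : Prop := ∀ (n : ℕ) (M : Mf n) [M.Cpt] (H : M.Fam (Mat n)), M.Met H →
  (∀ ε ∈ Ioc (0 : ℝ) 1, ∃ w, M.Sm w ∧ M.Le 0 (ε • H - M.ric H + M.hs w)) →
  (∀ m, 0 < m → ∀ t, M.HSec m t → Zr M t) → ∀ a ≠ 0, ∀ s, H0 M a s → Zr M s

/-- The algebraic step. -/
def St_ALG : Prop := ∀ (M : Mf 4) [M.Cpt] (S : M.Fam (Mat 4)) (V W : M.Fam (E 4)), Hyp M →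
  H2 M 0 S → ¬Zr M S → HT M 1 V → HT M 1 W → Ind M V W → ∃ P V' W' α, Data M S P V' W' α

theorem alg_of (hPT1 : St_PT1) (hPT2 : St_PT2) (hOS : St_OS) (hIDT : St_IDT) (hLOC : St_LOC)
    (hD1 : St_D1) (hINT : St_INT) (hFLAG : St_FLAG) (hTAN : St_TAN) (hVAN : St_VAN)
    (hXP : St_XP) (hXT : St_XT) : St_ALG := by
  intro M _ S V W hM hS nS hV hW hI
  obtain ⟨V', W', F⟩ := hFLAG M S V W hM hS nS hV hW hI
  obtain ⟨t1, t2⟩ := hTAN M _ _ _ _ _ F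
  obtain ⟨z1, zT, z2⟩ := hVAN M _ _ _ _ _ F
  have den := (hIDT 4 M 1).1 _ (Or.inl F.hα) F.nα
  have rem := hM.r1 _ F.hα F.nα
  refine ⟨_, V', W', _, F, fun e he z hz => (t1 e he z hz).1, fun e he z hz => (t1 e he z hz).2.1,
    fun e he z hz => (t1 e he z hz).2.2, den, rem, fun e he z hz => ?_,
    fun e he U β hU hs hβ h => ?_, z1, zT, z2, fun H Y y1 y2 ⟨e, he, z, hz, y3⟩ => y3 ?_⟩
  · exact (((hPT1 _).2.2 ((hD1 4 M 1 _ F.hα).2.1 e z)).2.2.1 _).1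
      (zT _ (by norm_num) (by norm_num) (by norm_num) _ (hINT M 1 _ F.hα) e he z hz)
  · refine hLOC 4 _ e.target U _ β hU hs (rem e he) (fun z hz => ?_) hβ
      (fun z hz => den e he z (hs hz)) fun z hz => (hPT2.2 4 0 0 _ _).2.2.2.1.1 (h z hz)
    exact (differentiableAt_pi.2 fun i =>
      (F.hα.hol e he z (hs hz) i).self_of_nhds).differentiableWithinAt
  · obtain ⟨x0, x1, x2, x3, x4⟩ := hXT 4 M H 3 Y y1 y2
    have y0 := hM.z0 _ (by norm_num) _ x0 e he z hz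
    have y4 := hM.z0 _ (by norm_num) _ x4 e he z hz
    have y5 := zT _ (by norm_num) (by norm_num) (by norm_num) _ x1 e he z hz
    have y6 := z1 _ (by norm_num) (by norm_num) _ x3 e he z hz
    have y7 := z2 2 (by norm_num) (by norm_num) (by norm_num) _ ((hOS M 2 _).2 x2) e he z hz
    have y8 : v2 (Y e z) = 0 := by
      have := ((hPT1 _).2.2 (x2.alt e he z hz)).1
      beta_reduce at y7
      rw [← this, y7, ← zero_smul ℂ (0 : Mat 4), ((hPT1 0).2.1 0).1, zero_smul, zero_smul]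
    obtain ⟨-, -, -, -, -, p1, p2, p3⟩ := hXP 4 0 (Y e z)
    funext A
    have hA : A.card ≤ 4 := (Finset.card_le_univ A).trans (by simp)
    rcases (by omega : A.card = 0 ∨ A.card = 1 ∨ A.card = 2 ∨ A.card + 1 = 4 ∨ A.card + 0 = 4)
      with h | h | h | h | h
    · rw [Finset.card_eq_zero.1 h]
      exact y0
    · exact p1 y5 A h
    · exact p2 y8 A h
    · exact p3 1 ((hXP 4 0 _).2.2.2.2.2.1 y6) A h
    · exact p3 0 (fun B hB => by rw [Finset.card_eq_zero.1 hB]; exact y4) A h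

end Pool.Agent.Lib.F4
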