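import Pool.Agent.Lib.F4.Defs
import Pool.Agent.Lib.ZK47.Blue

/-! Project f4, steps three and four: the identities of Stokes type and the approximate invariant
densities. Blueprint. -/

open scoped Classical Topology ContDiff ComplexOrder Matrix
open Set Filter MeasureTheory

set_option linter.unusedVariables false

noncomputable section

namespace Pool.Agent.Lib.F4

open Pool.Agent.Lib.SV (E)
open Pool.Agent.Lib.HS32 Pool.Agent.Lib.HLK

variable {n : ℕ}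

/-- The gradient of type `(1,0)`. -/
def gd (f : E n → ℂ) (z : E n) : E n := fun j => dz j f z

/-- The product of two forms of type `(2,0)`, antilinear in the second one. -/
def p2 (H m m' : Mat n) : ℂ := (H⁻¹ᵀ * m * H⁻¹ * m'ᴴ).trace / 2

/-- The product of two covectors, antilinear in the second one. -/
def p1 (H : Mat n) (a b : E n) : ℂ := a ⬝ᵥ H⁻¹ *ᵥ star b

/-- The mixed form of a matrix and of the square of a covector. -/
def mq (H S : Mat n) (a : E n) : ℂ :=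
  (H⁻¹ * S).trace * (H⁻¹ * Matrix.vecMulVec (star a) a).trace -
    (H⁻¹ * S * H⁻¹ * Matrix.vecMulVec (star a) a).trace

/-- The divergence of a bivector. -/
def dvM (P : E n → Mat n) (z : E n) : E n := fun a => ∑ k, dz k (fun w => P w k a) z

variable (M : Mf n)

/-- The weight on the canonical bundle given by the metric. -/
def ph (H : M.Fam (Mat n)) : M.Fam ℝ := fun e z => Real.log (H e z).det.re

/-- The square of `α`. -/
def aa (H : M.Fam (Mat n)) (α : M.Fam (E n)) : M.Fam (Mat n) := fun e z =>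
  (H e z).det⁻¹ • Matrix.vecMulVec (star (α e z)) (α e z)

/-- The mixed form of two tensors. -/
def mx (H S T : M.Fam (Mat n)) (x : M.X) : ℝ := M.tr H S x * M.tr H T x - M.ip H S T x

/-- The covariant derivative of `α` for the weight `φ`, up to sign. -/
def mu (φ : M.Fam ℝ) (α : M.Fam (E n)) : M.Fam (Mat n) := fun e z =>
  wg (gd (fun w => (φ e w : ℂ)) z) (α e z) - d1 (α e) z

/-- The product of the derivative of `f` and `α`. -/
def da (f : M.X → ℝ) (α : M.Fam (E n)) : M.Fam (Mat n) := fun e z => wg (gd (M.lc f e) z) (α e z)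

/-- The derivative of `F α / det H`, times `det H`. -/
def bet (H : M.Fam (Mat n)) (α : M.Fam (E n)) (F : M.X → ℝ) : M.Fam (Mat n) := fun e z =>
  da M F α e z - (F (e.symm z) : ℂ) • mu M (ph M H) α e z

/-- The pointwise product of two forms with values in `K`. -/
def c2 (H m m' : M.Fam (Mat n)) (x : M.X) : ℂ :=
  M.ev (fun e z => p2 (H e z) (m e z) (m' e z) / (H e z).det) x

/-- The pointwise squared norm. -/
def n2 (H m : M.Fam (Mat n)) (x : M.X) : ℝ := (c2 M H m m x).re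

/-- The contraction of the `(0,1)` derivative of `m` with the conjugate of `α`. -/
def dbc (H m : M.Fam (Mat n)) (α : M.Fam (E n)) (x : M.X) : ℂ := M.ev (fun e z =>
  (∑ i, (((H e z)⁻¹ᵀ * dMb i (m e) z * (H e z)⁻¹) *ᵥ star (α e z)) i) / (H e z).det) x

/-- The value of `T` on a vector field with values in `K`. -/
def qV (H T : M.Fam (Mat n)) (V : M.Fam (E n)) (x : M.X) : ℝ :=
  M.ev (fun e z => nq (T e z) (V e z) / (H e z).det.re) x

/-- The value of `T` on a bivector with values in `K`. -/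
def qP (H T P : M.Fam (Mat n)) (x : M.X) : ℝ :=
  M.ev (fun e z => (T e z * P e z * (H e z)ᵀ * (P e z)ᴴ).trace.re / (H e z).det.re) x

/-- Smooth forms of type `(2,0)` with values in `K`. -/
structure S2 (m : M.Fam (Mat n)) : Prop where
  sm : M.All fun e z => SmM (m e) z
  alt : M.All fun e z => (m e z)ᵀ = -m e z
  cmp : M.Ov fun e e' x => m e' (e' x) = jd M e e' x • ((M.J e e' x)ᵀ * m e (e x) * M.J e e' x)

/-- Smooth vector fields with values in `K`. -/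
structure SK (V : M.Fam (E n)) : Prop where
  sm : M.All fun e z => ContDiffAt ℝ ∞ (V e) z
  cmp : M.Ov fun e e' x => M.J e e' x *ᵥ V e' (e' x) = jd M e e' x • V e (e x)

/-- The Kähler forms close to the canonical class are small along the kernel of `α`. -/
def Sm3 (H : M.Fam (Mat n)) (α : M.Fam (E n)) : Prop := ∃ C : ℝ, 0 ≤ C ∧ ∀ (ε : ℝ) (u : M.X → ℝ),
  0 ≤ ε → M.Sm u → M.Le 0 (-M.ric H + ε • H + M.hs u) →
  ∫ x, mx M H (-M.ric H + ε • H + M.hs u) (aa M H α) x ∂M.mu H ≤ C * ε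

/-- Approximate invariant densities. -/
structure App (H : M.Fam (Mat n)) (α : M.Fam (E n)) (F t : ℕ → M.X → ℝ) : Prop where
  sF : ∀ j, M.Sm (F j)
  st : ∀ j, M.Sm (t j)
  lo : ∃ c : ℝ, 0 < c ∧ ∀ j x, c ≤ F j x
  le : ∀ j x, F j x ≤ t j x
  lp : ∀ p : ℕ, ∃ C : ℝ, ∀ j, ∫ x, t j x ^ p ∂M.mu H ≤ C
  lim : Tendsto (fun j => ∫ x, n2 M H (bet M H α (F j)) x / t j x ∂M.mu H) atTop (𝓝 0)

/-! ### Pointwise algebra -/

/-- The product of forms of degree two. -/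
def St_PW1 : Prop := ∀ (n : ℕ) (H : Mat n),
  (∀ (m m' m'' : Mat n) (c : ℂ), p2 H (m + m') m'' = p2 H m m'' + p2 H m' m'' ∧
    p2 H m (m' + m'') = p2 H m m' + p2 H m m'' ∧ p2 H (m - m') m'' = p2 H m m'' - p2 H m' m'' ∧
    p2 H m (m' - m'') = p2 H m m' - p2 H m m'' ∧ p2 H (c • m) m' = c * p2 H m m' ∧
    p2 H m (c • m') = star c * p2 H m m') ∧
  (∀ a b c d, p2 H (wg a b) (wg c d) = p1 H a c * p1 H b d - p1 H a d * p1 H b c) ∧
  (∀ B a, mq H (Bᴴ * B) a = ∑ r, p2 H (wg (B r) a) (wg (B r) a)) ∧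
  (∀ J m m', J.det ≠ 0 → p2 (Jᴴ * H * J) (Jᵀ * m * J) (Jᵀ * m' * J) = p2 H m m') ∧
  (H.PosDef → (∀ m m', star (p2 H m m') = p2 H m' m ∧ 0 ≤ (p2 H m m).re ∧
      ((p2 H m m).re = 0 → m = 0) ∧ ‖p2 H m m'‖ ^ 2 ≤ (p2 H m m).re * (p2 H m' m').re ∧
      (p2 H (m + m') (m + m')).re ≤ 2 * (p2 H m m).re + 2 * (p2 H m' m').re) ∧
    (∀ a b, 0 ≤ (p1 H a a).re ∧
      (p2 H (wg a b) (wg a b)).re ≤ (p1 H a a).re * (p1 H b b).re) ∧
    ∀ S a, (S.IsHermitian → ((mq H S a).re : ℂ) = mq H S a) ∧ (S.PosSemidef → 0 ≤ (mq H S a).re))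

/-- The inequality in dimension four. -/
def St_PW4 : Prop := ∀ (H S T : Mat 4) (W : E 4), H.PosDef → Sᵀ = -S → T.PosSemidef →
  (mq H T (W ᵥ* S)).re ≤ 2 * (p2 H S S).re * nq T W +
    2 * (nq H W / H.det.re) * (T * st S * Hᵀ * (st S)ᴴ).trace.re

/-! ### Scalars on the manifold -/

/-- The sections and their products. -/
def St_S2K : Prop := ∀ (n : ℕ) (M : Mf n) (H : M.Fam (Mat n)), M.Met H →
  (∀ m, H2 M 1 m → S2 M m) ∧ (∀ V, HT M 1 V → SK M V) ∧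
  (∀ m m', S2 M m → S2 M m' → S2 M (m + m') ∧ S2 M (m - m') ∧
    (∀ f : M.X → ℝ, M.Sm f → S2 M fun e z => (f (e.symm z) : ℂ) • m e z) ∧
    M.Rep (c2 M H m m') (fun e z => p2 (H e z) (m e z) (m' e z) / (H e z).det) ∧
    M.Sm (c2 M H m m') ∧ M.Sm (n2 M H m) ∧
    M.Rep (n2 M H m) fun e z => (p2 (H e z) (m e z) (m e z)).re / (H e z).det.re) ∧
  (∀ m m' x, star (c2 M H m m' x) = c2 M H m' m x ∧ 0 ≤ n2 M H m x ∧
    ‖c2 M H m m' x‖ ^ 2 ≤ n2 M H m x * n2 M H m' x) ∧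
  (∀ S, H2 M 0 S → M.Sm (M.ev fun e z => (p2 (H e z) (S e z) (S e z)).re)) ∧
  (∀ α, H1 M 1 α → M.Form (aa M H α) ∧ M.Le 0 (aa M H α) ∧ ∀ T,
    (∀ x, M.Form T → mx M H T (aa M H α) x =
      (mq (M.ev H x) (M.ev T x) (M.ev α x)).re / (M.ev H x).det.re) ∧
    (M.Ten T → M.Sm (mx M H T (aa M H α))) ∧
    (M.Form T → M.Le 0 T → ∀ x, 0 ≤ mx M H T (aa M H α) x)) ∧
  (∀ T V, M.Ten T → SK M V → M.Sm (qV M H T V)) ∧
  ∀ T P, M.Ten T → HB M 1 P → M.Sm (qP M H T P)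

/-- The derivatives of `α`. -/
def St_MUS : Prop := ∀ (n : ℕ) (M : Mf n) (H : M.Fam (Mat n)) (α : M.Fam (E n)), M.Met H →
  H1 M 1 α → M.Wt 1 (ph M H) ∧ M.hw (ph M H) = -M.ric H ∧
  (∀ ψ, M.Wt 1 ψ → S2 M (mu M ψ α) ∧
    ∀ x, dbc M H (mu M ψ α) α x = mx M H (M.hw ψ) (aa M H α) x) ∧
  ∀ f, M.Sm f → S2 M (da M f α) ∧ S2 M (bet M H α f) ∧
    (∀ x, dbc M H (da M f α) α x = mx M H (M.hs f) (aa M H α) x) ∧
    (∀ x, n2 M H (da M f α) x = mx M H (M.ds f f) (aa M H α) x ∧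
      n2 M H (da M f α) x ≤ M.gr H f f x * M.tr H (aa M H α) x) ∧
    ∀ (g g' : ℝ → ℝ), (∀ x, HasDerivAt g (g' (f x)) (f x)) → M.All fun e z =>
      da M (fun x => g (f x)) α e z = (g' (f (e.symm z)) : ℂ) • da M f α e z

/-! ### The identities of Stokes type -/

/-- The basic identity. -/
def St_STK : Prop := ∀ (n : ℕ) (M : Mf n) [M.Cpt] (H m : M.Fam (Mat n)) (α : M.Fam (E n))
  (F : M.X → ℝ), M.Kae H → H1 M 1 α → S2 M m → M.Sm F →
  ∫ x, (F x * dbc M H m α x + c2 M H m (bet M H α F) x) ∂M.mu H = 0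

/-- Three consequences. -/
def St_THA : Prop := ∀ (n : ℕ) (M : Mf n) [M.Cpt] (H : M.Fam (Mat n)) (α : M.Fam (E n))
  (F : M.X → ℝ), M.Kae H → H1 M 1 α → M.Sm F →
  (∀ ψ, M.Wt 1 ψ → ∫ x, F x * mx M H (M.hw ψ) (aa M H α) x ∂M.mu H =
    -∫ x, (c2 M H (mu M ψ α) (bet M H α F) x).re ∂M.mu H) ∧
  (∀ v, M.Sm v → ∫ x, F x * mx M H (M.hs v) (aa M H α) x ∂M.mu H =
    -∫ x, (c2 M H (da M v α) (bet M H α F) x).re ∂M.mu H) ∧
  ∀ m, H2 M 1 m → ∫ x, c2 M H m (bet M H α F) x ∂M.mu H = 0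

/-- The divergence is a tensor. -/
def St_DVC : Prop := ∀ (n : ℕ) (M : Mf n),
  (∀ V, HT M 1 V → H0 M 1 fun e => dv (V e)) ∧ ∀ P, HB M 1 P → HT M 1 fun e => dvM (P e)

/-- The identity for a vector field without divergence. -/
def St_SKV : Prop := ∀ (n : ℕ) (M : Mf n) [M.Cpt] (H T : M.Fam (Mat n)) (V : M.Fam (E n))
  (f : M.Fam ℂ), M.Met H → HT M 1 V → Zr M (fun e => dv (V e)) → M.Sec 1 f →
  (M.All fun e z => ∀ l, dzb l (f e) z = (T e z *ᵥ V e z) l) → ∫ x, qV M H T V x ∂M.mu H = 0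

/-- The identity for a bivector. -/
def St_SKP : Prop := ∀ (n : ℕ) (M : Mf n) [M.Cpt] (H T P : M.Fam (Mat n)) (Ψ : M.Fam (E n)),
  M.Kae H → HB M 1 P → SK M Ψ →
  (M.All fun e z => ∀ l a, dzb l (fun w => Ψ e w a) z = (T e z * P e z) l a) →
  ∫ x, qP M H T P x ∂M.mu H = 0

/-- The primitives. -/
def St_PSI : Prop := ∀ (M : Mf 4) (H S P : M.Fam (Mat 4)) (V W α : M.Fam (E 4)) (ψ : M.Fam ℝ),
  M.Met H → Data M S P V W α → M.Wt 1 ψ →
  (∃ f, M.Sec 1 f ∧ M.All fun e z => ∀ l, dzb l (f e) z = (M.hw ψ e z *ᵥ W e z) l) ∧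
  ∃ Ψ, SK M Ψ ∧ M.All fun e z => ∀ l a, dzb l (fun w => Ψ e w a) z = (M.hw ψ e z * P e z) l a

/-- Step three. -/
def St_S3 : Prop := ∀ (M : Mf 4) [M.Cpt] (H S P : M.Fam (Mat 4)) (V W α : M.Fam (E 4)),
  M.Kae H → Data M S P V W α → Sm3 M H α

/-- Step four. -/
def St_S4 : Prop := ∀ (n : ℕ) (M : Mf n) [M.Cpt] (H : M.Fam (Mat n)) (α : M.Fam (E n))
  (a : ℝ → M.X → ℝ), M.Kae H → H1 M 1 α → ZK47.Out M H 0 a → Sm3 M H α → ∃ F t, App M H α F t

/-- Steps three and four. -/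
def St_S34 : Prop := ∀ (M : Mf 4) [M.Cpt] (H S P : M.Fam (Mat 4)) (V W α : M.Fam (E 4))
  (a : ℝ → M.X → ℝ), M.Kae H → Data M S P V W α → ZK47.Out M H 0 a → ∃ F t, App M H α F t

theorem st_S34 (h3 : St_S3) (h4 : St_S4) : St_S34 := fun M _ H S P V W α a hH hD hO =>
  h4 4 M H α a hH hD.hα hO (h3 M H S P V W α hH hD)

end Pool.Agent.Lib.F4
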