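import Pool.Agent.Lib.F4.M7a

/-! Project f4: a projective triple on a simply connected manifold gives a section of the canonical
bundle. -/

open scoped Classical Topology ContDiff Matrix
open Set Filter Metric

set_option linter.unusedVariables false

noncomputable section

namespace Pool.Agent.Lib.F4

open Pool.Agent.Lib.SV (E)
open Pool.Agent.Lib.HS32

/-- The structure equations of a projective triple at `z`. -/
structure Tri {n : ℕ} (al be ga : E n → E n) (z : E n) : Prop where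
  da : DifferentiableAt ℂ al z
  db : DifferentiableAt ℂ be z
  dg : DifferentiableAt ℂ ga z
  ea : ∀ j k, dz j (al · k) z - dz k (al · j) z = be z j * al z k - be z k * al z j
  eb : ∀ j k, dz j (be · k) z - dz k (be · j) z = al z j * ga z k - al z k * ga z j
  eg : ∀ j k, dz j (ga · k) z - dz k (ga · j) z = -(be z j * ga z k - be z k * ga z j)

/-- The gauge law of two projective triples at the point `x` of an overlap. -/
structure Gg {n : ℕ} {M : Mf n} (e e' : M.Ch) (al be ga al' be' ga' : E n → E n) (c : E n → ℂ)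
    (x : M.X) : Prop where
  dc : DifferentiableAt ℂ c (e' x)
  ea : al' (e' x) = (M.J e e' x).det • (al (e x) ᵥ* M.J e e' x)
  eb : ∀ k, be' (e' x) k = (be (e x) ᵥ* M.J e e' x) k +
    dz k (fun w => (jm (e ∘ e'.symm) w).det) (e' x) / (M.J e e' x).det - c (e' x) * al' (e' x) k
  eg : ∀ k, ga' (e' x) k = (ga (e x) ᵥ* M.J e e' x) k / (M.J e e' x).det + dz k c (e' x) +
    c (e' x) * be' (e' x) k + c (e' x) ^ 2 / 2 * al' (e' x) k

/-- The point `x` lies in the chart `e`, with coordinate in `D`. -/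
def In {n : ℕ} {M : Mf n} (e : M.Ch) (D : Set (E n)) (x : M.X) : Prop := x ∈ e.source ∧ e x ∈ D

/-- Monodromy of a projective triple. -/
def St_M7 : Prop := ∀ (n : ℕ) (M : Mf n) [SimplyConnectedSpace M.X] (ι : Type) (e : ι → M.Ch)
  (D : ι → Set (E n)) (al be ga : ι → E n → E n) (c : ι → ι → E n → ℂ), (∀ a, e a ∈ M.C) →
  (∀ a, IsOpen (D a)) → (∀ x, ∃ a, In (e a) (D a) x) →
  (∀ a x, In (e a) (D a) x → Tri (al a) (be a) (ga a) (e a x)) →
  (∀ a b x, In (e a) (D a) x → In (e b) (D b) x →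
    Gg (e a) (e b) (al a) (be a) (ga a) (al b) (be b) (ga b) (c a b) x) →
  (∀ a b d x, In (e a) (D a) x → In (e b) (D b) x → In (e d) (D d) x →
    c a d (e d x) = c a b (e b x) / (M.J (e b) (e d) x).det + c b d (e d x)) →
  ∃ s, M.HSec 1 s ∧ ∃ x, M.ev s x ≠ 0

namespace M7

open scoped Matrix.Norms.Operator

variable {n : ℕ}

/-- Matrices from their entries. -/
def ofL : (Fin 3 → Fin 3 → ℂ) →L[ℂ] Mat 3 :=
  LinearMap.toContinuousLinearMap (Matrix.ofLinearEquiv ℂ).toLinearMap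

/-- An entry. -/
def enL (i j : Fin 3) : Mat 3 →L[ℂ] ℂ :=
  LinearMap.toContinuousLinearMap (Matrix.entryLinearMap ℂ ℂ i j)

theorem mat_d {A : E n → Mat 3} {z : E n} (h : ∀ i j, DifferentiableAt ℂ (A · i j) z) :
    DifferentiableAt ℂ A z ∧ ∀ k, fderiv ℂ A z (Pi.single k 1) = Matrix.of fun i j => dz k (A · i j) z := by
  have a : DifferentiableAt ℂ A z :=
    (ofL.differentiableAt.comp z (differentiableAt_pi.2 fun i => differentiableAt_pi.2 (h i)) :)
  refine ⟨a, fun k => Matrix.ext fun i j => ?_⟩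
  rw [Matrix.of_apply, (mHOL n _ z).2.1 (h i j)]
  exact (congrArg (fun D : E n →L[ℂ] ℂ => D (Pi.single k 1))
    ((enL i j).hasFDerivAt.comp z a.hasFDerivAt).fderiv).symm

/-- The connection. -/
def lk (al be ga : E n → E n) (k : Fin n) (z : E n) : Mat 3 :=
  !![be z k, ga z k, 0; al z k, 0, ga z k; 0, al z k, -be z k]

/-- The gauge matrix. -/
def gm (g c : E n → ℂ) (z : E n) : Mat 3 :=
  !![g z, g z * c z, g z * (c z * c z) * (1 / 2); 0, 1, c z; 0, 0, (g z)⁻¹]

theorem dz_fd {f : E n → ℂ} {z : E n} {D : E n →L[ℂ] ℂ} (h : HasFDerivAt f D z) (k : Fin n) :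
    dz k f z = D (Pi.single k 1) := by rw [(mHOL n _ z).2.1 h.differentiableAt, h.fderiv]

theorem fl {al be ga : E n → E n} {z : E n} (h : Tri al be ga z) : Fl (lk al be ga) z := by
  have a := differentiableAt_pi.1 h.da
  have b := differentiableAt_pi.1 h.db
  have c := differentiableAt_pi.1 h.dg
  have d : ∀ k, _ := fun k => mat_d (A := lk al be ga k) (z := z) fun i j => by
    fin_cases i <;> fin_cases j <;> simp [lk, a, b, c]
  have e0 : ∀ j, dz j (fun _ => (0 : ℂ)) z = 0 := fun j => dz_fd (hasFDerivAt_const _ _) j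
  have e1 : ∀ j k, dz j (fun w => -be w k) z = -dz j (be · k) z := fun j k => by
    rw [dz_fd (b k).hasFDerivAt.fun_neg, dz_fd (b k).hasFDerivAt]; rfl
  refine ⟨fun k => (d k).1, fun j k => ?_⟩
  erw [(d k).2, (d j).2]
  ext p q
  have := h.ea j k
  have := h.eb j k
  have := h.eg j k
  fin_cases p <;> fin_cases q <;> simp [lk, e0, e1] <;> grind

theorem gau {M : Mf n} {e e' : M.Ch} (he : e ∈ M.C) (he' : e' ∈ M.C) {x : M.X}
    (hx : x ∈ e.source) (hx' : x ∈ e'.source) {al be ga al' be' ga' : E n → E n} {c : E n → ℂ}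
    (h : Gg e e' al be ga al' be' ga' c x) : Gau e e' (lk al be ga) (lk al' be' ga')
      (gm (fun w => (jm (e ∘ e'.symm) w).det) c) x := by
  obtain ⟨h1, h0, -⟩ := (mTR n M).2.1 e he e' he' x hx hx'
  have hg := (mCHN n _ _ h1).2.2.2.2.1.self_of_nhds
  obtain ⟨hc, ea, eb, eg⟩ := h
  have e9 : (M.J e e' x).det = (fun w => (jm (e ∘ e'.symm) w).det) (e' x) := rfl
  generalize (fun w => (jm (e ∘ e'.symm) w).det) = g at *
  rw [e9] at h0 ea eb eg
  have i0 : DifferentiableAt ℂ (fun w => (g w)⁻¹) (e' x) := hg.fun_inv h0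
  have d := mat_d (A := gm g c) (z := e' x) fun i j => by
    fin_cases i <;> fin_cases j <;> simp only [gm] <;> simp <;> fun_prop
  have e0 : ∀ j (t : ℂ), dz j (fun _ => t) (e' x) = 0 := fun j t => dz_fd (hasFDerivAt_const _ _) j
  have e1 : ∀ j, dz j (fun w => g w * c w) (e' x) = g (e' x) * dz j c (e' x) +
      c (e' x) * dz j g (e' x) := fun j => by
    rw [dz_fd (hg.hasFDerivAt.fun_mul hc.hasFDerivAt), dz_fd hg.hasFDerivAt, dz_fd hc.hasFDerivAt]
    simp
  have e2 : ∀ j, dz j (fun w => g w * (c w * c w) * 2⁻¹) (e' x) =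
      g (e' x) * c (e' x) * dz j c (e' x) + c (e' x) ^ 2 / 2 * dz j g (e' x) := fun j => by
    rw [dz_fd ((hg.hasFDerivAt.fun_mul (hc.hasFDerivAt.fun_mul hc.hasFDerivAt)).mul_const _),
      dz_fd hg.hasFDerivAt, dz_fd hc.hasFDerivAt]
    simp
    ring
  have e3 : ∀ j, dz j (fun w => (g w)⁻¹) (e' x) = -dz j g (e' x) / g (e' x) ^ 2 := fun j => by
    refine (dz_fd ((hasDerivAt_inv h0).comp_hasFDerivAt (e' x) hg.hasFDerivAt) j).trans ?_
    rw [dz_fd hg.hasFDerivAt]
    simp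
    ring
  refine ⟨d.1, (Matrix.isUnit_iff_isUnit_det _).2 (Ne.isUnit ?_), fun k => ?_⟩
  · simp [gm, Matrix.det_fin_three, h0]
  · have s1 : ∑ j, M.J e e' x j k • lk al be ga j (e x) = !![(be (e x) ᵥ* M.J e e' x) k,
        (ga (e x) ᵥ* M.J e e' x) k, 0; (al (e x) ᵥ* M.J e e' x) k, 0, (ga (e x) ᵥ* M.J e e' x) k;
        0, (al (e x) ᵥ* M.J e e' x) k, -(be (e x) ᵥ* M.J e e' x) k] := by
      ext p q
      fin_cases p <;> fin_cases q <;>
        simp [lk, Matrix.sum_apply, Matrix.vecMul, dotProduct, mul_comm]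
    have q1 := congrFun ea k
    have q2 := eb k
    have q3 := eg k
    rw [Pi.smul_apply, smul_eq_mul] at q1
    rw [s1]
    generalize (be (e x) ᵥ* M.J e e' x) k = B at *
    generalize (ga (e x) ᵥ* M.J e e' x) k = C at *
    generalize (al (e x) ᵥ* M.J e e' x) k = A at *
    erw [d.2]
    ext p q
    fin_cases p <;> fin_cases q <;>
      simp [lk, gm, Matrix.mul_apply, Fin.sum_univ_three, e0, e1, e2, e3] <;>
      simp only [q3, q2, q1] <;> field_simp <;> ring

theorem gm_mul {g c g' c' g'' c'' : E n → ℂ} {z z' : E n} (h0 : g' z' ≠ 0)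
    (h1 : g'' z' = g z * g' z') (h2 : c'' z' = c z / g' z' + c' z') :
    gm g c z * gm g' c' z' = gm g'' c'' z' := by
  ext p q
  fin_cases p <;> fin_cases q <;> simp [gm, Matrix.mul_apply, Fin.sum_univ_three, h1, h2] <;>
    field_simp <;> ring

theorem col {A : Mat 3} (h : IsUnit A) : ∃ i, A i 0 ≠ 0 := by
  by_contra hn
  push Not at hn
  exact ((Matrix.isUnit_iff_isUnit_det _).1 h).ne_zero (Matrix.det_eq_zero_of_column_eq_zero 0 hn)

theorem m7 : St_M7 := by
  intro n M _ ι e D al be ga c he hD hc h1 h2 h3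
  have T := (mTR n M).2.1
  obtain ⟨a, O, F, hO, hF, hE⟩ := glue M e he (fun a => {x | In (e a) (D a) x})
    (fun a => ⟨(e a).isOpen_inter_preimage (hD a), fun x hx => hx.1⟩) hc
    (fun a => lk (al a) (be a) (ga a))
    (fun a z hz => fl (h1 a z hz))
    (fun a b => gm (fun w => (jm (e a ∘ (e b).symm) w).det) (c a b))
    (fun a b x ha hb => gau (he a) (he b) ha.1 hb.1 (h2 a b x ha hb))
    (fun a b d x ha hb hd => gm_mul (T _ (he b) _ (he d) x hb.1 hd.1).2.1
      ((congrArg Matrix.det ((T _ (he a) _ (he b) x ha.1 hb.1).2.2.2.2 _ (he d) hd.1)).trans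
        (Matrix.det_mul _ _)) (h3 a b d x ha hb hd))
  obtain ⟨x₀⟩ : Nonempty M.X := inferInstance
  obtain ⟨i, hi⟩ := col (hF x₀ x₀ (hO x₀).2.1).2
  have hs : ∀ x, x ∈ (e (a x)).source := fun x => (hO x).2.2 (hO x).2.1
  set s : M.Fam ℂ := fun f w => F (f.symm w) (e (a (f.symm w)) (f.symm w)) i 0 *
    (M.J (e (a (f.symm w))) f (f.symm w)).det with hs'
  have k1 : ∀ f ∈ M.C, ∀ x y, y ∈ O x → y ∈ f.source →
      s f (f y) = F x (e (a x) y) i 0 * (M.J (e (a x)) f y).det := fun f hf x y hy hy' => by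
    simp only [hs', f.left_inv hy']
    rw [hE x y y hy (hO y).2.1, (T _ (he _) _ (he _) y ((hO x).2.2 hy) (hs y)).2.2.2.2 f hf hy',
      Matrix.det_mul, ← mul_assoc]
    simp [gm, Matrix.mul_apply, Fin.sum_univ_three, Mf.J]
  have k2 : M.All fun f w => DifferentiableAt ℂ (s f) w := Mf.allOn_of_source fun f hf x hx => by
    obtain ⟨t1, -, -, t2, -⟩ := T _ (he _) f hf x (hs x) hx
    have t0 : (e (a x) ∘ f.symm) (f x) = e (a x) x := by simp [f.left_inv hx]
    have t3 := ((enL i 0).differentiableAt.comp _ ((t0 ▸ (hF x x (hO x).2.1).1).comp (f x)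
      t1.self_of_nhds)).mul (mCHN n _ _ t1).2.2.2.2.1.self_of_nhds
    refine t3.congr_of_eventuallyEq ?_
    filter_upwards [t2, (f.continuousAt_symm (f.map_source hx)).eventually
      ((hO x).1.eventually_mem (by rw [f.left_inv hx]; exact (hO x).2.1))] with w hw hw'
    have := k1 f hf x _ hw' hw.2.2.1
    rw [hw.2.2.2.2.2.1, hw.2.2.2.2.2.2] at this
    exact this
  refine ⟨s, ⟨⟨fun f hf w hw => ((mHOL n _ w).2.2 (k2.ev hf hw)).1, fun f hf f' hf' x hx hx' => ?_⟩,
    k2⟩, x₀, ?_⟩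
  · beta_reduce
    rw [k1 f hf x x (hO x).2.1 hx, k1 f' hf' x x (hO x).2.1 hx',
      (T _ (he _) f hf x (hs x) hx).2.2.2.2 f' hf' hx', Matrix.det_mul, pow_one, mul_assoc]
  · rw [Mf.ev, k1 _ (Mf.ch_mem _) x₀ x₀ (hO x₀).2.1 (Mf.mem_ch _)]
    exact mul_ne_zero hi (T _ (he _) _ (Mf.ch_mem _) x₀ (hs x₀) (Mf.mem_ch _)).2.1

end M7

theorem st_M7 : St_M7 := M7.m7

end Pool.Agent.Lib.F4
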