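import Pool.Agent.Lib.F4.Ld
import Pool.Agent.Lib.F4.BlueA
import Pool.Agent.Lib.F4.BlueS
import Pool.Agent.Lib.F4.M7
import Pool.Agent.Lib.HW86.Ae

/-! Project f4: the theorem on the manifold layer. Blueprint. -/

open scoped Classical Topology ContDiff ComplexOrder Matrix
open Set Filter MeasureTheory

set_option linter.unusedVariables false

noncomputable section

namespace Pool.Agent.Lib.F4

open Pool.Agent.Lib.SV (E)
open Pool.Agent.Lib.HS32

/-- A projective triple. -/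
def Prj {n : ℕ} (M : Mf n) : Prop := ∃ (ι : Type) (e : ι → M.Ch) (D : ι → Set (E n))
  (al be ga : ι → E n → E n) (c : ι → ι → E n → ℂ), (∀ a, e a ∈ M.C) ∧ (∀ a, IsOpen (D a)) ∧
  (∀ x, ∃ a, In (e a) (D a) x) ∧ (∀ a x, In (e a) (D a) x → Tri (al a) (be a) (ga a) (e a x)) ∧
  (∀ a b x, In (e a) (D a) x → In (e b) (D b) x →
    Gg (e a) (e b) (al a) (be a) (ga a) (al b) (be b) (ga b) (c a b) x) ∧
  ∀ a b d x, In (e a) (D a) x → In (e b) (D b) x → In (e d) (D d) x →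
    c a d (e d x) = c a b (e b x) / (M.J (e b) (e d) x).det + c b d (e d x)

/-- The weights given by the theorem on the Lelong numbers. -/
def St_OUZ : Prop := ∀ (n : ℕ) (M : Mf n) [M.Cpt] (H : M.Fam (Mat n)), M.Kae H → W86.Nef M H →
  ∃ a, ZK47.Out M H 0 a

/-- Lemma D. -/
def St_LD : Prop := ∀ (M : Mf 4) [M.Cpt] (H : M.Fam (Mat 4)) (α : M.Fam (E 4))
  (a : ℝ → M.X → ℝ) (F t : ℕ → M.X → ℝ) (k : ℕ), M.Kae H → ZK47.Out M H 0 a → H1 M 1 α →
  ¬Zr M α → App M H α F t → ∃ s φ ψ, Ld M k α s φ ψ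

/-- The projective triple. -/
def St_T6 : Prop := ∀ (M : Mf 4) [M.Cpt] (H S P : M.Fam (Mat 4)) (V W α : M.Fam (E 4))
  (a : ℝ → M.X → ℝ), M.Kae H → ZK47.Out M H 0 a → Data M S P V W α →
  (∀ k, ∃ s φ ψ, Ld M k α s φ ψ) → Prj M

/-- The theorem on the manifold layer. -/
def St_MAIN : Prop := ∀ (M : Mf 4) [M.Cpt] (H S : M.Fam (Mat 4)) (V W : M.Fam (E 4)), M.Kae H →
  W86.Nef M H → Hyp M → H2 M 0 S → ¬Zr M S → HT M 1 V → HT M 1 W → Ind M V W → Prj M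

theorem main_of (hA : St_ALG) (hO : St_OUZ) (hS : St_S34) (hL : St_LD) (hT : St_T6) :
    St_MAIN := by
  intro M _ H S V W hH hN hy hS0 nS hV hW hI
  obtain ⟨P, V, W, α, hD⟩ := hA M S V W hy hS0 nS hV hW hI
  obtain ⟨a, ha⟩ := hO 4 M H hH hN
  obtain ⟨F, t, hF⟩ := hS M H S P V W α a hH hD ha
  exact hT M H S P V W α a hH ha hD fun k => hL M H α a F t k hH ha hD.hα hD.nα hF

end Pool.Agent.Lib.F4
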