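import Pool.Agent.Lib.F4.BlueT
import Pool.Agent.Lib.F4.Blue

/-! Project f4, step six: assembly of the local part. -/

open scoped Classical Topology ContDiff ComplexOrder Matrix
open Set Filter MeasureTheory Metric

set_option linter.unusedVariables false

noncomputable section

namespace Pool.Agent.Lib.F4.T6

open Pool.Agent.Lib.SV (E)
open Pool.Agent.Lib.HS32 Pool.Agent.Lib.HLK

/-- The projective triple exists. -/
def St_TOP : Prop := ∀ (n : ℕ) (M : Mf n) [M.Cpt] (H : M.Fam (Mat n)) (α : M.Fam (E n))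
  (φ ψ : M.Fam ℝ) (s : ℝ), M.Met H → Inp M α φ ψ s → (∀ T, H2 M (-1) T → Zr M T) →
  (∀ ξ, Src M ξ → ∃ r, Sol M H ξ r) → Prj M

theorem gc_co {n : ℕ} {M : Mf n} {a b d : M.Ch} (ha : a ∈ M.C) (hb : b ∈ M.C) (hd : d ∈ M.C)
    {x : M.X} (xa : x ∈ a.source) (xb : x ∈ b.source) (xd : x ∈ d.source) (A B D : E n → ℂ) :
    gc a d A D (d x) = gc a b A B (b x) / (M.J b d x).det + gc b d B D (d x) := by
  have t := (mTR n M).2.1
  have h1 := (t a ha b hb x xa xb).2.1
  have h2 := (t b hb d hd x xb xd).2.1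
  have h3 : (M.J a d x).det = (M.J a b x).det * (M.J b d x).det := by
    rw [(t a ha b hb x xa xb).2.2.2.2 d hd xd, Matrix.det_mul]
  show D (d x) - A (a (d.symm (d x))) / (M.J a d x).det =
    (B (b x) - A (a (b.symm (b x))) / (M.J a b x).det) / (M.J b d x).det +
      (D (d x) - B (b (d.symm (d x))) / (M.J b d x).det)
  rw [d.left_inv xd, b.left_inv xb, h3]
  field_simp
  ring

theorem top (hDT : St_DT) (hSR : St_SR) (hTH : St_TH) (hGG : St_GG) (hE0 : St_E0) (hBE : St_BE) :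
    St_TOP := by
  intro n M _ H α φ ψ s hH hI z2 hS
  choose e ρ G hρ hx hD using hDT n M α φ ψ s hI
  obtain ⟨r, hr⟩ := hS _ (hSR n M α φ ψ s hI)
  choose γ hγ using fun x => hTH n M H α φ ψ s r (e x) _ (G x) hH hI hr (hD x)
  have pt : ∀ a, ∀ z ∈ ball (e a a) (ρ a), Pt (α (e a)) (φ (e a)) (ψ (e a)) s z :=
    fun a z hz => hI.pt _ (hD a).mem z ((hD a).sub hz)
  have hb := fun a => hBE n _ _ _ _ s (G a) isOpen_ball (pt a) (hD a).pr
  have ha : ∀ a, ∀ z ∈ ball (e a a) (ρ a), DifferentiableAt ℂ (α (e a)) z := fun a z hz =>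
    differentiableAt_pi.2 fun k => ((pt a z hz).hol k).self_of_nhds
  have cov : ∀ x, ∃ a, In (e a) (ball (e a a) (ρ a)) x := fun x =>
    ⟨x, hx x, mem_ball_self (hρ x)⟩
  have gg := fun a b => hGG n M H α φ ψ s r (e a) (e b) _ _ (G a) (G b) (γ a) (γ b) hH hI hr
    (hD a) (hD b) (hγ a) (hγ b)
  have c0 := hE0 n M M.X e (fun a => ball (e a a) (ρ a)) (fun a => α (e a))
    (fun a => be (α (e a)) (φ (e a)) (G a)) γ (fun a b => gc (e a) (e b) (G a) (G b)) z2
    (fun a => (hD a).mem) (fun a => isOpen_ball) (fun a => (hD a).sub) cov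
    (fun a => ⟨fun z hz => (ha a z hz).differentiableWithinAt, (hb a).1, (hγ a).hol,
      fun z hz => ⟨Matrix.ext fun j k => by
        have := (((hb a).2 z hz) j k).1
        simp only [d1, wg, Matrix.of_apply]
        linear_combination this, Matrix.ext fun j k => by
        have := (hγ a).eb z hz j k
        simp only [d1, wg, Matrix.of_apply]
        linear_combination this⟩⟩) gg
  refine ⟨M.X, e, fun a => ball (e a a) (ρ a), fun a => α (e a),
    fun a => be (α (e a)) (φ (e a)) (G a), γ, fun a b => gc (e a) (e b) (G a) (G b),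
    fun a => (hD a).mem, fun a => isOpen_ball, cov, fun a x h => ?_, gg, fun a b d x h1 h2 h3 =>
      gc_co (hD a).mem (hD b).mem (hD d).mem h1.1 h2.1 h3.1 _ _ _⟩
  have nb := isOpen_ball.mem_nhds h.2
  refine ⟨ha a _ h.2, (hb a).1.differentiableAt nb, (hγ a).hol.differentiableAt nb,
    fun j k => ((hb a).2 _ h.2 j k).1, (hγ a).eb _ h.2, fun j k => ?_⟩
  have := congrFun (congrFun (c0 a _ h.2) j) k
  simp only [cv, d1, wg, Matrix.add_apply, Matrix.of_apply, Matrix.zero_apply] at this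
  linear_combination this

theorem tT6 (h : St_TOP) (h7 : St_M7) : St_T6 := by
  intro n M _ _ H α φ ψ s hH hI z2 hS
  obtain ⟨ι, e, D, al, b, ga, c, h1, h2, h3, h4, h5, h6⟩ := h n M H α φ ψ s hH hI z2 hS
  exact h7 n M ι e D al b ga c h1 h2 h3 h4 h5 h6

end Pool.Agent.Lib.F4.T6
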