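import Pool.Agent.Lib.F4.BlueT

/-! Project f4, step six: the third form of a local datum exists. -/

open scoped Classical Topology ContDiff ComplexOrder Matrix
open Set Filter MeasureTheory Metric

noncomputable section

namespace Pool.Agent.Lib.F4.T6

open Pool.Agent.Lib.SV (E)
open Pool.Agent.Lib.HS32 Pool.Agent.Lib.HLK

namespace TTH

variable {n : ℕ}

/-- A property that holds almost everywhere in the coordinates holds almost everywhere on the
source of the chart. -/
theorem ae_mu {M : Mf n} {H : M.Fam (Mat n)} {μ : Measure M.X} (hμ : M.IsMu H μ) {e : M.Ch}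
    (he : e ∈ M.C) {p : E n → Prop} (hp : ∀ᵐ z, p z) : ∀ᵐ x ∂μ, x ∈ e.source → p (e x) := by
  obtain ⟨N, hN, hm, h0⟩ := exists_measurable_superset_of_null (ae_iff.1 hp)
  have hs : MeasurableSet e.source := e.open_source.measurableSet
  have ht : MeasurableSet e.target := e.open_target.measurableSet
  have hB : MeasurableSet (e.source ∩ e ⁻¹' N) := by
    have h1 : ContinuousOn e e.source := e.continuousOn
    have h2 : Measurable (e.source.restrict e) := h1.restrict.measurable
    have h3 := hs.subtype_image (h2 hm)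
    have h4 : Subtype.val '' (e.source.restrict e ⁻¹' N) = e.source ∩ e ⁻¹' N := by
      ext y
      constructor
      · rintro ⟨y, hy, rfl⟩
        exact ⟨y.2, hy⟩
      · rintro ⟨hy, hy'⟩
        exact ⟨⟨y, hy⟩, hy', rfl⟩
    rwa [h4] at h3
  have hac : ((volume.restrict e.target).withDensity fun z =>
      ENNReal.ofReal (H e z).det.re) ≪ volume.restrict e.target := withDensity_absolutelyContinuous _ _
  have hae : AEMeasurable e.symm ((volume.restrict e.target).withDensity fun z =>
      ENNReal.ofReal (H e z).det.re) :=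
    (e.continuousOn_symm.aemeasurable ht).mono_ac hac
  have h5 : μ (e.source ∩ e ⁻¹' N) = 0 := by
    rw [← Measure.restrict_eq_self μ inter_subset_left, hμ e he,
      Measure.map_apply_of_aemeasurable hae hB]
    refine hac ?_
    rw [Measure.restrict_apply' ht]
    refine measure_mono_null (fun z hz => ?_) h0
    have := hz.1.2
    rwa [mem_preimage, e.right_inv hz.2] at this
  rw [ae_iff]
  refine measure_mono_null (fun x hx => ?_) h5
  rw [mem_setOf_eq, Classical.not_imp] at hx
  exact ⟨hx.1, hN hx.2⟩

theorem cont_hol {a : E n → ℂ} {z : E n} (h : HolN a z) : ContinuousAt a z :=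
  h.self_of_nhds.continuousAt

end TTH

open TTH

theorem tTH (hBE : St_BE) (hRH : St_RH) (hGA : St_GA) : St_TH := by
  intro n M _ H α φ ψ s r e D G hH hI hS hD
  have hP : ∀ z ∈ D, Pt (α e) (φ e) (ψ e) s z := fun z hz => hI.pt e hD.mem z (hD.sub hz)
  have hB := hBE n D (α e) (φ e) (ψ e) s G hD.op hP hD.pr
  have hR := hRH n D (α e) (φ e) (ψ e) s G hD.op hP hD.pr
  obtain ⟨γ, hγ, ha⟩ := hGA n D (α e) (xf α φ ψ s e) (rho (α e) (φ e) G) (r e) hD.op
    (fun z hz k => ⟨(hP z hz).hol k, hR z hz k⟩) ((hS.li e hD.mem).mono_set hD.sub)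
    fun θ hθ => hS.wd e hD.mem θ ⟨hθ.1, hθ.2.1, hθ.2.2.trans hD.sub⟩
  refine ⟨γ, hγ, ?_, fun z hz j k => ?_⟩
  · filter_upwards [ae_mu (mMU n M H hH).1 hD.mem ha] with x hx hi
    exact hx hi.1 hi.2
  · rw [((hB.2 z hz) j k).2]
    have ca : ∀ i, ContinuousOn (fun w => α e w i) D := fun i w hw =>
      (cont_hol ((hP w hw).hol i)).continuousWithinAt
    have cr : ∀ i, ContinuousOn (fun w => rho (α e) (φ e) G w i) D := fun i w hw =>
      (hR w hw i).1.continuousAt.continuousWithinAt
    have cg : ∀ i, ContinuousOn (fun w => γ w i) D := fun i =>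
      (continuous_apply i).comp_continuousOn hγ.continuousOn
    refine Measure.eqOn_open_of_ae_eq (μ := volume)
      (f := fun w => -(α e w j * rho (α e) (φ e) G w k - α e w k * rho (α e) (φ e) G w j))
      (g := fun w => α e w j * γ w k - α e w k * γ w j) ?_ hD.op
      (((ca j).mul (cr k)).sub ((ca k).mul (cr j))).neg
      (((ca j).mul (cg k)).sub ((ca k).mul (cg j))) hz
    rw [EventuallyEq, ae_restrict_iff' hD.op.measurableSet]
    filter_upwards [ha] with w hw hwD
    rw [hw hwD k, hw hwD j]
    ring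

end Pool.Agent.Lib.F4.T6
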