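import Pool.Agent.Lib.F4.BlueT

/-! Project f4, step six: the law of the obstruction form. -/

open scoped Classical Topology ContDiff ComplexOrder Matrix
open Set Filter MeasureTheory Metric

set_option linter.unusedVariables false

noncomputable section

namespace Pool.Agent.Lib.F4.T6

open Pool.Agent.Lib.SV (E)
open Pool.Agent.Lib.HS32 Pool.Agent.Lib.HLK

namespace X1

variable {n : ℕ}

theorem nz {a : E n} (h : a ≠ 0) : ∑ k, a k * star (a k) ≠ 0 := fun e =>
  h (dotProduct_self_star_eq_zero.1 e)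

theorem quo {a : E n} (h : a ≠ 0) (f : ℂ) :
    (∑ k, f * a k * star (a k)) / ∑ k, a k * star (a k) = f := by
  rw [div_eq_iff (nz h), Finset.mul_sum]
  exact Finset.sum_congr rfl fun k _ => mul_assoc _ _ _

theorem par {a D : E n} (h : a ≠ 0) (hD : ∀ j k, D j * a k = D k * a j) :
    ∃ f : ℂ, ∀ j, D j = f * a j := by
  refine ⟨(∑ k, D k * star (a k)) / ∑ k, a k * star (a k), fun j => ?_⟩
  rw [div_mul_eq_mul_div, eq_div_iff (nz h), Finset.mul_sum, Finset.sum_mul]
  exact Finset.sum_congr rfl fun k _ => by linear_combination star (a k) * hD j k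

theorem core (J : Mat n) (hJ : J.det ≠ 0) (a D a' D' : E n) (c c' : ℂ)
    (hD : ∀ j k, D j * a k = D k * a j) (ha : a' = J.det • (a ᵥ* J))
    (hD' : ∀ k, D' k = ∑ i, D i * J i k) (hc : c' = c / (J.det * star J.det)) (l : Fin n) :
    (∑ k, D' k * star (a' k)) / (∑ k, a' k * star (a' k)) * (c' * star (a' l)) =
      (J.det ^ 2)⁻¹ * ∑ i, star (J i l) *
        ((∑ k, D k * star (a k)) / (∑ k, a k * star (a k)) * (c * star (a i))) := by
  by_cases h : a = 0
  · subst h
    simp [ha]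
  obtain ⟨f, hf⟩ := par h hD
  have hs : star J.det ≠ 0 := star_ne_zero.2 hJ
  have e1 : ∀ k, a' k = J.det * ∑ i, a i * J i k := fun k => by
    rw [ha]; rfl
  have h' : a' ≠ 0 := fun e => by
    rw [ha, smul_eq_zero] at e
    exact h (Matrix.eq_zero_of_vecMul_eq_zero hJ (e.resolve_left hJ))
  have e2 : ∀ k, D' k = f / J.det * a' k := fun k => by
    rw [hD', e1, ← mul_assoc, div_mul_cancel₀ _ hJ, Finset.mul_sum]
    exact Finset.sum_congr rfl fun i _ => by rw [hf, mul_assoc]
  simp only [e2, hf]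
  rw [quo h', quo h, hc, e1, star_mul', star_sum, Finset.mul_sum, Finset.mul_sum, Finset.mul_sum,
    Finset.mul_sum]
  refine Finset.sum_congr rfl fun i _ => ?_
  rw [star_mul']
  field_simp

theorem dif {p : E n → ℝ} {z : E n} (h : ContDiffAt ℝ 3 p z) : DifferentiableAt ℝ (rc p) z :=
  Complex.ofRealCLM.differentiableAt.comp z (h.differentiableAt (by simp))

theorem law {ψ : E n → E n} {p p' : E n → ℝ} {z : E n} (hψ : HolN ψ z) (h0 : (jm ψ z).det ≠ 0)
    (hp : ContDiffAt ℝ 3 p (ψ z))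
    (e : ∀ᶠ w in 𝓝 z, p' w = p (ψ w) + Real.log (Complex.normSq (jm ψ w).det)) (k : Fin n) :
    dz k (rc p') z = ∑ i, dz i (rc p) (ψ z) * jm ψ z i k +
      dz k (fun w => (Real.log (Complex.normSq (jm ψ w).det) : ℝ)) z := by
  obtain ⟨c1, -, -, -, c5, -, -, -, -, c10, -⟩ := mCHN n ψ z hψ
  have d2 := cd_diff (cd_ofReal (((mHOL n _ z).2.2 c5).2.2.2 h0).1)
  have d1 : DifferentiableAt ℝ (rc p ∘ ψ) z := (dif hp).comp z (cd_diff c1)
  rw [← (c10 _ (dif hp) k).1, ← dz_add d1 d2]
  refine dz_congr ?_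
  filter_upwards [e] with w hw
  simp only [rc, hw, Function.comp_apply, Complex.ofReal_add]

end X1

theorem tX1 : St_X1 := by
  intro n ψ a a' p q p' q' s z hψ h0 hP he l
  obtain ⟨e1, -, e3⟩ := he.self_of_nhds
  have hp := X1.law hψ h0 hP.sp (he.mono fun w h => h.2.1)
  have hq := X1.law hψ h0 hP.sq (he.mono fun w h => h.2.2)
  refine X1.core (jm ψ z) h0 (a (ψ z)) (fun k => dz k (rc q) (ψ z) - dz k (rc p) (ψ z)) (a' z)
    (fun k => dz k (rc q') z - dz k (rc p') z) _ _ (fun j k => ?_) e1 (fun k => ?_) ?_ l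
  · linear_combination hP.pp j k - hP.pq j k
  · rw [hp, hq]
    simp only [sub_mul, Finset.sum_sub_distrib]
    ring
  · have hn : 0 < Complex.normSq (jm ψ z).det := Complex.normSq_pos.2 h0
    rw [e3, neg_add, Real.exp_add, Real.exp_neg (Real.log _), Real.exp_log hn, Complex.star_def,
      Complex.mul_conj]
    push_cast
    ring

end Pool.Agent.Lib.F4.T6
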