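import Pool.Agent.Lib.F4.BlueT

/-! Project f4, step six: the obstruction form is measurable and locally bounded. -/

open scoped Classical Topology ContDiff ComplexOrder Matrix
open Set Filter MeasureTheory Metric

noncomputable section

namespace Pool.Agent.Lib.F4.T6

open Pool.Agent.Lib.SV (E)
open Pool.Agent.Lib.HS32 Pool.Agent.Lib.HLK

namespace XB39

/-- The pointwise bound. -/
theorem bnd {n : ℕ} (d a : Fin n → ℂ) (l : Fin n) :
    ‖(∑ k, d k * star (a k)) / (∑ k, a k * star (a k)) * star (a l)‖ ≤ ∑ k, ‖d k‖ := by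
  have hD : (∑ k, a k * star (a k)) = ((∑ k, ‖a k‖ ^ 2 : ℝ) : ℂ) := by
    rw [Complex.ofReal_sum]
    refine Finset.sum_congr rfl fun k _ => ?_
    rw [Complex.star_def, Complex.mul_conj, Complex.normSq_eq_norm_sq]
  have h0 : 0 ≤ ∑ k, ‖a k‖ ^ 2 := Finset.sum_nonneg fun k _ => sq_nonneg _
  have h1 : ∀ k, ‖a k‖ ^ 2 ≤ ∑ k, ‖a k‖ ^ 2 := fun k =>
    Finset.single_le_sum (f := fun k => ‖a k‖ ^ 2) (fun k _ => sq_nonneg _) (Finset.mem_univ k)
  have hs : 0 ≤ ∑ k, ‖d k‖ := Finset.sum_nonneg fun k _ => norm_nonneg _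
  rw [hD, norm_mul, norm_div, Complex.norm_real, Real.norm_of_nonneg h0, norm_star]
  rcases h0.eq_or_lt with h | h
  · rw [← h, div_zero, zero_mul]
    exact hs
  · rw [div_mul_eq_mul_div, div_le_iff₀ h]
    calc ‖∑ k, d k * star (a k)‖ * ‖a l‖ ≤ (∑ k, ‖d k‖ * ‖a k‖) * ‖a l‖ := by
          refine mul_le_mul_of_nonneg_right ((norm_sum_le _ _).trans (le_of_eq ?_)) (norm_nonneg _)
          refine Finset.sum_congr rfl fun k _ => ?_
          rw [norm_mul, norm_star]
      _ ≤ (∑ k, ‖d k‖) * ∑ k, ‖a k‖ ^ 2 := by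
          rw [Finset.sum_mul, Finset.sum_mul]
          refine Finset.sum_le_sum fun k _ => ?_
          rw [mul_assoc]
          refine mul_le_mul_of_nonneg_left ?_ (norm_nonneg _)
          nlinarith [h1 k, h1 l, sq_nonneg (‖a k‖ - ‖a l‖)]

end XB39

theorem tXB (hCK : St_CK) : St_XB := by
  intro n U a p q s hU hP l
  have ha : ∀ k, ContinuousOn (fun z => a z k) U := fun k z hz =>
    (((hP z hz).hol k).self_of_nhds.continuousAt).continuousWithinAt
  have hd : ∀ (f : E n → ℝ), (∀ z ∈ U, ContDiffAt ℝ 3 f z) → ∀ k,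
      ContinuousOn (dz k (rc f)) U := by
    intro f hf k z hz
    have h3 : ContDiffAt ℝ (2 + 1 : ℕ) (rc f) z :=
      Complex.ofRealCLM.contDiff.contDiffAt.comp z (hf z hz)
    exact (((hCK n (rc f) z).1 2 k h3).1.continuousAt).continuousWithinAt
  have hq : ContinuousOn q U := fun z hz => ((hP z hz).sq.continuousAt).continuousWithinAt
  have hdq := hd q fun z hz => (hP z hz).sq
  have hdp := hd p fun z hz => (hP z hz).sp
  have hst : ∀ k, ContinuousOn (fun z => star (a z k)) U := fun k => (ha k).star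
  have hc : ContinuousOn (fun z => s * Real.exp (-q z)) U :=
    continuousOn_const.mul (Real.continuous_exp.comp_continuousOn hq.neg)
  have hN : ContinuousOn
      (fun z => ∑ k, (dz k (rc q) z - dz k (rc p) z) * star (a z k)) U :=
    continuousOn_finsetSum _ fun k _ => ((hdq k).sub (hdp k)).mul (hst k)
  have hD : ContinuousOn (fun z => ∑ k, a z k * star (a z k)) U :=
    continuousOn_finsetSum _ fun k _ => (ha k).mul (hst k)
  have hA : ContinuousOn (fun z => af a q s z l) U :=
    (Complex.continuous_ofReal.comp_continuousOn hc).mul (hst l)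
  refine ⟨?_, fun K hK hKU => ?_⟩
  · exact (((hN.aemeasurable hU.measurableSet).div (hD.aemeasurable hU.measurableSet)).mul
      (hA.aemeasurable hU.measurableSet)).aestronglyMeasurable
  · have hB : ContinuousOn
        (fun z => ‖s * Real.exp (-q z)‖ * ∑ k, ‖dz k (rc q) z - dz k (rc p) z‖) U :=
      hc.norm.mul (continuousOn_finsetSum _ fun k _ => ((hdq k).sub (hdp k)).norm)
    obtain ⟨C, hC⟩ := hK.exists_bound_of_continuousOn (hB.mono hKU)
    refine ⟨C, fun z hz => le_trans ?_ ((le_abs_self _).trans (hC z hz))⟩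
    have h := XB39.bnd (fun k => dz k (rc q) z - dz k (rc p) z) (a z) l
    have e : xi a p q s z l = ((s * Real.exp (-q z) : ℝ) : ℂ) *
        ((∑ k, (dz k (rc q) z - dz k (rc p) z) * star (a z k)) / (∑ k, a z k * star (a z k)) *
          star (a z l)) := by
      simp only [xi, f1, af]
      ring
    show ‖xi a p q s z l‖ ≤ _
    rw [e, norm_mul, Complex.norm_real]
    exact mul_le_mul_of_nonneg_left h (norm_nonneg _)

end Pool.Agent.Lib.F4.T6
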