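import Pool.Agent.Lib.F4.T_AF
import Pool.Agent.Lib.F4.T_BE
import Pool.Agent.Lib.F4.T_CK
import Pool.Agent.Lib.F4.T_CL
import Pool.Agent.Lib.F4.T_DK
import Pool.Agent.Lib.F4.T_DT
import Pool.Agent.Lib.F4.T_E0
import Pool.Agent.Lib.F4.T_EL
import Pool.Agent.Lib.F4.T_G1
import Pool.Agent.Lib.F4.T_GA
import Pool.Agent.Lib.F4.T_GG
import Pool.Agent.Lib.F4.T_GL
import Pool.Agent.Lib.F4.T_IB
import Pool.Agent.Lib.F4.T_RH
import Pool.Agent.Lib.F4.T_SR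
import Pool.Agent.Lib.F4.T_T6
import Pool.Agent.Lib.F4.T_TH
import Pool.Agent.Lib.F4.T_X1
import Pool.Agent.Lib.F4.T_XB
import Pool.Agent.Lib.F4.R_CLO
import Pool.Agent.Lib.F4.R_CAP

/-! Project f4, step six: the local part without hypotheses. -/

namespace Pool.Agent.Lib.F4.T6

theorem aDT : St_DT := tDT tDK tAF

theorem aTOP : St_TOP :=
  top aDT (tSR aDT (tRH tCK) (tXB tCK) (tCL (R.st_CLO R.st_CAP)) tX1)
    (tTH (tBE tCK) (tRH tCK) (tGA (tIB tCK))) (tGG (tBE tCK) tG1) (tE0 tEL tGL) (tBE tCK)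

end Pool.Agent.Lib.F4.T6
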