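import Pool.Agent.Lib.F4.Blue

/-! Project f4: the weights given by the theorem on the Lelong numbers. -/

open scoped Classical Topology ContDiff ComplexOrder Matrix
open Set MeasureTheory Filter

noncomputable section

namespace Pool.Agent.Lib.F4

open Pool.Agent.Lib.HS32

theorem st_OUZ (h : ZK47.St_MAIN) : St_OUZ := by
  intro n M _ H hH hN
  have cr : M.Clo (M.ric H) := (mHES n M).2.2.2.2.2.2.2.2.1 H hH.toMet
  have z0 : M.Sm fun _ => (0 : ℝ) := Mf.sm_const 0
  refine h n M H 0 (fun _ _ => 0) (fun _ _ => 0) ((M.mu H).real univ) 2 hH Mf.clo_zero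
    ⟨one_lt_two, fun _ _ => z0, fun _ _ _ => le_rfl, fun _ _ => continuous_const,
      fun _ _ _ => ⟨le_rfl, measureReal_nonneg⟩, fun _ _ c hc z hz => ?_, fun _ _ => by simp,
      by simp⟩ fun e he => ?_
  · have := ((mLAP n M _ _ z0 z0).1 0 c hc z hz).1
    simp only [Pi.zero_apply, this, zero_smul, add_zero]
    exact Matrix.PosSemidef.zero
  · obtain ⟨w, hw, hp⟩ := hN e he
    have c := ((Mf.clo_zero.sub cr).add (hH.toClo.smul e)).add ((mHES n M).1 w hw)
    refine ⟨w, hw, c, fun c hc z hz => ?_⟩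
    rw [show 0 - M.ric H + e • H + M.hs w = M.gE H e w by rw [Mf.gE]; abel]
    exact hp c hc z hz

end Pool.Agent.Lib.F4
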