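import Pool.Agent.Lib.F4.BlueO
import Pool.Agent.Lib.K3E.B_ALT
import Pool.Agent.Lib.K3E.B_FRM
import Pool.Agent.Lib.K3E.B_STAR
import Pool.Agent.Lib.HLK.All0

/-! Project f4, row FH: forms as multivectors. -/

open scoped Classical Topology ContDiff ComplexOrder Matrix Manifold
open Set Filter

noncomputable section

namespace Pool.Agent.Lib.F4

open Pool.Agent.Lib.SV (E)
open Pool.Agent.Lib.HS32 Pool.Agent.Lib.HLK
open Pool.Agent.Lib.HS.BBR (mf)
open Pool.Agent.Lib.K3E (lk cmpt bALT bSTAR)

open K3E.FRM in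
theorem st_FH : St_FH := by
  intro n X _ _ _ H p q hpq α hα h0
  let M : Mf n := mf n X
  let c : M.X → M.Ch := chartAt (M := X) (E n)
  have hc : ∀ x, c x ∈ M.C ∧ x ∈ (c x).source :=
    fun x => ⟨HW.ch_mem (X := X) x, mem_chart_source (M := X) (E n) x⟩
  obtain ⟨hch, hov, hone, -⟩ := mTR n M
  have l := law (H := H) (α := α) (bSTAR aFK1 aFK2) bALT hc
  have d : M.All fun e z => ∀ A, DifferentiableAt ℂ (fun w => fm c α e w A) z := by
    intro e he z hz
    have := move aFK3 l e he _ (hc _).1 _ (e.map_target hz) (hc _).2 fun A => ?_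
    · rwa [e.right_inv hz] at this
    · simp only [fm, star_mv, cmpt]
      split_ifs with h
      · refine ((hα (e.symm z) fun i => Pi.single (Aᶜ.orderEmbOfFin h i) 1).congr_of_eventuallyEq
          ?_).const_mul _
        filter_upwards [(c _).open_target.mem_nhds ((c _).map_source (hc (e.symm z)).2)] with w hw
        rw [pow_zero, mul_one, Mf.J, (c _).right_inv hw]
        rfl
      · exact differentiableAt_const _
  let W : M.Fam (Fs n → ℂ) := fun e z => if e ∈ M.C ∧ z ∈ e.target then fm c α e z else 0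
  have r : M.All fun e z => W e z = fm c α e z := fun e he z hz => if_pos ⟨he, hz⟩
  have hh : Hol W := fun e he z hz A => by
    filter_upwards [d.ev he hz, (r.ev he hz).eventually_nhds] with w k1 k2
    exact (k1 A).congr_of_eventuallyEq (k2.mono fun y hy => congrFun hy A)
  refine ⟨W, ⟨⟨fun e he z hz => contDiffAt_pi.2 fun A => ((mHOL n _ _).2.2 (hh e he z hz A)).1,
    fun e he e' he' x hx hx' => ?_⟩, hh, fun e z A h => ?_⟩, fun k0 => h0 ?_⟩
  · beta_reduce
    rw [r e he _ (e.map_source hx), r e' he' _ (e'.map_source hx')]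
    exact l e he e' he' x hx hx'
  · by_cases k : e ∈ M.C ∧ z ∈ e.target
    · exact ⟨k.1, k.2, by_contra fun j => h ((congrFun (r e k.1 z k.2) A).trans (deg hpq e z A j))⟩
    · exact (h (congrFun (if_neg k) A)).elim
  · refine funext fun (x : M.X) => AlternatingMap.ext fun v => ?_
    have h1 : fm c α (c x) (c x x) = 0 :=
      (r _ (hc x).1 _ ((c x).map_source (hc x).2)).symm.trans (congrFun (congrFun k0 _) _)
    rw [fm, (c x).left_inv (hc x).2, hone _ (hc x).1 x (hc x).2, Matrix.mulVecLin_one,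
      AlternatingMap.compLinearMap_id] at h1
    obtain ⟨k, hk⟩ := (bALT n p).2.1 v
    refine (hk _).trans (Finset.sum_eq_zero fun B _ => ?_)
    rw [inv_mv (cmpt _) B, h1, Pi.zero_apply, mul_zero, mul_zero]

end Pool.Agent.Lib.F4
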