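import Pool.Agent.Lib.F4.BlueO
import Pool.Agent.Lib.KBO.All

/-! Project f4: the non-vanishing theorem on the manifold layer. -/

open scoped Classical ComplexOrder Matrix

noncomputable section

namespace Pool.Agent.Lib.F4

open Pool.Agent.Lib.HS32

namespace KBM

open Pool.Agent.Lib.KT

/-- The non-vanishing theorem for the data on the manifold layer. -/
theorem ms : KBO.St_MS := by
  have kit := tKIT
  have ext := tEXT tEXL kit
  have num := tNUM ext
  have ten := tTEN kit ext tTT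
  have neg := tNEG tPOL
  have wrg := tWRG (tWRO kit) tTT ext num
  have wed := tWED tMIN wrg ext num kit tSCL
  have ref := tREF tSCL kit
  have bs := tBS kit neg ten (tLT kit)
  have sys := tSYS ten kit
  exact fun n M _ I _ D hχ => KA.core HS21.st_AUBIN (tCRM tLAM) (tPSI tQUO tSCL)
    (tST1 (tFLD num tSCL) (tSIW num) (tRK num) ref wed bs (tAIC (tTUB ten) ten) sys
      (tDRV tCOE wrg kit) (tDCO tCOE wrg ten kit) ten KC.aGEN KBE.bDER)
    bs (tCHG ten ref (tRIE tEXL) kit) sys (tMOD ten neg kit) (tRK num)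
    (tFIB wed tJQ (tPDT neg num tPOL kit) neg tSCL) tRAT (tVAL ten kit) (tEX1 num) (tFIN ext kit)
    KBE.aEF KBE.bFG KBE.bHYP KC.aEQA KC.aDGA KC.aCUA KC.aGMK KC.aTOP n M I D
    (KBO.inf HLK.aHL IDX.aIDX ZE.ze2 K3S.aDT K3E.bKAN K3S.bSG D hχ)

/-- The data without divisors. -/
def dk {n : ℕ} {M : Mf n} [M.Cpt] {H : M.Fam (Mat n)} (hn : 0 < n) (hH : M.Kae H)
    (hN : W86.Nef M H) : K3S.Dk M Empty where
  H := H
  β := H
  L := Empty.elim
  f := Empty.elim
  φ := Empty.elim
  a := Empty.elim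
  c := 1
  pos := hn
  c0 := one_pos
  kae := hH
  cβ := hH.toClo
  nβ := fun e he z hz => by simpa using (hH.toMet.pos e he z hz).posSemidef
  big := by
    obtain ⟨x⟩ : Nonempty M.X := inferInstance
    obtain ⟨e, he, hx⟩ := M.cov x
    exact ⟨e, he, e x, e.map_source hx, hH.toMet.pos e he _ (e.map_source hx)⟩
  hol := fun k => k.elim
  wt := fun k => k.elim
  deg := fun k => k.elim
  nef := fun ε hε => by
    obtain ⟨w, w1, w2⟩ := hN ε hε
    have hf : M.Clo (M.gE H ε w) := ((hH.toClo.smul ε).sub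
      ((mHES n M).2.2.2.2.2.2.2.2.1 _ hH.toMet)).add ((mHES n M).1 w w1)
    obtain ⟨C, c0, c1, -⟩ := (mBD n M H hH.toMet).1 _ hf.toForm
    have q : ∀ S : M.Fam (Mat n), S = 0 → -M.ric H - S + ε • H + M.hs w = M.gE H ε w := by
      rintro _ rfl
      rw [Mf.gE]
      abel
    refine ⟨w, C, c0.le, w1, ?_⟩
    rw [q _ (Finset.sum_of_isEmpty _)]
    exact ⟨fun e he z hz => by simpa using (w2 e he z hz).posSemidef, c1⟩

end KBM

theorem st_KBM : St_KBM := fun n M _ H hn hH hN hχ => by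
  obtain ⟨m, m0, t, t1, e, he, z, hz, t2⟩ := KBM.ms n M Empty (KBM.dk hn hH hN) hχ
  exact ⟨m, m0, t, t1, fun c => t2 (c e he z hz)⟩

end Pool.Agent.Lib.F4
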