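import Pool.Agent.Lib.F4.BlueA
import Pool.Agent.Lib.IDX.All
import Pool.Agent.Lib.K3E.B_KAN
import Pool.Agent.Lib.K3E.B_STAR
import Pool.Agent.Lib.K3E.B_FRM

/-! Project f4: holomorphic forms on a compact Kähler manifold are closed. -/

open scoped Classical Topology ContDiff ComplexOrder Matrix
open Set Filter MeasureTheory

noncomputable section

namespace Pool.Agent.Lib.F4.Clo

open Pool.Agent.Lib.SV (E)
open Pool.Agent.Lib.HS32 Pool.Agent.Lib.HLK
open Pool.Agent.Lib.K3E (lk kan wk triv)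

variable {n : ℕ} {M : Mf n} {H : M.Fam (Mat n)}

theorem can (hH : M.Met H) : IDX.Can H (kan M 1) (wk H 1) :=
  ⟨(K3E.bKAN n M H 1 hH).1, fun e _ e' _ x _ _ => by simp [kan, triv, Mf.Co.tw],
    fun e _ z _ => by simp [wk]⟩

/-- The divergence of a holomorphic multivector with values in the canonical bundle is zero. -/
theorem clo [M.Cpt] (hH : M.Kae H) {Y : M.Fam (Fs n → ℂ)} (h1 : (lk H 1).Sec Y) (h2 : Hol Y) :
    M.All fun e z => ∑ k, an k *ᵥ dzv k (Y e) z = 0 := by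
  have c := can hH.toMet
  have ok := (aLAM n M H _ _ hH.toMet c.wl).1
  have h3 := (IDX.bHA aSKW aBOC n M H _ _ Y hH c h1).2 h2
  have h4 := (aSKW n M H _ _ hH c.wl).1.sec Y h1
  obtain ⟨r, s⟩ := ok.pp_rep h4 h4
  obtain ⟨-, -, op, -, it, -⟩ := mMU n M H hH.toMet
  have ct : Continuous ((lk H 1).pn ((oD H (wk H 1)).ap Y)) := s.re.continuous
  have nn : ∀ x, 0 ≤ (lk H 1).pn ((oD H (wk H 1)).ap Y) x := fun x =>
    (Complex.nonneg_iff.1 ((Mf.AllOn.ch ok.pos x).posSemidef.dotProduct_mulVec_nonneg _)).1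
  rw [Bun.nr, integral_eq_zero_iff_of_nonneg nn (it ℝ _ ct)] at h3
  intro e he z hz
  have h0 := congrFun ((ct.ae_eq_iff_eq (M.mu H) continuous_zero).1 h3) (e.symm z)
  have h5 : (oD H (wk H 1)).ap Y e z = 0 := by
    by_contra k
    have p := ((ok.pos e he z hz).dotProduct_mulVec_pos k).trans_eq (r e he z hz).symm
    exact (Complex.pos_iff.1 p).1.ne' h0
  have h6 : ∀ k, dzbv k (Y e) z = 0 := fun k => funext fun i => by
    have d := (h2 e he z hz i).self_of_nhds
    exact ((mHOL n _ _).1 (d.restrictScalars ℝ)).1 d k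
  simpa [Op.ap, oD, h6, KP.T60.phC, wk, dz] using h5

theorem lin {σ : Type} [Fintype σ] (hH : M.Kae H) [M.Cpt] (Φ : Matrix (Fs n) σ ℂ)
    {u : M.Fam (σ → ℂ)} (h1 : Hol u) (h2 : M.Ov fun e e' x =>
      La (M.J e e' x) *ᵥ Φ *ᵥ u e' (e' x) = (M.J e e' x).det • Φ *ᵥ u e (e x)) :
    M.All fun e z => ∑ k, an k *ᵥ Φ *ᵥ dzv k (u e) z = 0 := by
  have h3 : Hol fun e z => Φ *ᵥ u e z := fun e he z hz A => by
    filter_upwards [eventually_all.2 (h1 e he z hz)] with w hw
    exact DifferentiableAt.fun_sum fun i _ => (hw i).const_mul _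
  have h4 := clo hH (Y := fun e z => Φ *ᵥ u e z) ⟨fun e he z hz => contDiffAt_pi.2 fun A =>
    ((mHOL n _ _).2.2 (h3 e he z hz A)).1, fun e he e' he' x hx hx' => by
      have := ((mTR n M).2.1 e he e' he' x hx hx').2.1
      simp only [lam, kan, triv, Mf.Co.tw, pow_one, mul_one, Matrix.smul_mulVec,
        h2 e he e' he' x hx hx', smul_smul, inv_mul_cancel₀ this, one_smul]⟩ h3
  intro e he z hz
  refine Eq.trans (Finset.sum_congr rfl fun k _ => congrArg _ (funext fun A => ?_)) (h4 e he z hz)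
  have d := fun i => (h1 e he z hz i).self_of_nhds.restrictScalars ℝ
  exact ((dz_sum fun i _ => (d i).const_mul _).trans
    (Finset.sum_congr rfl fun i _ => dz_const_mul _ (d i))).symm

/-- The vacuum. -/
abbrev vac (n : ℕ) : Fs n → ℂ := Pi.single ∅ 1

/-- The multivectors of degree one. -/
def U1 (n : ℕ) : Matrix (Fs n) (Fin n) ℂ := Matrix.of fun A k => cr k A ∅

/-- The multivectors of degree two. -/
def U2 (n : ℕ) : Matrix (Fs n) (Fin n × Fin n) ℂ := Matrix.of fun A p => (cr p.1 * cr p.2) A ∅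

theorem u1_eq (v : E n) : U1 n *ᵥ v = ∑ k, v k • cr k *ᵥ vac n := by
  ext A
  simp [U1, Matrix.mulVec, dotProduct, mul_comm]

theorem u2_eq (P : Mat n) : U2 n *ᵥ (fun p => P p.1 p.2) = ∑ k, cr k *ᵥ U1 n *ᵥ P k := by
  simp only [u1_eq, Matrix.mulVec_sum, Matrix.mulVec_smul, Matrix.mulVec_mulVec]
  ext A
  simp [U2, Matrix.mulVec, dotProduct, mul_comm, Fintype.sum_prod_type]

theorem la_vac (g : Mat n) : La g *ᵥ vac n = vac n := by
  ext A
  simp [((aFK2 n).2 g).2.1, Pi.single_apply]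

theorem la_cr (g : Mat n) (k : Fin n) (Y : Fs n → ℂ) :
    La g *ᵥ cr k *ᵥ Y = ∑ i, g i k • cr i *ᵥ La g *ᵥ Y := by
  simp only [Matrix.mulVec_mulVec, ((aFK2 n).2 g).2.2.2.1, Matrix.sum_mulVec, Matrix.smul_mulVec]

theorem la_u1 (g : Mat n) (v : E n) : La g *ᵥ U1 n *ᵥ v = U1 n *ᵥ g *ᵥ v := by
  simp only [u1_eq, Matrix.mulVec_sum, Matrix.mulVec_smul, la_cr, la_vac, Finset.smul_sum,
    smul_smul]
  rw [Finset.sum_comm]
  refine Finset.sum_congr rfl fun i _ => ?_
  rw [← Finset.sum_smul]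
  simp [Matrix.mulVec, dotProduct, mul_comm]

theorem la_u2 (g P : Mat n) : La g *ᵥ U2 n *ᵥ (fun p => P p.1 p.2) =
    U2 n *ᵥ fun p => (g * P * gᵀ) p.1 p.2 := by
  simp only [u2_eq, Matrix.mulVec_sum, la_cr, la_u1]
  rw [Finset.sum_comm]
  refine Finset.sum_congr rfl fun i _ => ?_
  simp only [← Matrix.mulVec_smul, ← Matrix.mulVec_sum]
  refine congrArg _ (congrArg _ (funext fun j => ?_))
  simp [Matrix.mulVec, dotProduct, Matrix.mul_apply, mul_comm]

theorem an_vac (k : Fin n) : an k *ᵥ vac n = 0 := by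
  ext A
  simp [FK1.an_apply, (Finset.insert_ne_empty k A).symm]

theorem an_cr (k i : Fin n) (Y : Fs n → ℂ) :
    an k *ᵥ cr i *ᵥ Y = (if k = i then Y else 0) - cr i *ᵥ an k *ᵥ Y := by
  rw [Matrix.mulVec_mulVec, Matrix.mulVec_mulVec, eq_sub_iff_add_eq, ← Matrix.add_mulVec,
    ((aFK1 n).1 k i).2.2]
  split_ifs <;> simp

theorem an_u1 (k : Fin n) (v : E n) : an k *ᵥ U1 n *ᵥ v = v k • vac n := by
  simp [u1_eq, Matrix.mulVec_sum, Matrix.mulVec_smul, an_cr, an_vac, -Matrix.mulVec_mulVec,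
    -Matrix.mulVec_single]

/-- The divergence of a vector field with values in the canonical bundle is zero. -/
theorem divV [M.Cpt] (hH : M.Kae H) {V : M.Fam (E n)} (h : HT M 1 V) :
    M.All fun e z => ∑ k, dz k (V e · k) z = 0 := fun e he z hz => by
  have := congrFun (lin hH (U1 n) h.hol (fun e he e' he' x hx hx' => by
    beta_reduce
    rw [la_u1, h.cmp e he e' he' x hx hx', zpow_one, Matrix.mulVec_smul]) e he z hz) ∅
  simpa [an_u1, dzv, -Matrix.mulVec_mulVec] using this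

/-- The divergence of a bivector with values in the canonical bundle is zero. -/
theorem divP [M.Cpt] (hH : M.Kae H) {P : M.Fam (Mat n)} (h : HB M 1 P) :
    M.All fun e z => ∀ l, ∑ k, dz k (P e · k l) z = 0 := fun e he z hz l => by
  have a := lin hH (U2 n) (u := fun e z p => P e z p.1 p.2) (fun e he z hz p => h.hol e he z hz _ _)
    (fun e he e' he' x hx hx' => by
      beta_reduce
      rw [la_u2, h.cmp e he e' he' x hx hx', zpow_one, ← Matrix.mulVec_smul]
      rfl) e he z hz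
  have b : ∀ k, dzv k (fun z (p : Fin n × Fin n) => P e z p.1 p.2) z = fun p =>
      (Matrix.of fun i j => dz k (P e · i j) z) p.1 p.2 := fun k => rfl
  have c : ∀ k, dz k (P e · l k) z = -dz k (P e · k l) z := fun k => by
    rw [← dz_neg]
    exact dz_congr ((h.alt.ev he hz).mono fun w hw => congrFun (congrFun hw k) l)
  have d := congrFun (congrArg (an l *ᵥ ·) a) ∅
  simp only [b, u2_eq, Matrix.mulVec_sum, an_cr, an_u1, Matrix.mulVec_sub, Matrix.mulVec_smul,
    apply_ite (an l *ᵥ ·), an_vac, Matrix.mulVec_zero, Finset.sum_sub_distrib] at d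
  simp [c] at d
  exact d

theorem pt4 (a : Fin 4 → E 4) (h : ∑ k, an k *ᵥ (K3E.star 4 * U1 4) *ᵥ a k = 0) (i j : Fin 4) :
    a i j = a j i := by
  have b : ∀ (k : Fin 4) (Y : Fs 4 → ℂ) (A : Fs 4),
      (an k *ᵥ Y) A = if k ∉ A then FK1.sg k A * Y (insert k A) else 0 := fun k Y A => by
    by_cases c : k ∈ A <;> simp [Matrix.mulVec, dotProduct, FK1.an_apply, c]
  have c : ∀ (v : E 4) (A : Fs 4), (U1 4 *ᵥ v) A = ∑ k, if A = {k} then v k else 0 := fun v A => by
    simp [Matrix.mulVec, dotProduct, U1, FK1.cr_apply, FK1.sg]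
  have d := fun A => congrFun h A
  simp only [Finset.sum_apply, b, ← Matrix.mulVec_mulVec, K3E.FRM.star_mv, c, Fin.sum_univ_four,
    FK1.sg, Pi.zero_apply] at d
  have d1 := d {2, 3}
  have d2 := d {1, 3}
  have d3 := d {1, 2}
  have d4 := d {0, 3}
  have d5 := d {0, 2}
  have d6 := d {0, 1}
  simp +decide at d1 d2 d3 d4 d5 d6
  fin_cases i <;> fin_cases j <;> simp <;> grind

/-- Holomorphic forms of degree one are closed. -/
theorem clo1 {M : Mf 4} [M.Cpt] {H : M.Fam (Mat 4)} (hH : M.Kae H) {ρ : M.Fam (E 4)}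
    (h : H1 M 0 ρ) : M.All fun e z => ∀ i j, dz i (ρ e · j) z = dz j (ρ e · i) z :=
  fun e he z hz => pt4 (fun k => dzv k (ρ e) z) (lin hH (K3E.star 4 * U1 4) h.hol
    (fun e he e' he' x hx hx' => by
      beta_reduce
      rw [h.cmp e he e' he' x hx hx', zpow_zero, one_smul, ← Matrix.mulVec_transpose,
        ← Matrix.mulVec_mulVec, ← la_u1, ← K3E.STAR.la_tr, Matrix.mulVec_mulVec,
        Matrix.mulVec_mulVec, Matrix.mulVec_mulVec, K3E.bSTAR aFK1 aFK2, Matrix.smul_mul,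
        Matrix.smul_mulVec]) e he z hz)

end Pool.Agent.Lib.F4.Clo
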