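import Pool.Agent.Lib.F4.BlueO
import Pool.Agent.Lib.F4.Clo
import Pool.Agent.Lib.F4.A_IDT

/-! Project f4, rows M8 and Q0: flat connections with finite monodromy. -/

open scoped Classical Topology ContDiff Matrix
open Set Filter Metric

set_option linter.unusedVariables false

noncomputable section

namespace Pool.Agent.Lib.F4

open Pool.Agent.Lib.SV (E)
open Pool.Agent.Lib.HS32 M7

namespace M8

variable {n : ℕ}

section gen

variable {𝔸 : Type} [NormedRing 𝔸] [NormedAlgebra ℂ 𝔸] [FiniteDimensional ℂ 𝔸]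

theorem glueF (M : Mf n) (hM : Mono M.X 𝔸ˣ) {ι : Type} (e : ι → M.Ch)
    (he : ∀ a, e a ∈ M.C) (U : ι → Set M.X) (hU : ∀ a, IsOpen (U a) ∧ U a ⊆ (e a).source)
    (hc : ∀ x, ∃ a, x ∈ U a) (l : ι → Fin n → E n → 𝔸)
    (hl : ∀ a, ∀ x ∈ U a, Fl (l a) (e a x)) (G : ι → ι → E n → 𝔸)
    (hG : ∀ a b x, x ∈ U a → x ∈ U b → Gau (e a) (e b) (l a) (l b) (G a b) x)
    (hC : ∀ a b d x, x ∈ U a → x ∈ U b → x ∈ U d →
      G a b (e b x) * G b d (e d x) = G a d (e d x)) :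
    ∃ (a : M.X → ι) (O : M.X → Set M.X) (T : M.X → E n → 𝔸) (m : ℕ) (S : M.X → M.X → Finset 𝔸ˣ),
      0 < m ∧ (∀ x, IsOpen (O x) ∧ x ∈ O x ∧ O x ⊆ U (a x)) ∧
      (∀ x, ∀ z ∈ O x, (Par (l (a x)) (T x) (e (a x) z) ∧ IsUnit (T x (e (a x) z))) ∧
        (S x z).card = m ∧ ∀ᶠ w in 𝓝 z, S x w = S x z) ∧
      ∀ x y z, z ∈ O x → z ∈ O y → ∀ φ : 𝔸 → ℂ, ∏ k ∈ S y z, φ (k * T y (e (a y) z)) =
        ∏ k ∈ S x z, φ (k * T x (e (a x) z) * G (a x) (a y) (e (a y) z)) := by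
  choose a ha using hc
  have h1 : ∀ x, ∃ (O : Set M.X) (T : E n → 𝔸), (IsOpen O ∧ x ∈ O ∧ O ⊆ U (a x)) ∧
      ∀ z ∈ O, Par (l (a x)) T (e (a x) z) ∧ IsUnit (T (e (a x) z)) := fun x => by
    have s1 := (hU _).2 (ha x)
    obtain ⟨T, hT⟩ := frameK (l := l (a x)) (x := e (a x) x) (by
      filter_upwards [(e (a x)).open_target.eventually_mem ((e (a x)).map_source s1),
        ((e (a x)).continuousAt_symm ((e (a x)).map_source s1)).eventually
        ((hU (a x)).1.eventually_mem (by rw [(e (a x)).left_inv s1]; exact ha x))] with w h1 h2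
      exact (e (a x)).right_inv h1 ▸ hl _ _ h2)
    obtain ⟨O, hO, o1, o2⟩ := _root_.eventually_nhds_iff.1
      ((((e (a x)).continuousAt s1).eventually hT).and ((hU _).1.eventually_mem (ha x)))
    exact ⟨O, T, ⟨o1, o2, fun z hz => (hO z hz).2⟩, fun z hz => (hO z hz).1⟩
  choose O T hO' hT using h1
  have hO : ∀ x, IsOpen (O x) ∧ x ∈ O x ∧ O x ⊆ (e (a x)).source := fun x =>
    ⟨(hO' x).1, (hO' x).2.1, (hO' x).2.2.trans (hU _).2⟩
  set c : M.X → M.X → M.X → 𝔸 := fun x y z =>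
    T x (e (a x) z) * G (a x) (a y) (e (a y) z) * Ring.inverse (T y (e (a y) z)) with hc
  have hu : ∀ x y z, z ∈ O x → z ∈ O y → IsUnit (c x y z) := fun x y z hx hy =>
    ((hT x z hx).2.mul (hG _ _ z ((hO' x).2.2 hx) ((hO' y).2.2 hy)).u).mul
      (hT y z hy).2.ringInverse
  set c' : M.X → M.X → M.X → 𝔸ˣ := fun x y z => if h : IsUnit (c x y z) then h.unit else 1
    with hc'
  have hv : ∀ x y z, z ∈ O x → z ∈ O y → (c' x y z : 𝔸) = c x y z := fun x y z hx hy => by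
    simp only [hc', dif_pos (hu x y z hx hy), IsUnit.unit_spec]
  obtain ⟨m, S, m0, k1, k2⟩ := hM M.X O c' (fun x => (hO x).1) (fun x => ⟨x, (hO x).2.1⟩)
    (fun x y z hx hy => by
      have s1 := (hO y).2.2 hy
      have m1 : ∀ᶠ w in 𝓝 z, w ∈ O x ∧ w ∈ O y := ((hO x).1.inter (hO y).1).mem_nhds ⟨hx, hy⟩
      have m2 := ((e (a y)).continuousAt_symm ((e (a y)).map_source s1)).eventually
        (((e (a y)).left_inv s1).symm ▸ m1)
      have m3 := const_of_par (l := l (a y)) (Q := T y) (x := e (a y) z)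
        (P := fun w => T x (e (a x) ((e (a y)).symm w)) * G (a x) (a y) w) (by
          filter_upwards [m2, (e (a y)).open_target.eventually_mem ((e (a y)).map_source s1)]
            with w hw ht
          have q1 := par_gau (he _) (he _) ((hO x).2.2 hw.1) ((hO y).2.2 hw.2)
            (hG _ _ _ ((hO' x).2.2 hw.1) ((hO' y).2.2 hw.2)) (hT x _ hw.1).1
          have q2 := hT y _ hw.2
          rw [(e (a y)).right_inv ht] at q1 q2
          exact ⟨q1, q2⟩)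
      filter_upwards [m1, ((e (a y)).continuousAt s1).eventually m3] with w hw h3
      refine Units.ext ?_
      rw [hv _ _ _ hw.1 hw.2, hv _ _ _ hx hy]
      simpa only [(e (a y)).left_inv s1, (e (a y)).left_inv ((hO y).2.2 hw.2)] using h3)
    (fun x y d z hx hy hd => Units.ext (by
      rw [Units.val_mul, hv _ _ _ hx hy, hv _ _ _ hy hd, hv _ _ _ hx hd]
      simp only [hc, mul_assoc]
      rw [Ring.inverse_mul_cancel_left _ _ (hT y z hy).2, ← mul_assoc (G _ _ _),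
        hC _ _ _ z ((hO' x).2.2 hx) ((hO' y).2.2 hy) ((hO' d).2.2 hd)]))
  refine ⟨a, O, T, m, S, m0, hO', fun x z hz => ⟨hT x z hz, k1 x z hz⟩, fun x y z hx hy φ => ?_⟩
  rw [k2 x y z hx hy]
  refine (@Finset.prod_image _ _ _ _ _ (fun _ _ => Classical.propDecidable _) _ _
    (mul_left_injective _).injOn).trans ?_
  simp only [Units.val_mul, hv _ _ _ hx hy, hc, mul_assoc,
    Ring.inverse_mul_cancel _ (hT y z hy).2, mul_one]

end gen

open scoped Matrix.Norms.Operator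

/-- The first column. -/
def c0 : Mat 3 →ₗ[ℂ] E 3 := LinearMap.pi fun i => Matrix.entryLinearMap ℂ ℂ i 0

theorem sec (M : Mf n) (hM : Mono M.X (Mat 3)ˣ) {ι : Type} (e : ι → M.Ch)
    (he : ∀ a, e a ∈ M.C) (U : ι → Set M.X) (hU : ∀ a, IsOpen (U a) ∧ U a ⊆ (e a).source)
    (hc : ∀ x, ∃ a, x ∈ U a) (l : ι → Fin n → E n → Mat 3)
    (hl : ∀ a, ∀ x ∈ U a, Fl (l a) (e a x)) (G : ι → ι → E n → Mat 3)
    (hG : ∀ a b x, x ∈ U a → x ∈ U b → Gau (e a) (e b) (l a) (l b) (G a b) x)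
    (hC : ∀ a b d x, x ∈ U a → x ∈ U b → x ∈ U d →
      G a b (e b x) * G b d (e d x) = G a d (e d x)) (r : ℕ)
    (hr : ∀ a b x, x ∈ U a → x ∈ U b → ∀ A,
      c0 (A * G a b (e b x)) = (M.J (e a) (e b) x).det ^ r • c0 A) (x₀ : M.X) :
    ∃ m s, 0 < m ∧ M.HSec (r * m) s ∧ M.ev s x₀ ≠ 0 ∧ ∀ x, ∃ a, x ∈ U a ∧ ∀ k (t : ℂ),
      l a k (e a x) = t • 1 → dz k (s (e a)) (e a x) = m * t * s (e a) (e a x) := by
  have T := (mTR n M).2.1
  obtain ⟨a, O, F, m, S, m0, hO, hF, hE⟩ := glueF M hM e he U hU hc l hl G hG hC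
  obtain ⟨ψ, hψ⟩ := Module.exists_dual_forall_apply_ne_zero (K := ℂ)
    (fun k : S x₀ x₀ => c0 (k.1 * F x₀ (e (a x₀) x₀))) fun k h => by
      obtain ⟨i, hi⟩ := col (k.1.isUnit.mul (hF x₀ x₀ (hO x₀).2.1).1.2)
      exact hi (congrFun h i)
  set φ : Mat 3 →L[ℂ] ℂ := LinearMap.toContinuousLinearMap (ψ ∘ₗ c0) with hφ
  have hO' : ∀ x, O x ⊆ (e (a x)).source := fun x => (hO x).2.2.trans (hU _).2
  have hs : ∀ x, x ∈ (e (a x)).source := fun x => hO' x (hO x).2.1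
  set s : M.Fam ℂ := fun f w => (∏ k ∈ S (f.symm w) (f.symm w), φ (k * F (f.symm w)
    (e (a (f.symm w)) (f.symm w)))) * (M.J (e (a (f.symm w))) f (f.symm w)).det ^ (r * m) with hs'
  have k1 : ∀ f ∈ M.C, ∀ x y, y ∈ O x → y ∈ f.source → s f (f y) =
      (∏ k ∈ S x y, φ (k * F x (e (a x) y))) * (M.J (e (a x)) f y).det ^ (r * m) :=
    fun f hf x y hy hy' => by
      have q := hr _ _ y ((hO x).2.2 hy) ((hO y).2.2 (hO y).2.1)
      have q' : ∀ A, φ (A * G (a x) (a y) (e (a y) y)) =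
          (M.J (e (a x)) (e (a y)) y).det ^ r * φ A := fun A =>
        (congrArg ψ (q A)).trans (map_smul _ _ _)
      simp only [hs', f.left_inv hy']
      rw [hE x y y hy (hO y).2.1, (T _ (he _) _ (he _) y (hO' x hy) (hs y)).2.2.2.2 f hf hy',
        Matrix.det_mul, mul_pow]
      simp only [q', Finset.prod_mul_distrib, Finset.prod_const, (hF x y hy).2.1, ← pow_mul]
      ring
  have k0 : ∀ f ∈ M.C, ∀ x ∈ f.source, s f =ᶠ[𝓝 (f x)] fun w => (∏ k ∈ S x x,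
      φ (k * F x (e (a x) (f.symm w)))) * (jm (e (a x) ∘ f.symm) w).det ^ (r * m) :=
    fun f hf x hx => by
      filter_upwards [(T _ (he _) f hf x (hs x) hx).2.2.2.1,
        (f.continuousAt_symm (f.map_source hx)).eventually (p := fun y => y ∈ O x ∧ S x y = S x x)
        (by rw [f.left_inv hx]
            exact ((hO x).1.eventually_mem (hO x).2.1).and (hF x x (hO x).2.1).2.2)] with w hw hw'
      have := k1 f hf x _ hw'.1 hw.2.2.1
      rwa [hw.2.2.2.2.2.1, hw.2.2.2.2.2.2, hw'.2] at this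
  have k2 : M.All fun f w => DifferentiableAt ℂ (s f) w := Mf.allOn_of_source fun f hf x hx => by
    obtain ⟨t1, -⟩ := T _ (he _) f hf x (hs x) hx
    have t0 : (e (a x) ∘ f.symm) (f x) = e (a x) x := by simp [f.left_inv hx]
    have t3 := (t0 ▸ (hF x x (hO x).2.1).1.1.d).comp (f x) t1.self_of_nhds
    exact ((HasFDerivAt.finsetProd (u := S x x) fun k _ => (φ.differentiableAt.comp _
      (t3.const_mul (k : Mat 3))).hasFDerivAt).differentiableAt.fun_mul
      ((mCHN n _ _ t1).2.2.2.2.1.self_of_nhds.fun_pow _)).congr_of_eventuallyEq (k0 f hf x hx)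
  refine ⟨m, s, m0, ⟨⟨fun f hf w hw => ((mHOL n _ w).2.2 (k2.ev hf hw)).1,
    fun f hf f' hf' x hx hx' => ?_⟩, k2⟩, ?_, fun x => ⟨a x, (hO x).2.2 (hO x).2.1, fun j t ht => ?_⟩⟩
  · beta_reduce
    rw [k1 f hf x x (hO x).2.1 hx, k1 f' hf' x x (hO x).2.1 hx',
      (T _ (he _) f hf x (hs x) hx).2.2.2.2 f' hf' hx', Matrix.det_mul, mul_pow, mul_assoc]
  · rw [Mf.ev, k1 _ (Mf.ch_mem _) x₀ x₀ (hO x₀).2.1 (Mf.mem_ch _)]
    exact mul_ne_zero (Finset.prod_ne_zero_iff.2 fun k hk => hψ ⟨k, hk⟩)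
      (pow_ne_zero _ (T _ (he _) _ (Mf.ch_mem _) x₀ (hs x₀) (Mf.mem_ch _)).2.1)
  · have k3 : s (e (a x)) =ᶠ[𝓝 (e (a x) x)] fun w => ∏ k ∈ S x x, φ (k * F x w) := by
      filter_upwards [k0 _ (he _) x (hs x), (T _ (he _) _ (he _) x (hs x) (hs x)).2.2.2.1]
        with w h1 h2
      rw [h1, ← h2.2.2.2.2.2.2, (mTR n M).2.2.1 _ (he _) _ h2.2.1, h2.2.2.2.2.2.1]
      simp
    have p := (hF x x (hO x).2.1).1.1
    rw [dz_congr k3, k3.self_of_nhds]
    refine (dz_fd (HasFDerivAt.finsetProd (u := S x x) fun k _ =>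
      φ.hasFDerivAt.comp _ (p.d.hasFDerivAt.const_mul (k : Mat 3))) j).trans ?_
    rw [← (hF x x (hO x).2.1).2.1, mul_assoc, ← nsmul_eq_mul, ← Finset.sum_const, _root_.sum_apply]
    refine Finset.sum_congr rfl fun k hk => ?_
    beta_reduce
    rw [← Finset.prod_erase_mul _ _ hk]
    have q : (φ ∘L ((k : Mat 3) • fderiv ℂ (F x) (e (a x) x))) (Pi.single j 1) =
        t * φ (k * F x (e (a x) x)) := by
      refine (congrArg (fun A => φ (k * A)) (p.e j)).trans ?_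
      rw [ht, mul_smul_comm, mul_smul_comm, mul_one, map_smul, smul_eq_mul]
    exact (congrArg (_ * ·) q).trans (mul_left_comm _ _ _)

end M8

open scoped Matrix.Norms.Operator

theorem st_M8 : St_M8 := by
  intro n M _ hM ⟨ι, e, D, al, be, ga, c, he, hD, hc, h1, h2, h3⟩
  have T := (mTR n M).2.1
  obtain ⟨x₀⟩ : Nonempty M.X := inferInstance
  obtain ⟨m, s, m0, s1, s2, -⟩ := M8.sec M hM e he (fun a => {x | In (e a) (D a) x})
    (fun a => ⟨(e a).isOpen_inter_preimage (hD a), fun x hx => hx.1⟩) hc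
    (fun a => lk (al a) (be a) (ga a)) (fun a z hz => fl (h1 a z hz))
    (fun a b => gm (fun w => (jm (e a ∘ (e b).symm) w).det) (c a b))
    (fun a b x ha hb => gau (he a) (he b) ha.1 hb.1 (h2 a b x ha hb))
    (fun a b d x ha hb hd => gm_mul (T _ (he b) _ (he d) x hb.1 hd.1).2.1
      ((congrArg Matrix.det ((T _ (he a) _ (he b) x ha.1 hb.1).2.2.2.2 _ (he d) hd.1)).trans
        (Matrix.det_mul _ _)) (h3 a b d x ha hb hd)) 1 (fun a b x _ _ A => funext fun i => by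
      simp [M8.c0, gm, Matrix.mul_apply, Fin.sum_univ_three, Mf.J, mul_comm]) x₀
  exact ⟨1 * m, by simpa using m0, s, s1, fun h => s2 (Mf.AllOn.ch h x₀)⟩

theorem st_Q0 : St_Q0 := by
  intro M _ H hH hM ρ hρ
  obtain ⟨x₀⟩ : Nonempty M.X := inferInstance
  have cl := Clo.clo1 hH hρ
  obtain ⟨m, s, m0, s1, s2, s3⟩ := M8.sec M hM (ι := M.C) Subtype.val (fun a => a.2)
    (fun a => a.1.source) (fun a => ⟨a.1.open_source, Subset.rfl⟩)
    (fun x => ⟨⟨_, Mf.ch_mem x⟩, Mf.mem_ch x⟩) (fun a k z => ρ a z k • 1) (fun a x hx => by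
      have d := fun k => (hρ.hol.at a.2 hx k).self_of_nhds.hasFDerivAt
      refine ⟨fun k => ((d k).smul_const _).differentiableAt, fun j k => ?_⟩
      have := cl.at a.2 hx j k
      rw [dz_fd (d k), dz_fd (d j)] at this
      rw [((d k).smul_const _).fderiv, ((d j).smul_const _).fderiv]
      simp [this, smul_smul, mul_comm]) (fun _ _ _ => 1) (fun a b x ha hb =>
      ⟨differentiableAt_const _, isUnit_one, fun k => by
        simp [hρ.cmp _ a.2 _ b.2 x ha hb, ← Finset.sum_smul, smul_smul, Matrix.vecMul, dotProduct,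
          mul_comm]⟩) (fun _ _ _ _ _ _ _ => mul_one 1) 0 (fun _ _ _ _ _ A => by simp) x₀
  obtain ⟨c, hc⟩ := (st_IDT 4 M 0).2.2 s ⟨fun e he z hz => s1.hol.ev he hz,
    fun e he e' he' x hx hx' => by simpa using s1.cmp e he e' he' x hx hx'⟩
  have c0 : c ≠ 0 := fun h => s2 ((Mf.AllOn.ch hc x₀).trans h)
  refine Mf.allOn_of_source fun e he x hx => ?_
  obtain ⟨a, ha, h⟩ := s3 x
  have h0 : ρ a (a.1 x) = 0 := funext fun k => by
    have := h k _ rfl
    rw [dz_congr (hc.ev a.2 (a.1.map_source ha)), dz_const, hc.at a.2 ha] at this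
    simpa [c0, m0.ne'] using this
  rw [hρ.cmp _ a.2 e he x ha hx, h0, Matrix.zero_vecMul, smul_zero]

end Pool.Agent.Lib.F4
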