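import Pool.Agent.Lib.F4.SDefs
import Pool.Agent.Lib.F4.Blue
import Pool.Agent.Lib.IDX.Blue

/-! Project f4: the outer layer. Blueprint. -/

open scoped Classical Topology ContDiff ComplexOrder Matrix Manifold
open Set Filter

set_option linter.unusedVariables false

noncomputable section

namespace Pool.Agent.Lib.F4

open Pool.Agent.Lib.SV (E Pluri)
open Pool.Agent.Lib.HS32 Pool.Agent.Lib.GH
open Pool.Agent.Lib.HW (CanNef)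
open Pool.Agent.Lib.K3E (Forms lk)
open Pool.Agent.Lib.HS.BBR (mf)
open Pool.Agent.Lib.RB.R32 (fam)

/-- The theorem. -/
def St_F4 : Prop := ∀ (X : Type) [TopologicalSpace X] [ChartedSpace (E 4) X]
  [IsManifold 𝓘(ℂ, E 4) ω X] [CompactSpace X] [T2Space X] [ConnectedSpace X] (G : X → Mat 4)
  (x₀ : X), Kaehler G → CanNef G →
  (∀ ρ : FundamentalGroup X x₀ →* GL (Fin 3) ℂ, (range ρ).Finite) → (∃ σ ∈ TF 4 X 2 0, σ ≠ 0) →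
  (∃ m, 0 < m ∧ ∃ s ∈ Pluri 4 X m, s ≠ 0) ∨
    ∃ p a, a ≤ 1 ∧ p + a ≤ 3 ∧ ∃ s ∈ TF 4 X p a, s ≠ 0 ∧ HypIn 4 {x | s x = 0}

/-- Every locally constant cocycle with values in `G` has a finite multivalued trivialisation. -/
def Mono (X G : Type) [TopologicalSpace X] [Group G] : Prop :=
  ∀ (ι : Type) (O : ι → Set X) (c : ι → ι → X → G), (∀ a, IsOpen (O a)) → (∀ x, ∃ a, x ∈ O a) →
    (∀ a b x, x ∈ O a → x ∈ O b → ∀ᶠ y in 𝓝 x, c a b y = c a b x) →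
    (∀ a b d x, x ∈ O a → x ∈ O b → x ∈ O d → c a b x * c b d x = c a d x) →
    ∃ (m : ℕ) (S : ι → X → Finset G), 0 < m ∧
      (∀ a, ∀ x ∈ O a, (S a x).card = m ∧ ∀ᶠ y in 𝓝 x, S a y = S a x) ∧
      ∀ a b x, x ∈ O a → x ∈ O b → S b x = (S a x).image (· * c a b x)

/-- Finite monodromy. -/
def St_U1F : Prop := ∀ (X G : Type) [TopologicalSpace X] [PathConnectedSpace X]
  [LocallyPathConnectedSpace X] [Group G] (x₀ : X),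
  (∀ ρ : FundamentalGroup X x₀ →* G, (range ρ).Finite) → Mono X G

/-- A projective triple with finite monodromy gives a pluricanonical form. -/
def St_M8 : Prop := ∀ (n : ℕ) (M : Mf n) [M.Cpt], Mono M.X (Mat 3)ˣ → Prj M →
  ∃ m, 0 < m ∧ ∃ t, M.HSec m t ∧ ¬Zr M t

/-- There is no form of degree one. -/
def St_Q0 : Prop := ∀ (M : Mf 4) [M.Cpt] (H : M.Fam (Mat 4)), M.Kae H → Mono M.X (Mat 3)ˣ →
  ∀ ρ, H1 M 0 ρ → Zr M ρ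

/-- The non-vanishing theorem on the manifold layer. -/
def St_KBM : Prop := ∀ (n : ℕ) (M : Mf n) [M.Cpt] (H : M.Fam (Mat n)), 0 < n → M.Kae H →
  W86.Nef M H → K3E.chi H 1 ≠ 0 → ∃ m, 0 < m ∧ ∃ t, M.HSec m t ∧ ¬Zr M t

/-- Forms as multivectors. -/
def St_FH : Prop := ∀ (n : ℕ) (X : Type) [TopologicalSpace X] [ChartedSpace (E n) X]
  [IsManifold 𝓘(ℂ, E n) ω X] (H : (mf n X).Fam (Mat n)) (p q : ℕ), p + q = n →
  ∀ α ∈ TF n X p 0, α ≠ 0 → ∃ Y ∈ IDX.hl (lk H 1) (· = q), Y ≠ 0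

/-- The form of degree two and the two vector fields. -/
def St_VW : Prop := ∀ (M : Mf 4) [M.Cpt] (H : M.Fam (Mat 4)), M.Kae H → K3E.chi H 1 = 0 →
  (∀ ρ, H1 M 0 ρ → Zr M ρ) → (∃ Y ∈ IDX.hl (lk H 1) (· = 2), Y ≠ 0) →
  (∃ Y ∈ IDX.hl (lk H 1) (· = 4), Y ≠ 0) →
  ∃ S V W, H2 M 0 S ∧ ¬Zr M S ∧ HT M 1 V ∧ HT M 1 W ∧ Ind M V W

/-- Removable zero sets. -/
def St_REM : Prop := ∀ (X : Type) [TopologicalSpace X] [ChartedSpace (E 4) X]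
  [IsManifold 𝓘(ℂ, E 4) ω X] [CompactSpace X] [T2Space X] [ConnectedSpace X],
  (¬∃ p a, a ≤ 1 ∧ p + a ≤ 3 ∧ ∃ s ∈ TF 4 X p a, s ≠ 0 ∧ HypIn 4 {x | s x = 0}) →
  (∀ V, HT (mf 4 X) 1 V → ¬Zr (mf 4 X) V → Rem (mf 4 X) V) ∧
  (∀ α, H1 (mf 4 X) 1 α → ¬Zr (mf 4 X) α → Rem (mf 4 X) α) ∧
  ∀ S, H2 (mf 4 X) 0 S ∨ H2 (mf 4 X) 1 S → ¬Zr (mf 4 X) S → Rem (mf 4 X) S

theorem f4_of (hM : St_MAIN) (hU : St_U1F) (h8 : St_M8) (hQ : St_Q0) (hK : St_KBM) (hF : St_FH)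
    (hV : St_VW) (hR : St_REM) (hZ : St_Z0) (hE : K3E.St_MER) : St_F4 := by
  intro X _ _ _ _ _ _ G x₀ hG hN hπ ⟨σ, s1, s2⟩
  have : (mf 4 X).Cpt := ⟨‹_›, ‹_›, ‹_›⟩
  refine or_iff_not_imp_right.2 fun hD => by_contra fun hP => ?_
  have hH := HW.kae hG
  have hN' := HW.nef hG hN
  have no : ¬∃ m, 0 < m ∧ ∃ t, (mf 4 X).HSec m t ∧ ¬Zr (mf 4 X) t := fun ⟨m, m0, t, t1, t2⟩ =>
    hP ⟨m, m0, (hE 4 X).2 m t t1 (by_contra fun c => t2 fun e he z hz =>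
      by_contra fun d => c ⟨e, he, z, hz, d⟩)⟩
  have : LocallyPathConnectedSpace X := M7.lpc (mf 4 X)
  have : PathConnectedSpace X := .of_locallyPathConnectedSpace
  have mo : Mono (mf 4 X).X (Mat 3)ˣ := hU X _ x₀ hπ
  have q0 := hQ _ _ hH mo
  obtain ⟨r1, r2, r3⟩ := hR X hD
  obtain ⟨S, V, W, a1, a2, a3, a4, a5⟩ := hV _ _ hH
    (by_contra fun c => no (hK 4 _ _ four_pos hH hN' c)) q0 (hF 4 X _ 2 2 rfl σ s1 s2)
    (hF 4 X _ 0 4 rfl (fun _ => AlternatingMap.constOfIsEmpty ℂ _ _ 1) (fun x v => by simp)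
      fun c => one_ne_zero (α := ℂ) (congrArg (fun β => β x₀ 0) c))
  exact no (h8 4 _ mo (hM _ _ S V W hH hN' ⟨hZ 4 _ _ hH.toMet (fun ε hε =>
    (hN' ε hε.1).imp fun w hw => ⟨hw.1, fun e he z hz => by
      simpa [Mf.gE] using (hw.2 e he z hz).posSemidef⟩)
    (fun m m0 t t1 => by_contra fun c => no ⟨m, m0, t, t1, c⟩), q0, r1, r2, r3⟩ a1 a2 a3 a4 a5))

end Pool.Agent.Lib.F4
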