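import Pool.Agent.Lib.F4.G72e
import Pool.Agent.Lib.F4.BlueO

/-! Project f4, row REM: the alternative in the language of the statement. -/

open scoped Topology Classical Matrix Manifold ContDiff
open Set Filter

noncomputable section

namespace Pool.Agent.Lib.F4

open Pool.Agent.Lib.SV (E)
open Pool.Agent.Lib.HS32 Pool.Agent.Lib.HLK
open Pool.Agent.Lib.HS.BBR (mf)
open Pool.Agent.Lib.KP (HolAt)

namespace G72

variable {n q a : ℕ} {X : Type} [TopologicalSpace X] [ChartedSpace (E n) X]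
  [IsManifold 𝓘(ℂ, E n) ω X]

theorem Ho.at {f : X → ℂ} {x : X} (h : Ho (mf n X) f x) : HolAt n 0 f x := by
  simp only [HolAt, pow_zero, mul_one]
  exact h _ (HW.ch_mem x) (mem_chart_source (E n) x)

theorem Hy.at {Z : Set X} (h : Hy (mf n X) Z) : HypIn n Z := by
  obtain ⟨ι, U, f, u, h1, h2, h3, h4, h5⟩ := h
  exact ⟨ι, U, f, u, h1, h2, fun i x hx => ⟨(h3 i x hx).1.at, (h3 i x hx).2⟩,
    fun i j x hx => ⟨(h4 i j x hx).1.at, (h4 i j x hx).2⟩, h5⟩

/-- A family of alternating forms with the law of a twisted form. -/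
theorem tens {F : Type} [Zero F] (s : (mf n X).Fam F)
    (T : F → E n [⋀^Fin q]→ₗ[ℂ] ℂ) (z0 : T 0 = 0)
    (h0 : (mf n X).All fun e z => T (s e z) = 0 → s e z = 0)
    (hol : (mf n X).All fun e z => ∀ v, DifferentiableAt ℂ (fun w => T (s e w) v) z)
    (law : (mf n X).Ov fun e e' x => ∀ v, T (s e' (e' x)) v =
      T (s e (e x)) (fun i => (mf n X).J e e' x *ᵥ v i) * jd (mf n X) e e' x ^ a)
    (nz : ¬Zr (mf n X) s) :
    ∃ t ∈ TF n X q a, t ≠ 0 ∧ ∀ x : X, (mf n X).ev s x = 0 → t x = 0 := by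
  let M : Mf n := mf n X
  let c : M.X → M.Ch := chartAt (M := X) (E n)
  have hc : ∀ x, c x ∈ M.C := HW.ch_mem (X := X)
  have hs : ∀ x, x ∈ (c x).source := mem_chart_source (M := X) (E n)
  have tr : ∀ e ∈ M.C, ∀ e' ∈ M.C, ∀ x ∈ e.source, x ∈ e'.source → T (s e (e x)) = 0 →
      T (s e' (e' x)) = 0 := fun e he e' he' x hx hx' h => AlternatingMap.ext fun v => by
    rw [law e he e' he' x hx hx' v, h, AlternatingMap.zero_apply, zero_mul]
    rfl
  refine ⟨fun y : M.X => T (s (c y) (c y y)), fun (y : M.X) v => ?_, fun h => nz fun e he z hz => ?_,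
    fun (x : M.X) h => tr _ (Mf.ch_mem x) _ (hc x) x (Mf.mem_ch x) (hs x) ((congrArg T h).trans z0)⟩
  · refine (hol _ (hc y) _ ((c y).map_source (hs y)) v).congr_of_eventuallyEq ?_
    filter_upwards [(c y).open_target.mem_nhds ((c y).map_source (hs y))] with w hw
    have h4 := law _ (hc ((c y).symm w)) _ (hc y) _ (hs _) ((c y).map_target hw) v
    simp only [jd, Mf.J, (c y).right_inv hw, ← BCHN.det_eq] at h4
    exact h4.symm
  · have := tr _ (hc (e.symm z)) e he _ (hs _) (e.map_target hz) (congrFun h (e.symm z))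
    rw [e.right_inv hz] at this
    exact h0 e he z hz this

/-- A covector as a form. -/
def m1 (u : E n) : E n [⋀^Fin 1]→ₗ[ℂ] ℂ :=
  AlternatingMap.ofSubsingleton ℂ (E n) ℂ 0 (dotProductBilin ℂ ℂ u)

theorem m1_ap (u : E n) (v : Fin 1 → E n) : m1 u v = u ⬝ᵥ v 0 := rfl

/-- A matrix as a multilinear form. -/
def m2 (S : Mat n) : MultilinearMap ℂ (fun _ : Fin 2 => E n) ℂ :=
  ∑ i, ∑ j, S i j • (MultilinearMap.mkPiAlgebra ℂ (Fin 2) ℂ).compLinearMap
    fun k => LinearMap.proj (![i, j] k)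

theorem m2_ap (S : Mat n) (v : Fin 2 → E n) : m2 S v = v 0 ⬝ᵥ S *ᵥ v 1 := by
  simp only [m2, dotProduct, Matrix.mulVec, Finset.mul_sum, sum_apply,
    smul_apply, MultilinearMap.compLinearMap_apply,
    MultilinearMap.mkPiAlgebra_apply, Fin.prod_univ_two, LinearMap.proj_apply, smul_eq_mul,
    Matrix.cons_val_zero, Matrix.cons_val_one]
  exact Finset.sum_congr rfl fun i _ => Finset.sum_congr rfl fun j _ => by ring

/-- A matrix as a form. -/
def a2 (S : Mat n) : E n [⋀^Fin 2]→ₗ[ℂ] ℂ where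
  toMultilinearMap := m2 (S - Sᵀ)
  map_eq_zero_of_eq' v i j h hij := by
    have e : v 1 = v 0 := by
      fin_cases i <;> fin_cases j
      exacts [(hij rfl).elim, h.symm, h, (hij rfl).elim]
    refine (m2_ap _ v).trans ?_
    rw [e, Matrix.sub_mulVec, dotProduct_sub, Matrix.mulVec_transpose, Matrix.dotProduct_mulVec,
      dotProduct_comm, sub_self]

theorem a2_ap {S : Mat n} (h : Sᵀ = -S) (v : Fin 2 → E n) : a2 S v = 2 * (v 0 ⬝ᵥ S *ᵥ v 1) := by
  refine (m2_ap _ v).trans ?_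
  rw [h, sub_neg_eq_add, Matrix.add_mulVec, dotProduct_add, two_mul]

/-- The contraction of the determinant with a vector. -/
def m3 (u : E (n + 1)) : E (n + 1) [⋀^Fin n]→ₗ[ℂ] ℂ :=
  (Matrix.detRowAlternating (n := Fin (n + 1)) (R := ℂ)).curryLeft u

theorem m3_ap (u : E (n + 1)) (v : Fin n → E (n + 1)) :
    m3 u v = (Matrix.of (Matrix.vecCons u v)).det := rfl

theorem t1 {α : (mf n X).Fam (E n)} (h : H1 (mf n X) a α) (nz : ¬Zr (mf n X) α) :
    ∃ t ∈ TF n X 1 a, t ≠ 0 ∧ ∀ x : X, (mf n X).ev α x = 0 → t x = 0 := by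
  refine tens α m1 (AlternatingMap.ext fun v => (m1_ap 0 v).trans (zero_dotProduct _))
    (fun e he z hz k => funext fun i => ?_) (fun e he z hz v => ?_)
    (fun e he e' he' x hx hx' v => ?_) nz
  · have := m1_ap (α e z) fun _ => Pi.single i 1
    rw [k, dotProduct_single_one] at this
    exact this.symm
  · simp only [m1_ap, dotProduct]
    exact DifferentiableAt.fun_sum fun i _ => (h.hol e he z hz i).self_of_nhds.mul_const _
  · rw [m1_ap, m1_ap, h.cmp e he e' he' x hx hx', smul_dotProduct, Matrix.dotProduct_mulVec,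
      zpow_natCast, smul_eq_mul, mul_comm]

theorem t2 {S : (mf n X).Fam (Mat n)} (h : H2 (mf n X) a S) (nz : ¬Zr (mf n X) S) :
    ∃ t ∈ TF n X 2 a, t ≠ 0 ∧ ∀ x : X, (mf n X).ev S x = 0 → t x = 0 := by
  refine tens S a2 (AlternatingMap.ext fun v => ?_) (fun e he z hz k => Matrix.ext fun i j => ?_)
    (fun e he z hz v => ?_) (fun e he e' he' x hx hx' v => ?_) nz
  · rw [a2_ap (by simp), Matrix.zero_mulVec, dotProduct_zero, mul_zero]
    rfl
  · have := a2_ap (h.alt e he z hz) ![Pi.single i 1, Pi.single j 1]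
    rw [k] at this
    simpa using this.symm
  · refine DifferentiableAt.congr_of_eventuallyEq ?_
      ((h.alt.ev he hz).mono fun w hw => a2_ap hw v)
    simp only [dotProduct, Matrix.mulVec]
    exact (DifferentiableAt.fun_sum fun i _ => (DifferentiableAt.fun_sum fun j _ =>
      (h.hol e he z hz i j).self_of_nhds.mul_const _).const_mul _).const_mul _
  · rw [a2_ap (h.alt.at he' hx'), a2_ap (h.alt.at he hx), h.cmp e he e' he' x hx hx',
      Matrix.smul_mulVec, dotProduct_smul, ← Matrix.mulVec_mulVec, ← Matrix.mulVec_mulVec,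
      Matrix.dotProduct_mulVec, Matrix.vecMul_transpose, zpow_natCast, smul_eq_mul]
    ring

theorem t3 {X : Type} [TopologicalSpace X] [ChartedSpace (E (n + 1)) X]
    [IsManifold 𝓘(ℂ, E (n + 1)) ω X] {V : (mf (n + 1) X).Fam (E (n + 1))}
    (h : HT (mf (n + 1) X) (a + 1 : ℕ) V) (nz : ¬Zr (mf (n + 1) X) V) :
    ∃ t ∈ TF (n + 1) X n a, t ≠ 0 ∧ ∀ x : X, (mf (n + 1) X).ev V x = 0 → t x = 0 := by
  refine tens V m3 (map_zero _) (fun e he z hz k => ?_)
    (fun e he z hz v => ?_) (fun e he e' he' x hx hx' v => ?_) nz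
  · generalize V e z = u at k
    funext i
    have e1 : Matrix.of (Matrix.vecCons u fun l => Pi.single (i.succAbove l) 1) =
        ((1 : Mat (n + 1)).updateRow i u).submatrix i.cycleRange.symm id := by
      ext l j
      refine Fin.cases ?_ (fun l => ?_) l
      · simp
      · simp [Matrix.one_apply, Pi.single_apply, eq_comm]
    have := m3_ap u fun l => Pi.single (i.succAbove l) 1
    rw [k, e1, Matrix.det_permute, ← Matrix.cramer_transpose_apply, Matrix.transpose_one,
      Matrix.cramer_one] at this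
    exact (mul_eq_zero.1 this.symm).resolve_left (by simp)
  · have e1 : ∀ u : E (n + 1), m3 u v = ∑ j, u j *
        ((-1) ^ (j : ℕ) * ((Matrix.of v).submatrix id j.succAbove).det) := fun u => by
      rw [m3_ap, Matrix.det_succ_row_zero]
      exact Finset.sum_congr rfl fun j _ => (mul_assoc _ _ _).trans (mul_left_comm _ _ _)
    exact (DifferentiableAt.fun_sum fun j _ => (h.hol e he z hz j).self_of_nhds.mul_const
      _).congr_of_eventuallyEq (Eventually.of_forall fun w => e1 _)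
  · set J := (mf (n + 1) X).J e e' x with hJ
    have e1 : m3 (J *ᵥ V e' (e' x)) (fun i => J *ᵥ v i) = m3 (V e' (e' x)) v * J.det := by
      rw [m3_ap, m3_ap, ← Matrix.det_transpose J, ← Matrix.det_mul]
      refine congrArg _ (Matrix.ext fun l j => Fin.cases ?_ (fun l => ?_) l) <;>
        simp [Matrix.mul_apply, Matrix.mulVec, dotProduct, mul_comm]
    rw [h.cmp e he e' he' x hx hx', m3, map_smul, zpow_natCast] at e1
    refine mul_right_cancel₀ ((mTR _ _).2.1 e he e' he' x hx hx').2.1 (e1.symm.trans ?_)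
    rw [mul_assoc, ← pow_succ, mul_comm]
    rfl

end G72

open G72 in
theorem st_REM : St_REM := by
  intro X _ _ _ _ _ _ hD
  have : (mf 4 X).Cpt := ⟨‹_›, ‹_›, ‹_›⟩
  have k : ∀ {F : Type} [Zero F] {s : (mf 4 X).Fam F} (p a : ℕ), a ≤ 1 → p + a ≤ 3 →
      (∃ t ∈ TF 4 X p a, t ≠ 0 ∧ ∀ x : X, (mf 4 X).ev s x = 0 → t x = 0) →
      Rem (mf 4 X) s ∨ Hy (mf 4 X) {x | (mf 4 X).ev s x = 0} → Rem (mf 4 X) s :=
    fun p a h1 h2 ⟨t, t1, t2, t3⟩ h => h.resolve_right fun c =>
      hD ⟨p, a, h1, h2, t, t1, t2, (c.mono t3).at⟩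
  refine ⟨fun V h nz => k 3 0 zero_le_one le_rfl (t3 h nz) (gT h nz),
    fun α h nz => k 1 1 le_rfl (by norm_num) (t1 h nz) (g1 h nz), fun S h nz => ?_⟩
  rcases h with h | h
  · exact k 2 0 zero_le_one (by norm_num) (t2 h nz) (g2 h nz)
  · exact k 2 1 le_rfl le_rfl (t2 h nz) (g2 h nz)

end Pool.Agent.Lib.F4
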