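import Pool.Agent.Lib.F4.BlueO

/-! Project f4, row U1F: cocycles with finite monodromy. -/

open scoped Classical Topology
open Set Filter

set_option linter.unusedVariables false

noncomputable section

namespace Pool.Agent.Lib.F4

namespace U1F

variable {X G ι : Type} [TopologicalSpace X] [Group G] [TopologicalSpace G] [DiscreteTopology G]

/-- A locally constant cocycle. -/
structure Coc (X G ι : Type) [TopologicalSpace X] [Group G] where
  O : ι → Set X
  c : ι → ι → X → G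
  a : X → ι
  o : ∀ a, IsOpen (O a)
  m : ∀ x, x ∈ O (a x)
  lc : ∀ a b x, x ∈ O a → x ∈ O b → ∀ᶠ y in 𝓝 x, c a b y = c a b x
  co : ∀ a b d x, x ∈ O a → x ∈ O b → x ∈ O d → c a b x * c b d x = c a d x

variable (K : Coc X G ι)

omit [TopologicalSpace G] [DiscreteTopology G] in
theorem Coc.one {a : ι} {x : X} (h : x ∈ K.O a) : K.c a a x = 1 := by
  simpa using K.co a a a x h h h

/-- The principal bundle. -/
def Coc.Z : FiberBundleCore ι X G where
  baseSet := K.O
  isOpen_baseSet := K.o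
  indexAt := K.a
  mem_baseSet_at := K.m
  coordChange a b x g := g * K.c a b x
  coordChange_self a x h g := by rw [K.one h, mul_one]
  continuousOn_coordChange a b p hp := by
    refine ContinuousAt.continuousWithinAt (continuousAt_const (y := p.2 * K.c a b p.1).congr ?_)
    filter_upwards [continuousAt_fst.eventually (K.lc a b p.1 hp.1.1 hp.1.2),
      continuousAt_snd.eventually ((isOpen_discrete {p.2}).mem_nhds rfl)] with q h1 h2
    rw [h1, show q.2 = p.2 from h2]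
  coordChange_comp a b d x h g := by rw [mul_assoc, K.co a b d x h.1.1 h.1.2 h.2]

/-- The fibre coordinate. -/
def Coc.s (p : K.Z.TotalSpace) : G := p.2

/-- A point of the total space. -/
def Coc.mk' (x : X) (g : G) : K.Z.TotalSpace := ⟨x, g⟩

instance : MulAction G K.Z.TotalSpace where
  smul g p := K.mk' p.1 (g * K.s p)
  one_smul p := congrArg (K.mk' p.1) (one_mul _)
  mul_smul g h p := congrArg (K.mk' p.1) (mul_assoc _ _ _)

theorem Coc.tr (a : ι) (p : K.Z.TotalSpace) :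
    K.Z.localTriv a p = (p.1, K.s p * K.c (K.a p.1) a p.1) := rfl

theorem Coc.sy (a : ι) (x : X) (g : G) :
    (K.Z.localTriv a).toOpenPartialHomeomorph.symm (x, g) = K.mk' x (g * K.c a (K.a x) x) := rfl

theorem Coc.ct (g : G) : Continuous fun p : K.Z.TotalSpace => g • p :=
  continuous_iff_continuousAt.2 fun p => by
    have s : p ∈ (K.Z.localTriv (K.a p.1)).source := K.m p.1
    have c1 := (K.Z.localTriv (K.a p.1)).toOpenPartialHomeomorph.continuousAt s
    have c2 := c1.fst.prodMk ((continuous_of_discreteTopology (f := (g * ·))).continuousAt.comp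
      c1.snd)
    refine (((K.Z.localTriv (K.a p.1)).toOpenPartialHomeomorph.continuousAt_symm
      (show _ ∈ K.O (K.a p.1) ×ˢ univ from ⟨K.m p.1, trivial⟩)).comp c2).congr ?_
    filter_upwards [(K.Z.localTriv (K.a p.1)).open_source.mem_nhds s] with q hq
    refine congrArg (K.mk' q.1) ?_
    change g * (K.s q * K.c (K.a q.1) (K.a p.1) q.1) * K.c (K.a p.1) (K.a q.1) q.1 = g * K.s q
    rw [mul_assoc, mul_assoc, K.co _ _ _ q.1 (K.m _) hq (K.m _), K.one (K.m _), mul_one]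

theorem Coc.qc : IsQuotientCoveringMap K.Z.proj G :=
  (isQuotientCoveringMap_iff_isCoveringMap_and _ _).2 ⟨FiberBundle.isCoveringMap,
    fun x => ⟨K.mk' x 1, rfl⟩, ⟨K.ct⟩,
    { right_cancel' := fun a b p h => mul_right_cancel (congrArg K.s h) }, by
      rintro ⟨x, g⟩ ⟨y, h⟩
      refine ⟨?_, fun ⟨k, hk⟩ => (congrArg K.Z.proj hk).symm⟩
      rintro rfl
      exact ⟨K.s ⟨x, g⟩ * (K.s ⟨x, h⟩)⁻¹, congrArg (K.mk' x) (inv_mul_cancel_right _ _)⟩⟩

theorem Coc.fin (x₀ : X) (h : ∀ ρ : FundamentalGroup X x₀ →* G, (range ρ).Finite) :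
    {g : G | Joined (K.mk' x₀ 1) (g • K.mk' x₀ 1)}.Finite := by
  let e : K.Z.proj ⁻¹' {x₀} := ⟨K.mk' x₀ 1, rfl⟩
  refine ((h ((MulEquiv.inv' G).symm.toMonoidHom.comp
    (K.qc.fundamentalGroupToMulOpposite e))).image (·⁻¹)).subset fun g ⟨Γ⟩ => ?_
  refine ⟨_, ⟨.fromPath ⟦Γ.map K.qc.continuous⟧, rfl⟩, ?_⟩
  have := K.qc.fundamentalGroupToMulOpposite_apply_eq_Iff (e := e) (g := .op g)
    (γ := .fromPath ⟦Γ.map K.qc.continuous⟧) |>.2 (congrArg Subtype.val
      (K.qc.isCoveringMap.monodromy_eq_of_map_eq (γ := ⟦Γ.map K.qc.continuous⟧) (ex := e)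
        (ey := ⟨g • K.mk' x₀ 1, rfl⟩) ⟦Γ⟧ rfl)).symm
  simpa using congrArg MulOpposite.unop this

theorem Coc.main [PathConnectedSpace X] [LocallyPathConnectedSpace X] (x₀ : X)
    (h : ∀ ρ : FundamentalGroup X x₀ →* G, (range ρ).Finite) :
    ∃ (m : ℕ) (S : ι → X → Finset G), 0 < m ∧
      (∀ a, ∀ x ∈ K.O a, (S a x).card = m ∧ ∀ᶠ y in 𝓝 x, S a y = S a x) ∧
      ∀ a b x, x ∈ K.O a → x ∈ K.O b → S b x = (S a x).image (· * K.c a b x) := by
  have hf := K.fin x₀ h
  have h1 : ∀ x, ∃ g, Joined (K.mk' x₀ 1) (K.mk' x g) := fun x => by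
    have cov := K.qc.isCoveringMap
    obtain ⟨Γ, h1, h2⟩ := cov.exists_path_lifts (PathConnectedSpace.somePath x₀ x) (K.mk' x₀ 1)
      (Path.source _)
    have h3 : (Γ 1).1 = x := (congrFun h1 1).trans (Path.target _)
    exact ⟨K.s (Γ 1), ⟨⟨Γ, h2, by rw [← h3]; rfl⟩⟩⟩
  choose k hk using h1
  have jm : ∀ (g : G) {p q : K.Z.TotalSpace}, Joined p q → Joined (g • p) (g • q) :=
    fun g _ _ ⟨γ⟩ => ⟨γ.map (K.ct g)⟩
  have h2 : ∀ a, ∀ x ∈ K.O a, ∀ g, g ∈ hf.toFinset.image (· * (k x * K.c (K.a x) a x)) ↔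
      Joined (K.mk' x₀ 1) (K.mk' x (g * K.c a (K.a x) x)) := fun a x hx g => by
    have e1 : K.c (K.a x) a x * K.c a (K.a x) x = 1 :=
      (K.co _ _ _ _ (K.m x) hx (K.m x)).trans (K.one (K.m x))
    simp only [Finset.mem_image, Finite.mem_toFinset, mem_ofPred_eq]
    constructor
    · rintro ⟨t, ht, rfl⟩
      rw [mul_assoc, mul_assoc, e1, mul_one]
      exact ht.trans (jm t (hk x))
    · intro hg
      refine ⟨g * K.c a (K.a x) x * (k x)⁻¹, hg.trans (Joined.symm ?_), ?_⟩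
      · exact (congrArg (K.mk' x) (inv_mul_cancel_right _ (k x))) ▸ jm _ (hk x)
      · rw [mul_assoc, inv_mul_cancel_left, mul_assoc, K.co _ _ _ _ hx (K.m x) hx, K.one hx, mul_one]
  refine ⟨hf.toFinset.card, fun a x => hf.toFinset.image (· * (k x * K.c (K.a x) a x)),
    Finset.card_pos.2 ⟨1, by simpa using Joined.refl _⟩, fun a x hx =>
      ⟨Finset.card_image_of_injective _ (mul_left_injective _), ?_⟩, fun a b x ha hb => ?_⟩
  · filter_upwards [pathComponentIn_mem_nhds ((K.o a).mem_nhds hx)] with y hy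
    obtain ⟨γ, hγ⟩ := hy
    have j : ∀ g, Joined (K.mk' x (g * K.c a (K.a x) x)) (K.mk' y (g * K.c a (K.a y) y)) :=
      fun g => ⟨⟨⟨fun t => (K.Z.localTriv a).toOpenPartialHomeomorph.symm (γ t, g),
        (K.Z.localTriv a).toOpenPartialHomeomorph.continuousOn_symm.comp_continuous (by fun_prop)
          fun t => (show _ ∈ K.O a ×ˢ univ from ⟨hγ t, trivial⟩)⟩,
        by simp only [γ.source, K.sy], by simp only [γ.target, K.sy]⟩⟩
    ext g
    rw [h2 a x hx, h2 a y (γ.target ▸ hγ 1)]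
    exact ⟨fun h => h.trans (j g).symm, fun h => h.trans (j g)⟩
  · simp only [Finset.image_image, Function.comp_def, mul_assoc, K.co _ _ _ _ (K.m x) ha hb]

end U1F

theorem st_U1F : St_U1F := fun X G _ _ _ _ x₀ h ι O c h1 h2 h3 h4 =>
  letI : TopologicalSpace G := ⊥
  have : DiscreteTopology G := ⟨rfl⟩
  U1F.Coc.main ⟨O, c, fun x => (h2 x).choose, h1, fun x => (h2 x).choose_spec, h3, h4⟩ x₀ h

end Pool.Agent.Lib.F4
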