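import Pool.Agent.Lib.F4.BlueO
import Pool.Agent.Lib.K3E.B_IDX

/-! Row VW: the form of degree two and the two vector fields. -/

open scoped Classical Topology ContDiff ComplexOrder Matrix
open Set Filter

noncomputable section

namespace Pool.Agent.Lib.F4

open Pool.Agent.Lib.SV (E)
open Pool.Agent.Lib.HS32 Pool.Agent.Lib.HLK
open Pool.Agent.Lib.K3E (lk kan wk triv)

namespace OVW

theorem fin (hI : IDX.St_IDX) (hKAN : K3E.St_KAN) {n : ℕ} {M : Mf n} [M.Cpt]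
    {H : M.Fam (Mat n)} (hn : 0 < n) (hH : M.Kae H) (q : ℕ) :
    FiniteDimensional ℂ (IDX.hl (lk H 1) (· = q)) := by
  have w := fun a => (hKAN n M H a hH.toMet).1
  exact (hI n M H (fun b => kan M (b + 1)) (fun b => wk H (b + 1)) (kan M 1) (wk H 1) hn hH
    ⟨w _, fun e _ e' _ x _ _ => by simp [kan, triv, Mf.Co.tw], fun e _ z _ => by simp [wk]⟩
    fun b => ⟨w _, w _, w _, fun e _ e' _ x _ _ => by simp [kan, triv, Mf.Co.tw, pow_succ],
      fun e _ z _ => by simp only [wk]; push_cast; ring⟩).1 q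

theorem zero {n q : ℕ} {M : Mf n} {b : Bun M (Fs n)} {Y : M.Fam (Fs n → ℂ)}
    (hY : Y ∈ IDX.hl b (· = q)) (h : M.All fun e z => ∀ A : Fs n, A.card = q → Y e z A = 0) :
    Y = 0 :=
  funext fun e => funext fun z => funext fun A => by_contra fun c => by
    obtain ⟨he, hz, hA⟩ := hY.2.2 e z A c
    exact c (h e he z hz A hA)

theorem v1_lin {n : ℕ} (s t : ℂ) (Y Z : Fs n → ℂ) : v1 (s • Y + t • Z) = s • v1 Y + t • v1 Z := by
  funext k
  simp [v1, Matrix.mulVec_add, Matrix.mulVec_smul]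

end OVW

theorem st_VW (hI : IDX.St_IDX) (hKAN : K3E.St_KAN) (hXP : St_XP) (hXT : St_XT) (hOS : St_OS)
    (hPT1 : St_PT1) : St_VW := by
  intro M _ H hH hc q0 ⟨Y, y1, y2⟩ ⟨Z, z1, z2⟩
  have fd := OVW.fin hI hKAN (M := M) four_pos hH
  have h2 : 0 < Module.finrank ℂ (IDX.hl (lk H 1) (· = 2)) :=
    Module.finrank_pos_iff_exists_ne_zero.2 ⟨⟨Y, y1⟩, fun h => y2 (congrArg Subtype.val h)⟩
  have h4 : 0 < Module.finrank ℂ (IDX.hl (lk H 1) (· = 4)) :=
    Module.finrank_pos_iff_exists_ne_zero.2 ⟨⟨Z, z1⟩, fun h => z2 (congrArg Subtype.val h)⟩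
  have h3 : Module.finrank ℂ (IDX.hl (lk H 1) (· = 3)) = 0 := by
    refine Submodule.finrank_eq_zero.2 ((Submodule.eq_bot_iff _).2 fun U hU => ?_)
    refine OVW.zero hU fun e he z hz A hA => ?_
    have u := q0 _ (hXT 4 M H 1 U hU.1 hU.2.1).2.2.2.1 e he z hz
    exact (hXP 4 0 (U e z)).2.2.2.2.2.2.2 1 ((hXP 4 0 _).2.2.2.2.2.1 u) A (by omega)
  have h1 : 2 ≤ Module.finrank ℂ (IDX.hl (lk H 1) (· = 1)) := by
    simp only [K3E.chi, K3E.IDX.rk, Finset.sum_range_succ, Finset.sum_range_zero, h3] at hc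
    omega
  obtain ⟨f, hf⟩ := exists_linearIndependent_of_le_finrank h1
  have x := hXT 4 M H 1 Y y1.1 y1.2.1
  refine ⟨fun e z => st (v2 (Y e z)), fun e z => v1 ((f 0).1 e z), fun e z => v1 ((f 1).1 e z),
    (hOS M 0 _).2 x.2.2.1, fun c => y2 (OVW.zero y1 fun e he z hz => ?_),
    (hXT 4 M H 1 _ (f 0).2.1 (f 0).2.2.1).2.1, (hXT 4 M H 1 _ (f 1).2.1 (f 1).2.2.1).2.1,
    fun s t h => ?_⟩
  · refine (hXP 4 0 (Y e z)).2.2.2.2.2.2.1 ?_
    have y7 := c e he z hz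
    have := ((hPT1 _).2.2 (x.2.2.1.alt e he z hz)).1
    beta_reduce at y7
    rw [← this, y7, ← zero_smul ℂ (0 : Mat 4), ((hPT1 0).2.1 0).1, zero_smul, zero_smul]
  · have k : s • f 0 + t • f 1 = 0 := Subtype.ext (OVW.zero (s • f 0 + t • f 1).2
      fun e he z hz => (hXP 4 0 _).2.2.2.2.2.1 ((OVW.v1_lin s t _ _).trans (h e he z hz)))
    have := Fintype.linearIndependent_iff.1 hf ![s, t] (by simpa [Fin.sum_univ_two] using k)
    exact ⟨this 0, this 1⟩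

end Pool.Agent.Lib.F4
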