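import Pool.Agent.Lib.F4.T_T6
import Pool.Agent.Lib.F4.BlueR

/-! Project f4: step six in the wording of the blueprint. -/

open scoped Classical Topology ContDiff ComplexOrder Matrix
open Set Filter MeasureTheory

noncomputable section

namespace Pool.Agent.Lib.F4

open Pool.Agent.Lib.SV (E)
open Pool.Agent.Lib.HS32

namespace ADP

variable {n : ℕ} {M : Mf n}

theorem inp {α : M.Fam (E n)} {s : ℝ} {φ ψ : M.Fam ℝ} (h : Ld M 3 α s φ ψ) (h1 : H1 M 1 α)
    (hd : Den M α) : T6.Inp M α φ ψ s := by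
  refine ⟨h1, hd, fun e he z hz => ⟨h1.hol e he z hz, h.wφ.sm e he z hz, h.wψ.sm e he z hz,
    fun j k => ?_, fun j k => ?_, fun i j => ?_⟩, h.wφ.cmp, h.wψ.cmp⟩
  · rw [mul_comm (dz k _ z)]
    exact congrFun (congrFun (h.pφ e he z hz) j) k
  · rw [mul_comm (dz k _ z)]
    exact congrFun (congrFun (h.pψ e he z hz) j) k
  · exact (congrFun (congrFun (h.hφ e he z hz) i) j).trans (mul_assoc _ _ _).symm

theorem kan3 (e e' : M.Ch) (x : M.X) (h : jd M e e' x ≠ 0) :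
    (M.J e e' x).det / (K3E.kan M (1 + 2)).c e e' x = (jd M e e' x ^ 2)⁻¹ := by
  simp only [K3E.kan, K3E.triv, Mf.Co.tw, jd] at h ⊢
  field_simp

theorem xi {ξ : M.Fam (E n)} (h : T6.Src M ξ) : R.Xi M (K3E.kan M (1 + 2)) ξ := by
  refine ⟨fun e he => ⟨fun l => (h.lb e he l).1, fun K hK hs => ?_⟩,
    fun e he e' he' x hx hx' l => ?_⟩
  · choose C hC using fun l => (h.lb e he l).2 K hK hs
    refine ⟨∑ l, |C l|, fun z hz => (pi_norm_le_iff_of_nonneg (by positivity)).2 fun l =>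
      ((hC l z hz).trans (le_abs_self _)).trans ?_⟩
    exact Finset.single_le_sum (f := fun l => |C l|) (fun _ _ => abs_nonneg _) (Finset.mem_univ l)
  · rw [kan3 e e' x ((mTR n M).2.1 e he e' he' x hx hx').2.1]
    exact h.cmp e he e' he' x hx hx' l

theorem cl {ξ : M.Fam (E n)} (h : T6.Src M ξ) (x : M.X) :
    ∃ e ∈ M.C, x ∈ e.source ∧ R.Cl e.target (ξ e) := by
  obtain ⟨e, he, D, hD, hs, hx, hw⟩ := h.wc x
  let ψ := OpenPartialHomeomorph.ofSet D hD
  have d : DifferentiableOn ℂ ψ ψ.source := differentiableOn_id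
  have d' : DifferentiableOn ℂ ψ.symm ψ.target := differentiableOn_id
  have he' := M.sat e he ψ d d'
  have eq : ∀ z ∈ (e.trans ψ).target, ∀ l, ξ (e.trans ψ) z l = ξ e z l := fun z hz l => by
    have h1 := (e.trans ψ).map_target hz
    have h2 := h.cmp e he _ he' _ h1.1 h1 l
    have h3 : M.J e (e.trans ψ) ((e.trans ψ).symm z) = 1 := by
      rw [((mTR n M).2.2.2.2.2 e he ψ d d' _ h1).2]
      ext i j
      have : (ψ.symm : E n → E n) = id := rfl
      simp [jm, this, Matrix.one_apply, Pi.single_apply]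
    have h4 : e ((e.trans ψ).symm z) = z := e.right_inv hz.2
    rw [(e.trans ψ).right_inv hz, jd, h3, h4] at h2
    simpa [Matrix.one_apply, apply_ite] using h2
  refine ⟨_, he', ⟨hx.1, hx.2⟩, fun χ hχ j k => ?_⟩
  have t : ∀ j k, ∫ z, ξ (e.trans ψ) z j * dzb k χ z = ∫ z, ξ e z j * dzb k χ z := fun j k => by
    refine integral_congr_ae (.of_forall fun z => ?_)
    by_cases c : z ∈ tsupport χ
    · beta_reduce
      rw [eq z (hχ.2.2 c)]
    · have : dzb k χ z = 0 := by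
        simp [dzb, (notMem_tsupport_iff_eventuallyEq.1 c).fderiv_eq]
      simp only [this, mul_zero]
  rw [t, t]
  exact hw χ ⟨hχ.1, hχ.2.1, fun z hz => (hχ.2.2 hz).1⟩ j k

end ADP

theorem st_T6 (hT : T6.St_TOP) (hS : R.St_SOL) (hV : R.St_HV) : St_T6 := by
  intro M _ H S P V W α a hH hO hD hL
  obtain ⟨s, φ, ψ, h⟩ := hL 3
  obtain ⟨w, hA⟩ := hV 4 M H a 1 (by norm_num) hH hO
  refine hT 4 M H α φ ψ s hH.toMet (ADP.inp h hD.hα hD.den)
    (hD.z2 _ (by norm_num) (by norm_num) (by norm_num)) fun ξ hξ => ?_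
  obtain ⟨r, hr⟩ := hS 4 M H _ _ ξ hH w (hA (hD.zL H)) (ADP.xi hξ) (ADP.cl hξ)
  refine ⟨r, .of_forall fun x e he e' he' hx hx' => ?_, hr.int, hr.eq⟩
  rw [← ADP.kan3 e e' x ((mTR 4 M).2.1 e he e' he' x hx hx').2.1]
  exact hr.law e he e' he' x hx hx'

end Pool.Agent.Lib.F4
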