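import Pool.Agent.Lib.F4.AllA
import Pool.Agent.Lib.F4.AllD
import Pool.Agent.Lib.F4.AllR
import Pool.Agent.Lib.F4.AllS
import Pool.Agent.Lib.F4.AllT
import Pool.Agent.Lib.F4.T_ADP
import Pool.Agent.Lib.F4.B_OUZ
import Pool.Agent.Lib.F4.O_U1F
import Pool.Agent.Lib.F4.O_M8
import Pool.Agent.Lib.F4.O_KBM
import Pool.Agent.Lib.F4.O_FH
import Pool.Agent.Lib.F4.O_VW
import Pool.Agent.Lib.F4.O_REM
import Pool.Agent.Lib.ZK.All2
import Pool.Agent.Lib.K3E.B_MER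

/-! Project f4: the theorem. -/

namespace Pool.Agent.Lib.F4

theorem aF4 : St_F4 :=
  f4_of (main_of aALG (st_OUZ ZK.zkMain2) aS34 LD.aLD (st_T6 T6.aTOP R.aSOL R.aHV)) st_U1F st_M8 st_Q0
    st_KBM st_FH (st_VW IDX.aIDX K3E.bKAN aXP aXT aOS aPT1) st_REM aZ0 K3E.bMER

end Pool.Agent.Lib.F4
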