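import Pool.Agent.Lib.F4.A_PT1
import Pool.Agent.Lib.F4.A_PT2
import Pool.Agent.Lib.F4.A_OP
import Pool.Agent.Lib.F4.A_OS
import Pool.Agent.Lib.F4.A_IDT
import Pool.Agent.Lib.F4.A_LOC
import Pool.Agent.Lib.F4.A_DIV
import Pool.Agent.Lib.F4.A_D1
import Pool.Agent.Lib.F4.A_INT
import Pool.Agent.Lib.F4.A_FLAG
import Pool.Agent.Lib.F4.A_TAN
import Pool.Agent.Lib.F4.A_VAN
import Pool.Agent.Lib.F4.A_XP
import Pool.Agent.Lib.F4.A_XT
import Pool.Agent.Lib.F4.A_NEG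
import Pool.Agent.Lib.F4.A_Z0

/-! Project f4: the algebraic step, assembled. -/

namespace Pool.Agent.Lib.F4

theorem aPT1 : St_PT1 := st_PT1
theorem aPT2 : St_PT2 := st_PT2
theorem aOP : St_OP := st_OP
theorem aOS : St_OS := st_OS aPT1
theorem aIDT : St_IDT := st_IDT
theorem aLOC : St_LOC := st_LOC
theorem aDIV : St_DIV := st_DIV aLOC
theorem aD1 : St_D1 := st_D1
theorem aINT : St_INT := st_INT aPT1 aPT2 aD1
theorem aFLAG : St_FLAG := st_FLAG aPT1 aPT2 aOP aOS aIDT aDIV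
theorem aTAN : St_TAN := st_TAN aPT1 aPT2 aOP aIDT aDIV
theorem aVAN : St_VAN := st_VAN aPT1 aPT2 aOP aOS aIDT aDIV aTAN
theorem aXP : St_XP := st_XP
theorem aXT : St_XT := st_XT aXP
theorem aNEG : St_NEG := st_NEG
theorem aZ0 : St_Z0 := st_Z0 aNEG
theorem aALG : St_ALG := alg_of aPT1 aPT2 aOS aIDT aLOC aD1 aINT aFLAG aTAN aVAN aXP aXT

end Pool.Agent.Lib.F4
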