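import Pool.Agent.Lib.HLK.Blue
import Pool.Agent.Lib.ZK47.Blue

/-! Project f4, the lemma on the weight: the statements that do not involve the form. -/

open scoped Classical Topology ContDiff ComplexOrder Matrix ENNReal
open Set MeasureTheory Complex Metric Filter

set_option linter.unusedVariables false

noncomputable section

namespace Pool.Agent.Lib.F4.LD

open Pool.Agent.Lib.SV (E)
open Pool.Agent.Lib.HS32

/-! ### Coordinates -/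

/-- Test functions on `U`. -/
def Tst {n : ℕ} (U : Set (E n)) (ψ : E n → ℂ) : Prop :=
  ContDiff ℝ ∞ ψ ∧ HasCompactSupport ψ ∧ tsupport ψ ⊆ U

/-- The functions `g l` are the weak derivatives of `h` in the conjugate variables. -/
def Wd {n : ℕ} (U : Set (E n)) (h : E n → ℂ) (g : Fin n → E n → ℂ) : Prop :=
  ∀ ψ, Tst U ψ → ∀ l, ∫ z in U, h z * dzb l ψ z = -∫ z in U, g l z * ψ z

/-- Regularity from the weak derivatives in the conjugate variables. -/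
def St_KER : Prop := ∀ (n : ℕ) (U : Set (E n)) (h : E n → ℂ) (g : Fin n → E n → ℂ), 0 < n →
  IsOpen U → IntegrableOn h U → (∀ l, IntegrableOn (g l) U) → Wd U h g →
  ((∀ l, MemLp (g l) ((2 * n + 1 : ℕ) : ℝ≥0∞) (volume.restrict U)) →
    ∃ h', ContinuousOn h' U ∧ ∀ᵐ z, z ∈ U → h' z = h z) ∧
  ∀ k : ℕ, (∀ l, ContDiffOn ℝ k (g l) U) → ∃ h', ContDiffOn ℝ k h' U ∧ ∀ᵐ z, z ∈ U → h' z = h z

/-- A real function with a continuous weak gradient. -/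
def St_C1W : Prop := ∀ (n : ℕ) (U : Set (E n)) (w : E n → ℝ) (b : Fin n → E n → ℂ), IsOpen U →
  IntegrableOn w U → (∀ l, ContinuousOn (b l) U) → Wd U (fun z => (w z : ℂ)) b →
  ∃ w' : E n → ℝ, (∀ᵐ z, z ∈ U → w' z = w z) ∧ ContDiffOn ℝ 1 w' U ∧
    (∀ l, ∀ z ∈ U, dzb l (fun y => (w' y : ℂ)) z = b l z) ∧
    ∀ m : ℕ, (∀ l, ContDiffOn ℝ m (b l) U) → ContDiffOn ℝ (m + 1 : ℕ) w' U

/-- Weak and strong derivatives agree. -/
def St_WPT : Prop := ∀ (n : ℕ) (U : Set (E n)) (h : E n → ℂ), IsOpen U → ContDiffOn ℝ 1 h U →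
  Wd U h (fun l => dzb l h) ∧ ∀ g : Fin n → E n → ℂ, (∀ l, ContinuousOn (g l) U) → Wd U h g →
    ∀ l, ∀ z ∈ U, dzb l h z = g l z

/-- Rules for the weak derivative. -/
def St_WRU : Prop := ∀ (n : ℕ) (U : Set (E n)) (h h' : E n → ℂ) (g g' : Fin n → E n → ℂ),
  IsOpen U → LocallyIntegrableOn h U → (∀ l, LocallyIntegrableOn (g l) U) → Wd U h g →
  ((∀ᵐ z, z ∈ U → h' z = h z) → (∀ l, ∀ᵐ z, z ∈ U → g' l z = g l z) → Wd U h' g') ∧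
  (LocallyIntegrableOn h' U → (∀ l, LocallyIntegrableOn (g' l) U) → Wd U h' g' →
    Wd U (fun z => h z + h' z) (fun l z => g l z + g' l z) ∧
    Wd U (fun z => h z - h' z) fun l z => g l z - g' l z) ∧
  (∀ a : E n → ℂ, DifferentiableOn ℂ a U → Wd U (fun z => h z * a z) fun l z => g l z * a z) ∧
  ((∀ l, ∀ z ∈ U, g l z = 0) → ContinuousOn h U → DifferentiableOn ℂ h U)

/-- Smooth functions on a ball that converge together with their derivatives. -/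
structure Lm {n : ℕ} (c : E n) (r : ℝ) (v : ℕ → E n → ℝ) (w : E n → ℝ) (g : E n → Mat n) :
    Prop where
  sm : ∀ j, ∀ z ∈ closedBall c r, ContDiffAt ℝ ∞ (v j) z
  mw : MemLp w 2 (volume.restrict (ball c r))
  mg : ∀ l k, MemLp (fun z => g z l k) ((2 * n + 1 : ℕ) : ℝ≥0∞) (volume.restrict (ball c r))
  l0 : Tendsto (fun j => ∫ z in ball c r, (v j z - w z) ^ 2) atTop (𝓝 0)
  l1 : ∀ k, ∀ ε : ℝ, 0 < ε → ∃ N, ∀ i j, N ≤ i → N ≤ j → ∫ z in ball c r,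
    ‖dz k (fun y => (v i y : ℂ)) z - dz k (fun y => (v j y : ℂ)) z‖ ^ 2 ≤ ε
  l2 : ∀ l k, Tendsto (fun j => ∫ z in ball c r,
    ‖hess (fun y => (v j y : ℂ)) z l k - g z l k‖ ^ 2) atTop (𝓝 0)

/-- The weak equations of the limit. -/
def St_EU1 : Prop := ∀ (n : ℕ) (c : E n) (r : ℝ) (v : ℕ → E n → ℝ) (w : E n → ℝ)
  (g : E n → Mat n), 0 < n → Lm c r v w g → ∃ h : Fin n → E n → ℂ,
    (∀ k, MemLp (h k) 2 (volume.restrict (ball c r))) ∧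
    Wd (ball c r) (fun z => (w z : ℂ)) (fun l z => star (h l z)) ∧
    ∀ k, Wd (ball c r) (h k) fun l z => g z l k

/-- The output on a ball. -/
structure Rb {n : ℕ} (B : Set (E n)) (w' : E n → ℝ) (g : E n → Mat n) : Prop where
  c1 : ContDiffOn ℝ 1 w' B
  wk : ∀ k, Wd B (dz k fun y => (w' y : ℂ)) fun l z => g z l k
  ck : ∀ m : ℕ, (∀ l k, ContDiffOn ℝ (m + 1 : ℕ) (fun z => g z l k) B) →
    ContDiffOn ℝ (m + 2 : ℕ) w' B ∧ ∀ z ∈ B, hess (fun y => (w' y : ℂ)) z = g z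

/-- Regularity of the limit on a ball. -/
def St_EUC : Prop := ∀ (n : ℕ) (c : E n) (r : ℝ) (v : ℕ → E n → ℝ) (w : E n → ℝ)
  (g : E n → Mat n), 0 < n → Lm c r v w g →
  ∃ w' : E n → ℝ, (∀ᵐ z, z ∈ ball c r → w' z = w z) ∧ Rb (ball c r) w' g

/-! ### The manifold -/

/-- Functions of class `C^k`. -/
def Ck {n : ℕ} (M : Mf n) (k : ℕ) (u : M.X → ℝ) : Prop :=
  M.All fun e z => ContDiffAt ℝ k (u ∘ e.symm) z

/-- The product of a form with a function. -/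
def fs {n : ℕ} (M : Mf n) (f : M.X → ℝ) (A : M.Fam (Mat n)) : M.Fam (Mat n) :=
  fun e z => f (e.symm z) • A e z

/-- The inequality of Poincaré. -/
def St_PW : Prop := ∀ (n : ℕ) (M : Mf n) [M.Cpt] (H : M.Fam (Mat n)), 0 < n → M.Kae H →
  ∃ C : ℝ, 0 ≤ C ∧ ∀ w, M.Sm w → ∫ x, w x ∂M.mu H = 0 →
    ∫ x, w x ^ 2 ∂M.mu H ≤ C * ∫ x, M.gr H w w x ∂M.mu H ∧
    ∫ x, M.gr H w w x ∂M.mu H ≤ C * ∫ x, M.lap H w x ^ 2 ∂M.mu H

/-- The mixed integral with an exact form is zero. -/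
def St_MXC : Prop := ∀ (n : ℕ) (M : Mf n) [M.Cpt] (H S : M.Fam (Mat n)) (v : M.X → ℝ), M.Kae H →
  M.Clo S → M.Sm v → ∫ x, (M.tr H S x * M.tr H (M.hs v) x - M.ip H S (M.hs v) x) ∂M.mu H = 0

/-- Pointwise inequalities. -/
def St_PSD : Prop := ∀ (n : ℕ) (M : Mf n) (H : M.Fam (Mat n)), M.Met H → ∀ x,
  (∀ S T, M.Le 0 S → M.Le 0 T → M.ip H S T x ≤ M.tr H S x * M.tr H T x) ∧
  (∀ S, M.Form S → 0 ≤ M.ip H S S x ∧ M.tr H S x ^ 2 ≤ n * M.ip H S S x ∧ ∀ T, M.Form T →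
    M.ip H (S + T) (S + T) x ≤ 2 * M.ip H S S x + 2 * M.ip H T T x ∧
    M.ip H (S - T) (S - T) x ≤ 2 * M.ip H S S x + 2 * M.ip H T T x) ∧
  ∀ (f : M.X → ℝ) S T, M.tr H (fs M f S) x = f x * M.tr H S x ∧
    M.ip H T (fs M f S) x = f x * M.ip H T S x ∧ (M.Sm f → M.Form S → M.Form (fs M f S))

/-- The two intersection numbers of a nef class. -/
def St_NF2 : Prop := ∀ (n : ℕ) (M : Mf n) [M.Cpt] (H : M.Fam (Mat n)) (a : ℝ → M.X → ℝ),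
  M.Kae H → ZK47.Out M H 0 a → 0 ≤ ∫ x, M.tr H (-M.ric H) x ∂M.mu H ∧
    0 ≤ ∫ x, (M.tr H (-M.ric H) x * M.tr H (-M.ric H) x - M.ip H (-M.ric H) (-M.ric H) x) ∂M.mu H

/-- The inequality of Sobolev for a gradient. -/
def St_SB1 : Prop := ∀ (n : ℕ) (M : Mf n) [M.Cpt] (H : M.Fam (Mat n)), 0 < n → M.Met H →
  ∃ C : ℝ, 0 ≤ C ∧ ∀ v ρ : M.X → ℝ, M.Sm v → Continuous ρ → (∀ x, 0 ≤ ρ x) →
    ∫ x, ρ x * M.gr H v v x ∂M.mu H ≤ C * (∫ x, ρ x ^ (2 * n) ∂M.mu H) ^ (1 / (2 * n : ℝ)) *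
      (∫ x, M.gr H v v x ∂M.mu H + ∫ x, M.ip H (M.hs v) (M.hs v) x ∂M.mu H)

/-- Approximate solutions of `θ + i∂∂̄ v = f A`. -/
structure Aps {n : ℕ} (M : Mf n) (H θ A : M.Fam (Mat n)) (v fj : ℕ → M.X → ℝ) (f : M.X → ℝ) :
    Prop where
  kae : M.Kae H
  hθ : M.Form θ
  hA : M.Form A
  sv : ∀ j, M.Sm (v j)
  mean : ∀ j, ∫ x, v j x ∂M.mu H = 0
  sf : ∀ j, M.Sm (fj j)
  mf : Measurable f
  lp : MemLp f ((2 * n + 1 : ℕ) : ℝ≥0∞) (M.mu H)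
  lf : Tendsto (fun j => ∫ x, (fj j x - f x) ^ 2 ∂M.mu H) atTop (𝓝 0)
  lr : Tendsto (fun j => ∫ x, M.ip H (θ + M.hs (v j) - fs M (fj j) A)
    (θ + M.hs (v j) - fs M (fj j) A) x ∂M.mu H) atTop (𝓝 0)

/-- The global limit. -/
structure Gl {n : ℕ} (M : Mf n) (H : M.Fam (Mat n)) (v : ℕ → M.X → ℝ) (w : M.X → ℝ) : Prop where
  mw : Measurable w
  lp : MemLp w 2 (M.mu H)
  l0 : Tendsto (fun j => ∫ x, (v j x - w x) ^ 2 ∂M.mu H) atTop (𝓝 0)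
  l1 : ∀ ε : ℝ, 0 < ε → ∃ N, ∀ i j, N ≤ i → N ≤ j →
    ∫ x, M.gr H (fun y => v i y - v j y) (fun y => v i y - v j y) x ∂M.mu H ≤ ε

/-- Existence of the global limit. -/
def St_LM1 : Prop := ∀ (n : ℕ) (M : Mf n) [M.Cpt] (H θ A : M.Fam (Mat n)) (v fj : ℕ → M.X → ℝ)
  (f : M.X → ℝ), 0 < n → Aps M H θ A v fj f → ∃ w, Gl M H v w

/-- From the manifold to a coordinate ball. -/
def St_CH2 : Prop := ∀ (n : ℕ) (M : Mf n) [M.Cpt] (H : M.Fam (Mat n)), M.Met H → ∀ e ∈ M.C,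
  ∀ (c : E n) (r : ℝ), closedBall c r ⊆ e.target → ∃ C : ℝ, 0 ≤ C ∧
    (∀ (u : M.X → ℝ) (p : ℝ≥0∞), Measurable u → MemLp u p (M.mu H) →
      MemLp (u ∘ e.symm) p (volume.restrict (ball c r))) ∧
    (∀ u : M.X → ℝ, Measurable u → Integrable u (M.mu H) → (∀ x, 0 ≤ u x) →
      IntegrableOn (u ∘ e.symm) (ball c r) ∧
      ∫ z in ball c r, u (e.symm z) ≤ C * ∫ x, u x ∂M.mu H) ∧
    ∀ z ∈ closedBall c r, (∀ R, M.Form R → ∀ l k, ‖R e z l k‖ ^ 2 ≤ C * M.ip H R R (e.symm z)) ∧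
      ∀ v, M.Sm v → ∀ k, ‖dz k (M.lc v e) z‖ ^ 2 ≤ C * M.gr H v v (e.symm z)

/-- The limit read in a coordinate ball. -/
def St_LM2 : Prop := ∀ (n : ℕ) (M : Mf n) [M.Cpt] (H θ A : M.Fam (Mat n)) (v fj : ℕ → M.X → ℝ)
  (f w : M.X → ℝ), 0 < n → Aps M H θ A v fj f → Gl M H v w → ∀ e ∈ M.C, ∀ (c : E n) (r : ℝ),
  closedBall c r ⊆ e.target →
    Lm c r (fun j => v j ∘ e.symm) (w ∘ e.symm) ((fs M f A - θ) e)

/-- Local continuous representatives glue. -/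
def St_GLU : Prop := ∀ (n : ℕ) (M : Mf n) [M.Cpt] (w : M.X → ℝ) (W : M.Ch → E n → ℝ → E n → ℝ),
  (∀ e ∈ M.C, ∀ (c : E n) (r : ℝ), closedBall c r ⊆ e.target →
    ContinuousOn (W e c r) (ball c r) ∧ ∀ᵐ z, z ∈ ball c r → W e c r z = w (e.symm z)) →
  ∃ v : M.X → ℝ, ∀ e ∈ M.C, ∀ (c : E n) (r : ℝ), closedBall c r ⊆ e.target →
    ∀ z ∈ ball c r, v (e.symm z) = W e c r z

/-- The function `v` solves `θ + i∂∂̄ v = f A`. -/
structure Sol {n : ℕ} (M : Mf n) (θ A : M.Fam (Mat n)) (f v : M.X → ℝ) : Prop where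
  c1 : Ck M 1 v
  wk : ∀ e ∈ M.C, ∀ (c : E n) (r : ℝ), closedBall c r ⊆ e.target → ∀ k,
    (∀ l, IntegrableOn (fun z => (fs M f A - θ) e z l k) (ball c r)) ∧
    Wd (ball c r) (dz k (M.lc v e)) fun l z => (fs M f A - θ) e z l k
  ck : ∀ m : ℕ, Ck M (m + 1) f → Ck M (m + 2) v ∧ M.All fun e z => M.hs v e z = (fs M f A - θ) e z

/-- Existence and regularity of the solution. -/
def St_RG : Prop := ∀ (n : ℕ) (M : Mf n) [M.Cpt] (H θ A : M.Fam (Mat n)) (v fj : ℕ → M.X → ℝ)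
  (f : M.X → ℝ), 0 < n → Aps M H θ A v fj f → ∃ u, Sol M θ A f u

/-- Smoothing in the norm of `C^1`. -/
def St_SMO : Prop := ∀ (n : ℕ) (M : Mf n) [M.Cpt] (H : M.Fam (Mat n)) (f : M.X → ℝ) (ε : ℝ),
  M.Met H → Ck M 1 f → 0 < ε → ∃ f', M.Sm f' ∧ ∀ x, |f' x - f x| ≤ ε ∧
    M.gr H (fun y => f' y - f y) (fun y => f' y - f y) x ≤ ε

end Pool.Agent.Lib.F4.LD
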