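import Pool.Agent.Lib.F4.Defs

/-! Project f4: weights of finite class on the canonical bundle; the output of Lemma D. -/

open scoped Classical Topology ContDiff ComplexOrder Matrix
open Set Filter

noncomputable section

namespace Pool.Agent.Lib.F4

open Pool.Agent.Lib.SV (E)
open Pool.Agent.Lib.HS32

variable {n : ℕ}

/-- The `(1,0)` derivative of a real function. -/
def dw (w : E n → ℝ) (z : E n) : E n := fun j => dz j (fun y => (w y : ℂ)) z

/-- The product of a covector and its conjugate. -/
def oo (a : E n) : Mat n := Matrix.vecMulVec (star a) a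

variable (M : Mf n)

/-- A weight of class `C^k` on the canonical bundle. -/
structure Wk (k : ℕ) (w : M.Fam ℝ) : Prop where
  sm : M.All fun e z => ContDiffAt ℝ k (w e) z
  cmp : M.Ov fun e e' x => w e' (e' x) = w e (e x) + Real.log (Complex.normSq (jd M e e' x))

/-- The form `exp (-w) α` is closed in the holomorphic directions. -/
def Pw (w : M.Fam ℝ) (α : M.Fam (E n)) : Prop :=
  M.All fun e z => d1 (α e) z = wg (dw (w e) z) (α e z)

/-- The output of Lemma D. -/
structure Ld (k : ℕ) (α : M.Fam (E n)) (s : ℝ) (φ ψ : M.Fam ℝ) : Prop where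
  s0 : 0 ≤ s
  wφ : Wk M k φ
  wψ : Wk M k ψ
  pφ : Pw M φ α
  pψ : Pw M ψ α
  hφ : M.All fun e z => M.hw φ e z = ((s * Real.exp (-ψ e z) : ℝ) : ℂ) • oo (α e z)
  hψ : M.All fun e z => ∃ l : ℝ, M.hw ψ e z = (l : ℂ) • oo (α e z)

end Pool.Agent.Lib.F4
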