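import Pool.Agent.Lib.F4.BlueS
import Pool.Agent.Lib.F4.BlueD0
import Pool.Agent.Lib.F4.Ld

/-! Project f4, the lemma on the weight: the statements that involve the form. -/

open scoped Classical Topology ContDiff ComplexOrder Matrix ENNReal
open Set MeasureTheory Complex Metric Filter

set_option linter.unusedVariables false

noncomputable section

namespace Pool.Agent.Lib.F4.LD

open Pool.Agent.Lib.SV (E)
open Pool.Agent.Lib.HS32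
open Pool.Agent.Lib.EXH (aw)

/-- Approximate invariant densities with a limit in `L²`. -/
structure Ap2 {n : ℕ} (M : Mf n) (H : M.Fam (Mat n)) (α : M.Fam (E n)) (F t : ℕ → M.X → ℝ)
    (G : M.X → ℝ) : Prop extends App M H α F t where
  mG : Measurable G
  lG : MemLp G ((2 * n + 1 : ℕ) : ℝ≥0∞) (M.mu H)
  l2 : Tendsto (fun j => ∫ x, (F j x - G x) ^ 2 ∂M.mu H) atTop (𝓝 0)

/-- Convex combinations converge strongly. -/
def St_MAZ : Prop := ∀ (n : ℕ) (M : Mf n) [M.Cpt] (H : M.Fam (Mat n)) (α : M.Fam (E n))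
  (F t : ℕ → M.X → ℝ), M.Met H → H1 M 1 α → App M H α F t → ∃ F' t' G, Ap2 M H α F' t' G

/-- Functions of finite class. -/
def St_CKK : Prop := ∀ (n : ℕ) (M : Mf n) (k : ℕ) (u : M.X → ℝ),
  (M.Sm u → Ck M k u) ∧ (Ck M (k + 1) u → Ck M k u) ∧ (Ck M k u → Continuous u ∧
    Ck M k (fun x => Real.exp (-u x)) ∧ (∀ c : ℝ, Ck M k fun x => c * u x) ∧
    (∀ w, Ck M k w → Ck M k (fun x => u x + w x) ∧ Ck M k fun x => u x - w x) ∧
    ∀ φ, M.Wt 1 φ → Wk M k (aw M φ u) ∧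
      (2 ≤ k → M.All fun e z => M.hw (aw M φ u) e z = M.hw φ e z + M.hs u e z))

/-- The operator `bet` on functions of class `C^1`. -/
def St_BTB : Prop := ∀ (n : ℕ) (M : Mf n) (H : M.Fam (Mat n)) (α : M.Fam (E n)) (g : M.X → ℝ),
  M.Met H → H1 M 1 α → Ck M 1 g →
  (∀ x, n2 M H (bet M H α g) x ≤ 2 * (M.gr H g g x * M.tr H (aa M H α) x) +
    2 * (g x ^ 2 * n2 M H (mu M (ph M H) α) x)) ∧
  (∀ g', Ck M 1 g' → M.All fun e z =>
    bet M H α (fun x => g x - g' x) e z = bet M H α g e z - bet M H α g' e z) ∧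
  (M.All fun e z => bet M H α (fun x => Real.exp (-g x)) e z =
    -((Real.exp (-g (e.symm z)) : ℝ) : ℂ) • mu M (aw M (ph M H) g) α e z) ∧
  (M.All fun e z => mu M (aw M (ph M H) g) α e z = mu M (ph M H) α e z + da M g α e z) ∧
  (M.Ov fun e e' x => da M g α e' (e' x) =
    jd M e e' x • ((M.J e e' x)ᵀ * da M g α e (e x) * M.J e e' x)) ∧
  (Zr M (mu M (aw M (ph M H) g) α) → Pw M (aw M (ph M H) g) α)

/-- The square of the form. -/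
def St_AAK : Prop := ∀ (n : ℕ) (M : Mf n) [M.Cpt] (H : M.Fam (Mat n)) (α : M.Fam (E n)), M.Met H →
  H1 M 1 α → (∀ x, mx M H (aa M H α) (aa M H α) x = 0) ∧
  (¬Zr M α → 0 < ∫ x, M.tr H (aa M H α) x ∂M.mu H) ∧
  ∀ (s : ℝ) (u : M.X → ℝ), M.All fun e z => fs M (fun x => s * Real.exp (-u x)) (aa M H α) e z =
    ((s * Real.exp (-aw M (ph M H) u e z) : ℝ) : ℂ) • oo (α e z)

/-- The solutions of the equation of Poisson. -/
structure Pois {n : ℕ} (M : Mf n) (H θ A : M.Fam (Mat n)) (F v : ℕ → M.X → ℝ) (s : ℕ → ℝ)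
    (B : ℝ) : Prop where
  s0 : ∀ j, 0 ≤ s j ∧ s j ≤ B
  sv : ∀ j, M.Sm (v j)
  mean : ∀ j, ∫ x, v j x ∂M.mu H = 0
  eq : ∀ j x, M.lap H (v j) x = s j * F j x * M.tr H A x - M.tr H θ x
  bd : ∀ j, ∫ x, M.lap H (v j) x ^ 2 ∂M.mu H ≤ B

/-- The scalars and the potentials. -/
def St_HD1 : Prop := ∀ (n : ℕ) (M : Mf n) [M.Cpt] (H θ A : M.Fam (Mat n)) (F : ℕ → M.X → ℝ)
  (G : M.X → ℝ) (c : ℝ), 0 < n → M.Kae H → M.Form θ → M.Form A → M.Le 0 A →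
  0 ≤ ∫ x, M.tr H θ x ∂M.mu H → 0 < ∫ x, M.tr H A x ∂M.mu H → (∀ j, M.Sm (F j)) → 0 < c →
  (∀ j x, c ≤ F j x) → MemLp G 2 (M.mu H) →
  Tendsto (fun j => ∫ x, (F j x - G x) ^ 2 ∂M.mu H) atTop (𝓝 0) →
  ∃ (v : ℕ → M.X → ℝ) (s : ℕ → ℝ) (B s₀ : ℝ), Pois M H θ A F v s B ∧ 0 ≤ s₀ ∧
    Tendsto (fun j => ∫ x, (s j * F j x - s₀ * G x) ^ 2 ∂M.mu H) atTop (𝓝 0)

/-- The inequality of Hodge index type. -/
def St_HDI : Prop := ∀ (n : ℕ) (M : Mf n) [M.Cpt] (H θ A : M.Fam (Mat n)) (f v : M.X → ℝ),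
  M.Kae H → M.Clo θ → M.Form A → M.Sm f → M.Sm v → (∀ x, mx M H A A x = 0) →
  0 ≤ ∫ x, mx M H θ θ x ∂M.mu H → (∀ x, M.lap H v x = f x * M.tr H A x - M.tr H θ x) →
  ∫ x, M.ip H (θ + M.hs v - fs M f A) (θ + M.hs v - fs M f A) x ∂M.mu H ≤
    2 * ∫ x, f x * mx M H θ A x ∂M.mu H + 2 * ∫ x, f x * mx M H (M.hs v) A x ∂M.mu H

/-- The two error terms tend to zero. -/
def St_HDB : Prop := ∀ (n : ℕ) (M : Mf n) [M.Cpt] (H : M.Fam (Mat n)) (α : M.Fam (E n))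
  (F t v : ℕ → M.X → ℝ) (B : ℝ), 0 < n → M.Kae H → H1 M 1 α → App M H α F t →
  (∀ j, M.Sm (v j)) → (∀ j, ∫ x, v j x ∂M.mu H = 0) →
  (∀ j, ∫ x, M.lap H (v j) x ^ 2 ∂M.mu H ≤ B) →
  Tendsto (fun j => ∫ x, F j x * mx M H (-M.ric H) (aa M H α) x ∂M.mu H) atTop (𝓝 0) ∧
  Tendsto (fun j => ∫ x, F j x * mx M H (M.hs (v j)) (aa M H α) x ∂M.mu H) atTop (𝓝 0)

/-- Approximate solutions. -/
def St_HOD : Prop := ∀ (n : ℕ) (M : Mf n) [M.Cpt] (H : M.Fam (Mat n)) (α : M.Fam (E n))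
  (a : ℝ → M.X → ℝ) (F t : ℕ → M.X → ℝ) (G : M.X → ℝ), 0 < n → M.Kae H → H1 M 1 α → ¬Zr M α →
  ZK47.Out M H 0 a → Ap2 M H α F t G → ∃ (s : ℝ) (v fj : ℕ → M.X → ℝ), 0 ≤ s ∧
    Aps M H (-M.ric H) (aa M H α) v fj fun x => s * G x

/-- The covariant derivative of the form is holomorphic. -/
def St_MUH : Prop := ∀ (n : ℕ) (M : Mf n) (H : M.Fam (Mat n)) (α : M.Fam (E n)) (f v : M.X → ℝ),
  M.Met H → H1 M 1 α → Sol M (-M.ric H) (aa M H α) f v → H2 M 1 (mu M (aw M (ph M H) v) α)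

/-- The covariant derivative of the form is zero. -/
def St_MU0 : Prop := ∀ (n : ℕ) (M : Mf n) [M.Cpt] (H : M.Fam (Mat n)) (α : M.Fam (E n))
  (v : M.X → ℝ), M.Kae H → H1 M 1 α → Ck M 1 v → H2 M 1 (mu M (aw M (ph M H) v) α) →
  Zr M (mu M (aw M (ph M H) v) α)

/-- An invariant density of class `C^1` has approximants. -/
def St_AP2 : Prop := ∀ (n : ℕ) (M : Mf n) [M.Cpt] (H : M.Fam (Mat n)) (α : M.Fam (E n))
  (u : M.X → ℝ), M.Met H → H1 M 1 α → Ck M 1 u → Zr M (mu M (aw M (ph M H) u) α) →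
  ∃ F t, Ap2 M H α F t fun x => Real.exp (-u x)

/-- One round. -/
def St_RND : Prop := ∀ (n : ℕ) (M : Mf n) [M.Cpt] (H : M.Fam (Mat n)) (α : M.Fam (E n))
  (a : ℝ → M.X → ℝ) (F t : ℕ → M.X → ℝ) (G : M.X → ℝ), 0 < n → M.Kae H → H1 M 1 α → ¬Zr M α →
  ZK47.Out M H 0 a → Ap2 M H α F t G → ∃ (s : ℝ) (v : M.X → ℝ), 0 ≤ s ∧ Ck M 1 v ∧
    Zr M (mu M (aw M (ph M H) v) α) ∧ ∀ m : ℕ, Ck M (m + 1) G → Ck M (m + 2) v ∧
      M.All fun e z => M.hw (aw M (ph M H) v) e z = fs M (fun x => s * G x) (aa M H α) e z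

/-- The lemma. -/
def St_LD : Prop := ∀ (n : ℕ) (M : Mf n) [M.Cpt] (H : M.Fam (Mat n)) (α : M.Fam (E n))
  (a : ℝ → M.X → ℝ) (F t : ℕ → M.X → ℝ) (k : ℕ), 0 < n → M.Kae H → H1 M 1 α → ¬Zr M α →
  ZK47.Out M H 0 a → App M H α F t → ∃ s φ ψ, Ld M k α s φ ψ

theorem st_RND (hM : St_MUS) (hK : St_CKK) (hO : St_HOD) (hR : St_RG) (hH : St_MUH)
    (h0 : St_MU0) : St_RND := by
  intro n M _ H α a F t G hn hk h1 nz ho ap
  obtain ⟨s, v, fj, s0, aps⟩ := hO n M H α a F t G hn hk h1 nz ho ap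
  obtain ⟨u, so⟩ := hR n M H _ _ v fj _ hn aps
  obtain ⟨wt, hw, -⟩ := hM n M H α hk.toMet h1
  refine ⟨s, u, s0, so.c1, h0 n M H α u hk h1 so.c1 (hH n M H α _ u hk.toMet h1 so),
    fun m hG => ?_⟩
  obtain ⟨c2, eq⟩ := so.ck m (((hK n M (m + 1) G).2.2 hG).2.2.1 s)
  refine ⟨c2, fun e he z hz => ?_⟩
  beta_reduce
  rw [(((hK n M (m + 2) u).2.2 c2).2.2.2.2 _ wt).2 (by omega) e he z hz, hw, eq e he z hz]
  simp only [Pi.sub_apply, Pi.neg_apply]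
  abel

theorem st_LD (hM : St_MUS) (hK : St_CKK) (hB : St_BTB) (hA : St_AAK) (hZ : St_MAZ)
    (hP : St_AP2) (hR : St_RND) : St_LD := by
  intro n M _ H α a F t k hn hk h1 nz ho ap
  obtain ⟨wt, -⟩ := hM n M H α hk.toMet h1
  have mono : ∀ (m d : ℕ) (u : M.X → ℝ), Ck M (m + d) u → Ck M m u := fun m d u => by
    induction d with
    | zero => exact id
    | succ d ih => exact fun h => ih ((hK n M (m + d) u).2.1 h)
  have step : ∀ (m : ℕ) (u : M.X → ℝ), Ck M (m + 1) u → Zr M (mu M (aw M (ph M H) u) α) →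
      ∃ (s : ℝ) (v : M.X → ℝ), 0 ≤ s ∧ Ck M (m + 2) v ∧ Zr M (mu M (aw M (ph M H) v) α) ∧
        M.All fun e z => M.hw (aw M (ph M H) v) e z =
          ((s * Real.exp (-aw M (ph M H) u e z) : ℝ) : ℂ) • oo (α e z) := fun m u hu hz => by
    have u1 : Ck M 1 u := mono 1 m u (by rwa [Nat.add_comm])
    obtain ⟨F', t', ap'⟩ := hP n M H α u hk.toMet h1 u1 hz
    obtain ⟨s, v, s0, -, z, hc⟩ := hR n M H α a F' t' _ hn hk h1 nz ho ap'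
    obtain ⟨c2, eq⟩ := hc m ((hK n M (m + 1) u).2.2 hu).2.1
    exact ⟨s, v, s0, c2, z, fun e he w hw =>
      (eq e he w hw).trans ((hA n M H α hk.toMet h1).2.2 s u e he w hw)⟩
  have iter : ∀ m : ℕ, ∃ u : M.X → ℝ, Ck M (m + 1) u ∧ Zr M (mu M (aw M (ph M H) u) α) := by
    intro m
    induction m with
    | zero =>
      obtain ⟨F', t', G, ap'⟩ := hZ n M H α F t hk.toMet h1 ap
      obtain ⟨s, v, -, c1, z, -⟩ := hR n M H α a F' t' G hn hk h1 nz ho ap'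
      exact ⟨v, c1, z⟩
    | succ m ih =>
      obtain ⟨u, hu, hz⟩ := ih
      obtain ⟨s, v, -, c2, z, -⟩ := step m u hu hz
      exact ⟨v, c2, z⟩
  obtain ⟨u₀, h₀, z₀⟩ := iter k
  obtain ⟨s₁, u, -, cu, zu, eu⟩ := step k u₀ h₀ z₀
  obtain ⟨s, v, s0, cv, zv, ev⟩ := step (k + 1) u cu zu
  have ku : Ck M k u := mono k 2 u cu
  have kv : Ck M k v := mono k 3 v cv
  have u1 : Ck M 1 u := mono 1 (k + 1) u (by rwa [show 1 + (k + 1) = k + 2 by omega])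
  have v1 : Ck M 1 v := mono 1 (k + 2) v (by rwa [show 1 + (k + 2) = k + 1 + 2 by omega])
  exact ⟨s, _, _, s0, (((hK n M k v).2.2 kv).2.2.2.2 _ wt).1,
    (((hK n M k u).2.2 ku).2.2.2.2 _ wt).1, (hB n M H α v hk.toMet h1 v1).2.2.2.2.2 zv,
    (hB n M H α u hk.toMet h1 u1).2.2.2.2.2 zu, ev, fun e he z hz => ⟨_, eu e he z hz⟩⟩

end Pool.Agent.Lib.F4.LD
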