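import Pool.Agent.Lib.F4.Defs
import Pool.Agent.Lib.F4.M7

/-! Project f4, step six: the projective triple. Blueprint of the local part. -/

open scoped Classical Topology ContDiff ComplexOrder Matrix
open Set Filter MeasureTheory Metric

set_option linter.unusedVariables false

noncomputable section

namespace Pool.Agent.Lib.F4.T6

open Pool.Agent.Lib.SV (E)
open Pool.Agent.Lib.HS32 Pool.Agent.Lib.HLK

variable {n : ℕ}

/-! ### Coordinates -/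

/-- A real function with complex values. -/
def rc (p : E n → ℝ) : E n → ℂ := fun w => (p w : ℂ)

/-- The form `a` is parallel for the weight `p` at `z`. -/
def Pa (a : E n → E n) (p : E n → ℝ) (z : E n) : Prop :=
  ∀ j k, dz j (a · k) z - dz k (a · j) z = dz j (rc p) z * a z k - dz k (rc p) z * a z j

/-- The dual form. -/
def af (a : E n → E n) (q : E n → ℝ) (s : ℝ) : E n → E n := fun z l =>
  (s * Real.exp (-q z) : ℝ) * star (a z l)

/-- The quotient of the derivative of `q - p` by `a`. -/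
def f1 (a : E n → E n) (p q : E n → ℝ) : E n → ℂ := fun z =>
  (∑ k, (dz k (rc q) z - dz k (rc p) z) * star (a z k)) / ∑ k, a z k * star (a z k)

/-- The obstruction form. -/
def xi (a : E n → E n) (p q : E n → ℝ) (s : ℝ) : E n → E n := fun z l =>
  f1 a p q z * af a q s z l

/-- The second form of the triple. -/
def be (a : E n → E n) (p : E n → ℝ) (G : E n → ℂ) : E n → E n := fun z k =>
  dz k (rc p) z - G z * a z k

/-- The potential of the product of `a` and of the obstruction form. -/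
def rho (a : E n → E n) (p : E n → ℝ) (G : E n → ℂ) : E n → E n := fun z k =>
  G z ^ 2 / 2 * a z k - (dz k G z + G z * dz k (rc p) z)

/-- The curvature of the triple. -/
def cv (b g : E n → E n) (z : E n) : Mat n := d1 g z + wg (b z) (g z)

/-- The input at the point `z`. -/
structure Pt (a : E n → E n) (p q : E n → ℝ) (s : ℝ) (z : E n) : Prop where
  hol : ∀ k, HolN (a · k) z
  sp : ContDiffAt ℝ 3 p z
  sq : ContDiffAt ℝ 3 q z
  pp : Pa a p z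
  pq : Pa a q z
  eq : ∀ i j, hess (rc p) z i j = af a q s z i * a z j

/-- A primitive of the dual form at the point `z`. -/
structure Pr (a : E n → E n) (q : E n → ℝ) (s : ℝ) (G : E n → ℂ) (z : E n) : Prop where
  sm : ContDiffAt ℝ 3 G z
  eq : ∀ l, dzb l G z = af a q s z l

/-- Test functions. -/
def Tst (U : Set (E n)) (θ : E n → ℂ) : Prop :=
  ContDiff ℝ ∞ θ ∧ HasCompactSupport θ ∧ tsupport θ ⊆ U

/-- Measurable and locally bounded. -/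
def Lb (U : Set (E n)) (h : E n → ℂ) : Prop := AEStronglyMeasurable h (volume.restrict U) ∧
  ∀ K, IsCompact K → K ⊆ U → ∃ C : ℝ, ∀ z ∈ K, ‖h z‖ ≤ C

/-- Weakly closed. -/
def Wc (U : Set (E n)) (ξ : E n → E n) : Prop := ∀ θ, Tst U θ → ∀ l m,
  ∫ z, ξ z l * dzb m θ z = ∫ z, ξ z m * dzb l θ z

/-- Weak primitive. -/
def Wd (U : Set (E n)) (r : E n → ℂ) (ξ : E n → E n) : Prop := ∀ θ, Tst U θ → ∀ l,
  ∫ z, r z * dzb l θ z = -∫ z, ξ z l * θ z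

/-- The lemma of Dolbeault with finite regularity. -/
def St_DK : Prop := ∀ (n : ℕ) (f : E n → E n) (c : E n) (r : ℝ), 0 < r →
  (∀ z ∈ ball c r, (∀ l, ContDiffAt ℝ 3 (f · l) z) ∧ ∀ l m, dzb m (f · l) z = dzb l (f · m) z) →
  ∃ (G : E n → ℂ) (r' : ℝ), 0 < r' ∧ r' ≤ r ∧ ∀ z ∈ ball c r',
    ContDiffAt ℝ 3 G z ∧ ∀ l, dzb l G z = f z l

/-- Derivatives of finite order. -/
def St_CK : Prop := ∀ (n : ℕ) (f : E n → ℂ) (z : E n),
  (∀ (m : ℕ) j, ContDiffAt ℝ (m + 1 : ℕ) f z →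
    ContDiffAt ℝ m (dz j f) z ∧ ContDiffAt ℝ m (dzb j f) z) ∧
  (ContDiffAt ℝ 2 f z → ∀ i j, dz i (dz j f) z = dz j (dz i f) z ∧
    dzb i (dzb j f) z = dzb j (dzb i f) z ∧ dz i (dzb j f) z = dzb j (dz i f) z)

/-- Integration by parts for functions of class one. -/
def St_IB : Prop := ∀ (n : ℕ) (U : Set (E n)) (f θ : E n → ℂ), IsOpen U → Tst U θ →
  (∀ z ∈ U, ContDiffAt ℝ 1 f z) → ∀ l, Integrable (fun z => f z * dzb l θ z) ∧
    Integrable (fun z => dzb l f z * θ z) ∧ ∫ z, f z * dzb l θ z = -∫ z, dzb l f z * θ z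

/-- The dual form is closed. -/
def St_AF : Prop := ∀ (n : ℕ) (a : E n → E n) (p q : E n → ℝ) (s : ℝ) (z : E n), Pt a p q s z →
  (∀ l, ContDiffAt ℝ 3 (af a q s · l) z) ∧
  ∀ l m, dzb m (af a q s · l) z = dzb l (af a q s · m) z

/-- The second form. -/
def St_BE : Prop := ∀ (n : ℕ) (U : Set (E n)) (a : E n → E n) (p q : E n → ℝ) (s : ℝ)
  (G : E n → ℂ), IsOpen U → (∀ z ∈ U, Pt a p q s z) → (∀ z ∈ U, Pr a q s G z) →
  DifferentiableOn ℂ (be a p G) U ∧ ∀ z ∈ U, ∀ j k,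
    dz j (a · k) z - dz k (a · j) z = be a p G z j * a z k - be a p G z k * a z j ∧
    dz j (be a p G · k) z - dz k (be a p G · j) z =
      -(a z j * rho a p G z k - a z k * rho a p G z j)

/-- The potential. -/
def St_RH : Prop := ∀ (n : ℕ) (U : Set (E n)) (a : E n → E n) (p q : E n → ℝ) (s : ℝ)
  (G : E n → ℂ), IsOpen U → (∀ z ∈ U, Pt a p q s z) → (∀ z ∈ U, Pr a q s G z) →
  ∀ z ∈ U, ∀ k, ContDiffAt ℝ 2 (rho a p G · k) z ∧
    ∀ l, dzb l (rho a p G · k) z = a z k * xi a p q s z l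

/-- The obstruction form is measurable and locally bounded. -/
def St_XB : Prop := ∀ (n : ℕ) (U : Set (E n)) (a : E n → E n) (p q : E n → ℝ) (s : ℝ),
  IsOpen U → (∀ z ∈ U, Pt a p q s z) → ∀ l, Lb U (xi a p q s · l)

/-- A bounded form whose product with a holomorphic function is exact is weakly closed. -/
def St_CL : Prop := ∀ (n : ℕ) (U : Set (E n)) (a ρ : E n → ℂ) (ξ : E n → E n), IsOpen U →
  DifferentiableOn ℂ a U → (∀ᵐ z, z ∈ U → a z ≠ 0) → (∀ l, Lb U (ξ · l)) →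
  (∀ z ∈ U, ContDiffAt ℝ 2 ρ z ∧ ∀ l, dzb l ρ z = a z * ξ z l) → Wc U ξ

/-- The third form. -/
def St_GA : Prop := ∀ (n : ℕ) (U : Set (E n)) (a ξ ρ : E n → E n) (r : E n → ℂ), IsOpen U →
  (∀ z ∈ U, ∀ k, HolN (a · k) z ∧ ContDiffAt ℝ 2 (ρ · k) z ∧
    ∀ l, dzb l (ρ · k) z = a z k * ξ z l) →
  LocallyIntegrableOn r U → Wd U r ξ →
  ∃ γ : E n → E n, DifferentiableOn ℂ γ U ∧ ∀ᵐ z, z ∈ U → ∀ k, γ z k = r z * a z k - ρ z k

/-- The gauge law without the third form. -/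
def St_G1 : Prop := ∀ (n : ℕ) (ψ a a' : E n → E n) (p q p' q' : E n → ℝ) (s : ℝ)
  (G G' : E n → ℂ) (z : E n), HolN ψ z → (jm ψ z).det ≠ 0 →
  Pt a p q s (ψ z) → (∀ᶠ w in 𝓝 (ψ z), Pr a q s G w) → (∀ᶠ w in 𝓝 z, Pr a' q' s G' w) →
  (∀ᶠ w in 𝓝 z, a' w = (jm ψ w).det • (a (ψ w) ᵥ* jm ψ w) ∧
    p' w = p (ψ w) + Real.log (Complex.normSq (jm ψ w).det) ∧
    q' w = q (ψ w) + Real.log (Complex.normSq (jm ψ w).det)) →
  HolN (fun w => G' w - G (ψ w) / (jm ψ w).det) z ∧ ∀ k,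
    be a' p' G' z k = (be a p G (ψ z) ᵥ* jm ψ z) k +
      dz k (fun w => (jm ψ w).det) z / (jm ψ z).det - (G' z - G (ψ z) / (jm ψ z).det) * a' z k ∧
    -rho a' p' G' z k = -(rho a p G (ψ z) ᵥ* jm ψ z) k / (jm ψ z).det +
      dz k (fun w => G' w - G (ψ w) / (jm ψ w).det) z +
      (G' z - G (ψ z) / (jm ψ z).det) * be a' p' G' z k +
      (G' z - G (ψ z) / (jm ψ z).det) ^ 2 / 2 * a' z k

/-- The law of the obstruction form. -/
def St_X1 : Prop := ∀ (n : ℕ) (ψ a a' : E n → E n) (p q p' q' : E n → ℝ) (s : ℝ) (z : E n),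
  HolN ψ z → (jm ψ z).det ≠ 0 → Pt a p q s (ψ z) →
  (∀ᶠ w in 𝓝 z, a' w = (jm ψ w).det • (a (ψ w) ᵥ* jm ψ w) ∧
    p' w = p (ψ w) + Real.log (Complex.normSq (jm ψ w).det) ∧
    q' w = q (ψ w) + Real.log (Complex.normSq (jm ψ w).det)) →
  ∀ l, xi a' p' q' s z l =
    ((jm ψ z).det ^ 2)⁻¹ * ∑ i, star (jm ψ z i l) * xi a p q s (ψ z) i

/-- The law of the curvature. -/
def St_EL : Prop := ∀ (n : ℕ) (ψ a b g a' b' g' : E n → E n) (c : E n → ℂ) (z : E n), HolN ψ z →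
  (jm ψ z).det ≠ 0 → HolN a (ψ z) → HolN b (ψ z) → HolN g (ψ z) → HolN a' z → HolN b' z →
  HolN c z → d1 a' z = wg (b' z) (a' z) → d1 b' z = wg (a' z) (g' z) →
  (∀ᶠ w in 𝓝 z, a' w = (jm ψ w).det • (a (ψ w) ᵥ* jm ψ w) ∧ ∀ k,
    b' w k = (b (ψ w) ᵥ* jm ψ w) k + dz k (fun w => (jm ψ w).det) w / (jm ψ w).det -
      c w * a' w k ∧
    g' w k = (g (ψ w) ᵥ* jm ψ w) k / (jm ψ w).det + dz k c w + c w * b' w k +
      c w ^ 2 / 2 * a' w k) →
  cv b' g' z = (jm ψ z).det⁻¹ • ((jm ψ z)ᵀ * cv b g (ψ z) * jm ψ z)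

/-! ### Manifolds -/

/-- The input of the step. -/
structure Inp (M : Mf n) (α : M.Fam (E n)) (φ ψ : M.Fam ℝ) (s : ℝ) : Prop where
  h1 : H1 M 1 α
  den : Den M α
  pt : M.All fun e z => Pt (α e) (φ e) (ψ e) s z
  cφ : M.Ov fun e e' x => φ e' (e' x) = φ e (e x) + Real.log (Complex.normSq (jd M e e' x))
  cψ : M.Ov fun e e' x => ψ e' (e' x) = ψ e (e x) + Real.log (Complex.normSq (jd M e e' x))

/-- The obstruction form in all charts. -/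
def xf {M : Mf n} (α : M.Fam (E n)) (φ ψ : M.Fam ℝ) (s : ℝ) : M.Fam (E n) := fun e =>
  xi (α e) (φ e) (ψ e) s

/-- A form of type `(0,1)` with values in `-2K`, bounded and weakly closed. -/
structure Src (M : Mf n) (ξ : M.Fam (E n)) : Prop where
  cmp : M.Ov fun e e' x => ∀ l, ξ e' (e' x) l =
    (jd M e e' x ^ 2)⁻¹ * ∑ i, star (M.J e e' x i l) * ξ e (e x) i
  lb : ∀ e ∈ M.C, ∀ l, Lb e.target (ξ e · l)
  wc : ∀ x, ∃ e ∈ M.C, ∃ D, IsOpen D ∧ D ⊆ e.target ∧ In e D x ∧ Wc D (ξ e)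

/-- A weak primitive. -/
structure Sol (M : Mf n) (H : M.Fam (Mat n)) (ξ : M.Fam (E n)) (r : M.Fam ℂ) : Prop where
  cmp : ∀ᵐ x ∂M.mu H, ∀ e ∈ M.C, ∀ e' ∈ M.C, x ∈ e.source → x ∈ e'.source →
    r e' (e' x) = (jd M e e' x ^ 2)⁻¹ * r e (e x)
  li : ∀ e ∈ M.C, LocallyIntegrableOn (r e) e.target
  wd : ∀ e ∈ M.C, Wd e.target (r e) (ξ e)

/-- A local datum without the third form. -/
structure Dt (M : Mf n) (α : M.Fam (E n)) (ψ : M.Fam ℝ) (s : ℝ) (e : M.Ch) (D : Set (E n))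
    (G : E n → ℂ) : Prop where
  mem : e ∈ M.C
  op : IsOpen D
  sub : D ⊆ e.target
  pr : ∀ z ∈ D, Pr (α e) (ψ e) s G z

/-- The third form of a local datum. -/
structure Th (M : Mf n) (H : M.Fam (Mat n)) (α : M.Fam (E n)) (φ : M.Fam ℝ) (r : M.Fam ℂ)
    (e : M.Ch) (D : Set (E n)) (G : E n → ℂ) (γ : E n → E n) : Prop where
  hol : DifferentiableOn ℂ γ D
  ae : ∀ᵐ x ∂M.mu H, In e D x → ∀ k,
    γ (e x) k = r e (e x) * α e (e x) k - rho (α e) (φ e) G (e x) k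
  eb : ∀ z ∈ D, ∀ j k, dz j (be (α e) (φ e) G · k) z - dz k (be (α e) (φ e) G · j) z =
    α e z j * γ z k - α e z k * γ z j

/-- The gauge function. -/
def gc {M : Mf n} (e e' : M.Ch) (G G' : E n → ℂ) : E n → ℂ := fun w =>
  G' w - G ((e ∘ e'.symm) w) / (jm (e ∘ e'.symm) w).det

/-- Local data exist on small balls. -/
def St_DT : Prop := ∀ (n : ℕ) (M : Mf n) (α : M.Fam (E n)) (φ ψ : M.Fam ℝ) (s : ℝ),
  Inp M α φ ψ s → ∀ x, ∃ (e : M.Ch) (ρ : ℝ) (G : E n → ℂ), 0 < ρ ∧ x ∈ e.source ∧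
    Dt M α ψ s e (ball (e x) ρ) G

/-- The obstruction form is a source. -/
def St_SR : Prop := ∀ (n : ℕ) (M : Mf n) (α : M.Fam (E n)) (φ ψ : M.Fam ℝ) (s : ℝ),
  Inp M α φ ψ s → Src M (xf α φ ψ s)

/-- The third form exists. -/
def St_TH : Prop := ∀ (n : ℕ) (M : Mf n) [M.Cpt] (H : M.Fam (Mat n)) (α : M.Fam (E n))
  (φ ψ : M.Fam ℝ) (s : ℝ) (r : M.Fam ℂ) (e : M.Ch) (D : Set (E n)) (G : E n → ℂ), M.Met H →
  Inp M α φ ψ s → Sol M H (xf α φ ψ s) r → Dt M α ψ s e D G → ∃ γ, Th M H α φ r e D G γ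

/-- The gauge law. -/
def St_GG : Prop := ∀ (n : ℕ) (M : Mf n) [M.Cpt] (H : M.Fam (Mat n)) (α : M.Fam (E n))
  (φ ψ : M.Fam ℝ) (s : ℝ) (r : M.Fam ℂ) (e e' : M.Ch) (D D' : Set (E n)) (G G' : E n → ℂ)
  (γ γ' : E n → E n), M.Met H → Inp M α φ ψ s → Sol M H (xf α φ ψ s) r →
  Dt M α ψ s e D G → Dt M α ψ s e' D' G' → Th M H α φ r e D G γ → Th M H α φ r e' D' G' γ' →
  ∀ x, In e D x → In e' D' x →
    Gg e e' (α e) (be (α e) (φ e) G) γ (α e') (be (α e') (φ e') G') γ' (gc e e' G G') x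

/-- Gluing of local forms of degree two. -/
def St_GL : Prop := ∀ (n : ℕ) (M : Mf n) (m : ℤ) (ι : Type) (e : ι → M.Ch) (D : ι → Set (E n))
  (S : ι → E n → Mat n), (∀ a, e a ∈ M.C) → (∀ a, IsOpen (D a)) → (∀ x, ∃ a, In (e a) (D a) x) →
  (∀ a x, In (e a) (D a) x → (∀ i j, HolN (fun w => S a w i j) (e a x)) ∧
    (S a (e a x))ᵀ = -S a (e a x)) →
  (∀ a b x, In (e a) (D a) x → In (e b) (D b) x → S b (e b x) =
    jd M (e a) (e b) x ^ m • ((M.J (e a) (e b) x)ᵀ * S a (e a x) * M.J (e a) (e b) x)) →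
  ∃ T, H2 M m T ∧ ∀ a x, In (e a) (D a) x → T (e a) (e a x) = S a (e a x)

/-- The curvature is zero. -/
def St_E0 : Prop := ∀ (n : ℕ) (M : Mf n) (ι : Type) (e : ι → M.Ch) (D : ι → Set (E n))
  (al b g : ι → E n → E n) (c : ι → ι → E n → ℂ), (∀ T, H2 M (-1) T → Zr M T) →
  (∀ a, e a ∈ M.C) → (∀ a, IsOpen (D a)) → (∀ a, D a ⊆ (e a).target) →
  (∀ x, ∃ a, In (e a) (D a) x) →
  (∀ a, DifferentiableOn ℂ (al a) (D a) ∧ DifferentiableOn ℂ (b a) (D a) ∧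
    DifferentiableOn ℂ (g a) (D a) ∧ ∀ z ∈ D a, d1 (al a) z = wg (b a z) (al a z) ∧
      d1 (b a) z = wg (al a z) (g a z)) →
  (∀ a a' x, In (e a) (D a) x → In (e a') (D a') x →
    Gg (e a) (e a') (al a) (b a) (g a) (al a') (b a') (g a') (c a a') x) →
  ∀ a, ∀ z ∈ D a, cv (b a) (g a) z = 0

/-- The conclusion of the steps six and seven. -/
def St_T6 : Prop := ∀ (n : ℕ) (M : Mf n) [M.Cpt] [SimplyConnectedSpace M.X] (H : M.Fam (Mat n))
  (α : M.Fam (E n)) (φ ψ : M.Fam ℝ) (s : ℝ), M.Met H → Inp M α φ ψ s →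
  (∀ T, H2 M (-1) T → Zr M T) → (∀ ξ, Src M ξ → ∃ r, Sol M H ξ r) →
  ∃ σ, M.HSec 1 σ ∧ ∃ x, M.ev σ x ≠ 0

end Pool.Agent.Lib.F4.T6
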