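import Pool.Agent.Lib.F4.BlueD0

/-! Project f4: local continuous representatives glue. -/

open scoped Classical Topology
open Set MeasureTheory Metric Filter

noncomputable section

namespace Pool.Agent.Lib.F4.LD

open Pool.Agent.Lib.SV (E)
open Pool.Agent.Lib.HS32

namespace GLU49

variable {n : ℕ} {M : Mf n}

/-- A property that holds almost everywhere in one chart holds almost everywhere in another. -/
theorem ae_chg {e e' : M.Ch} (he : e ∈ M.C) (he' : e' ∈ M.C) {p : E n → Prop}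
    (h : ∀ᵐ y, p y) : ∀ᵐ z, z ∈ e.target → e.symm z ∈ e'.source → p (e' (e.symm z)) := by
  have hd : DifferentiableOn ℝ (e ∘ e'.symm)
      ((e'.target ∩ e'.symm ⁻¹' e.source) ∩ {y | ¬p y}) :=
    ((M.hol e he e' he').restrictScalars ℝ).mono inter_subset_left
  have h0 : volume ((e'.target ∩ e'.symm ⁻¹' e.source) ∩ {y | ¬p y}) = 0 :=
    measure_mono_null inter_subset_right (ae_iff.1 h)
  have h1 := addHaar_image_eq_zero_of_differentiableOn_of_addHaar_eq_zero volume hd h0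
  rw [ae_iff]
  refine measure_mono_null (fun z hz => ?_) h1
  simp only [mem_ofPred_eq, Classical.not_imp] at hz
  obtain ⟨hz, hs, hp⟩ := hz
  have hl : e'.symm (e' (e.symm z)) = e.symm z := e'.left_inv hs
  refine ⟨e' (e.symm z), ⟨⟨e'.map_source hs, ?_⟩, hp⟩, ?_⟩
  · rw [mem_preimage, hl]
    exact e.map_target hz
  · rw [Function.comp_apply, hl]
    exact e.right_inv hz

/-- Two local representatives agree. -/
theorem agree {w : M.X → ℝ} {e e' : M.Ch} (he : e ∈ M.C) (he' : e' ∈ M.C) {B B' : Set (E n)}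
    (hB : IsOpen B) (hB' : IsOpen B') (hs : B ⊆ e.target) {f g : E n → ℝ}
    (hf : ContinuousOn f B) (hg : ContinuousOn g B') (af : ∀ᵐ z, z ∈ B → f z = w (e.symm z))
    (ag : ∀ᵐ z, z ∈ B' → g z = w (e'.symm z)) {z : E n} (hz : z ∈ B)
    (hx : e.symm z ∈ e'.source) (hy : e' (e.symm z) ∈ B') : g (e' (e.symm z)) = f z := by
  have hO : IsOpen (e'.source ∩ e' ⁻¹' B') := e'.isOpen_inter_preimage hB'
  have hU : IsOpen (B ∩ (e.target ∩ e.symm ⁻¹' (e'.source ∩ e' ⁻¹' B'))) :=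
    hB.inter (e.symm.isOpen_inter_preimage hO)
  have hc : ContinuousOn (fun y => g (e' (e.symm y)))
      (B ∩ (e.target ∩ e.symm ⁻¹' (e'.source ∩ e' ⁻¹' B'))) := by
    refine hg.comp (f := fun y => e' (e.symm y)) ?_ fun y hy => hy.2.2.2
    exact e'.continuousOn.comp (e.continuousOn_symm.mono fun y hy => hy.2.1) fun y hy => hy.2.2.1
  have ha : (fun y => g (e' (e.symm y))) =ᵐ[volume.restrict
      (B ∩ (e.target ∩ e.symm ⁻¹' (e'.source ∩ e' ⁻¹' B')))] f := by
    refine (ae_restrict_iff' hU.measurableSet).2 ?_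
    filter_upwards [af, ae_chg he he' ag] with y h1 h2 hy
    rw [h1 hy.1, h2 hy.2.1 hy.2.2.1 hy.2.2.2, e'.left_inv hy.2.2.1]
  exact Measure.eqOn_open_of_ae_eq ha hU hc (hf.mono inter_subset_left) ⟨hz, hs hz, hx, hy⟩

end GLU49

theorem st_GLU : St_GLU := by
  intro n M _ w W h
  let Q : M.X → M.Ch × E n × ℝ → Prop := fun x t =>
    t.1 ∈ M.C ∧ closedBall t.2.1 t.2.2 ⊆ t.1.target ∧ x ∈ t.1.source ∧ t.1 x ∈ ball t.2.1 t.2.2
  refine ⟨fun x => if hx : ∃ t, Q x t then
    W hx.choose.1 hx.choose.2.1 hx.choose.2.2 (hx.choose.1 x) else 0, fun e he c r hr z hz => ?_⟩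
  have hzt : z ∈ e.target := hr (ball_subset_closedBall hz)
  have hx : ∃ t, Q (e.symm z) t :=
    ⟨(e, c, r), he, hr, e.map_target hzt, by rw [e.right_inv hzt]; exact hz⟩
  obtain ⟨h1, h2, h3, h4⟩ := hx.choose_spec
  refine (dif_pos hx).trans ?_
  exact GLU49.agree he h1 isOpen_ball isOpen_ball (ball_subset_closedBall.trans hr)
    (h e he c r hr).1 (h _ h1 _ _ h2).1 (h e he c r hr).2 (h _ h1 _ _ h2).2 hz h3 h4

end Pool.Agent.Lib.F4.LD
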