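import Pool.Agent.Lib.F4.BlueD0
import Pool.Agent.Lib.HS32.EKit

/-! Project f4, the lemma on the weight: existence and regularity of the solution. -/

open scoped Classical Topology ContDiff ComplexOrder Matrix ENNReal
open Set MeasureTheory Complex Metric Filter

set_option linter.unusedVariables false

noncomputable section

namespace Pool.Agent.Lib.F4.LD

open Pool.Agent.Lib.SV (E)
open Pool.Agent.Lib.HS32

namespace RG63

theorem exBall {n : ℕ} {O : Set (E n)} (hO : IsOpen O) {z : E n} (hz : z ∈ O) :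
    ∃ r, 0 < r ∧ closedBall z r ⊆ O := by
  obtain ⟨r, hr, h⟩ := Metric.nhds_basis_closedBall.mem_iff.1 (hO.mem_nhds hz)
  exact ⟨r, hr, h⟩

theorem cdEntry {n : ℕ} {M : Mf n} {θ A : M.Fam (Mat n)} {f : M.X → ℝ} (hθ : M.Form θ)
    (hA : M.Form A) {m : ℕ} (hf : Ck M m f) {e : M.Ch} (he : e ∈ M.C) {z : E n}
    (hz : z ∈ e.target) (l k : Fin n) :
    ContDiffAt ℝ m (fun y => (fs M f A - θ) e y l k) z := by
  have h1 : ContDiffAt ℝ m (fun y => A e y l k) z := (hA.sm e he z hz l k).of_le (by exact_mod_cast le_top)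
  have h2 : ContDiffAt ℝ m (fun y => θ e y l k) z := (hθ.sm e he z hz l k).of_le (by exact_mod_cast le_top)
  have h3 : ContDiffAt ℝ m (fun y => f (e.symm y)) z := hf e he z hz
  exact (h3.smul h1).sub h2

end RG63

open RG63

theorem st_RG (hLM1 : St_LM1) (hLM2 : St_LM2) (hEUC : St_EUC) (hGLU : St_GLU) : St_RG := by
  intro n M _ H θ A v fj f hn hap
  obtain ⟨w, hw⟩ := hLM1 n M H θ A v fj f hn hap
  have hL := hLM2 n M H θ A v fj f w hn hap hw
  have hex : ∀ (e : M.Ch) (c : E n) (r : ℝ), ∃ w' : E n → ℝ, e ∈ M.C → closedBall c r ⊆ e.target →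
      (∀ᵐ z, z ∈ ball c r → w' z = w (e.symm z)) ∧ Rb (ball c r) w' ((fs M f A - θ) e) := by
    intro e c r
    by_cases h : e ∈ M.C ∧ closedBall c r ⊆ e.target
    · obtain ⟨w', h1, h2⟩ := hEUC n c r _ _ _ hn (hL e h.1 c r h.2)
      exact ⟨w', fun _ _ => ⟨h1, h2⟩⟩
    · exact ⟨0, fun h1 h2 => absurd ⟨h1, h2⟩ h⟩
  choose W hW using hex
  obtain ⟨u, hu⟩ := hGLU n M w W fun e he c r hc =>
    ⟨(hW e c r he hc).2.c1.continuousOn, (hW e c r he hc).1⟩
  have hev : ∀ e ∈ M.C, ∀ (c : E n) (r : ℝ), closedBall c r ⊆ e.target → ∀ z ∈ ball c r,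
      (u ∘ e.symm) =ᶠ[𝓝 z] W e c r := fun e he c r hc z hz =>
    eventually_of_mem (isOpen_ball.mem_nhds hz) fun y hy => hu e he c r hc y hy
  have hevc : ∀ e ∈ M.C, ∀ (c : E n) (r : ℝ), closedBall c r ⊆ e.target → ∀ z ∈ ball c r,
      M.lc u e =ᶠ[𝓝 z] fun y => (W e c r y : ℂ) := fun e he c r hc z hz =>
    eventually_of_mem (isOpen_ball.mem_nhds hz) fun y hy =>
      congrArg (fun t : ℝ => (t : ℂ)) (hu e he c r hc y hy)
  refine ⟨u, ?_, ?_, ?_⟩
  · intro e he z hz
    obtain ⟨r, hr, hc⟩ := exBall e.open_target hz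
    have h1 := ((hW e z r he hc).2.c1).contDiffAt (isOpen_ball.mem_nhds (mem_ball_self hr))
    exact_mod_cast h1.congr_of_eventuallyEq (hev e he z r hc z (mem_ball_self hr))
  · intro e he c r hc k
    refine ⟨fun l => ?_, fun ψ hψ l => ?_⟩
    · haveI : IsFiniteMeasure ((volume : Measure (E n)).restrict (ball c r)) :=
        ⟨by rw [Measure.restrict_apply_univ]; exact measure_ball_lt_top⟩
      exact ((hL e he c r hc).mg l k).integrable (by exact_mod_cast Nat.le_add_left 1 (2 * n))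
    · rw [← (hW e c r he hc).2.wk k ψ hψ l]
      refine setIntegral_congr_fun measurableSet_ball fun z hz => ?_
      show _ * _ = _ * _
      rw [dz_congr (hevc e he c r hc z hz)]
  · intro m hf
    have key : ∀ e ∈ M.C, ∀ z ∈ e.target, ContDiffAt ℝ (m + 2 : ℕ) (u ∘ e.symm) z ∧
        M.hs u e z = (fs M f A - θ) e z := by
      intro e he z hz
      obtain ⟨r, hr, hc⟩ := exBall e.open_target hz
      have hb := mem_ball_self (x := z) hr
      obtain ⟨h1, h2⟩ := (hW e z r he hc).2.ck m fun l k y hy =>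
        (cdEntry hap.hθ hap.hA hf he (hc (ball_subset_closedBall hy)) l k).contDiffWithinAt
      refine ⟨(h1.contDiffAt (isOpen_ball.mem_nhds hb)).congr_of_eventuallyEq
        (hev e he z r hc z hb), ?_⟩
      rw [← h2 z hb]
      exact hess_congr (hevc e he z r hc z hb)
    exact ⟨fun e he z hz => (key e he z hz).1, fun e he z hz => (key e he z hz).2⟩

end Pool.Agent.Lib.F4.LD
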