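import Pool.Agent.Lib.K3E.Defs

/-! Project f4: holomorphic tensors with values in the powers of the canonical bundle, removable
zero sets, the data of the algebraic step. -/

open scoped Classical Topology ContDiff ComplexOrder Matrix
open Set Filter

set_option linter.unusedVariables false

noncomputable section

namespace Pool.Agent.Lib.F4

open Pool.Agent.Lib.SV (E)
open Pool.Agent.Lib.HS32 Pool.Agent.Lib.HLK

/-! ### Pointwise algebra -/

/-- The exterior product of two vectors. -/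
def wg {n : ℕ} (u v : E n) : Mat n := Matrix.of fun i j => u i * v j - v i * u j

/-- The star of a skew matrix. -/
def st (S : Mat 4) : Mat 4 :=
  !![0, S 2 3, -S 1 3, S 1 2; -S 2 3, 0, S 0 3, -S 0 2; S 1 3, -S 0 3, 0, S 0 1;
    -S 1 2, S 0 2, -S 0 1, 0]

/-- The Pfaffian. -/
def pf (S : Mat 4) : ℂ := S 0 1 * S 2 3 - S 0 2 * S 1 3 + S 0 3 * S 1 2

/-- The exterior derivative of a holomorphic form of degree one. -/
def d1 {n : ℕ} (α : E n → E n) (z : E n) : Mat n :=
  Matrix.of fun i j => dz i (fun w => α w j) z - dz j (fun w => α w i) z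

/-- The product of a form of degree one and a form of degree two is zero. -/
def W3 {n : ℕ} (a : E n) (S : Mat n) : Prop :=
  ∀ i j k, a i * S j k + a j * S k i + a k * S i j = 0

/-- The set `Z` is removable for the holomorphic functions on the open subsets of `O`. -/
def Rm {n : ℕ} (O Z : Set (E n)) : Prop := ∀ (U : Set (E n)) (h : E n → ℂ), IsOpen U → U ⊆ O →
  DifferentiableOn ℂ h (U \ Z) → ∃ g, DifferentiableOn ℂ g U ∧ EqOn g h (U \ Z)

/-! ### Tensors -/

variable {n : ℕ} (M : Mf n)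

/-- The Jacobian determinant. -/
abbrev jd (e e' : M.Ch) (x : M.X) : ℂ := (M.J e e' x).det

/-- The family is zero. -/
def Zr {F : Type} [Zero F] (u : M.Fam F) : Prop := M.All fun e z => u e z = 0

/-- The zero set is nowhere dense. -/
def Den {F : Type} [Zero F] (u : M.Fam F) : Prop := M.All fun e z => ∃ᶠ w in 𝓝 z, u e w ≠ 0

/-- The zero set is removable. -/
def Rem {F : Type} [Zero F] (u : M.Fam F) : Prop := ∀ e ∈ M.C, Rm e.target {z | u e z = 0}

/-- The entries are holomorphic. -/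
def HolM (S : M.Fam (Mat n)) : Prop := M.All fun e z => ∀ i j, HolN (fun w => S e w i j) z

/-- Holomorphic sections of `a K`. -/
structure H0 (a : ℤ) (s : M.Fam ℂ) : Prop where
  hol : M.All fun e z => HolN (s e) z
  cmp : M.Ov fun e e' x => s e' (e' x) = jd M e e' x ^ a * s e (e x)

/-- Holomorphic forms of degree one with values in `a K`. -/
structure H1 (a : ℤ) (α : M.Fam (E n)) : Prop where
  hol : Hol α
  cmp : M.Ov fun e e' x => α e' (e' x) = jd M e e' x ^ a • (α e (e x) ᵥ* M.J e e' x)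

/-- Holomorphic vector fields with values in `a K`. -/
structure HT (a : ℤ) (V : M.Fam (E n)) : Prop where
  hol : Hol V
  cmp : M.Ov fun e e' x => M.J e e' x *ᵥ V e' (e' x) = jd M e e' x ^ a • V e (e x)

/-- Holomorphic forms of degree two with values in `a K`. -/
structure H2 (a : ℤ) (S : M.Fam (Mat n)) : Prop where
  hol : HolM M S
  alt : M.All fun e z => (S e z)ᵀ = -S e z
  cmp : M.Ov fun e e' x =>
    S e' (e' x) = jd M e e' x ^ a • ((M.J e e' x)ᵀ * S e (e x) * M.J e e' x)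

/-- Holomorphic bivectors with values in `a K`. -/
structure HB (a : ℤ) (P : M.Fam (Mat n)) : Prop where
  hol : HolM M P
  alt : M.All fun e z => (P e z)ᵀ = -P e z
  cmp : M.Ov fun e e' x =>
    M.J e e' x * P e' (e' x) * (M.J e e' x)ᵀ = jd M e e' x ^ a • P e (e x)

/-- The hypotheses of the algebraic step. -/
structure Hyp : Prop where
  z0 : ∀ a ≠ 0, ∀ s, H0 M a s → Zr M s
  q0 : ∀ ρ, H1 M 0 ρ → Zr M ρ
  rT : ∀ V, HT M 1 V → ¬Zr M V → Rem M V
  r1 : ∀ α, H1 M 1 α → ¬Zr M α → Rem M α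
  r2 : ∀ S, H2 M 0 S ∨ H2 M 1 S → ¬Zr M S → Rem M S

/-- Two independent families. -/
def Ind (V W : M.Fam (E n)) : Prop :=
  ∀ s t : ℂ, (M.All fun e z => s • V e z + t • W e z = 0) → s = 0 ∧ t = 0

/-- The flag: `P` is the bivector of the form `S` of rank two, `V` lies in its kernel, and `α` is
the contraction of `S` with `W`. -/
structure Flag (M : Mf 4) (S P : M.Fam (Mat 4)) (V W α : M.Fam (E 4)) : Prop where
  hyp : Hyp M
  hS : H2 M 0 S
  hP : HB M 1 P
  hV : HT M 1 V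
  hW : HT M 1 W
  hα : H1 M 1 α
  eP : ∀ e z, P e z = st (S e z)
  eα : ∀ e z, α e z = W e z ᵥ* S e z
  pf0 : M.All fun e z => pf (S e z) = 0
  kV : M.All fun e z => V e z ᵥ* S e z = 0
  nα : ¬Zr M α
  nVW : ¬Zr M fun e z => wg (V e z) (W e z)

/-- The output of the algebraic step. -/
structure Data (M : Mf 4) (S P : M.Fam (Mat 4)) (V W α : M.Fam (E 4)) : Prop
    extends Flag M S P V W α where
  aV : M.All fun e z => α e z ⬝ᵥ V e z = 0
  aW : M.All fun e z => α e z ⬝ᵥ W e z = 0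
  aP : M.All fun e z => P e z *ᵥ α e z = 0
  den : Den M α
  rem : Rem M α
  int : M.All fun e z => W3 (α e z) (d1 (α e) z)
  loc : ∀ e ∈ M.C, ∀ (U : Set (E 4)) (β : E 4 → E 4), IsOpen U → U ⊆ e.target →
    DifferentiableOn ℂ β U → (∀ z ∈ U, wg (β z) (α e z) = 0) →
    ∃ b : E 4 → ℂ, DifferentiableOn ℂ b U ∧ ∀ z ∈ U, β z = b z • α e z
  z1 : ∀ a, a ≠ -1 → a ≠ 1 → ∀ ρ, H1 M a ρ → Zr M ρ
  zT : ∀ a, a ≠ -1 → a ≠ 0 → a ≠ 1 → ∀ Y, HT M a Y → Zr M Y
  z2 : ∀ a, a ≠ -2 → a ≠ 0 → a ≠ 1 → ∀ T, H2 M a T → Zr M T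
  zL : ∀ (H : M.Fam (Mat 4)) (Y : M.Fam (Fs 4 → ℂ)), (K3E.lk H 3).Sec Y → Hol Y → ¬Nz Y

end Pool.Agent.Lib.F4
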