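import Pool.Agent.Lib.SV.Ext85

/-! Project f4, common divisors: removable sets. -/

open scoped Topology ENNReal Classical
open Set Filter Metric MeasureTheory

noncomputable section

namespace Pool.Agent.Lib.F4.G72

open Pool.Agent.Lib.SV

variable {F : Type} [NormedAddCommGroup F] [NormedSpace ℂ F]

/-- The set `Z` is removable for holomorphic functions on the open subsets of `O`. -/
def Rm (O Z : Set F) : Prop := ∀ (U : Set F) (h : F → ℂ), IsOpen U → U ⊆ O →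
  DifferentiableOn ℂ h (U \ Z) → ∃ g : F → ℂ, DifferentiableOn ℂ g U ∧ EqOn g h (U \ Z)

/-- Equality passes to the limit. -/
theorem eq_fr {Y : Type} [TopologicalSpace Y] {f g : Y → ℂ} {x : Y} (hf : ContinuousAt f x)
    (hg : ContinuousAt g x) (h : ∃ᶠ y in 𝓝 x, f y = g y) : f x = g x :=
  tendsto_nhds_unique_of_frequently_eq hf hg h

/-- Local extensions glue. -/
theorem glue {U Z : Set F} {h : F → ℂ} (hU : IsOpen U) (hZ : ∀ x ∈ U, ∃ᶠ y in 𝓝 x, y ∉ Z)
    (hl : ∀ x ∈ U, ∃ G : F → ℂ, ∀ᶠ y in 𝓝 x, DifferentiableAt ℂ G y ∧ (y ∉ Z → G y = h y)) :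
    ∃ g : F → ℂ, DifferentiableOn ℂ g U ∧ EqOn g h (U \ Z) := by
  refine ⟨fun y => if y ∈ Z then limUnder (𝓝[Zᶜ] y) h else h y, fun x hx => ?_,
    fun w hw => if_neg hw.2⟩
  obtain ⟨G, hG⟩ := hl x hx
  refine (hG.self_of_nhds.1.congr_of_eventuallyEq ?_).differentiableWithinAt
  filter_upwards [hG.eventually_nhds, hU.mem_nhds hx] with y hy hyO
  by_cases hz : y ∈ Z
  · rw [if_pos hz]
    have : (𝓝[Zᶜ] y).NeBot :=
      mem_closure_iff_nhdsWithin_neBot.1 (mem_closure_iff_frequently.2 (hZ y hyO))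
    refine Tendsto.limUnder_eq ?_
    refine (hy.self_of_nhds.1.continuousAt.tendsto.mono_left nhdsWithin_le_nhds).congr' ?_
    filter_upwards [eventually_nhdsWithin_of_eventually_nhds hy, self_mem_nhdsWithin] with z h1 h2
    exact h1.2 h2
  · rw [if_neg hz]
    exact (hy.self_of_nhds.2 hz).symm

/-- Removability is local. -/
theorem rm_loc {O Z : Set F} (hZ : ∀ x ∈ O, ∃ᶠ y in 𝓝 x, y ∉ Z)
    (hl : ∀ x ∈ O, ∃ V Z' : Set F, IsOpen V ∧ x ∈ V ∧ Rm V Z' ∧ ∀ y ∈ V, y ∈ Z ↔ y ∈ Z') :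
    Rm O Z := fun U h hU hO hh => by
  refine glue hU (fun x hx => hZ x (hO hx)) fun x hx => ?_
  obtain ⟨V, Z', oV, xV, hR, e⟩ := hl x (hO hx)
  obtain ⟨g, g1, g2⟩ := hR (U ∩ V) h (hU.inter oV) inter_subset_right
    (hh.mono fun y hy => ⟨hy.1.1, fun k => hy.2 ((e y hy.1.2).1 k)⟩)
  refine ⟨g, ?_⟩
  filter_upwards [(hU.inter oV).mem_nhds ⟨hx, xV⟩] with y hy
  exact ⟨g1.differentiableAt ((hU.inter oV).mem_nhds hy),
    fun k => g2 ⟨hy, fun k' => k ((e y hy.2).2 k')⟩⟩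

theorem rm_empty (O : Set F) : Rm O ∅ := fun U h _ _ hh =>
  ⟨h, by simpa using hh, fun _ _ => rfl⟩

/-- Transport by a linear isomorphism. -/
theorem Rm.comp {F' : Type} [NormedAddCommGroup F'] [NormedSpace ℂ F'] (e : F ≃L[ℂ] F')
    {O Z : Set F'} (h : Rm O Z) : Rm (e ⁻¹' O) (e ⁻¹' Z) := fun U k hU hO hk => by
  obtain ⟨g, g1, g2⟩ := h (e.symm ⁻¹' U) (k ∘ e.symm) (hU.preimage e.symm.continuous)
    (fun y hy => by simpa using hO hy)
    (hk.comp e.symm.differentiableOn fun y hy => ⟨hy.1, by simpa using hy.2⟩)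
  refine ⟨g ∘ e, g1.comp e.differentiableOn fun y hy => by simpa using hy, fun y hy => ?_⟩
  have := g2 (x := e y) ⟨by simpa using hy.1, hy.2⟩
  simpa using this

variable [FiniteDimensional ℂ F]

/-- Bounded holomorphic functions extend. -/
theorem rie {f j : F → ℂ} {O : Set F} (hO : IsOpen O) (hj : DifferentiableOn ℂ j O)
    (h0 : ∀ x ∈ O, ∃ᶠ y in 𝓝 x, j y ≠ 0) (hf : DifferentiableOn ℂ f {w | w ∈ O ∧ j w ≠ 0})
    (hb : ∀ x ∈ O, ∃ C, ∀ᶠ y in 𝓝 x, j y ≠ 0 → ‖f y‖ ≤ C) :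
    ∃ g : F → ℂ, DifferentiableOn ℂ g O ∧ ∀ w ∈ O, j w ≠ 0 → g w = f w := by
  borelize F
  have : ProperSpace F := FiniteDimensional.proper ℂ F
  refine H85.ext_sq Measure.addHaar hO hj (fun x hx => not_eventually.2 (h0 x hx)) hf
    fun x hx => ?_
  obtain ⟨C, hC⟩ := hb x hx
  obtain ⟨V, hV, oV, xV⟩ := _root_.eventually_nhds_iff.1
    (hC.and ((isOpen_ball.eventually_mem (mem_ball_self (x := x) one_pos)).and
      (hO.eventually_mem hx)))
  refine ⟨V, oV.mem_nhds xV, ?_⟩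
  have o : IsOpen {w | w ∈ V ∧ j w ≠ 0} :=
    (hj.continuousOn.mono fun y hy => (hV y hy).2.2).isOpen_inter_preimage oV
      isOpen_compl_singleton
  refine ne_top_of_le_ne_top ?_ (setLIntegral_mono' o.measurableSet (g := fun _ =>
    ENNReal.ofReal (C ^ 2)) fun y hy => ENNReal.ofReal_le_ofReal
      (pow_le_pow_left₀ (norm_nonneg _) ((hV y hy.1).1 hy.2) 2))
  rw [setLIntegral_const]
  exact ENNReal.mul_ne_top ENNReal.ofReal_ne_top (ne_top_of_le_ne_top measure_ball_lt_top.ne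
    (measure_mono fun y hy => (hV y hy.1).2.1))

/-- A closed set with finite slices, a dense set of which are empty, is removable. -/
theorem har {O Z : Set (ℂ × F)} (hc : IsOpen (O \ Z)) (hf : ∀ z, {w | (w, z) ∈ O ∩ Z}.Finite)
    (hd : ∀ x ∈ O, ∃ᶠ z in 𝓝 x.2, ∀ w, (w, z) ∉ O ∩ Z) : Rm O Z := fun U h hU hO hh => by
  have fr : ∀ x ∈ O, ∃ᶠ y in 𝓝 x, ∀ w, (w, y.2) ∉ O ∩ Z := fun x hx => by
    have := hd x hx
    rw [← map_snd_nhds, frequently_map] at this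
    exact this
  refine glue hU (fun x hx => ((fr x (hO hx)).and_eventually (hU.mem_nhds hx)).mono
    fun y hy k => hy.1 y.1 ⟨hO hy.2, k⟩) fun x hx => ?_
  have oZ : IsOpen (U \ Z) := by
    have : U \ Z = U ∩ (O \ Z) :=
      Subset.antisymm (fun y hy => ⟨hy.1, hO hy.1, hy.2⟩) fun y hy => ⟨hy.1, hy.2.2⟩
    rw [this]
    exact hU.inter hc
  have c1 : Continuous fun w : ℂ => (w, x.2) := by fun_prop
  obtain ⟨ε, e0, he⟩ := Metric.eventually_nhds_iff_ball.1 ((eventually_nhdsWithin_iff.1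
    (nhdsNE_le_cofinite x.1 (hf x.2).compl_mem_cofinite)).and
      ((hU.preimage c1).mem_nhds (show x.1 ∈ _ from hx)))
  set v : ℂ × F := (((ε / 2 : ℝ) : ℂ), 0) with hv
  have ev : ∀ (y : ℂ × F) (t : ℂ), y + t • v = (y.1 + t * ((ε / 2 : ℝ) : ℂ), y.2) := fun y t => by
    ext <;> simp [hv]
  have mb : ∀ t ∈ closedBall (0 : ℂ) 1, x.1 + t * ((ε / 2 : ℝ) : ℂ) ∈ ball x.1 ε := fun t ht => by
    rw [mem_ball, dist_self_add_left, norm_mul, Complex.norm_real, Real.norm_of_nonneg (by positivity)]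
    have := mem_closedBall_zero_iff.1 ht
    nlinarith
  have cv : ∀ t : ℂ, Tendsto (fun y : (ℂ × F) × ℂ => y.1 + y.2 • v) (𝓝 (x, t)) (𝓝 (x + t • v)) :=
    fun t => Continuous.tendsto (by fun_prop) _
  have t1 : ∀ᶠ y in 𝓝 x, ∀ t ∈ closedBall (0 : ℂ) 1, y + t • v ∈ U :=
    (isCompact_closedBall _ _).eventually_forall_of_forall_eventually fun t ht =>
      (cv t).eventually (hU.mem_nhds (by rw [ev]; exact (he _ (mb t ht)).2))
  have t2 : ∀ᶠ y in 𝓝 x, ∀ t ∈ sphere (0 : ℂ) 1, y + t • v ∈ U \ Z :=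
    (isCompact_sphere _ _).eventually_forall_of_forall_eventually fun t ht =>
      (cv t).eventually (oZ.mem_nhds (by
        rw [ev]
        have k := he _ (mb t (sphere_subset_closedBall ht))
        refine ⟨k.2, fun hz => k.1 ?_ ⟨hO k.2, hz⟩⟩
        have t0 : t ≠ 0 := ne_of_mem_sphere ht one_ne_zero
        simp [t0, e0.ne']))
  refine ⟨fun y => Real.circleAverage (fun t => h (y + t • v)) 0 1, ?_⟩
  filter_upwards [t1.eventually_nhds, t2, hU.mem_nhds hx] with y y1 y2 y3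
  have dG := H85.differentiableAt_circleAverage oZ hh y2
  refine ⟨dG, fun hz => eq_fr dG.continuousAt
    (hh.continuousOn.continuousAt (oZ.mem_nhds ⟨y3, hz⟩)) ?_⟩
  refine ((fr y (hO y3)).and_eventually y1).mono fun z hz' => ?_
  have : DiffContOnCl ℂ (fun t : ℂ => h (z + t • v)) (ball 0 |1|) := by
    refine DifferentiableOn.diffContOnCl ?_
    rw [abs_one, closure_ball _ one_ne_zero]
    refine hh.comp (by fun_prop) fun t ht => ⟨hz'.2 t ht, fun k => ?_⟩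
    have k' := hO (hz'.2 t ht)
    rw [ev] at k k'
    exact hz'.1 _ ⟨k', k⟩
  simpa using this.circleAverage

end Pool.Agent.Lib.F4.G72
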