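import Pool.Agent.Lib.F4.G72a
import Pool.Agent.Lib.LJ84.B_PAR

/-! Project f4, common divisors: polynomials with holomorphic coefficients and division. -/

open scoped Topology Classical
open Set Filter Metric Polynomial

noncomputable section

namespace Pool.Agent.Lib.F4.G72

variable {F : Type} [NormedAddCommGroup F] [NormedSpace ℂ F] {B : Set F} {k m : ℕ}
  {R S G : F → ℂ[X]}

/-- Polynomials of degree less than `k` with holomorphic coefficients. -/
def HP (B : Set F) (k : ℕ) (R : F → ℂ[X]) : Prop :=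
  (∀ i, DifferentiableOn ℂ (fun z => (R z).coeff i) B) ∧ ∀ z ∈ B, ∀ i, k ≤ i → (R z).coeff i = 0

theorem HP.deg (h : HP B (k + 1) R) {z : F} (hz : z ∈ B) : (R z).natDegree ≤ k :=
  natDegree_le_iff_coeff_eq_zero.2 fun i hi => h.2 z hz i hi

theorem HP.mono (h : HP B k R) (hk : k ≤ m) : HP B m R :=
  ⟨h.1, fun z hz i hi => h.2 z hz i (hk.trans hi)⟩

theorem HP.sum (h : HP B (k + 1) R) {z : F} (hz : z ∈ B) (w : ℂ) :
    (R z).eval w = ∑ i ∈ Finset.range (k + 1), (R z).coeff i * w ^ i :=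
  eval_eq_sum_range' (Nat.lt_succ_of_le (h.deg hz)) w

theorem dsnd {f : F → ℂ} (hf : DifferentiableOn ℂ f B) :
    DifferentiableOn ℂ (fun y : ℂ × F => f y.2) {y | y.2 ∈ B} :=
  hf.comp differentiableOn_snd fun _ hy => hy

theorem HP.ev (h : HP B k R) :
    DifferentiableOn ℂ (fun y : ℂ × F => (R y.2).eval y.1) {y | y.2 ∈ B} :=
  (DifferentiableOn.fun_sum (u := Finset.range (k + 1)) fun i _ =>
    (dsnd (h.1 i)).mul (differentiableOn_fst.pow i)).congr
      fun y hy => (h.mono k.le_succ).sum hy y.1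

theorem HP.cmul (h : HP B k R) {f : F → ℂ} (hf : DifferentiableOn ℂ f B) :
    HP B k fun z => C (f z) * R z :=
  ⟨fun i => (hf.mul (h.1 i)).congr fun z _ => coeff_C_mul _,
    fun z hz i hi => by simp only [coeff_C_mul, h.2 z hz i hi, mul_zero]⟩

/-- Cancellation of the leading terms. -/
theorem HP.step (hS : HP B (k + 1) S) (hR : HP B (m + 1) R) (hk : m ≤ k) :
    HP B k fun z => C ((R z).coeff m) * S z - C ((S z).coeff k) * (X ^ (k - m) * R z) := by
  refine ⟨fun i => ?_, fun z hz i hi => ?_⟩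
  · simp only [coeff_sub, coeff_C_mul, coeff_X_pow_mul']
    refine ((hR.1 m).mul (hS.1 i)).sub ((hS.1 k).mul ?_)
    split_ifs
    exacts [hR.1 _, differentiableOn_const _]
  · simp only [coeff_sub, coeff_C_mul, coeff_X_pow_mul']
    rw [if_pos (by omega)]
    rcases hi.eq_or_lt with rfl | hi
    · rw [show k - (k - m) = m by omega]; ring
    · rw [hS.2 z hz i hi, hR.2 z hz (i - (k - m)) (by omega)]; ring

theorem fr_ne {p : ℂ[X]} (hp : p ≠ 0) (w : ℂ) : ∃ᶠ t in 𝓝 w, p.eval t ≠ 0 :=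
  (Eventually.frequently (nhdsNE_le_cofinite w
    (finite_setOfPred_isRoot hp).compl_mem_cofinite)).filter_mono nhdsWithin_le_nhds

omit [NormedSpace ℂ F] in
theorem fr_ne2 {y : ℂ × F} (hp : R y.2 ≠ 0) : ∃ᶠ t in 𝓝 y, (R t.2).eval t.1 ≠ 0 :=
  (Continuous.tendsto (f := fun w : ℂ => (w, y.2)) (by fun_prop) y.1).frequently (fr_ne hp y.1)

variable [FiniteDimensional ℂ F]

/-- Division with remainder. -/
theorem wdiv {O : Set (ℂ × F)} {a : ℂ} {r : ℝ} {h : ℂ × F → ℂ} (hO : IsOpen O) (hB : IsOpen B)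
    (hr : 0 < r) (sub : closedBall a r ×ˢ B ⊆ O) (hh : DifferentiableOn ℂ h O)
    (hG : HP B (m + 1) G) (h0 : ∀ z ∈ B, ∀ ζ ∈ sphere a r, (G z).eval ζ ≠ 0) :
    ∃ (q : ℂ × F → ℂ) (ρ : F → ℂ[X]), DifferentiableOn ℂ q (ball a r ×ˢ B) ∧ HP B m ρ ∧
      ∀ y ∈ ball a r ×ˢ B, h y = (G y.2).eval y.1 * q y + (ρ y.2).eval y.1 := by
  set Ω : Set (ℂ × F) := O ∩ ({y | y.2 ∈ B} ∩ (fun y => (G y.2).eval y.1) ⁻¹' {0}ᶜ) with hΩ
  have oΩ : IsOpen Ω := hO.inter (hG.ev.continuousOn.isOpen_inter_preimage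
    (hB.preimage continuous_snd) isOpen_compl_singleton)
  have sΩ : sphere a r ×ˢ B ⊆ Ω := fun y hy =>
    ⟨sub ⟨sphere_subset_closedBall hy.1, hy.2⟩, hy.2, h0 _ hy.2 _ hy.1⟩
  set κ : ℂ × F → ℂ := fun y => h y * ((G y.2).eval y.1)⁻¹ with hκ
  have dκ : DifferentiableOn ℂ κ Ω := (hh.mono inter_subset_left).mul
    ((hG.ev.mono fun y hy => hy.2.1).inv fun y hy => hy.2.2)
  set c : ℂ := (2 * Real.pi * Complex.I)⁻¹ with hc
  set J : ℕ → F → ℂ := fun i z => c * ∮ ζ in C(a, r), ζ ^ i * κ (ζ, z) with hJ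
  have dJ : ∀ i, DifferentiableOn ℂ (J i) B := fun i =>
    (LJ84.bPAR F (fun y => y.1 ^ i * κ y) Ω B a r oΩ hB hr sΩ
      ((differentiableOn_fst.pow i).mul dκ)).const_mul c
  have cπ : Differentiable ℂ fun x : ℂ × ℂ × F => (x.1, x.2.2) := by fun_prop
  refine ⟨fun y => c * ∮ ζ in C(a, r), (ζ - y.1)⁻¹ * κ (ζ, y.2), fun z =>
    ∑ j ∈ Finset.range (m + 1), ∑ i ∈ Finset.range j,
      monomial (j - 1 - i) ((G z).coeff j * J i z), ?_, ⟨fun l => ?_, fun z hz l hl => ?_⟩,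
    fun y hy => ?_⟩
  · refine (LJ84.bPAR (ℂ × F) (fun x => (x.1 - x.2.1)⁻¹ * κ (x.1, x.2.2))
      ((fun x => (x.1, x.2.2)) ⁻¹' Ω ∩ {x | x.1 - x.2.1 ≠ 0}) _ a r
      ((oΩ.preimage cπ.continuous).inter (isOpen_ne_fun (by fun_prop) continuous_const))
      (isOpen_ball.prod hB) hr (fun x hx => ⟨sΩ ⟨hx.1, hx.2.2⟩, fun e => ?_⟩)
      ((DifferentiableOn.inv (by fun_prop) fun x hx => hx.2).mul
        (dκ.comp cπ.differentiableOn fun x hx => hx.1))).const_mul c
    have h1 := mem_ball.1 hx.2.1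
    rw [← sub_eq_zero.1 e, mem_sphere.1 hx.1] at h1
    exact lt_irrefl _ h1
  · simp only [finsetSum_coeff, coeff_monomial]
    refine DifferentiableOn.fun_sum fun j _ => DifferentiableOn.fun_sum fun i _ => ?_
    split_ifs
    exacts [(hG.1 j).mul (dJ i), differentiableOn_const _]
  · simp only [finsetSum_coeff, coeff_monomial]
    refine Finset.sum_eq_zero fun j hj => Finset.sum_eq_zero fun i hi => if_neg ?_
    have := Finset.mem_range.1 hj
    have := Finset.mem_range.1 hi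
    omega
  obtain ⟨w, z⟩ := y
  have sl : Differentiable ℂ fun ζ : ℂ => (ζ, z) := by fun_prop
  have ne : ∀ ζ ∈ sphere a r, ζ - w ≠ 0 := fun ζ hζ e => by
    have h1 := mem_ball.1 hy.1
    rw [← sub_eq_zero.1 e, mem_sphere.1 hζ] at h1
    exact lt_irrefl _ h1
  have cκ : ContinuousOn (fun ζ => κ (ζ, z)) (sphere a r) :=
    dκ.continuousOn.comp sl.continuous.continuousOn fun ζ hζ => sΩ ⟨hζ, hy.2⟩
  have i1 : CircleIntegrable (fun ζ => (G z).eval w * ((ζ - w)⁻¹ * κ (ζ, z))) a r :=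
    ContinuousOn.circleIntegrable hr.le (continuousOn_const.mul
      ((ContinuousOn.inv₀ (by fun_prop) ne).mul cκ))
  have i2 : ∀ j i : ℕ, ContinuousOn
      (fun ζ => (G z).coeff j * w ^ (j - 1 - i) * (ζ ^ i * κ (ζ, z))) (sphere a r) := fun j i =>
    continuousOn_const.mul ((continuousOn_pow i).mul cκ)
  have cau := DifferentiableOn.circleIntegral_sub_inv_smul (f := fun ζ => h (ζ, z))
    (hh.comp sl.differentiableOn fun ζ hζ => sub ⟨hζ, hy.2⟩) hy.1
  have e : (∮ ζ in C(a, r), (ζ - w)⁻¹ • h (ζ, z)) = ∮ ζ in C(a, r),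
      ((G z).eval w * ((ζ - w)⁻¹ * κ (ζ, z)) + ∑ j ∈ Finset.range (m + 1), ∑ i ∈ Finset.range j,
        (G z).coeff j * w ^ (j - 1 - i) * (ζ ^ i * κ (ζ, z))) := by
    refine circleIntegral.integral_congr hr.le fun ζ hζ => ?_
    have g0 := h0 z hy.2 ζ hζ
    have e1 : (∑ j ∈ Finset.range (m + 1), ∑ i ∈ Finset.range j,
        (G z).coeff j * w ^ (j - 1 - i) * ζ ^ i) * (ζ - w) = (G z).eval ζ - (G z).eval w := by
      rw [hG.sum hy.2, hG.sum hy.2, ← Finset.sum_sub_distrib, Finset.sum_mul]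
      refine Finset.sum_congr rfl fun j _ => ?_
      rw [← mul_sub, ← geom_sum₂_mul, ← mul_assoc, Finset.mul_sum]
      exact congrArg (· * _) (Finset.sum_congr rfl fun i _ => by ring)
    simp only [← mul_assoc, ← Finset.sum_mul, smul_eq_mul]
    rw [(eq_mul_inv_iff_mul_eq₀ (ne ζ hζ)).2 e1]
    simp only [hκ]
    field_simp
    ring
  rw [circleIntegral.integral_add i1 (ContinuousOn.circleIntegrable hr.le
    (continuousOn_finsetSum _ fun j _ => continuousOn_finsetSum _ fun i _ => i2 j i)),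
    circleIntegral.integral_fun_sum fun j _ => ContinuousOn.circleIntegrable hr.le
      (continuousOn_finsetSum _ fun i _ => i2 j i), cau, circleIntegral.integral_const_mul,
    Finset.sum_congr rfl fun j _ => circleIntegral.integral_fun_sum fun i _ =>
      ContinuousOn.circleIntegrable hr.le (i2 j i)] at e
  simp only [circleIntegral.integral_const_mul, smul_eq_mul] at e
  have e2 : h (w, z) = c * (2 * Real.pi * Complex.I * h (w, z)) :=
    (inv_mul_cancel_left₀ Complex.two_pi_I_ne_zero _).symm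
  rw [e2, e, mul_add, Finset.mul_sum]
  simp only [eval_finsetSum, eval_monomial, hJ, Finset.mul_sum]
  exact congrArg₂ (· + ·) (by ring)
    (Finset.sum_congr rfl fun j _ => Finset.sum_congr rfl fun i _ => by ring)

end Pool.Agent.Lib.F4.G72
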