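import Pool.Agent.Lib.F4.G72b
import Pool.Agent.Lib.LJ84.Final

/-! Project f4, common divisors: the local common divisor. -/

open scoped Topology Classical
open Set Filter Metric Polynomial

noncomputable section

namespace Pool.Agent.Lib.F4.G72

open Pool.Agent.Lib.SV

variable {F W : Type} [NormedAddCommGroup F] [NormedSpace ℂ F] [NormedAddCommGroup W]
  [NormedSpace ℂ W] {B : Set F} {D : Set (ℂ × F)} {u : ℂ × F → W} {k m : ℕ} {R S P : F → ℂ[X]}

/-- The polynomial lies in the ideal of the components of `u`. -/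
def In (D : Set (ℂ × F)) (u : ℂ × F → W) (R : F → ℂ[X]) : Prop :=
  ∃ a : ℂ × F → W →L[ℂ] ℂ, DifferentiableOn ℂ a D ∧ ∀ y ∈ D, (R y.2).eval y.1 = a y (u y)

theorem mn (hP : HP B k P) (iP : In D u P) (h0 : ∃ z ∈ B, P z ≠ 0) :
    ∃ (m : ℕ) (R : F → ℂ[X]), HP B (m + 1) R ∧ In D u R ∧ (∃ z ∈ B, (R z).coeff m ≠ 0) ∧
      ∀ S, HP B m S → In D u S → ∀ z ∈ B, S z = 0 := by
  have ex : ∃ k, ∃ R, HP B k R ∧ In D u R ∧ ∃ z ∈ B, R z ≠ 0 := ⟨k, P, hP, iP, h0⟩
  obtain ⟨R, r1, r2, z, hz, r3⟩ := Nat.find_spec ex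
  have mi := fun j => Nat.find_min ex (m := j)
  generalize Nat.find ex = l at r1 mi
  rcases l with _ | m
  · exact (r3 (Polynomial.ext fun i => r1.2 z hz i (Nat.zero_le _))).elim
  have z0 : ∀ S, HP B m S → In D u S → ∀ z ∈ B, S z = 0 := fun S s1 s2 y hy => by
    by_contra s3
    exact mi m m.lt_succ_self ⟨S, s1, s2, y, hy, s3⟩
  refine ⟨m, R, r1, r2, ?_, z0⟩
  by_contra hc
  push Not at hc
  refine r3 (z0 R ⟨r1.1, fun y hy i hi => ?_⟩ r2 z hz)
  rcases hi.eq_or_lt with rfl | hi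
  exacts [hc y hy, r1.2 y hy i hi]

theorem dv (hD : D ⊆ {y | y.2 ∈ B}) (hR : HP B (m + 1) R) (iR : In D u R)
    (mi : ∀ S, HP B m S → In D u S → ∀ z ∈ B, S z = 0) {z : F} (hz : z ∈ B)
    (h0 : (R z).coeff m ≠ 0) (k : ℕ) : ∀ S, HP B k S → In D u S → R z ∣ S z := by
  induction k with
  | zero => exact fun S s1 s2 => mi S (s1.mono (Nat.zero_le _)) s2 z hz ▸ dvd_zero _
  | succ k ih =>
    intro S s1 s2
    rcases lt_or_ge k m with hk | hk
    · exact mi S (s1.mono hk) s2 z hz ▸ dvd_zero _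
    obtain ⟨a, a1, a2⟩ := iR
    obtain ⟨b, b1, b2⟩ := s2
    have := ih _ (s1.step hR hk) ⟨fun y => (R y.2).coeff m • b y -
      ((S y.2).coeff k * y.1 ^ (k - m)) • a y, (((dsnd (hR.1 m)).mono hD).smul b1).sub
        ((((dsnd (s1.1 k)).mono hD).mul (differentiableOn_fst.pow _)).smul a1), fun y hy => by
      simp only [eval_sub, eval_mul, eval_C, eval_pow, eval_X, a2 y hy, b2 y hy,
        _root_.sub_apply, _root_.smul_apply, smul_eq_mul]
      ring⟩
    exact (isUnit_C.2 h0.isUnit).dvd_mul_left.1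
      ((dvd_sub_left (((dvd_refl _).mul_left _).mul_left _)).1 this)

theorem bd {p q : ℂ[X]} {T : ℝ} {d : ℕ} (hp : p.Monic) (h : p ∣ q) (q0 : q ≠ 0)
    (hd : q.natDegree ≤ d) (hT : ∀ w, q.eval w = 0 → ‖w‖ ≤ T) (i : ℕ) :
    ‖p.coeff i‖ ≤ max T 1 ^ d * d.choose (d / 2) := by
  have := coeff_bdd_of_roots_le (RingHom.id ℂ) hp (IsAlgClosed.splits _)
    ((natDegree_le_of_dvd h q0).trans hd) (B := T) (fun z hz => hT z (by
      rw [Polynomial.map_id] at hz
      exact eval_eq_zero_of_dvd_of_eval_eq_zero h (isRoot_of_mem_roots hz))) i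
  rwa [Polynomial.map_id] at this

omit [NormedSpace ℂ F] in
theorem fr_snd {p : F → Prop} {y : ℂ × F} (h : ∃ᶠ z in 𝓝 y.2, p z) : ∃ᶠ t in 𝓝 y, p t.2 := by
  rw [← map_snd_nhds, frequently_map] at h
  exact h

variable [FiniteDimensional ℂ F] [FiniteDimensional ℂ W]

/-- The local statement. -/
def Lg (u : F → W) (O : Set F) (x : F) : Prop := ∃ (V : Set F) (f : F → ℂ) (t : F → W),
  IsOpen V ∧ x ∈ V ∧ V ⊆ O ∧ DifferentiableOn ℂ f V ∧ DifferentiableOn ℂ t V ∧
    (∀ y ∈ V, u y = f y • t y) ∧ Rm V {y | t y = 0}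

theorem lgp {O : Set (ℂ × F)} {p : ℂ × F} (τ : W →L[ℂ] ℂ) (hO : IsOpen O) (hp : p ∈ O)
    (hu : DifferentiableOn ℂ u O) (hn : ¬(fun w => τ (u (w, p.2))) =ᶠ[𝓝 p.1] 0) : Lg u O p := by
  have dl : ∀ l : W →L[ℂ] ℂ, DifferentiableOn ℂ (fun y => l (u y)) O := fun l =>
    l.differentiable.comp_differentiableOn hu
  obtain ⟨r, c, U, d, α, H⟩ := LJ84.bWP LJ84.bFAC LJ84.bPAR F (fun y => τ (u y)) O p hO hp (dl τ) hn
  obtain ⟨ε, e0, hε⟩ := Metric.isOpen_iff.1 H.opn _ H.mem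
  set B := ball p.2 ε with hB
  set D := ball p.1 r ×ˢ B with hD
  have oD : IsOpen D := isOpen_ball.prod isOpen_ball
  have sub : closedBall p.1 r ×ˢ B ⊆ O := (prod_mono_right hε).trans H.sub
  have DO : D ⊆ O := (prod_mono_left ball_subset_closedBall).trans sub
  have DB : D ⊆ {y | y.2 ∈ B} := fun y hy => hy.2
  have cD : ∀ {f : ℂ × F → ℂ}, DifferentiableOn ℂ f D → ∀ y ∈ D, ContinuousAt f y :=
    fun hf y hy => hf.continuousOn.continuousAt (oD.mem_nhds hy)
  have cB : ∀ {f : F → ℂ}, DifferentiableOn ℂ f B → ∀ y ∈ B, ContinuousAt f y :=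
    fun hf y hy => hf.continuousOn.continuousAt (isOpen_ball.mem_nhds hy)
  set P : F → ℂ[X] := fun z => ∏ b, (X + C (-α z b)) with hP
  have mP : ∀ z, (P z).Monic := fun z => monic_prod_of_monic _ _ fun b _ => monic_X_add_C _
  have nP : ∀ z, (P z).natDegree = d := fun z => by
    rw [hP, natDegree_prod_of_monic _ _ fun b _ => monic_X_add_C _]
    simp only [natDegree_X_add_C, Finset.sum_const, Finset.card_univ, Fintype.card_fin, smul_eq_mul,
      mul_one]
  have eP : ∀ z w, ‖(P z).eval w‖ = ∏ b, ‖w - α z b‖ := fun z w => by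
    simp only [hP, eval_prod, eval_add, eval_X, eval_C, norm_prod, sub_eq_add_neg]
  have rP : ∀ z ∈ B, ∀ w, (P z).eval w = 0 → w ∈ ball p.1 r := fun z hz w h => by
    have := eP z w
    rw [h, norm_zero, eq_comm, Finset.prod_eq_zero_iff] at this
    obtain ⟨b, -, hb⟩ := this
    rw [sub_eq_zero.1 (norm_eq_zero.1 hb)]
    exact (H.root z (hε hz) b).1
  have tP : ∀ z ∈ B, ∀ w, (P z).eval w = 0 → ‖w‖ ≤ ‖p.1‖ + r := fun z hz w h =>
    norm_le_norm_add_const_of_dist_le (mem_ball.1 (rP z hz w h)).le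
  have lP : ∀ y ∈ D, c * ‖(P y.2).eval y.1‖ ≤ ‖τ (u y)‖ := fun y hy => by
    rw [eP]
    exact H.low _ (hε hy.2) _ (ball_subset_closedBall hy.1)
  have zP : ∀ y ∈ D, τ (u y) = 0 → (P y.2).eval y.1 = 0 := fun y hy h => by
    have := lP y hy
    rw [h, norm_zero] at this
    exact norm_le_zero_iff.1 (nonpos_of_mul_nonpos_right this H.c0)
  have hpP : HP B (d + 1) P := by
    refine ⟨fun i => ?_, fun z _ i hi => coeff_eq_zero_of_natDegree_lt (by rw [nP]; exact hi)⟩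
    rcases le_or_gt i d with hi | hi
    · refine ((H.hol (fun y => -y.1) (by fun_prop) (d - i)).mono hε).congr fun z _ => ?_
      rw [hP, Finset.prod_X_add_C_coeff _ _ (by simpa using hi)]
      simp only [LJ84.es, Finset.card_univ, Fintype.card_fin]
    · exact (differentiableOn_const 0).congr fun z _ =>
        coeff_eq_zero_of_natDegree_lt (by rw [nP]; exact hi)
  obtain ⟨v, v1, v2⟩ := rie (f := fun y => (P y.2).eval y.1 * (τ (u y))⁻¹) oD ((dl τ).mono DO)
    (fun y hy => ((fr_ne2 (mP y.2).ne_zero).and_eventually (oD.mem_nhds hy)).mono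
      fun t ht h => ht.1 (zP t ht.2 h))
    ((hpP.ev.mono fun y hy => DB hy.1).mul (((dl τ).mono fun y hy => DO hy.1).inv fun y hy => hy.2))
    fun y hy => ⟨c⁻¹, (oD.eventually_mem hy).mono fun t ht h => by
      rw [norm_mul, norm_inv, mul_inv_le_iff₀ (norm_pos_iff.2 h), le_inv_mul_iff₀ H.c0]
      exact lP t ht⟩
  have iP : In D u P := ⟨fun y => v y • τ, v1.smul_const τ, fun y hy => by
    rw [_root_.smul_apply, smul_eq_mul]
    by_cases h : τ (u y) = 0
    · rw [zP y hy h, h, mul_zero]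
    · rw [v2 y hy h, inv_mul_cancel_right₀ h]⟩
  obtain ⟨m, R, r1, r2, ⟨z₁, hz₁, r3⟩, mi⟩ := mn hpP iP ⟨_, mem_ball_self e0, (mP _).ne_zero⟩
  have fδ : ∀ z ∈ B, ∃ᶠ t in 𝓝 z, (R t).coeff m ≠ 0 := fun z hz => not_eventually.1 fun h =>
    r3 (H85.eq_zero_of_convex isOpen_ball (convex_ball _ _) (r1.1 m) hz h hz₁)
  have mN : ∀ z ∈ B, (R z).coeff m ≠ 0 →
      (C ((R z).coeff m)⁻¹ * R z).Monic ∧ C ((R z).coeff m)⁻¹ * R z ∣ P z := fun z hz h =>
    ⟨monic_of_natDegree_le_of_coeff_eq_one m ((natDegree_C_mul_le _ _).trans (r1.deg hz))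
      (by rw [coeff_C_mul, inv_mul_cancel₀ h]),
      (isUnit_C.2 (inv_ne_zero h).isUnit).mul_left_dvd.2 (dv DB r1 r2 mi hz h _ P hpP iP)⟩
  set K : ℝ := max (‖p.1‖ + r) 1 ^ d * d.choose (d / 2) with hK
  have ec := fun i => rie (f := fun z => ((R z).coeff m)⁻¹ * (R z).coeff i) isOpen_ball (r1.1 m) fδ
    ((((r1.1 m).mono fun y hy => hy.1).inv fun y hy => hy.2).mul ((r1.1 i).mono fun y hy => hy.1))
    fun z hz => ⟨K, (isOpen_ball.eventually_mem hz).mono fun t ht h => by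
      rw [← coeff_C_mul]
      exact bd (mN t ht h).1 (mN t ht h).2 (mP t).ne_zero (nP t).le (tP t ht) i⟩
  choose γ γ1 γ2 using ec
  set G : F → ℂ[X] := fun z => ∑ i ∈ Finset.range (m + 1), monomial i (γ i z) with hG
  have cG : ∀ z i, (G z).coeff i = if i < m + 1 then γ i z else 0 := fun z i => by
    simp only [hG, finsetSum_coeff, coeff_monomial, Finset.sum_ite_eq', Finset.mem_range]
  have hpG : HP B (m + 1) G := ⟨fun i => by
    simp only [cG]
    split_ifs
    exacts [γ1 i, differentiableOn_const _], fun z _ i hi => by rw [cG, if_neg (not_lt.2 hi)]⟩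
  have GN : ∀ z ∈ B, (R z).coeff m ≠ 0 → G z = C ((R z).coeff m)⁻¹ * R z := fun z hz h => by
    ext i
    rw [cG, coeff_C_mul]
    split_ifs with hi
    · exact γ2 i z hz h
    · rw [r1.2 z hz i (not_lt.1 hi), mul_zero]
  have RG : ∀ z ∈ B, C ((R z).coeff m) * G z = R z := fun z hz => by
    ext i
    refine eq_fr (f := fun z => (C ((R z).coeff m) * G z).coeff i)
      (cB ((hpG.cmul (r1.1 m)).1 i) z hz) (cB (r1.1 i) z hz)
      (((fδ z hz).and_eventually (isOpen_ball.mem_nhds hz)).mono fun t ht => ?_)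
    simp only [GN t ht.2 ht.1, coeff_C_mul, mul_inv_cancel_left₀ ht.1]
  have G1 : ∀ z ∈ B, G z ≠ 0 := fun z hz h => by
    have := eq_fr (cB (hpG.1 m) z hz) (continuousAt_const (y := (1 : ℂ)))
      (((fδ z hz).and_eventually (isOpen_ball.mem_nhds hz)).mono fun t ht => by
        rw [GN t ht.2 ht.1, coeff_C_mul, inv_mul_cancel₀ ht.1])
    rw [h, coeff_zero] at this
    exact zero_ne_one this
  have G0 : ∀ z ∈ B, ∀ ζ ∈ sphere p.1 r, (G z).eval ζ ≠ 0 := fun z hz ζ hζ h => by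
    have ce : ∀ {l : ℕ} {S : F → ℂ[X]}, HP B l S → ContinuousAt (fun t => ‖(S t).eval ζ‖) z :=
      fun hS => (cB (hS.ev.comp (f := fun t => (ζ, t)) (by fun_prop) fun t ht => ht) z hz).norm
    have := le_of_tendsto_of_tendsto_of_frequently (ce hpP)
      ((ce hpG).mul_const (∑ i ∈ Finset.range (d + 1), K * ‖ζ‖ ^ i))
      (((fδ z hz).and_eventually (isOpen_ball.mem_nhds hz)).mono fun t ht => by
        obtain ⟨n1, Q, n2⟩ := mN t ht.2 ht.1
        have dQ : Q ∣ P t := Dvd.intro_left _ n2.symm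
        rw [GN t ht.2 ht.1, n2, eval_mul, norm_mul, eval_eq_sum_range' (p := Q) (Nat.lt_succ_of_le
          ((natDegree_le_of_dvd dQ (mP t).ne_zero).trans (nP t).le))]
        refine mul_le_mul_of_nonneg_left ((norm_sum_le _ _).trans
          (Finset.sum_le_sum fun i _ => ?_)) (norm_nonneg _)
        rw [norm_mul, norm_pow]
        exact mul_le_mul_of_nonneg_right (bd (n1.of_mul_monic_left (n2 ▸ mP t)) dQ (mP t).ne_zero
          (nP t).le (tP t ht.2) i) (by positivity))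
    simp only [h, norm_zero, zero_mul] at this
    exact (mem_ball.1 (rP z hz ζ (norm_le_zero_iff.1 this))).ne (mem_sphere.1 hζ)
  obtain ⟨a, a1, a2⟩ := r2
  have dG := hpG.ev.mono DB
  have dδ := (dsnd (r1.1 m)).mono DB
  have RG' : ∀ y ∈ D, (R y.2).coeff m * (G y.2).eval y.1 = a y (u y) := fun y hy => by
    rw [← a2 y hy, ← eval_C_mul, RG _ hy.2]
  have di : ∀ l : W →L[ℂ] ℂ, ∃ q : ℂ × F → ℂ, DifferentiableOn ℂ q D ∧
      ∀ y ∈ D, l (u y) = (G y.2).eval y.1 * q y := fun l => by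
    obtain ⟨q, ρ, q1, q2, q3⟩ := wdiv hO isOpen_ball H.r0 sub (dl l) hpG G0
    have := mi _ (q2.cmul (r1.1 m)) ⟨fun y => (R y.2).coeff m • l - q y • a y,
      (dδ.smul_const l).sub (q1.smul a1), fun y hy => by
        simp only [eval_C_mul, _root_.sub_apply, _root_.smul_apply,
          smul_eq_mul, ← RG' y hy, q3 y hy]
        ring⟩
    refine ⟨q, q1, fun y hy => eq_fr (cD ((dl l).mono DO) y hy) (cD (dG.mul q1) y hy)
      (((fr_snd (fδ _ hy.2)).and_eventually (oD.mem_nhds hy)).mono fun t ht => ?_)⟩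
    have k0 := (mul_eq_zero.1 (this _ ht.2.2)).resolve_left (C_ne_zero.2 ht.1)
    rw [q3 t ht.2, k0, eval_zero, add_zero]
    rfl
  set b := Module.finBasis ℂ W with hb
  choose q q1 q2 using fun j => di (b.coord j).toContinuousLinearMap
  have dt : DifferentiableOn ℂ (fun y => ∑ j, q j y • b j) D :=
    DifferentiableOn.fun_sum fun j _ => (q1 j).smul_const _
  have ut : ∀ y ∈ D, u y = (G y.2).eval y.1 • ∑ j, q j y • b j := fun y hy => by
    rw [Finset.smul_sum, ← b.sum_repr (u y)]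
    exact Finset.sum_congr rfl fun j _ => by rw [smul_smul, ← q2 j y hy]; rfl
  refine ⟨D, fun y => (G y.2).eval y.1, fun y => ∑ j, q j y • b j, oD,
    ⟨mem_ball_self H.r0, mem_ball_self e0⟩, DO, dG, dt, ut, har
      (dt.continuousOn.isOpen_inter_preimage oD isOpen_compl_singleton)
      (fun z => (finite_setOfPred_isRoot (mP z).ne_zero).subset fun w hw => zP _ hw.1 ?_)
      fun x hx => (fδ _ hx.2).mono fun z hz w hw => hz ?_⟩
  · rw [ut _ hw.1, show ∑ j, q j (w, z) • b j = 0 from hw.2, smul_zero, map_zero]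
  · have := eq_fr (cD dδ _ hw.1) (cD (a1.clm_apply dt) _ hw.1)
      (((fr_ne2 (G1 _ hw.1.2)).and_eventually (oD.mem_nhds hw.1)).mono fun t ht =>
        mul_right_cancel₀ ht.1 (by
          rw [RG' t ht.2, ut t ht.2, map_smul, smul_eq_mul, mul_comm]))
    rw [show ∑ j, q j (w, z) • b j = 0 from hw.2, map_zero] at this
    exact this

/-- The local common divisor. -/
theorem lg {u : F → W} {O : Set F} {x : F} (hO : IsOpen O) (hx : x ∈ O)
    (hu : DifferentiableOn ℂ u O) (hn : ∃ᶠ y in 𝓝 x, u y ≠ 0) : Lg u O x := by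
  by_cases h0 : u x = 0
  swap
  · have o := hu.continuousOn.isOpen_inter_preimage hO (isOpen_compl_singleton (x := 0))
    refine ⟨_, fun _ => 1, u, o, ⟨hx, h0⟩, inter_subset_left, differentiableOn_const _,
      hu.mono inter_subset_left, fun y _ => (one_smul _ _).symm, fun U h _ hU hh =>
        ⟨h, hh.mono fun y hy => ⟨hy, (hU hy).2⟩, fun _ _ => rfl⟩⟩
  obtain ⟨r, r0, hr⟩ := Metric.isOpen_iff.1 hO x hx
  obtain ⟨y, y1, y2⟩ := (hn.and_eventually (ball_mem_nhds x r0)).exists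
  obtain ⟨τ, hτ⟩ := SeparatingDual.exists_ne_zero (R := ℂ) y1
  have dτ : DifferentiableOn ℂ (fun y => τ (u y)) O := τ.differentiable.comp_differentiableOn hu
  obtain ⟨K, e, -, he⟩ := LJ84.bDIR F (fun y => τ (u y)) O x hO hx dτ (by simp [h0]) fun h =>
    hτ (H85.eq_zero_of_convex isOpen_ball (convex_ball _ _) (dτ.mono hr) (mem_ball_self r0) h y2)
  obtain ⟨V, f, t, v1, v2, v3, v4, v5, v6, v7⟩ := lgp (u := u ∘ e.symm) (O := e.symm ⁻¹' O)
    (p := e x) τ (hO.preimage e.symm.continuous) (by simpa using hx)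
    (hu.comp e.symm.differentiableOn fun _ hy => hy) he
  exact ⟨e ⁻¹' V, f ∘ e, t ∘ e, v1.preimage e.continuous, v2, fun z hz => by simpa using v3 hz,
    v4.comp e.differentiableOn fun _ hz => hz, v5.comp e.differentiableOn fun _ hz => hz,
    fun z hz => by simpa using v6 _ hz, v7.comp e⟩

end Pool.Agent.Lib.F4.G72
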