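import Pool.Agent.Lib.F4.G72c
import Pool.Agent.Lib.HS32.MKit

/-! Project f4, common divisors: the alternative on a manifold. -/

open scoped Topology Classical
open Set Filter Metric

noncomputable section

namespace Pool.Agent.Lib.F4.G72

open Pool.Agent.Lib.SV Pool.Agent.Lib.HS32

variable {W : Type} [NormedAddCommGroup W] [NormedSpace ℂ W]

/-- Comparable products have a holomorphic quotient. -/
theorem ratio {F : Type} [NormedAddCommGroup F] [NormedSpace ℂ F] [FiniteDimensional ℂ F]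
    {U : Set F} {f f' : F → ℂ} {t t' : F → W} (hU : IsOpen U) (hf : DifferentiableOn ℂ f U)
    (hf' : DifferentiableOn ℂ f' U) (ht : DifferentiableOn ℂ t U) (ht' : DifferentiableOn ℂ t' U)
    (hR : Rm U {y | t' y = 0}) (hn : ∀ x ∈ U, ∃ᶠ y in 𝓝 x, f' y • t' y ≠ 0)
    (hb : ∀ x ∈ U, ∃ C, ∀ᶠ y in 𝓝 x, ‖f' y • t' y‖ ≤ C * ‖f y • t y‖) :
    ∃ q : F → ℂ, DifferentiableOn ℂ q U ∧ ∀ y ∈ U, f' y = q y * f y := by
  have o : IsOpen (U \ {y | t' y = 0}) :=
    ht'.continuousOn.isOpen_inter_preimage hU isOpen_compl_singleton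
  have fr : ∀ x ∈ U, ∃ᶠ y in 𝓝 x, f y ≠ 0 ∧ t' y ≠ 0 := fun x hx => by
    obtain ⟨C, hC⟩ := hb x hx
    refine ((hn x hx).and_eventually hC).mono fun y hy => ⟨fun h => hy.1 ?_, fun h => hy.1 ?_⟩
    · simpa only [h, zero_smul, norm_zero, mul_zero, norm_le_zero_iff] using hy.2
    · rw [h, smul_zero]
  obtain ⟨g, g1, g2⟩ := rie (f := fun y => f' y * (f y)⁻¹) o (hf.mono sdiff_subset)
    (fun x hx => (fr x hx.1).mono fun y hy => hy.1)
    ((hf'.mono fun y hy => hy.1.1).mul ((hf.mono fun y hy => hy.1.1).inv fun y hy => hy.2))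
    fun x hx => by
      obtain ⟨C, hC⟩ := hb x hx.1
      have c : ContinuousAt (fun y => C * ‖t y‖ / ‖t' y‖) x :=
        ((ht.continuousOn.continuousAt (hU.mem_nhds hx.1)).norm.const_mul C).div
          (ht'.continuousOn.continuousAt (hU.mem_nhds hx.1)).norm (norm_ne_zero_iff.2 hx.2)
      refine ⟨_, (hC.and ((c.eventually_lt_const (lt_add_one _)).and (o.eventually_mem hx))).mono
        fun y hy h => le_trans ?_ hy.2.1.le⟩
      have k := hy.1
      rw [norm_smul, norm_smul] at k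
      rw [norm_mul, norm_inv, le_div_iff₀ (norm_pos_iff.2 hy.2.2.2), mul_right_comm,
        mul_inv_le_iff₀ (norm_pos_iff.2 h)]
      linarith
  obtain ⟨q, q1, q2⟩ := hR U g hU Subset.rfl g1
  refine ⟨q, q1, fun x hx => eq_fr (hf'.continuousOn.continuousAt (hU.mem_nhds hx))
    ((q1.mul hf).continuousOn.continuousAt (hU.mem_nhds hx))
    (((fr x hx).and_eventually (hU.mem_nhds hx)).mono fun y hy => ?_)⟩
  rw [Pi.mul_apply, q2 ⟨hy.2, hy.1.2⟩, g2 y ⟨hy.2, hy.1.2⟩ hy.1.1, inv_mul_cancel_right₀ hy.1.1]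

variable {n : ℕ} (M : Mf n)

/-- Holomorphic at a point. -/
def Ho (f : M.X → ℂ) (x : M.X) : Prop :=
  ∀ e ∈ M.C, x ∈ e.source → DifferentiableAt ℂ (f ∘ e.symm) (e x)

/-- The set `Z` contains a non-empty hypersurface given by local equations. -/
def Hy (Z : Set M.X) : Prop := ∃ (ι : Type) (U : ι → Set M.X) (f : ι → M.X → ℂ)
  (u : ι → ι → M.X → ℂ), (∀ i, IsOpen (U i)) ∧ (∀ x, ∃ i, x ∈ U i) ∧
  (∀ i, ∀ x ∈ U i, Ho M (f i) x ∧ (∃ᶠ y in 𝓝 x, f i y ≠ 0) ∧ (f i x = 0 → x ∈ Z)) ∧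
  (∀ i j, ∀ x ∈ U i ∩ U j, Ho M (u i j) x ∧ u i j x ≠ 0 ∧ f i x = u i j x * f j x) ∧
  ∃ i, ∃ x ∈ U i, f i x = 0

/-- The norms in two charts are comparable. -/
def Cp (s : M.Fam W) : Prop :=
  M.Ov fun e e' x => ∃ C, ∀ᶠ y in 𝓝 x, ‖s e' (e' y)‖ ≤ C * ‖s e (e y)‖

variable {M} {s : M.Fam W} {e e' : M.Ch} {x : M.X}

theorem Hy.mono {Z Z' : Set M.X} (h : Hy M Z) (hZ : Z ⊆ Z') : Hy M Z' := by
  obtain ⟨ι, U, f, u, h1, h2, h3, h4⟩ := h
  exact ⟨ι, U, f, u, h1, h2, fun i x hx =>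
    ⟨(h3 i x hx).1, (h3 i x hx).2.1, fun k => hZ ((h3 i x hx).2.2 k)⟩, h4⟩

theorem ho_of {g : E n → W} (he : e ∈ M.C) (he' : e' ∈ M.C) (hx : x ∈ e.source)
    (hx' : x ∈ e'.source) (hg : DifferentiableAt ℂ g (e x)) :
    DifferentiableAt ℂ ((g ∘ e) ∘ e'.symm) (e' x) := by
  have h := (M.hol e he e' he').differentiableAt ((e'.isOpen_inter_preimage_symm
    e.open_source).mem_nhds ⟨e'.map_source hx', by rw [mem_preimage, e'.left_inv hx']; exact hx⟩)
  exact DifferentiableAt.comp (g := g) (f := e ∘ e'.symm) (e' x)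
    (by rwa [Function.comp_apply, e'.left_inv hx']) h

omit [NormedSpace ℂ W] in
theorem Cp.zero (h : Cp M s) (he : e ∈ M.C) (hx : x ∈ e.source) :
    s e (e x) = 0 ↔ M.ev s x = 0 := by
  have k : ∀ e ∈ M.C, ∀ e' ∈ M.C, x ∈ e.source → x ∈ e'.source → s e (e x) = 0 →
      s e' (e' x) = 0 := fun e he e' he' hx hx' h0 => by
    obtain ⟨C, hC⟩ := h e he e' he' x hx hx'
    simpa only [h0, norm_zero, mul_zero, norm_le_zero_iff] using hC.self_of_nhds
  exact ⟨k _ he _ (Mf.ch_mem x) hx (Mf.mem_ch x), k _ (Mf.ch_mem x) _ he (Mf.mem_ch x) hx⟩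

/-- The identity theorem. -/
theorem den [M.Cpt] [CompleteSpace W] (hol : M.All fun e z => DifferentiableAt ℂ (s e) z)
    (cmp : Cp M s) (ne : ∃ e ∈ M.C, ∃ z ∈ e.target, s e z ≠ 0) :
    M.All fun e z => ∃ᶠ w in 𝓝 z, s e w ≠ 0 := by
  have tr : ∀ e ∈ M.C, ∀ x ∈ e.source, s e =ᶠ[𝓝 (e x)] 0 ↔ M.ev s =ᶠ[𝓝 x] 0 := fun e he x hx => by
    rw [← e.map_nhds_eq hx, EventuallyEq, eventually_map]
    exact eventually_congr ((e.open_source.eventually_mem hx).mono fun y hy => cmp.zero he hy)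
  have cl : IsClopen {x | M.ev s =ᶠ[𝓝 x] 0} := by
    refine ⟨isClosed_iff_frequently.2 fun x hx => ?_, isOpen_setOfPred_eventually_nhds⟩
    refine (tr _ (Mf.ch_mem x) x (Mf.mem_ch x)).1 (H85.eventually_zero_of_frequently
      (hol.ev (Mf.ch_mem x) (Mf.ch_tgt x)) ?_)
    rw [← (M.ch x).map_nhds_eq (Mf.mem_ch x), frequently_map]
    exact (hx.and_eventually ((M.ch x).open_source.mem_nhds (Mf.mem_ch x))).mono
      fun y hy => (tr _ (Mf.ch_mem x) y hy.2).2 hy.1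
  obtain ⟨e₀, h₀, z₀, k₀, n₀⟩ := ne
  have em := (isClopen_iff.1 cl).resolve_right fun h => n₀ (by
    have := (tr e₀ h₀ _ (e₀.map_target k₀)).2 (eq_univ_iff_forall.1 h _)
    rw [e₀.right_inv k₀] at this
    exact this.self_of_nhds)
  refine fun e he z hz => not_eventually.1 fun h => ?_
  refine eq_empty_iff_forall_notMem.1 em _ ((tr e he _ (e.map_target hz)).1 ?_)
  rw [e.right_inv hz]
  exact h

/-- The zero set of a holomorphic section is removable or contains a hypersurface. -/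
theorem gcd [M.Cpt] [FiniteDimensional ℂ W] (hol : M.All fun e z => DifferentiableAt ℂ (s e) z)
    (cmp : Cp M s) (ne : ∃ e ∈ M.C, ∃ z ∈ e.target, s e z ≠ 0) :
    (∀ e ∈ M.C, Rm e.target {z | s e z = 0}) ∨ Hy M {x | M.ev s x = 0} := by
  have : CompleteSpace W := FiniteDimensional.complete ℂ W
  have dn := den hol cmp ne
  choose V f t v1 v2 v3 v4 v5 v6 v7 using
    fun i : {p : M.Ch × E n // p.1 ∈ M.C ∧ p.2 ∈ p.1.target} =>
      lg i.1.1.open_target i.2.2 (fun z hz => (hol _ i.2.1 z hz).differentiableWithinAt)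
        (dn _ i.2.1 _ i.2.2)
  by_cases h0 : ∃ i, ∃ z ∈ V i, f i z = 0
  swap
  · push Not at h0
    refine Or.inl fun e he => rm_loc (dn e he) fun z hz => ⟨V ⟨(e, z), he, hz⟩, _, v1 _, v2 _, v7 _,
      fun y hy => ?_⟩
    exact (v6 _ y hy ▸ smul_eq_zero_iff_right (h0 _ y hy) : s e y = 0 ↔ _)
  set U := fun i : {p : M.Ch × E n // p.1 ∈ M.C ∧ p.2 ∈ p.1.target} =>
    i.1.1.source ∩ i.1.1 ⁻¹' V i with hU
  have oU : ∀ i, IsOpen (U i) := fun i => i.1.1.isOpen_inter_preimage (v1 i)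
  have fU : ∀ i, ∀ x ∈ U i, ∃ᶠ y in 𝓝 x, (f i ∘ i.1.1) y ≠ 0 := fun i x hx => by
    have := (dn.at i.2.1 hx.1).and_eventually ((v1 i).mem_nhds hx.2)
    rw [← i.1.1.map_nhds_eq hx.1, frequently_map] at this
    exact this.mono fun y hy h => hy.1 (by rw [v6 i _ hy.2, show f i _ = 0 from h, zero_smul])
  have rt : ∀ i j, ∃ q : E n → ℂ, ∀ x ∈ U i ∩ U j, DifferentiableAt ℂ q (i.1.1 x) ∧
      f i (i.1.1 x) = q (i.1.1 x) * f j (j.1.1 x) := fun i j => by
    have o := i.1.1.isOpen_inter_preimage_symm ((oU i).inter (oU j))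
    have sb : i.1.1.target ∩ i.1.1.symm ⁻¹' (U i ∩ U j) ⊆ V i := fun z hz => by
      have := hz.2.1.2
      rwa [mem_preimage, i.1.1.right_inv hz.1] at this
    have dc : ∀ {W' : Type} [NormedAddCommGroup W'] [NormedSpace ℂ W'] {g : E n → W'},
        DifferentiableOn ℂ g (V j) → DifferentiableOn ℂ ((g ∘ j.1.1) ∘ i.1.1.symm)
          (i.1.1.target ∩ i.1.1.symm ⁻¹' (U i ∩ U j)) := fun hg z hz => by
      have := ho_of j.2.1 i.2.1 hz.2.2.1 hz.2.1.1 (hg.differentiableAt ((v1 j).mem_nhds hz.2.2.2))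
      rw [i.1.1.right_inv hz.1] at this
      exact this.differentiableWithinAt
    obtain ⟨q, q1, q2⟩ := ratio o (dc (v4 j)) ((v4 i).mono sb) (dc (v5 j)) ((v5 i).mono sb)
      (fun A h a1 a2 => v7 i A h a1 (a2.trans sb))
      (fun z hz => ((dn _ i.2.1 z hz.1).and_eventually (o.mem_nhds hz)).mono fun y hy => by
        rw [← v6 i y (sb hy.2)]
        exact hy.1)
      fun z hz => by
        obtain ⟨C, hC⟩ := cmp _ j.2.1 _ i.2.1 _ hz.2.2.1 hz.2.1.1
        refine ⟨C, (((i.1.1.continuousAt_symm hz.1).eventually hC).and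
          (o.eventually_mem hz)).mono fun y hy => ?_⟩
        have k := hy.1
        rw [i.1.1.right_inv hy.2.1, v6 i y (sb hy.2), v6 j _ hy.2.2.2.2] at k
        exact k
    refine ⟨q, fun x hx => ?_⟩
    have m : i.1.1 x ∈ i.1.1.target ∩ i.1.1.symm ⁻¹' (U i ∩ U j) :=
      ⟨i.1.1.map_source hx.1.1, by rw [mem_preimage, i.1.1.left_inv hx.1.1]; exact hx⟩
    refine ⟨q1.differentiableAt (o.mem_nhds m), ?_⟩
    rw [q2 _ m, Function.comp_apply, Function.comp_apply, i.1.1.left_inv hx.1.1]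
  choose q hq using rt
  obtain ⟨i₀, z₀, k₀, n₀⟩ := h0
  refine Or.inr ⟨_, U, fun i => f i ∘ i.1.1, fun i j => q i j ∘ i.1.1, oU,
    fun x => ⟨⟨(M.ch x, M.ch x x), Mf.ch_mem x, Mf.ch_tgt x⟩, Mf.mem_ch x, v2 _⟩,
    fun i x hx => ⟨fun e he h => ho_of i.2.1 he hx.1 h
      ((v4 i).differentiableAt ((v1 i).mem_nhds hx.2)), fU i x hx, fun h => ?_⟩,
    fun i j x hx => ⟨fun e he h => ho_of i.2.1 he hx.1.1 h (hq i j x hx).1, ?_, (hq i j x hx).2⟩,
    i₀, i₀.1.1.symm z₀, ⟨i₀.1.1.map_target (v3 _ k₀), ?_⟩, ?_⟩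
  · exact (cmp.zero i.2.1 hx.1).1 (by rw [v6 i _ hx.2, show f i _ = 0 from h, zero_smul])
  · have := eq_fr (((hq i j x hx).1.continuousAt.comp (i.1.1.continuousAt hx.1.1)).mul
      ((hq j i x hx.symm).1.continuousAt.comp (j.1.1.continuousAt hx.2.1)))
      (continuousAt_const (y := (1 : ℂ)))
      (((fU i x hx.1).and_eventually (((oU i).inter (oU j)).mem_nhds hx)).mono fun y hy =>
        mul_right_cancel₀ hy.1 (by
          simp only [Function.comp_apply, Pi.mul_apply]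
          rw [mul_assoc, ← (hq j i y hy.2.symm).2, ← (hq i j y hy.2).2, one_mul]))
    exact left_ne_zero_of_mul_eq_one this
  · rw [mem_preimage, i₀.1.1.right_inv (v3 _ k₀)]
    exact k₀
  · exact (congrArg (f i₀) (i₀.1.1.right_inv (v3 _ k₀))).trans n₀

end Pool.Agent.Lib.F4.G72
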