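import Pool.Agent.Lib.F4.G72d
import Pool.Agent.Lib.F4.Defs
import Pool.Agent.Lib.HS32.MAll

/-! Project f4, common divisors: the alternative for twisted tensors. -/

open scoped Topology Classical Matrix
open Set Filter

noncomputable section

namespace Pool.Agent.Lib.F4.G72

open Pool.Agent.Lib.SV (E)
open Pool.Agent.Lib.HS32 Pool.Agent.Lib.HLK

variable {n : ℕ} {M : Mf n} {e e' : M.Ch} {x : M.X} {a : ℤ}

theorem cJ (he : e ∈ M.C) (he' : e' ∈ M.C) (hx : x ∈ e.source) (hx' : x ∈ e'.source) :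
    ContinuousAt (M.J e e') x :=
  (mCHN n _ _ ((mTR n M).2.1 e he e' he' x hx hx').1).2.1.continuousAt.comp (e'.continuousAt hx')

theorem cj (he : e ∈ M.C) (he' : e' ∈ M.C) (hx : x ∈ e.source) (hx' : x ∈ e'.source) (a : ℤ) :
    ContinuousAt (fun y => jd M e e' y ^ a) x :=
  (continuous_id.matrix_det.continuousAt.comp (cJ he he' hx hx')).zpow₀ a
    (Or.inl ((mTR n M).2.1 e he e' he' x hx hx').2.1)

/-- Sections with continuous transition matrices. -/
theorem gA [M.Cpt] {κ : Type} [Fintype κ] {s : M.Fam (κ → ℂ)} (hol : Hol s)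
    (cmp : M.Ov fun e e' x => ∃ A : M.X → κ → κ → ℂ, (∀ i j, ContinuousAt (A · i j) x) ∧
      ∀ y ∈ e.source, y ∈ e'.source → ∀ i, s e' (e' y) i = ∑ j, A y i j * s e (e y) j)
    (nz : ¬Zr M s) : Rem M s ∨ Hy M {x | M.ev s x = 0} := by
  refine gcd (fun e he z hz => differentiableAt_pi.2 fun i => (hol e he z hz i).self_of_nhds)
    (fun e he e' he' x hx hx' => ?_) ?_
  · obtain ⟨A, a1, a2⟩ := cmp e he e' he' x hx hx'
    have c : ContinuousAt (fun y => ∑ i, ∑ j, ‖A y i j‖) x :=
      tendsto_finsetSum _ fun i _ => tendsto_finsetSum _ fun j _ => (a1 i j).norm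
    refine ⟨∑ i, ∑ j, ‖A x i j‖ + 1, ?_⟩
    filter_upwards [c.eventually_lt_const (lt_add_one _), e.open_source.mem_nhds hx,
      e'.open_source.mem_nhds hx'] with y y1 y2 y3
    refine (pi_norm_le_iff_of_nonneg (by positivity)).2 fun i => ?_
    rw [a2 y y2 y3 i]
    refine (norm_sum_le _ _).trans (le_trans (Finset.sum_le_sum fun j _ => (norm_mul_le _ _).trans
      (mul_le_mul_of_nonneg_left (norm_le_pi_norm _ j) (norm_nonneg _))) ?_)
    rw [← Finset.sum_mul]
    exact mul_le_mul_of_nonneg_right ((Finset.single_le_sum (f := fun i => ∑ j, ‖A y i j‖)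
      (fun i _ => by positivity) (Finset.mem_univ i)).trans y1.le) (norm_nonneg _)
  · by_contra h
    push Not at h
    exact nz h

/-- Forms of degree one. -/
theorem g1 [M.Cpt] {α : M.Fam (E n)} (h : H1 M a α) (nz : ¬Zr M α) :
    Rem M α ∨ Hy M {x | M.ev α x = 0} :=
  gA h.hol (fun e he e' he' x hx hx' => ⟨fun y i j => jd M e e' y ^ a * M.J e e' y j i,
    fun i j => (cj he he' hx hx' a).mul (continuousAt_pi.1 (continuousAt_pi.1
      (cJ he he' hx hx') j) i), fun y hy hy' i => by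
    rw [h.cmp e he e' he' y hy hy', Pi.smul_apply, smul_eq_mul, Matrix.vecMul, dotProduct,
      Finset.mul_sum]
    exact Finset.sum_congr rfl fun j _ => by ring⟩) nz

/-- Vector fields. -/
theorem gT [M.Cpt] {V : M.Fam (E n)} (h : HT M a V) (nz : ¬Zr M V) :
    Rem M V ∨ Hy M {x | M.ev V x = 0} :=
  gA h.hol (fun e he e' he' x hx hx' => ⟨fun y i j => jd M e' e y ^ (-a) * M.J e' e y i j,
    fun i j => (cj he' he hx' hx (-a)).mul (continuousAt_pi.1 (continuousAt_pi.1
      (cJ he' he hx' hx) i) j), fun y hy hy' i => by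
    have k := congrFun (h.cmp e' he' e he y hy' hy) i
    rw [Pi.smul_apply, smul_eq_mul, Matrix.mulVec, dotProduct] at k
    simp only [mul_assoc, ← Finset.mul_sum]
    rw [k, zpow_neg, inv_mul_cancel_left₀
      (zpow_ne_zero a ((mTR n M).2.1 e' he' e he y hy' hy).2.1)]⟩) nz

/-- Tensors of order two. -/
theorem gQ [M.Cpt] {S : M.Fam (Mat n)} (hol : HolM M S) (cmp : M.Ov fun e e' x =>
      S e' (e' x) = jd M e e' x ^ a • ((M.J e e' x)ᵀ * S e (e x) * M.J e e' x))
    (nz : ¬Zr M S) : Rem M S ∨ Hy M {x | M.ev S x = 0} := by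
  have z : ∀ T : Mat n, (fun p : Fin n × Fin n => T p.1 p.2) = 0 ↔ T = 0 := fun T =>
    ⟨fun h => Matrix.ext fun i j => congrFun h (i, j), fun h => by rw [h]; rfl⟩
  have := gA (s := fun e z (p : Fin n × Fin n) => S e z p.1 p.2)
    (fun e he z hz p => hol e he z hz p.1 p.2)
    (fun e he e' he' x hx hx' => ⟨fun y p q => jd M e e' y ^ a *
      (M.J e e' y q.1 p.1 * M.J e e' y q.2 p.2), fun p q => (cj he he' hx hx' a).mul
        ((continuousAt_pi.1 (continuousAt_pi.1 (cJ he he' hx hx') _) _).mul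
          (continuousAt_pi.1 (continuousAt_pi.1 (cJ he he' hx hx') _) _)), fun y hy hy' p => by
      simp only [cmp e he e' he' y hy hy', Matrix.smul_apply, smul_eq_mul, Matrix.mul_apply,
        Matrix.transpose_apply, Finset.mul_sum, Finset.sum_mul, Fintype.sum_prod_type]
      rw [Finset.sum_comm]
      exact Finset.sum_congr rfl fun i _ => Finset.sum_congr rfl fun j _ => by ring⟩)
    fun h => nz fun e he w hw => (z _).1 (h e he w hw)
  refine this.imp (fun h e he => ?_) fun h => h.mono fun x hx => (z _).1 hx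
  simpa only [z] using h e he

/-- Forms of degree two. -/
theorem g2 [M.Cpt] {S : M.Fam (Mat n)} (h : H2 M a S) (nz : ¬Zr M S) :
    Rem M S ∨ Hy M {x | M.ev S x = 0} := gQ h.hol h.cmp nz

end Pool.Agent.Lib.F4.G72
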