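import Pool.Agent.Lib.HS32.EKit

/-! Project f4: the kernel of Bochner and Martinelli. -/

open scoped Classical Topology ContDiff ENNReal
open Set MeasureTheory Complex Metric Filter

set_option linter.unusedVariables false

noncomputable section

namespace Pool.Agent.Lib.F4.K13

open Pool.Agent.Lib.SV (E)
open Pool.Agent.Lib.HS32

variable {n : ℕ}

theorem ct_dzb {F : E n → ℂ} (hF : ContDiff ℝ 1 F) (l : Fin n) : Continuous (dzb l F) := by
  have h := fun v : E n => (hF.continuous_fderiv one_ne_zero).clm_apply (continuous_const (y := v))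
  exact ((h _).add (continuous_const.mul (h _))).div_const 2

theorem dzb_out {F : E n → ℂ} {z : E n} (h : z ∉ tsupport F) (l : Fin n) : dzb l F z = 0 := by
  have : fderiv ℝ F z = 0 := Function.notMem_support.1 fun c => h (support_fderiv_subset ℝ c)
  simp [dzb, this]

theorem hc_dzb {F : E n → ℂ} (hc : HasCompactSupport F) (l : Fin n) :
    HasCompactSupport (dzb l F) := HasCompactSupport.intro hc fun z hz => dzb_out hz l

theorem int0 {F : E n → ℂ} (hF : ContDiff ℝ 1 F) (hc : HasCompactSupport F) (l : Fin n) :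
    ∫ z, dzb l F z = 0 := by
  have di : ∀ v, Integrable fun z => fderiv ℝ F z v := fun v =>
    ((hF.continuous_fderiv one_ne_zero).clm_apply continuous_const).integrable_of_hasCompactSupport
      (hc.fderiv_apply ℝ v)
  have d0 : ∀ v, ∫ z, fderiv ℝ F z v = 0 := fun v => by
    simpa using integral_mul_fderiv_eq_neg_fderiv_mul_of_integrable (μ := volume)
      (f := fun _ : E n => (1 : ℂ)) (g := F) (v := v) (by simp) (by simpa using di v)
      (by simpa using hF.continuous.integrable_of_hasCompactSupport hc)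
      (fun _ _ => differentiableAt_const _) (fun z _ => hF.differentiable one_ne_zero z)
  simp only [dzb]
  rw [integral_div, integral_add (di _) ((di _).const_mul I), integral_const_mul, d0, d0]
  simp

theorem ibp {f ψ : E n → ℂ} (hf : ContDiff ℝ 1 f) (hψ : ContDiff ℝ 1 ψ) (hc : HasCompactSupport ψ)
    (l : Fin n) : ∫ z, f z * dzb l ψ z = -∫ z, dzb l f z * ψ z := by
  have h := int0 (hf.mul hψ) hc.mul_left l
  simp only [dzb_mul (hf.differentiable one_ne_zero _) (hψ.differentiable one_ne_zero _)] at h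
  have h1 := integral_add (μ := volume)
    (((ct_dzb hf l).mul hψ.continuous).integrable_of_hasCompactSupport hc.mul_left)
    ((hf.continuous.mul (ct_dzb hψ l)).integrable_of_hasCompactSupport (hc_dzb hc l).mul_left)
  simp only [Pi.mul_apply] at h1
  linear_combination h - h1

/-- The square of the Euclidean norm. -/
def qq (w : E n) : ℝ := ∑ j, normSq (w j)

theorem qq_c (ε : ℝ) :
    (fun w : E n => ((qq w + ε : ℝ) : ℂ)) = fun w : E n => ∑ j, w j * star (w j) + ε := by
  funext w
  simp [qq, mul_conj]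

theorem le_qq (w : E n) : ‖w‖ ^ 2 ≤ qq w := by
  have h0 : 0 ≤ qq w := Finset.sum_nonneg fun j _ => normSq_nonneg _
  refine (Real.le_sqrt (norm_nonneg _) h0).1 ((pi_norm_le_iff_of_nonneg (Real.sqrt_nonneg _)).2
    fun j => Real.le_sqrt_of_sq_le ?_)
  rw [← normSq_eq_norm_sq]
  exact Finset.single_le_sum (f := fun j => normSq (w j)) (fun j _ => normSq_nonneg _)
    (Finset.mem_univ j)

theorem qq_nn (w : E n) : 0 ≤ qq w := (sq_nonneg _).trans (le_qq w)

theorem qq_smul (t : ℝ) (w : E n) : qq (t • w) = t ^ 2 * qq w := by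
  simp only [qq, Finset.mul_sum, Pi.smul_apply, real_smul, map_mul, normSq_ofReal, sq]

theorem cd_co (j : Fin n) : ContDiff ℝ ∞ fun w : E n => w j := contDiff_apply ℝ ℂ j

theorem cd_qq (ε : ℝ) : ContDiff ℝ ∞ fun w : E n => ((qq w + ε : ℝ) : ℂ) := by
  rw [qq_c]
  exact contDiff_iff_contDiffAt.2 fun z => (ContDiffAt.sum fun j _ =>
    (cd_co j).contDiffAt.mul (cd_star (cd_co j).contDiffAt)).add contDiffAt_const

theorem dzb_sc (l j : Fin n) (z : E n) :
    dzb l (fun w : E n => star (w j)) z = if j = l then 1 else 0 := by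
  rw [dzb_star (cd_diff (cd_co j).contDiffAt), dz_coord]
  split_ifs <;> simp

theorem dzb_qq (ε : ℝ) (l : Fin n) (z : E n) :
    dzb l (fun w : E n => ((qq w + ε : ℝ) : ℂ)) z = z l := by
  have d := fun j => cd_diff (z := z) (cd_co j).contDiffAt
  have d' : ∀ j ∈ Finset.univ, DifferentiableAt ℝ (fun w : E n => w j * star (w j)) z :=
    fun j _ => (d j).mul (diff_star (d j))
  rw [qq_c, dzb_add (DifferentiableAt.fun_sum d') (differentiableAt_const _), dzb_sum d']
  simp only [fun j => dzb_mul (j := l) (d j) (diff_star (d j)), dzb_coord, dzb_sc]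
  simp

/-- The regularised kernel. -/
def ke (ε : ℝ) (l : Fin n) (w : E n) : ℂ := star (w l) * (((qq w + ε : ℝ) : ℂ) ^ n)⁻¹

theorem cd_ke {ε : ℝ} {z : E n} (h : qq z + ε ≠ 0) (l : Fin n) : ContDiffAt ℝ ∞ (ke ε l) z :=
  (cd_star (cd_co l).contDiffAt).mul
    (((cd_qq ε).contDiffAt.pow n).inv (pow_ne_zero _ (ofReal_ne_zero.2 h)))

theorem div_ke {ε : ℝ} {z : E n} (h : qq z + ε ≠ 0) :
    ∑ l, dzb l (ke ε l) z = ((n * ε / (qq z + ε) ^ (n + 1) : ℝ) : ℂ) := by
  have h' : ((qq z + ε : ℝ) : ℂ) ≠ 0 := ofReal_ne_zero.2 h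
  have e : ∀ l, dzb l (ke ε l) z = (((qq z + ε : ℝ) : ℂ) ^ n)⁻¹ -
      n / ((qq z + ε : ℝ) : ℂ) ^ (n + 1) * (z l * star (z l)) := fun l => by
    have h1 := dzb_comp (j := l) (f := fun w : E n => ((qq w + ε : ℝ) : ℂ)) (z := z)
      (φ := fun s => (s ^ n)⁻¹) (c := -(n * ((qq z + ε : ℝ) : ℂ) ^ (n - 1)) /
        (((qq z + ε : ℝ) : ℂ) ^ n) ^ 2)
      ((hasDerivAt_pow n _).fun_inv (pow_ne_zero n h')) (cd_diff (cd_qq ε).contDiffAt)
    rw [show ke ε l = fun w => star (w l) * (((qq w + ε : ℝ) : ℂ) ^ n)⁻¹ from rfl,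
      dzb_mul (g := fun w => (((qq w + ε : ℝ) : ℂ) ^ n)⁻¹) (diff_star (cd_diff (cd_co l).contDiffAt))
        (cd_diff (((cd_qq ε).contDiffAt.pow n).inv (pow_ne_zero _ h'))), h1, dzb_sc, dzb_qq]
    obtain ⟨m, rfl⟩ := Nat.exists_eq_succ_of_ne_zero l.pos.ne'
    simp only [if_true, Nat.succ_eq_add_one, Nat.add_sub_cancel]
    field_simp
    ring
  have e2 := congrFun (qq_c (n := n) 0) z
  simp only [add_zero, ofReal_zero] at e2
  simp only [e, Finset.sum_sub_distrib, ← Finset.mul_sum, ← e2, Finset.sum_const, Finset.card_univ,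
    Fintype.card_fin, nsmul_eq_mul]
  push_cast at h' ⊢
  field_simp
  ring

theorem norm_ke {ε : ℝ} (hε : 0 ≤ ε) (l : Fin n) (w : E n) :
    ‖ke ε l w‖ ≤ 1 * ‖w‖ ^ (-(2 * n - 1 : ℝ)) := by
  rcases eq_or_ne w 0 with rfl | h
  · simp only [ke, Pi.zero_apply, star_zero, zero_mul, norm_zero]
    positivity
  have h0 : 0 < ‖w‖ := norm_pos_iff.2 h
  have h1 : (‖w‖ ^ 2) ^ n ≤ (qq w + ε) ^ n :=
    pow_le_pow_left₀ (by positivity) (by linarith [le_qq w]) n
  rw [ke, norm_mul, norm_star, norm_inv, norm_pow, norm_real,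
    Real.norm_of_nonneg (by linarith [qq_nn w]), one_mul, neg_sub, Real.rpow_sub h0, Real.rpow_one,
    show (2 * n : ℝ) = ((2 * n : ℕ) : ℝ) by push_cast; ring, Real.rpow_natCast, pow_mul,
    div_eq_mul_inv]
  exact mul_le_mul (norm_le_pi_norm w l) (inv_anti₀ (by positivity) h1)
    (inv_nonneg.2 ((by positivity : (0 : ℝ) ≤ _).trans h1)) h0.le

theorem rk : Module.finrank ℝ (E n) = 2 * n := by
  simp [Module.finrank_pi_fintype, mul_comm]

theorem me_ke (ε : ℝ) (l : Fin n) : Measurable (ke ε l : E n → ℂ) :=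
  (continuous_star.comp (continuous_apply l)).measurable.mul
    ((cd_qq ε).continuous.pow n).measurable.inv

theorem li_ke (l : Fin n) : LocallyIntegrable (ke 0 l : E n → ℂ) :=
  locallyIntegrable_of_norm_le_rpow (by have := l.pos; rw [rk]; omega) (by rw [rk]; push_cast; linarith)
    (.of_forall (norm_ke le_rfl l)) (me_ke 0 l).aestronglyMeasurable

/-- The profile of the approximate identity. -/
def pf (v : E n) : ℝ := n / (qq v + 1) ^ (n + 1)

theorem ct_pf : Continuous (pf : E n → ℝ) := by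
  have : Continuous (qq : E n → ℝ) :=
    continuous_finsetSum _ fun j _ => continuous_normSq.comp (continuous_apply j)
  exact continuous_const.div ((this.add continuous_const).pow _)
    fun v => pow_ne_zero _ (by linarith [qq_nn v])

theorem it_pf : Integrable (pf : E n → ℝ) := by
  refine ((integrable_rpow_neg_one_add_norm_sq (E := E n) (μ := volume) (r := 2 * (n + 1))
    (by rw [rk]; push_cast; linarith)).const_mul n).mono' ct_pf.aestronglyMeasurable
    (.of_forall fun v => ?_)
  have := qq_nn v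
  rw [pf, Real.norm_of_nonneg (by positivity), div_eq_mul_inv,
    show -(2 * (n + 1) : ℝ) / 2 = -((n + 1 : ℕ) : ℝ) by push_cast; ring,
    Real.rpow_neg (by positivity), Real.rpow_natCast]
  exact mul_le_mul_of_nonneg_left (inv_anti₀ (by positivity)
    (pow_le_pow_left₀ (by positivity) (by linarith [le_qq v]) _)) n.cast_nonneg

theorem pos_pf (hn : 0 < n) : 0 < ∫ v : E n, pf v :=
  integral_pos_of_integrable_nonneg_nonzero (x := 0) ct_pf it_pf
    (fun v => by have := qq_nn v; rw [pf]; positivity) (by simp [pf, qq, hn.ne'])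

theorem rep0 {ψ : E n → ℂ} (hψ : ContDiff ℝ 1 ψ) (hc : HasCompactSupport ψ) :
    ∑ l, ∫ w, ke 0 l w * dzb l ψ w = -(((∫ v : E n, pf v : ℝ) : ℂ) * ψ 0) := by
  have A : ∀ t : ℝ, 0 < t → ∑ l, ∫ w, ke (t ^ 2) l w * dzb l ψ w =
      -∫ v : E n, (pf v : ℂ) * ψ (t • v) := fun t ht => by
    have p : ∀ z : E n, qq z + t ^ 2 ≠ 0 := fun z => by have := qq_nn z; positivity
    have c : ∀ l, ContDiff ℝ 1 (ke (t ^ 2) l : E n → ℂ) := fun l =>
      contDiff_iff_contDiffAt.2 fun z => cd_le (cd_ke (p z) l) 1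
    simp only [ibp (c _) hψ hc]
    rw [Finset.sum_neg_distrib, ← integral_finsetSum (f := fun l z => dzb l (ke (t ^ 2) l) z * ψ z) _
      fun l _ =>
      ((ct_dzb (c l) l).mul hψ.continuous).integrable_of_hasCompactSupport hc.mul_left]
    simp only [← Finset.sum_mul, div_ke (p _)]
    have h1 := Measure.integral_comp_smul (μ := volume)
      (fun w : E n => ((n * t ^ 2 / (qq w + t ^ 2) ^ (n + 1) : ℝ) : ℂ) * ψ w) t
    have h2 : ∀ v : E n, ((n * t ^ 2 / (qq (t • v) + t ^ 2) ^ (n + 1) : ℝ) : ℂ) * ψ (t • v) =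
        (t ^ (2 * n))⁻¹ • ((pf v : ℂ) * ψ (t • v)) := fun v => by
      rw [real_smul, ← mul_assoc, ← ofReal_mul, qq_smul, pf, ← mul_add_one, mul_pow, pow_mul]
      have := qq_nn v
      congr 2
      field_simp
      ring
    simp only [h2] at h1
    rw [integral_smul, rk, abs_of_pos (by positivity)] at h1
    rw [smul_right_injective ℂ (by positivity) h1]
  have B : Tendsto (fun t : ℝ => ∑ l, ∫ w, ke (t ^ 2) l w * dzb l ψ w) (𝓝[>] 0)
      (𝓝 (∑ l, ∫ w, ke 0 l w * dzb l ψ w)) := by
    refine tendsto_finsetSum _ fun l _ => tendsto_integral_filter_of_dominated_convergence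
      (fun w => ‖dzb l ψ w‖ • (1 * ‖w‖ ^ (-(2 * n - 1 : ℝ)))) (.of_forall fun t =>
        ((me_ke _ l).mul (ct_dzb hψ l).measurable).aestronglyMeasurable)
      (.of_forall fun t => .of_forall fun w => ?_) ?_ (.of_forall fun w => ?_)
    · rw [norm_mul, smul_eq_mul, mul_comm]
      exact mul_le_mul_of_nonneg_left (norm_ke (sq_nonneg t) l w) (norm_nonneg _)
    · refine LocallyIntegrable.integrable_smul_left_of_hasCompactSupport ?_ (ct_dzb hψ l).norm
        (hc_dzb hc l).norm
      exact locallyIntegrable_of_norm_le_rpow (C := 1) (α := 2 * n - 1)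
        (by have := l.pos; rw [rk]; omega) (by rw [rk]; push_cast; linarith)
        (.of_forall fun w => (Real.norm_of_nonneg (by positivity)).le)
        (Measurable.aestronglyMeasurable (by fun_prop))
    · rcases eq_or_ne w 0 with rfl | h
      · simp [ke]
      have h0 : 0 < qq w := (pow_pos (norm_pos_iff.2 h) 2).trans_le (le_qq w)
      have : ContinuousAt (fun t : ℝ => ke (t ^ 2) l w * dzb l ψ w) 0 :=
        (continuousAt_const.mul (ContinuousAt.inv₀ (by fun_prop) (by simp [h0.ne']))).mul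
          continuousAt_const
      simpa using this.tendsto.mono_left nhdsWithin_le_nhds
  obtain ⟨C, hC⟩ := hψ.continuous.bounded_above_of_compact_support hc
  have D : Tendsto (fun t : ℝ => -∫ v : E n, (pf v : ℂ) * ψ (t • v)) (𝓝[>] 0)
      (𝓝 (-∫ v : E n, (pf v : ℂ) * ψ 0)) := by
    refine (tendsto_integral_filter_of_dominated_convergence
      (F := fun (t : ℝ) v => (pf v : ℂ) * ψ (t • v)) (fun v => ‖pf v‖ * C)
      (.of_forall fun t => ((continuous_ofReal.comp ct_pf).mul
        (hψ.continuous.comp (continuous_const_smul t))).aestronglyMeasurable)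
      (.of_forall fun t => .of_forall fun v => ?_) (it_pf.norm.mul_const C)
      (.of_forall fun v => ?_)).neg
    · rw [norm_mul, norm_real]
      exact mul_le_mul_of_nonneg_left (hC _) (norm_nonneg _)
    · have h1 := hψ.continuous
      have : ContinuousAt (fun t : ℝ => (pf v : ℂ) * ψ (t • v)) 0 := by fun_prop
      simpa using this.tendsto.mono_left nhdsWithin_le_nhds
  rw [tendsto_nhds_unique B (D.congr' (eventually_mem_nhdsWithin.mono fun t ht => (A t ht).symm)),
    integral_mul_const, integral_complex_ofReal]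

end Pool.Agent.Lib.F4.K13
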