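import Pool.Agent.Lib.HS32.MAll
import Pool.Agent.Lib.HS85.Frame
import Pool.Agent.Lib.RA.T_U1

/-! Project f4: a flat holomorphic connection on a simply connected manifold has a global parallel
frame. -/

open scoped Classical Topology ContDiff Matrix
open Set Filter Metric

set_option linter.unusedVariables false

noncomputable section

namespace Pool.Agent.Lib.F4.M7

open Pool.Agent.Lib.SV (E)
open Pool.Agent.Lib.HS32 Pool.Agent.HS85

variable {n : ℕ} {𝔸 : Type} [NormedRing 𝔸] [NormedAlgebra ℂ 𝔸] [FiniteDimensional ℂ 𝔸]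

omit [FiniteDimensional ℂ 𝔸] in
theorem clm_sum (D : E n →L[ℂ] 𝔸) (v : E n) : D v = ∑ j, v j • D (Pi.single j 1) := by
  conv_lhs => rw [pi_eq_sum_univ' v]
  simp only [map_sum, map_smul]

/-- The function `T` is parallel at `z`. -/
structure Par (l : Fin n → E n → 𝔸) (T : E n → 𝔸) (z : E n) : Prop where
  d : DifferentiableAt ℂ T z
  e : ∀ k, fderiv ℂ T z (Pi.single k 1) = T z * l k z

/-- The connection is flat at `z`. -/
structure Fl (l : Fin n → E n → 𝔸) (z : E n) : Prop where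
  d : ∀ k, DifferentiableAt ℂ (l k) z
  e : ∀ j k, fderiv ℂ (l k) z (Pi.single j 1) + l j z * l k z =
    fderiv ℂ (l j) z (Pi.single k 1) + l k z * l j z

theorem frameK {l : Fin n → E n → 𝔸} {x : E n} (h : ∀ᶠ z in 𝓝 x, Fl l z) :
    ∃ T : E n → 𝔸, ∀ᶠ z in 𝓝 x, Par l T z ∧ IsUnit (T z) := by
  have : CompleteSpace 𝔸 := FiniteDimensional.complete ℂ 𝔸
  set L : E n → E n →L[ℂ] 𝔸 := fun z => ∑ k,
    ContinuousLinearMap.smulRightL ℂ (E n) 𝔸 (ContinuousLinearMap.proj k) (l k z) with hL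
  have hLv : ∀ z v, L z v = ∑ k, v k • l k z := fun z v => by simp [hL]
  have hd : ∀ z, Fl l z → HasFDerivAt L (∑ k, (ContinuousLinearMap.smulRightL ℂ (E n) 𝔸
      (ContinuousLinearMap.proj k)).comp (fderiv ℂ (l k) z)) z := fun z hz =>
    HasFDerivAt.fun_sum fun k _ =>
      (ContinuousLinearMap.hasFDerivAt _).comp z (hz.d k).hasFDerivAt
  obtain ⟨T, h1, hT⟩ := frame (L := L) (P := fun _ => 1) (x := x) (T₀ := 1) (by
    filter_upwards [h] with z hz
    refine ⟨(hd z hz).differentiableAt, differentiableAt_const _, fun ξ => by simp, fun ξ η => ?_⟩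
    have a : ∀ ξ η, fderiv ℂ L z ξ η + L z ξ * L z η = ∑ j, ∑ k, (ξ j * η k) •
        (fderiv ℂ (l k) z (Pi.single j 1) + l j z * l k z) := fun ξ η => by
      rw [(hd z hz).fderiv, hLv, hLv, Finset.sum_mul_sum]
      simp only [smul_add, Finset.sum_add_distrib, smul_mul_smul_comm]
      congr 1
      rw [Finset.sum_comm]
      simp only [_root_.sum_apply, ContinuousLinearMap.comp_apply,
        ContinuousLinearMap.smulRightL_apply_apply, ContinuousLinearMap.smulRight_apply,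
        ContinuousLinearMap.proj_apply]
      refine Finset.sum_congr rfl fun k _ => ?_
      rw [clm_sum (fderiv ℂ (l k) z) ξ, Finset.smul_sum]
      exact Finset.sum_congr rfl fun j _ => by rw [smul_smul, mul_comm]
    rw [a, a, Finset.sum_comm]
    simp only [hz.e, mul_comm]) (by simp)
  have hu : ∀ᶠ z in 𝓝 x, IsUnit (T z) := hT.self_of_nhds.1.continuousAt.eventually
    (Units.isOpen.mem_nhds (by rw [h1]; exact isUnit_one))
  refine ⟨T, ?_⟩
  filter_upwards [hT, hu] with z hz hu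
  refine ⟨⟨hz.1, fun k => ?_⟩, hu⟩
  rw [hz.2.2, hLv, Finset.sum_eq_single k (fun j _ hj => by simp [hj]) (by simp)]
  simp

theorem const_of_par {l : Fin n → E n → 𝔸} {P Q : E n → 𝔸} {x : E n}
    (h : ∀ᶠ z in 𝓝 x, Par l P z ∧ Par l Q z ∧ IsUnit (Q z)) :
    ∀ᶠ z in 𝓝 x, P z * Ring.inverse (Q z) = P x * Ring.inverse (Q x) := by
  have : CompleteSpace 𝔸 := FiniteDimensional.complete ℂ 𝔸
  obtain ⟨r, hr, hb⟩ := Metric.eventually_nhds_iff_ball.1 h
  have a : ∀ z ∈ ball x r, HasFDerivAt (fun z => P z * Ring.inverse (Q z)) (0 : E n →L[ℂ] 𝔸) z := by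
    intro z hz
    obtain ⟨hP, hQ, u, hu⟩ := hb z hz
    have b := (hu ▸ hasFDerivAt_ringInverse (𝕜 := ℂ) u).comp z hQ.d.hasFDerivAt
    have c := hP.d.hasFDerivAt.mul' b
    refine c.congr_fderiv ?_
    ext v
    rw [clm_sum, Finset.sum_eq_zero fun k _ => ?_]
    · rfl
    · simp [hP.e, hQ.e, ← hu, mul_assoc]
  filter_upwards [ball_mem_nhds x hr] with z hz
  exact isOpen_ball.is_const_of_fderiv_eq_zero (𝕜 := ℂ) (convex_ball x r).isPreconnected
    (fun w hw => (a w hw).differentiableAt.differentiableWithinAt)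
    (fun w hw => (a w hw).fderiv) hz (mem_ball_self hr)

theorem lpc (M : Mf n) : LocallyPathConnectedSpace M.X :=
  letI : ChartedSpace (E n) M.X := ⟨M.C, M.ch, Mf.mem_ch, Mf.ch_mem⟩
  ChartedSpace.locallyPathConnectedSpace (E n) M.X

/-- The gauge law at a point of an overlap. -/
structure Gau {M : Mf n} (e e' : M.Ch) (l l' : Fin n → E n → 𝔸) (G : E n → 𝔸) (x : M.X) :
    Prop where
  d : DifferentiableAt ℂ G (e' x)
  u : IsUnit (G (e' x))
  e : ∀ k, fderiv ℂ G (e' x) (Pi.single k 1) + (∑ j, M.J e e' x j k • l j (e x)) * G (e' x) =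
    G (e' x) * l' k (e' x)

omit [FiniteDimensional ℂ 𝔸] in
theorem par_gau {M : Mf n} {e e' : M.Ch} (he : e ∈ M.C) (he' : e' ∈ M.C) {x : M.X}
    (hx : x ∈ e.source) (hx' : x ∈ e'.source) {l l' : Fin n → E n → 𝔸} {G T : E n → 𝔸}
    (hG : Gau e e' l l' G x) (hT : Par l T (e x)) :
    Par l' (fun w => T (e (e'.symm w)) * G w) (e' x) := by
  have h1 := ((mTR n M).2.1 e he e' he' x hx hx').1
  have h2 := (mCHN n _ _ h1).2.2.2.2.2.1
  have h0 : (e ∘ e'.symm) (e' x) = e x := by simp [e'.left_inv hx']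
  have h3 := (h0 ▸ hT.d.hasFDerivAt).comp (e' x) h1.self_of_nhds.hasFDerivAt
  have h4 := h3.mul' hG.d.hasFDerivAt
  refine ⟨h4.differentiableAt, fun k => ?_⟩
  have h5 : fderiv ℂ T (e x) (fderiv ℂ (e ∘ e'.symm) (e' x) (Pi.single k 1)) =
      T (e x) * ∑ j, M.J e e' x j k • l j (e x) := by
    rw [h2, clm_sum, Finset.mul_sum]
    refine Finset.sum_congr rfl fun j _ => ?_
    rw [hT.e, mul_smul_comm]
    simp [Mf.J]
  refine (congrArg (fun D : E n →L[ℂ] 𝔸 => D (Pi.single k 1)) h4.fderiv).trans ?_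
  simp only [_root_.add_apply, _root_.smul_apply, Function.comp_apply,
    e'.left_inv hx', smul_eq_mul, ContinuousLinearMap.comp_apply, MulOpposite.smul_eq_mul_unop,
    MulOpposite.unop_op, h5]
  rw [mul_assoc, mul_assoc, ← mul_add, hG.e]

theorem glue (M : Mf n) [SimplyConnectedSpace M.X] {ι : Type} (e : ι → M.Ch)
    (he : ∀ a, e a ∈ M.C) (U : ι → Set M.X) (hU : ∀ a, IsOpen (U a) ∧ U a ⊆ (e a).source)
    (hc : ∀ x, ∃ a, x ∈ U a) (l : ι → Fin n → E n → 𝔸)
    (hl : ∀ a, ∀ x ∈ U a, Fl (l a) (e a x)) (G : ι → ι → E n → 𝔸)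
    (hG : ∀ a b x, x ∈ U a → x ∈ U b → Gau (e a) (e b) (l a) (l b) (G a b) x)
    (hC : ∀ a b d x, x ∈ U a → x ∈ U b → x ∈ U d →
      G a b (e b x) * G b d (e d x) = G a d (e d x)) :
    ∃ (a : M.X → ι) (O : M.X → Set M.X) (F : M.X → E n → 𝔸),
      (∀ x, IsOpen (O x) ∧ x ∈ O x ∧ O x ⊆ (e (a x)).source) ∧
      (∀ x, ∀ z ∈ O x, DifferentiableAt ℂ (F x) (e (a x) z) ∧ IsUnit (F x (e (a x) z))) ∧
      ∀ x y z, z ∈ O x → z ∈ O y →
        F y (e (a y) z) = F x (e (a x) z) * G (a x) (a y) (e (a y) z) := by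
  have := lpc M
  choose a ha using hc
  have h1 : ∀ x, ∃ (O : Set M.X) (T : E n → 𝔸), (IsOpen O ∧ x ∈ O ∧ O ⊆ U (a x)) ∧
      ∀ z ∈ O, Par (l (a x)) T (e (a x) z) ∧ IsUnit (T (e (a x) z)) := fun x => by
    have s1 := (hU _).2 (ha x)
    obtain ⟨T, hT⟩ := frameK (l := l (a x)) (x := e (a x) x) (by
      filter_upwards [(e (a x)).open_target.eventually_mem ((e (a x)).map_source s1),
        ((e (a x)).continuousAt_symm ((e (a x)).map_source s1)).eventually
        ((hU (a x)).1.eventually_mem (by rw [(e (a x)).left_inv s1]; exact ha x))] with w h1 h2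
      exact (e (a x)).right_inv h1 ▸ hl _ _ h2)
    obtain ⟨O, hO, o1, o2⟩ := _root_.eventually_nhds_iff.1
      ((((e (a x)).continuousAt s1).eventually hT).and ((hU _).1.eventually_mem (ha x)))
    exact ⟨O, T, ⟨o1, o2, fun z hz => (hO z hz).2⟩, fun z hz => (hO z hz).1⟩
  choose O T hO' hT using h1
  have hO : ∀ x, IsOpen (O x) ∧ x ∈ O x ∧ O x ⊆ (e (a x)).source := fun x =>
    ⟨(hO' x).1, (hO' x).2.1, (hO' x).2.2.trans (hU _).2⟩
  set c : M.X → M.X → M.X → 𝔸 := fun x y z =>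
    T x (e (a x) z) * G (a x) (a y) (e (a y) z) * Ring.inverse (T y (e (a y) z)) with hc
  have hu : ∀ x y z, z ∈ O x → z ∈ O y → IsUnit (c x y z) := fun x y z hx hy =>
    ((hT x z hx).2.mul (hG _ _ z ((hO' x).2.2 hx) ((hO' y).2.2 hy)).u).mul
      (hT y z hy).2.ringInverse
  set c' : M.X → M.X → M.X → 𝔸ˣ := fun x y z => if h : IsUnit (c x y z) then h.unit else 1
    with hc'
  have hv : ∀ x y z, z ∈ O x → z ∈ O y → (c' x y z : 𝔸) = c x y z := fun x y z hx hy => by
    simp only [hc', dif_pos (hu x y z hx hy), IsUnit.unit_spec]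
  obtain ⟨k, k1, k2⟩ := RA.st_U1 M.X M.X 𝔸ˣ O c' (fun x => (hO x).1) (fun x => ⟨x, (hO x).2.1⟩)
    (fun x y z hx hy => by
      have s1 := (hO y).2.2 hy
      have m1 : ∀ᶠ w in 𝓝 z, w ∈ O x ∧ w ∈ O y := ((hO x).1.inter (hO y).1).mem_nhds ⟨hx, hy⟩
      have m2 := ((e (a y)).continuousAt_symm ((e (a y)).map_source s1)).eventually
        (((e (a y)).left_inv s1).symm ▸ m1)
      have m3 := const_of_par (l := l (a y)) (Q := T y) (x := e (a y) z)
        (P := fun w => T x (e (a x) ((e (a y)).symm w)) * G (a x) (a y) w) (by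
          filter_upwards [m2, (e (a y)).open_target.eventually_mem ((e (a y)).map_source s1)]
            with w hw ht
          have q1 := par_gau (he _) (he _) ((hO x).2.2 hw.1) ((hO y).2.2 hw.2)
            (hG _ _ _ ((hO' x).2.2 hw.1) ((hO' y).2.2 hw.2)) (hT x _ hw.1).1
          have q2 := hT y _ hw.2
          rw [(e (a y)).right_inv ht] at q1 q2
          exact ⟨q1, q2⟩)
      filter_upwards [m1, ((e (a y)).continuousAt s1).eventually m3] with w hw h3
      refine Units.ext ?_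
      rw [hv _ _ _ hw.1 hw.2, hv _ _ _ hx hy]
      simpa only [(e (a y)).left_inv s1, (e (a y)).left_inv ((hO y).2.2 hw.2)] using h3)
    (fun x y d z hx hy hd => Units.ext (by
      rw [Units.val_mul, hv _ _ _ hx hy, hv _ _ _ hy hd, hv _ _ _ hx hd]
      simp only [hc, mul_assoc]
      rw [Ring.inverse_mul_cancel_left _ _ (hT y z hy).2, ← mul_assoc (G _ _ _),
        hC _ _ _ z ((hO' x).2.2 hx) ((hO' y).2.2 hy) ((hO' d).2.2 hd)]))
  refine ⟨a, O, fun x w => k x ((e (a x)).symm w) * T x w, hO, fun x z hz => ?_,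
    fun x y z hx hy => ?_⟩
  · have s1 := (hO x).2.2 hz
    refine ⟨((hT x z hz).1.d.const_mul (k x z : 𝔸)).congr_of_eventuallyEq ?_,
      (Units.isUnit _).mul (hT x z hz).2⟩
    filter_upwards [((e (a x)).continuousAt_symm ((e (a x)).map_source s1)).eventually
      (((e (a x)).left_inv s1).symm ▸ k1 x z hz)] with w hw
    rw [hw, (e (a x)).left_inv s1]
  · simp only [(e (a x)).left_inv ((hO x).2.2 hx), (e (a y)).left_inv ((hO y).2.2 hy),
      k2 x y z hx hy, Units.val_mul, hv _ _ _ hx hy, hc, mul_assoc,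
      Ring.inverse_mul_cancel _ (hT y z hy).2, mul_one]

end Pool.Agent.Lib.F4.M7
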