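import Pool.Agent.Lib.F4.BlueR
import Mathlib.Topology.Algebra.LinearMapCompletion

/-! Project f4, part R: the abstract step in a space with an inner product. -/

open scoped Classical Topology
open Set Filter UniformSpace

set_option linter.unusedVariables false

noncomputable section

namespace Pool.Agent.Lib.F4.R

namespace HIL

variable {C : Type} [SeminormedAddCommGroup C] [InnerProductSpace ℂ C]

/-- A bounded functional is represented by a vector of the completion. -/
theorem riesz (f : C →ₗ[ℂ] ℂ) (A : ℝ) (hf : ∀ s, ‖f s‖ ≤ A * ‖s‖) :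
    ∃ x : Completion C, ∀ t : C, inner ℂ x (t : Completion C) = f t := by
  refine ⟨(InnerProductSpace.toDual ℂ (Completion C)).symm
    (f.mkContinuous A hf).fromCompletion, fun t => ?_⟩
  rw [InnerProductSpace.toDual_symm_apply, ContinuousLinearMap.fromCompletion_apply_coe]
  rfl

/-- The range of `D` is dense in the completion. -/
theorem dense (D : C →ₗ[ℂ] C) (c : ℝ) (hc : 0 < c)
    (h2 : ∀ u : Completion C, (∀ s : C, inner ℂ u ((D s : C) : Completion C) = 0) →
      ∀ η : ℝ, 0 < η → ∃ s : C, ‖u - s‖ < η ∧ ‖D s‖ < η)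
    (h3 : ∀ s, c * ‖s‖ ≤ ‖D s‖) (x : Completion C) (ε : ℝ) (hε : 0 < ε) :
    ∃ s : C, ‖((D s : C) : Completion C) - x‖ < ε := by
  let T : C →ₗ[ℂ] Completion C :=
    (Completion.toComplL : C →L[ℂ] Completion C).toLinearMap ∘ₗ D
  have hT : ∀ s, T s = ((D s : C) : Completion C) := fun s => rfl
  have hK : (LinearMap.range T).topologicalClosure = ⊤ := by
    rw [Submodule.topologicalClosure_eq_top_iff, Submodule.eq_bot_iff]
    intro u hu
    have h0 : ∀ s : C, inner ℂ u ((D s : C) : Completion C) = 0 := fun s => by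
      rw [← hT]
      exact (Submodule.mem_orthogonal' _ _).1 hu _ (LinearMap.mem_range_self T s)
    have h1 : ∀ η : ℝ, 0 < η → ‖u‖ ≤ η * (1 + c⁻¹) := fun η hη => by
      obtain ⟨s, hs, hs'⟩ := h2 u h0 η hη
      have e1 : ‖s‖ ≤ η * c⁻¹ := by
        rw [← div_eq_mul_inv, le_div_iff₀ hc, mul_comm]
        exact (h3 s).trans hs'.le
      have e2 : ‖u‖ ≤ ‖u - s‖ + ‖(s : Completion C)‖ := by
        simpa using norm_add_le (u - s) (s : Completion C)
      rw [Completion.norm_coe] at e2
      linarith
    have h5 : 0 < 1 + c⁻¹ := by positivity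
    rw [← norm_le_zero_iff]
    refine le_of_forall_pos_le_add fun η hη => ?_
    have := h1 (η / (1 + c⁻¹)) (by positivity)
    rw [div_mul_cancel₀ _ h5.ne'] at this
    linarith
  have hx : x ∈ closure ((LinearMap.range T : Submodule ℂ (Completion C)) : Set _) := by
    rw [← Submodule.topologicalClosure_coe, hK]
    trivial
  obtain ⟨y, ⟨s, rfl⟩, hy⟩ := Metric.mem_closure_iff.1 hx ε hε
  refine ⟨s, ?_⟩
  rw [← hT, ← dist_eq_norm, dist_comm]
  exact hy

end HIL

theorem st_HIL : St_HIL := by
  intro C _ _ P Q f c A hc h1 h2 h3 h4 h5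
  obtain ⟨x, hx⟩ := HIL.riesz f A h4
  have hd := HIL.dense (Q + P) c hc h2 h3 x
  have hp : ∀ j : ℕ, 0 < c * (1 / 2) ^ j / 2 := fun j => by positivity
  choose W hW using fun j : ℕ => hd _ (hp j)
  simp only [LinearMap.add_apply] at hW
  refine ⟨W, fun j => ?_, fun t => ?_⟩
  · have e1 := h3 (W (j + 1) - W j)
    have e2 : Q (W (j + 1) - W j) + P (W (j + 1) - W j) =
        (Q (W (j + 1)) + P (W (j + 1))) - (Q (W j) + P (W j)) := by
      rw [map_sub, map_sub]; abel
    rw [e2] at e1
    have e3 := norm_sub_le_norm_sub_add_norm_sub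
      ((Q (W (j + 1)) + P (W (j + 1)) : C) : Completion C) x
      ((Q (W j) + P (W j) : C) : Completion C)
    rw [norm_sub_rev x, ← Completion.coe_sub, Completion.norm_coe] at e3
    have e4 := hW (j + 1)
    have e5 := hW j
    have e6 : c * (1 / 2 : ℝ) ^ (j + 1) / 2 ≤ c * (1 / 2) ^ j / 2 := by
      have := hp j
      rw [pow_succ]
      linarith
    refine le_of_mul_le_mul_left ?_ hc
    linarith
  · have hQ : ∀ j, ‖Q (W j)‖ ≤ c * (1 / 2) ^ j / 2 := fun j => by
      have a1 : inner ℂ ((Q (W j) : C) : Completion C) x = 0 := by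
        rw [← inner_conj_symm, hx, h5, map_zero]
      have a2 : inner ℂ (Q (W j)) (Q (W j)) = inner ℂ ((Q (W j) : C) : Completion C)
          (((Q (W j) + P (W j) : C) : Completion C) - x) := by
        rw [inner_sub_right, a1, sub_zero, Completion.inner_coe, inner_add_right, h1, add_zero]
      have a3 : ‖Q (W j)‖ * ‖Q (W j)‖ ≤ ‖Q (W j)‖ * (c * (1 / 2) ^ j / 2) := by
        rw [← inner_self_eq_norm_mul_norm (𝕜 := ℂ), a2]
        refine (RCLike.re_le_norm _).trans ((norm_inner_le_norm _ _).trans ?_)
        rw [Completion.norm_coe]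
        exact mul_le_mul_of_nonneg_left (hW j).le (norm_nonneg _)
      rcases (norm_nonneg (Q (W j))).eq_or_lt with h | h
      · rw [← h]; exact (hp j).le
      · exact le_of_mul_le_mul_left a3 h
    have hP : ∀ j, ‖((P (W j) : C) : Completion C) - x‖ ≤ c * (1 / 2) ^ j := fun j => by
      have a1 : ((P (W j) : C) : Completion C) - x =
          (((Q (W j) + P (W j) : C) : Completion C) - x) - ((Q (W j) : C) : Completion C) := by
        rw [Completion.coe_add]; abel
      have a2 := norm_sub_le (((Q (W j) + P (W j) : C) : Completion C) - x)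
        ((Q (W j) : C) : Completion C)
      rw [Completion.norm_coe, ← a1] at a2
      have := hW j
      have := hQ j
      linarith
    have h0 : Tendsto (fun j : ℕ => c * (1 / 2 : ℝ) ^ j) atTop (𝓝 0) := by
      simpa using (tendsto_pow_atTop_nhds_zero_of_lt_one (r := (1 / 2 : ℝ)) (by norm_num)
        (by norm_num)).const_mul c
    have hl : Tendsto (fun j => ((P (W j) : C) : Completion C)) atTop (𝓝 x) :=
      tendsto_iff_norm_sub_tendsto_zero.2 (squeeze_zero (fun _ => norm_nonneg _) hP h0)
    have := hl.inner (𝕜 := ℂ) (tendsto_const_nhds (x := (t : Completion C)))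
    rw [hx] at this
    simpa only [Completion.inner_coe] using this

end Pool.Agent.Lib.F4.R
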