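import Pool.Agent.Lib.K3E.SDefs

/-! Definitions used in the statement: twisted holomorphic forms, hypersurfaces. -/

open scoped Matrix Topology

noncomputable section

namespace Pool.Agent.Lib.F4

open Pool.Agent.Lib.SV Pool.Agent.Lib.HS Pool.Agent.Lib.KP

variable (n : ℕ) (X : Type) [TopologicalSpace X] [ChartedSpace (E n) X]

/-- Holomorphic `p`-forms with values in the `a`-th power of the canonical bundle: `α y` is the
value at `y` in the preferred chart of `y`. -/
def TF (p a : ℕ) : Set (X → E n [⋀^Fin p]→ₗ[ℂ] ℂ) :=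
  {α | ∀ (x : X) (v : Fin p → E n), DifferentiableAt ℂ (fun z =>
    α ((chartAt (E n) x).symm z) (fun i => jacM x z *ᵥ v i) * jacAt n X x z ^ a)
      (chartAt (E n) x x)}

variable {X}

/-- The set `Z` contains a non-empty hypersurface: the functions `f i` on the open sets `U i` of a
covering are local equations of an effective divisor that is not zero, with support in `Z`. -/
def HypIn (Z : Set X) : Prop := ∃ (ι : Type) (U : ι → Set X) (f : ι → X → ℂ)
  (u : ι → ι → X → ℂ), (∀ i, IsOpen (U i)) ∧ (∀ x, ∃ i, x ∈ U i) ∧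
  (∀ i, ∀ x ∈ U i, HolAt n 0 (f i) x ∧ (∃ᶠ y in 𝓝 x, f i y ≠ 0) ∧ (f i x = 0 → x ∈ Z)) ∧
  (∀ i j, ∀ x ∈ U i ∩ U j, HolAt n 0 (u i j) x ∧ u i j x ≠ 0 ∧ f i x = u i j x * f j x) ∧
  ∃ i, ∃ x ∈ U i, f i x = 0

end Pool.Agent.Lib.F4
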