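import Pool.Agent.Lib.F4.BlueT

/-! Project f4, step six: the dual form is closed. -/

open scoped Classical Topology ContDiff ComplexOrder Matrix
open Set Filter

noncomputable section

namespace Pool.Agent.Lib.F4.T6

open Pool.Agent.Lib.SV (E)
open Pool.Agent.Lib.HS32

theorem tAF : St_AF := by
  intro n a p q s z h
  have ha : ∀ l, ContDiffAt ℝ 3 (fun w => a w l) z := fun l =>
    contDiffAt_infty.1 (BHOL.smooth (h.hol l)) 3
  have hc : ContDiffAt ℝ 3 (fun w => ((s * Real.exp (-q w) : ℝ) : ℂ)) z :=
    Complex.ofRealCLM.contDiff.contDiffAt.comp z (contDiffAt_const.mul h.sq.neg.exp)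
  have hs : ∀ l, ContDiffAt ℝ 3 (fun w => star (a w l)) z := fun l =>
    Complex.conjCLE.contDiff.contDiffAt.comp z (ha l)
  refine ⟨fun l => hc.mul (hs l), fun l m => ?_⟩
  have hq : DifferentiableAt ℝ q z := h.sq.differentiableAt (by norm_num)
  have hq' : DifferentiableAt ℝ (fun w => (q w : ℂ)) z :=
    Complex.ofRealCLM.differentiableAt.comp z hq
  have hd : HasDerivAt (fun t : ℝ => s * Real.exp (-t)) (-(s * Real.exp (-q z))) (q z) := by
    have := ((hasDerivAt_neg (q z)).exp).const_mul s
    simpa using this
  have e : ∀ l m, dzb m (fun w => af a q s w l) z = ((s * Real.exp (-q z) : ℝ) : ℂ) *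
      star (dz m (fun w => a w l) z - dz m (rc q) z * a z l) := fun l m => by
    have h1 := dzb_mul (j := m) (hc.differentiableAt (by norm_num))
      ((hs l).differentiableAt (by norm_num))
    rw [dzb_star ((ha l).differentiableAt (by norm_num)),
      dzb_comp_real (φ := fun t : ℝ => s * Real.exp (-t)) hd hq, ← star_dz_ofReal hq'] at h1
    refine h1.trans ?_
    rw [star_sub, star_mul']
    unfold rc
    push_cast
    ring
  have h2 := h.pq m l
  rw [e, e]
  congr 2
  linear_combination h2

end Pool.Agent.Lib.F4.T6
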