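import Pool.Agent.Lib.F4.Blue

/-! Project f4: the weights given by the theorem on the Lelong numbers. -/

open scoped Classical Topology ContDiff ComplexOrder Matrix
open Set Filter MeasureTheory

noncomputable section

namespace Pool.Agent.Lib.F4

open Pool.Agent.Lib.HS32

theorem st_OUZ (hZ : ZK47.St_MAIN) : St_OUZ := by
  intro n M _ H hH hN
  have z0 : M.Sm fun _ => (0 : ℝ) := Mf.sm_const 0
  have cr : M.Clo (-M.ric H) := ((mHES n M).2.2.2.2.2.2.2.2.1 H hH.toMet).neg
  have c0 : M.Clo 0 := by simpa only [sub_self] using cr.sub cr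
  refine hZ n M H 0 (fun _ _ => 0) (fun _ _ => 0) ((M.mu H).real univ) 2 hH c0
    ⟨one_lt_two, fun _ _ => z0, fun _ _ _ => le_rfl, fun _ _ => continuous_const,
      fun _ _ _ => ⟨le_rfl, measureReal_nonneg⟩, fun _ _ c hc z hz => ?_, fun _ _ => by simp,
      by simp⟩ fun ε hε => ?_
  · have := ((mLAP n M _ _ z0 z0).1 0 c hc z hz).1
    simp only [Pi.zero_apply, this, zero_smul, add_zero]
    exact Matrix.PosSemidef.zero
  · obtain ⟨w, hw, hp⟩ := hN ε hε
    have k := (cr.add (hH.toClo.smul ε)).add ((mHES n M).1 w hw)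
    rw [show -M.ric H + ε • H + M.hs w = M.gE H ε w by rw [Mf.gE]; abel] at k
    refine ⟨w, hw, ?_⟩
    rw [show 0 - M.ric H + ε • H + M.hs w = M.gE H ε w by rw [Mf.gE]; abel]
    exact ⟨k, hp⟩

end Pool.Agent.Lib.F4
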