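import Pool.Agent.Lib.F4.BlueT
import Pool.Agent.Lib.HS32.MAll
import Pool.Agent.Lib.SV.B_ZER
import Pool.Agent.Lib.SV.B_SUB

/-! Project f4, step six: the obstruction form is a source. -/

open scoped Classical Topology ContDiff ComplexOrder Matrix
open Set Filter MeasureTheory Metric

set_option linter.unusedVariables false

noncomputable section

namespace Pool.Agent.Lib.F4.T6

open Pool.Agent.Lib.SV (E)
open Pool.Agent.Lib.HS32 Pool.Agent.Lib.HLK

theorem tSR (hDT : St_DT) (hRH : St_RH) (hXB : St_XB) (hCL : St_CL) (hX1 : St_X1) : St_SR := by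
  intro n M α φ ψ s hI
  obtain ⟨-, hT, -⟩ := mTR n M
  refine ⟨?_, ?_, ?_⟩
  · intro e he e' he' x hx hx' l
    obtain ⟨h1, h2, -, h4, -⟩ := hT e he e' he' x hx hx'
    have hxe : (e ∘ e'.symm) (e' x) = e x := by simp [e'.left_inv hx']
    have hp : Pt (α e) (φ e) (ψ e) s ((e ∘ e'.symm) (e' x)) := by
      rw [hxe]; exact hI.pt e he _ (e.map_source hx)
    have key := hX1 n (e ∘ e'.symm) (α e) (α e') (φ e) (ψ e) (φ e') (ψ e') s (e' x) h1 h2 hp ?_ l
    · rw [hxe] at key
      exact key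
    · filter_upwards [h4] with w hw
      obtain ⟨-, a2, a3, -, -, a6, a7⟩ := hw
      have b1 := hI.h1.cmp e he e' he' _ a2 a3
      have b2 := hI.cφ e he e' he' _ a2 a3
      have b3 := hI.cψ e he e' he' _ a2 a3
      simp only [jd, a6, a7, zpow_one] at b1 b2 b3
      exact ⟨b1, b2, b3⟩
  · intro e he l
    exact hXB n e.target (α e) (φ e) (ψ e) s e.open_target (fun z hz => hI.pt e he z hz) l
  · intro x
    obtain ⟨e, ρ, G, hρ, hx, hD⟩ := hDT n M α φ ψ s hI x
    have hpt : ∀ z ∈ ball (e x) ρ, Pt (α e) (φ e) (ψ e) s z := fun z hz =>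
      hI.pt e hD.mem z (hD.sub hz)
    obtain ⟨w, hw0, hw⟩ := ((hI.den e hD.mem _ (e.map_source hx)).and_eventually
      (ball_mem_nhds (e x) hρ)).exists
    obtain ⟨k, hk⟩ := Function.ne_iff.1 hw0
    have hd : DifferentiableOn ℂ (α e · k) (ball (e x) ρ) := fun z hz =>
      ((hpt z hz).hol k).self_of_nhds.differentiableWithinAt
    have hz := SV.stZER SV.stSUB n (α e · k) (e x) ρ hd ⟨w, hw, hk⟩
    refine ⟨e, hD.mem, ball (e x) ρ, isOpen_ball, hD.sub, ⟨hx, mem_ball_self hρ⟩, ?_⟩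
    refine hCL n _ (α e · k) (rho (α e) (φ e) G · k) _ isOpen_ball hd ?_
      (hXB n _ (α e) (φ e) (ψ e) s isOpen_ball hpt) fun z hz' =>
        hRH n _ (α e) (φ e) (ψ e) s G isOpen_ball hpt hD.pr z hz' k
    rw [ae_iff]
    refine measure_mono_null (fun z h => ?_) hz
    simpa using h

end Pool.Agent.Lib.F4.T6
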