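import Pool.Agent.Lib.F4.M7

/-! Project f4: manifolds with a projective triple. -/

open Set

noncomputable section

namespace Pool.Agent.Lib.F4

open Pool.Agent.Lib.SV (E)
open Pool.Agent.Lib.HS32

/-- Local projective triples that cover the manifold and satisfy the gauge law. -/
def TRI {n : ℕ} (M : Mf n) : Prop := ∃ (ι : Type) (e : ι → M.Ch) (D : ι → Set (E n))
  (al be ga : ι → E n → E n) (c : ι → ι → E n → ℂ), (∀ a, e a ∈ M.C) ∧ (∀ a, IsOpen (D a)) ∧
  (∀ x, ∃ a, In (e a) (D a) x) ∧ (∀ a x, In (e a) (D a) x → Tri (al a) (be a) (ga a) (e a x)) ∧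
  (∀ a b x, In (e a) (D a) x → In (e b) (D b) x →
    Gg (e a) (e b) (al a) (be a) (ga a) (al b) (be b) (ga b) (c a b) x) ∧
  ∀ a b d x, In (e a) (D a) x → In (e b) (D b) x → In (e d) (D d) x →
    c a d (e d x) = c a b (e b x) / (M.J (e b) (e d) x).det + c b d (e d x)

end Pool.Agent.Lib.F4
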