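import Mathlib

/-! Project f4: weak limits of functions that are bounded in all the spaces `L^p`. -/

open MeasureTheory Filter Topology Set
open scoped ENNReal

noncomputable section

namespace Pool.Agent.Lib.F4.W17

/-- A bounded sequence in a real Hilbert space converges weakly along an ultrafilter. -/
theorem weak_ultra {H : Type} [NormedAddCommGroup H] [InnerProductSpace ℝ H] [CompleteSpace H]
    (l : Ultrafilter ℕ) (x : ℕ → H) (R : ℝ) (hx : ∀ j, ‖x j‖ ≤ R) : ∃ z : H, ∀ v,
      Tendsto (fun j => inner ℝ (x j) v) l (𝓝 (inner ℝ z v)) := by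
  have hc := WeakDual.isCompact_closedBall (𝕜 := ℝ) (0 : StrongDual ℝ H) R
  let om : ℕ → WeakDual ℝ H := fun j =>
    StrongDual.toWeakDual (InnerProductSpace.toDual ℝ H (x j))
  obtain ⟨w, -, hw⟩ := hc.ultrafilter_le_nhds (l.map om) (by
    rw [le_principal_iff, Ultrafilter.coe_map, mem_map]
    refine univ_mem' fun j => ?_
    simpa [om] using hx j)
  refine ⟨(InnerProductSpace.toDual ℝ H).symm (WeakDual.toStrongDual w), fun v => ?_⟩
  have h1 : Tendsto (fun j => om j v) l (𝓝 (w v)) :=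
    ((WeakDual.eval_continuous v).tendsto w).comp hw
  rw [InnerProductSpace.toDual_symm_apply]
  exact h1

variable {X : Type} [MeasurableSpace X] {μ : Measure X}

/-- Weak limit in `L^2`, in terms of functions. -/
theorem weak_two (l : Ultrafilter ℕ) (f : ℕ → X → ℝ) (C : ℝ) (hm : ∀ j, MemLp (f j) 2 μ)
    (hC : ∀ j, ∫ x, f j x ^ 2 ∂μ ≤ C) : ∃ F : X → ℝ, Measurable F ∧ MemLp F 2 μ ∧
      ∀ g : X → ℝ, MemLp g 2 μ →
        Tendsto (fun j => ∫ x, f j x * g x ∂μ) l (𝓝 (∫ x, F x * g x ∂μ)) := by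
  have ip : ∀ (a b : X → ℝ) (ha : MemLp a 2 μ) (hb : MemLp b 2 μ),
      inner ℝ (ha.toLp a) (hb.toLp b) = ∫ x, a x * b x ∂μ := fun a b ha hb => by
    rw [L2.inner_def]
    refine integral_congr_ae ?_
    filter_upwards [ha.coeFn_toLp, hb.coeFn_toLp] with x h1 h2
    rw [h1, h2, real_inner_comm]
    simp
  obtain ⟨z, hz⟩ := weak_ultra l (fun j => (hm j).toLp (f j)) (Real.sqrt C) fun j => by
    refine Real.le_sqrt_of_sq_le ?_
    rw [← real_inner_self_eq_norm_sq, ip]
    simpa only [sq] using hC j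
  have hzm := (Lp.aestronglyMeasurable z)
  have e : (z : X → ℝ) =ᵐ[μ] hzm.mk z := hzm.ae_eq_mk
  have hF : MemLp (hzm.mk z) 2 μ := (Lp.memLp z).ae_eq e
  refine ⟨hzm.mk z, hzm.stronglyMeasurable_mk.measurable, hF, fun g hg => ?_⟩
  have h := hz (hg.toLp g)
  have ez : z = hF.toLp _ := by
    refine Lp.ext ?_
    exact e.trans hF.coeFn_toLp.symm
  simp only [ip] at h
  rw [← ip _ _ hF hg, ← ez]
  exact h

/-- An elementary form of the inequality of Young. -/
theorem young (p : ℕ) {a b : ℝ} (ha : 0 ≤ a) (hb : 0 ≤ b) :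
    a * b ^ p ≤ 2 ^ p * a ^ (p + 1) + b ^ (p + 1) / 2 := by
  have h1 : 0 ≤ (2 : ℝ) ^ p * a ^ (p + 1) := by positivity
  have h2 : 0 ≤ b ^ (p + 1) / 2 := by positivity
  rcases le_total b (2 * a) with h | h
  · have : b ^ p ≤ (2 * a) ^ p := pow_le_pow_left₀ hb h p
    have h3 : a * b ^ p ≤ a * (2 * a) ^ p := mul_le_mul_of_nonneg_left this ha
    have h4 : a * (2 * a) ^ p = 2 ^ p * a ^ (p + 1) := by rw [mul_pow]; ring
    linarith
  · have h3 : a * b ^ p ≤ b / 2 * b ^ p :=
      mul_le_mul_of_nonneg_right (by linarith) (pow_nonneg hb p)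
    have h4 : b / 2 * b ^ p = b ^ (p + 1) / 2 := by ring
    linarith

variable [IsFiniteMeasure μ]

theorem mem_bd {g : X → ℝ} (hg : Measurable g) {A : ℝ} (h : ∀ x, |g x| ≤ A) (q : ℝ≥0∞) :
    MemLp g q μ :=
  MemLp.of_bound hg.aestronglyMeasurable A (Eventually.of_forall h)

/-- The weak limit of functions bounded below by one and bounded in all the spaces `L^p`. -/
theorem wlim (l : Ultrafilter ℕ) (f : ℕ → X → ℝ) (hm : ∀ j, Measurable (f j))
    (h1 : ∀ j x, 1 ≤ f j x)
    (hp : ∀ p : ℕ, ∃ C : ℝ, ∀ j, Integrable (fun x => f j x ^ p) μ ∧ ∫ x, f j x ^ p ∂μ ≤ C) :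
    ∃ F : X → ℝ, Measurable F ∧ (∀ x, 1 ≤ F x) ∧ (∀ p : ℕ, Integrable (fun x => F x ^ p) μ) ∧
      (∀ p : ℕ, MemLp F p μ) ∧
      (∀ g : X → ℝ, MemLp g 2 μ →
        Tendsto (fun j => ∫ x, f j x * g x ∂μ) l (𝓝 (∫ x, F x * g x ∂μ))) ∧
      ∀ g : X → ℂ, MemLp g 2 μ →
        Tendsto (fun j => ∫ x, (f j x : ℂ) * g x ∂μ) l (𝓝 (∫ x, (F x : ℂ) * g x ∂μ)) := by
  obtain ⟨C2, hC2⟩ := hp 2
  have hf2 : ∀ j, MemLp (f j) 2 μ := fun j =>
    (memLp_two_iff_integrable_sq (hm j).aestronglyMeasurable).2 (hC2 j).1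
  obtain ⟨G, hG, hG2, hw⟩ := weak_two l f C2 hf2 fun j => (hC2 j).2
  have hG1 : Integrable G μ := hG2.integrable one_le_two
  have ge : ∀ᵐ x ∂μ, 1 ≤ G x := by
    refine ae_le_of_forall_setIntegral_le (integrable_const 1) hG1 fun s hs _ => ?_
    have hi : MemLp (s.indicator fun _ => (1 : ℝ)) 2 μ := (memLp_const 1).indicator hs
    have e : ∀ a : X → ℝ, ∫ x, a x * s.indicator (fun _ => (1 : ℝ)) x ∂μ = ∫ x in s, a x ∂μ :=
      fun a => by
        rw [← integral_indicator hs]
        refine integral_congr_ae (Eventually.of_forall fun x => ?_)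
        by_cases hx : x ∈ s <;> simp [hx]
    have h := hw _ hi
    simp only [e] at h
    refine ge_of_tendsto h (Eventually.of_forall fun j => ?_)
    exact setIntegral_mono_on (integrable_const 1).integrableOn
      ((hf2 j).integrable one_le_two).integrableOn hs fun x _ => h1 j x
  let F : X → ℝ := fun x => max (G x) 1
  have hF : Measurable F := hG.max measurable_const
  have F1 : ∀ x, 1 ≤ F x := fun x => le_max_right _ _
  have eF : G =ᵐ[μ] F := by
    filter_upwards [ge] with x hx using (max_eq_left hx).symm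
  have hF2 : MemLp F 2 μ := hG2.ae_eq eF
  have hwF : ∀ g : X → ℝ, MemLp g 2 μ →
      Tendsto (fun j => ∫ x, f j x * g x ∂μ) l (𝓝 (∫ x, F x * g x ∂μ)) := fun g hg => by
    have e : ∫ x, F x * g x ∂μ = ∫ x, G x * g x ∂μ := by
      refine integral_congr_ae ?_
      filter_upwards [eF] with x hx
      rw [hx]
    rw [e]
    exact hw g hg
  have hI : ∀ p : ℕ, Integrable (fun x => F x ^ (p + 1)) μ := fun p => by
    obtain ⟨C, hC⟩ := hp (p + 1)
    let T : ℕ → X → ℝ := fun N x => min (F x) N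
    have T0 : ∀ N x, 0 ≤ T N x := fun N x => le_min (zero_le_one.trans (F1 x)) (Nat.cast_nonneg N)
    have Tm : ∀ N, Measurable (T N) := fun N => hF.min measurable_const
    have Tb : ∀ N (k : ℕ) q, MemLp (fun x => T N x ^ k) q μ := fun N k q =>
      mem_bd ((Tm N).pow_const k) (A := (N : ℝ) ^ k) (fun x => by
        rw [abs_of_nonneg (pow_nonneg (T0 N x) k)]
        exact pow_le_pow_left₀ (T0 N x) (min_le_right _ _) k) q
    have Ti : ∀ N (k : ℕ), Integrable (fun x => T N x ^ k) μ := fun N k =>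
      memLp_one_iff_integrable.1 (Tb N k 1)
    have key : ∀ N, ∫ x, T N x ^ (p + 1) ∂μ ≤ 2 * (2 ^ p * C) := fun N => by
      have a1 : ∫ x, T N x ^ (p + 1) ∂μ ≤ ∫ x, F x * T N x ^ p ∂μ := by
        refine integral_mono (Ti N _) (hF2.integrable_mul (Tb N p 2)) fun x => ?_
        have : T N x * T N x ^ p ≤ F x * T N x ^ p :=
          mul_le_mul_of_nonneg_right (min_le_left _ _) (pow_nonneg (T0 N x) p)
        calc T N x ^ (p + 1) = T N x * T N x ^ p := by ring
          _ ≤ _ := this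
      have a2 : ∫ x, F x * T N x ^ p ∂μ ≤ 2 ^ p * C + (∫ x, T N x ^ (p + 1) ∂μ) / 2 := by
        refine le_of_tendsto (hwF _ (Tb N p 2)) (Eventually.of_forall fun j => ?_)
        have b1 : ∫ x, f j x * T N x ^ p ∂μ ≤
            ∫ x, (2 ^ p * f j x ^ (p + 1) + T N x ^ (p + 1) / 2) ∂μ :=
          integral_mono ((hf2 j).integrable_mul (Tb N p 2))
            (((hC j).1.const_mul _).add ((Ti N _).div_const _))
            fun x => young p (zero_le_one.trans (h1 j x)) (T0 N x)
        rw [integral_add ((hC j).1.const_mul _) ((Ti N _).div_const _), integral_const_mul,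
          integral_div] at b1
        have b2 : (2 : ℝ) ^ p * ∫ x, f j x ^ (p + 1) ∂μ ≤ 2 ^ p * C :=
          mul_le_mul_of_nonneg_left (hC j).2 (by positivity)
        linarith
      linarith
    have F0 : ∀ x, 0 ≤ F x ^ (p + 1) := fun x => pow_nonneg (zero_le_one.trans (F1 x)) _
    refine ⟨(hF.pow_const _).aestronglyMeasurable, ?_⟩
    rw [hasFiniteIntegral_iff_ofReal (Eventually.of_forall F0)]
    have lim : ∀ x, liminf (fun N => ENNReal.ofReal (T N x ^ (p + 1))) atTop =
        ENNReal.ofReal (F x ^ (p + 1)) := fun x => by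
      refine Tendsto.liminf_eq (tendsto_const_nhds.congr' ?_)
      obtain ⟨N, hN⟩ := exists_nat_ge (F x)
      filter_upwards [eventually_ge_atTop N] with k hk
      have : T k x = F x := min_eq_left (hN.trans (Nat.cast_le.2 hk))
      rw [this]
    have fa := lintegral_liminf_le (μ := μ) (u := atTop)
      (f := fun N x => ENNReal.ofReal (T N x ^ (p + 1)))
      fun N => ((Tm N).pow_const _).ennreal_ofReal
    simp only [lim] at fa
    refine lt_of_le_of_lt (fa.trans (liminf_le_of_frequently_le' (Frequently.of_forall fun N => ?_)))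
      (ENNReal.ofReal_lt_top (r := 2 * (2 ^ p * C)))
    rw [← ofReal_integral_eq_lintegral_ofReal (Ti N _)
      (Eventually.of_forall fun x => pow_nonneg (T0 N x) _)]
    exact ENNReal.ofReal_le_ofReal (key N)
  have hI' : ∀ p : ℕ, Integrable (fun x => F x ^ p) μ := fun p => by
    cases p with
    | zero => simpa only [pow_zero] using integrable_const (1 : ℝ)
    | succ p => exact hI p
  refine ⟨F, hF, F1, hI', fun p => ?_, hwF, fun g hg => ?_⟩
  · rcases Nat.eq_zero_or_pos p with rfl | h0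
    · simpa using hF.aestronglyMeasurable
    · rw [← integrable_norm_rpow_iff hF.aestronglyMeasurable (by exact_mod_cast h0.ne')
        (ENNReal.natCast_ne_top p)]
      refine (hI' p).congr (Eventually.of_forall fun x => ?_)
      simp only [ENNReal.toReal_natCast, Real.rpow_natCast, Real.norm_eq_abs,
        abs_of_nonneg (zero_le_one.trans (F1 x))]
  · have sp : ∀ a : X → ℝ, MemLp a 2 μ → ∫ x, (a x : ℂ) * g x ∂μ =
        ((∫ x, a x * (g x).re ∂μ : ℝ) : ℂ) + ((∫ x, a x * (g x).im ∂μ : ℝ) : ℂ) * Complex.I :=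
      fun a ha => by
        have hi : Integrable (fun x => (a x : ℂ) * g x) μ :=
          MemLp.integrable_mul (ha.ofReal (K := ℂ)) hg
        have r := integral_re hi
        have i := integral_im hi
        simp only [RCLike.re_to_complex, RCLike.im_to_complex, Complex.re_ofReal_mul,
          Complex.im_ofReal_mul] at r i
        rw [r, i, Complex.re_add_im]
    simp only [sp _ hF2, fun j => sp _ (hf2 j)]
    exact ((Complex.continuous_ofReal.tendsto _).comp (hwF _ hg.re)).add
      (((Complex.continuous_ofReal.tendsto _).comp (hwF _ hg.im)).mul_const _)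

end Pool.Agent.Lib.F4.W17
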