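import Pool.Agent.Lib.F4.BlueS
import Pool.Agent.Lib.F4.W82

/-! Project f4: the form `bet` for functions of class `C^1`. -/

open scoped Classical Topology ENNReal ContDiff ComplexOrder Matrix
open Set MeasureTheory Complex Metric Filter

noncomputable section

namespace Pool.Agent.Lib.F4.W82

open Pool.Agent.Lib.HS32
open Pool.Agent.Lib.SV (E)

variable {n : ℕ} {M : Mf n} {H : M.Fam (Mat n)} {α : M.Fam (E n)}

theorem C1.dlc {u : M.X → ℝ} (hu : C1 M u) : M.All fun e z => DifferentiableAt ℝ (M.lc u e) z :=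
  fun e he z hz => ofRealCLM.differentiableAt.comp z (hu.diff e he z hz)

theorem C1.continuous {u : M.X → ℝ} (hu : C1 M u) : Continuous u :=
  continuous_iff_continuousAt.2 fun x => by
    have h1 := (hu _ (Mf.ch_mem x) _ (Mf.ch_tgt x)).continuousAt
    have h2 := h1.comp ((M.ch x).continuousAt (Mf.mem_ch x))
    refine h2.congr ?_
    filter_upwards [(M.ch x).open_source.mem_nhds (Mf.mem_ch x)] with y hy
    simp [(M.ch x).left_inv hy]

theorem bet_sub {u v : M.X → ℝ} (hu : C1 M u) (hv : C1 M v) : M.All fun e z =>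
    bet M H α (fun x => u x - v x) e z = bet M H α u e z - bet M H α v e z := by
  intro e he z hz
  have e1 : ∀ j, dz j (M.lc (fun x => u x - v x) e) z = dz j (M.lc u e) z - dz j (M.lc v e) z := by
    intro j
    rw [← dz_sub (hu.dlc e he z hz) (hv.dlc e he z hz)]
    exact dz_congr (Eventually.of_forall fun w => ofReal_sub _ _)
  ext i j
  simp only [bet, da, wg, gd, Matrix.sub_apply, Matrix.smul_apply, Matrix.of_apply, e1,
    smul_eq_mul, ofReal_sub]
  ring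

theorem p1_self (A : Mat n) (a : E n) :
    p1 A a a = (A⁻¹ * Matrix.vecMulVec (star a) a).trace := by
  simp only [p1, Matrix.trace, Matrix.diag, Matrix.mul_apply, Matrix.vecMulVec_apply, dotProduct,
    Matrix.mulVec, Finset.mul_sum]
  exact Finset.sum_congr rfl fun i _ => Finset.sum_congr rfl fun j _ => by ring

theorem n2_eq (hH : M.Met H) (m : M.Fam (Mat n)) (x : M.X) : n2 M H m x =
    (p2 (M.ev H x) (M.ev m x) (M.ev m x)).re / (M.ev H x).det.re := by
  have := Mf.herm_det (hH.ev_pos x).isHermitian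
  show (p2 (M.ev H x) (M.ev m x) (M.ev m x) / (M.ev H x).det).re = _
  rw [← this, div_ofReal_re, ofReal_re]

theorem tr_aa (hH : M.Met H) (x : M.X) : M.tr H (aa M H α) x =
    (p1 (M.ev H x) (M.ev α x) (M.ev α x)).re / (M.ev H x).det.re := by
  have := Mf.herm_det (hH.ev_pos x).isHermitian
  show ((M.ev H x)⁻¹ * ((M.ev H x).det⁻¹ •
    Matrix.vecMulVec (star (M.ev α x)) (M.ev α x))).trace.re = _
  rw [Matrix.mul_smul, Matrix.trace_smul, p1_self, smul_eq_mul, mul_comm, ← div_eq_mul_inv,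
    ← this, div_ofReal_re, ofReal_re]

theorem n2_da_le (hP : St_PW1) (hH : M.Met H) {u : M.X → ℝ} (hu : C1 M u) (x : M.X) :
    n2 M H (da M u α) x ≤ M.gr H u u x * M.tr H (aa M H α) x := by
  have hd := Mf.pd_det_re (hH.ev_pos x)
  have h1 := ((hP n _).2.2.2.2 (hH.ev_pos x)).2.1 (gd (M.lc u (M.ch x)) (M.ch x x)) (M.ev α x)
  have h2 : M.gr H u u x = (p1 (M.ev H x) (gd (M.lc u (M.ch x)) (M.ch x x))
      (gd (M.lc u (M.ch x)) (M.ch x x))).re := by
    rw [p1_self]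
    exact congrArg (fun T => ((M.ev H x)⁻¹ * T).trace.re) (Mf.AllOn.ch (ds_eq hu) x)
  rw [n2_eq hH, tr_aa hH, h2, ← mul_div_assoc]
  exact div_le_div_of_nonneg_right h1.2 hd.le

/-- The bound for `bet` of a function of class `C^1`. -/
theorem n2_bet_le (hP : St_PW1) (hH : M.Met H) {u : M.X → ℝ} (hu : C1 M u) (x : M.X) :
    n2 M H (bet M H α u) x ≤ 2 * (M.gr H u u x * M.tr H (aa M H α) x) +
      2 * (u x ^ 2 * n2 M H (mu M (ph M H) α) x) := by
  have hd := Mf.pd_det_re (hH.ev_pos x)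
  have h0 := n2_da_le (α := α) hP hH hu x
  obtain ⟨ha, -, -, -, hb⟩ := hP n (M.ev H x)
  have h1 := ((hb (hH.ev_pos x)).1 (M.ev (da M u α) x)
    ((-(u x : ℂ)) • M.ev (mu M (ph M H) α) x)).2.2.2.2
  have h2 : M.ev (bet M H α u) x =
      M.ev (da M u α) x + (-(u x : ℂ)) • M.ev (mu M (ph M H) α) x := by
    simp only [Mf.ev, bet, Mf.ch_symm, neg_smul, sub_eq_add_neg]
  have h3 : (p2 (M.ev H x) ((-(u x : ℂ)) • M.ev (mu M (ph M H) α) x)
      ((-(u x : ℂ)) • M.ev (mu M (ph M H) α) x)).re =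
      u x ^ 2 * (p2 (M.ev H x) (M.ev (mu M (ph M H) α) x) (M.ev (mu M (ph M H) α) x)).re := by
    rw [(ha _ _ 0 _).2.2.2.2.1, (ha _ _ 0 _).2.2.2.2.2, ← mul_assoc,
      show -(u x : ℂ) * star (-(u x : ℂ)) = ((u x ^ 2 : ℝ) : ℂ) by simp [sq], re_ofReal_mul]
  rw [n2_eq hH] at h0
  rw [n2_eq hH, n2_eq hH, h2]
  rw [h3] at h1
  have h4 := div_le_div_of_nonneg_right h1 hd.le
  rw [add_div, mul_div_assoc, mul_div_assoc, mul_div_assoc] at h4
  linarith

/-- Smooth functions whose `bet` converges uniformly to the `bet` of a function of class `C^1`. -/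
theorem bet_approx [M.Cpt] (hP : St_PW1) (hS : St_S2K) (hM : St_MUS) (hH : M.Met H)
    (hα : H1 M 1 α) {F : M.X → ℝ} (hF : C1 M F) {ε : ℝ} (hε : 0 < ε) :
    ∃ G, M.Sm G ∧ (∀ x, |G x - F x| ≤ ε) ∧
      ∀ x, n2 M H (fun e z => bet M H α G e z - bet M H α F e z) x ≤ ε := by
  obtain ⟨-, -, s1, s2, -, s3, -⟩ := hS n M H hH
  obtain ⟨m1, -, m2, -⟩ := hM n M H α hH hα
  have hm := (m2 _ m1).1
  obtain ⟨A, hA, bA⟩ := ((mINV n M H hH).1 _ (s3 α hα).1.toTen).2.1.exists_bound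
  obtain ⟨B, hB, bB⟩ := (s1 _ _ hm hm).2.2.2.2.2.1.exists_bound
  have hp : 0 < 2 * A + 2 * B := by positivity
  obtain ⟨δ, hδ, h1, h2, h3⟩ : ∃ δ : ℝ, 0 < δ ∧ δ ≤ 1 ∧ δ ≤ ε ∧ δ * (2 * A + 2 * B) ≤ ε :=
    ⟨min 1 (min ε (ε / (2 * A + 2 * B))), by positivity, min_le_left _ _,
      (min_le_right _ _).trans (min_le_left _ _),
      (le_div_iff₀ hp).1 ((min_le_right _ _).trans (min_le_right _ _))⟩
  obtain ⟨G, g1, g2, -, g3, -⟩ := smo1 hH hF hδ
  refine ⟨G, g1, fun x => (g2 x).trans h2, fun x => ?_⟩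
  have hu := (c1_of_sm g1).sub hF
  have e : n2 M H (fun e z => bet M H α G e z - bet M H α F e z) x =
      n2 M H (bet M H α fun x => G x - F x) x := by
    rw [n2_eq hH, n2_eq hH]
    simp only [Mf.ev, Mf.AllOn.ch (bet_sub (H := H) (α := α) (c1_of_sm g1) hF) x]
  have a1 : M.gr H (fun x => G x - F x) (fun x => G x - F x) x * M.tr H (aa M H α) x ≤ δ * A :=
    mul_le_mul (g3 x) ((le_abs_self _).trans (bA x)) (hH.tr_nonneg (s3 α hα).2.1 x) hδ.le
  have a2 : (G x - F x) ^ 2 ≤ δ := by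
    have := sq_le_sq' (abs_le.1 (g2 x)).1 (abs_le.1 (g2 x)).2
    nlinarith
  have a3 : (G x - F x) ^ 2 * n2 M H (mu M (ph M H) α) x ≤ δ * B :=
    mul_le_mul a2 ((le_abs_self _).trans (bB x)) (s2 _ 0 x).2.1 hδ.le
  have := n2_bet_le (α := α) hP hH hu x
  rw [e]
  linarith

end Pool.Agent.Lib.F4.W82
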